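import Pool.Agent.CFZ.Stmts

/-!
Squad CFZ, module ABS: absoluteness of capturing.
-/

set_option autoImplicit false

namespace Pool.Agent.CFZ

namespace ABS_

variable {A B : Type} [CompleteBooleanAlgebra A] [CompleteBooleanAlgebra B]

theorem iniV_append (t : L) (u : Finset ℕ) (F : ℕ → Finset ℕ → B) :
    iniV t F ⊓ F t.length u ≤ iniV (t ++ [u]) F := by
  unfold iniV
  refine le_iInf fun i => ?_
  rcases lt_or_ge i.1 t.length with hi | hi
  · refine inf_le_left.trans ((iInf_le _ ⟨i.1, hi⟩).trans ?_)
    have : (t ++ [u]).get i = t.get ⟨i.1, hi⟩ := by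
      simp [List.getElem_append_left hi]
    rw [this]
  · have h1 : i.1 = t.length := by
      have := i.2
      simp only [List.length_append, List.length_singleton] at this
      omega
    have : (t ++ [u]).get i = u := by
      simp [h1]
    rw [this, h1]
    exact inf_le_right

end ABS_

open ABS_ in
theorem abs_proof (hWPR : Stmt_WPR) : Stmt_ABS := by
  classical
  intro A B _ _ k O E F t ht hF
  have hF1 : (⨅ n, ⨆ u, F n u) = ⊤ :=
    top_le_iff.1 (hF ▸ (inf_le_left.trans inf_le_left).trans inf_le_left)
  have hF3 : (⨅ n, (F n ∅)ᶜ) = ⊤ :=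
    top_le_iff.1 (hF ▸ inf_le_left.trans inf_le_right)
  have hF4 : (⨅ (n) (u) (v) (_ : ¬ Lt u v), (F n u ⊓ F (n + 1) v)ᶜ) = ⊤ :=
    top_le_iff.1 (hF ▸ inf_le_right)
  have hE : ∀ n, F n ∅ = ⊥ := fun n => compl_eq_top.1 ((iInf_eq_top.1 hF3) n)
  have hS : ∀ n u v, ¬ Lt u v → F n u ⊓ F (n + 1) v = ⊥ := by
    intro n u v huv
    have h1 := (iInf_eq_top.1 ((iInf_eq_top.1 ((iInf_eq_top.1 ((iInf_eq_top.1 hF4) n)) u)) v)) huv
    exact compl_eq_top.1 h1
  set R : L → B := fun t => ⨆ (r : L) (_ : t <+: r ∧ Blist r), (iniV r F ⊓ k (O r)) with hR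
  set T : L → B := fun t => tailV t.length (fun u => k (E u)) F with hT
  set X : L → A := fun t => if Blist t then sSup {a | k a ⊓ iniV t F ⊓ T t ≤ R t} else ⊤ with hX
  have hX1 : ∀ t, Blist t → k (X t) ⊓ iniV t F ⊓ T t ≤ R t := by
    intro t ht
    have : X t = sSup {a | k a ⊓ iniV t F ⊓ T t ≤ R t} := if_pos ht
    rw [this, CHom.map_sSup, inf_assoc, sSup_inf_eq]
    refine iSup₂_le ?_
    rintro _ ⟨a, ha, rfl⟩
    rw [← inf_assoc]
    exact ha
  have hX2 : ∀ t a, (Blist t → k a ⊓ iniV t F ⊓ T t ≤ R t) → a ≤ X t := by
    intro t a h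
    by_cases ht : Blist t
    · have : X t = sSup {a | k a ⊓ iniV t F ⊓ T t ≤ R t} := if_pos ht
      rw [this]
      exact le_sSup (h ht)
    · have : X t = ⊤ := if_neg ht
      rw [this]
      exact le_top
  have hpre : ∀ t, O t ⊔ (⨅ (u) (_ : Gt t u), (SpV E u ⇨ X (t ++ [u]))) ≤ X t := by
    intro t
    refine sup_le ?_ ?_
    · refine hX2 t _ fun ht => ?_
      refine le_iSup₂_of_le t ⟨List.prefix_refl _, ht⟩ ?_
      exact inf_le_left.trans (le_of_eq (inf_comm _ _))
    · refine hX2 t _ fun ht => ?_
      have h1 := (iInf_eq_top.1 hF1) t.length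
      rw [← inf_top_eq (k (⨅ (u) (_ : Gt t u), (SpV E u ⇨ X (t ++ [u]))) ⊓ iniV t F ⊓ T t), ← h1,
        inf_iSup_eq]
      refine iSup_le fun u => ?_
      by_cases hu : Gt t u
      · have hbl : Blist (t ++ [u]) := by
          refine ⟨?_, ?_⟩
          · intro w hw
            rcases List.mem_append.1 hw with hw | hw
            · exact ht.1 w hw
            · rw [List.mem_singleton.1 hw]
              exact hu.1
          · rw [List.pairwise_append]
            refine ⟨ht.2, List.pairwise_singleton _ _, ?_⟩
            intro w hw w' hw'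
            rw [List.mem_singleton.1 hw']
            exact hu.2 w hw
        have h2 : k (⨅ (u) (_ : Gt t u), (SpV E u ⇨ X (t ++ [u]))) ⊓ iniV t F ⊓ T t ⊓ F t.length u ≤
            k (X (t ++ [u])) ⊓ iniV (t ++ [u]) F ⊓ T (t ++ [u]) := by
          refine le_inf (le_inf ?_ ?_) ?_
          · have h3 : k (⨅ (u) (_ : Gt t u), (SpV E u ⇨ X (t ++ [u]))) ≤
                (k (SpV E u) ⇨ k (X (t ++ [u]))) := by
              rw [← CHom.map_himp]
              exact k.mono (iInf₂_le u hu)
            have h4 : T t ⊓ F t.length u ≤ k (SpV E u) := by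
              rw [CHom.map_SpV]
              have h5 : T t ≤ (F t.length u ⇨ SpV (fun u => k (E u)) u) := by
                show tailV t.length (fun u => k (E u)) F ≤ _
                unfold tailV
                exact iInf_le_of_le t.length (iInf_le_of_le le_rfl (iInf_le _ u))
              exact (inf_le_inf_right _ h5).trans himp_inf_le
            calc k (⨅ (u) (_ : Gt t u), (SpV E u ⇨ X (t ++ [u]))) ⊓ iniV t F ⊓ T t ⊓ F t.length u
                ≤ (k (SpV E u) ⇨ k (X (t ++ [u]))) ⊓ k (SpV E u) := by
                  refine le_inf ?_ ?_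
                  · exact ((inf_le_left.trans inf_le_left).trans inf_le_left).trans h3
                  · exact (le_inf (inf_le_left.trans inf_le_right) inf_le_right).trans h4
              _ ≤ k (X (t ++ [u])) := himp_inf_le
          · refine le_trans ?_ (iniV_append t u F)
            exact le_inf ((inf_le_left.trans inf_le_left).trans inf_le_right) inf_le_right
          · refine (inf_le_left.trans inf_le_right).trans ?_
            show tailV t.length (fun u => k (E u)) F ≤ tailV (t ++ [u]).length (fun u => k (E u)) F
            unfold tailV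
            refine le_iInf fun i => le_iInf fun hi => ?_
            refine iInf_le_of_le i (iInf_le_of_le ?_ le_rfl)
            simp only [List.length_append, List.length_singleton] at hi
            omega
        refine h2.trans ((hX1 _ hbl).trans ?_)
        refine iSup₂_le fun r hr => ?_
        exact le_iSup₂_of_le r ⟨(List.prefix_append _ _).trans hr.1, hr.2⟩ le_rfl
      · have h2 : iniV t F ⊓ F t.length u = ⊥ := by
          rcases Finset.eq_empty_or_nonempty u with rfl | hne
          · rw [hE, inf_bot_eq]
          · have h3 : ∃ w ∈ t, ¬ Lt w u := by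
              by_contra hc
              push Not at hc
              exact hu ⟨hne, hc⟩
            rcases List.eq_nil_or_concat t with rfl | ⟨s, w, rfl⟩
            · obtain ⟨w, hw, -⟩ := h3
              simp at hw
            · have hwu : ¬ Lt w u := by
                intro hwu
                obtain ⟨w', hw', h4⟩ := h3
                rw [List.concat_eq_append] at hw' ht
                rcases List.mem_append.1 hw' with h5 | h5
                · apply h4
                  have h6 := (List.pairwise_append.1 ht.2).2.2 w' h5 w (by simp)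
                  obtain ⟨j, hj⟩ := ht.1 w (by simp)
                  intro i hi i' hi'
                  exact (h6 i hi j hj).trans (hwu j hj i' hi')
                · rw [List.mem_singleton.1 h5] at h4
                  exact h4 hwu
              have h7 : iniV (s.concat w) F ≤ F s.length w := by
                unfold iniV
                have hlt : s.length < (s.concat w).length := by simp
                refine (iInf_le _ ⟨s.length, hlt⟩).trans ?_
                simp
              rw [eq_bot_iff]
              have h8 : (s.concat w).length = s.length + 1 := by simp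
              rw [h8, ← hS s.length w u hwu]
              exact inf_le_inf_right _ h7
        have h3 : k (⨅ (u) (_ : Gt t u), (SpV E u ⇨ X (t ++ [u]))) ⊓ iniV t F ⊓ T t ⊓ F t.length u ≤
            iniV t F ⊓ F t.length u :=
          le_inf ((inf_le_left.trans inf_le_left).trans inf_le_right) inf_le_right
        refine h3.trans ?_
        rw [h2]
        exact bot_le
  have hW := (hWPR A O E).2.1 X hpre t
  refine le_trans ?_ (hX1 t ht)
  exact inf_le_inf_right _ (inf_le_inf_right _ (k.mono hW))

end Pool.Agent.CFZ
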