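import Pool.Agent.CFZ.Stmts

set_option autoImplicit false

namespace Pool.Agent.CFZ

namespace ACC_

variable {A : Type} [CompleteBooleanAlgebra A]

theorem blk_iff (E : Finset ℕ → A) : BlkV E = ⊤ ↔
    E ∅ = ⊥ ∧ (∀ u v, ¬ (u = v ∨ Lt u v ∨ Lt v u) → E u ⊓ E v = ⊥) ∧
      ∀ n : ℕ, ⨆ (u) (_ : ∀ i ∈ u, n < i), E u = ⊤ := by
  unfold BlkV
  rw [inf_eq_top_iff, inf_eq_top_iff, compl_eq_top]
  constructor
  · rintro ⟨⟨h1, h2⟩, h3⟩
    refine ⟨h1, fun u v huv => ?_, fun n => iInf_eq_top.1 h3 n⟩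
    have h4 := iInf_eq_top.1 (iInf_eq_top.1 (iInf_eq_top.1 h2 u) v) huv
    exact compl_eq_top.1 h4
  · rintro ⟨h1, h2, h3⟩
    refine ⟨⟨h1, ?_⟩, iInf_eq_top.2 h3⟩
    exact iInf_eq_top.2 fun u => iInf_eq_top.2 fun v => iInf_eq_top.2 fun huv =>
      compl_eq_top.2 (h2 u v huv)

theorem le_of_LeV {E' E : Finset ℕ → A} (h : LeV E' E = ⊤) (u : Finset ℕ) : E' u ≤ SpV E u := by
  unfold LeV at h
  exact himp_eq_top_iff.1 (iInf_eq_top.1 h u)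

theorem LeV_of_le {E' E : Finset ℕ → A} (h : ∀ u, E' u ≤ SpV E u) : LeV E' E = ⊤ := by
  unfold LeV
  exact iInf_eq_top.2 fun u => himp_eq_top_iff.2 (h u)

open Classical in
/-- the part beyond `t` -/
noncomputable def bey (t : L) (E : Finset ℕ → A) (u : Finset ℕ) : A := if Gt t u then E u else ⊥

theorem exists_bound (t : L) : ∃ N : ℕ, ∀ w ∈ t, ∀ i ∈ w, i ≤ N := by
  induction t with
  | nil => exact ⟨0, fun w hw => absurd hw (List.not_mem_nil)⟩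
  | cons a t ih =>
    obtain ⟨N, hN⟩ := ih
    refine ⟨max N (a.sup id), fun w hw i hi => ?_⟩
    rcases List.mem_cons.1 hw with rfl | hw
    · exact le_max_of_le_right (Finset.le_sup (f := id) hi)
    · exact le_max_of_le_left (hN w hw i hi)

theorem bey_blk (t : L) {E : Finset ℕ → A} (h : BlkV E = ⊤) : BlkV (bey t E) = ⊤ := by
  obtain ⟨h1, h2, h3⟩ := (blk_iff E).1 h
  have hle : ∀ u, bey t E u ≤ E u := by
    intro u
    unfold bey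
    split_ifs
    · exact le_rfl
    · exact bot_le
  refine (blk_iff _).2 ⟨le_bot_iff.1 ((hle ∅).trans h1.le), fun u v huv => ?_, fun n => ?_⟩
  · exact le_bot_iff.1 ((inf_le_inf (hle u) (hle v)).trans (h2 u v huv).le)
  · obtain ⟨N, hN⟩ := exists_bound t
    rw [eq_top_iff, ← h3 (max n N)]
    refine iSup₂_le fun u hu => ?_
    rcases Finset.eq_empty_or_nonempty u with rfl | hne
    · rw [h1]
      exact bot_le
    · have hg : Gt t u := ⟨hne, fun w hw i hi j hj =>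
        lt_of_le_of_lt ((hN w hw i hi).trans (le_max_right n N)) (hu j hj)⟩
      refine le_iSup₂_of_le u (fun i hi => lt_of_le_of_lt (le_max_left n N) (hu i hi)) ?_
      unfold bey
      rw [if_pos hg]

theorem mix_blk (a : A) {F E : Finset ℕ → A} (hF : BlkV F = ⊤) (hE : BlkV E = ⊤) :
    BlkV (fun u => a ⊓ F u ⊔ aᶜ ⊓ E u) = ⊤ := by
  obtain ⟨f1, f2, f3⟩ := (blk_iff F).1 hF
  obtain ⟨e1, e2, e3⟩ := (blk_iff E).1 hE
  refine (blk_iff _).2 ⟨?_, fun u v huv => ?_, fun n => ?_⟩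
  · change a ⊓ F ∅ ⊔ aᶜ ⊓ E ∅ = ⊥
    rw [f1, e1, inf_bot_eq, inf_bot_eq, sup_bot_eq]
  · change (a ⊓ F u ⊔ aᶜ ⊓ E u) ⊓ (a ⊓ F v ⊔ aᶜ ⊓ E v) = ⊥
    have h1 : a ⊓ F u ⊓ (a ⊓ F v) = ⊥ := by
      rw [inf_inf_inf_comm, f2 u v huv, inf_bot_eq]
    have h2 : aᶜ ⊓ E u ⊓ (aᶜ ⊓ E v) = ⊥ := by
      rw [inf_inf_inf_comm, e2 u v huv, inf_bot_eq]
    have h3 : a ⊓ F u ⊓ (aᶜ ⊓ E v) = ⊥ := by
      rw [inf_inf_inf_comm, inf_compl_self, bot_inf_eq]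
    have h4 : aᶜ ⊓ E u ⊓ (a ⊓ F v) = ⊥ := by
      rw [inf_inf_inf_comm, compl_inf_self, bot_inf_eq]
    rw [inf_sup_left, inf_sup_right, inf_sup_right, h1, h2, h3, h4]
    simp
  · have h1 : a ≤ ⨆ (u) (_ : ∀ i ∈ u, n < i), (a ⊓ F u ⊔ aᶜ ⊓ E u) := by
      calc a = a ⊓ ⨆ (u) (_ : ∀ i ∈ u, n < i), F u := by rw [f3 n, inf_top_eq]
        _ = ⨆ (u) (_ : ∀ i ∈ u, n < i), a ⊓ F u := inf_iSup₂_eq _
        _ ≤ _ := iSup₂_mono fun u _ => le_sup_left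
    have h2 : aᶜ ≤ ⨆ (u) (_ : ∀ i ∈ u, n < i), (a ⊓ F u ⊔ aᶜ ⊓ E u) := by
      calc aᶜ = aᶜ ⊓ ⨆ (u) (_ : ∀ i ∈ u, n < i), E u := by rw [e3 n, inf_top_eq]
        _ = ⨆ (u) (_ : ∀ i ∈ u, n < i), aᶜ ⊓ E u := inf_iSup₂_eq _
        _ ≤ _ := iSup₂_mono fun u _ => le_sup_right
    rw [eq_top_iff, ← sup_compl_eq_top (x := a)]
    exact sup_le h1 h2

end ACC_

open ACC_ in
theorem acc_proof (hATT : Stmt_ATT) (hMXB : Stmt_MXB) (hWPR : Stmt_WPR) : Stmt_ACC := by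
  intro A _ O t E hE
  have hne : Nonempty {E' : Finset ℕ → A // BlkV E' = ⊤ ∧ LeV E' E = ⊤} :=
    ⟨⟨E, hE, LeV_of_le fun u => le_SpV E u⟩⟩
  obtain ⟨J, a, f, ha1, ha2, ha3⟩ := hATT A {E' : Finset ℕ → A // BlkV E' = ⊤ ∧ LeV E' E = ⊤}
    (fun i => WV O i.1 t)
  obtain ⟨E', h1, h2, h3⟩ := hMXB A J a (fun j => (f j).1) E ha1 ha2 (fun j => (f j).2.1)
    (fun j => (f j).2.2)
  refine ⟨E', h1, h2, fun a0 E'' hb hle => ?_⟩
  -- the mixture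
  have hsp : ∀ u, SpV E' u ≤ SpV E u := by
    intro u
    have h5 := SpV_trans (⊤ : A) E' E u (BlkV_empty h1)
      (fun w _ _ => inf_le_right.trans (le_of_LeV h2 w))
    rwa [top_inf_eq] at h5
  let E3 : Finset ℕ → A := fun u => a0 ⊓ bey t E'' u ⊔ a0ᶜ ⊓ E' u
  have hE3 : BlkV E3 = ⊤ := mix_blk a0 (bey_blk t hb) h1
  have hE3' : LeV E3 E = ⊤ := by
    refine LeV_of_le fun u => sup_le ?_ ?_
    · by_cases hg : Gt t u
      · have h6 : bey t E'' u = E'' u := by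
          unfold bey
          rw [if_pos hg]
        rw [h6]
        exact (hle u hg).trans (hsp u)
      · have h6 : bey t E'' u = ⊥ := by
          unfold bey
          rw [if_neg hg]
        rw [h6, inf_bot_eq]
        exact bot_le
    · exact inf_le_right.trans (le_of_LeV h2 u)
  have hW : a0 ⊓ WV O E'' t ≤ WV O E3 t := by
    refine (hWPR A O E'').2.2 O E3 t a0 (BlkV_empty hE3) (fun r _ => inf_le_right) ?_
    intro u hg
    have h6 : bey t E'' u = E'' u := by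
      unfold bey
      rw [if_pos hg]
    change a0 ⊓ (a0 ⊓ bey t E'' u ⊔ a0ᶜ ⊓ E' u) ≤ SpV E'' u
    rw [h6, inf_sup_left]
    refine sup_le ?_ ?_
    · exact inf_le_right.trans (inf_le_right.trans (le_SpV E'' u))
    · rw [← inf_assoc, inf_compl_self, bot_inf_eq]
      exact bot_le
  have hS : a0 ⊓ WV O E'' t ≤
      ⨆ i : {E' : Finset ℕ → A // BlkV E' = ⊤ ∧ LeV E' E = ⊤}, WV O i.1 t :=
    hW.trans (le_iSup (fun i : {E' : Finset ℕ → A // BlkV E' = ⊤ ∧ LeV E' E = ⊤} =>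
      WV O i.1 t) ⟨E3, hE3, hE3'⟩)
  have hj : ∀ j, a j ⊓ (a0 ⊓ WV O E'' t) ≤ WV O E' t := by
    intro j
    have h7 : a j ⊓ (a0 ⊓ WV O E'' t) ≤ a j ⊓ WV O (f j).1 t :=
      le_inf inf_le_left ((inf_le_inf_left (a j) hS).trans (ha3 j))
    refine h7.trans ?_
    refine (hWPR A O (f j).1).2.2 O E' t (a j) (BlkV_empty h1) (fun r _ => inf_le_right) ?_
    intro u _
    rw [h3 j u]
    exact inf_le_right.trans (le_SpV (f j).1 u)
  calc a0 ⊓ WV O E'' t = (⨆ j, a j) ⊓ (a0 ⊓ WV O E'' t) := by rw [ha2, top_inf_eq]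
    _ = ⨆ j, a j ⊓ (a0 ⊓ WV O E'' t) := iSup_inf_eq _ _
    _ ≤ WV O E' t := iSup_le hj

end Pool.Agent.CFZ
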