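import Pool.Agent.CFZ.Stmts

/-!
AMA: amalgamation of complete Boolean algebras.
-/

set_option autoImplicit false

namespace Pool.Agent.CFZ

namespace AMA_

section

variable {K A B : Type} [CompleteBooleanAlgebra K] [CompleteBooleanAlgebra A]
  [CompleteBooleanAlgebra B]

theorem map_sInf (r : CHom K A) (S : Set K) : r (sInf S) = ⨅ x ∈ S, r x := by
  rw [sInf_eq_iInf]; simp

/-- pairs with the same trace on `K` -/
def PP (r : CHom K A) (s : CHom K B) : Type :=
  {p : A × B // p.1 ≠ ⊥ ∧ p.2 ≠ ⊥ ∧ ∀ x : K, p.1 ≤ r x ↔ p.2 ≤ s x}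

instance (r : CHom K A) (s : CHom K B) : Preorder (PP r s) := by
  unfold PP; infer_instance

theorem le_fst {r : CHom K A} {s : CHom K B} {p q : PP r s} (h : p ≤ q) : p.1.1 ≤ q.1.1 := h.1
theorem le_snd {r : CHom K A} {s : CHom K B} {p q : PP r s} (h : p ≤ q) : p.1.2 ≤ q.1.2 := h.2

/-- the trace of a smaller element -/
theorem trace (r : CHom K A) (s : CHom K B) (b : A) (t : B)
    (h : ∀ x : K, b ≤ r x ↔ t ≤ s x) (b' : A) (hb : b' ≤ b) (x : K) :
    b' ≤ r x ↔ t ⊓ s (sInf {x | b' ≤ r x}) ≤ s x := by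
  set z := sInf {x | b' ≤ r x} with hz
  have hbz : b' ≤ r z := by
    rw [hz, map_sInf]
    exact le_iInf₂ fun x hx => hx
  constructor
  · intro hx
    have : z ≤ x := sInf_le hx
    exact inf_le_right.trans (s.mono this)
  · intro hx
    have h1 : t ≤ s (zᶜ ⊔ x) := by
      rw [CHom.map_sup, CHom.map_compl]
      rw [sup_comm, ← himp_eq, le_himp_iff]
      exact hx
    have h2 : b ≤ r (zᶜ ⊔ x) := (h _).2 h1
    have h3 : b' ≤ r (zᶜ ⊔ x) ⊓ r z := le_inf (hb.trans h2) hbz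
    rw [← CHom.map_inf] at h3
    refine h3.trans (r.mono ?_)
    rw [inf_comm, inf_sup_left]
    simp

theorem ne_bot_of (r : CHom K A) (s : CHom K B) (b : A) (t : B)
    (h : ∀ x : K, b ≤ r x ↔ t ≤ s x) (hb : b ≠ ⊥) : t ≠ ⊥ := by
  intro ht
  apply hb
  have := (h ⊥).2 (by rw [ht]; exact bot_le)
  rw [CHom.map_bot] at this
  exact le_bot_iff.1 this

/-- the two projections -/
def pfst (r : CHom K A) (s : CHom K B) : CHom A (RO (PP r s)) :=
  CHom.ofProj (fun p => p.1.1) (fun p => p.2.1) (fun _ _ h => le_fst h) (fun p b' hb hne => by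
    obtain ⟨⟨b, t⟩, h1, h2, h3⟩ := p
    have ht := trace r s b t h3 b' hb
    exact ⟨⟨(b', t ⊓ s (sInf {x | b' ≤ r x})), hne, ne_bot_of r s _ _ ht hne, ht⟩,
      ⟨hb, inf_le_left⟩, le_rfl⟩)

def psnd (r : CHom K A) (s : CHom K B) : CHom B (RO (PP r s)) :=
  CHom.ofProj (fun p => p.1.2) (fun p => p.2.2.1) (fun _ _ h => le_snd h) (fun p t' hb hne => by
    obtain ⟨⟨b, t⟩, h1, h2, h3⟩ := p
    have ht := trace s r t b (fun x => (h3 x).symm) t' hb
    exact ⟨⟨(b ⊓ r (sInf {x | t' ≤ s x}), t'), ne_bot_of s r _ _ ht hne, hne,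
      fun x => (ht x).symm⟩, ⟨inf_le_left, hb⟩, le_rfl⟩)

end

end AMA_

/-- amalgamation -/
theorem ama_proof : Stmt_AMA := by
  intro K A B _ _ _ _ _ _ r s hr
  have hne : Nonempty (AMA_.PP r s) := by
    set e := sInf {x | s x = ⊤} with he
    have hse : s e = ⊤ := by
      rw [he, AMA_.map_sInf]
      refine top_le_iff.1 (le_iInf₂ fun x hx => ?_)
      rw [show s x = ⊤ from hx]
    have hre : r e ≠ ⊥ := by
      intro h
      rw [hr e h, CHom.map_bot] at hse
      exact bot_ne_top hse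
    refine ⟨⟨(r e, ⊤), hre, top_ne_bot, fun x => ?_⟩⟩
    constructor
    · intro hx
      have h1 : r (e ⊓ xᶜ) = ⊥ := by
        rw [CHom.map_inf, CHom.map_compl]
        exact disjoint_iff.1 (disjoint_compl_right.mono_left hx)
      have h2 := hr _ h1
      have h3 : e ≤ x := by
        rwa [← disjoint_iff, disjoint_compl_right_iff] at h2
      exact (hse ▸ s.mono h3 : ⊤ ≤ s x)
    · intro hx
      exact r.mono (sInf_le (top_le_iff.1 hx))
  refine ⟨RO (AMA_.PP r s), inferInstance, inferInstance, AMA_.pfst r s, AMA_.psnd r s,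
    fun x => ?_⟩
  ext p
  exact p.2.2.2 x

end Pool.Agent.CFZ
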