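import Pool.Agent.CFZ.Stmts

/-! Squad CFZ: module ATT. -/

set_option autoImplicit false

namespace Pool.Agent.CFZ

theorem att_proof : Stmt_ATT := by
  intro A _ I _ w
  classical
  let r : I → I → Prop := WellOrderingRel
  have hwf : WellFounded r := IsWellFounded.wf
  have htri : ∀ i j, r i j ∨ i = j ∨ r j i := fun i j => trichotomous_of r i j
  let a : Option I → A := fun j => j.elim (⨆ i, w i)ᶜ
    (fun i => w i ⊓ (⨆ i' : {i' // r i' i}, w i')ᶜ)
  have hle : ∀ i, a (some i) ≤ w i := fun i => inf_le_left
  have hlt : ∀ i j, r i j → a (some i) ⊓ a (some j) = ⊥ := by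
    intro i j hij
    have h1 : a (some i) ≤ ⨆ i' : {i' // r i' j}, w i' :=
      (hle i).trans (le_iSup (fun i' : {i' // r i' j} => w i') ⟨i, hij⟩)
    have h2 : a (some j) ≤ (⨆ i' : {i' // r i' j}, w i')ᶜ := inf_le_right
    have h3 := inf_le_inf h1 h2
    rw [inf_compl_self] at h3
    exact le_bot_iff.1 h3
  refine ⟨Option I, a, fun j => j.elim (Classical.arbitrary I) id, ?_, ?_, ?_⟩
  · intro i j hij
    cases i with
    | none =>
      cases j with
      | none => exact absurd rfl hij
      | some j =>
        have h1 : a none ≤ (⨆ i, w i)ᶜ := le_rfl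
        have h3 := inf_le_inf h1 ((hle j).trans (le_iSup w j))
        rw [compl_inf_self] at h3
        exact le_bot_iff.1 h3
    | some i =>
      cases j with
      | none =>
        have h1 : a none ≤ (⨆ i, w i)ᶜ := le_rfl
        have h3 := inf_le_inf ((hle i).trans (le_iSup w i)) h1
        rw [inf_compl_self] at h3
        exact le_bot_iff.1 h3
      | some j =>
        have hne : i ≠ j := fun h => hij (congrArg some h)
        rcases htri i j with h | h | h
        · exact hlt i j h
        · exact absurd h hne
        · rw [inf_comm]; exact hlt j i h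
  · -- the supremum
    have key : ∀ i, w i ≤ ⨆ j, a j := by
      intro i
      induction i using hwf.induction with
      | _ i ih =>
        have h1 : w i ⊓ (⨆ i' : {i' // r i' i}, w i') ≤ ⨆ j, a j :=
          inf_le_right.trans (iSup_le fun i' => ih i'.1 i'.2)
        have h2 : w i ⊓ (⨆ i' : {i' // r i' i}, w i')ᶜ ≤ ⨆ j, a j := le_iSup a (some i)
        have h3 := sup_le h1 h2
        rwa [← inf_sup_left, sup_compl_eq_top, inf_top_eq] at h3
    have h1 : (⨆ i, w i) ≤ ⨆ j, a j := iSup_le key
    have h2 : (⨆ i, w i)ᶜ ≤ ⨆ j, a j := le_iSup a none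
    have h3 := sup_le h1 h2
    rw [sup_compl_eq_top] at h3
    exact top_le_iff.1 h3
  · intro j
    cases j with
    | none =>
      have h1 : a none ≤ (⨆ i, w i)ᶜ := le_rfl
      have h3 := inf_le_inf_right (⨆ i, w i) h1
      rw [compl_inf_self] at h3
      exact h3.trans bot_le
    | some i => exact inf_le_left.trans (hle i)

end Pool.Agent.CFZ
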