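import Pool.Agent.CFZ.Stmts

/-!
Squad CFZ, module BPT: there is a set without the Baire property.
-/

set_option autoImplicit false

namespace Pool.Agent.CFZ

open CategoryTheory Fm

namespace BPT_

section Gen

variable {C : Type 1} [Category.{0} C]

theorem imp' {p q : Fm} {c : C} {ρ : ℕ → LN c} (H : Frc (.imp p q) c ρ) (Hp : Frc p c ρ) :
    Frc q c ρ := by
  have h := H c (𝟙 c)
  rw [rr_id] at h
  exact h Hp

theorem all' {p : Fm} {c : C} {ρ : ℕ → LN c} (H : Frc (.all p) c ρ) (x : LN c) :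
    Frc p c (cons x ρ) := by
  have h := H c (𝟙 c) x
  rw [rr_id] at h
  exact h

theorem ex' {p : Fm} {c : C} {ρ : ℕ → LN c} (H : Frc p.ex c ρ) : ∃ (e : C) (k : c ⟶ e) (x : LN e),
    Frc p e (cons x (rr ρ k)) := by
  obtain ⟨e, k, x, h⟩ := (frc_ex ρ p).1 H c (𝟙 c)
  rw [Category.id_comp] at h
  exact ⟨e, k, x, h⟩

theorem FSub_mono {c d : C} {x y : LN c} (H : FSub x y) (k : c ⟶ d) : FSub (x.r k) (y.r k) := by
  intro e h z hz
  rw [LN.r_r] at hz ⊢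
  exact H e (k ≫ h) z hz

theorem FSub_congr {c : C} {x x' y y' : LN c} (hx : x.eqf x') (hy : y.eqf y') (H : FSub x y) :
    FSub x' y' := by
  intro e h z hz
  rw [← LN.memf_iff_of_eqf hy]
  apply H
  rw [LN.memf_iff_of_eqf hx]
  exact hz

/-- a moving name -/
theorem r_eqf {c d e : C} {x : LN c} {y : LN d} {k : c ⟶ d} (h : (x.r k).eqf y) (l : d ⟶ e) :
    (x.r (k ≫ l)).eqf (y.r l) := by
  have := LN.eqf_mono h l
  rwa [LN.r_r] at this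

end Gen

/-- the predicate of membership of a moving name -/
def FPV {c : Ob} (V : (d : Ob) → LN d) (hV : ∀ (d e : Ob) (h : d ⟶ e), ((V d).r h).eqf (V e))
    (Y : LN c) : FP c where
  p d h := (V d).memf (Y.r h)
  mono := by
    intro d e h k H
    have h1 := LN.memf_mono H k
    rw [LN.r_r] at h1
    exact LN.memf_congr (hV d e k) (LN.eqf_refl _) h1
  reg := by
    intro d h H
    apply LN.memf_reg
    intro e k
    obtain ⟨e', l, H1⟩ := H e k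
    refine ⟨e', l, ?_⟩
    rw [LN.r_r]
    exact LN.memf_congr (LN.eqf_symm (hV d e' (k ≫ l))) (LN.eqf_refl _) H1

section Alg

variable {A B : Type} [CompleteBooleanAlgebra A] [CompleteBooleanAlgebra B]

theorem map_RealV (h : CHom A B) (x : ℕ → ℕ → A) :
    h (RealV x) = RealV (fun n m => h (x n m)) := by
  simp [RealV]

theorem map_BrV (h : CHom A B) (x : ℕ → ℕ → A) (t : List ℕ) :
    h (BrV x t) = BrV (fun n m => h (x n m)) t := by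
  simp [BrV]

theorem AlmV_mono {a b b' : ℕ → A} (h : ∀ m, b m ≤ b' m) : AlmV a b ≤ AlmV a b' := by
  unfold AlmV
  exact iSup_mono fun n => iInf_mono fun m => iInf_mono fun _ => himp_le_himp_left (h m)

theorem contra [Nontrivial A] {a b : ℕ → A} (h1 : AlmV a b = ⊤) (h2 : AlmV a (fun m => (b m)ᶜ) = ⊤)
    (h3 : InfV a = ⊤) : False := by
  have h4 : AlmV a b ⊓ AlmV a (fun m => (b m)ᶜ) ≤ (InfV a)ᶜ := by
    unfold AlmV InfV
    rw [iSup_inf_eq]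
    refine iSup_le fun n => ?_
    rw [inf_iSup_eq]
    refine iSup_le fun n' => ?_
    rw [compl_iInf]
    refine le_iSup_of_le (max n n') ?_
    simp only [compl_iSup]
    refine le_iInf₂ fun m hm => ?_
    have e1 : (⨅ m, ⨅ (_ : n ≤ m), (a m ⇨ b m)) ≤ (a m ⇨ b m) :=
      iInf₂_le m ((le_max_left _ _).trans hm)
    have e2 : (⨅ m, ⨅ (_ : n' ≤ m), (a m ⇨ (b m)ᶜ)) ≤ (a m ⇨ (b m)ᶜ) :=
      iInf₂_le m ((le_max_right _ _).trans hm)
    refine (inf_le_inf e1 e2).trans ?_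
    rw [← himp_inf_distrib, inf_compl_self, himp_bot]
  rw [h1, h2, h3, inf_top_eq, compl_top, top_le_iff] at h4
  exact bot_ne_top h4

end Alg

/-- density of the relation `G` -/
def fD : Fm := all (imp (mem 0 4) (all (imp (seqF 5 0)
    (ex (and (seqF 6 0) (and (subF 1 0) (appF 3 2 0)))))))

/-- `x` meets all the dense sets -/
def fH : Fm := all (imp (mem 0 5) (ex (and (seqF 6 0) (and (subF 0 2) (appF 3 1 0)))))

/-- `x` has an initial segment in `U` -/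
def fU : Fm := ex (and (mem 0 3) (and (seqF 5 0) (subF 0 1)))

/-- the main clause -/
def fB : Fm := all (imp (funF 0 4 4) (imp fH (iff (mem 0 3) fU)))

theorem baire_eq : baireF 1 0 = ex (ex (and fD fB)) := rfl

/-- the situation at the stage `d` -/
structure Ctx (d : Ob) (σ : ℕ → LN d) (u : List ℕ → d.A) (g : ℕ → List ℕ → d.A) : Prop where
  hw : (σ 3).eqf (omN d)
  hD : Frc fD d σ
  hB : Frc fB d σ
  hu : ∀ (s : List ℕ) (e : Ob) (k : d ⟶ e), (seqN e s).memf ((σ 1).r k) ↔ k.h (u s) = ⊤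
  hg : ∀ (n : ℕ) (s : List ℕ) (e : Ob) (k : d ⟶ e),
    (opN (natN e n) (seqN e s)).memf ((σ 0).r k) ↔ k.h (g n s) = ⊤

section Names

variable (hNAT : Stmt_NAT) (hOPN : Stmt_OPN) (hSQA : Stmt_SQA) (hSQB : Stmt_SQB)

include hNAT in
theorem om_mv {d e : Ob} {x : LN d} (h : x.eqf (omN d)) (k : d ⟶ e) : (x.r k).eqf (omN e) :=
  LN.eqf_trans (LN.eqf_mono h k) ((hNAT Ob).2.1 d e k)

include hNAT in
theorem nat_mv {d e : Ob} {x : LN d} {n : ℕ} (h : x.eqf (natN d n)) (k : d ⟶ e) :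
    (x.r k).eqf (natN e n) :=
  LN.eqf_trans (LN.eqf_mono h k) ((hNAT Ob).1 d e k n)

include hSQA in
theorem seq_mv {d e : Ob} {x : LN d} {s : List ℕ} (h : x.eqf (seqN d s)) (k : d ⟶ e) :
    (x.r k).eqf (seqN e s) :=
  LN.eqf_trans (LN.eqf_mono h k) ((hSQA Ob).1 d e k s)

include hOPN in
theorem op_mv {d e : Ob} {a b : LN d} {a' b' : LN e} {k : d ⟶ e} (ha : (a.r k).eqf a')
    (hb : (b.r k).eqf b') : ((opN a b).r k).eqf (opN a' b') :=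
  LN.eqf_trans ((hOPN Ob).1 d e k a b) (((hOPN Ob).2.1 e _ _ _ _).2 ⟨ha, hb⟩)

include hSQA hSQB in
theorem seqF_of {c : Ob} {ρ : ℕ → LN c} {i j : ℕ} {s : List ℕ} (h1 : (ρ i).eqf (omN c))
    (h2 : (ρ j).eqf (seqN c s)) : Frc (seqF i j) c ρ :=
  (hSQB Ob c ρ i j h1).2 fun d h => ⟨d, 𝟙 d, s, by
    rw [Category.comp_id]
    exact seq_mv hSQA h2 h⟩

include hNAT hOPN hSQA hSQB in
/-- the sets `g n` are dense -/
theorem dens (hRST : Stmt_RST) {d : Ob} {σ : ℕ → LN d} {u : List ℕ → d.A}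
    {g : ℕ → List ℕ → d.A} (H : Ctx d σ u g) (n : ℕ) (s : List ℕ) :
    (⨆ (t) (_ : s <+: t), g n t) = ⊤ := by
  by_contra hne
  obtain ⟨e, k, hk, -⟩ := hRST d (⨆ (t) (_ : s <+: t), g n t)ᶜ (by
    intro h
    exact hne (compl_eq_bot.1 h))
  have h1 := frc_mono fD σ k H.hD
  have hw1 : ((σ 3).r k).eqf (omN e) := om_mv hNAT H.hw k
  have h2 := imp' (all' h1 (natN e n)) (by
    refine LN.memf_congr (LN.eqf_refl _) (LN.eqf_symm hw1) ?_
    rw [(hNAT Ob).2.2.2.2]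
    intro e' h'
    exact ⟨e', 𝟙 e', n, by
      rw [Category.comp_id]
      exact (hNAT Ob).1 e e' h' n⟩)
  have h3 := imp' (all' h2 (seqN e s)) (seqF_of hSQA hSQB hw1 (LN.eqf_refl _))
  obtain ⟨e1, k1, t, h4⟩ := ex' h3
  rw [frc_and, frc_and] at h4
  obtain ⟨h5, h6, h7⟩ := h4
  have hw2 : (((σ 3).r k).r k1).eqf (omN e1) := om_mv hNAT hw1 k1
  obtain ⟨e2, k2, s', h8⟩ := (hSQB Ob e1 _ 6 0 hw2).1 h5 e1 (𝟙 e1)
  rw [Category.id_comp] at h8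
  have h9 : FSub ((seqN e s).r k1) t := (((hOPN Ob).2.2 e1 _).2.2 1 0).1 h6
  have h10 : FSub (seqN e2 s) (seqN e2 s') := by
    refine FSub_congr ?_ h8 (FSub_mono h9 k2)
    rw [LN.r_r]
    exact (hSQA Ob).1 e e2 (k1 ≫ k2) s
  have h11 : s <+: s' := (((hSQA Ob).2.1 e2 s s').2).1 h10
  have h12 : (opN ((natN e n).r k1) t).memf (((σ 0).r k).r k1) :=
    (((hOPN Ob).2.2 e1 _).2.1 3 2 0).1 h7
  have h13 : (opN (natN e2 n) (seqN e2 s')).memf ((σ 0).r (k ≫ k1 ≫ k2)) := by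
    have h14 := LN.memf_mono h12 k2
    rw [LN.r_r, LN.r_r] at h14
    refine LN.memf_congr (op_mv hOPN ?_ h8) ?_ h14
    · rw [LN.r_r]
      exact (hNAT Ob).1 e e2 (k1 ≫ k2) n
    · exact LN.eqf_refl _
  rw [H.hg] at h13
  have h15 : g n s' ≤ ⨆ (t) (_ : s <+: t), g n t :=
    le_iSup₂ (f := fun t (_ : s <+: t) => g n t) s' h11
  have h16 : (k ≫ k1 ≫ k2).h (⨆ (t) (_ : s <+: t), g n t) = ⊤ :=
    top_le_iff.1 (h13.symm.le.trans (CHom.mono _ h15))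
  have h17 : (k ≫ k1 ≫ k2).h (⨆ (t) (_ : s <+: t), g n t)ᶜ = ⊤ := by
    rw [Ob.comp_h, hk, CHom.map_top]
  rw [CHom.map_compl, h16, compl_top] at h17
  exact bot_ne_top h17

include hNAT hOPN hSQA hSQB in
/-- a generic real meets all the dense sets -/
theorem hyp (hRST : Stmt_RST) (hNRN : Stmt_NRN) (hNRE : Stmt_NRE) {d : Ob} {σ : ℕ → LN d}
    {u : List ℕ → d.A} {g : ℕ → List ℕ → d.A} (H : Ctx d σ u g) {d2 : Ob} (kk : d ⟶ d2)
    (x : ℕ → ℕ → d2.A) (X : LN d2) (hX : IsRl X x)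
    (hgen : ∀ n, (⨆ t, (kk.h (g n t) ⊓ BrV x t)) = ⊤) :
    Frc fH d2 (cons X (rr σ kk)) := by
  intro e k z e1 k1 hz
  have hz1 : (z.r k1).memf ((((σ 3).r kk).r k).r k1) := hz
  have hw1 : ((((σ 3).r kk).r k).r k1).eqf (omN e1) :=
    om_mv hNAT (om_mv hNAT (om_mv hNAT H.hw kk) k) k1
  have hz2 := LN.memf_congr (LN.eqf_refl _) hw1 hz1
  rw [(hNAT Ob).2.2.2.2] at hz2
  rw [frc_ex]
  intro e2 k2
  obtain ⟨e3, k3, m, h1⟩ := hz2 e2 k2
  rw [LN.r_r] at h1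
  have h2 := congrArg (k ≫ k1 ≫ k2 ≫ k3).h.f (hgen m)
  rw [CHom.map_top, CHom.map_iSup] at h2
  have h3 : ∃ t, (k ≫ k1 ≫ k2 ≫ k3).h (kk.h (g m t) ⊓ BrV x t) ≠ ⊥ := by
    by_contra hcon
    push Not at hcon
    rw [iSup_congr hcon, iSup_bot] at h2
    exact bot_ne_top h2
  obtain ⟨t, h4⟩ := h3
  obtain ⟨e4, k4, h5, -⟩ := hRST e3 _ h4
  rw [CHom.map_inf, CHom.map_inf, inf_eq_top_iff] at h5
  obtain ⟨h6, h7⟩ := h5
  refine ⟨e4, k3 ≫ k4, seqN e4 t, ?_⟩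
  rw [frc_and, frc_and]
  refine ⟨?_, ?_, ?_⟩
  · apply seqF_of hSQA hSQB (s := t)
    · change (((((σ 3).r kk).r k).r k1).r (k2 ≫ k3 ≫ k4)).eqf (omN e4)
      exact om_mv hNAT hw1 _
    · exact LN.eqf_refl _
  · rw [((hOPN Ob).2.2 e4 _).2.2 0 2]
    change FSub (seqN e4 t) (((X.r k).r k1).r (k2 ≫ k3 ≫ k4))
    rw [LN.r_r, LN.r_r]
    have h8 := (hNRN d2).2.2.2.2.1 X x e4 (k ≫ k1 ≫ k2 ≫ k3 ≫ k4) hX
    rw [(((hNRE e4).1 _ _ h8).2.1 t)]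
    rw [← map_BrV]
    exact h7
  · rw [((hOPN Ob).2.2 e4 _).2.1 3 1 0]
    change (opN ((z.r k1).r (k2 ≫ k3 ≫ k4)) (seqN e4 t)).memf
      ((((σ 0).r kk).r k).r k1 |>.r (k2 ≫ k3 ≫ k4))
    have h9 := (H.hg m t e4 (kk ≫ k ≫ k1 ≫ k2 ≫ k3 ≫ k4)).2 h6
    rw [LN.r_r, LN.r_r, LN.r_r]
    refine LN.memf_congr ?_ (LN.eqf_refl _) h9
    rw [(hOPN Ob).2.1]
    refine ⟨LN.eqf_symm ?_, LN.eqf_refl _⟩
    have h10 := nat_mv hNAT h1 k4
    rw [LN.r_r] at h10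
    exact h10

include hNAT in
/-- a nice name of a real is a function -/
theorem isfun (hFUN : Stmt_FUN) (hNRF : Stmt_NRF) {d : Ob} {σ : ℕ → LN d}
    {u : List ℕ → d.A} {g : ℕ → List ℕ → d.A} (H : Ctx d σ u g) {d2 : Ob} (kk : d ⟶ d2)
    (x : ℕ → ℕ → d2.A) (X : LN d2) (hX : IsRl X x) (hx : RealV x = ⊤) :
    Frc (funF 0 4 4) d2 (cons X (rr σ kk)) := by
  have h1 : FFun X (omN d2) (omN d2) := hNRF d2 X x hX hx
  have h2 : Frc (funF 0 4 4) d2 (fun i => if i = 4 then omN d2 else cons X (rr σ kk) i) := by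
    rw [hFUN]
    exact h1
  refine (frc_congr _ _ _ ?_).2 h2
  intro i
  by_cases hi : i = 4
  · subst hi
    rw [if_pos rfl]
    exact om_mv hNAT H.hw kk
  · rw [if_neg hi]
    exact LN.eqf_refl _

include hNAT hOPN hSQA hSQB in
/-- the main clause for a generic real -/
theorem clause (hRST : Stmt_RST) (hNRN : Stmt_NRN) (hNRE : Stmt_NRE) (hFUN : Stmt_FUN)
    (hNRF : Stmt_NRF) {d : Ob} {σ : ℕ → LN d}
    {u : List ℕ → d.A} {g : ℕ → List ℕ → d.A} (H : Ctx d σ u g) {d2 : Ob} (kk : d ⟶ d2)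
    (x : ℕ → ℕ → d2.A) (X : LN d2) (hX : IsRl X x) (hx : RealV x = ⊤)
    (hgen : ∀ n, (⨆ t, (kk.h (g n t) ⊓ BrV x t)) = ⊤) :
    X.memf ((σ 2).r kk) ↔ Frc fU d2 (cons X (rr σ kk)) := by
  have h1 := frc_mono fB σ kk H.hB
  have h2 := imp' (imp' (all' h1 X) (isfun hNAT hFUN hNRF H kk x X hX hx))
    (hyp hNAT hOPN hSQA hSQB hRST hNRN hNRE H kk x X hX hgen)
  rw [frc_iff] at h2
  have h3 := h2 d2 (𝟙 d2)
  rw [rr_id] at h3
  exact h3

include hNAT hSQA hSQB in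
/-- the open set, forward direction -/
theorem fU_mp {d : Ob} {σ : ℕ → LN d} {u : List ℕ → d.A} {g : ℕ → List ℕ → d.A}
    (H : Ctx d σ u g) {d2 : Ob} (kk : d ⟶ d2) (X : LN d2) (h : Frc fU d2 (cons X (rr σ kk))) :
    ∃ (e : Ob) (k : d2 ⟶ e) (s : List ℕ), k.h (kk.h (u s)) = ⊤ := by
  obtain ⟨e1, k1, t, h4⟩ := ex' h
  rw [frc_and, frc_and] at h4
  obtain ⟨h5, h6, h7⟩ := h4
  have hw2 : (((σ 3).r kk).r k1).eqf (omN e1) := om_mv hNAT (om_mv hNAT H.hw kk) k1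
  obtain ⟨e2, k2, s', h8⟩ := (hSQB Ob e1 _ 5 0 hw2).1 h6 e1 (𝟙 e1)
  rw [Category.id_comp] at h8
  have h9 : t.memf (((σ 1).r kk).r k1) := h5
  have h10 := LN.memf_congr h8 (LN.eqf_refl _) (LN.memf_mono h9 k2)
  rw [LN.r_r, LN.r_r] at h10
  exact ⟨e2, k1 ≫ k2, s', (H.hu s' e2 (kk ≫ k1 ≫ k2)).1 h10⟩

include hNAT hOPN hSQA hSQB in
/-- the open set, backward direction -/
theorem fU_mpr (hNRE : Stmt_NRE) {d : Ob} {σ : ℕ → LN d} {u : List ℕ → d.A}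
    {g : ℕ → List ℕ → d.A} (H : Ctx d σ u g) {d2 : Ob} (kk : d ⟶ d2) (x : ℕ → ℕ → d2.A)
    (X : LN d2) (hX : IsRl X x) (s : List ℕ) (h1 : kk.h (u s) = ⊤) (h2 : BrV x s = ⊤) :
    Frc fU d2 (cons X (rr σ kk)) := by
  have h3 : Frc (and (mem 0 3) (and (seqF 5 0) (subF 0 1))) d2
      (cons (seqN d2 s) (cons X (rr σ kk))) := by
    rw [frc_and, frc_and]
    refine ⟨?_, ?_, ?_⟩
    · exact (H.hu s d2 kk).2 h1
    · exact seqF_of hSQA hSQB (s := s) (om_mv hNAT H.hw kk) (LN.eqf_refl _)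
    · rw [((hOPN Ob).2.2 d2 _).2.2 0 1]
      exact (((hNRE d2).1 X x hX).2.1 s).2 h2
  rw [fU, frc_ex]
  intro e k
  refine ⟨e, 𝟙 e, (seqN d2 s).r k, ?_⟩
  have h4 := frc_mono _ _ k h3
  rw [rr_cons] at h4
  rw [Category.comp_id]
  exact h4

/-- the arrow to a stage with a smaller infinite set -/
theorem alm_arrow {A : Type} [CompleteBooleanAlgebra A] (a b : ℕ → A) :
    AlmV (fun m => a m ⊓ b m) a = ⊤ := by
  rw [← top_le_iff, ← AlmV_refl (fun m => a m ⊓ b m)]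
  exact AlmV_mono fun m => inf_le_left

include hNAT hOPN hSQA hSQB in
/-- the contradiction -/
theorem core (hRST : Stmt_RST) (hNRN : Stmt_NRN) (hNRE : Stmt_NRE) (hFUN : Stmt_FUN)
    (hNRF : Stmt_NRF) (hCOH : Stmt_COH) {d : Ob} {σ : ℕ → LN d}
    {u : List ℕ → d.A} {g : ℕ → List ℕ → d.A} (H : Ctx d σ u g) {c0 : Ob} (h0 : c0 ⟶ d)
    (X0 : LN c0) (hX0 : ∀ (e : Ob) (h : c0 ⟶ e) (z : LN e),
      z.memf (X0.r h) ↔ ∀ (e1 : Ob) (k : e ⟶ e1), ∃ (e2 : Ob) (l : e1 ⟶ e2) (x : ℕ → ℕ → e2.A),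
        RealV x = ⊤ ∧ IsRl (z.r (k ≫ l)) x ∧ AlmV e2.a (fun m => x m 0) = ⊤)
    (hσ : σ 2 = X0.r h0) : False := by
  have hden := dens hNAT hOPN hSQA hSQB hRST H
  by_cases hu : ∀ s, u s = ⊥
  · obtain ⟨D, i1, i2, k, x, hx, hb, hg, ha1, ha2⟩ := hCOH d []
    let d2 : Ob := @Ob.mk D i1 i2 (fun m => k (d.a m) ⊓ x m 0) ha1
    let kk : d ⟶ d2 := Ar.mk (X := d) (Y := d2) k (alm_arrow (fun m => k (d.a m)) fun m => x m 0)
    obtain ⟨X, hX⟩ := (hNRN d2).1 x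
    have h1 := clause hNAT hOPN hSQA hSQB hRST hNRN hNRE hFUN hNRF H kk x X hX hx
      (fun n => hg (g n) (hden n))
    have h2 : X.memf ((σ 2).r kk) := by
      rw [hσ, LN.r_r, hX0]
      intro e1 k1
      refine ⟨e1, 𝟙 e1, fun n m => k1.h (x n m), ?_, ?_, ?_⟩
      · rw [← map_RealV]
        have := congrArg k1.h.f hx
        rw [CHom.map_top] at this
        exact this
      · rw [Category.comp_id]
        exact (hNRN d2).2.2.2.2.1 X x e1 k1 hX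
      · rw [← top_le_iff, ← k1.alm]
        exact AlmV_mono fun m => CHom.mono _ inf_le_right
    obtain ⟨e, k', s, h3⟩ := fU_mp hNAT hSQA hSQB H kk X (h1.1 h2)
    rw [hu s, CHom.map_bot, CHom.map_bot] at h3
    exact bot_ne_top h3
  · push Not at hu
    obtain ⟨s, hs⟩ := hu
    obtain ⟨d1, k1, hk1, -⟩ := hRST d (u s) hs
    obtain ⟨D, i1, i2, k, x, hx, hb, hg, ha1, ha2⟩ := hCOH d1 s
    let d2 : Ob := @Ob.mk D i1 i2 (fun m => k (d1.a m) ⊓ (x m 0)ᶜ) ha2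
    let kk : d1 ⟶ d2 :=
      Ar.mk (X := d1) (Y := d2) k (alm_arrow (fun m => k (d1.a m)) fun m => (x m 0)ᶜ)
    obtain ⟨X, hX⟩ := (hNRN d2).1 x
    have h1 := clause hNAT hOPN hSQA hSQB hRST hNRN hNRE hFUN hNRF H (k1 ≫ kk) x X hX hx
      (fun n => hg (fun t => k1.h (g n t)) (fun t => by
        have := congrArg k1.h.f (hden n t)
        rw [CHom.map_top] at this
        rw [CHom.map_iSup] at this
        simp only [CHom.map_iSup] at this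
        exact this))
    have h2 : (k1 ≫ kk).h (u s) = ⊤ := by
      rw [Ob.comp_h, hk1, CHom.map_top]
    have h3 := h1.2 (fU_mpr hNAT hOPN hSQA hSQB hNRE H (k1 ≫ kk) x X hX s h2 hb)
    rw [hσ, LN.r_r, hX0] at h3
    obtain ⟨e2, l, x', hx', hX', hal⟩ := h3 d2 (𝟙 d2)
    rw [Category.id_comp] at hX'
    have h4 := ((hNRE e2).1 _ _ ((hNRN d2).2.2.2.2.1 X x e2 l hX)).2.2 x' hX'
    subst h4
    refine contra hal ?_ e2.inf
    rw [← top_le_iff, ← l.alm]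
    refine AlmV_mono fun m => ?_
    rw [← CHom.map_compl]
    exact CHom.mono _ inf_le_right

end Names

end BPT_

open BPT_ in
/-- there is a set without the Baire property -/
theorem bpt_proof (hRST : Stmt_RST) (hNRN : Stmt_NRN) (hNRE : Stmt_NRE) (hNRF : Stmt_NRF)
    (hCOH : Stmt_COH) (hUNM : Stmt_UNM) (hNIC : Stmt_NIC) (hFUN : Stmt_FUN) (hOPN : Stmt_OPN)
    (hSQA : Stmt_SQA) (hSQB : Stmt_SQB) (hOMG : Stmt_OMG) (hNAT : Stmt_NAT) : Stmt_BPT := by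
  intro c ρ
  rw [NBPF, frc_ex]
  intro d h
  refine ⟨d, 𝟙 d, omN d, ?_⟩
  rw [frc_and]
  refine ⟨((hOMG Ob d _).2 0).2 (LN.eqf_refl _), ?_⟩
  obtain ⟨X0, hX0⟩ := hUNM d
  rw [frc_ex]
  intro d1 h1
  refine ⟨d1, 𝟙 d1, X0.r h1, ?_⟩
  rw [frc_and]
  constructor
  · intro e k z e1 k1 hz
    have hz1 : (z.r k1).memf ((((X0.r h1).r k)).r k1) := hz
    rw [LN.r_r, LN.r_r, hX0] at hz1
    apply frc_reg
    intro e2 k2
    obtain ⟨e3, l, x, hx, hX, -⟩ := hz1 e2 k2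
    refine ⟨e3, l, ?_⟩
    have h2 : FFun ((z.r k1).r (k2 ≫ l)) (omN e3) (omN e3) := hNRF e3 _ x hX hx
    have h3 : (((((omN d).r (h1 ≫ 𝟙 d1)).r k).r k1).r (k2 ≫ l)).eqf (omN e3) :=
      om_mv hNAT (om_mv hNAT (om_mv hNAT ((hNAT Ob).2.1 d d1 _) k) k1) (k2 ≫ l)
    have h4 : Frc (funF 0 2 2) e3 (fun i => if i = 2 then omN e3 else
        rr (rr (cons z (rr (cons (X0.r h1) (rr (cons (omN d) (rr ρ (h ≫ 𝟙 d))) (h1 ≫ 𝟙 d1))) k)) k1)
          (k2 ≫ l) i) := by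
      rw [hFUN]
      exact h2
    refine (frc_congr _ _ _ ?_).2 h4
    intro i
    by_cases hi : i = 2
    · subst hi
      rw [if_pos rfl]
      exact h3
    · rw [if_neg hi]
      exact LN.eqf_refl _
  · rw [frc_neg]
    intro e k hB
    rw [baire_eq] at hB
    obtain ⟨e0, k0, U, hB1⟩ := ex' hB
    obtain ⟨e1, k1, G, hB2⟩ := ex' hB1
    rw [frc_and] at hB2
    obtain ⟨hD, hB3⟩ := hB2
    set σ := cons G (rr (cons U (rr (rr (cons (X0.r h1) (rr (cons (omN d) (rr ρ (h ≫ 𝟙 d)))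
      (h1 ≫ 𝟙 d1))) k) k0)) k1) with hσ
    have hw : (σ 3).eqf (omN e1) :=
      om_mv hNAT (om_mv hNAT (om_mv hNAT ((hNAT Ob).2.1 d d1 (h1 ≫ 𝟙 d1)) k) k0) k1
    have hσ2 : σ 2 = X0.r (h1 ≫ k ≫ k0 ≫ k1) := by
      change (((X0.r h1).r k).r k0).r k1 = _
      rw [LN.r_r, LN.r_r, LN.r_r]
    obtain ⟨f, hf⟩ := exists_surjective_nat (List ℕ ⊕ (ℕ × List ℕ))
    let P : ℕ → FP e1 := fun n => match f n with
      | Sum.inl s => FPV (fun e => seqN e s) (fun d e h => (hSQA Ob).1 d e h s) (σ 1)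
      | Sum.inr t => FPV (fun e => opN (natN e t.1) (seqN e t.2)) (fun d e h =>
          op_mv hOPN ((hNAT Ob).1 d e h t.1) ((hSQA Ob).1 d e h t.2)) (σ 0)
    obtain ⟨d', h', v, -, hv⟩ := hNIC e1 P
    choose r hr using hf
    have H : Ctx d' (rr σ h') (fun s => v (r (Sum.inl s))) (fun n s => v (r (Sum.inr (n, s)))) := by
      refine ⟨om_mv hNAT hw h', frc_mono _ _ h' hD, frc_mono _ _ h' hB3, ?_, ?_⟩
      · intro s e k
        rw [← hv (r (Sum.inl s)) e k]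
        simp only [P, hr, FPV, rr_apply, LN.r_r]
      · intro n s e k
        rw [← hv (r (Sum.inr (n, s))) e k]
        simp only [P, hr, FPV, rr_apply, LN.r_r]
    exact core hNAT hOPN hSQA hSQB hRST hNRN hNRE hFUN hNRF hCOH H ((h1 ≫ k ≫ k0 ≫ k1) ≫ h') X0 hX0
      (by
        rw [rr_apply, hσ2, LN.r_r])

end Pool.Agent.CFZ
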