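import Pool.Agent.CFZ.Stmts

/-!
Squad CFZ, module BRF: the formula for branches.
-/

set_option autoImplicit false

namespace Pool.Agent.CFZ

open CategoryTheory

namespace BRF_

variable {C : Type 1} [Category.{0} C]

theorem fam_r {ι : Type} {c d : C} (h : c ⟶ d) (xs : ι → LN c) (ys : ι → LN d)
    (H : ∀ i, ((xs i).r h).eqf (ys i)) : ((fam c ι xs).r h).eqf (fam d ι ys) := by
  apply LN.ext'
  intro e k z
  rw [LN.r_r, memf_fam, memf_fam]
  refine forall_congr' fun e1 => forall_congr' fun h1 => ?_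
  refine exists_congr fun e2 => exists_congr fun k1 => exists_congr fun i => ?_
  have h2 : ((xs i).r ((h ≫ k) ≫ h1 ≫ k1)).eqf ((ys i).r (k ≫ h1 ≫ k1)) := by
    have h3 := LN.eqf_mono (H i) (k ≫ h1 ≫ k1)
    rw [LN.r_r] at h3
    rwa [Category.assoc]
  exact ⟨fun h4 => LN.eqf_trans h4 h2, fun h4 => LN.eqf_trans h4 (LN.eqf_symm h2)⟩

theorem natN_r (n : ℕ) : ∀ (c d : C) (h : c ⟶ d), ((natN c n).r h).eqf (natN d n) := by
  induction n using Nat.strong_induction_on with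
  | _ n ih =>
    intro c d h
    rw [natN, natN]
    exact fam_r h _ _ fun i => ih i.1 i.2 c d h

theorem omN_r {c d : C} (h : c ⟶ d) : ((omN c).r h).eqf (omN d) :=
  fam_r h _ _ fun i => natN_r i c d h

theorem fsub_r {c d : C} {x y : LN c} (H : FSub x y) (h : c ⟶ d) : FSub (x.r h) (y.r h) := by
  intro e k z hz
  rw [LN.r_r] at hz ⊢
  exact H e (h ≫ k) z hz

theorem fsub_congr {c : C} {x x' y : LN c} (H : FSub x y) (h : x.eqf x') : FSub x' y := by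
  intro e k z hz
  exact H e k z ((LN.memf_iff_of_eqf h k z).2 hz)

end BRF_

open BRF_

theorem brf_proof (hOPN : Stmt_OPN) (hSQA : Stmt_SQA) (hSQB : Stmt_SQB) : Stmt_BRF := by
  intro C _ c ρ i j k hi
  have hom : ∀ (d : C) (h : c ⟶ d), ((ρ i).r h).eqf (omN d) := fun d h =>
    LN.eqf_trans (LN.eqf_mono hi h) (omN_r h)
  constructor
  · intro H d h s hs
    have h1 := H d h (seqN d s) d (𝟙 d)
    change Frc _ d (rr _ (𝟙 d)) → Frc _ d (rr _ (𝟙 d)) at h1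
    rw [rr_id] at h1
    have h2 := h1 ((hSQB C d (cons (seqN d s) (rr ρ h)) (i + 1) 0 (hom d h)).2 ?_) d (𝟙 d)
    · change Frc _ d (rr _ (𝟙 d)) → Frc _ d (rr _ (𝟙 d)) at h2
      rw [rr_id] at h2
      exact h2 ((((hOPN C).2.2 d (cons (seqN d s) (rr ρ h))).2.2 0 (k + 1)).2 hs)
    · intro e g
      exact ⟨e, 𝟙 e, s, (hSQA C).1 d e (g ≫ 𝟙 e) s⟩
  · intro H d h x d' g h1 d'' g' h2
    change Frc _ d' (rr (cons x (rr ρ h)) g) at h1
    change Frc _ d'' (rr (rr (cons x (rr ρ h)) g) g') at h2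
    show Frc _ d'' (rr (rr (cons x (rr ρ h)) g) g')
    rw [rr_rr, rr_cons, rr_rr] at h2 ⊢
    rw [rr_cons, rr_rr] at h1
    have h3 := (hSQB C d' _ (i + 1) 0 (hom d' (h ≫ g))).1 h1
    have h4 := (((hOPN C).2.2 d'' _).2.2 0 (k + 1)).1 h2
    change FSub (x.r (g ≫ g')) ((ρ k).r (h ≫ g ≫ g')) at h4
    rw [frc_mem]
    apply LN.memf_reg
    intro e f
    obtain ⟨e', l, s, hs⟩ := h3 e (g' ≫ f)
    refine ⟨e', l, ?_⟩
    change ((x.r g).r ((g' ≫ f) ≫ l)).eqf (seqN e' s) at hs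
    show ((x.r (g ≫ g')).r (f ≫ l)).memf (((ρ j).r (h ≫ g ≫ g')).r (f ≫ l))
    rw [LN.r_r] at hs
    have h5 := fsub_r h4 (f ≫ l)
    rw [LN.r_r] at h5 ⊢
    rw [LN.r_r] at h5 ⊢
    have e1 : g ≫ (g' ≫ f) ≫ l = (g ≫ g') ≫ f ≫ l := by simp only [Category.assoc]
    rw [e1] at hs
    exact LN.memf_congr (LN.eqf_symm hs) (LN.eqf_refl _) (H e' _ s (fsub_congr h5 hs))

end Pool.Agent.CFZ
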