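import Pool.Agent.CFZ.Stmts

/-!
BTP: transfer principle for Borel statements with one existential quantifier.
-/

set_option autoImplicit false

namespace Pool.Agent.CFZ

namespace BTP_

/-- the children of a formula -/
def child {γ : Type} : BF γ → ℕ → BF γ
  | .atom a, _ => .atom a
  | .neg φ, _ => φ
  | .sup f, n => f n

/-- the subformula at a path -/
def sub {γ : Type} (φ : BF γ) (p : List ℕ) : BF γ := p.foldl child φ

theorem sub_nil {γ : Type} (φ : BF γ) : sub φ [] = φ := rfl

theorem sub_append {γ : Type} (φ : BF γ) (p : List ℕ) (n : ℕ) :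
    sub φ (p ++ [n]) = child (sub φ p) n := by
  simp [sub, List.foldl_append]

section constraints

variable {α β : Type} (φ : BF (α ⊕ β)) (enc : β ⊕ List ℕ → ℕ)

/-- the value of a constraint -/
def g (k : List ℕ × ℕ) (z : ℕ → ℕ) (A : Type) [CompleteBooleanAlgebra A] (v : Option α → A) : A :=
  (if 0 < z (enc (.inr [])) then ⊤ else ⊥) ⊓
  match sub φ k.1 with
  | .atom (.inl a) => if 0 < z (enc (.inr k.1)) then v (some a) else (v (some a))ᶜ
  | .atom (.inr b) => if (0 < z (enc (.inr k.1)) ↔ 0 < z (enc (.inl b))) then ⊤ else ⊥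
  | .neg _ => if (0 < z (enc (.inr k.1)) ↔ ¬ 0 < z (enc (.inr (k.1 ++ [0])))) then ⊤ else ⊥
  | .sup _ => if (z (enc (.inr k.1)) = k.2 + 1 → 0 < z (enc (.inr (k.1 ++ [k.2])))) ∧
      (z (enc (.inr k.1)) = 0 → ¬ 0 < z (enc (.inr (k.1 ++ [k.2])))) then ⊤ else ⊥

/-- the bound for the variables of a constraint -/
def mb (k : List ℕ × ℕ) : ℕ :=
  1 + enc (.inr []) + enc (.inr k.1) + enc (.inr (k.1 ++ [0])) + enc (.inr (k.1 ++ [k.2])) +
  match sub φ k.1 with
  | .atom (.inr b) => enc (.inl b)
  | _ => 0

theorem g_congr (k : List ℕ × ℕ) (z z' : ℕ → ℕ) (h : ∀ i < mb φ enc k, z i = z' i) (A : Type)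
    [CompleteBooleanAlgebra A] (v : Option α → A) : g φ enc k z A v = g φ enc k z' A v := by
  have h1 : z (enc (.inr [])) = z' (enc (.inr [])) := h _ (by unfold mb; omega)
  have h2 : z (enc (.inr k.1)) = z' (enc (.inr k.1)) := h _ (by unfold mb; omega)
  have h3 : z (enc (.inr (k.1 ++ [0]))) = z' (enc (.inr (k.1 ++ [0]))) :=
    h _ (by unfold mb; omega)
  have h4 : z (enc (.inr (k.1 ++ [k.2]))) = z' (enc (.inr (k.1 ++ [k.2]))) :=
    h _ (by unfold mb; omega)
  unfold g
  rw [h1, h2, h3, h4]
  cases hs : sub φ k.1 with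
  | atom a =>
    cases a with
    | inl a => rfl
    | inr b =>
      have h5 : z (enc (.inl b)) = z' (enc (.inl b)) := h _ (by unfold mb; rw [hs]; simp only; omega)
      simp only [h5]
  | neg ψ => rfl
  | sup f => rfl

theorem isB_ite {γ : Type} [Nonempty γ] (P : Prop) [Decidable P]
    {F G : ∀ (A : Type) [CompleteBooleanAlgebra A], (γ → A) → A} (h : IsB F) (h' : IsB G) :
    IsB (fun A _ v => if P then F A v else G A v) := by
  by_cases hP : P
  · simpa [hP] using h
  · simpa [hP] using h'

theorem isB_g (k : List ℕ × ℕ) (z : ℕ → ℕ) : IsB (fun A _ v => g φ enc k z A v) := by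
  unfold g
  refine IsB.inf (isB_ite _ (IsB.top _) (IsB.bot _)) ?_
  cases sub φ k.1 with
  | atom a =>
    cases a with
    | inl a => exact isB_ite _ (IsB.atom _) (IsB.atom _).compl
    | inr b => exact isB_ite _ (IsB.top _) (IsB.bot _)
  | neg ψ => exact isB_ite _ (IsB.top _) (IsB.bot _)
  | sup f => exact isB_ite _ (IsB.top _) (IsB.bot _)

/-- the tree of attempts -/
def B (s : List ℕ) (A : Type) [CompleteBooleanAlgebra A] (v : Option α → A) : A :=
  ⨅ k : {k : List ℕ × ℕ // mb φ enc k ≤ s.length}, g φ enc k.1 (fun i => s.getD i 0) A v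

theorem isB_B (s : List ℕ) : IsB (B φ enc s) := by
  unfold B
  exact IsB.iInf fun k => isB_g φ enc k.1 _

theorem B_anti (s : List ℕ) (n : ℕ) (A : Type) [CompleteBooleanAlgebra A] (v : Option α → A) :
    B φ enc (s ++ [n]) A v ≤ B φ enc s A v := by
  refine le_iInf fun k => ?_
  refine (iInf_le _ ⟨k.1, k.2.trans (by simp)⟩).trans (le_of_eq ?_)
  refine g_congr φ enc k.1 _ _ ?_ A v
  intro i hi
  have h1 : i < s.length := lt_of_lt_of_le hi k.2
  simp only [List.getD_eq_getElem?_getD]
  rw [List.getElem?_append_left h1]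

end constraints

section branch

variable {A : Type} [CompleteBooleanAlgebra A] {ζ : List ℕ → A} (h0 : ζ [] = ⊤)
  (h1 : ∀ s, ζ s = ⨆ n, ζ (s ++ [n])) (h2 : ∀ s n m, n ≠ m → ζ (s ++ [n]) ⊓ ζ (s ++ [m]) = ⊥)

include h0 h1 in
theorem loc (M : ℕ) (a b : A) (h : ∀ s, s.length = M → ζ s ⊓ a ≤ b) : a ≤ b := by
  induction M with
  | zero =>
    have := h [] rfl
    rwa [h0, top_inf_eq] at this
  | succ M ih =>
    apply ih
    intro s hs
    rw [h1 s, iSup_inf_eq]
    refine iSup_le fun n => ?_
    apply h
    simp [hs]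

include h1 in
theorem anti (s t : List ℕ) : ζ (s ++ t) ≤ ζ s := by
  induction t generalizing s with
  | nil => simp
  | cons n t ih =>
    have h3 : s ++ n :: t = (s ++ [n]) ++ t := by simp
    rw [h3]
    refine (ih _).trans ?_
    rw [h1 s]
    exact le_iSup (fun n => ζ (s ++ [n])) n

include h1 h2 in
theorem disj_aux (M : ℕ) (s t : List ℕ) (hs : s.length = M) (ht : t.length = M) (hst : s ≠ t) :
    ζ s ⊓ ζ t = ⊥ := by
  induction M generalizing s t with
  | zero =>
    rw [List.length_eq_zero_iff] at hs ht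
    exact absurd (hs.trans ht.symm) hst
  | succ M ih =>
    rcases List.eq_nil_or_concat s with rfl | ⟨s', n, rfl⟩
    · simp at hs
    rcases List.eq_nil_or_concat t with rfl | ⟨t', m, rfl⟩
    · simp at ht
    have hs' : s'.length = M := by simpa using hs
    have ht' : t'.length = M := by simpa using ht
    rw [List.concat_eq_append] at hst ⊢
    rw [List.concat_eq_append] at hst ⊢
    by_cases h3 : s' = t'
    · subst h3
      apply h2
      rintro rfl
      exact hst rfl
    · have h4 := ih s' t' hs' ht' h3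
      rw [← le_bot_iff, ← h4]
      exact inf_le_inf (anti h1 _ _) (anti h1 _ _)

include h1 h2 in
theorem disj (s t : List ℕ) (i : ℕ) (hs : i < s.length) (ht : i < t.length)
    (hst : s.getD i 0 ≠ t.getD i 0) : ζ s ⊓ ζ t = ⊥ := by
  have h3 : ζ (s.take (i + 1)) ⊓ ζ (t.take (i + 1)) = ⊥ := by
    apply disj_aux h1 h2 (i + 1)
    · rw [List.length_take]; omega
    · rw [List.length_take]; omega
    · intro h
      apply hst
      have h4 : (s.take (i + 1)).getD i 0 = (t.take (i + 1)).getD i 0 := by rw [h]
      simp only [List.getD_eq_getElem?_getD, List.getElem?_take] at h4 ⊢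
      simpa using h4
  rw [← le_bot_iff, ← h3]
  refine inf_le_inf ?_ ?_
  · conv_lhs => rw [← List.take_append_drop (i + 1) s]
    exact anti h1 _ _
  · conv_lhs => rw [← List.take_append_drop (i + 1) t]
    exact anti h1 _ _

/-- the value that a variable is positive -/
def P (ζ : List ℕ → A) (i : ℕ) : A := ⨆ s : {s : List ℕ // i < s.length ∧ 0 < s.getD i 0}, ζ s.1

theorem le_P (s : List ℕ) (i : ℕ) (hs : i < s.length) (hp : 0 < s.getD i 0) : ζ s ≤ P ζ i :=
  le_iSup (fun s : {s : List ℕ // i < s.length ∧ 0 < s.getD i 0} => ζ s.1) ⟨s, hs, hp⟩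

include h1 h2 in
theorem inf_P (s : List ℕ) (i : ℕ) (hs : i < s.length) (hp : ¬ 0 < s.getD i 0) :
    ζ s ⊓ P ζ i = ⊥ := by
  rw [P, inf_iSup_eq, iSup_eq_bot]
  rintro ⟨t, ht, hpt⟩
  exact disj h1 h2 s t i hs ht (by omega)

include h1 h2 in
/-- equality of two values on a node -/
theorem eq_on (s : List ℕ) (i j : ℕ) (hi : i < s.length) (hj : j < s.length)
    (h : 0 < s.getD i 0 ↔ 0 < s.getD j 0) : ζ s ⊓ P ζ i = ζ s ⊓ P ζ j := by
  by_cases h3 : 0 < s.getD i 0
  · rw [inf_eq_left.2 (le_P s i hi h3), inf_eq_left.2 (le_P s j hj (h.1 h3))]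
  · rw [inf_P h1 h2 s i hi h3, inf_P h1 h2 s j hj (fun h4 => h3 (h.2 h4))]

include h0 h1 in
theorem loc_eq (M : ℕ) (a b : A) (h : ∀ s, s.length = M → ζ s ⊓ a = ζ s ⊓ b) : a = b :=
  le_antisymm (loc h0 h1 M a b fun s hs => (h s hs).le.trans inf_le_right)
    (loc h0 h1 M b a fun s hs => (h s hs).ge.trans inf_le_right)

end branch

section main

variable {α β : Type} (φ : BF (α ⊕ β)) (enc : β ⊕ List ℕ → ℕ)
  {A : Type} [CompleteBooleanAlgebra A] {ζ : List ℕ → A} (h0 : ζ [] = ⊤)
  (h1 : ∀ s, ζ s = ⨆ n, ζ (s ++ [n])) (h2 : ∀ s n m, n ≠ m → ζ (s ++ [n]) ⊓ ζ (s ++ [m]) = ⊥)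
  (v : Option α → A) (h3 : ∀ s, ζ s ≤ B φ enc s A v)

include h3 in
theorem le_g (s : List ℕ) (k : List ℕ × ℕ) (hk : mb φ enc k ≤ s.length) :
    ζ s ≤ g φ enc k (fun i => s.getD i 0) A v :=
  (h3 s).trans (iInf_le (fun k : {k : List ℕ × ℕ // mb φ enc k ≤ s.length} =>
    g φ enc k.1 (fun i => s.getD i 0) A v) ⟨k, hk⟩)

theorem le_ite {a : A} {Q : Prop} [Decidable Q] (h : a ≤ if Q then ⊤ else ⊥) : Q ∨ a = ⊥ := by
  by_cases hQ : Q
  · exact Or.inl hQ
  · rw [if_neg hQ, le_bot_iff] at h
    exact Or.inr h

include h0 h1 h2 h3 in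
theorem main (ψ : BF (α ⊕ β)) (p : List ℕ) (hp : sub φ p = ψ) :
    ψ.val (Sum.elim (fun a => v (some a)) (fun b => P ζ (enc (.inl b)))) = P ζ (enc (.inr p)) := by
  induction ψ generalizing p with
  | atom a =>
    cases a with
    | inl a =>
      change v (some a) = _
      apply loc_eq h0 h1 (mb φ enc (p, 0))
      intro s hs
      have h4 := (le_g φ enc v h3 s (p, 0) hs.ge).trans inf_le_right
      simp only [hp] at h4
      have h5 : enc (.inr p) < s.length := by rw [hs]; unfold mb; simp only; omega
      by_cases h6 : 0 < s.getD (enc (.inr p)) 0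
      · rw [if_pos h6] at h4
        rw [inf_eq_left.2 h4, inf_eq_left.2 (le_P s _ h5 h6)]
      · rw [if_neg h6] at h4
        rw [inf_P h1 h2 s _ h5 h6, ← disjoint_iff]
        exact le_compl_iff_disjoint_right.1 h4
    | inr b =>
      change P ζ (enc (.inl b)) = _
      apply loc_eq h0 h1 (mb φ enc (p, 0))
      intro s hs
      have h4 := (le_g φ enc v h3 s (p, 0) hs.ge).trans inf_le_right
      simp only [hp] at h4
      have h5 : enc (.inr p) < s.length := by rw [hs]; unfold mb; simp only; omega
      have h6 : enc (.inl b) < s.length := by rw [hs]; unfold mb; simp only [hp]; omega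
      rcases le_ite h4 with h7 | h7
      · exact (eq_on h1 h2 s _ _ h5 h6 h7).symm
      · rw [h7, bot_inf_eq, bot_inf_eq]
  | neg ψ ih =>
    change (ψ.val _)ᶜ = _
    rw [ih (p ++ [0]) (by rw [sub_append, hp]; rfl)]
    apply loc_eq h0 h1 (mb φ enc (p, 0))
    intro s hs
    have h4 := (le_g φ enc v h3 s (p, 0) hs.ge).trans inf_le_right
    simp only [hp] at h4
    have h5 : enc (.inr p) < s.length := by rw [hs]; unfold mb; simp only; omega
    have h6 : enc (.inr (p ++ [0])) < s.length := by rw [hs]; unfold mb; simp only; omega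
    rcases le_ite h4 with h7 | h7
    · by_cases h8 : 0 < s.getD (enc (.inr (p ++ [0]))) 0
      · have h9 : ¬ 0 < s.getD (enc (.inr p)) 0 := fun h => (h7.1 h) h8
        rw [inf_P h1 h2 s _ h5 h9, ← disjoint_iff]
        exact le_compl_iff_disjoint_right.1 (by rw [compl_compl]; exact le_P s _ h6 h8)
      · have h10 : ζ s ⊓ P ζ (enc (.inr p)) = ζ s := inf_eq_left.2 (le_P s _ h5 (h7.2 h8))
        rw [h10, inf_eq_left, le_compl_iff_disjoint_right, disjoint_iff]
        exact inf_P h1 h2 s _ h6 h8
    · rw [h7, bot_inf_eq, bot_inf_eq]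
  | sup f ih =>
    change ⨆ n, (f n).val _ = _
    have h4 : ∀ n, (f n).val (Sum.elim (fun a => v (some a)) (fun b => P ζ (enc (.inl b)))) =
        P ζ (enc (.inr (p ++ [n]))) := fun n => ih n (p ++ [n]) (by rw [sub_append, hp]; rfl)
    simp only [h4]
    apply le_antisymm
    · refine iSup_le fun n => ?_
      apply loc h0 h1 (mb φ enc (p, n))
      intro s hs
      have h5 := (le_g φ enc v h3 s (p, n) hs.ge).trans inf_le_right
      simp only [hp] at h5
      have h6 : enc (.inr p) < s.length := by rw [hs]; unfold mb; simp only; omega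
      have h7 : enc (.inr (p ++ [n])) < s.length := by rw [hs]; unfold mb; simp only; omega
      rcases le_ite h5 with h8 | h8
      · by_cases h9 : 0 < s.getD (enc (.inr (p ++ [n]))) 0
        · refine inf_le_left.trans (le_P s _ h6 ?_)
          by_contra h10
          exact h8.2 (by omega) h9
        · rw [inf_P h1 h2 s _ h7 h9]
          exact bot_le
      · rw [h8, bot_inf_eq]
        exact bot_le
    · refine iSup_le ?_
      rintro ⟨s, hs, hs'⟩
      obtain ⟨n, hn⟩ : ∃ n, s.getD (enc (.inr p)) 0 = n + 1 := ⟨_, (Nat.succ_pred_eq_of_pos hs').symm⟩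
      refine le_trans ?_ (le_iSup (fun n => P ζ (enc (.inr (p ++ [n])))) n)
      apply loc h0 h1 (mb φ enc (p, n))
      intro t ht
      have h5 := (le_g φ enc v h3 t (p, n) ht.ge).trans inf_le_right
      simp only [hp] at h5
      have h6 : enc (.inr p) < t.length := by rw [ht]; unfold mb; simp only; omega
      have h7 : enc (.inr (p ++ [n])) < t.length := by rw [ht]; unfold mb; simp only; omega
      rcases le_ite h5 with h8 | h8
      · by_cases h9 : t.getD (enc (.inr p)) 0 = n + 1
        · exact inf_le_left.trans (le_P t _ h7 (h8.1 h9))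
        · rw [disj h1 h2 t s _ h6 hs (by rw [hn]; exact h9)]
          exact bot_le
      · rw [h8, bot_inf_eq]
        exact bot_le

include h0 h1 h3 in
theorem root : P ζ (enc (.inr [])) = ⊤ := by
  rw [← top_le_iff]
  apply loc h0 h1 (mb φ enc ([], 0))
  intro s hs
  have h4 := (le_g φ enc v h3 s ([], 0) hs.ge).trans inf_le_left
  have h5 : enc (.inr []) < s.length := by rw [hs]; unfold mb; simp only; omega
  rcases le_ite h4 with h7 | h7
  · exact inf_le_left.trans (le_P s _ h5 h7)
  · rw [h7, bot_inf_eq]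
    exact bot_le

end main

section two

variable {α β : Type} (φ : BF (α ⊕ β)) (enc : β ⊕ List ℕ → ℕ) (henc : Function.Injective enc)

include henc in
open Classical in
theorem two (X : Option α → Prop) (Y : β → Prop)
    (hY : φ.val (Sum.elim (fun a => X (some a)) Y)) :
    ∃ z : ℕ → ℕ, ∀ n, B φ enc ((List.range n).map z) Prop X := by
  let tv : List ℕ → Prop := fun p => (sub φ p).val (Sum.elim (fun a => X (some a)) Y)
  have hw : ∀ p, ∃ w : ℕ, ∀ f, sub φ p = .sup f → tv p → tv (p ++ [w]) := by
    intro p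
    cases hs : sub φ p with
    | atom a => exact ⟨0, fun f hf => by cases hf⟩
    | neg ψ => exact ⟨0, fun f hf => by cases hf⟩
    | sup f =>
      by_cases hp : tv p
      · have h1 : (⨆ n, (f n).val (Sum.elim (fun a => X (some a)) Y) : Prop) := by
          have h2 : (sub φ p).val (Sum.elim (fun a => X (some a)) Y) := hp
          rw [hs] at h2
          exact h2
        rw [iSup_Prop_eq] at h1
        obtain ⟨n, hn⟩ := h1
        refine ⟨n, fun f' _ _ => ?_⟩
        change (sub φ (p ++ [n])).val _
        rw [sub_append, hs]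
        exact hn
      · exact ⟨0, fun f' _ h => absurd h hp⟩
  choose w hw using hw
  let zV : β ⊕ List ℕ → ℕ := Sum.elim (fun b => if Y b then 1 else 0)
    (fun p => if tv p then w p + 1 else 0)
  have hb : ∀ b, 0 < zV (.inl b) ↔ Y b := by
    intro b
    change 0 < (if Y b then 1 else 0) ↔ Y b
    split_ifs with h <;> simp [h]
  have hpz : ∀ p, 0 < zV (.inr p) ↔ tv p := by
    intro p
    change 0 < (if tv p then w p + 1 else 0) ↔ tv p
    split_ifs with h <;> simp [h]
  have hg : ∀ k : List ℕ × ℕ, g φ enc k (Function.extend enc zV 0) Prop X := by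
    intro k
    have hz : ∀ u, Function.extend enc zV 0 (enc u) = zV u := fun u => henc.extend_apply _ _ _
    unfold g
    refine ⟨?_, ?_⟩
    · rw [hz, if_pos ((hpz []).2 hY)]
      trivial
    · cases hs : sub φ k.1 with
      | atom a =>
        cases a with
        | inl a =>
          simp only [hz]
          by_cases h : 0 < zV (.inr k.1)
          · rw [if_pos h]
            have h1 := (hpz k.1).1 h
            change (sub φ k.1).val _ at h1
            rw [hs] at h1
            exact h1
          · rw [if_neg h]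
            intro h1
            apply h
            rw [hpz]
            change (sub φ k.1).val _
            rw [hs]
            exact h1
        | inr b =>
          simp only [hz]
          rw [if_pos]
          · trivial
          · rw [hpz, hb]
            change (sub φ k.1).val _ ↔ _
            rw [hs]
            exact Iff.rfl
      | neg ψ =>
        simp only [hz]
        rw [if_pos]
        · trivial
        · rw [hpz, hpz]
          change (sub φ k.1).val _ ↔ ¬ (sub φ (k.1 ++ [0])).val _
          rw [sub_append, hs]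
          exact Iff.rfl
      | sup f =>
        simp only [hz]
        rw [if_pos]
        · trivial
        · constructor
          · intro h
            rw [hpz]
            have h1 : tv k.1 := (hpz k.1).1 (by omega)
            have h2 : zV (.inr k.1) = w k.1 + 1 := if_pos h1
            have h3 : w k.1 = k.2 := by omega
            rw [← h3]
            exact hw k.1 f hs h1
          · intro h
            rw [hpz]
            intro h1
            have h2 : ¬ tv k.1 := fun h3 => by
              have := (hpz k.1).2 h3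
              omega
            apply h2
            change (sub φ k.1).val _
            rw [hs]
            change (⨆ n, (f n).val _ : Prop)
            rw [iSup_Prop_eq]
            refine ⟨k.2, ?_⟩
            change (sub φ (k.1 ++ [k.2])).val _ at h1
            rw [sub_append, hs] at h1
            exact h1
  refine ⟨Function.extend enc zV 0, fun n => ?_⟩
  unfold B
  rw [iInf_Prop_eq]
  intro k
  rw [g_congr φ enc k.1 _ (Function.extend enc zV 0)]
  · exact hg k.1
  · intro i hi
    have h1 : i < n := by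
      have := k.2.trans_eq (by simp : ((List.range n).map (Function.extend enc zV 0)).length = n)
      omega
    simp [List.getD_eq_getElem?_getD, h1]

end two

end BTP_

open BTP_

/-- transfer principle -/
theorem btp_proof (hCTP : Stmt_CTP) (_hLSP : Stmt_LSP) : Stmt_BTP := by
  intro α β _ _ F hF hX A _ x
  obtain ⟨φ, hφ⟩ := hF
  obtain ⟨enc, henc⟩ := (inferInstance : Countable (β ⊕ List ℕ)).exists_injective_nat
  obtain ⟨ζ, h0, h1, h2, h3⟩ := hCTP (Option α) (fun s A _ v => B φ enc s A v)
    (isB_B φ enc) (fun s n A _ v => B_anti φ enc s n A v)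
    (fun X => by
      obtain ⟨Y, hY⟩ := hX (fun a => X (some a))
      exact two φ enc henc X Y (by rw [← hφ]; exact hY))
    A (fun o => o.elim ⊤ x)
  refine ⟨fun b => P ζ (enc (.inl b)), ?_⟩
  rw [hφ]
  have h4 := main φ enc h0 h1 h2 (fun o => o.elim ⊤ x) h3 φ [] (sub_nil φ)
  rw [root φ enc h0 h1 (fun o => o.elim ⊤ x) h3] at h4
  exact h4

end Pool.Agent.CFZ
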