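import Pool.Agent.CFZ.Stmts

/-!
Squad CFZ, module CAP: capturing of dense sets, all stems.
-/

set_option autoImplicit false

namespace Pool.Agent.CFZ

namespace CAP_

variable {A : Type} [CompleteBooleanAlgebra A]

theorem LeV_iff (E' E : Finset ℕ → A) : LeV E' E = ⊤ ↔ ∀ u, E' u ≤ SpV E u := by
  unfold LeV
  rw [iInf_eq_top]
  exact forall_congr' fun u => himp_eq_top_iff

theorem SpV_le {E' E : Finset ℕ → A} (h : BlkV E' = ⊤) (h' : LeV E' E = ⊤) (u : Finset ℕ) :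
    SpV E' u ≤ SpV E u := by
  have := SpV_trans ⊤ E' E u (BlkV_empty h)
    (fun w _ _ => by rw [top_inf_eq]; exact (LeV_iff _ _).1 h' w)
  rwa [top_inf_eq] at this

theorem LeV_trans {E1 E2 E3 : Finset ℕ → A} (h2 : BlkV E2 = ⊤) (h12 : LeV E1 E2 = ⊤)
    (h23 : LeV E2 E3 = ⊤) : LeV E1 E3 = ⊤ :=
  (LeV_iff _ _).2 fun u => ((LeV_iff _ _).1 h12 u).trans (SpV_le h2 h23 u)

theorem vV_le {E0 : Finset ℕ → A} {D : Set (Cd A E0)} (hD : ∀ q ∈ D, ∀ q' ≤ q, q' ∈ D) {t : L}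
    {E1 E2 : Finset ℕ → A} {a : A} (hE2 : BlkV E2 = ⊤) (hE20 : LeV E2 E0 = ⊤)
    (h : ∀ u, Gt t u → a ⊓ E2 u ≤ SpV E1 u) : a ⊓ vV D t E1 ≤ vV D t E2 := by
  unfold vV
  rw [inf_iSup₂_eq]
  refine iSup₂_le ?_
  rintro q ⟨hq, rfl, rfl⟩
  by_cases hne : a ⊓ q.p = ⊥
  · rw [hne]
    exact bot_le
  · let q' : Cd A E0 := ⟨a ⊓ q.p, q.s, E2, hne, q.hs, hE2, hE20,
      fun u hu => inf_le_right.trans (q.hs0 u hu)⟩
    have hq' : q' ≤ q := by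
      rw [Cd.le_def]
      refine ⟨inf_le_right, List.prefix_refl _, fun u h1 h2 => absurd h1 h2, fun u hu => ?_⟩
      refine le_trans ?_ (h u hu)
      exact inf_le_inf_right _ inf_le_left
    exact le_iSup₂_of_le (f := fun (q : Cd A E0) (_ : q ∈ D ∧ q.s = _ ∧ q.E = E2) => q.p) q'
      ⟨hD q hq q' hq', rfl, rfl⟩ le_rfl

end CAP_

open CAP_ in
theorem cap_proof (hDIA : Stmt_DIA) (hCPO : Stmt_CPO) (hWPR : Stmt_WPR) : Stmt_CAP := by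
  intro A _ E0 D m0 E hD hE hE0
  refine (hDIA A (fun t E1 a => a ⊓ (⨅ u ∈ t, SpV E0 u) ≤ WV (fun r => vV D r E1) E1 t)
    m0 E hE ?_ ?_).elim (fun E1 h => ⟨E1, h.1, h.2.1, LeV_trans hE h.2.1 hE0, h.2.2⟩)
  · intro t E1 E2 a a' hE1 hE2 hE1E hE2E hq haa hsp
    refine (le_inf inf_le_left ((inf_le_inf_right _ haa).trans hq)).trans ?_
    exact (hWPR A (fun r => vV D r E1) E1).2.2 (fun r => vV D r E2) E2 t a' (BlkV_empty hE2)
      (fun r hr => vV_le hD.2 hE2 (LeV_trans hE hE2E hE0) fun u hu => hsp u (hu.of_prefix hr)) hsp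
  · intro t E1 ht hE1 hE1E
    obtain ⟨E2, h1, h2, -, h4⟩ := hCPO A E0 D E1 t hD ht hE1 (LeV_trans hE hE1E hE0)
    exact ⟨E2, h1, h2, inf_le_right.trans h4⟩

end Pool.Agent.CFZ
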