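import Pool.Agent.CFZ.Stmts

/-!
# Squad CFZ, module COH: adding a generic real above a stem
-/

set_option autoImplicit false

namespace Pool.Agent.CFZ

open CategoryTheory

namespace COH_

/-- conditions: a nonzero element of the algebra and a finite sequence above the stem -/
structure PP (A : Type) [CompleteBooleanAlgebra A] (s : List ℕ) where
  p : A
  t : List ℕ
  hp : p ≠ ⊥
  ht : s <+: t

variable {A : Type} [CompleteBooleanAlgebra A] {s : List ℕ}

instance : Preorder (PP A s) where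
  le q r := q.p ≤ r.p ∧ r.t <+: q.t
  le_refl q := ⟨le_rfl, List.prefix_rfl⟩
  le_trans q r u h h' := ⟨h.1.trans h'.1, h'.2.trans h.2⟩

lemma le_iff {q r : PP A s} : q ≤ r ↔ q.p ≤ r.p ∧ r.t <+: q.t := Iff.rfl

lemma get_pre {t t' : List ℕ} (h : t <+: t') {n m : ℕ} (hm : t[n]? = some m) : t'[n]? = some m := by
  obtain ⟨u, rfl⟩ := h
  have hn : n < t.length := by
    by_contra hc
    rw [List.getElem?_eq_none (by omega)] at hm
    exact absurd hm (by simp)
  rw [List.getElem?_append_left hn]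
  exact hm

/-- extending a sequence with a constant -/
lemma ext_get (t : List ℕ) (m v : ℕ) (h : t.length ≤ m) :
    (t ++ List.replicate (m + 1 - t.length) v)[m]? = some v := by
  rw [List.getElem?_append_right h, List.getElem?_replicate, if_pos (by omega)]

/-- the generic real -/
def xx (n m : ℕ) : RO (PP A s) := ⟨{q | q.t[n]? = some m}, by
  intro q
  constructor
  · intro hq r hr
    exact ⟨r, le_rfl, get_pre hr.2 hq⟩
  · intro h
    by_cases hn : n < q.t.length
    · obtain ⟨r, hr, hrm⟩ := h q le_rfl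
      have h1 : q.t[n]? = some q.t[n] := List.getElem?_eq_getElem hn
      have h2 := get_pre hr.2 h1
      have h3 : r.t[n]? = some m := hrm
      rw [h3] at h2
      show q.t[n]? = some m
      rw [h1, h2]
    · obtain ⟨r, hr, hrm⟩ := h ⟨q.p, q.t ++ List.replicate (n + 1 - q.t.length) (m + 1), q.hp,
        q.ht.trans (List.prefix_append _ _)⟩ ⟨le_rfl, List.prefix_append _ _⟩
      have h1 := get_pre hr.2 (ext_get q.t n (m + 1) (by omega))
      have h3 : r.t[n]? = some m := hrm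
      rw [h3] at h1
      simp at h1⟩

lemma mem_xx {n m : ℕ} {q : PP A s} : q ∈ (xx (A := A) (s := s) n m).s ↔ q.t[n]? = some m := Iff.rfl

/-- the homomorphism -/
def kk : CHom A (RO (PP A s)) := CHom.ofProj PP.p (fun q => q.hp) (fun _ _ h => h.1)
  (fun q a ha h => ⟨⟨a, q.t, h, q.ht⟩, ⟨ha, List.prefix_rfl⟩, le_rfl⟩)

lemma mem_kk {a : A} {q : PP A s} : q ∈ ((kk (s := s) : CHom A _) a).s ↔ q.p ≤ a := Iff.rfl

lemma eq_top {U : RO (PP A s)} (h : ∀ q : PP A s, ∃ r ≤ q, r ∈ U.s) : U = ⊤ := by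
  refine top_le_iff.1 fun q _ => ?_
  exact U.of_dense fun r _ => h r

lemma mem_iSup {ι : Sort*} {U : ι → RO (PP A s)} {q : PP A s} (i : ι) (h : q ∈ (U i).s) :
    q ∈ (⨆ i, U i).s := (le_iSup U i) h

lemma mem_iInf {ι : Sort*} {U : ι → RO (PP A s)} {q : PP A s} (h : ∀ i, q ∈ (U i).s) :
    q ∈ (⨅ i, U i).s := by
  rw [iInf, RO.mem_sInf]
  rintro _ ⟨i, rfl⟩
  exact h i

lemma mem_BrV {t : List ℕ} {q : PP A s} (h : t <+: q.t) :
    q ∈ (BrV (xx (A := A) (s := s)) t).s := by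
  unfold BrV
  refine mem_iInf fun i => ?_
  rw [mem_xx]
  exact get_pre h (by simp)

lemma meet {ι : Sort*} (U : ι → A) (h : (⨆ i, U i) = ⊤) (p : A) (hp : p ≠ ⊥) :
    ∃ i, p ⊓ U i ≠ ⊥ := by
  by_contra hc
  push Not at hc
  apply hp
  have h1 : p ⊓ ⨆ i, U i = ⊥ := by
    rw [inf_iSup_eq, iSup_eq_bot]
    exact hc
  rw [h, inf_top_eq] at h1
  exact h1

lemma inf_case (a : ℕ → A) (ha : InfV a = ⊤) (v : ℕ) (y : ℕ → RO (PP A s))
    (hy : ∀ (m : ℕ) (q : PP A s), q.t[m]? = some v → q ∈ (y m).s) :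
    InfV (fun m => (kk (s := s) : CHom A _) (a m) ⊓ y m) = ⊤ := by
  unfold InfV at ha ⊢
  rw [iInf_eq_top] at ha ⊢
  intro n
  refine eq_top fun q => ?_
  have h1 : (⨆ i : {m : ℕ // max n q.t.length ≤ m}, a i.1) = ⊤ := by
    rw [iSup_subtype]
    exact ha (max n q.t.length)
  obtain ⟨⟨m, hm⟩, hne⟩ := meet _ h1 q.p q.hp
  have hm1 : n ≤ m := (le_max_left _ _).trans hm
  have hm2 : q.t.length ≤ m := (le_max_right _ _).trans hm
  refine ⟨⟨q.p ⊓ a m, q.t ++ List.replicate (m + 1 - q.t.length) v, hne,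
    q.ht.trans (List.prefix_append _ _)⟩, ⟨inf_le_left, List.prefix_append _ _⟩, ?_⟩
  refine mem_iSup m (mem_iSup hm1 ?_)
  rw [RO.mem_inf, mem_kk]
  exact ⟨inf_le_right, hy m _ (ext_get q.t m v hm2)⟩

end COH_

open COH_ in
theorem coh_proof : Stmt_COH := by
  intro c s
  have hne : Nonempty (PP c.A s) := ⟨⟨⊤, s, top_ne_bot, List.prefix_rfl⟩⟩
  refine ⟨RO (PP c.A s), inferInstance, inferInstance, kk, xx, ?_, ?_, ?_, ?_, ?_⟩
  · unfold RealV
    rw [inf_eq_top_iff]
    constructor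
    · rw [iInf_eq_top]
      intro n
      refine eq_top fun q => ?_
      refine ⟨⟨q.p, q.t ++ List.replicate (n + 1) 0, q.hp,
        q.ht.trans (List.prefix_append _ _)⟩, ⟨le_rfl, List.prefix_append _ _⟩, ?_⟩
      have hlen : n < (q.t ++ List.replicate (n + 1) 0).length := by
        rw [List.length_append, List.length_replicate]
        omega
      refine mem_iSup ((q.t ++ List.replicate (n + 1) 0)[n]) ?_
      rw [mem_xx]
      exact List.getElem?_eq_getElem hlen
    · simp only [iInf_eq_top]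
      intro n m m' hmm
      refine eq_top fun q => ⟨q, le_rfl, ?_⟩
      rw [RO.mem_compl]
      intro r _ hr
      rw [RO.mem_inf, mem_xx, mem_xx] at hr
      rw [hr.1] at hr
      exact hmm (by simpa using hr.2)
  · exact eq_top fun q => ⟨q, le_rfl, mem_BrV q.ht⟩
  · intro G hG
    refine eq_top fun q => ?_
    have h1 : (⨆ i : {t : List ℕ // q.t <+: t}, G i.1) = ⊤ := by
      rw [iSup_subtype]
      exact hG q.t
    obtain ⟨⟨t, ht⟩, hne'⟩ := meet _ h1 q.p q.hp
    refine ⟨⟨q.p ⊓ G t, t, hne', q.ht.trans ht⟩, ⟨inf_le_left, ht⟩, ?_⟩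
    refine mem_iSup t ?_
    rw [RO.mem_inf, mem_kk]
    exact ⟨inf_le_right, mem_BrV List.prefix_rfl⟩
  · exact inf_case c.a c.inf 0 (fun m => xx m 0) fun m q hq => hq
  · refine inf_case c.a c.inf 1 (fun m => (xx m 0)ᶜ) fun m q hq => ?_
    rw [RO.mem_compl]
    intro r hr h0
    rw [mem_xx] at h0
    rw [get_pre hr.2 hq] at h0
    simp at h0

end Pool.Agent.CFZ
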