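import Pool.Agent.CFZ.Stmts

set_option autoImplicit false

namespace Pool.Agent.CFZ

open CategoryTheory

namespace COR_

/-- the predicate on infinite sets -/
def pp {c : Ob} (Ψ : NP c (ℕ × ℕ)) (σ : Finset ℕ → List ℕ → c.A) (d : Ob) (h : c ⟶ d)
    (y : ℕ → d.A) : Prop :=
  InfV y = ⊤ ∧ ∃ x : ℕ → ℕ → d.A, RealV x = ⊤ ∧ ThV (fun u t => h.h (σ u t)) y x = ⊤ ∧
    Ψ.p d h (fun i => x i.1 i.2)

theorem par {c : Ob} {T : List ℕ → c.A} {σ : Finset ℕ → List ℕ → c.A} (hσ : ParV T σ = ⊤)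
    {d : Ob} (h : c ⟶ d) : ParV (fun t => h.h (T t)) (fun u t => h.h (σ u t)) = ⊤ := by
  rw [← CHom.map_ParV, hσ, CHom.map_top]

theorem mono {c : Ob} (Ψ : NP c (ℕ × ℕ)) (σ : Finset ℕ → List ℕ → c.A) (d e : Ob) (h : c ⟶ d)
    (k : d ⟶ e) (y : ℕ → d.A) (H : pp Ψ σ d h y) : pp Ψ σ e (h ≫ k) (fun i => k.h (y i)) := by
  obtain ⟨h1, x, h2, h3, h4⟩ := H
  refine ⟨?_, fun n m => k.h (x n m), ?_, ?_, ?_⟩
  · rw [← CHom.map_InfV, h1, CHom.map_top]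
  · rw [← CHom.map_RealV, h2, CHom.map_top]
  · have h5 := CHom.map_ThV k.h (fun u t => h.h (σ u t)) y x
    rw [h3, CHom.map_top] at h5
    exact h5.symm
  · exact Ψ.mono d e h k _ h4

theorem reg (hRST : Stmt_RST) (hTHE : Stmt_THE) {c : Ob} (Ψ : NP c (ℕ × ℕ))
    {T : List ℕ → c.A} {σ : Finset ℕ → List ℕ → c.A} (hσ : ParV T σ = ⊤)
    (d : Ob) (h : c ⟶ d) (y : ℕ → d.A) (H : ∀ (e : Ob) (k : d ⟶ e),
    ∃ (e' : Ob) (l : e ⟶ e'), pp Ψ σ e' (h ≫ k ≫ l) (fun i => (k ≫ l).h (y i))) :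
    pp Ψ σ d h y := by
  have hinf : InfV y = ⊤ := by
    by_contra hne
    have hne' : (InfV y)ᶜ ≠ ⊥ := fun h0 => hne (compl_eq_bot.1 h0)
    obtain ⟨e, k, hk, -⟩ := hRST d _ hne'
    obtain ⟨e', l, h1, -⟩ := H e k
    have h2 : (k ≫ l).h (InfV y) = ⊤ := by rw [CHom.map_InfV]; exact h1
    have h3 : (k ≫ l).h (InfV y)ᶜ = ⊤ := by
      rw [Ob.comp_h, hk, CHom.map_top]
    rw [CHom.map_compl, h2, compl_top] at h3
    exact bot_ne_top h3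
  obtain ⟨⟨x, hx, hxT⟩, -⟩ := hTHE d.A _ _ y (par hσ h) hinf
  refine ⟨hinf, x, hx, hxT, ?_⟩
  apply Ψ.reg
  intro e k
  obtain ⟨e', l, h1, x', h2, h3, h4⟩ := H e k
  refine ⟨e', l, ?_⟩
  have h5 := (hTHE e'.A _ _ (fun i => (k ≫ l).h (y i)) (par hσ (h ≫ k ≫ l)) h1).2 x'
    (fun n m => (k ≫ l).h (x n m)) h2 (by rw [← CHom.map_RealV, hx, CHom.map_top]) h3 (by
      have h6 := CHom.map_ThV (k ≫ l).h (fun u t => h.h (σ u t)) y x
      rw [hxT, CHom.map_top] at h6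
      exact h6.symm)
  rw [h5] at h4
  exact h4

end COR_

open COR_ in
theorem cor_proof (hRST : Stmt_RST) (hTPR : Stmt_TPR) (hTHE : Stmt_THE) (hSMT : Stmt_SMT)
    (hSBR : Stmt_SBR) (hCPR : Stmt_CPR) (hSQF : Stmt_SQF) : Stmt_COR := by
  intro c Ψ T hT
  obtain ⟨σ, hσ⟩ := hTPR c.A T hT
  obtain ⟨d, h, F, hF, hcase⟩ := hCPR c ⟨pp Ψ σ, mono Ψ σ, reg hRST hTHE Ψ hσ⟩
  have hT' : MilV (fun t => h.h (T t)) = ⊤ := by rw [← CHom.map_MilV, hT, CHom.map_top]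
  obtain ⟨hS1, hS2⟩ := hSMT d.A _ _ F hT' (par hσ h) hF
  refine ⟨d, h, STV (fun u t => h.h (σ u t)) F, hS1, hS2, ?_⟩
  have hJ : ∀ (e : Ob) (k : d ⟶ e) (x : ℕ → ℕ → e.A), RealV x = ⊤ →
      InTV x (fun t => k.h (STV (fun u t => h.h (σ u t)) F t)) = ⊤ →
      ∃ J : ℕ → e.A, EvV J = ⊤ ∧ ThV (fun u t => (h ≫ k).h (σ u t))
        (yV (fun n u => k.h (F n u)) J) x = ⊤ := by
    intro e k x hx hxS
    have h1 : (fun t => k.h (STV (fun u t => h.h (σ u t)) F t)) =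
        STV (fun u t => (h ≫ k).h (σ u t)) (fun n u => k.h (F n u)) := by
      funext t
      rw [CHom.map_STV]
      rfl
    rw [h1] at hxS
    have h2 : SeqV (fun n u => k.h (F n u)) = ⊤ := by rw [← CHom.map_SeqV, hF, CHom.map_top]
    exact hSBR e.A _ _ _ x (par hσ (h ≫ k)) h2 hx hxS
  rcases hcase with hcase | hcase
  · left
    intro e k x hx hxS
    obtain ⟨J, hJe, hJt⟩ := hJ e k x hx hxS
    obtain ⟨h1, x', h2, h3, h4⟩ := hcase e k J hJe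
    have h5 := (hTHE e.A _ _ _ (par hσ (h ≫ k)) h1).2 x x' hx h2 hJt h3
    rw [h5]
    exact h4
  · right
    intro e k x hx hxS e' l hΨ
    obtain ⟨J, hJe, hJt⟩ := hJ e k x hx hxS
    have h2 : SeqV (fun n u => k.h (F n u)) = ⊤ := by rw [← CHom.map_SeqV, hF, CHom.map_top]
    have h1 : InfV (yV (fun n u => k.h (F n u)) J) = ⊤ := (hSQF e.A _ h2).2.2.2.2.2.2 J hJe
    refine hcase e k J hJe e' l ⟨?_, fun n m => l.h (x n m), ?_, ?_, hΨ⟩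
    · rw [← CHom.map_InfV, h1, CHom.map_top]
    · rw [← CHom.map_RealV, hx, CHom.map_top]
    · have h6 := CHom.map_ThV l.h (fun u t => (h ≫ k).h (σ u t)) (yV (fun n u => k.h (F n u)) J) x
      rw [hJt, CHom.map_top] at h6
      exact h6.symm

end Pool.Agent.CFZ
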