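import Pool.Agent.CFZ.Stmts

/-!
Squad CFZ, module CPO: capturing of dense sets, one stem.
-/

set_option autoImplicit false

namespace Pool.Agent.CFZ

namespace CPO_

variable {A : Type} [CompleteBooleanAlgebra A]

theorem LeV_iff (E' E : Finset ℕ → A) : LeV E' E = ⊤ ↔ ∀ u, E' u ≤ SpV E u := by
  unfold LeV
  rw [iInf_eq_top]
  exact forall_congr' fun u => himp_eq_top_iff

theorem SpV_le {E' E : Finset ℕ → A} (h : BlkV E' = ⊤) (h' : LeV E' E = ⊤) (u : Finset ℕ) :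
    SpV E' u ≤ SpV E u := by
  have := SpV_trans ⊤ E' E u (BlkV_empty h)
    (fun w _ _ => by rw [top_inf_eq]; exact (LeV_iff _ _).1 h' w)
  rwa [top_inf_eq] at this

theorem LeV_trans {E1 E2 E3 : Finset ℕ → A} (h2 : BlkV E2 = ⊤) (h12 : LeV E1 E2 = ⊤)
    (h23 : LeV E2 E3 = ⊤) : LeV E1 E3 = ⊤ :=
  (LeV_iff _ _).2 fun u => ((LeV_iff _ _).1 h12 u).trans (SpV_le h2 h23 u)

theorem vV_le {E0 : Finset ℕ → A} {D : Set (Cd A E0)} (hD : ∀ q ∈ D, ∀ q' ≤ q, q' ∈ D) {t : L}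
    {E1 E2 : Finset ℕ → A} {a : A} (hE2 : BlkV E2 = ⊤) (hE20 : LeV E2 E0 = ⊤)
    (h : ∀ u, Gt t u → a ⊓ E2 u ≤ SpV E1 u) : a ⊓ vV D t E1 ≤ vV D t E2 := by
  unfold vV
  rw [inf_iSup₂_eq]
  refine iSup₂_le ?_
  rintro q ⟨hq, rfl, rfl⟩
  by_cases hne : a ⊓ q.p = ⊥
  · rw [hne]
    exact bot_le
  · let q' : Cd A E0 := ⟨a ⊓ q.p, q.s, E2, hne, q.hs, hE2, hE20,
      fun u hu => inf_le_right.trans (q.hs0 u hu)⟩
    have hq' : q' ≤ q := by
      rw [Cd.le_def]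
      refine ⟨inf_le_right, List.prefix_refl _, fun u h1 h2 => absurd h1 h2, fun u hu => ?_⟩
      refine le_trans ?_ (h u hu)
      exact inf_le_inf_right _ inf_le_left
    exact le_iSup₂_of_le (f := fun (q : Cd A E0) (_ : q ∈ D ∧ q.s = _ ∧ q.E = E2) => q.p) q'
      ⟨hD q hq q' hq', rfl, rfl⟩ le_rfl

theorem SpV_hit (E : Finset ℕ → A) {u : Finset ℕ} {m : ℕ} (hm : m ∈ u) :
    SpV E u ≤ hitV E m := by
  unfold SpV hitV
  refine iSup₂_le ?_
  rintro W ⟨-, rfl⟩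
  obtain ⟨w, hw, hmw⟩ := Finset.mem_sup.1 hm
  exact le_iSup₂_of_le w hmw (iInf₂_le w hw)

theorem le_vV {E0 : Finset ℕ → A} {D : Set (Cd A E0)} {q : Cd A E0} (hq : q ∈ D) :
    q.p ≤ vV D q.s q.E :=
  le_iSup₂_of_le (f := fun (r : Cd A E0) (_ : r ∈ D ∧ r.s = q.s ∧ r.E = q.E) => r.p) q
    ⟨hq, rfl, rfl⟩ le_rfl

end CPO_

open CPO_ in
theorem cpo_proof (hVMX : Stmt_VMX) (hNWT : Stmt_NWT) (hWPR : Stmt_WPR) : Stmt_CPO := by
  classical
  intro A _ E0 D E t hD ht hE hE0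
  obtain ⟨Ea, hEa, hEaE, hEa0, hmax⟩ := hVMX A E0 D (1 + t.toFinset.sup (fun w => w.sup id)) E
    hD.2 hE hE0
  obtain ⟨E', w, hE', hE'a, hw, hnw⟩ := hNWT A (fun r => vV D r Ea) t Ea ht hEa
  have hE'0 : LeV E' E0 = ⊤ := LeV_trans hEa hE'a hEa0
  refine ⟨E', hE', LeV_trans hEa hE'a hEaE, hE'0, ?_⟩
  have h1 : (⨅ u ∈ t, SpV E0 u) ≤ w := by
    by_contra hcon
    have hne : (⨅ u ∈ t, SpV E0 u) ⊓ wᶜ ≠ ⊥ := fun h => hcon (by
      rw [← disjoint_iff, disjoint_compl_right_iff] at h; exact h)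
    obtain ⟨q1, hq1, hq1D⟩ := hD.1 ⟨(⨅ u ∈ t, SpV E0 u) ⊓ wᶜ, t, E', hne, ht, hE', hE'0,
      fun u hu => inf_le_left.trans (iInf₂_le u hu)⟩
    rw [Cd.le_def] at hq1
    obtain ⟨a1, a2, a3, a4⟩ := hq1
    simp only at a1 a2 a3 a4
    have hO : q1.p ≤ vV D q1.s Ea := by
      have h2 := hmax q1.s q1.hs q1.p q1.E ?_ q1.hE q1.hE0 ?_
      · exact (le_inf le_rfl (le_vV hq1D)).trans h2
      · unfold kapV
        refine le_iInf fun u => le_iInf fun hu => le_iInf fun m => le_iInf fun hm => ?_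
        have hut : u ∉ t := by
          intro hut
          have h5 : m ≤ t.toFinset.sup (fun w => w.sup id) :=
            (Finset.le_sup (f := id) hm.1).trans
              (Finset.le_sup (f := fun w : Finset ℕ => w.sup id) (List.mem_toFinset.2 hut))
          omega
        exact (a3 u hu hut).trans ((SpV_le hE' hE'a u).trans (SpV_hit Ea hm.1))
      · intro u hu
        exact (a4 u hu).trans (SpV_le hE' hE'a u)
    obtain ⟨r, hr⟩ := a2
    have hbl : Blist (t ++ r) := hr ▸ q1.hs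
    have h3 := hnw r hbl
    have h4 : q1.p ≤ ⊥ := by
      rw [← h3]
      refine le_inf (le_inf (a1.trans inf_le_right) ?_) ?_
      · refine le_iInf₂ fun u hu => a3 u (by rw [← hr]; exact List.mem_append_right _ hu) ?_
        intro hut
        obtain ⟨i, hi⟩ := hbl.1 u (List.mem_append_right _ hu)
        exact lt_irrefl _ ((List.pairwise_append.1 hbl.2).2.2 u hut u hu i hi i hi)
      · rw [hr]
        exact hO
    exact q1.hp (le_bot_iff.1 h4)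
  refine h1.trans (hw.trans ?_)
  have h2 := (hWPR A (fun r => vV D r Ea) E').2.2 (fun r => vV D r E') E' t ⊤ (BlkV_empty hE')
    (fun r _ => vV_le hD.2 hE' hE'0 fun u _ => by
      rw [top_inf_eq]; exact (LeV_iff _ _).1 hE'a u)
    (fun u _ => by rw [top_inf_eq]; exact le_SpV _ _)
  rwa [top_inf_eq] at h2

end Pool.Agent.CFZ
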