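import Pool.Agent.CFZ.Stmts

/-!
Squad CFZ, module CPR: homogeneous block sequences.
-/

set_option autoImplicit false

namespace Pool.Agent.CFZ

open CategoryTheory

namespace CPR_

theorem LeV_self {A : Type} [CompleteBooleanAlgebra A] (E : Finset ℕ → A) : LeV E E = ⊤ := by
  unfold LeV
  rw [eq_top_iff]
  refine le_iInf fun u => ?_
  rw [le_himp_iff, top_inf_eq]
  exact le_SpV E u

theorem AlmV_of_le {A : Type} [CompleteBooleanAlgebra A] (b a : ℕ → A) (h : ∀ m, b m ≤ a m) :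
    AlmV b a = ⊤ := by
  unfold AlmV
  rw [eq_top_iff]
  refine le_iSup_of_le 0 (le_iInf₂ fun m _ => ?_)
  rw [le_himp_iff, top_inf_eq]
  exact h m

theorem Blist_nil : Blist [] := ⟨by simp, by simp⟩

/-- the merged generic sequence gives an arrow from the stage of Milliken forcing -/
theorem key (hMRG : Stmt_MRG) (hGNH : Stmt_GNH) (hFNP : Stmt_FNP) (c : Ob)
    (hE0 : BlkV (E0of c.a) = ⊤) (hn : Nontrivial (KA c))
    (hi : InfV (bV (FN (E0of c.a))) = ⊤) (h : c ⟶ Kob c hn hi)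
    (hh : ∀ x, h.h x = iota (E0of c.a) x) (q : Cd c.A (E0of c.a)) (hq : q.s = [])
    (e : Ob) (k : Kob c hn hi ⟶ e) (hk : k.h (RO.pt q : KA c) = ⊤) (J : ℕ → e.A)
    (hJ : EvV J = ⊤) :
    ∃ (e1 : Ob) (ι : e ⟶ e1) (G : Kob c hn hi ⟶ e1), G.h (RO.pt q : KA c) = ⊤ ∧
      h ≫ G = h ≫ k ≫ ι ∧
      ∀ m, G.h (xV (FN (E0of c.a)) m) = ι.h (yV (fun n u => k.h (FN (E0of c.a) n u)) J m) := by
  have hS0 : SeqV (FN (E0of c.a)) = ⊤ := (hFNP c.A (E0of c.a) hE0).1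
  have hS : SeqV (fun n u => k.h (FN (E0of c.a) n u)) = ⊤ := by
    have h1 := CHom.map_SeqV k.h (FN (E0of c.a))
    rw [← h1]
    have h2 : k.h (SeqV (FN (E0of c.a))) = k.h ⊤ := congrArg k.h.f hS0
    rw [h2]
    exact CHom.map_top k.h
  have hA : AlmV e.a (bV (fun n u => k.h (FN (E0of c.a) n u))) = ⊤ := by
    have h1 := k.alm
    have h2 : (fun m => k.h ((Kob c hn hi).a m)) = bV (fun n u => k.h (FN (E0of c.a) n u)) := by
      funext m
      exact CHom.map_bV k.h (FN (E0of c.a)) m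
    rw [h2] at h1
    exact h1
  obtain ⟨C, F', hC, hCe, hF', hsp, hx, hb⟩ := hMRG e.A _ J e.a hS hJ e.inf hA
  obtain ⟨g, hg1, hg2, hg3⟩ := hGNH c.A e.A (E0of c.a) k.h F' hE0 hF' hsp
  let e1 : Ob := @Ob.mk e.A inferInstance inferInstance C hC
  let ι : e ⟶ e1 := ⟨CHom.id e.A, AlmV_of_le _ _ hCe⟩
  have hGb : (fun m => g ((Kob c hn hi).a m)) = C := by
    funext m
    have h1 : g ((Kob c hn hi).a m) = bV (fun n u => g (FN (E0of c.a) n u)) m :=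
      CHom.map_bV g (FN (E0of c.a)) m
    rw [h1, ← hb m]
    congr 1
    funext n u
    exact hg2 n u
  let G : Kob c hn hi ⟶ e1 := ⟨g, by rw [hGb]; exact AlmV_refl C⟩
  refine ⟨e1, ι, G, ?_, ?_, ?_⟩
  · have h1 : k.h (RO.pt q : KA c) ≤ g (RO.pt q) := hg3 q hq
    rw [hk] at h1
    exact top_le_iff.1 h1
  · apply Ob.hom_ext
    intro x
    have h1 : (h ≫ G).h x = g (iota (E0of c.a) x) := by
      show g (h.h x) = _
      rw [hh]
    have h2 : (h ≫ k ≫ ι).h x = k.h (iota (E0of c.a) x) := by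
      show k.h (h.h x) = _
      rw [hh]
    rw [h1, h2]
    exact hg1 x
  · intro m
    have h1 : G.h (xV (FN (E0of c.a)) m) = xV (fun n u => g (FN (E0of c.a) n u)) m :=
      CHom.map_xV g (FN (E0of c.a)) m
    have h2 : (fun n u => g (FN (E0of c.a) n u)) = F' := by
      funext n u
      exact hg2 n u
    rw [h1, h2]
    exact hx m

end CPR_

theorem cpr_proof (hOBK : Stmt_OBK) (hPDE : Stmt_PDE) (hCSK : Stmt_CSK) (hMRG : Stmt_MRG)
    (hGNH : Stmt_GNH) (hRST : Stmt_RST) (hFNP : Stmt_FNP) : Stmt_CPR := by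
  intro c Φ
  obtain ⟨hE0, hn, hi, h, hh⟩ := hOBK c
  let P : KA c → Prop := fun u => ∀ (e' : Ob) (k' : Kob c hn hi ⟶ e'), k'.h u = ⊤ →
    Φ.p e' (h ≫ k') (fun m => k'.h (xV (FN (E0of c.a)) m))
  let θ : KA c := sSup {u | P u}
  have hθ : P θ := by
    intro e' k' hk'
    refine Φ.reg e' (h ≫ k') _ fun e k => ?_
    have h1 : k.h (k'.h θ) = ⊤ := by rw [hk', CHom.map_top]
    have h2 : ∃ u, P u ∧ k.h (k'.h u) ≠ ⊥ := by
      by_contra hc
      push Not at hc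
      have h3 : k.h (k'.h θ) = ⊥ := by
        have h4 : (k'.h.comp k.h) (sSup {u | P u}) = ⊥ := by
          rw [CHom.map_sSup, sSup_eq_bot]
          rintro _ ⟨u, hu, rfl⟩
          exact hc u hu
        exact h4
      rw [h1] at h3
      exact top_ne_bot h3
    obtain ⟨u, hu, hne⟩ := h2
    obtain ⟨e'', l, hl, -⟩ := hRST e _ hne
    refine ⟨e'', l, ?_⟩
    have h5 := hu e'' (k' ≫ k ≫ l) hl
    rw [Category.assoc]
    exact h5
  obtain ⟨E', w, hEB, -, hE'0, hw1, hw2⟩ := hPDE c.A (E0of c.a) θ (E0of c.a) hE0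
    (CPR_.LeV_self _)
  have hcase : ∃ q : Cd c.A (E0of c.a), q.s = [] ∧ (RO.pt q ≤ θ ∨ RO.pt q ≤ θᶜ) := by
    by_cases hw : w = ⊥
    · refine ⟨⟨⊤, [], E', top_ne_bot, CPR_.Blist_nil, hEB, hE'0, by simp⟩, rfl, Or.inr ?_⟩
      rw [RO.pt_le]
      refine hw2 _ rfl rfl ?_
      rw [hw, compl_bot]
    · refine ⟨⟨w, [], E', hw, CPR_.Blist_nil, hEB, hE'0, by simp⟩, rfl, Or.inl ?_⟩
      rw [RO.pt_le]
      exact hw1 _ rfl rfl le_rfl
  obtain ⟨q, hqs, hq⟩ := hcase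
  obtain ⟨d, κ, hκ, -⟩ := hRST (Kob c hn hi) (RO.pt q) (RO.pt_ne_bot q)
  have hS0 : SeqV (FN (E0of c.a)) = ⊤ := (hFNP c.A (E0of c.a) hE0).1
  refine ⟨d, h ≫ κ, fun n u => κ.h (FN (E0of c.a) n u), ?_, ?_⟩
  · have h1 := CHom.map_SeqV κ.h (FN (E0of c.a))
    rw [← h1]
    have h2 : κ.h (SeqV (FN (E0of c.a))) = κ.h ⊤ := congrArg κ.h.f hS0
    rw [h2]
    exact CHom.map_top κ.h
  have hkq : ∀ (e : Ob) (k : d ⟶ e), (κ ≫ k).h (RO.pt q : KA c) = ⊤ := by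
    intro e k
    have h1 : k.h (κ.h (RO.pt q)) = k.h ⊤ := congrArg k.h.f hκ
    exact h1.trans (CHom.map_top k.h)
  rcases hq with hq | hq
  · left
    intro e k J hJ
    refine Φ.reg e _ _ fun e2 k2 => ?_
    have hJ2 : EvV (fun n => k2.h (J n)) = ⊤ := by
      rw [← CHom.map_EvV, hJ, CHom.map_top]
    obtain ⟨e1, ι, G, hG1, hG2, hG3⟩ := CPR_.key hMRG hGNH hFNP c hE0 hn hi h hh q hqs e2
      (κ ≫ k ≫ k2) (hkq e2 (k ≫ k2)) _ hJ2
    refine ⟨e1, ι, ?_⟩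
    have h1 : G.h θ = ⊤ := by
      have h2 : G.h (RO.pt q) ≤ G.h θ := CHom.mono G.h hq
      rw [hG1] at h2
      exact top_le_iff.1 h2
    have h3 := hθ e1 G h1
    have h4 : ((h ≫ κ) ≫ k) ≫ k2 ≫ ι = h ≫ G := by
      rw [hG2]
      simp only [Category.assoc]
    have h5 : (fun i => (k2 ≫ ι).h (yV (fun n u => k.h (κ.h (FN (E0of c.a) n u))) J i)) =
        fun m => G.h (xV (FN (E0of c.a)) m) := by
      funext m
      rw [hG3 m, Ob.comp_h, CHom.map_yV]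
      rfl
    rw [h4, h5]
    exact h3
  · right
    intro e k J hJ e' l hΦ
    have hJ2 : EvV (fun n => l.h (J n)) = ⊤ := by
      rw [← CHom.map_EvV, hJ, CHom.map_top]
    obtain ⟨e1, ι, G, hG1, hG2, hG3⟩ := CPR_.key hMRG hGNH hFNP c hE0 hn hi h hh q hqs e'
      (κ ≫ k ≫ l) (hkq e' (k ≫ l)) _ hJ2
    have h3 := Φ.mono e' e1 _ ι _ hΦ
    have h4 : ((h ≫ κ) ≫ k ≫ l) ≫ ι = h ≫ G := by
      rw [hG2]
      simp only [Category.assoc]
    have h5 : (fun i => ι.h (l.h (yV (fun n u => k.h (κ.h (FN (E0of c.a) n u))) J i))) =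
        fun m => G.h (xV (FN (E0of c.a)) m) := by
      funext m
      rw [hG3 m, CHom.map_yV]
      rfl
    rw [h4, h5] at h3
    obtain ⟨u, hu1, hu2, hu3⟩ := hCSK c Φ hn hi h hh q hqs e1 G hG1 h3
    apply hu2
    have h6 : u ≤ θ := le_sSup (show u ∈ {u | P u} from hu3)
    have h7 : u ≤ θ ⊓ θᶜ := le_inf h6 (hu1.trans hq)
    rw [inf_compl_self] at h7
    exact le_bot_iff.1 h7

end Pool.Agent.CFZ
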