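import Pool.Agent.CFZ.Stmts

set_option autoImplicit false

namespace Pool.Agent.CFZ

open CategoryTheory

namespace CSK_

/-- the restriction of a complete Boolean algebra to an element -/
@[reducible] def restr {A : Type} [CompleteBooleanAlgebra A] (u : A) :
    CompleteBooleanAlgebra (Set.Iic u) where
  compl x := ⟨u ⊓ (x : A)ᶜ, inf_le_left⟩
  le_sup_inf x y z := by
    change ((x : A) ⊔ y) ⊓ ((x : A) ⊔ z) ≤ (x : A) ⊔ (y : A) ⊓ z
    exact le_sup_inf
  inf_compl_le_bot x := by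
    change (x : A) ⊓ (u ⊓ (x : A)ᶜ) ≤ ⊥
    exact (inf_le_inf_left _ inf_le_right).trans (by simp)
  top_le_sup_compl x := by
    change u ≤ (x : A) ⊔ (u ⊓ (x : A)ᶜ)
    rw [sup_inf_left, sup_compl_eq_top, inf_top_eq]
    exact le_sup_right

/-- a complete homomorphism which maps `u` to `⊤` is defined on the restriction to `u` -/
def resH {A B : Type} [CompleteBooleanAlgebra A] [CompleteBooleanAlgebra B] (u : A)
    (f : CHom A B) (hf : f u = ⊤) : @CHom (Set.Iic u) B (restr u) _ :=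
  let _ := restr u
  { f := fun x => f x
    map_sSup' := by
      intro s
      change f (sSup ((fun x : Set.Iic u => (x : A)) '' s)) = _
      rw [f.map_sSup, Set.image_image]
    map_compl' := by
      intro x
      change f (u ⊓ (x : A)ᶜ) = _
      rw [f.map_inf, hf, top_inf_eq, f.map_compl] }

/-- a complete homomorphism commutes with infima of sets -/
theorem map_sInf_top {A B : Type} [CompleteBooleanAlgebra A] [CompleteBooleanAlgebra B]
    (g : CHom A B) : g (sInf {x | g x = ⊤}) = ⊤ := by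
  rw [sInf_eq_iInf, CHom.map_iInf]
  simp only [CHom.map_iInf]
  exact top_le_iff.1 (le_iInf₂ fun x hx => (show g x = ⊤ from hx).ge)

/-- amalgamation over the kernel of `g` -/
theorem amal (hAMA : Stmt_AMA) {K A B : Type} [CompleteBooleanAlgebra K] [CompleteBooleanAlgebra A]
    [CompleteBooleanAlgebra B] [Nontrivial A] [Nontrivial B] (g : CHom K A) (s : CHom K B)
    (hs : s (sInf {x | g x = ⊤}) = ⊤) :
    ∃ (T : Type) (_ : CompleteBooleanAlgebra T) (_ : Nontrivial T) (r' : CHom A T) (s' : CHom B T),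
      ∀ x, r' (g x) = s' (s x) := by
  set u : K := sInf {x | g x = ⊤} with hu
  have hgu : g u = ⊤ := map_sInf_top g
  have hmin : ∀ x, g x = ⊤ → u ≤ x := fun x hx => sInf_le hx
  let _ := restr u
  have hune : u ≠ ⊥ := by
    intro h
    rw [h, CHom.map_bot] at hgu
    exact bot_ne_top hgu
  have : Nontrivial (Set.Iic u) := ⟨⟨⟨⊥, bot_le⟩, ⟨u, le_refl u⟩, fun h =>
    hune (congrArg Subtype.val h).symm⟩⟩
  obtain ⟨T, iT, nT, r', s', h⟩ := hAMA (Set.Iic u) A B (resH u g hgu) (resH u s hs) (by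
    intro x hx
    have hx' : g x = ⊥ := hx
    have h1 : g ((x : K)ᶜ) = ⊤ := by rw [g.map_compl, hx', compl_bot]
    have h2 := hmin _ h1
    have h3 : (x : K) ≤ ⊥ := by
      have := le_inf le_rfl (x.2.trans h2)
      rwa [inf_compl_self] at this
    exact Subtype.ext (le_bot_iff.1 h3))
  refine ⟨T, iT, nT, r', s', fun x => ?_⟩
  have h1 := h ⟨x ⊓ u, inf_le_right⟩
  have h2 : r' (g (x ⊓ u)) = s' (s (x ⊓ u)) := h1
  rwa [g.map_inf, s.map_inf, hgu, hs, inf_top_eq, inf_top_eq] at h2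

/-- the even numbers -/
def evn (A : Type) [CompleteBooleanAlgebra A] (m : ℕ) : A := if Even m then ⊤ else ⊥

theorem evn_EvV (A : Type) [CompleteBooleanAlgebra A] : EvV (evn A) = ⊤ := by
  unfold EvV InfV
  rw [← top_le_iff]
  refine le_inf (le_iInf fun n => ?_) (le_iInf fun n => ?_)
  · refine le_iSup_of_le (2 * n) (le_iSup_of_le (by omega) ?_)
    simp [evn]
  · have : ¬ Even (2 * n + 1) := by
      rw [Nat.not_even_iff_odd]
      exact ⟨n, rfl⟩
    simp [evn, this]

theorem yV_evn {A : Type} [CompleteBooleanAlgebra A] (F : ℕ → Finset ℕ → A) (m : ℕ) :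
    yV F (evn A) m = xV F m := by
  unfold yV xV
  apply le_antisymm
  · refine iSup_le fun j => iSup₂_le fun u hu => ?_
    by_cases hj : Even j
    · obtain ⟨n, rfl⟩ := hj
      refine inf_le_right.trans (le_iSup_of_le n (le_iSup₂_of_le u hu ?_))
      rw [two_mul]
    · simp [evn, hj]
  · refine iSup_le fun n => iSup₂_le fun u hu => ?_
    refine le_iSup_of_le (2 * n) (le_iSup₂_of_le u hu ?_)
    simp [evn]

end CSK_

open CSK_ in
theorem csk_proof (hMRG : Stmt_MRG) (hGNH : Stmt_GNH) (hAMA : Stmt_AMA) (_hRST : Stmt_RST)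
    (hOBK : Stmt_OBK) (hFNP : Stmt_FNP) : Stmt_CSK := by
  intro c Φ hn hi h hh q hqs e k hkq hΦ
  have hBl : BlkV (E0of c.a) = ⊤ := (hOBK c).1
  have hSeq : SeqV (FN (E0of c.a)) = ⊤ := (hFNP c.A (E0of c.a) hBl).1
  -- the homomorphism of `k`, with the type which occurs in the statements
  let kh : CHom (RO (Cd c.A (E0of c.a))) e.A := k.h
  let F : ℕ → Finset ℕ → e.A := fun n u => kh (FN (E0of c.a) n u)
  have hSF : SeqV F = ⊤ := by
    rw [← CHom.map_SeqV kh, hSeq, CHom.map_top]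
  have hAF : AlmV e.a (bV F) = ⊤ := by
    have h1 : bV F = fun m => kh (bV (FN (E0of c.a)) m) := by
      funext m
      exact (CHom.map_bV kh _ m).symm
    rw [h1]
    exact k.alm
  obtain ⟨C, F', hC, hCe, hSF', hFF', hxF', hbF'⟩ :=
    hMRG e.A F (evn e.A) e.a hSF (evn_EvV e.A) e.inf hAF
  obtain ⟨g, hg1, hg2, hg3⟩ := hGNH c.A e.A (E0of c.a) kh F' hBl hSF' hFF'
  have hgq : g (RO.pt q) = ⊤ := by
    have := hg3 q hqs
    rw [show kh (RO.pt q) = ⊤ from hkq] at this
    exact top_le_iff.1 this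
  have hgb : ∀ m, g (bV (FN (E0of c.a)) m) = C m := by
    intro m
    rw [CHom.map_bV g, ← hbF' m]
    congr 1
    funext n u
    exact hg2 n u
  have hgx : ∀ m, g (xV (FN (E0of c.a)) m) = kh (xV (FN (E0of c.a)) m) := by
    intro m
    rw [CHom.map_xV g, CHom.map_xV kh, ← yV_evn F m, ← hxF' m]
    congr 1
    funext n u
    exact hg2 n u
  -- the stage with the infinite set `C`
  let e1 : Ob := ⟨e.A, C, hC⟩
  let j : e ⟶ e1 := ⟨CHom.id e.A, by
    change AlmV C (fun m => e.a m) = ⊤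
    rw [← top_le_iff]
    refine le_iSup_of_le 0 (le_iInf₂ fun m _ => ?_)
    rw [himp_eq_top_iff.2 (hCe m)]⟩
  let G : Kob c hn hi ⟶ e1 := ⟨g, by
    change AlmV C (fun m => g (bV (FN (E0of c.a)) m)) = ⊤
    simp only [hgb]
    exact AlmV_refl C⟩
  have hG : (h ≫ k) ≫ j = h ≫ G := by
    apply Ob.hom_ext
    intro x
    change kh (h.h x) = g (h.h x)
    rw [hh x]
    exact (hg1 x).symm
  have hΦ1 : Φ.p e1 (h ≫ G) (fun m => g (xV (FN (E0of c.a)) m)) := by
    have h1 := Φ.mono e e1 (h ≫ k) j _ hΦ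
    rw [hG] at h1
    have h2 : (fun m => g (xV (FN (E0of c.a)) m)) =
        fun m => j.h (k.h (xV (FN (E0of c.a)) m)) := by
      funext m
      exact hgx m
    rw [h2]
    exact h1
  refine ⟨sInf {x | g x = ⊤}, sInf_le hgq, ?_, ?_⟩
  · intro h0
    have h1 := map_sInf_top g
    rw [h0, CHom.map_bot] at h1
    exact bot_ne_top h1
  · intro e' k' hk'
    apply Φ.reg
    intro e'' l0
    let k2 : Kob c hn hi ⟶ e'' := k' ≫ l0
    let kh2 : CHom (RO (Cd c.A (E0of c.a))) e''.A := k2.h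
    have hk2 : kh2 (sInf {x | g x = ⊤}) = ⊤ := by
      change l0.h (k'.h _) = ⊤
      rw [show k'.h _ = ⊤ from hk', CHom.map_top]
    obtain ⟨T, iT, nT, r', s', hrs⟩ := amal hAMA g kh2 hk2
    let T1 : Ob := ⟨T, fun m => s' (e''.a m), by
      rw [← CHom.map_InfV, e''.inf, CHom.map_top]⟩
    let l : e'' ⟶ T1 := ⟨s', AlmV_refl _⟩
    let n : e1 ⟶ T1 := ⟨r', by
      change AlmV (fun m => s' (e''.a m)) (fun m => r' (C m)) = ⊤
      have h1 : (fun m => r' (C m)) = fun m => s' (kh2 (bV (FN (E0of c.a)) m)) := by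
        funext m
        rw [← hgb m, hrs]
      rw [h1, ← CHom.map_AlmV]
      have h2 : AlmV e''.a (fun m => kh2 (bV (FN (E0of c.a)) m)) = ⊤ := k2.alm
      rw [h2, CHom.map_top]⟩
    refine ⟨T1, l, ?_⟩
    have h1 := Φ.mono e1 T1 (h ≫ G) n _ hΦ1
    have h2 : (h ≫ G) ≫ n = (h ≫ k') ≫ l0 ≫ l := by
      apply Ob.hom_ext
      intro x
      exact hrs (h.h x)
    rw [h2] at h1
    have h3 : (fun m => (l0 ≫ l).h (k'.h (xV (FN (E0of c.a)) m))) =
        fun m => n.h (g (xV (FN (E0of c.a)) m)) := by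
      funext m
      exact (hrs (xV (FN (E0of c.a)) m)).symm
    rw [h3]
    exact h1

end Pool.Agent.CFZ
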