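import Pool.Agent.CFZ.Stmts

/-!
Squad CFZ, module CTP: transfer principle for closed statements.
-/

set_option autoImplicit false

namespace Pool.Agent.CFZ

namespace CTP_

section

variable {A : Type} [CompleteBooleanAlgebra A]

/-- the operator -/
def F (b : List ℕ → A) : (List ℕ → A) →o (List ℕ → A) where
  toFun X s := (b s)ᶜ ⊔ ⨅ n, X (s ++ [n])
  monotone' X Y h s := sup_le_sup_left (iInf_mono fun n => h (s ++ [n])) _

theorem F_apply (b : List ℕ → A) (X : List ℕ → A) (s : List ℕ) :
    F b X s = (b s)ᶜ ⊔ ⨅ n, X (s ++ [n]) := rfl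

/-- the approximants -/
noncomputable def ap (b : List ℕ → A) (a : Ordinal.{0}) : List ℕ → A :=
  OrdinalApprox.lfpApprox (F b) ⊥ a

theorem ap_mono (b : List ℕ → A) : Monotone (ap b) :=
  OrdinalApprox.lfpApprox_mono_right (F b)

theorem ap_succ (b : List ℕ → A) (a : Ordinal.{0}) : ap b (a + 1) = F b (ap b a) :=
  OrdinalApprox.lfpApprox_add_one (F b) bot_le a

theorem ap_le (b : List ℕ → A) (a : Ordinal.{0}) (s : List ℕ) (y : A)
    (h : ∀ a' < a, ap b (a' + 1) s ≤ y) : ap b a s ≤ y := by
  have h1 : ap b a = ⊥ ⊔ ⨆ a' < a, F b (ap b a') := by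
    unfold ap
    rw [OrdinalApprox.lfpApprox]
  rw [h1, bot_sup_eq, iSup_apply]
  refine iSup_le fun a' => ?_
  rw [iSup_apply]
  refine iSup_le fun ha' => ?_
  rw [← ap_succ]
  exact h a' ha'

/-- the ranks -/
noncomputable def rk (b : List ℕ → A) (s : List ℕ) (a : Ordinal.{0}) : A :=
  ap b (a + 1) s ⊓ (ap b a s)ᶜ

theorem ap_le_sup (b : List ℕ → A) (s : List ℕ) (a : Ordinal.{0}) :
    ap b a s ≤ sSup (Set.range (rk b s)) := by
  induction a using WellFoundedLT.induction with
  | ind a ih =>
    refine ap_le b a s _ fun a' ha' => ?_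
    have h1 : ap b (a' + 1) s ≤ rk b s a' ⊔ ap b a' s := by
      unfold rk
      rw [sup_inf_right, compl_sup_eq_top, inf_top_eq]
      exact le_sup_left
    exact h1.trans (sup_le (le_sSup ⟨a', rfl⟩) (ih a' ha'))

theorem lfp_le_sup (b : List ℕ → A) (s : List ℕ) : (F b).lfp s ≤ sSup (Set.range (rk b s)) := by
  rw [← OrdinalApprox.lfpApprox_ord_eq_lfp]
  exact ap_le_sup b s _

theorem ap_le_lfp (b : List ℕ → A) (a : Ordinal.{0}) : ap b a ≤ (F b).lfp :=
  OrdinalApprox.lfpApprox_le_of_mem_fixedPoints (F b) ((F b).map_lfp) bot_le a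

/-- the partition of unity -/
def ze (U : List ℕ → A) : List ℕ → A
  | [] => ⊤
  | n :: r => ze U r ⊓ disjointed (fun m => U (r.reverse ++ [m])) n

theorem ze_le (U : List ℕ → A) (h0 : U [] = ⊤) (r : List ℕ) : ze U r ≤ U r.reverse := by
  cases r with
  | nil => simp [ze, h0]
  | cons n r =>
    rw [ze, List.reverse_cons]
    exact inf_le_right.trans (disjointed_le (fun m => U (r.reverse ++ [m])) n)

theorem ze_append (U : List ℕ → A) (s : List ℕ) (n : ℕ) :
    ze U (s ++ [n]).reverse = ze U s.reverse ⊓ disjointed (fun m => U (s ++ [m])) n := by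
  rw [List.reverse_append, List.reverse_singleton, List.singleton_append, ze, List.reverse_reverse]

end

end CTP_

open CTP_

theorem ctp_proof (hLSK : Stmt_LSK) : Stmt_CTP := by
  intro α B hB hdec htwo A _ x
  set b : List ℕ → A := fun s => B s A x with hb
  have hbdec : ∀ s n, b (s ++ [n]) ≤ b s := fun s n => hdec s n A x
  choose φ hφ using hB
  have key : (F b).lfp [] = ⊥ := by
    by_contra hne
    obtain ⟨v, vb, vtop, vinf, vcompl, vsup, vval⟩ := hLSK α A x
      (fun n => φ ((Encodable.decode (α := List ℕ) n).getD [])) ((F b).lfp [])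
      (fun n => match (Encodable.decode (α := List ℕ) n) with
        | some s => Set.range (rk b s)
        | none => ∅) hne
    have vmono : ∀ p q, p ≤ q → v p → v q := by
      intro p q hpq hp
      have : p = p ⊓ q := (inf_eq_left.2 hpq).symm
      rw [this] at hp
      exact ((vinf p q).1 hp).2
    have vs : ∀ s, v ((F b).lfp s) → ∃ a, v (rk b s a) := by
      intro s hs
      have h1 := vsup (Encodable.encode s)
      simp only [Encodable.encodek] at h1
      obtain ⟨y, ⟨a, rfl⟩, hy⟩ := h1 (vmono _ _ (lfp_le_sup b s) hs)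
      exact ⟨a, hy⟩
    have vB : ∀ s, v (b s) ↔ B s Prop (fun i => v (x i)) := by
      intro s
      have h1 := vval (Encodable.encode s)
      simp only [Encodable.encodek, Option.getD_some] at h1
      rw [hφ s Prop, ← h1, hb]
      show v (B s A x) ↔ _
      rw [hφ s A]
    obtain ⟨z, hz⟩ := htwo (fun i => v (x i))
    have claim : ∀ (a : Ordinal.{0}) (n : ℕ), ¬ v (rk b ((List.range n).map z) a) := by
      intro a
      induction a using WellFoundedLT.induction with
      | ind a ih =>
        intro n hv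
        obtain ⟨h1, h2⟩ := (vinf _ _).1 hv
        rw [ap_succ, F_apply] at h1
        have h3 : v (b ((List.range n).map z)) := (vB _).2 (hz n)
        have h4 : v (⨅ m, ap b a ((List.range n).map z ++ [m])) := by
          have h5 : v (((b ((List.range n).map z))ᶜ ⊔ ⨅ m, ap b a ((List.range n).map z ++ [m])) ⊓
              b ((List.range n).map z)) := (vinf _ _).2 ⟨h1, h3⟩
          refine vmono _ _ ?_ h5
          rw [inf_sup_right, compl_inf_eq_bot, bot_sup_eq]
          exact inf_le_left
        have h6 : v (ap b a ((List.range (n + 1)).map z)) := by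
          rw [List.range_succ, List.map_append]
          exact vmono _ _ (iInf_le _ (z n)) h4
        obtain ⟨a', ha'⟩ := vs _ (vmono _ _ (ap_le_lfp b a _) h6)
        have h7 := (vcompl _).1 ((vinf _ _).1 ha').2
        have h8 : a' < a := by
          by_contra h9
          exact h7 (vmono _ _ (ap_mono b (not_lt.1 h9) _) h6)
        exact ih a' h8 (n + 1) ha'
    obtain ⟨a, ha⟩ := vs [] vb
    exact claim a 0 (by simpa using ha)
  set U : List ℕ → A := fun s => ((F b).lfp s)ᶜ with hU
  have hU0 : U [] = ⊤ := by simp [hU, key]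
  have hUs : ∀ s, U s = b s ⊓ ⨆ n, U (s ++ [n]) := by
    intro s
    have h1 : (F b).lfp s = (b s)ᶜ ⊔ ⨅ n, (F b).lfp (s ++ [n]) := by
      conv_lhs => rw [← (F b).map_lfp]
      rfl
    simp only [hU]
    rw [h1, compl_sup, compl_compl, compl_iInf]
  refine ⟨fun s => ze U s.reverse, rfl, ?_, ?_, ?_⟩
  · intro s
    simp only [ze_append]
    rw [← inf_iSup_eq, iSup_disjointed]
    refine (inf_eq_left.2 ?_).symm
    have h1 := ze_le U hU0 s.reverse
    rw [List.reverse_reverse] at h1
    refine h1.trans ?_
    rw [hUs s]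
    exact inf_le_right
  · intro s n m hnm
    simp only [ze_append]
    have h1 := (disjoint_disjointed (fun m => U (s ++ [m])) hnm).le_bot
    refine le_bot_iff.1 (le_trans ?_ h1)
    exact inf_le_inf inf_le_right inf_le_right
  · intro s
    have h1 := ze_le U hU0 s.reverse
    rw [List.reverse_reverse] at h1
    refine h1.trans ?_
    rw [hUs s]
    exact inf_le_left

end Pool.Agent.CFZ
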