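import Pool.Agent.CFZ.Stmts

set_option autoImplicit false

namespace Pool.Agent.CFZ

open CategoryTheory

namespace DCT_

/-- a stage with an element of `a` -/
structure St (d : Ob) (a : LN d) where
  c : Ob
  g : d ⟶ c
  x : LN c
  hx : x.memf (a.r g)

theorem start (hFUL : Stmt_FUL) {d : Ob} (a : LN d)
    (hA : Dns (c := d) fun e h => ∃ y : LN e, y.memf (a.r h)) : Nonempty (St d a) := by
  obtain ⟨e, h, y, _, hy⟩ := hFUL d (fun e h y => y.memf (a.r h))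
    (by
      intro d' e h k y hy
      have := LN.memf_mono hy k
      rwa [LN.r_r] at this)
    (by
      intro d' h y y' hyy hy
      exact LN.memf_congr hyy (LN.eqf_refl _) hy)
    (by
      intro d' h y H
      refine LN.memf_reg fun e k => ?_
      obtain ⟨e', l, h'⟩ := H e k
      exact ⟨e', l, by simpa using h'⟩)
    (fun e h => hA e h)
  exact ⟨⟨e, h, y, hy⟩⟩

theorem op_move (hOPN : Stmt_OPN) {c d : Ob} (k : c ⟶ d) {x y r : LN c} (H : (opN x y).memf r) :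
    (opN (x.r k) (y.r k)).memf (r.r k) :=
  LN.memf_congr ((hOPN Ob).1 c d k x y) (LN.eqf_refl _) (LN.memf_mono H k)

theorem op_back (hOPN : Stmt_OPN) {c d : Ob} (k : c ⟶ d) {x y : LN c} {r : LN d}
    (H : (opN (x.r k) (y.r k)).memf r) : ((opN x y).r k).memf r :=
  LN.memf_congr (LN.eqf_symm ((hOPN Ob).1 c d k x y)) (LN.eqf_refl _) H

theorem op_congr (hOPN : Stmt_OPN) {c : Ob} {x y x' y' r : LN c} (hx : x.eqf x') (hy : y.eqf y')
    (H : (opN x y).memf r) : (opN x' y').memf r :=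
  LN.memf_congr (((hOPN Ob).2.1 c x y x' y').2 ⟨hx, hy⟩) (LN.eqf_refl _) H

theorem step (hFUL : Stmt_FUL) (hOPN : Stmt_OPN) {d : Ob} (a r : LN d)
    (hB : ∀ (e : Ob) (h : d ⟶ e) (x : LN e), x.memf (a.r h) → Dns (c := e) fun e' k =>
      ∃ y : LN e', y.memf (a.r (h ≫ k)) ∧ (opN (x.r k) y).memf (r.r (h ≫ k)))
    (s : St d a) : ∃ (t : St d a) (h : s.c ⟶ t.c), Inj h ∧ s.g ≫ h = t.g ∧
      (opN (s.x.r h) t.x).memf (r.r t.g) := by
  obtain ⟨e, h, y, hi, hy1, hy2⟩ := hFUL s.c (fun e h y => y.memf (a.r (s.g ≫ h)) ∧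
      (opN (s.x.r h) y).memf (r.r (s.g ≫ h)))
    (by
      rintro d' e h k y ⟨h1, h2⟩
      have h3 := LN.memf_mono h1 k
      have h4 := op_move hOPN k h2
      simp only [LN.r_r, Category.assoc] at h3 h4
      exact ⟨h3, h4⟩)
    (by
      rintro d' h y y' hyy ⟨h1, h2⟩
      exact ⟨LN.memf_congr hyy (LN.eqf_refl _) h1, op_congr hOPN (LN.eqf_refl _) hyy h2⟩)
    (by
      intro d' h y H
      refine ⟨LN.memf_reg fun e k => ?_, LN.memf_reg fun e k => ?_⟩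
      · obtain ⟨e', l, h', -⟩ := H e k
        exact ⟨e', l, by simpa using h'⟩
      · obtain ⟨e', l, -, h'⟩ := H e k
        refine ⟨e', l, op_back hOPN (k ≫ l) ?_⟩
        simpa using h')
    (by
      intro e h
      obtain ⟨e', k, y, h1, h2⟩ := hB s.c s.g s.x s.hx e h
      exact ⟨e', k, y, h1, h2⟩)
  exact ⟨⟨e, s.g ≫ h, y, hy1⟩, h, hi, rfl, hy2⟩

theorem main (hFUL : Stmt_FUL) (hLOB : Stmt_LOB) (hNAT : Stmt_NAT) (hOPN : Stmt_OPN)
    {d : Ob} (a r : LN d)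
    (hA : Dns (c := d) fun e h => ∃ y : LN e, y.memf (a.r h))
    (hB : ∀ (e : Ob) (h : d ⟶ e) (x : LN e), x.memf (a.r h) → Dns (c := e) fun e' k =>
      ∃ y : LN e', y.memf (a.r (h ≫ k)) ∧ (opN (x.r k) y).memf (r.r (h ≫ k))) :
    ∃ (e : Ob) (g : d ⟶ e) (f : LN e), FFun f (omN e) (a.r g) ∧
      ∀ (e1 : Ob) (l : e ⟶ e1) (n m x y : LN e1), (opN n x).memf (f.r l) →
        (opN m y).memf (f.r l) →
        (∀ (e2 : Ob) (k : e1 ⟶ e2) (i : ℕ), (n.r k).eqf (natN e2 i) →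
          (m.r k).eqf (natN e2 (i + 1))) →
        (opN x y).memf (r.r (g ≫ l)) := by
  obtain ⟨s0⟩ := start hFUL a hA
  choose nx hh hi hg hr using step hFUL hOPN a r hB
  let S : ℕ → St d a := fun n => Nat.rec s0 (fun _ s => nx s) n
  have hS : ∀ n, S (n + 1) = nx (S n) := fun n => rfl
  obtain ⟨e, k, hk, -⟩ := hLOB (fun n => (S n).c) (fun n => hh (S n)) (fun n => hi (S n))
  have hgk : ∀ n, (S n).g ≫ k n = (S 0).g ≫ k 0 := by
    intro n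
    induction n with
    | zero => rfl
    | succ n ih =>
      rw [← ih, ← hk n, ← Category.assoc]
      congr 1
      exact (hg (S n)).symm
  let X : ℕ → LN e := fun n => ((S n).x).r (k n)
  have hXa : ∀ n, (X n).memf (a.r ((S 0).g ≫ k 0)) := by
    intro n
    have := LN.memf_mono (S n).hx (k n)
    rw [LN.r_r, hgk n] at this
    exact this
  have hXr : ∀ n, (opN (X n) (X (n + 1))).memf (r.r ((S 0).g ≫ k 0)) := by
    intro n
    have h1 := op_move hOPN (k (n + 1)) (hr (S n))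
    have h2 : ((r.r (nx (S n)).g).r (k (n + 1))) = r.r ((S 0).g ≫ k 0) := by
      rw [LN.r_r]
      congr 1
      exact hgk (n + 1)
    rw [h2] at h1
    have h3 : (((S n).x.r (hh (S n))).r (k (n + 1))) = X n := by
      rw [LN.r_r, hk n]
    rw [h3] at h1
    exact h1
  obtain ⟨nat1, nat2, nat3, nat4, nat5⟩ := hNAT Ob
  obtain ⟨op1, op2, -⟩ := hOPN Ob
  let f : LN e := fam e ℕ (fun n => opN (natN e n) (X n))
  have hf : ∀ (e1 : Ob) (l : e ⟶ e1) (p : LN e1), p.memf (f.r l) →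
      Dns (c := e1) fun e2 k => ∃ i : ℕ, (p.r k).eqf (opN (natN e2 i) ((X i).r (l ≫ k))) := by
    intro e1 l p hp e2 h
    obtain ⟨e3, k', i, hik⟩ := (memf_fam l p).1 hp e2 h
    refine ⟨e3, k', i, ?_⟩
    refine LN.eqf_trans hik (LN.eqf_trans (op1 _ _ _ _ _) ?_)
    exact (op2 _ _ _ _ _).2 ⟨nat1 _ _ _ _, LN.eqf_refl _⟩
  have hf2 : ∀ i : ℕ, (opN (natN e i) (X i)).memf f := by
    intro i
    have h1 : (opN (natN e i) (X i)).memf (f.r (𝟙 e)) := by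
      refine (memf_fam (𝟙 e) _).2 fun e1 h => ⟨e1, 𝟙 e1, i, ?_⟩
      simpa using LN.eqf_refl _
    simpa using h1
  have hpair : ∀ (e1 : Ob) (l : e ⟶ e1) (n x : LN e1), (opN n x).memf (f.r l) →
      Dns (c := e1) fun e2 k => ∃ i : ℕ, (n.r k).eqf (natN e2 i) ∧
        (x.r k).eqf ((X i).r (l ≫ k)) := by
    intro e1 l n x hp e2 h
    obtain ⟨e3, k', i, hik⟩ := hf e1 l _ hp e2 h
    have h1 := LN.eqf_trans (LN.eqf_symm (op1 _ _ (h ≫ k') n x)) hik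
    exact ⟨e3, k', i, (op2 _ _ _ _ _).1 h1⟩
  refine ⟨e, (S 0).g ≫ k 0, f, ⟨?_, ?_, ?_⟩, ?_⟩
  · intro e1 h p hp e2 h2
    obtain ⟨e3, k', i, hik⟩ := hf e1 h p hp e2 h2
    refine ⟨e3, k', natN e3 i, (X i).r (h ≫ h2 ≫ k'), ?_, ?_, hik⟩
    · have h3 : (natN e3 i).memf (omN e3) :=
        (nat5 e3 (natN e3 i)).2 fun e4 l => ⟨e4, 𝟙 e4, i, nat1 _ _ _ _⟩
      exact LN.memf_congr (LN.eqf_refl _) (LN.eqf_symm (nat2 _ _ _)) h3
    · exact LN.memf_mono (hXa i) _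
  · intro e1 h n hn e2 h2
    have h3 : n.memf (omN e1) := LN.memf_congr (LN.eqf_refl _) (nat2 _ _ h) hn
    obtain ⟨e3, k', m, hm⟩ := (nat5 e1 n).1 h3 e2 h2
    refine ⟨e3, k', (X m).r (h ≫ h2 ≫ k'), LN.memf_mono (hXa m) _, ?_⟩
    have h4 := op_move hOPN (h ≫ h2 ≫ k') (hf2 m)
    refine op_congr hOPN ?_ (LN.eqf_refl _) h4
    exact LN.eqf_trans (nat1 _ _ _ _) (LN.eqf_symm hm)
  · intro e1 h n b b' _ hb hb'
    refine LN.eqf_reg fun e2 h2 => ?_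
    obtain ⟨e3, k', i, hi1, hi2⟩ := hpair e1 h n b hb e2 h2
    obtain ⟨e4, l', j, hj1, hj2⟩ := hpair e1 h n b' hb' e3 (h2 ≫ k')
    refine ⟨e4, k' ≫ l', ?_⟩
    have h5 := LN.eqf_mono hi1 l'
    have h6 := LN.eqf_mono hi2 l'
    simp only [LN.r_r, Category.assoc] at h5 h6 hj1 hj2
    have h7 : (natN e4 i).eqf (natN e4 j) :=
      LN.eqf_trans (LN.eqf_symm (nat1 _ _ l' i)) (LN.eqf_trans (LN.eqf_symm h5) hj1)
    have h8 : i = j := ((nat3 e4 i j).2).1 h7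
    subst h8
    exact LN.eqf_trans h6 (LN.eqf_symm hj2)
  · intro e1 l n m x y hnx hmy hsuc
    refine LN.memf_reg fun e2 h2 => ?_
    obtain ⟨e3, k', i, hi1, hi2⟩ := hpair e1 l n x hnx e2 h2
    obtain ⟨e4, l', j, hj1, hj2⟩ := hpair e1 l m y hmy e3 (h2 ≫ k')
    refine ⟨e4, k' ≫ l', ?_⟩
    have h5 := LN.eqf_mono hi1 l'
    have h6 := LN.eqf_mono hi2 l'
    simp only [LN.r_r, Category.assoc] at h5 h6 hj1 hj2
    have h5' := LN.eqf_trans h5 (nat1 _ _ l' i)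
    have h7 := hsuc e4 (h2 ≫ k' ≫ l') i h5'
    have h8 : (natN e4 (i + 1)).eqf (natN e4 j) := LN.eqf_trans (LN.eqf_symm h7) hj1
    have h9 : i + 1 = j := ((nat3 e4 (i + 1) j).2).1 h8
    subst h9
    refine op_back hOPN _ ?_
    have h10 := op_move hOPN (l ≫ h2 ≫ k' ≫ l') (hXr i)
    simp only [LN.r_r, Category.assoc] at h10 ⊢
    exact op_congr hOPN (LN.eqf_symm h6) (LN.eqf_symm hj2) h10

open Fm in
theorem core (hFUL : Stmt_FUL) (hLOB : Stmt_LOB) (hNAT : Stmt_NAT) (hOMG : Stmt_OMG)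
    (hOPN : Stmt_OPN) (hFUN : Stmt_FUN) (d : Ob) (τ : ℕ → LN d) (hw : (τ 2).eqf (omN d))
    (H1 : Frc (ex (mem 0 2)) d τ)
    (H2 : Frc (all (imp (mem 0 2) (ex (and (mem 0 3) (appF 2 1 0))))) d τ) :
    ∃ (e : Ob) (k : d ⟶ e) (f : LN e), Frc (and (funF 0 3 2) (all (all (imp (mem 1 5)
      (imp (sucF 0 1) (all (all (imp (appF 4 3 1) (imp (appF 4 2 0) (appF 5 1 0)))))))))) e
      (cons f (rr τ k)) := by
  have app : ∀ (c : Ob) (ρ : ℕ → LN c) (i j k : ℕ),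
      Frc (appF i j k) c ρ ↔ (opN (ρ j) (ρ k)).memf (ρ i) := fun c ρ => ((hOPN Ob).2.2 c ρ).2.1
  have A : Dns (c := d) fun e h => ∃ y : LN e, y.memf ((τ 1).r h) := by
    intro e h
    obtain ⟨e', k, y, hy⟩ := (frc_ex _ _).1 H1 e h
    exact ⟨e', k, y, hy⟩
  have B : ∀ (e : Ob) (h : d ⟶ e) (x : LN e), x.memf ((τ 1).r h) → Dns (c := e) fun e' k =>
      ∃ y : LN e', y.memf ((τ 1).r (h ≫ k)) ∧ (opN (x.r k) y).memf ((τ 0).r (h ≫ k)) := by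
    intro e h x hx e1 h1
    have h2 := H2 e h x e (𝟙 e) (by
      change (x.r (𝟙 e)).memf (((τ 1).r h).r (𝟙 e))
      simpa using hx)
    obtain ⟨e2, k, y, hy⟩ := (frc_ex _ _).1 h2 e1 h1
    obtain ⟨hy1, hy2⟩ := (frc_and _ _ _).1 hy
    rw [app] at hy2
    refine ⟨e2, k, y, ?_, ?_⟩
    · have h3 : y.memf ((((τ 1).r h).r (𝟙 e)).r (h1 ≫ k)) := hy1
      simpa using h3
    · have h3 : (opN ((x.r (𝟙 e)).r (h1 ≫ k)) y).memf ((((τ 0).r h).r (𝟙 e)).r (h1 ≫ k)) := hy2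
      simpa using h3
  obtain ⟨e, g, f, hf, hlast⟩ := main hFUL hLOB hNAT hOPN (τ 1) (τ 0) A B
  refine ⟨e, g, f, (frc_and _ _ _).2 ⟨?_, ?_⟩⟩
  · have hw' : ((τ 2).r g).eqf (omN e) :=
      LN.eqf_trans (LN.eqf_mono hw g) ((hNAT Ob).2.1 _ _ g)
    rw [frc_congr (funF 0 3 2) (c := e) (cons f (rr τ g))
      (cons f (cons ((τ 0).r g) (cons ((τ 1).r g) (cons (omN e) (fun n => (τ (n + 3)).r g)))))
      ?_, hFUN Ob]
    · exact hf
    · intro n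
      match n with
      | 0 => exact LN.eqf_refl _
      | 1 => exact LN.eqf_refl _
      | 2 => exact LN.eqf_refl _
      | 3 => exact hw'
      | (n + 4) => exact LN.eqf_refl _
  · intro e1 l1 n e2 l2 m e3 l3 _ e4 l4 Hs e5 l5 x e6 l6 y e7 l7 Ha e8 l8 Hb
    rw [app] at Ha Hb ⊢
    have Ha' := op_move hOPN l8 Ha
    simp only [rr_cons, rr_rr, cons_zero, cons_succ, rr_apply, LN.r_r, Category.assoc] at Ha' Hb Hs ⊢
    refine hlast e8 (l1 ≫ l2 ≫ l3 ≫ l4 ≫ l5 ≫ l6 ≫ l7 ≫ l8)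
      (n.r (l2 ≫ l3 ≫ l4 ≫ l5 ≫ l6 ≫ l7 ≫ l8)) (m.r (l3 ≫ l4 ≫ l5 ≫ l6 ≫ l7 ≫ l8)) _ _
      Ha' Hb ?_
    intro e9 k i hi
    have H9 := frc_mono (sucF 0 1) _ (l5 ≫ l6 ≫ l7 ≫ l8 ≫ k) Hs
    have H10 := ((hOMG Ob e9 _).1 0 1 i (by
      simp only [rr_cons, rr_rr, cons_zero, cons_succ, rr_apply, LN.r_r, Category.assoc] at hi ⊢
      exact hi)).1 H9
    simp only [rr_cons, rr_rr, cons_zero, cons_succ, rr_apply, LN.r_r, Category.assoc] at H10 ⊢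
    exact H10

end DCT_

open Fm in
theorem dct_proof (hFUL : Stmt_FUL) (hLOB : Stmt_LOB) (hNAT : Stmt_NAT) (hOMG : Stmt_OMG)
    (hOPN : Stmt_OPN) (hFUN : Stmt_FUN) : Stmt_DCT := by
  intro c ρ
  rw [DCF]
  intro d1 h1 w d2 h2 hom d3 h3 a d4 h4 r d5 h5 H1 d6 h6 H2
  rw [frc_ex]
  intro d7 h7
  have hom' : (w.r h2).eqf (omN d2) := ((hOMG Ob d2 _).2 0).1 hom
  obtain ⟨e, k, f, hf⟩ := DCT_.core hFUL hLOB hNAT hOMG hOPN hFUN d7
    (rr (rr (rr (cons r (rr (cons a (rr (rr (cons w (rr ρ h1)) h2) h3)) h4)) h5) h6) h7)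
    (by
      have h8 := LN.eqf_mono hom' (h3 ≫ h4 ≫ h5 ≫ h6 ≫ h7)
      have h9 := LN.eqf_trans h8 ((hNAT Ob).2.1 _ _ _)
      simp only [rr_cons, rr_rr, cons_zero, cons_succ, rr_apply, LN.r_r, Category.assoc] at h9 ⊢
      exact h9)
    (by
      have h8 := frc_mono _ _ (h6 ≫ h7) H1
      simp only [rr_rr, Category.assoc] at h8 ⊢
      exact h8)
    (by
      have h8 := frc_mono _ _ h7 H2
      exact h8)
  refine ⟨e, k, f, ?_⟩
  rw [rr_rr] at hf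
  exact hf

end Pool.Agent.CFZ
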