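import Pool.Agent.CFZ.Stmts

/-!
Squad CFZ: diagonal intersection of block sequences.
-/

set_option autoImplicit false

namespace Pool.Agent.CFZ

open CategoryTheory Fm

namespace DGA_

theorem blk_iff (E : Finset ℕ → Prop) : BlkV E ↔ (¬ E ∅) ∧
    (∀ u v, ¬ (u = v ∨ Lt u v ∨ Lt v u) → ¬ (E u ∧ E v)) ∧
    ∀ n : ℕ, ∃ u : Finset ℕ, (∀ i ∈ u, n < i) ∧ E u := by
  simp only [BlkV, iInf_Prop_eq, iSup_Prop_eq, compl_iff_not, inf_Prop_eq, and_assoc, exists_prop]

theorem sp_iff (E : Finset ℕ → Prop) (u : Finset ℕ) : SpV E u ↔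
    ∃ W : Finset (Finset ℕ), (W.Nonempty ∧ W.sup id = u) ∧ ∀ w ∈ W, E w := by
  simp only [SpV, iInf_Prop_eq, iSup_Prop_eq, exists_prop]

theorem le_iff' (E' E : Finset ℕ → Prop) : LeV E' E ↔ ∀ u, E' u → SpV E u := by
  simp only [LeV, iInf_Prop_eq, himp_iff_imp]

theorem sp_self {E : Finset ℕ → Prop} {u : Finset ℕ} (h : E u) : SpV E u := le_SpV E u h

theorem sp_trans {E' E : Finset ℕ → Prop} (h0 : ¬ E' ∅) (h : ∀ w, E' w → SpV E w)
    {u : Finset ℕ} (hu : SpV E' u) : SpV E u := by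
  have h1 : E' ∅ = ⊥ := by simpa using h0
  have := SpV_trans (A := Prop) True E' E u h1 (fun w _ _ hw => h w hw.2)
  exact this ⟨trivial, hu⟩

theorem sup_mem_le {u : Finset ℕ} {i : ℕ} (h : i ∈ u) : i ≤ u.sup id :=
  Finset.le_sup (f := id) h

/-- the two-valued case -/
theorem two (D : ℕ → Finset ℕ → Prop) (N : ℕ → ℕ) (hB : ∀ n, BlkV (D n))
    (hL : ∀ n, LeV (D (n + 1)) (D n)) : ∃ Y : Finset ℕ → Prop, BlkV Y ∧ LeV Y (D 0) ∧
    ∀ (m : ℕ) (u v : Finset ℕ), m ∈ u → Lt u v → Y u → Y v → SpV (D (N m)) v := by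
  have hne : ∀ n, ¬ D n ∅ := fun n => ((blk_iff (D n)).1 (hB n)).1
  have hg : ∀ n k : ℕ, ∃ u : Finset ℕ, (∀ i ∈ u, k < i) ∧ D n u :=
    fun n => ((blk_iff (D n)).1 (hB n)).2.2
  choose g hg1 hg2 using hg
  have hgne : ∀ n k, (g n k).Nonempty := by
    intro n k
    rcases Finset.eq_empty_or_nonempty (g n k) with h | h
    · have := hg2 n k
      rw [h] at this
      exact absurd this (hne n)
    · exact h
  have hdown : ∀ n k : ℕ, n ≤ k → ∀ u, SpV (D k) u → SpV (D n) u := by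
    intro n k hnk
    induction hnk with
    | refl => exact fun u hu => hu
    | step _ ih =>
      intro u hu
      exact ih u (sp_trans (hne _) (fun w hw => (le_iff' _ _).1 (hL _) w hw) hu)
  let N' : ℕ → ℕ := fun m => (Finset.range (m + 1)).sup N
  have hN' : ∀ m M, m ≤ M → N m ≤ N' M := fun m M h =>
    Finset.le_sup (f := N) (Finset.mem_range.2 (by omega))
  let u : ℕ → Finset ℕ := fun k => Nat.rec (g 0 0) (fun _ w => g (N' (w.sup id)) (w.sup id)) k
  have hu0 : u 0 = g 0 0 := rfl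
  have hus : ∀ k, u (k + 1) = g (N' ((u k).sup id)) ((u k).sup id) := fun _ => rfl
  have hune : ∀ k, (u k).Nonempty := by
    intro k
    cases k with
    | zero => exact hgne 0 0
    | succ k => rw [hus]; exact hgne _ _
  have hstep : ∀ k, ∀ i ∈ u (k + 1), (u k).sup id < i := by
    intro k i hi
    rw [hus] at hi
    exact hg1 _ _ i hi
  have hlt : ∀ j k, j < k → ∀ i ∈ u k, (u j).sup id < i := by
    intro j k hjk
    induction hjk with
    | refl => exact hstep j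
    | step hjk ih =>
      intro i hi
      obtain ⟨x, hx⟩ := hune _
      exact (ih x hx).trans_le ((sup_mem_le hx).trans (hstep _ i hi).le)
  have hLt : ∀ j k, j < k → Lt (u j) (u k) := fun j k hjk i hi i' hi' =>
    (sup_mem_le hi).trans_lt (hlt j k hjk i' hi')
  have hbig : ∀ k, ∀ i ∈ u k, k < i := by
    intro k
    induction k with
    | zero => intro i hi; exact hg1 0 0 i hi
    | succ k ih =>
      intro i hi
      obtain ⟨x, hx⟩ := hune k
      have h1 := ih x hx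
      have h2 := sup_mem_le hx
      have h3 := hstep k i hi
      omega
  have hD : ∀ k, ∃ n, D n (u k) := by
    intro k
    cases k with
    | zero => exact ⟨0, hg2 0 0⟩
    | succ k => exact ⟨_, by rw [hus]; exact hg2 _ _⟩
  refine ⟨fun w => ∃ k, w = u k, ?_, ?_, ?_⟩
  · rw [blk_iff]
    refine ⟨?_, ?_, ?_⟩
    · rintro ⟨k, hk⟩
      have := hune k
      rw [← hk] at this
      simp at this
    · rintro _ _ hn ⟨⟨j, rfl⟩, ⟨k, rfl⟩⟩
      rcases lt_trichotomy j k with h | h | h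
      · exact hn (Or.inr (Or.inl (hLt j k h)))
      · exact hn (Or.inl (by rw [h]))
      · exact hn (Or.inr (Or.inr (hLt k j h)))
    · intro n
      exact ⟨u n, hbig n, n, rfl⟩
  · rw [le_iff']
    rintro _ ⟨k, rfl⟩
    obtain ⟨n, hn⟩ := hD k
    exact hdown 0 n (Nat.zero_le _) _ (sp_self hn)
  · rintro m _ _ hm hl ⟨j, rfl⟩ ⟨k, rfl⟩
    have hjk : j < k := by
      by_contra hc
      push Not at hc
      obtain ⟨x, hx⟩ := hune j
      obtain ⟨y, hy⟩ := hune k
      have h1 := hl x hx y hy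
      rcases eq_or_lt_of_le hc with h | h
      · subst h
        exact lt_irrefl _ (hl x hx x hx)
      · have h2 := hLt k j h y hy x hx
        omega
    obtain ⟨k', rfl⟩ : ∃ k', k = k' + 1 := ⟨k - 1, by omega⟩
    have h1 : D (N' ((u k').sup id)) (u (k' + 1)) := by rw [hus]; exact hg2 _ _
    have h2 : m ≤ (u k').sup id := by
      rcases eq_or_lt_of_le (Nat.lt_succ_iff.1 hjk) with h | h
      · rw [← h]; exact sup_mem_le hm
      · obtain ⟨x, hx⟩ := hune k'
        exact (sup_mem_le hm).trans ((hlt j k' h x hx).le.trans (sup_mem_le hx))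
    exact hdown _ _ (hN' m _ h2) _ (sp_self h1)

/-- the statement as a polymorphic value -/
def F (N : ℕ → ℕ) (A : Type) [CompleteBooleanAlgebra A]
    (v : (ℕ × Finset ℕ) ⊕ Finset ℕ → A) : A :=
  ((⨅ n, BlkV (fun u => v (Sum.inl (n, u)))) ⊓
    (⨅ n : ℕ, LeV (fun u => v (Sum.inl (n + 1, u))) (fun u => v (Sum.inl (n, u))))) ⇨
  (BlkV (fun u => v (Sum.inr u)) ⊓
    (LeV (fun u => v (Sum.inr u)) (fun u => v (Sum.inl (0, u))) ⊓
    ⨅ (m : ℕ) (u : Finset ℕ) (w : Finset ℕ) (_ : m ∈ u ∧ Lt u w),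
      ((v (Sum.inr u) ⊓ v (Sum.inr w)) ⇨ SpV (fun z => v (Sum.inl (N m, z))) w)))

theorem isB_F (N : ℕ → ℕ) : IsB (F N) := by
  refine IsB.himp (IsB.inf (IsB.iInf fun n => isB_BlkV fun u => IsB.atom _)
    (IsB.iInf fun n => isB_LeV (fun u => IsB.atom _) (fun u => IsB.atom _))) ?_
  refine IsB.inf (isB_BlkV fun u => IsB.atom _) (IsB.inf
    (isB_LeV (fun u => IsB.atom _) (fun u => IsB.atom _)) ?_)
  exact IsB.iInf fun m => IsB.iInf fun u => IsB.iInf fun w => IsB.iInf fun _ =>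
    IsB.himp (IsB.inf (IsB.atom _) (IsB.atom _)) (isB_SpV (fun z => IsB.atom _) w)

end DGA_

open DGA_ in
theorem dga_proof (hBTP : Stmt_BTP) : Stmt_DGA := by
  intro A _ D N hB hL
  obtain ⟨y, hy⟩ := hBTP (ℕ × Finset ℕ) (Finset ℕ) (F N) (isB_F N) (by
    intro X
    by_cases hX : (∀ n, BlkV (fun u => X (n, u))) ∧
        ∀ n : ℕ, LeV (fun u => X (n + 1, u)) (fun u => X (n, u))
    · obtain ⟨Y, h1, h2, h3⟩ := two (fun n u => X (n, u)) N hX.1 hX.2
      refine ⟨Y, ?_⟩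
      simp only [F, himp_iff_imp, inf_Prop_eq, iInf_Prop_eq, Sum.elim_inl, Sum.elim_inr]
      intro _
      exact ⟨h1, h2, fun m u w hh hh' => h3 m u w hh.1 hh.2 hh'.1 hh'.2⟩
    · refine ⟨fun _ => True, ?_⟩
      simp only [F, himp_iff_imp, inf_Prop_eq, iInf_Prop_eq, Sum.elim_inl, Sum.elim_inr]
      intro h
      exact absurd h hX) A (fun p => D p.1 p.2)
  have h1 := himp_eq_top_iff.1 hy
  simp only [Sum.elim_inl, Sum.elim_inr] at h1
  have h2 : (⊤ : A) ≤ (⨅ n, BlkV (fun u => D n u)) ⊓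
      (⨅ n : ℕ, LeV (fun u => D (n + 1) u) (fun u => D n u)) :=
    le_inf (le_iInf fun n => (hB n).ge) (le_iInf fun n => (hL n).ge)
  have h3 := h2.trans h1
  refine ⟨y, top_le_iff.1 (h3.trans inf_le_left),
    top_le_iff.1 (h3.trans (inf_le_right.trans inf_le_left)), ?_⟩
  intro m u v hm hl
  have h4 := h3.trans (inf_le_right.trans (inf_le_right.trans
    ((iInf_le _ m).trans ((iInf_le _ u).trans ((iInf_le _ v).trans (iInf_le _ ⟨hm, hl⟩))))))
  exact himp_eq_top_iff.1 (top_le_iff.1 h4)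

end Pool.Agent.CFZ
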