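import Pool.Agent.CFZ.Stmts

/-!
Squad CFZ, module DIA: diagonalisation of countably many tasks.
-/

set_option autoImplicit false

namespace Pool.Agent.CFZ

namespace DIA_

variable {A : Type} [CompleteBooleanAlgebra A]

theorem LeV_iff (E' E : Finset ℕ → A) : LeV E' E = ⊤ ↔ ∀ u, E' u ≤ SpV E u := by
  unfold LeV
  rw [iInf_eq_top]
  exact forall_congr' fun u => himp_eq_top_iff

theorem SpV_le {E' E : Finset ℕ → A} (h : BlkV E' = ⊤) (h' : LeV E' E = ⊤) (u : Finset ℕ) :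
    SpV E' u ≤ SpV E u := by
  have := SpV_trans ⊤ E' E u (BlkV_empty h)
    (fun w _ _ => by rw [top_inf_eq]; exact (LeV_iff _ _).1 h' w)
  rwa [top_inf_eq] at this

theorem LeV_refl (E : Finset ℕ → A) : LeV E E = ⊤ := (LeV_iff _ _).2 fun u => le_SpV E u

theorem LeV_trans {E1 E2 E3 : Finset ℕ → A} (h2 : BlkV E2 = ⊤) (h12 : LeV E1 E2 = ⊤)
    (h23 : LeV E2 E3 = ⊤) : LeV E1 E3 = ⊤ :=
  (LeV_iff _ _).2 fun u => ((LeV_iff _ _).1 h12 u).trans (SpV_le h2 h23 u)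

theorem BlkV_bot {E : Finset ℕ → A} (h : BlkV E = ⊤) {u v : Finset ℕ}
    (huv : ¬ (u = v ∨ Lt u v ∨ Lt v u)) : E u ⊓ E v = ⊥ := by
  have h1 : (⨅ (u) (v) (_ : ¬ (u = v ∨ Lt u v ∨ Lt v u)), (E u ⊓ E v)ᶜ) = ⊤ :=
    top_le_iff.1 (h ▸ inf_le_left.trans inf_le_right)
  have h2 : (E u ⊓ E v)ᶜ = ⊤ := by
    rw [← top_le_iff, ← h1]
    exact iInf_le_of_le u (iInf_le_of_le v (iInf_le_of_le huv le_rfl))
  rwa [compl_eq_top] at h2

theorem fin_lists {α : Type} (s : Finset α) (n : ℕ) :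
    {l : List α | l.length ≤ n ∧ ∀ x ∈ l, x ∈ s}.Finite := by
  have := (List.finite_length_le s n).image (List.map Subtype.val)
  refine this.subset ?_
  rintro l ⟨h1, h2⟩
  exact ⟨l.attachWith _ h2, by simpa using h1, by simp⟩

theorem fin_blist (m : ℕ) : {t : L | Blist t ∧ ∀ u ∈ t, ∀ i ∈ u, i ≤ m}.Finite := by
  classical
  refine (fin_lists (Finset.powerset (Finset.range (m + 1)))
    (Finset.powerset (Finset.range (m + 1))).card).subset ?_
  rintro t ⟨ht, hm⟩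
  have hsub : ∀ x ∈ t, x ∈ Finset.powerset (Finset.range (m + 1)) := by
    intro x hx
    rw [Finset.mem_powerset]
    intro i hi
    have := hm x hx i hi
    rw [Finset.mem_range]
    omega
  refine ⟨?_, hsub⟩
  have hnd : t.Nodup := by
    have h2 := ht.2
    have h1 := ht.1
    clear ht hm hsub
    induction t with
    | nil => simp
    | cons u t ih =>
      rw [List.nodup_cons]
      rw [List.pairwise_cons] at h2
      refine ⟨fun hu => ?_, ih h2.2 (fun v hv => h1 v (List.mem_cons_of_mem _ hv))⟩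
      obtain ⟨i, hi⟩ := h1 u List.mem_cons_self
      exact lt_irrefl _ (h2.1 u hu i hi i hi)
  rw [← List.toFinset_card_of_nodup hnd]
  refine Finset.card_le_card fun x hx => hsub x (List.mem_toFinset.1 hx)

theorem bound (e : ℕ → {t : L // Blist t}) (he : Function.Surjective e) (m : ℕ) :
    ∃ n : ℕ, ∀ t : L, Blist t → (∀ u ∈ t, ∀ i ∈ u, i ≤ m) → ∃ i < n, (e i).1 = t := by
  classical
  choose g hg using he
  have hfin : ((fun t : L => if h : Blist t then g ⟨t, h⟩ else 0) ''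
      {t : L | Blist t ∧ ∀ u ∈ t, ∀ i ∈ u, i ≤ m}).Finite := (fin_blist m).image _
  obtain ⟨n, hn⟩ := hfin.bddAbove
  refine ⟨n + 1, fun t ht hm => ⟨g ⟨t, ht⟩, ?_, by rw [hg]⟩⟩
  have := hn ⟨t, ⟨ht, hm⟩, rfl⟩
  simp only [dif_pos ht] at this
  omega

end DIA_

open DIA_ in
theorem dia_proof (hDGA : Stmt_DGA) : Stmt_DIA := by
  classical
  intro A _ Q m0 E hE her ext
  have hne : Nonempty {t : L // Blist t} := ⟨⟨[], by simp [Blist]⟩⟩
  obtain ⟨e, he⟩ := exists_surjective_nat {t : L // Blist t}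
  choose M hM using bound e he
  have step : ∀ (n : ℕ) (X : {E1 : Finset ℕ → A // BlkV E1 = ⊤ ∧ LeV E1 E = ⊤}),
      ∃ Y : {E1 : Finset ℕ → A // BlkV E1 = ⊤ ∧ LeV E1 E = ⊤},
        LeV Y.1 X.1 = ⊤ ∧ Q (e n).1 Y.1 ⊤ := by
    intro n X
    obtain ⟨E2, h1, h2, h3⟩ := ext (e n).1 X.1 (e n).2 X.2.1 X.2.2
    exact ⟨⟨E2, h1, LeV_trans X.2.1 h2 X.2.2⟩, h2, h3⟩
  choose f hf using step
  let D' : ℕ → {E1 : Finset ℕ → A // BlkV E1 = ⊤ ∧ LeV E1 E = ⊤} :=
    fun n => Nat.rec ⟨E, hE, LeV_refl E⟩ (fun n X => f n X) n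
  have hD1 : ∀ n, LeV (D' (n + 1)).1 (D' n).1 = ⊤ := fun n => (hf n (D' n)).1
  have hD2 : ∀ n, Q (e n).1 (D' (n + 1)).1 ⊤ := fun n => (hf n (D' n)).2
  have hmono : ∀ i j, i ≤ j → LeV (D' j).1 (D' i).1 = ⊤ := by
    intro i j hij
    induction j, hij using Nat.le_induction with
    | base => exact LeV_refl _
    | succ j _ ih => exact LeV_trans (D' j).2.1 (hD1 j) ih
  obtain ⟨E', hE', hE'0, hdg⟩ := hDGA A (fun n => (D' (n + M m0)).1) M
    (fun n => (D' (n + M m0)).2.1) (fun n => hmono _ _ (by omega))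
  have hE'0 : LeV E' (D' (M m0)).1 = ⊤ := by simpa using hE'0
  have hE'E : LeV E' E = ⊤ := LeV_trans (D' (M m0)).2.1 hE'0 (D' (M m0)).2.2
  refine ⟨E', hE', hE'E, fun t ht => ?_⟩
  by_cases hall : ∀ u ∈ t, ∀ i ∈ u, i ≤ m0
  · obtain ⟨i, hi, rfl⟩ := hM m0 t ht hall
    refine her _ (D' (i + 1)).1 E' ⊤ _ (D' (i + 1)).2.1 hE' (D' (i + 1)).2.2 hE'E (hD2 i) le_top ?_
    intro u _
    refine inf_le_right.trans (((LeV_iff _ _).1 hE'0 u).trans ?_)
    exact SpV_le (D' (M m0)).2.1 (hmono (i + 1) (M m0) (by omega)) u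
  · push Not at hall
    obtain ⟨u0, hu0, i0, hi0, hlt0⟩ := hall
    -- the largest element
    obtain ⟨m, hm1, hm2⟩ : ∃ m, (∃ u ∈ t, m ∈ u) ∧ ∀ u ∈ t, ∀ i ∈ u, i ≤ m := by
      have hS : (t.toFinset.sup id).Nonempty :=
        ⟨i0, Finset.mem_sup.2 ⟨u0, List.mem_toFinset.2 hu0, hi0⟩⟩
      refine ⟨(t.toFinset.sup id).max' hS, ?_, ?_⟩
      · have := Finset.max'_mem _ hS
        rw [Finset.mem_sup] at this
        obtain ⟨u, hu, hmu⟩ := this
        exact ⟨u, List.mem_toFinset.1 hu, hmu⟩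
      · intro u hu i hi
        exact Finset.le_max' _ _ (Finset.mem_sup.2 ⟨u, List.mem_toFinset.2 hu, hi⟩)
    have hm0 : m0 ≤ m := (hm2 u0 hu0 i0 hi0).trans' hlt0.le
    obtain ⟨w0, hw0, hmw⟩ := hm1
    obtain ⟨i, hi, rfl⟩ := hM m t ht hm2
    have hkap : kapV m0 (e i).1 E' ≤ hitV E' m := by
      unfold kapV
      exact iInf₂_le_of_le w0 hw0 (iInf₂_le_of_le m ⟨hmw, hm0⟩ le_rfl)
    refine her _ (D' (i + 1)).1 E' ⊤ _ (D' (i + 1)).2.1 hE' (D' (i + 1)).2.2 hE'E (hD2 i) le_top ?_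
    intro v hv
    refine (inf_le_inf_right _ hkap).trans ?_
    unfold hitV
    rw [iSup₂_inf_eq]
    refine iSup₂_le fun u hu => ?_
    have hgt : ∀ j ∈ v, m < j := fun j hj => hv.2 w0 hw0 m hmw j hj
    by_cases huv : Lt u v
    · refine (hdg m u v hu huv).trans ?_
      exact SpV_le (D' (M m + M m0)).2.1 (hmono (i + 1) (M m + M m0) (by omega)) v
    · rw [BlkV_bot hE']
      · exact bot_le
      · rintro (h | h | h)
        · rw [h] at hu
          exact lt_irrefl _ (hgt m hu)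
        · exact huv h
        · obtain ⟨j, hj⟩ := hv.1
          have h1 := h j hj m hu
          have h2 := hgt j hj
          omega

end Pool.Agent.CFZ
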