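import Pool.Agent.CFZ.Stmts

set_option autoImplicit false

namespace Pool.Agent.CFZ

open CategoryTheory Fm

theorem fin_proof (hEXF : Stmt_EXF) (hPUI : Stmt_PUI) (hSEP : Stmt_SEP) (hPOW : Stmt_POW)
    (hREP : Stmt_REP) (hGMD : Stmt_GMD) (hMMT : Stmt_MMT) (hBPT : Stmt_BPT) (hDCT : Stmt_DCT) :
    Stmt_FIN := by
  have hinf : InfV (fun _ : ℕ => (⊤ : Prop)) = ⊤ := by
    unfold InfV
    refine iInf_eq_top.2 fun n => top_le_iff.1 ?_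
    exact le_iSup₂_of_le n le_rfl le_rfl
  let c : Ob := ⟨Prop, fun _ => ⊤, hinf⟩
  obtain ⟨M, E, ρ', -, h2⟩ := hGMD Ob c (fun _ => omN c)
  refine ⟨M, E, ?_, ?_, ?_, ?_⟩
  · refine zf_of_sat E ⟨ρ' 0⟩ fun φ hφ => h2 φ fun d ρ1 => ?_
    rcases hφ with rfl | rfl | rfl | rfl | rfl | rfl | ⟨ψ, rfl⟩ | ⟨ψ, rfl⟩
    · exact (hEXF Ob d ρ1).1
    · exact (hEXF Ob d ρ1).2
    · exact (hPUI Ob d ρ1).1
    · exact (hPUI Ob d ρ1).2.1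
    · exact hPOW Ob d ρ1
    · exact (hPUI Ob d ρ1).2.2
    · exact hSEP Ob ψ d ρ1
    · exact hREP Ob ψ d ρ1
  · exact (sat_DCF E ρ').1 (h2 DCF (fun d ρ1 => hDCT d ρ1) ρ')
  · exact (sat_MMF E ρ').1 (h2 MMF (fun d ρ1 => hMMT d ρ1) ρ')
  · exact (sat_NBPF E ρ').1 (h2 NBPF (fun d ρ1 => hBPT d ρ1) ρ')

end Pool.Agent.CFZ
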