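import Pool.Agent.CFZ.Stmts

set_option autoImplicit false

namespace Pool.Agent.CFZ

namespace FNP_

theorem mem_iInf {P : Type} [Preorder P] {ι : Sort*} (U : ι → RO P) (p : P) :
    p ∈ (⨅ i, U i).s ↔ ∀ i, p ∈ (U i).s := by
  rw [iInf, RO.mem_sInf]
  exact Set.forall_mem_range

theorem mem_iSup {P : Type} [Preorder P] {ι : Sort*} (U : ι → RO P) (p : P) :
    p ∈ (⨆ i, U i).s ↔ ∀ q ≤ p, ∃ r ≤ q, ∃ i, r ∈ (U i).s := by
  rw [iSup, RO.mem_sSup]
  simp only [Set.exists_range_iff]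

theorem eq_top {P : Type} [Preorder P] {U : RO P} (h : ∀ p, p ∈ U.s) : U = ⊤ :=
  top_le_iff.1 fun p _ => h p

theorem eq_bot {P : Type} [Preorder P] {U : RO P} (h : ∀ p, p ∉ U.s) : U = ⊥ :=
  le_bot_iff.1 fun p hp => (h p hp).elim

variable {A : Type} [CompleteBooleanAlgebra A] {E0 : Finset ℕ → A}

theorem get_of_le {r q : Cd A E0} (h : r ≤ q) {n : ℕ} {u : Finset ℕ} (hn : q.s[n]? = some u) :
    r.s[n]? = some u := by
  obtain ⟨t, ht⟩ := (Cd.le_def.1 h).2.1
  rw [← ht]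
  obtain ⟨hlt, he⟩ := List.getElem?_eq_some_iff.1 hn
  rw [List.getElem?_append_left hlt]
  exact hn

theorem mem_FN {n : ℕ} {u : Finset ℕ} {q : Cd A E0} :
    q ∈ (FN E0 n u).s ↔ ∀ q' ≤ q, ∃ r ≤ q', r.s[n]? = some u := by
  constructor
  · intro h q' hq'
    obtain ⟨r, hr, s, hs, hrs⟩ := h q' hq'
    exact ⟨r, hr, get_of_le hrs hs⟩
  · intro h q' hq'
    obtain ⟨r, hr, hs⟩ := h q' hq'
    exact ⟨r, hr, r, hs, le_rfl⟩

theorem mem_FN_of {n : ℕ} {u : Finset ℕ} {q : Cd A E0} (h : q.s[n]? = some u) :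
    q ∈ (FN E0 n u).s := mem_FN.2 fun q' hq' => ⟨q', le_rfl, get_of_le hq' h⟩

/-- extension by one block -/
theorem ext_one (q : Cd A E0) : ∃ q' ≤ q, q'.s.length = q.s.length + 1 := by
  classical
  obtain ⟨N, hN⟩ : ∃ N : ℕ, ∀ w ∈ q.s, ∀ i ∈ w, i ≤ N := by
    refine ⟨(q.s.foldr (fun w b => w ∪ b) ∅).sup id, fun w hw i hi => ?_⟩
    have h1 : ∀ l : L, ∀ w ∈ l, ∀ i ∈ w, i ∈ l.foldr (fun w b => w ∪ b) ∅ := by
      intro l
      induction l with
      | nil => intro w hw; exact absurd hw List.not_mem_nil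
      | cons a l ih =>
        intro w hw i hi
        rw [List.foldr_cons, Finset.mem_union]
        rcases List.mem_cons.1 hw with rfl | hw
        · exact Or.inl hi
        · exact Or.inr (ih w hw i hi)
    exact Finset.le_sup (f := id) (h1 q.s w hw i hi)
  have h1 : (⨆ (u : Finset ℕ) (_ : ∀ i ∈ u, N < i), q.E u) = ⊤ := by
    have h2 : (⨅ n : ℕ, ⨆ (u : Finset ℕ) (_ : ∀ i ∈ u, n < i), q.E u) = ⊤ :=
      top_le_iff.1 (q.hE ▸ inf_le_right)
    exact iInf_eq_top.1 h2 N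
  obtain ⟨u, hu, hne⟩ : ∃ u : Finset ℕ, (∀ i ∈ u, N < i) ∧ q.p ⊓ q.E u ≠ ⊥ := by
    by_contra hc
    push Not at hc
    apply q.hp
    have h3 : q.p ⊓ (⨆ (u : Finset ℕ) (_ : ∀ i ∈ u, N < i), q.E u) = ⊥ := by
      rw [inf_iSup₂_eq]
      exact le_bot_iff.1 (iSup₂_le fun u hu => (hc u hu).le)
    rwa [h1, inf_top_eq] at h3
  have hun : u.Nonempty := by
    rw [Finset.nonempty_iff_ne_empty]
    rintro rfl
    rw [BlkV_empty q.hE, inf_bot_eq] at hne
    exact hne rfl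
  have hgt : ∀ w ∈ q.s, Lt w u := fun w hw i hi j hj => lt_of_le_of_lt (hN w hw i hi) (hu j hj)
  have hsp : q.E u ≤ SpV E0 u := by
    have h4 : (q.E u ⇨ SpV E0 u) = ⊤ := iInf_eq_top.1 q.hE0 u
    exact himp_eq_top_iff.1 h4
  refine ⟨⟨q.p ⊓ q.E u, q.s ++ [u], q.E, hne, ?_, q.hE, q.hE0, ?_⟩, ?_, ?_⟩
  · refine ⟨fun w hw => ?_, ?_⟩
    · rcases List.mem_append.1 hw with h | h
      · exact q.hs.1 w h
      · rw [List.mem_singleton.1 h]; exact hun
    · refine List.pairwise_append.2 ⟨q.hs.2, List.pairwise_singleton _ _, fun w hw v hv => ?_⟩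
      rw [List.mem_singleton.1 hv]
      exact hgt w hw
  · intro w hw
    rcases List.mem_append.1 hw with h | h
    · exact inf_le_left.trans (q.hs0 w h)
    · rw [List.mem_singleton.1 h]
      exact inf_le_right.trans hsp
  · refine Cd.le_def.2 ⟨inf_le_left, List.prefix_append _ _, fun w hw hws => ?_, fun w _ => ?_⟩
    · rcases List.mem_append.1 hw with h | h
      · exact absurd h hws
      · rw [List.mem_singleton.1 h]
        exact inf_le_right.trans (le_SpV _ _)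
    · exact inf_le_right.trans (le_SpV _ _)
  · simp

theorem ext_long (q : Cd A E0) (n : ℕ) : ∃ q' ≤ q, n < q'.s.length := by
  induction n with
  | zero =>
    obtain ⟨q', h, hl⟩ := ext_one q
    exact ⟨q', h, by omega⟩
  | succ n ih =>
    obtain ⟨q1, h1, hl1⟩ := ih
    obtain ⟨q', h, hl⟩ := ext_one q1
    exact ⟨q', h.trans h1, by omega⟩

theorem lt_of_get {s : L} (hs : Blist s) {i j : ℕ} {u v : Finset ℕ} (hij : i < j)
    (hi : s[i]? = some u) (hj : s[j]? = some v) : Lt u v := by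
  obtain ⟨hi1, rfl⟩ := List.getElem?_eq_some_iff.1 hi
  obtain ⟨hj1, rfl⟩ := List.getElem?_eq_some_iff.1 hj
  exact List.pairwise_iff_getElem.1 hs.2 i j hi1 hj1 hij

theorem mem_of_get {s : L} {i : ℕ} {u : Finset ℕ} (hi : s[i]? = some u) : u ∈ s :=
  List.mem_of_getElem? hi

theorem map_SpV' (E : Finset ℕ → A) (u : Finset ℕ) :
    SpV (fun w => iota E0 (E w)) u = iota E0 (SpV E u) := by
  unfold SpV
  simp only [CHom.map_iSup, CHom.map_iInf]

end FNP_

open FNP_ in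
theorem fnp_proof : Stmt_FNP := by
  intro A _ E0 _hE
  refine ⟨?_, ?_, ?_⟩
  · unfold SeqV
    refine top_le_iff.1 (le_inf (le_inf (le_inf ?_ ?_) ?_) ?_)
    · refine le_iInf fun n => top_le_iff.2 (eq_top fun q => ?_)
      rw [mem_iSup]
      intro q' _
      obtain ⟨r, hr, hl⟩ := ext_long q' n
      exact ⟨r, hr, r.s[n], mem_FN_of (List.getElem?_eq_getElem hl)⟩
    · refine le_iInf fun n => le_iInf fun u => le_iInf fun v => le_iInf fun huv => ?_
      rw [top_le_iff, compl_eq_top]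
      refine eq_bot fun q hq => ?_
      rw [RO.mem_inf] at hq
      obtain ⟨r, hr, h1⟩ := mem_FN.1 hq.1 q le_rfl
      obtain ⟨r', hr', h2⟩ := mem_FN.1 hq.2 r hr
      have h3 := get_of_le hr' h1
      rw [h2] at h3
      exact huv (Option.some.inj h3).symm
    · refine le_iInf fun n => ?_
      rw [top_le_iff, compl_eq_top]
      refine eq_bot fun q hq => ?_
      obtain ⟨r, hr, h1⟩ := mem_FN.1 hq q le_rfl
      have := r.hs.1 ∅ (mem_of_get h1)
      exact Finset.not_nonempty_empty this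
    · refine le_iInf fun n => le_iInf fun u => le_iInf fun v => le_iInf fun huv => ?_
      rw [top_le_iff, compl_eq_top]
      refine eq_bot fun q hq => ?_
      rw [RO.mem_inf] at hq
      obtain ⟨r, hr, h1⟩ := mem_FN.1 hq.1 q le_rfl
      obtain ⟨r', hr', h2⟩ := mem_FN.1 hq.2 r hr
      exact huv (lt_of_get r'.hs (Nat.lt_succ_self n) (get_of_le hr' h1) h2)
  · intro q
    refine ⟨RO.pt_le.2 ((mem_iota _ _).2 le_rfl), RO.pt_le.2 ?_, ?_⟩
    · unfold iniV
      rw [mem_iInf]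
      intro i
      refine mem_FN_of ?_
      rw [List.getElem?_eq_getElem i.2]
      rfl
    · unfold tailV
      refine le_iInf fun i => le_iInf fun hi => le_iInf fun u => ?_
      rw [le_himp_iff, map_SpV']
      intro r hr
      rw [RO.mem_inf] at hr
      refine RO.of_dense _ fun r' hr' => ?_
      obtain ⟨t, ht, htq⟩ := RO.mem_pt.1 hr.1 r' hr'
      obtain ⟨t', ht', h1⟩ := mem_FN.1 hr.2 t (ht.trans hr')
      refine ⟨t', ht'.trans ht, (mem_iota _ _).2 ?_⟩
      have h2 := Cd.le_def.1 (ht'.trans htq)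
      refine h2.2.2.1 u (mem_of_get h1) fun hu => ?_
      obtain ⟨j, hj, hju⟩ := List.getElem_of_mem hu
      have h3 : q.s[j]? = some u := List.getElem?_eq_some_iff.2 ⟨hj, hju⟩
      have h4 := get_of_le (ht'.trans htq) h3
      have h5 := lt_of_get t'.hs (lt_of_lt_of_le hj hi) h4 h1
      obtain ⟨x, hx⟩ := t'.hs.1 u (mem_of_get h1)
      exact lt_irrefl _ (h5 x hx x hx)
  · intro n u q hq
    refine RO.of_dense _ fun q' hq' => ?_
    obtain ⟨r, hr, h1⟩ := mem_FN.1 hq q' hq'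
    exact ⟨r, hr, (mem_iota _ _).2 (r.hs0 u (mem_of_get h1))⟩

end Pool.Agent.CFZ
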