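import Pool.Agent.CFZ.Stmts

/-!
Squad CFZ, module FRL: every name of a function is nice at an extension.
-/

set_option autoImplicit false

namespace Pool.Agent.CFZ

open CategoryTheory

theorem frl_proof (hNIC : Stmt_NIC) (hRST : Stmt_RST) (hNAT : Stmt_NAT) (hOPN : Stmt_OPN) :
    Stmt_FRL := by
  intro c X hX
  obtain ⟨hN1, hN2, hN3, -, hN5⟩ := hNAT Ob
  obtain ⟨hO1, hO2, -⟩ := hOPN Ob
  obtain ⟨hX1, hX2, hX3⟩ := hX
  have hmv : ∀ (e e' : Ob) (k : e ⟶ e') (n m : ℕ),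
      ((opN (natN e n) (natN e m)).r k).eqf (opN (natN e' n) (natN e' m)) := fun e e' k n m =>
    LN.eqf_trans (hO1 e e' k _ _) ((hO2 e' _ _ _ _).2 ⟨hN1 e e' k n, hN1 e e' k m⟩)
  have hom : ∀ (e : Ob) (g : c ⟶ e) (z : LN e), z.memf ((omN c).r g) ↔
      Dns (c := e) fun e' h' => ∃ m : ℕ, (z.r h').eqf (natN e' m) := by
    intro e g z
    rw [← hN5 e z]
    exact ⟨fun H => LN.memf_congr (LN.eqf_refl z) (hN2 c e g) H,
      fun H => LN.memf_congr (LN.eqf_refl z) (LN.eqf_symm (hN2 c e g)) H⟩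
  obtain ⟨d, h, v, hinj, hv⟩ := hNIC c (fun i =>
    { p := fun d h => (opN (natN d i.unpair.1) (natN d i.unpair.2)).memf (X.r h)
      mono := by
        intro d e h k H
        have h1 := LN.memf_mono H k
        rw [LN.r_r] at h1
        exact LN.memf_congr (hmv d e k _ _) (LN.eqf_refl _) h1
      reg := by
        intro d h H
        refine LN.memf_reg fun e k => ?_
        obtain ⟨e', l, h1⟩ := H e k
        refine ⟨e', l, ?_⟩
        rw [LN.r_r]
        exact LN.memf_congr (LN.eqf_symm (hmv d e' (k ≫ l) _ _)) (LN.eqf_refl _) h1 })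
  have hx : ∀ (n m : ℕ) (e : Ob) (k : d ⟶ e),
      (opN (natN e n) (natN e m)).memf (X.r (h ≫ k)) ↔ k.h (v (Nat.pair n m)) = ⊤ := by
    intro n m e k
    have h1 := hv (Nat.pair n m) e k
    simp only [Nat.unpair_pair] at h1
    exact h1
  refine ⟨d, h, fun n m => v (Nat.pair n m), hinj, ?_, ?_⟩
  · unfold RealV
    rw [inf_eq_top_iff]
    constructor
    · rw [iInf_eq_top]
      intro n
      by_contra hcon
      have hu : (⨆ m, v (Nat.pair n m))ᶜ ≠ ⊥ := by
        intro h0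
        exact hcon (compl_eq_bot.1 h0)
      obtain ⟨e, k, hk, -⟩ := hRST d _ hu
      have hk' : k.h (⨆ m, v (Nat.pair n m)) = ⊥ := by
        rw [CHom.map_compl] at hk
        exact compl_eq_top.1 hk
      have hmem : (natN e n).memf ((omN c).r (h ≫ k)) := by
        rw [hom]
        intro e' h'
        exact ⟨e', 𝟙 e', n, hN1 e e' _ n⟩
      obtain ⟨e1, k1, b, hb, hab⟩ := hX2 e (h ≫ k) (natN e n) hmem e (𝟙 e)
      rw [hom] at hb
      obtain ⟨e2, k2, m, hm⟩ := hb e1 (𝟙 e1)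
      rw [Category.id_comp] at hm hab
      have h1 := LN.memf_mono hab k2
      rw [LN.r_r] at h1
      have h2 : ((opN ((natN e n).r k1) b).r k2).eqf (opN (natN e2 n) (natN e2 m)) := by
        refine LN.eqf_trans (hO1 e1 e2 k2 _ _) ((hO2 e2 _ _ _ _).2 ⟨?_, hm⟩)
        rw [LN.r_r]
        exact hN1 e e2 _ n
      have h3 := LN.memf_congr h2 (LN.eqf_refl _) h1
      have h4 : (h ≫ k) ≫ k1 ≫ k2 = h ≫ (k ≫ k1 ≫ k2) := by simp
      have h5 : ((h ≫ k) ≫ k1) ≫ k2 = h ≫ (k ≫ k1 ≫ k2) := by simp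
      have h6 : (opN (natN e2 n) (natN e2 m)).memf (X.r (h ≫ (k ≫ k1 ≫ k2))) := by
        rw [← h5]
        exact h3
      rw [hx] at h6
      have h7 : k.h (v (Nat.pair n m)) ≤ ⊥ := by
        rw [← hk']
        exact CHom.mono k.h (le_iSup (fun m => v (Nat.pair n m)) m)
      have h8 : k.h (v (Nat.pair n m)) = ⊥ := le_bot_iff.1 h7
      rw [Ob.comp_h, h8, CHom.map_bot] at h6
      exact bot_ne_top h6
    · rw [iInf_eq_top]
      intro n
      rw [iInf_eq_top]
      intro m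
      rw [iInf_eq_top]
      intro m'
      rw [iInf_eq_top]
      intro hmm
      rw [compl_eq_top]
      by_contra hcon
      obtain ⟨e, k, hk, -⟩ := hRST d _ hcon
      rw [CHom.map_inf, inf_eq_top_iff, ← hx, ← hx] at hk
      have hmem : (natN e n).memf ((omN c).r (h ≫ k)) := by
        rw [hom]
        intro e' h'
        exact ⟨e', 𝟙 e', n, hN1 e e' _ n⟩
      have h1 := hX3 e (h ≫ k) (natN e n) (natN e m) (natN e m') hmem hk.1 hk.2
      exact hmm ((hN3 e m m').2.1 h1)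
  · intro e k z
    rw [LN.r_r]
    constructor
    · intro hz e1 l
      obtain ⟨e2, l2, a, b, ha, hb, hab⟩ := hX1 e (h ≫ k) z hz e1 l
      rw [hom] at ha
      obtain ⟨e3, l3, n, hn⟩ := ha e2 (𝟙 e2)
      rw [Category.id_comp] at hn
      rw [hom] at hb
      obtain ⟨e4, l4, m, hm⟩ := hb e3 l3
      refine ⟨e4, l2 ≫ l3 ≫ l4, (n, m), ?_, ?_⟩
      · have h1 : (z.r (l ≫ l2 ≫ l3 ≫ l4)).memf (X.r (h ≫ (k ≫ l ≫ l2 ≫ l3 ≫ l4))) := by
          have h2 := LN.memf_mono hz (l ≫ l2 ≫ l3 ≫ l4)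
          rw [LN.r_r] at h2
          simpa using h2
        refine (hx n m e4 (k ≫ l ≫ l2 ≫ l3 ≫ l4)).1 ?_
        refine LN.memf_congr ?_ (LN.eqf_refl _) h1
        have h3 := LN.eqf_mono hab (l3 ≫ l4)
        rw [LN.r_r] at h3
        have h4 : (opN a b).r (l3 ≫ l4) |>.eqf (opN (natN e4 n) (natN e4 m)) := by
          refine LN.eqf_trans (hO1 e2 e4 _ _ _) ((hO2 e4 _ _ _ _).2 ⟨?_, hm⟩)
          have h5 := LN.eqf_mono hn l4
          rw [LN.r_r] at h5
          exact LN.eqf_trans h5 (hN1 e3 e4 l4 n)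
        have h5 := LN.eqf_trans h3 h4
        simpa using h5
      · have h3 := LN.eqf_mono hab (l3 ≫ l4)
        rw [LN.r_r] at h3
        have h4 : (opN a b).r (l3 ≫ l4) |>.eqf (opN (natN e4 n) (natN e4 m)) := by
          refine LN.eqf_trans (hO1 e2 e4 _ _ _) ((hO2 e4 _ _ _ _).2 ⟨?_, hm⟩)
          have h5 := LN.eqf_mono hn l4
          rw [LN.r_r] at h5
          exact LN.eqf_trans h5 (hN1 e3 e4 l4 n)
        have h5 := LN.eqf_trans h3 h4
        simpa using h5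
    · intro H
      refine LN.memf_reg fun e1 l => ?_
      obtain ⟨e2, l', ⟨n, m⟩, h1, h2⟩ := H e1 l
      refine ⟨e2, l', ?_⟩
      have h3 := (hx n m e2 (k ≫ l ≫ l')).2 h1
      rw [LN.r_r]
      refine LN.memf_congr (LN.eqf_symm h2) ?_ h3
      have h4 : h ≫ k ≫ l ≫ l' = (h ≫ k) ≫ l ≫ l' := by simp
      rw [h4]
      exact LN.eqf_refl _

end Pool.Agent.CFZ
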