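import Pool.Agent.CFZ.Stmts

/-!
Squad CFZ, module FUL: the maximum principle.
-/

set_option autoImplicit false

namespace Pool.Agent.CFZ

open CategoryTheory

theorem ful_proof (hMIX : Stmt_MIX) (hRST : Stmt_RST) (hMXN : Stmt_MXN) : Stmt_FUL := by
  intro c P hmono hcongr hreg hdense
  obtain ⟨d, h, I, u, hinj, hu0, hdisj, hsup, hD⟩ := hMIX c (fun d h => ∃ y, P d h y)
    (fun d e h k => by
      rintro ⟨y, hy⟩
      exact ⟨y.r k, hmono d e h k y hy⟩)
    (fun d h => by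
      obtain ⟨e, k, y, hy⟩ := hdense d h
      exact ⟨e, k, y, hy⟩)
  choose e k hk _ _ hfac hepi using fun i => hRST d (u i) (hu0 i)
  choose y hy using fun i => hD (e i) (k i) i (hk i)
  obtain ⟨Y, hY⟩ := hMXN d I u e k y hdisj hk hepi
  refine ⟨d, h, Y, hinj, ?_⟩
  apply hreg
  intro e1 k1
  have h1 : ∃ i, k1.h (u i) ≠ ⊥ := by
    by_contra hc
    push Not at hc
    have h2 : k1.h (⨆ i, u i) = ⊥ := by
      rw [CHom.map_iSup]
      simp [hc]
    rw [hsup, CHom.map_top] at h2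
    exact top_ne_bot h2
  obtain ⟨i, hi⟩ := h1
  obtain ⟨e2, l, hl, -⟩ := hRST e1 (k1.h (u i)) hi
  obtain ⟨m, hm⟩ := hfac i e2 (k1 ≫ l) hl
  refine ⟨e2, l, ?_⟩
  have h3 := hmono _ _ _ m _ (hy i)
  rw [Category.assoc, hm] at h3
  refine hcongr _ _ _ _ ?_ h3
  have h4 := LN.eqf_mono (hY i) m
  rw [LN.r_r, hm] at h4
  exact LN.eqf_symm h4

end Pool.Agent.CFZ
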