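import Pool.Agent.CFZ.IsBs

/-!
Squad CFZ (MP_3193e4_lc): statements of the modules.
-/

set_option autoImplicit false

namespace Pool.Agent.CFZ

open CategoryTheory Fm

/-! ### A. Zermelo-Fraenkel set theory over any category -/

/-- extensionality and foundation -/
def Stmt_EXF : Prop := ∀ (C : Type 1) [Category.{0} C] (c : C) (ρ : ℕ → LN c),
  Frc extF c ρ ∧ Frc founF c ρ

/-- pairing, union, infinity -/
def Stmt_PUI : Prop := ∀ (C : Type 1) [Category.{0} C] (c : C) (ρ : ℕ → LN c),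
  Frc pairF c ρ ∧ Frc unionF c ρ ∧ Frc infF c ρ

/-- separation -/
def Stmt_SEP : Prop := ∀ (C : Type 1) [Category.{0} C] (φ : Fm) (c : C) (ρ : ℕ → LN c),
  Frc (sepF φ) c ρ

/-- power set -/
def Stmt_POW : Prop := ∀ (C : Type 1) [Category.{0} C] (c : C) (ρ : ℕ → LN c), Frc powF c ρ

/-- replacement -/
def Stmt_REP : Prop := ∀ (C : Type 1) [Category.{0} C] (φ : Fm) (c : C) (ρ : ℕ → LN c),
  Frc (replF φ) c ρ

/-- generic two-valued structures -/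
def Stmt_GMD : Prop := ∀ (C : Type 1) [Category.{0} C] (c : C) (ρ : ℕ → LN c),
  ∃ (M : Type) (E : M → M → Prop) (ρ' : ℕ → M), (∀ φ : Fm, Frc φ c ρ → Sat E φ ρ') ∧
    ∀ φ : Fm, (∀ (d : C) (ρ1 : ℕ → LN d), Frc φ d ρ1) → ∀ ρ1 : ℕ → M, Sat E φ ρ1

/-! ### B. Names over any category -/

/-- natural numbers -/
def Stmt_NAT : Prop := ∀ (C : Type 1) [Category.{0} C],
  (∀ (c d : C) (h : c ⟶ d) (n : ℕ), ((natN c n).r h).eqf (natN d n)) ∧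
  (∀ (c d : C) (h : c ⟶ d), ((omN c).r h).eqf (omN d)) ∧
  (∀ (c : C) (m n : ℕ), ((natN c m).memf (natN c n) ↔ m < n) ∧
    ((natN c m).eqf (natN c n) ↔ m = n)) ∧
  (∀ (c : C) (z : LN c) (n : ℕ), z.memf (natN c n) ↔
    Dns (c := c) fun e h => ∃ m < n, (z.r h).eqf (natN e m)) ∧
  (∀ (c : C) (z : LN c), z.memf (omN c) ↔
    Dns (c := c) fun e h => ∃ m : ℕ, (z.r h).eqf (natN e m))

/-- the formulas for successor and for the set of natural numbers -/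
def Stmt_OMG : Prop := ∀ (C : Type 1) [Category.{0} C] (c : C) (ρ : ℕ → LN c),
  (∀ i j n, (ρ j).eqf (natN c n) → (Frc (sucF i j) c ρ ↔ (ρ i).eqf (natN c (n + 1)))) ∧
  ∀ i, Frc (omF i) c ρ ↔ (ρ i).eqf (omN c)

/-- pairs and inclusion -/
def Stmt_OPN : Prop := ∀ (C : Type 1) [Category.{0} C],
  (∀ (c d : C) (h : c ⟶ d) (a b : LN c), ((opN a b).r h).eqf (opN (a.r h) (b.r h))) ∧
  (∀ (c : C) (a b a' b' : LN c), (opN a b).eqf (opN a' b') ↔ (a.eqf a' ∧ b.eqf b')) ∧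
  ∀ (c : C) (ρ : ℕ → LN c),
    (∀ i j k, Frc (opF i j k) c ρ ↔ (ρ i).eqf (opN (ρ j) (ρ k))) ∧
    (∀ i j k, Frc (appF i j k) c ρ ↔ (opN (ρ j) (ρ k)).memf (ρ i)) ∧
    ∀ i j, Frc (subF i j) c ρ ↔ FSub (ρ i) (ρ j)

/-- the formula for functions -/
def Stmt_FUN : Prop := ∀ (C : Type 1) [Category.{0} C] (c : C) (ρ : ℕ → LN c) (i j k : ℕ),
  Frc (funF i j k) c ρ ↔ FFun (ρ i) (ρ j) (ρ k)

/-- names of finite sequences -/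
def Stmt_SQA : Prop := ∀ (C : Type 1) [Category.{0} C],
  (∀ (c d : C) (h : c ⟶ d) (s : List ℕ), ((seqN c s).r h).eqf (seqN d s)) ∧
  (∀ (c : C) (s t : List ℕ), ((seqN c s).eqf (seqN c t) ↔ s = t) ∧
    (FSub (seqN c s) (seqN c t) ↔ s <+: t)) ∧
  (∀ (c : C) (s : List ℕ) (z : LN c), z.memf (seqN c s) ↔
    Dns (c := c) fun e h => ∃ i : Fin s.length, (z.r h).eqf (opN (natN e i.1) (natN e (s.get i))))

/-- the formula for finite sequences -/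
def Stmt_SQB : Prop := ∀ (C : Type 1) [Category.{0} C] (c : C) (ρ : ℕ → LN c) (i j : ℕ),
  (ρ i).eqf (omN c) → (Frc (seqF i j) c ρ ↔
    Dns (c := c) fun e h => ∃ s : List ℕ, ((ρ j).r h).eqf (seqN e s))

/-- the formula for immediate successors -/
def Stmt_SQC : Prop := ∀ (C : Type 1) [Category.{0} C] (c : C) (ρ : ℕ → LN c) (w s k t : ℕ)
  (l : List ℕ) (m : ℕ), (ρ w).eqf (omN c) → (ρ s).eqf (seqN c l) → (ρ k).eqf (natN c m) →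
  (Frc (isucF w s k t) c ρ ↔ (ρ t).eqf (seqN c (l ++ [m])))

/-- the formula for Miller trees -/
def Stmt_MLF : Prop := ∀ (C : Type 1) [Category.{0} C] (c : C) (ρ : ℕ → LN c) (i j : ℕ),
  (ρ i).eqf (omN c) → (Frc (millF i j) c ρ ↔ FMil (ρ j))

/-- the formula for branches -/
def Stmt_BRF : Prop := ∀ (C : Type 1) [Category.{0} C] (c : C) (ρ : ℕ → LN c) (i j k : ℕ),
  (ρ i).eqf (omN c) → (Frc (brF i j k) c ρ ↔ ∀ (d : C) (h : c ⟶ d) (s : List ℕ),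
    FSub (seqN d s) ((ρ k).r h) → (seqN d s).memf ((ρ j).r h))

/-! ### C. Complete Boolean algebras and stages -/

/-- restriction of a stage to a nonzero element -/
def Stmt_RST : Prop := ∀ (c : Ob) (u : c.A), u ≠ ⊥ → ∃ (e : Ob) (k : c ⟶ e),
  k.h u = ⊤ ∧ (∀ x, k.h x = ⊥ ↔ x ⊓ u = ⊥) ∧ (∀ m, e.a m = k.h (c.a m)) ∧
  (∀ (e' : Ob) (k' : c ⟶ e'), k'.h u = ⊤ → ∃ m : e ⟶ e', k ≫ m = k') ∧
  ∀ (e' : Ob) (m m' : e ⟶ e'), k ≫ m = k ≫ m' → m = m'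

/-- attaining a supremum on a partition -/
def Stmt_ATT : Prop := ∀ (A : Type) [CompleteBooleanAlgebra A] (I : Type) [Nonempty I] (w : I → A),
  ∃ (J : Type) (a : J → A) (f : J → I), (∀ i j, i ≠ j → a i ⊓ a j = ⊥) ∧ (⨆ j, a j) = ⊤ ∧
    ∀ j, a j ⊓ (⨆ i, w i) ≤ w (f j)

/-- a dense open family of extensions is met on a partition by one injective extension -/
def Stmt_MIX : Prop := ∀ (c : Ob) (D : (d : Ob) → (c ⟶ d) → Prop),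
  (∀ (d e : Ob) (h : c ⟶ d) (k : d ⟶ e), D d h → D e (h ≫ k)) →
  (∀ (d : Ob) (h : c ⟶ d), ∃ (e : Ob) (k : d ⟶ e), D e (h ≫ k)) →
  ∃ (d : Ob) (h : c ⟶ d) (I : Type) (u : I → d.A), Inj h ∧ (∀ i, u i ≠ ⊥) ∧
    (∀ i j, i ≠ j → u i ⊓ u j = ⊥) ∧ (⨆ i, u i) = ⊤ ∧
    ∀ (e : Ob) (k : d ⟶ e) (i : I), k.h (u i) = ⊤ → D e (h ≫ k)

/-- amalgamation -/
def Stmt_AMA : Prop := ∀ (K A B : Type) [CompleteBooleanAlgebra K] [CompleteBooleanAlgebra A]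
  [CompleteBooleanAlgebra B] [Nontrivial K] [Nontrivial A] [Nontrivial B] (r : CHom K A)
  (s : CHom K B), (∀ x, r x = ⊥ → x = ⊥) →
  ∃ (T : Type) (_ : CompleteBooleanAlgebra T) (_ : Nontrivial T) (r' : CHom A T) (s' : CHom B T),
    ∀ x, r' (r x) = s' (s x)

/-- limits of chains of complete Boolean algebras -/
def Stmt_LIM : Prop := ∀ (A : ℕ → Type) [∀ n, CompleteBooleanAlgebra (A n)]
  [∀ n, Nontrivial (A n)] (h : ∀ n, CHom (A n) (A (n + 1))), (∀ n x, h n x = ⊥ → x = ⊥) →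
  ∃ (T : Type) (_ : CompleteBooleanAlgebra T) (_ : Nontrivial T) (k : ∀ n, CHom (A n) T),
    (∀ n x, k (n + 1) (h n x) = k n x) ∧ ∀ n x, k n x = ⊥ → x = ⊥

/-- Rasiowa-Sikorski: two-valued homomorphisms respecting countably many suprema -/
def Stmt_RSU : Prop := ∀ (A : Type) [CompleteBooleanAlgebra A] (b : A) (S : ℕ → Set A), b ≠ ⊥ →
  ∃ v : A → Prop, v b ∧ v ⊤ ∧ (∀ x y, v (x ⊓ y) ↔ (v x ∧ v y)) ∧ (∀ x, v xᶜ ↔ ¬ v x) ∧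
    ∀ n, v (sSup (S n)) → ∃ a ∈ S n, v a

/-- the same, respecting in addition the values of countably many Borel formulas -/
def Stmt_LSK : Prop := ∀ (α A : Type) [CompleteBooleanAlgebra A] (x : α → A) (Φ : ℕ → BF α) (b : A)
  (S : ℕ → Set A), b ≠ ⊥ →
  ∃ v : A → Prop, v b ∧ v ⊤ ∧ (∀ x y, v (x ⊓ y) ↔ (v x ∧ v y)) ∧ (∀ x, v xᶜ ↔ ¬ v x) ∧
    (∀ n, v (sSup (S n)) → ∃ a ∈ S n, v a) ∧
    ∀ n, v ((Φ n).val x) ↔ (Φ n).val (fun i => v (x i))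

/-- Borel statements which hold for `Prop` hold for every complete Boolean algebra -/
def Stmt_LSP : Prop := ∀ (α : Type) (F : ∀ (A : Type) [CompleteBooleanAlgebra A], (α → A) → A),
  IsB F → (∀ X : α → Prop, F Prop X) →
  ∀ (A : Type) [CompleteBooleanAlgebra A] (x : α → A), F A x = ⊤

/-- transfer principle for closed statements: `B s` says that the finite sequence `s` is in the
tree of attempts, the result `z` is a name for a branch -/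
def Stmt_CTP : Prop := ∀ (α : Type)
  (B : List ℕ → ∀ (A : Type) [CompleteBooleanAlgebra A], (α → A) → A), (∀ s, IsB (B s)) →
  (∀ (s : List ℕ) (n : ℕ) (A : Type) [CompleteBooleanAlgebra A] (x : α → A),
    B (s ++ [n]) A x ≤ B s A x) →
  (∀ X : α → Prop, ∃ z : ℕ → ℕ, ∀ n, B ((List.range n).map z) Prop X) →
  ∀ (A : Type) [CompleteBooleanAlgebra A] (x : α → A), ∃ ζ : List ℕ → A, ζ [] = ⊤ ∧
    (∀ s, ζ s = ⨆ n, ζ (s ++ [n])) ∧ (∀ s n m, n ≠ m → ζ (s ++ [n]) ⊓ ζ (s ++ [m]) = ⊥) ∧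
    ∀ s, ζ s ≤ B s A x

/-- transfer principle: Borel statements with one existential quantifier over sets hold with
values in every complete Boolean algebra -/
def Stmt_BTP : Prop := ∀ (α β : Type) [Countable α] [Countable β]
  (F : ∀ (A : Type) [CompleteBooleanAlgebra A], (α ⊕ β → A) → A), IsB F →
  (∀ X : α → Prop, ∃ Y : β → Prop, F Prop (Sum.elim X Y)) →
  ∀ (A : Type) [CompleteBooleanAlgebra A] (x : α → A), ∃ y : β → A, F A (Sum.elim x y) = ⊤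

/-- pseudo-intersections -/
def Stmt_PSI : Prop := ∀ (A : Type) [CompleteBooleanAlgebra A] (a : ℕ → ℕ → A),
  (∀ n, InfV (a n) = ⊤) → (∀ n, AlmV (a (n + 1)) (a n) = ⊤) →
  ∃ b : ℕ → A, InfV b = ⊤ ∧ ∀ n, AlmV b (a n) = ⊤

/-- limits of chains of stages -/
def Stmt_LOB : Prop := ∀ (c : ℕ → Ob) (h : ∀ n, c n ⟶ c (n + 1)), (∀ n, Inj (h n)) →
  ∃ (d : Ob) (k : ∀ n, c n ⟶ d), (∀ n, h n ≫ k (n + 1) = k n) ∧ ∀ n, Inj (k n)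

/-- countably many predicates become elements of the algebra -/
def Stmt_NIC : Prop := ∀ (c : Ob) (P : ℕ → FP c), ∃ (d : Ob) (h : c ⟶ d) (v : ℕ → d.A), Inj h ∧
  ∀ (n : ℕ) (e : Ob) (k : d ⟶ e), (P n).p e (h ≫ k) ↔ k.h (v n) = ⊤

/-! ### D. Combinatorics of block sequences -/

/-- the theorem of Hindman for blocks -/
def Stmt_HIN : Prop := ∀ (E χ : Finset ℕ → Prop), BlkV E → ∃ E' : Finset ℕ → Prop,
  BlkV E' ∧ LeV E' E ∧ ((∀ u, SpV E' u → χ u) ∨ ∀ u, SpV E' u → ¬ χ u)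

/-- the theorem of Hindman with values in `A` -/
def Stmt_HNA : Prop := ∀ (A : Type) [CompleteBooleanAlgebra A] (E χ : Finset ℕ → A),
  BlkV E = ⊤ → ∃ (E' : Finset ℕ → A) (w : A), BlkV E' = ⊤ ∧ LeV E' E = ⊤ ∧
    ∀ u, w ⊓ SpV E' u ≤ χ u ∧ wᶜ ⊓ SpV E' u ≤ (χ u)ᶜ

/-- diagonal intersection of block sequences, with values in `A` -/
def Stmt_DGA : Prop := ∀ (A : Type) [CompleteBooleanAlgebra A] (D : ℕ → Finset ℕ → A) (N : ℕ → ℕ),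
  (∀ n, BlkV (D n) = ⊤) → (∀ n, LeV (D (n + 1)) (D n) = ⊤) →
  ∃ E : Finset ℕ → A, BlkV E = ⊤ ∧ LeV E (D 0) = ⊤ ∧
    ∀ (m : ℕ) (u v : Finset ℕ), m ∈ u → Lt u v → E u ⊓ E v ≤ SpV (D (N m)) v

/-- diagonalisation of countably many tasks; `Q t E a`: on the value `a`, the task `t` is done
by `E`; it depends only on the part of `E` beyond `t` -/
def Stmt_DIA : Prop := ∀ (A : Type) [CompleteBooleanAlgebra A]
  (Q : L → (Finset ℕ → A) → A → Prop) (m0 : ℕ) (E : Finset ℕ → A), BlkV E = ⊤ →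
  (∀ t E1 E2 a a', BlkV E1 = ⊤ → BlkV E2 = ⊤ → LeV E1 E = ⊤ → LeV E2 E = ⊤ → Q t E1 a →
    a' ≤ a → (∀ u, Gt t u → a' ⊓ E2 u ≤ SpV E1 u) → Q t E2 a') →
  (∀ t E1, Blist t → BlkV E1 = ⊤ → LeV E1 E = ⊤ →
    ∃ E2, BlkV E2 = ⊤ ∧ LeV E2 E1 = ⊤ ∧ Q t E2 ⊤) →
  ∃ E', BlkV E' = ⊤ ∧ LeV E' E = ⊤ ∧ ∀ t, Blist t → Q t E' (kapV m0 t E')

/-- mixing of block sequences -/
def Stmt_MXB : Prop := ∀ (A : Type) [CompleteBooleanAlgebra A] (I : Type) (a : I → A)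
  (E : I → Finset ℕ → A) (E0 : Finset ℕ → A), (∀ i j, i ≠ j → a i ⊓ a j = ⊥) → (⨆ i, a i) = ⊤ →
  (∀ i, BlkV (E i) = ⊤) → (∀ i, LeV (E i) E0 = ⊤) →
  ∃ E', BlkV E' = ⊤ ∧ LeV E' E0 = ⊤ ∧ ∀ i u, a i ⊓ E' u = a i ⊓ E i u

/-- the least fixed point `WV` -/
def Stmt_WPR : Prop := ∀ (A : Type) [CompleteBooleanAlgebra A] (O : L → A) (E : Finset ℕ → A),
  (∀ t, WV O E t = O t ⊔ ⨅ (u) (_ : Gt t u), (SpV E u ⇨ WV O E (t ++ [u]))) ∧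
  (∀ X : L → A, (∀ t, O t ⊔ (⨅ (u) (_ : Gt t u), (SpV E u ⇨ X (t ++ [u]))) ≤ X t) →
    ∀ t, WV O E t ≤ X t) ∧
  ∀ (O' : L → A) (E' : Finset ℕ → A) (t : L) (a : A), E' ∅ = ⊥ →
    (∀ r, t <+: r → a ⊓ O r ≤ O' r) → (∀ u, Gt t u → a ⊓ E' u ≤ SpV E u) →
    a ⊓ WV O E t ≤ WV O' E' t

/-- maximal values of `WV` are attained -/
def Stmt_ACC : Prop := ∀ (A : Type) [CompleteBooleanAlgebra A] (O : L → A) (t : L)
  (E : Finset ℕ → A), BlkV E = ⊤ → ∃ E', BlkV E' = ⊤ ∧ LeV E' E = ⊤ ∧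
    ∀ (a : A) (E'' : Finset ℕ → A), BlkV E'' = ⊤ → (∀ u, Gt t u → a ⊓ E'' u ≤ SpV E' u) →
      a ⊓ WV O E'' t ≤ WV O E' t

/-- the theorem of Nash-Williams for block sequences -/
def Stmt_NWT : Prop := ∀ (A : Type) [CompleteBooleanAlgebra A] (O : L → A) (t : L)
  (E : Finset ℕ → A), Blist t → BlkV E = ⊤ → ∃ (E' : Finset ℕ → A) (w : A), BlkV E' = ⊤ ∧
    LeV E' E = ⊤ ∧ w ≤ WV O E' t ∧
    ∀ r, Blist (t ++ r) → wᶜ ⊓ (⨅ u ∈ r, SpV E' u) ⊓ O (t ++ r) = ⊥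

/-- maximal values of `vV` for all stems at once -/
def Stmt_VMX : Prop := ∀ (A : Type) [CompleteBooleanAlgebra A] (E0 : Finset ℕ → A)
  (D : Set (Cd A E0)) (m0 : ℕ) (E : Finset ℕ → A), (∀ q ∈ D, ∀ q' ≤ q, q' ∈ D) → BlkV E = ⊤ →
  LeV E E0 = ⊤ → ∃ E1, BlkV E1 = ⊤ ∧ LeV E1 E = ⊤ ∧ LeV E1 E0 = ⊤ ∧
    ∀ t, Blist t → ∀ (a : A) (E' : Finset ℕ → A), a ≤ kapV m0 t E1 → BlkV E' = ⊤ →
      LeV E' E0 = ⊤ → (∀ u, Gt t u → a ⊓ E' u ≤ SpV E1 u) → a ⊓ vV D t E' ≤ vV D t E1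

/-- pure decision -/
def Stmt_PDE : Prop := ∀ (A : Type) [CompleteBooleanAlgebra A] (E0 : Finset ℕ → A)
  (θ : RO (Cd A E0)) (E : Finset ℕ → A), BlkV E = ⊤ → LeV E E0 = ⊤ →
  ∃ (E' : Finset ℕ → A) (w : A), BlkV E' = ⊤ ∧ LeV E' E = ⊤ ∧ LeV E' E0 = ⊤ ∧
    (∀ q : Cd A E0, q.s = [] → q.E = E' → q.p ≤ w → q ∈ θ.s) ∧
    ∀ q : Cd A E0, q.s = [] → q.E = E' → q.p ≤ wᶜ → q ∈ (θᶜ).s

/-- capturing of dense sets, one stem -/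
def Stmt_CPO : Prop := ∀ (A : Type) [CompleteBooleanAlgebra A] (E0 : Finset ℕ → A)
  (D : Set (Cd A E0)) (E : Finset ℕ → A) (t : L), DOp D → Blist t → BlkV E = ⊤ → LeV E E0 = ⊤ →
  ∃ E', BlkV E' = ⊤ ∧ LeV E' E = ⊤ ∧ LeV E' E0 = ⊤ ∧
    (⨅ u ∈ t, SpV E0 u) ≤ WV (fun r => vV D r E') E' t

/-- capturing of dense sets, all stems -/
def Stmt_CAP : Prop := ∀ (A : Type) [CompleteBooleanAlgebra A] (E0 : Finset ℕ → A)
  (D : Set (Cd A E0)) (m0 : ℕ) (E : Finset ℕ → A), DOp D → BlkV E = ⊤ → LeV E E0 = ⊤ →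
  ∃ E', BlkV E' = ⊤ ∧ LeV E' E = ⊤ ∧ LeV E' E0 = ⊤ ∧
    ∀ t, Blist t → kapV m0 t E' ⊓ (⨅ u ∈ t, SpV E0 u) ≤ WV (fun r => vV D r E') E' t

/-- absoluteness of capturing -/
def Stmt_ABS : Prop := ∀ (A B : Type) [CompleteBooleanAlgebra A] [CompleteBooleanAlgebra B]
  (k : CHom A B) (O : L → A) (E : Finset ℕ → A) (F : ℕ → Finset ℕ → B) (t : L), Blist t →
  SeqV F = ⊤ → k (WV O E t) ⊓ iniV t F ⊓ tailV t.length (fun u => k (E u)) F ≤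
    ⨆ (r : L) (_ : t <+: r ∧ Blist r), (iniV r F ⊓ k (O r))

/-- the canonical generic sequence -/
def Stmt_FNP : Prop := ∀ (A : Type) [CompleteBooleanAlgebra A] (E0 : Finset ℕ → A),
  BlkV E0 = ⊤ → SeqV (FN E0) = ⊤ ∧ (∀ q : Cd A E0, RO.pt q ≤ iota E0 q.p ∧
    RO.pt q ≤ iniV q.s (FN E0) ∧ RO.pt q ≤ tailV q.s.length (fun u => iota E0 (q.E u)) (FN E0)) ∧
    ∀ n u, FN E0 n u ≤ iota E0 (SpV E0 u)

/-- block sequences: general facts -/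
def Stmt_SQF : Prop := ∀ (A : Type) [CompleteBooleanAlgebra A] (F : ℕ → Finset ℕ → A),
  SeqV F = ⊤ → InfV (bV F) = ⊤ ∧ InfV (xV F) = ⊤ ∧ BlkV (RanV F) = ⊤ ∧ BlkV (REv F) = ⊤ ∧
    (∀ n u v, ¬ Lt u v → ∀ m, n < m → F n u ⊓ F m v = ⊥) ∧
    (∀ t, ¬ Blist t → iniV t F = ⊥) ∧ ∀ J : ℕ → A, EvV J = ⊤ → InfV (yV F J) = ⊤

/-- a block sequence meeting all dense sets gives a complete homomorphism -/
def Stmt_GNF : Prop := ∀ (A B : Type) [CompleteBooleanAlgebra A] [CompleteBooleanAlgebra B]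
  (k : CHom A B) (E0 : Finset ℕ → A) (F : ℕ → Finset ℕ → B), BlkV E0 = ⊤ → SeqV F = ⊤ →
  (∀ D : Set (Cd A E0), DOp D → (⨆ q ∈ D, gV k F q) = ⊤) →
  ∃ g : CHom (RO (Cd A E0)) B, (∀ q, gV k F q ≤ g (RO.pt q)) ∧ (∀ a, g (iota E0 a) = k a) ∧
    ∀ n u, g (FN E0 n u) = F n u

/-- block subsequences of generic sequences are generic -/
def Stmt_GNE : Prop := ∀ (A B : Type) [CompleteBooleanAlgebra A] [CompleteBooleanAlgebra B]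
  (E0 : Finset ℕ → A) (k : CHom (RO (Cd A E0)) B) (F' : ℕ → Finset ℕ → B), BlkV E0 = ⊤ →
  SeqV F' = ⊤ → (∀ n u, F' n u ≤ SpV (RanV fun n u => k (FN E0 n u)) u) →
  ∀ D : Set (Cd A E0), DOp D → (⨆ q ∈ D, gV ((iota E0).comp k) F' q) = ⊤

/-- block subsequences of generic sequences give complete homomorphisms -/
def Stmt_GNH : Prop := ∀ (A B : Type) [CompleteBooleanAlgebra A] [CompleteBooleanAlgebra B]
  (E0 : Finset ℕ → A) (k : CHom (RO (Cd A E0)) B) (F' : ℕ → Finset ℕ → B), BlkV E0 = ⊤ →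
  SeqV F' = ⊤ → (∀ n u, F' n u ≤ SpV (RanV fun n u => k (FN E0 n u)) u) →
  ∃ g : CHom (RO (Cd A E0)) B, (∀ a, g (iota E0 a) = k (iota E0 a)) ∧
    (∀ n u, g (FN E0 n u) = F' n u) ∧ ∀ q : Cd A E0, q.s = [] → k (RO.pt q) ≤ g (RO.pt q)

/-- merging of blocks -/
def Stmt_MRG : Prop := ∀ (B : Type) [CompleteBooleanAlgebra B] (F : ℕ → Finset ℕ → B) (J b : ℕ → B),
  SeqV F = ⊤ → EvV J = ⊤ → InfV b = ⊤ → AlmV b (bV F) = ⊤ →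
  ∃ (e : ℕ → B) (F' : ℕ → Finset ℕ → B), InfV e = ⊤ ∧ (∀ m, e m ≤ b m) ∧ SeqV F' = ⊤ ∧
    (∀ n u, F' n u ≤ SpV (RanV F) u) ∧ (∀ m, xV F' m = yV F J m) ∧ ∀ m, bV F' m = e m

/-- Milliken forcing over a stage is a stage -/
def Stmt_OBK : Prop := ∀ c : Ob, BlkV (E0of c.a) = ⊤ ∧
  ∃ (hn : Nontrivial (KA c)) (hi : InfV (bV (FN (E0of c.a))) = ⊤) (h : c ⟶ Kob c hn hi),
    ∀ x, h.h x = iota (E0of c.a) x

/-- every positive decision of an extension is made by a condition -/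
def Stmt_CSK : Prop := ∀ (c : Ob) (Φ : NP c ℕ) (hn : Nontrivial (KA c))
  (hi : InfV (bV (FN (E0of c.a))) = ⊤) (h : c ⟶ Kob c hn hi),
  (∀ x, h.h x = iota (E0of c.a) x) → ∀ (q : Cd c.A (E0of c.a)), q.s = [] →
  ∀ (e : Ob) (k : Kob c hn hi ⟶ e), k.h (RO.pt q : KA c) = ⊤ →
  Φ.p e (h ≫ k) (fun m => k.h (xV (FN (E0of c.a)) m)) →
  ∃ u : KA c, u ≤ RO.pt q ∧ u ≠ ⊥ ∧ ∀ (e' : Ob) (k' : Kob c hn hi ⟶ e'), k'.h u = ⊤ →
    Φ.p e' (h ≫ k') (fun m => k'.h (xV (FN (E0of c.a)) m))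

/-- homogeneous block sequences -/
def Stmt_CPR : Prop := ∀ (c : Ob) (Φ : NP c ℕ), ∃ (d : Ob) (h : c ⟶ d) (F : ℕ → Finset ℕ → d.A),
  SeqV F = ⊤ ∧
  ((∀ (e : Ob) (k : d ⟶ e) (J : ℕ → e.A), EvV J = ⊤ →
      Φ.p e (h ≫ k) (yV (fun n u => k.h (F n u)) J)) ∨
   (∀ (e : Ob) (k : d ⟶ e) (J : ℕ → e.A), EvV J = ⊤ → ∀ (e' : Ob) (l : e ⟶ e'),
      ¬ Φ.p e' (h ≫ k ≫ l) (fun m => l.h (yV (fun n u => k.h (F n u)) J m))))

/-! ### E. Miller trees -/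

/-- parametrisation of a Miller tree -/
def Stmt_TPR : Prop := ∀ (A : Type) [CompleteBooleanAlgebra A] (T : List ℕ → A), MilV T = ⊤ →
  ∃ σ : Finset ℕ → List ℕ → A, ParV T σ = ⊤

/-- the branch given by an infinite set -/
def Stmt_THE : Prop := ∀ (A : Type) [CompleteBooleanAlgebra A] (T : List ℕ → A)
  (σ : Finset ℕ → List ℕ → A) (y : ℕ → A), ParV T σ = ⊤ → InfV y = ⊤ →
  (∃ x, RealV x = ⊤ ∧ ThV σ y x = ⊤) ∧
  ∀ x x', RealV x = ⊤ → RealV x' = ⊤ → ThV σ y x = ⊤ → ThV σ y x' = ⊤ → x = x'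

/-- the subtree given by a block sequence is a Miller tree -/
def Stmt_SMT : Prop := ∀ (A : Type) [CompleteBooleanAlgebra A] (T : List ℕ → A)
  (σ : Finset ℕ → List ℕ → A) (F : ℕ → Finset ℕ → A), MilV T = ⊤ → ParV T σ = ⊤ → SeqV F = ⊤ →
  MilV (STV σ F) = ⊤ ∧ ∀ t, STV σ F t ≤ T t

/-- its branches -/
def Stmt_SBR : Prop := ∀ (A : Type) [CompleteBooleanAlgebra A] (T : List ℕ → A)
  (σ : Finset ℕ → List ℕ → A) (F : ℕ → Finset ℕ → A) (x : ℕ → ℕ → A), ParV T σ = ⊤ →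
  SeqV F = ⊤ → RealV x = ⊤ → InTV x (STV σ F) = ⊤ →
  ∃ J : ℕ → A, EvV J = ⊤ ∧ ThV σ (yV F J) x = ⊤

/-- homogeneous Miller trees -/
def Stmt_COR : Prop := ∀ (c : Ob) (Ψ : NP c (ℕ × ℕ)) (T : List ℕ → c.A), MilV T = ⊤ →
  ∃ (d : Ob) (h : c ⟶ d) (S : List ℕ → d.A), MilV S = ⊤ ∧ (∀ t, S t ≤ h.h (T t)) ∧
  ((∀ (e : Ob) (k : d ⟶ e) (x : ℕ → ℕ → e.A), RealV x = ⊤ → InTV x (fun t => k.h (S t)) = ⊤ →
      Ψ.p e (h ≫ k) (fun i => x i.1 i.2)) ∨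
   (∀ (e : Ob) (k : d ⟶ e) (x : ℕ → ℕ → e.A), RealV x = ⊤ → InTV x (fun t => k.h (S t)) = ⊤ →
      ∀ (e' : Ob) (l : e ⟶ e'), ¬ Ψ.p e' (h ≫ k ≫ l) (fun i => l.h (x i.1 i.2))))

/-! ### F. Nice names over the category of stages -/

/-- existence and uniqueness of nice names -/
def Stmt_NRN : Prop := ∀ (c : Ob),
  (∀ x : ℕ → ℕ → c.A, ∃ X : LN c, IsRl X x) ∧ (∀ S : List ℕ → c.A, ∃ X : LN c, IsTr X S) ∧
  (∀ (X Y : LN c) (x : ℕ → ℕ → c.A), IsRl X x → (IsRl Y x ↔ X.eqf Y)) ∧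
  (∀ (X Y : LN c) (S : List ℕ → c.A), IsTr X S → (IsTr Y S ↔ X.eqf Y)) ∧
  (∀ (X : LN c) (x : ℕ → ℕ → c.A) (d : Ob) (h : c ⟶ d), IsRl X x →
    IsRl (X.r h) (fun n m => h.h (x n m))) ∧
  (∀ (X : LN c) (S : List ℕ → c.A) (d : Ob) (h : c ⟶ d), IsTr X S →
    IsTr (X.r h) (fun t => h.h (S t)))

/-- elements of nice names -/
def Stmt_NRE : Prop := ∀ (c : Ob),
  (∀ (X : LN c) (x : ℕ → ℕ → c.A), IsRl X x →
    (∀ n m, (opN (natN c n) (natN c m)).memf X ↔ x n m = ⊤) ∧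
    (∀ s : List ℕ, FSub (seqN c s) X ↔ BrV x s = ⊤) ∧
    ∀ x' : ℕ → ℕ → c.A, IsRl X x' → x = x') ∧
  (∀ (X : LN c) (S : List ℕ → c.A), IsTr X S → ∀ s, (seqN c s).memf X ↔ S s = ⊤)

/-- nice names of functions -/
def Stmt_NRF : Prop := ∀ (c : Ob) (X : LN c) (x : ℕ → ℕ → c.A), IsRl X x → RealV x = ⊤ →
  FFun X (omN c) (omN c)

/-- every name of a function is nice at an extension -/
def Stmt_FRL : Prop := ∀ (c : Ob) (X : LN c), FFun X (omN c) (omN c) →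
  ∃ (d : Ob) (h : c ⟶ d) (x : ℕ → ℕ → d.A), Inj h ∧ RealV x = ⊤ ∧ IsRl (X.r h) x

/-- nice names of Miller trees -/
def Stmt_NRM : Prop := ∀ (c : Ob) (X : LN c) (S : List ℕ → c.A), IsTr X S → MilV S = ⊤ → FMil X

/-- every name of a Miller tree is nice at an extension -/
def Stmt_MRL : Prop := ∀ (c : Ob) (X : LN c), FMil X →
  ∃ (d : Ob) (h : c ⟶ d) (S : List ℕ → d.A), Inj h ∧ MilV S = ⊤ ∧ IsTr (X.r h) S

/-- Miller measurability is forced -/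
def Stmt_MMT : Prop := ∀ (c : Ob) (ρ : ℕ → LN c), Frc MMF c ρ

/-- a Cohen real over a stage: `z` is a given node -/
def Stmt_COH : Prop := ∀ (c : Ob) (s : List ℕ), ∃ (d : Type) (_ : CompleteBooleanAlgebra d)
  (_ : Nontrivial d) (k : CHom c.A d) (x : ℕ → ℕ → d), RealV x = ⊤ ∧ BrV x s = ⊤ ∧
  (∀ G : List ℕ → c.A, (∀ s, (⨆ (t) (_ : s <+: t), G t) = ⊤) → (⨆ t, (k (G t) ⊓ BrV x t)) = ⊤) ∧
  InfV (fun m => k (c.a m) ⊓ x m 0) = ⊤ ∧ InfV (fun m => k (c.a m) ⊓ (x m 0)ᶜ) = ⊤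

/-- the name of the set without the Baire property -/
def Stmt_UNM : Prop := ∀ (c : Ob), ∃ X : LN c, ∀ (e : Ob) (h : c ⟶ e) (z : LN e),
  z.memf (X.r h) ↔ ∀ (e1 : Ob) (k : e ⟶ e1), ∃ (e2 : Ob) (l : e1 ⟶ e2) (x : ℕ → ℕ → e2.A),
    RealV x = ⊤ ∧ IsRl (z.r (k ≫ l)) x ∧ AlmV e2.a (fun m => x m 0) = ⊤

/-- there is a set without the Baire property -/
def Stmt_BPT : Prop := ∀ (c : Ob) (ρ : ℕ → LN c), Frc NBPF c ρ

/-- mixing of names -/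
def Stmt_MXN : Prop := ∀ (c : Ob) (I : Type) (u : I → c.A) (d : I → Ob) (f : ∀ i, c ⟶ d i)
  (y : ∀ i, LN (d i)), (∀ i j, i ≠ j → u i ⊓ u j = ⊥) → (∀ i, (f i).h (u i) = ⊤) →
  (∀ i (e' : Ob) (m m' : d i ⟶ e'), f i ≫ m = f i ≫ m' → m = m') →
  ∃ Y : LN c, ∀ i, (Y.r (f i)).eqf (y i)

/-- the maximum principle -/
def Stmt_FUL : Prop := ∀ (c : Ob) (P : (d : Ob) → (c ⟶ d) → LN d → Prop),
  (∀ (d e : Ob) (h : c ⟶ d) (k : d ⟶ e) (y : LN d), P d h y → P e (h ≫ k) (y.r k)) →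
  (∀ (d : Ob) (h : c ⟶ d) (y y' : LN d), y.eqf y' → P d h y → P d h y') →
  (∀ (d : Ob) (h : c ⟶ d) (y : LN d), (∀ (e : Ob) (k : d ⟶ e), ∃ (e' : Ob) (l : e ⟶ e'),
    P e' (h ≫ k ≫ l) (y.r (k ≫ l))) → P d h y) →
  (∀ (d : Ob) (h : c ⟶ d), ∃ (e : Ob) (k : d ⟶ e) (y : LN e), P e (h ≫ k) y) →
  ∃ (d : Ob) (h : c ⟶ d) (y : LN d), Inj h ∧ P d h y

/-- the principle of dependent choices is forced -/
def Stmt_DCT : Prop := ∀ (c : Ob) (ρ : ℕ → LN c), Frc DCF c ρ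

/-- the final theorem -/
def Stmt_FIN : Prop := ∃ (M : Type) (E : M → M → Prop), ZF E ∧ DepCh E ∧ MM E ∧ NotBP E

end Pool.Agent.CFZ
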