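/-
MP_3193e4_lc, squad CFZ, module FUN (helper89).
-/
import Pool.Agent.CFZ.Stmts

set_option autoImplicit false
set_option linter.style.longLine false

namespace Pool.Agent.CFZ

open CategoryTheory Fm

namespace FUN_

variable {C : Type 1} [Category.{0} C]

theorem op_congr (hO : Stmt_OPN) {c : C} {a b a' b' : LN c} (h1 : a.eqf a') (h2 : b.eqf b') :
    (opN a b).eqf (opN a' b') := ((hO C).2.1 c a b a' b').2 ⟨h1, h2⟩

/-- first part: elements are pairs -/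
theorem part1 (hO : Stmt_OPN) {c : C} (ρ : ℕ → LN c) (i j k : ℕ) :
    Frc (all (imp (mem 0 (i + 1)) (ex (ex (and (mem 1 (j + 3)) (and (mem 0 (k + 3))
      (opF 2 1 0))))))) c ρ ↔
    (∀ (d : C) (h : c ⟶ d) (p : LN d), p.memf ((ρ i).r h) → Dns (c := d) fun e l => ∃ a b : LN e,
      a.memf ((ρ j).r (h ≫ l)) ∧ b.memf ((ρ k).r (h ≫ l)) ∧ (p.r l).eqf (opN a b)) := by
  rw [frc_all]
  constructor
  · intro H d h p hp d1 h1
    have g0 := H d h p d (𝟙 d)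
    rw [rr_id] at g0
    have g1 := g0 hp
    rw [frc_ex] at g1
    obtain ⟨e, l, a, g2⟩ := g1 d1 h1
    rw [frc_ex] at g2
    obtain ⟨e1, l1, b, g3⟩ := g2 e (𝟙 e)
    rw [frc_and, frc_and, ((hO C).2.2 _ _).1] at g3
    obtain ⟨g4, g5, g6⟩ := g3
    have g4' : (a.r (𝟙 e ≫ l1)).memf ((((ρ j).r h).r (h1 ≫ l)).r (𝟙 e ≫ l1)) := g4
    have g5' : b.memf ((((ρ k).r h).r (h1 ≫ l)).r (𝟙 e ≫ l1)) := g5
    have g6' : ((p.r (h1 ≫ l)).r (𝟙 e ≫ l1)).eqf (opN (a.r (𝟙 e ≫ l1)) b) := g6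
    refine ⟨e1, l ≫ l1, a.r (𝟙 e ≫ l1), b, ?_, ?_, ?_⟩
    · simpa using g4'
    · simpa using g5'
    · simpa using g6'
  · intro H d h p e l hp
    have hp' : (p.r l).memf (((ρ i).r h).r l) := hp
    rw [LN.r_r] at hp'
    rw [frc_ex]
    intro d1 h1
    obtain ⟨e1, l1, a, b, g1, g2, g3⟩ := H e (h ≫ l) (p.r l) hp' d1 h1
    refine ⟨e1, l1, a, ?_⟩
    rw [frc_ex]
    intro d2 h2
    refine ⟨d2, 𝟙 d2, b.r (h2 ≫ 𝟙 d2), ?_⟩
    rw [frc_and, frc_and, ((hO C).2.2 _ _).1]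
    refine ⟨?_, ?_, ?_⟩
    · change (a.r (h2 ≫ 𝟙 d2)).memf (((((ρ j).r h).r l).r (h1 ≫ l1)).r (h2 ≫ 𝟙 d2))
      have := LN.memf_mono g1 (h2 ≫ 𝟙 d2)
      simpa using this
    · change (b.r (h2 ≫ 𝟙 d2)).memf (((((ρ k).r h).r l).r (h1 ≫ l1)).r (h2 ≫ 𝟙 d2))
      have := LN.memf_mono g2 (h2 ≫ 𝟙 d2)
      simpa using this
    · change (((p.r l).r (h1 ≫ l1)).r (h2 ≫ 𝟙 d2)).eqf (opN (a.r (h2 ≫ 𝟙 d2)) (b.r (h2 ≫ 𝟙 d2)))
      exact LN.eqf_trans (LN.eqf_mono g3 _) ((hO C).1 _ _ _ _ _)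

/-- second part: existence and uniqueness of the value -/
theorem part2 (hO : Stmt_OPN) {c : C} (ρ : ℕ → LN c) (i j k : ℕ) :
    Frc (all (imp (mem 0 (j + 1)) (ex (and (mem 0 (k + 2)) (and (appF (i + 2) 1 0)
      (all (imp (appF (i + 3) 2 0) (eq 0 1)))))))) c ρ ↔
    ((∀ (d : C) (h : c ⟶ d) (a : LN d), a.memf ((ρ j).r h) → Dns (c := d) fun e l => ∃ b : LN e,
      b.memf ((ρ k).r (h ≫ l)) ∧ (opN (a.r l) b).memf ((ρ i).r (h ≫ l))) ∧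
    ∀ (d : C) (h : c ⟶ d) (a b b' : LN d), a.memf ((ρ j).r h) → (opN a b).memf ((ρ i).r h) →
      (opN a b').memf ((ρ i).r h) → b.eqf b') := by
  rw [frc_all]
  constructor
  · intro H
    have key : ∀ (d : C) (h : c ⟶ d) (a : LN d), a.memf ((ρ j).r h) →
        ∀ (d1 : C) (h1 : d ⟶ d1), ∃ (e : C) (l : d1 ⟶ e) (b : LN e),
          b.memf ((ρ k).r (h ≫ h1 ≫ l)) ∧ (opN (a.r (h1 ≫ l)) b).memf ((ρ i).r (h ≫ h1 ≫ l)) ∧
          ∀ (b' : LN e), (opN (a.r (h1 ≫ l)) b').memf ((ρ i).r (h ≫ h1 ≫ l)) → b'.eqf b := by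
      intro d h a ha d1 h1
      have g0 := H d h a d (𝟙 d)
      rw [rr_id] at g0
      have g1 := g0 ha
      rw [frc_ex] at g1
      obtain ⟨e, l, b, g2⟩ := g1 d1 h1
      rw [frc_and, frc_and, ((hO C).2.2 _ _).2.1] at g2
      obtain ⟨g3, g4, g5⟩ := g2
      have g3' : b.memf (((ρ k).r h).r (h1 ≫ l)) := g3
      have g4' : (opN (a.r (h1 ≫ l)) b).memf (((ρ i).r h).r (h1 ≫ l)) := g4
      refine ⟨e, l, b, ?_, ?_, ?_⟩
      · simpa using g3'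
      · simpa using g4'
      · intro b' hb'
        have g6 := g5 e (𝟙 e) b' e (𝟙 e)
        rw [rr_id, ((hO C).2.2 _ _).2.1] at g6
        have g7 : (opN ((a.r (h1 ≫ l)).r (𝟙 e)) b').memf ((((ρ i).r h).r (h1 ≫ l)).r (𝟙 e)) →
          b'.eqf (b.r (𝟙 e)) := g6
        rw [LN.r_id, LN.r_id, LN.r_id, LN.r_r] at g7
        exact g7 hb'
    refine ⟨?_, ?_⟩
    · intro d h a ha d1 h1
      obtain ⟨e, l, b, g1, g2, -⟩ := key d h a ha d1 h1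
      exact ⟨e, l, b, g1, g2⟩
    · intro d h a b b' ha hb hb'
      apply LN.eqf_reg
      intro d1 h1
      obtain ⟨e, l, b0, -, -, g3⟩ := key d h a ha d1 h1
      refine ⟨e, l, ?_⟩
      have mv : ∀ x : LN d, (opN a x).memf ((ρ i).r h) → (x.r (h1 ≫ l)).eqf b0 := by
        intro x hx
        apply g3
        have g4 := LN.memf_congr ((hO C).1 _ _ (h1 ≫ l) a x) (LN.eqf_refl _)
          (LN.memf_mono hx (h1 ≫ l))
        rw [LN.r_r] at g4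
        exact g4
      exact LN.eqf_trans (mv b hb) (LN.eqf_symm (mv b' hb'))
  · rintro ⟨H1, H2⟩ d h a e l ha
    have ha' : (a.r l).memf (((ρ j).r h).r l) := ha
    rw [LN.r_r] at ha'
    rw [frc_ex]
    intro d1 h1
    obtain ⟨e1, l1, b, g1, g2⟩ := H1 e (h ≫ l) (a.r l) ha' d1 h1
    refine ⟨e1, l1, b, ?_⟩
    rw [frc_and, frc_and, ((hO C).2.2 _ _).2.1]
    refine ⟨?_, ?_, ?_⟩
    · change b.memf ((((ρ k).r h).r l).r (h1 ≫ l1))
      simpa using g1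
    · change (opN ((a.r l).r (h1 ≫ l1)) b).memf ((((ρ i).r h).r l).r (h1 ≫ l1))
      simpa using g2
    · intro d2 h2 b' e2 l2 hb'
      rw [((hO C).2.2 _ _).2.1] at hb'
      have hb'' : (opN ((((a.r l).r (h1 ≫ l1)).r h2).r l2) (b'.r l2)).memf
        ((((((ρ i).r h).r l).r (h1 ≫ l1)).r h2).r l2) := hb'
      change (b'.r l2).eqf ((b.r h2).r l2)
      have g3 := LN.memf_congr ((hO C).1 _ _ (h2 ≫ l2) _ _) (LN.eqf_refl _)
        (LN.memf_mono g2 (h2 ≫ l2))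
      have g4 := LN.memf_mono ha' ((h1 ≫ l1) ≫ h2 ≫ l2)
      have g5 := H2 e2 (h ≫ l ≫ (h1 ≫ l1) ≫ h2 ≫ l2) (((a.r l).r ((h1 ≫ l1) ≫ h2 ≫ l2)))
        (b'.r l2) (b.r (h2 ≫ l2)) (by simpa using g4) (by simpa using hb'') (by simpa using g3)
      simpa using g5

end FUN_

open FUN_ in
theorem fun_proof (hOPN : Stmt_OPN) : Stmt_FUN := by
  intro C _ c ρ i j k
  rw [funF, frc_and, part1 hOPN, part2 hOPN]
  rfl

end Pool.Agent.CFZ
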