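import Pool.Agent.CFZ.Stmts

/-!
GMD: generic models (a two-valued structure in which all forced formulas are true).
-/

set_option autoImplicit false

namespace Pool.Agent.CFZ

open CategoryTheory

namespace GMD_

/-- a code of a formula -/
def code : Fm → ℕ
  | .mem i j => Nat.pair 0 (Nat.pair i j)
  | .eq i j => Nat.pair 1 (Nat.pair i j)
  | .bot => Nat.pair 2 0
  | .imp p q => Nat.pair 3 (Nat.pair (code p) (code q))
  | .all p => Nat.pair 4 (code p)

theorem code_inj : ∀ p q : Fm, code p = code q → p = q := by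
  intro p
  induction p with
  | mem i j =>
    intro q h
    cases q <;> simp [code, Nat.pair_eq_pair] at h ⊢
    exact h
  | eq i j =>
    intro q h
    cases q <;> simp [code, Nat.pair_eq_pair] at h ⊢
    exact h
  | bot =>
    intro q h
    cases q <;> simp [code, Nat.pair_eq_pair] at h ⊢
  | imp p q ihp ihq =>
    intro r h
    cases r <;> simp [code, Nat.pair_eq_pair] at h ⊢
    exact ⟨ihp _ h.1, ihq _ h.2⟩
  | all p ih =>
    intro r h
    cases r <;> simp [code, Nat.pair_eq_pair] at h ⊢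
    exact ih _ h

theorem exists_enum : ∃ e : ℕ → Fm, ∀ (φ : Fm) (n : ℕ), ∃ m, n ≤ m ∧ e m = φ := by
  classical
  refine ⟨fun n => if h : ∃ φ, code φ = (Nat.unpair n).1 then h.choose else .bot, ?_⟩
  intro φ n
  refine ⟨Nat.pair (code φ) n, Nat.right_le_pair _ _, ?_⟩
  have h : ∃ ψ, code ψ = (Nat.unpair (Nat.pair (code φ) n)).1 := ⟨φ, by simp⟩
  simp only [dif_pos h]
  apply code_inj
  rw [h.choose_spec]
  simp

variable {C : Type 1} [Category.{0} C]

/-- a state -/
structure St (C : Type 1) [Category.{0} C] where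
  c : C
  ρ : ℕ → LN c

theorem exists_step (s : St C) (φ : Fm) (i : ℕ) : ∃ (s' : St C) (k : s.c ⟶ s'.c) (y : LN s'.c),
    s'.ρ = Function.update (rr s.ρ k) i y ∧
    (Frc φ s'.c (rr s.ρ k) ∨ Frc φ.neg s'.c (rr s.ρ k)) ∧
    ∀ ψ : Fm, φ = .all ψ → Frc φ.neg s'.c (rr s.ρ k) → Frc ψ.neg s'.c (cons y (rr s.ρ k)) := by
  obtain ⟨e, k, h⟩ := frc_em φ s.c s.ρ
  rcases h with h | h
  · refine ⟨⟨e, Function.update (rr s.ρ k) i (rr s.ρ k 0)⟩, k, rr s.ρ k 0, rfl, Or.inl h, ?_⟩
    intro ψ _ h2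
    have h3 := h2 e (𝟙 e)
    change ¬ Frc φ e (rr (rr s.ρ k) (𝟙 e)) at h3
    rw [rr_id] at h3
    exact absurd h h3
  · by_cases hφ : ∃ ψ : Fm, φ = .all ψ
    · obtain ⟨ψ, rfl⟩ := hφ
      have h1 := h e (𝟙 e)
      change ¬ Frc (.all ψ) e (rr (rr s.ρ k) (𝟙 e)) at h1
      rw [rr_id, frc_all] at h1
      push Not at h1
      obtain ⟨d, l, x, h2⟩ := h1
      have h3 : ∃ (d' : C) (l' : d ⟶ d'), Frc ψ.neg d' (rr (cons x (rr (rr s.ρ k) l)) l') := by
        by_contra hc
        push Not at hc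
        apply h2
        apply frc_reg
        intro d' l'
        have h4 := hc d' l'
        rw [frc_neg] at h4
        push Not at h4
        obtain ⟨e', k', h5⟩ := h4
        refine ⟨e', k', ?_⟩
        rw [rr_rr] at h5
        exact h5
      obtain ⟨d', l', h4⟩ := h3
      refine ⟨⟨d', Function.update (rr s.ρ (k ≫ l ≫ l')) i (x.r l')⟩, k ≫ l ≫ l', x.r l', rfl,
        Or.inr ?_, ?_⟩
      · have h5 := frc_mono _ _ (l ≫ l') h
        rw [rr_rr] at h5
        exact h5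
      · intro ψ' hψ _
        cases hψ
        rw [rr_cons, rr_rr, rr_rr] at h4
        exact h4
    · refine ⟨⟨e, Function.update (rr s.ρ k) i (rr s.ρ k 0)⟩, k, rr s.ρ k 0, rfl, Or.inr h, ?_⟩
      intro ψ h1
      exact absurd ⟨ψ, h1⟩ hφ

/-- one step -/
noncomputable def stp (s : St C) (φ : Fm) (i : ℕ) : St C := (exists_step s φ i).choose

/-- the sequence of states -/
noncomputable def sq (e : ℕ → Fm) (s0 : St C) : ℕ → St C
  | 0 => s0
  | n + 1 => stp (sq e s0 n) (e n) (2 * n + 1)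

theorem sq_spec (e : ℕ → Fm) (s0 : St C) (n : ℕ) :
    ∃ (k : (sq e s0 n).c ⟶ (sq e s0 (n + 1)).c) (y : LN (sq e s0 (n + 1)).c),
    (sq e s0 (n + 1)).ρ = Function.update (rr (sq e s0 n).ρ k) (2 * n + 1) y ∧
    (Frc (e n) (sq e s0 (n + 1)).c (rr (sq e s0 n).ρ k) ∨
      Frc (e n).neg (sq e s0 (n + 1)).c (rr (sq e s0 n).ρ k)) ∧
    ∀ ψ : Fm, (e n) = .all ψ → Frc (e n).neg (sq e s0 (n + 1)).c (rr (sq e s0 n).ρ k) →
      Frc ψ.neg (sq e s0 (n + 1)).c (cons y (rr (sq e s0 n).ρ k)) :=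
  (exists_step (sq e s0 n) (e n) (2 * n + 1)).choose_spec

section seq

variable (e : ℕ → Fm) (s0 : St C)

/-- eventually forced -/
def T (φ : Fm) (a : ℕ → ℕ) : Prop :=
  ∃ N, ∀ n, N ≤ n → Frc φ (sq e s0 n).c (fun j => (sq e s0 n).ρ (a j))

/-- the variables are final -/
def Late (n : ℕ) (φ : Fm) (a : ℕ → ℕ) : Prop := ∀ m, n ≤ m → ∀ j < φ.fv, a j ≠ 2 * m + 1

theorem exists_late (φ : Fm) (a : ℕ → ℕ) : ∃ n, Late n φ a := by
  refine ⟨(Finset.range φ.fv).sup a, ?_⟩
  intro m hm j hj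
  have h1 : a j ≤ (Finset.range φ.fv).sup a := Finset.le_sup (Finset.mem_range.2 hj)
  omega

theorem Late.mono {n m : ℕ} {φ : Fm} {a : ℕ → ℕ} (h : Late n φ a) (hm : n ≤ m) : Late m φ a :=
  fun l hl => h l (hm.trans hl)

theorem persist_one {n : ℕ} {φ : Fm} {a : ℕ → ℕ} (h : Late n φ a)
    (H : Frc φ (sq e s0 n).c (fun j => (sq e s0 n).ρ (a j))) :
    Frc φ (sq e s0 (n + 1)).c (fun j => (sq e s0 (n + 1)).ρ (a j)) := by
  obtain ⟨k, y, h1, -, -⟩ := sq_spec e s0 n
  have h2 := frc_mono φ _ k H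
  refine (frc_fv φ _ _ ?_).1 h2
  intro j hj
  rw [h1, Function.update_of_ne (h n le_rfl j hj)]
  rfl

theorem persist {n : ℕ} {φ : Fm} {a : ℕ → ℕ} (h : Late n φ a)
    (H : Frc φ (sq e s0 n).c (fun j => (sq e s0 n).ρ (a j))) (m : ℕ) (hm : n ≤ m) :
    Frc φ (sq e s0 m).c (fun j => (sq e s0 m).ρ (a j)) := by
  induction m, hm using Nat.le_induction with
  | base => exact H
  | succ m hm ih => exact persist_one e s0 (h.mono hm) ih

theorem T_of {n : ℕ} {φ : Fm} {a : ℕ → ℕ} (h : Late n φ a)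
    (H : Frc φ (sq e s0 n).c (fun j => (sq e s0 n).ρ (a j))) : T e s0 φ a :=
  ⟨n, fun m hm => persist e s0 h H m hm⟩

variable (he : ∀ (φ : Fm) (n : ℕ), ∃ m, n ≤ m ∧ e m = φ)

theorem not_both (φ : Fm) (a : ℕ → ℕ) (h1 : T e s0 φ a) (h2 : T e s0 φ.neg a) : False := by
  obtain ⟨N, hN⟩ := h1
  obtain ⟨N', hN'⟩ := h2
  have h3 := hN (max N N') (le_max_left _ _)
  have h4 := hN' (max N N') (le_max_right _ _) _ (𝟙 _)
  change ¬ Frc φ _ (rr _ (𝟙 _)) at h4
  rw [rr_id] at h4
  exact h4 h3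

include he in
theorem decide (φ : Fm) (a : ℕ → ℕ) : T e s0 φ a ∨ T e s0 φ.neg a := by
  obtain ⟨n, hn⟩ := exists_late φ a
  obtain ⟨m, hm, hem⟩ := he (φ.ren a) n
  obtain ⟨k, y, h1, h2, -⟩ := sq_spec e s0 m
  have hfv : ∀ j < φ.fv, rr (sq e s0 m).ρ k (a j) = (sq e s0 (m + 1)).ρ (a j) := by
    intro j hj
    rw [h1, Function.update_of_ne (hn m hm j hj)]
  rw [hem] at h2
  rcases h2 with h2 | h2
  · left
    rw [frc_ren] at h2
    exact T_of e s0 (hn.mono (by omega : n ≤ m + 1)) ((frc_fv φ _ _ hfv).1 h2)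
  · right
    change Frc (φ.neg.ren a) _ _ at h2
    rw [frc_ren] at h2
    have hl : Late (m + 1) φ.neg a := by
      intro l hl j hj
      exact hn l (by omega) j (by simpa [Fm.neg, Fm.fv] using hj)
    refine T_of e s0 hl ((frc_fv φ.neg _ _ ?_).1 h2)
    intro j hj
    exact hfv j (by simpa [Fm.neg, Fm.fv] using hj)

include he in
theorem T_neg (φ : Fm) (a : ℕ → ℕ) : T e s0 φ.neg a ↔ ¬ T e s0 φ a :=
  ⟨fun h h' => not_both e s0 φ a h' h, fun h => (decide e s0 he φ a).resolve_left h⟩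

include he in
theorem T_imp (p q : Fm) (a : ℕ → ℕ) : T e s0 (.imp p q) a ↔ (T e s0 p a → T e s0 q a) := by
  constructor
  · rintro ⟨N, hN⟩ ⟨N', hN'⟩
    refine ⟨max N N', fun n hn => ?_⟩
    have h1 := hN n (le_trans (le_max_left _ _) hn) _ (𝟙 _)
    change Frc p _ (rr _ (𝟙 _)) → Frc q _ (rr _ (𝟙 _)) at h1
    rw [rr_id] at h1
    exact h1 (hN' n (le_trans (le_max_right _ _) hn))
  · intro h
    by_cases hp : T e s0 p a
    · obtain ⟨N, hN⟩ := h hp
      refine ⟨N, fun n hn d l _ => ?_⟩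
      exact frc_mono q _ l (hN n hn)
    · obtain ⟨N, hN⟩ := (T_neg e s0 he p a).2 hp
      refine ⟨N, fun n hn d l h1 => ?_⟩
      exact absurd h1 (hN n hn d l)

theorem comp_cons {α : Type*} (f : ℕ → α) (i : ℕ) (a : ℕ → ℕ) :
    (fun j => f (cons i a j)) = cons (f i) (fun j => f (a j)) := by
  funext j; cases j <;> rfl

include he in
theorem T_all (p : Fm) (a : ℕ → ℕ) : T e s0 (.all p) a ↔ ∀ i, T e s0 p (cons i a) := by
  constructor
  · rintro ⟨N, hN⟩ i
    refine ⟨N, fun n hn => ?_⟩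
    have h1 := hN n hn _ (𝟙 _) ((sq e s0 n).ρ i)
    change Frc p _ (cons _ (rr _ (𝟙 _))) at h1
    rw [rr_id] at h1
    rw [comp_cons]
    exact h1
  · intro h
    by_contra hc
    obtain ⟨N, hN⟩ := (T_neg e s0 he (.all p) a).2 hc
    obtain ⟨n, hn⟩ := exists_late (.all p) a
    obtain ⟨m, hm, hem⟩ := he ((Fm.all p).ren a) (max n N)
    obtain ⟨k, y, h1, h2, h3⟩ := sq_spec e s0 m
    have hnm : n ≤ m := le_trans (le_max_left _ _) hm
    have hNm : N ≤ m := le_trans (le_max_right _ _) hm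
    have hfv : ∀ j < (Fm.all p).fv, rr (sq e s0 m).ρ k (a j) = (sq e s0 (m + 1)).ρ (a j) := by
      intro j hj
      rw [h1, Function.update_of_ne (hn m hnm j hj)]
    have h4 : ¬ Frc (e m) (sq e s0 (m + 1)).c (rr (sq e s0 m).ρ k) := by
      intro h5
      rw [hem, frc_ren] at h5
      have h6 := (frc_fv (.all p) _ _ hfv).1 h5
      have h7 := hN (m + 1) (by omega) _ (𝟙 _)
      change ¬ Frc (.all p) _ (rr _ (𝟙 _)) at h7
      rw [rr_id] at h7
      exact h7 h6
    have h5 := h2.resolve_left h4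
    have h6 := h3 (p.ren (cons 0 fun n => a n + 1)) (by rw [hem]; rfl) h5
    change Frc (p.neg.ren (cons 0 fun n => a n + 1)) _ _ at h6
    rw [frc_ren, cons_ren] at h6
    have hy : (sq e s0 (m + 1)).ρ (2 * m + 1) = y := by
      rw [h1, Function.update_self]
    have hpfv : p.neg.fv - 1 = (Fm.all p).fv := by simp [Fm.neg, Fm.fv]
    have h7 : Frc p.neg (sq e s0 (m + 1)).c
        (fun j => (sq e s0 (m + 1)).ρ (cons (2 * m + 1) a j)) := by
      rw [comp_cons, hy]
      refine (frc_fv p.neg _ _ (cons_agree ?_)).1 h6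
      intro j hj
      exact hfv j (by omega)
    have hl : Late (m + 1) p.neg (cons (2 * m + 1) a) := by
      intro l hl j hj
      cases j with
      | zero => simp only [cons_zero]; omega
      | succ j =>
        simp only [cons_succ]
        exact hn l (by omega) j (by omega)
    exact (T_neg e s0 he p _).1 (T_of e s0 hl h7) (h (2 * m + 1))

/-- equality of numbers -/
def EqT (i j : ℕ) : Prop := ∃ N, ∀ n, N ≤ n → ((sq e s0 n).ρ i).eqf ((sq e s0 n).ρ j)

/-- membership of numbers -/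
def MemT (i j : ℕ) : Prop := ∃ N, ∀ n, N ≤ n → ((sq e s0 n).ρ i).memf ((sq e s0 n).ρ j)

/-- the setoid -/
def stt : Setoid ℕ where
  r := EqT e s0
  iseqv :=
    { refl := fun _ => ⟨0, fun _ _ => LN.eqf_refl _⟩
      symm := fun ⟨N, h⟩ => ⟨N, fun n hn => LN.eqf_symm (h n hn)⟩
      trans := fun ⟨N, h⟩ ⟨N', h'⟩ => ⟨max N N', fun n hn =>
        LN.eqf_trans (h n (le_trans (le_max_left _ _) hn))
          (h' n (le_trans (le_max_right _ _) hn))⟩ }

theorem memT_congr {i i' j j' : ℕ} (h : EqT e s0 i i') (h' : EqT e s0 j j')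
    (H : MemT e s0 i j) : MemT e s0 i' j' := by
  obtain ⟨N, h⟩ := h
  obtain ⟨N', h'⟩ := h'
  obtain ⟨N'', H⟩ := H
  refine ⟨max N (max N' N''), fun n hn => ?_⟩
  exact LN.memf_congr (h n (le_trans (le_max_left _ _) hn))
    (h' n (le_trans (le_trans (le_max_left _ _) (le_max_right _ _)) hn))
    (H n (le_trans (le_trans (le_max_right _ _) (le_max_right _ _)) hn))

/-- the structure -/
def Md : Type := Quotient (stt e s0)

/-- its membership relation -/
def Ed : Md e s0 → Md e s0 → Prop :=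
  Quotient.lift₂ (s₁ := stt e s0) (s₂ := stt e s0) (MemT e s0) (fun _ _ _ _ h h' =>
    propext ⟨memT_congr e s0 h h', memT_congr e s0 ((stt e s0).symm h) ((stt e s0).symm h')⟩)

/-- the class of a number -/
def cl (i : ℕ) : Md e s0 := Quotient.mk (stt e s0) i

theorem cl_surj (x : Md e s0) : ∃ i, cl e s0 i = x := Quotient.exists_rep x

include he in
theorem truth (φ : Fm) (a : ℕ → ℕ) :
    Sat (Ed e s0) φ (fun j => cl e s0 (a j)) ↔ T e s0 φ a := by
  induction φ generalizing a with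
  | mem i j => exact Iff.rfl
  | eq i j =>
    change (cl e s0 (a i) = cl e s0 (a j)) ↔ EqT e s0 (a i) (a j)
    exact Quotient.eq (r := stt e s0)
  | bot =>
    constructor
    · exact fun h => h.elim
    · rintro ⟨N, hN⟩
      exact hN N le_rfl
  | imp p q ihp ihq =>
    rw [T_imp e s0 he, sat_imp, ihp, ihq]
  | all p ih =>
    rw [T_all e s0 he, sat_all]
    constructor
    · intro h i
      rw [← ih, comp_cons]
      exact h _
    · intro h x
      obtain ⟨i, rfl⟩ := cl_surj e s0 x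
      have h1 := h i
      rw [← ih, comp_cons] at h1
      exact h1

end seq

end GMD_

open GMD_

/-- generic models -/
theorem gmd_proof : Stmt_GMD := by
  intro C _ c ρ
  obtain ⟨e, he⟩ := exists_enum
  let s0 : St C := ⟨c, fun n => if n % 2 = 0 then ρ (n / 2) else ρ 0⟩
  refine ⟨Md e s0, Ed e s0, fun j => cl e s0 (2 * j), ?_, ?_⟩
  · intro φ h
    rw [truth e s0 he]
    refine T_of e s0 (n := 0) ?_ ?_
    · intro m _ j _
      omega
    · change Frc φ c (fun j => if (2 * j) % 2 = 0 then ρ ((2 * j) / 2) else ρ 0)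
      have h1 : (fun j => if (2 * j) % 2 = 0 then ρ ((2 * j) / 2) else ρ 0) = ρ := by
        funext j
        rw [if_pos (by omega), Nat.mul_div_cancel_left j (by norm_num)]
      rw [h1]
      exact h
  · intro φ h ρ1
    choose a ha using cl_surj e s0
    have h1 : ρ1 = fun j => cl e s0 (a (ρ1 j)) := by
      funext j
      exact (ha _).symm
    rw [h1, truth e s0 he]
    exact ⟨0, fun n _ => h _ _⟩

end Pool.Agent.CFZ
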