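import Pool.Agent.CFZ.Stmts

/-!
Squad CFZ, module GNE: block subsequences of generic sequences are generic.
-/

set_option autoImplicit false

namespace Pool.Agent.CFZ

namespace GNE_

variable {A B : Type} [CompleteBooleanAlgebra A] [CompleteBooleanAlgebra B]

theorem seq_disj {F : ℕ → Finset ℕ → B} (h : SeqV F = ⊤) {n : ℕ} {u v : Finset ℕ} (huv : u ≠ v) :
    F n u ⊓ F n v = ⊥ := by
  have h1 : ⊤ ≤ ⨅ (n) (u) (v) (_ : u ≠ v), (F n u ⊓ F n v)ᶜ :=
    h ▸ inf_le_left.trans (inf_le_left.trans inf_le_right)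
  have h2 : ⊤ ≤ (F n u ⊓ F n v)ᶜ :=
    h1.trans ((iInf_le _ n).trans ((iInf_le _ u).trans ((iInf_le _ v).trans (iInf_le _ huv))))
  exact compl_eq_top.1 (top_le_iff.1 h2)

theorem seq_empty {F : ℕ → Finset ℕ → B} (h : SeqV F = ⊤) (n : ℕ) : F n ∅ = ⊥ := by
  have h1 : ⊤ ≤ ⨅ n, (F n ∅)ᶜ := h ▸ inf_le_left.trans inf_le_right
  exact compl_eq_top.1 (top_le_iff.1 (h1.trans (iInf_le _ n)))

theorem seq_total {F : ℕ → Finset ℕ → B} (h : SeqV F = ⊤) (n : ℕ) : (⨆ u, F n u) = ⊤ := by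
  have h1 : ⊤ ≤ ⨅ n, ⨆ u, F n u := h ▸ inf_le_left.trans (inf_le_left.trans inf_le_left)
  exact top_le_iff.1 (h1.trans (iInf_le _ n))

theorem ini_append (t : L) (u : Finset ℕ) (F : ℕ → Finset ℕ → B) :
    iniV t F ⊓ F t.length u ≤ iniV (t ++ [u]) F := by
  unfold iniV
  refine le_iInf fun i => ?_
  have hi : (i : ℕ) < t.length + 1 := by
    have := i.2
    simpa using this
  rcases Nat.lt_succ_iff_lt_or_eq.1 hi with h | h
  · have h1 : (t ++ [u]).get i = t.get ⟨i, h⟩ := by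
      simp [List.getElem_append_left h]
    rw [h1]
    exact inf_le_left.trans (iInf_le _ (⟨i, h⟩ : Fin t.length))
  · have h1 : (t ++ [u]).get i = u := by
      simp [h]
    rw [h1, h]
    exact inf_le_right

theorem ini_total {F : ℕ → Finset ℕ → B} (h : SeqV F = ⊤) (n : ℕ) :
    (⨆ (t : L) (_ : t.length = n), iniV t F) = ⊤ := by
  induction n with
  | zero =>
    refine top_le_iff.1 (le_iSup₂_of_le [] rfl ?_)
    unfold iniV
    exact le_iInf fun i => i.elim0
  | succ n ih =>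
    refine top_le_iff.1 ?_
    rw [← ih]
    refine iSup₂_le fun t ht => ?_
    have h1 : iniV t F ≤ iniV t F ⊓ ⨆ u, F n u := by rw [seq_total h n]; simp
    refine h1.trans ?_
    rw [inf_iSup_eq]
    refine iSup_le fun u => ?_
    refine le_trans ?_ (le_iSup₂ (f := fun (t : L) (_ : t.length = n + 1) => iniV t F)
      (t ++ [u]) (by simp [ht]))
    rw [← ht]
    exact ini_append t u F

theorem ini_le {t : L} {w : Finset ℕ} (hw : w ∈ t) (F : ℕ → Finset ℕ → B) :
    ∃ l < t.length, iniV t F ≤ F l w := by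
  obtain ⟨i, rfl⟩ := List.mem_iff_get.1 hw
  exact ⟨i, i.2, iInf_le _ i⟩

theorem blist_ge {t : L} {v : Finset ℕ} (ht : Blist t) (hv : Gt t v) : ∀ j ∈ v, t.length ≤ j := by
  induction t using List.reverseRecOn generalizing v with
  | nil => intro j _; simp
  | append_singleton t u ih =>
    intro j hj
    have ht' : Blist t := ⟨fun w hw => ht.1 w (by simp [hw]), (List.pairwise_append.1 ht.2).1⟩
    have hu : Gt t u := ⟨ht.1 u (by simp), fun w hw =>
      (List.pairwise_append.1 ht.2).2.2 w hw u (by simp)⟩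
    obtain ⟨i, hi⟩ := hu.1
    have h1 := ih ht' hu i hi
    have h2 := hv.2 u (by simp) i hi j hj
    simp only [List.length_append, List.length_singleton]
    omega

end GNE_

open GNE_ in
theorem gne_proof (hCAP : Stmt_CAP) (hABS : Stmt_ABS) (hFNP : Stmt_FNP) (hSQF : Stmt_SQF) :
    Stmt_GNE := by
  intro A B _ _ E0 k F' hE0 hF' hsub D hD
  classical
  obtain ⟨hFN, hpt, hFNle⟩ := hFNP A E0 hE0
  obtain ⟨-, -, -, -, hord, hbl, -⟩ := hSQF B F' hF'
  let F : ℕ → Finset ℕ → B := fun n u => k (FN E0 n u)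
  have hF : SeqV F = ⊤ := by
    rw [← CHom.map_SeqV, hFN, CHom.map_top]
  -- the dense set `D1`
  let D1 : Set (Cd A E0) := {q | ∃ m0, (∀ u ∈ q.s, ∀ i ∈ u, i < m0) ∧ ∀ t, Blist t →
    kapV m0 t q.E ⊓ (⨅ u ∈ t, SpV E0 u) ≤ WV (fun r => vV D r q.E) q.E t}
  have hD1 : ∀ q : Cd A E0, ∃ q' ≤ q, q' ∈ D1 := by
    intro q
    let m0 := (q.s.toFinset.biUnion id).sup id + 1
    obtain ⟨E', h1, h2, h3, h4⟩ := hCAP A E0 D m0 q.E hD q.hE q.hE0
    refine ⟨⟨q.p, q.s, E', q.hp, q.hs, h1, h3, q.hs0⟩, ?_, m0, ?_, h4⟩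
    · refine ⟨le_rfl, List.prefix_refl _, fun _ h h' => absurd h h', fun u _ => ?_⟩
      refine inf_le_right.trans ?_
      have h5 : (⊤ : A) ≤ E' u ⇨ SpV q.E u := h2 ▸ iInf_le _ u
      rwa [le_himp_iff, top_inf_eq] at h5
    · intro u hu i hi
      have : i ≤ (q.s.toFinset.biUnion id).sup id :=
        Finset.le_sup (f := id) (Finset.mem_biUnion.2 ⟨u, List.mem_toFinset.2 hu, hi⟩)
      omega
  have htop : (⨆ (q : Cd A E0) (_ : q ∈ D1), RO.pt q) = ⊤ := by
    refine top_le_iff.1 fun p _ => ?_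
    refine RO.of_dense _ fun p' _ => ?_
    obtain ⟨q, hq, hqD⟩ := hD1 p'
    exact ⟨q, hq, RO.pt_le.1 (le_iSup₂ (f := fun (q : Cd A E0) (_ : q ∈ D1) => RO.pt q) q hqD)⟩
  have htopk : (⨆ (q : Cd A E0) (_ : q ∈ D1), k (RO.pt q)) = ⊤ := by
    have := congrArg k.f htop
    simpa using this
  refine top_le_iff.1 ?_
  rw [← htopk]
  refine iSup₂_le fun q hq => ?_
  obtain ⟨m0, hm0, hcap⟩ := hq
  -- decomposition by the initial segment of length `m0`
  have h1 : k (RO.pt q) ≤ k (RO.pt q) ⊓ ⨆ (t : L) (_ : t.length = m0), iniV t F' := by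
    rw [ini_total hF']; simp
  refine h1.trans ?_
  rw [inf_iSup₂_eq]
  refine iSup₂_le fun t ht => ?_
  by_cases hBt : Blist t
  swap
  · rw [hbl t hBt, inf_bot_eq]; exact bot_le
  subst ht
  obtain ⟨hq1, hq2, hq3⟩ := hpt q
  have hk2 : k (RO.pt q) ≤ iniV q.s F := by
    have := k.mono hq2
    rwa [CHom.map_iniV] at this
  have hk3 : k (RO.pt q) ≤ tailV q.s.length (fun u => k (iota E0 (q.E u))) F := by
    have := k.mono hq3
    rwa [CHom.map_tailV] at this
  -- members of `F` with a large element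
  have hG : ∀ (w : Finset ℕ) (m : ℕ), m ∈ w → t.length ≤ m →
      k (RO.pt q) ⊓ RanV F w ≤ SpV (fun u => k (iota E0 (q.E u))) w := by
    intro w m hm hmt
    unfold RanV
    rw [inf_iSup_eq]
    refine iSup_le fun n => ?_
    by_cases hn : n < q.s.length
    · have h2 : q.s.get ⟨n, hn⟩ ≠ w := by
        intro h
        have h3 := hm0 (q.s.get ⟨n, hn⟩) (List.get_mem _ _) m (h ▸ hm)
        omega
      have h3 : k (RO.pt q) ≤ F n (q.s.get ⟨n, hn⟩) := hk2.trans (iInf_le _ (⟨n, hn⟩ : Fin _))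
      refine (inf_le_inf_right _ h3).trans ?_
      rw [seq_disj hF h2]
      exact bot_le
    · have h3 : k (RO.pt q) ≤ F n w ⇨ SpV (fun u => k (iota E0 (q.E u))) w :=
        hk3.trans ((iInf_le _ n).trans ((iInf_le _ (not_lt.1 hn)).trans (iInf_le _ w)))
      exact le_himp_iff.1 h3
  have hRan : RanV F ∅ = ⊥ := by
    unfold RanV
    simp [seq_empty hF]
  -- claim A
  have hA : k (RO.pt q) ⊓ iniV t F' ≤ tailV t.length (fun u => k (iota E0 (q.E u))) F' := by
    unfold tailV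
    refine le_iInf fun i => le_iInf fun hi => le_iInf fun u => ?_
    rw [le_himp_iff]
    by_cases hGt : Gt t u
    · have h2 := SpV_trans (k (RO.pt q)) (RanV F) (fun u => k (iota E0 (q.E u))) u hRan
        (fun w hw hne => by
          obtain ⟨m, hm⟩ := hne
          exact hG w m hm (blist_ge hBt hGt m (hw hm)))
      exact (le_inf (inf_le_left.trans inf_le_left) (inf_le_right.trans (hsub i u))).trans h2
    · rcases Finset.eq_empty_or_nonempty u with rfl | hne
      · rw [seq_empty hF', inf_bot_eq]; exact bot_le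
      · have h2 : ∃ w ∈ t, ¬ Lt w u := by
          by_contra h
          push Not at h
          exact hGt ⟨hne, h⟩
        obtain ⟨w, hw, hlt⟩ := h2
        obtain ⟨l, hl, hle⟩ := ini_le hw F'
        have h3 := hord l w u hlt i (by omega)
        refine (inf_le_inf_right _ (inf_le_right.trans hle)).trans ?_
        rw [h3]
        exact bot_le
  -- claim B
  have hB : k (RO.pt q) ⊓ iniV t F' ≤ k (iota E0 (kapV t.length t q.E)) := by
    rw [CHom.map_kapV, CHom.map_kapV]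
    unfold kapV
    refine le_iInf₂ fun u hu => le_iInf₂ fun m hm => ?_
    obtain ⟨l, -, hle⟩ := ini_le hu F'
    have h2 : k (RO.pt q) ⊓ iniV t F' ≤ k (RO.pt q) ⊓ SpV (RanV F) u :=
      inf_le_inf_left _ (hle.trans (hsub l u))
    refine h2.trans ?_
    unfold SpV
    rw [inf_iSup₂_eq]
    refine iSup₂_le fun W hW => ?_
    have h3 : m ∈ W.sup id := hW.2.symm ▸ hm.1
    obtain ⟨w, hw, hmw⟩ := Finset.mem_sup.1 h3
    refine (inf_le_inf_left _ (iInf₂_le w hw)).trans ((hG w m hmw hm.2).trans ?_)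
    unfold SpV
    refine iSup₂_le fun W' hW' => ?_
    have h4 : m ∈ W'.sup id := hW'.2.symm ▸ hmw
    obtain ⟨w', hw', hmw'⟩ := Finset.mem_sup.1 h4
    exact (iInf₂_le w' hw').trans (le_iSup₂ (f := fun (u : Finset ℕ) (_ : m ∈ u) =>
      k (iota E0 (q.E u))) w' hmw')
  -- claim C
  have hC : k (RO.pt q) ⊓ iniV t F' ≤ k (iota E0 (⨅ u ∈ t, SpV E0 u)) := by
    simp only [CHom.map_iInf]
    refine le_iInf₂ fun u hu => ?_
    obtain ⟨l, -, hle⟩ := ini_le hu F'
    refine inf_le_right.trans (hle.trans ((hsub l u).trans ?_))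
    have h2 := SpV_trans ⊤ (RanV F) (fun u => k (iota E0 (E0 u))) u hRan
      (fun w hw hne => by
        refine inf_le_right.trans ?_
        unfold RanV
        refine iSup_le fun n => ?_
        have h3 := k.mono (hFNle n w)
        rwa [CHom.map_SpV, CHom.map_SpV] at h3)
    rw [top_inf_eq] at h2
    rw [CHom.map_SpV, CHom.map_SpV]
    exact h2
  -- absoluteness
  have hW : k (RO.pt q) ⊓ iniV t F' ≤ ((iota E0).comp k) (WV (fun r => vV D r q.E) q.E t) := by
    have h2 := k.mono ((iota E0).mono (hcap t hBt))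
    refine le_trans ?_ h2
    rw [CHom.map_inf, CHom.map_inf]
    exact le_inf hB hC
  have habs := hABS A B ((iota E0).comp k) (fun r => vV D r q.E) q.E F' t hBt hF'
  have hX : k (RO.pt q) ⊓ iniV t F' ≤
      (⨆ (r : L) (_ : t <+: r ∧ Blist r), (iniV r F' ⊓ ((iota E0).comp k) (vV D r q.E))) ⊓
      tailV t.length (fun u => k (iota E0 (q.E u))) F' :=
    le_inf (le_trans (le_inf (le_inf hW inf_le_right) hA) habs) hA
  refine hX.trans ?_
  rw [iSup₂_inf_eq]
  refine iSup₂_le fun r hr => ?_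
  unfold vV
  rw [CHom.map_iSup]
  simp only [CHom.map_iSup]
  rw [inf_iSup_eq, iSup_inf_eq]
  refine iSup_le fun q' => ?_
  rw [inf_iSup_eq, iSup_inf_eq]
  refine iSup_le fun hq' => ?_
  obtain ⟨hq'D, hq's, hq'E⟩ := hq'
  refine le_trans ?_ (le_iSup₂ (f := fun (q : Cd A E0) (_ : q ∈ D) =>
    gV ((iota E0).comp k) F' q) q' hq'D)
  unfold gV
  rw [hq's, hq'E]
  refine le_inf (le_inf (inf_le_left.trans inf_le_right) (inf_le_left.trans inf_le_left)) ?_
  refine inf_le_right.trans ?_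
  unfold tailV
  refine le_iInf fun i => le_iInf fun hi => ?_
  exact (iInf_le _ i).trans (iInf_le _ (hr.1.length_le.trans hi))

end Pool.Agent.CFZ
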