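import Pool.Agent.CFZ.Stmts

/-!
Squad CFZ, module GNF: a block sequence meeting all dense sets of Milliken forcing gives a
complete homomorphism.
-/

set_option autoImplicit false

namespace Pool.Agent.CFZ

namespace GNF_

section

variable {A B : Type} [CompleteBooleanAlgebra A] [CompleteBooleanAlgebra B]

/-! ### Facts about block sequences -/

theorem seq_disj {F : ℕ → Finset ℕ → B} (hF : SeqV F = ⊤) (n : ℕ) {u v : Finset ℕ} (h : u ≠ v) :
    F n u ⊓ F n v = ⊥ := by
  have h1 : SeqV F ≤ (F n u ⊓ F n v)ᶜ := by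
    unfold SeqV
    refine inf_le_left.trans (inf_le_left.trans (inf_le_right.trans ?_))
    exact iInf_le_of_le n (iInf_le_of_le u (iInf_le_of_le v (iInf_le _ h)))
  rw [hF, top_le_iff, compl_eq_top] at h1
  exact h1

theorem seq_empty {F : ℕ → Finset ℕ → B} (hF : SeqV F = ⊤) (n : ℕ) : F n ∅ = ⊥ := by
  have h1 : SeqV F ≤ (F n ∅)ᶜ := by
    unfold SeqV
    refine inf_le_left.trans (inf_le_right.trans ?_)
    exact iInf_le _ n
  rw [hF, top_le_iff, compl_eq_top] at h1
  exact h1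

theorem seq_top {F : ℕ → Finset ℕ → B} (hF : SeqV F = ⊤) (n : ℕ) : ⨆ u, F n u = ⊤ := by
  have h1 : SeqV F ≤ ⨆ u, F n u := by
    unfold SeqV
    refine inf_le_left.trans (inf_le_left.trans (inf_le_left.trans ?_))
    exact iInf_le _ n
  rw [hF, top_le_iff] at h1
  exact h1

theorem iniV_le (t : L) (F : ℕ → Finset ℕ → B) (i : ℕ) (hi : i < t.length) :
    iniV t F ≤ F i t[i] := iInf_le_of_le ⟨i, hi⟩ le_rfl

theorem prefix_get {s t : L} (h : s <+: t) (i : ℕ) (hi : i < s.length)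
    (hi' : i < t.length) : t[i] = s[i] := by
  obtain ⟨r, rfl⟩ := h
  exact List.getElem_append_left hi

theorem iniV_prefix {s t : L} (h : s <+: t) (F : ℕ → Finset ℕ → B) : iniV t F ≤ iniV s F := by
  refine le_iInf fun i => ?_
  have hi : i.1 < t.length := i.2.trans_le h.length_le
  have h1 := iniV_le t F i.1 hi
  rw [prefix_get h i.1 i.2 hi] at h1
  exact h1

theorem tailV_le (n : ℕ) (E : Finset ℕ → B) (F : ℕ → Finset ℕ → B) (i : ℕ) (hi : n ≤ i)
    (u : Finset ℕ) : F i u ⊓ tailV n E F ≤ SpV E u := by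
  have h1 : tailV n E F ≤ (F i u ⇨ SpV E u) := by
    unfold tailV
    exact iInf_le_of_le i (iInf_le_of_le hi (iInf_le _ u))
  rw [inf_comm]
  exact le_himp_iff.1 h1

/-- members of a block list with different indices differ -/
theorem blist_notMem {s t : L} (ht : Blist t) (hp : s <+: t) (i : ℕ) (hi : i < t.length)
    (hsi : s.length ≤ i) : t[i] ∉ s := by
  intro hm
  obtain ⟨j, hj, hjs⟩ := List.mem_iff_getElem.1 hm
  have hj' : j < t.length := hj.trans_le hp.length_le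
  have h1 := prefix_get hp j hj hj'
  have h2 : Lt t[j] t[i] := (List.pairwise_iff_getElem.1 ht.2) j i hj' hi (hj.trans_le hsi)
  rw [h1, hjs] at h2
  obtain ⟨x, hx⟩ := ht.1 _ (List.getElem_mem hi)
  exact lt_irrefl _ (h2 x hx x hx)

theorem idx_of_notMem {s t : L} (hp : s <+: t) {u : Finset ℕ} (hu : u ∈ t) (hus : u ∉ s) :
    ∃ (i : ℕ) (hi : i < t.length), t[i] = u ∧ s.length ≤ i := by
  obtain ⟨i, hi, h⟩ := List.mem_iff_getElem.1 hu
  refine ⟨i, hi, h, ?_⟩
  by_contra hc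
  push Not at hc
  apply hus
  rw [← h, prefix_get hp i hc hi]
  exact List.getElem_mem hc

/-! ### Monotonicity -/

variable {E0 : Finset ℕ → A} (k : CHom A B) (F : ℕ → Finset ℕ → B)

theorem gV_le_p (q : Cd A E0) : gV k F q ≤ k q.p := inf_le_left.trans inf_le_left
theorem gV_le_ini (q : Cd A E0) : gV k F q ≤ iniV q.s F := inf_le_left.trans inf_le_right
theorem gV_le_tail (q : Cd A E0) : gV k F q ≤ tailV q.s.length (fun u => k (q.E u)) F :=
  inf_le_right

theorem k_empty {E : Finset ℕ → A} (hE : BlkV E = ⊤) : k (E ∅) = ⊥ := by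
  rw [BlkV_empty hE, CHom.map_bot]

/-- the members of `F` beyond the stem lie beyond the stem -/
theorem gt_or {F : ℕ → Finset ℕ → B} (hF : SeqV F = ⊤)
    (hlt : ∀ n u v, ¬ Lt u v → ∀ m, n < m → F n u ⊓ F m v = ⊥) (t : L) (i : ℕ)
    (hi : t.length ≤ i) (u : Finset ℕ) : Gt t u ∨ F i u ⊓ iniV t F = ⊥ := by
  by_cases h0 : u = ∅
  · right
    rw [h0, seq_empty hF, bot_inf_eq]
  by_cases h1 : ∀ w ∈ t, Lt w u
  · exact Or.inl ⟨Finset.nonempty_iff_ne_empty.2 h0, h1⟩
  · right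
    push Not at h1
    obtain ⟨w, hw, hwu⟩ := h1
    obtain ⟨j, hj, rfl⟩ := List.mem_iff_getElem.1 hw
    rw [eq_bot_iff, ← hlt j t[j] u hwu i (hj.trans_le hi)]
    exact le_inf (inf_le_right.trans (iniV_le t F j hj)) inf_le_left

theorem gV_mono {F : ℕ → Finset ℕ → B} (hF : SeqV F = ⊤)
    (hlt : ∀ n u v, ¬ Lt u v → ∀ m, n < m → F n u ⊓ F m v = ⊥) {q' q : Cd A E0} (h : q' ≤ q) :
    gV k F q' ≤ gV k F q := by
  obtain ⟨h1, h2, h3, h4⟩ := Cd.le_def.1 h
  refine le_inf (le_inf ((gV_le_p k F q').trans (k.mono h1))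
    ((gV_le_ini k F q').trans (iniV_prefix h2 F))) ?_
  unfold tailV
  refine le_iInf fun i => le_iInf fun hi => le_iInf fun u => ?_
  rw [le_himp_iff]
  by_cases hi' : i < q'.s.length
  · by_cases hu : u = q'.s[i]
    · have hm : u ∉ q.s := by
        rw [hu]
        exact blist_notMem q'.hs h2 i hi' hi
      have h5 := h3 u (by rw [hu]; exact List.getElem_mem hi') hm
      refine inf_le_left.trans ((gV_le_p k F q').trans ((k.mono h5).trans ?_))
      rw [CHom.map_SpV]
    · have h5 : gV k F q' ⊓ F i u ≤ ⊥ := by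
        rw [← seq_disj hF i hu, inf_comm]
        exact inf_le_inf le_rfl ((gV_le_ini k F q').trans (iniV_le _ F i hi'))
      exact h5.trans bot_le
  · push Not at hi'
    rcases gt_or hF hlt q'.s i hi' u with hg | hg
    · have h5 : gV k F q' ⊓ F i u ≤ k q'.p ⊓ SpV (fun u => k (q'.E u)) u := by
        refine le_inf (inf_le_left.trans (gV_le_p k F q')) ?_
        rw [inf_comm]
        exact (inf_le_inf le_rfl (gV_le_tail k F q')).trans (tailV_le _ _ F i hi' u)
      refine h5.trans (SpV_trans _ _ _ u (k_empty k q'.hE) fun w hw hne => ?_)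
      have h6 := k.mono (h4 w (hg.mono hw hne))
      rw [CHom.map_inf, CHom.map_SpV] at h6
      exact h6
    · have h5 : gV k F q' ⊓ F i u ≤ ⊥ := by
        rw [← hg, inf_comm]
        exact inf_le_inf le_rfl (gV_le_ini k F q')
      exact h5.trans bot_le

/-! ### Common refinements -/

/-- value of: the spans of `E1` and `E2` meet arbitrarily far -/
def zV (E1 E2 : Finset ℕ → A) : A :=
  ⨅ n : ℕ, ⨆ (u : Finset ℕ) (_ : u.Nonempty ∧ ∀ i ∈ u, n < i), (SpV E1 u ⊓ SpV E2 u)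

theorem isB_zV {α : Type} [Nonempty α]
    {E1 E2 : ∀ (A : Type) [CompleteBooleanAlgebra A], (α → A) → Finset ℕ → A}
    (h : ∀ u, IsB (fun A _ v => E1 A v u)) (h' : ∀ u, IsB (fun A _ v => E2 A v u)) :
    IsB (fun A _ v => zV (E1 A v) (E2 A v)) := by
  unfold zV
  exact IsB.iInf fun n => IsB.iSup fun u => IsB.iSup fun _ =>
    (isB_SpV h u).inf (isB_SpV h' u)

/-- the Borel statement -/
def St {A : Type} [CompleteBooleanAlgebra A] (E1 E2 E' : Finset ℕ → A) : A :=
  BlkV E1 ⇨ (BlkV E' ⊓ LeV E' E1 ⊓ (zV E1 E2 ⇨ LeV E' E2))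

theorem isB_St : IsB (α := (Bool × Finset ℕ) ⊕ Finset ℕ)
    (fun _ _ v => St (fun u => v (Sum.inl (true, u))) (fun u => v (Sum.inl (false, u)))
      (fun u => v (Sum.inr u))) := by
  unfold St
  have h1 : ∀ u : Finset ℕ, IsB (α := (Bool × Finset ℕ) ⊕ Finset ℕ)
    (fun _ _ v => v (Sum.inl (true, u))) := fun u => IsB.atom _
  have h2 : ∀ u : Finset ℕ, IsB (α := (Bool × Finset ℕ) ⊕ Finset ℕ)
    (fun _ _ v => v (Sum.inl (false, u))) := fun u => IsB.atom _
  have h3 : ∀ u : Finset ℕ, IsB (α := (Bool × Finset ℕ) ⊕ Finset ℕ)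
    (fun _ _ v => v (Sum.inr u)) := fun u => IsB.atom _
  have : Nonempty ((Bool × Finset ℕ) ⊕ Finset ℕ) := ⟨Sum.inr ∅⟩
  exact (isB_BlkV h1).himp (((isB_BlkV h3).inf (isB_LeV h3 h1)).inf
    ((isB_zV h1 h2).himp (isB_LeV h3 h2)))

/-- the two-valued case: infinitely many blocks in the common span -/
theorem two_valued (E1 E2 : Finset ℕ → Prop) : ∃ E' : Finset ℕ → Prop, St E1 E2 E' := by
  by_cases hz : zV E1 E2
  · have hz' : ∀ n : ℕ, ∃ u : Finset ℕ, (u.Nonempty ∧ ∀ i ∈ u, n < i) ∧ SpV E1 u ∧ SpV E2 u := by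
      intro n
      have h1 := hz
      simp only [zV, iInf_Prop_eq, iSup_Prop_eq, exists_prop] at h1
      obtain ⟨u, hu, h2⟩ := h1 n
      exact ⟨u, hu, h2.1, h2.2⟩
    choose f hf using hz'
    -- the sequence of blocks
    let c : ℕ → Finset ℕ := fun n => Nat.rec (f 0) (fun _ w => f (w.sup id)) n
    have hc : ∀ n, c (n + 1) = f ((c n).sup id) := fun n => rfl
    have hmem : ∀ n, (c n).Nonempty ∧ SpV E1 (c n) ∧ SpV E2 (c n) := by
      intro n
      cases n with
      | zero => exact ⟨(hf 0).1.1, (hf 0).2⟩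
      | succ n => rw [hc]; exact ⟨(hf _).1.1, (hf _).2⟩
    have hstep : ∀ n, ∀ j ∈ c (n + 1), (c n).sup id < j := by
      intro n j hj
      rw [hc] at hj
      exact (hf _).1.2 j hj
    have hle : ∀ n, ∀ i ∈ c n, i ≤ (c n).sup id := fun n i hi => Finset.le_sup (f := id) hi
    have hsup : ∀ n, (c n).sup id < (c (n + 1)).sup id := by
      intro n
      obtain ⟨j, hj⟩ := (hmem (n + 1)).1
      exact (hstep n j hj).trans_le (hle (n + 1) j hj)
    have hmono : StrictMono (fun n => (c n).sup id) := strictMono_nat_of_lt_succ hsup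
    have hlt : ∀ n m, n < m → Lt (c n) (c m) := by
      intro n m hnm i hi j hj
      obtain ⟨m', rfl⟩ : ∃ m', m = m' + 1 := ⟨m - 1, by omega⟩
      exact (hle n i hi).trans_lt ((hmono.monotone (Nat.lt_succ_iff.1 hnm)).trans_lt
        (hstep m' j hj))
    refine ⟨fun u => ∃ n, c n = u, ?_⟩
    have hLe : ∀ E : Finset ℕ → Prop, (∀ n, SpV E (c n)) → LeV (fun u => ∃ n, c n = u) E := by
      intro E hE
      simp only [LeV, iInf_Prop_eq]
      rintro u ⟨n, rfl⟩
      exact hE n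
    have hB : BlkV (fun u => ∃ n, c n = u) := by
      simp only [BlkV, iInf_Prop_eq, iSup_Prop_eq, exists_prop]
      refine ⟨⟨?_, ?_⟩, ?_⟩
      · rintro ⟨n, hn⟩
        exact (hmem n).1.ne_empty hn
      · rintro u v huv ⟨⟨n, rfl⟩, ⟨m, rfl⟩⟩
        apply huv
        rcases lt_trichotomy n m with h | h | h
        · exact Or.inr (Or.inl (hlt _ _ h))
        · exact Or.inl (by rw [h])
        · exact Or.inr (Or.inr (hlt _ _ h))
      · intro n
        refine ⟨c (n + 1), fun j hj => ?_, n + 1, rfl⟩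
        exact (hmono.id_le n).trans_lt (hstep n j hj)
    intro _
    exact ⟨⟨hB, hLe E1 fun n => (hmem n).2.1⟩, fun _ => hLe E2 fun n => (hmem n).2.2⟩
  · refine ⟨E1, fun h => ⟨⟨h, ?_⟩, fun h' => absurd h' hz⟩⟩
    simp only [LeV, iInf_Prop_eq]
    intro u hu
    exact le_SpV E1 u hu

theorem exists_common (hBTP : Stmt_BTP) (E1 E2 : Finset ℕ → A) (h1 : BlkV E1 = ⊤) :
    ∃ E' : Finset ℕ → A, BlkV E' = ⊤ ∧ LeV E' E1 = ⊤ ∧ zV E1 E2 ≤ LeV E' E2 := by
  obtain ⟨E', hE'⟩ := hBTP (Bool × Finset ℕ) (Finset ℕ) _ isB_St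
    (fun X => two_valued (fun u => X (true, u)) (fun u => X (false, u))) A
    (fun p => bif p.1 then E1 p.2 else E2 p.2)
  have h2 : St E1 E2 E' = ⊤ := hE'
  unfold St at h2
  rw [h1, top_himp] at h2
  have h3 := h2.ge
  refine ⟨E', top_le_iff.1 (h3.trans (inf_le_left.trans inf_le_left)),
    top_le_iff.1 (h3.trans (inf_le_left.trans inf_le_right)), ?_⟩
  have h4 := h3.trans inf_le_right
  rwa [le_himp_iff, top_inf_eq] at h4

theorem LeV_le {E' E : Finset ℕ → A} (u : Finset ℕ) : LeV E' E ⊓ E' u ≤ SpV E u :=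
  le_himp_iff.1 (iInf_le _ u)

theorem LeV_trans {E'' E' E : Finset ℕ → A} (h0 : E' ∅ = ⊥) (h1 : LeV E'' E' = ⊤)
    (h2 : LeV E' E = ⊤) : LeV E'' E = ⊤ := by
  rw [eq_top_iff]
  refine le_iInf fun u => ?_
  rw [le_himp_iff, top_inf_eq]
  have h3 : E'' u ≤ SpV E' u := by
    have := LeV_le (E' := E'') (E := E') u
    rwa [h1, top_inf_eq] at this
  refine h3.trans ?_
  have h4 := SpV_trans ⊤ E' E u h0 fun w _ _ => by
    have := LeV_le (E' := E') (E := E) w
    rwa [h2] at this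
  rwa [top_inf_eq] at h4

/-! ### Compatibility -/

/-- conditions with a common value have comparable stems -/
theorem stems {F : ℕ → Finset ℕ → B} (hF : SeqV F = ⊤) (s t : L) (hst : s.length ≤ t.length)
    (h : iniV s F ⊓ iniV t F ≠ ⊥) : s <+: t := by
  have h1 : s = t.take s.length := by
    apply List.ext_getElem
    · simp [hst]
    · intro i hi hi'
      rw [List.getElem_take]
      by_contra hc
      apply h
      have hit : i < t.length := hi.trans_le hst
      rw [eq_bot_iff, ← seq_disj hF i hc]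
      exact inf_le_inf (iniV_le s F i hi) (iniV_le t F i hit)
  rw [h1]
  exact List.take_prefix _ _

theorem compat (hBTP : Stmt_BTP) (k : CHom A B) {F : ℕ → Finset ℕ → B} (hF : SeqV F = ⊤)
    (hR : BlkV (RanV F) = ⊤) (p q : Cd A E0) (hpq : p.s.length ≤ q.s.length)
    (h : gV k F p ⊓ gV k F q ≠ ⊥) : ∃ t : Cd A E0, t ≤ p ∧ t ≤ q := by
  have hs : p.s <+: q.s := by
    refine stems hF p.s q.s hpq fun hc => h ?_
    rw [eq_bot_iff, ← hc]
    exact inf_le_inf (gV_le_ini k F p) (gV_le_ini k F q)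
  obtain ⟨E', hE1, hE2, hE3⟩ := exists_common hBTP p.E q.E p.hE
  let a : A := (p.p ⊓ q.p) ⊓ (zV p.E q.E ⊓ ⨅ (u) (_ : u ∈ q.s ∧ u ∉ p.s), SpV p.E u)
  have hne : a ≠ ⊥ := by
    intro ha
    apply h
    have hk : k a = ⊥ := by rw [ha, CHom.map_bot]
    rw [eq_bot_iff, ← hk]
    simp only [a, CHom.map_inf, CHom.map_iInf]
    refine le_inf (inf_le_inf (gV_le_p k F p) (gV_le_p k F q)) (le_inf ?_ ?_)
    · -- the spans meet arbitrarily far
      unfold zV
      simp only [CHom.map_inf, CHom.map_iInf, CHom.map_iSup, CHom.map_SpV]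
      refine le_iInf fun n => ?_
      obtain ⟨N, hN⟩ : ∃ N : ℕ, ∀ u ∈ q.s, ∀ i ∈ u, i ≤ N := by
        refine ⟨(q.s.toFinset.sup id).sup id, fun u hu i hi => ?_⟩
        have h1 : u ≤ q.s.toFinset.sup id :=
          Finset.le_sup (f := id) (List.mem_toFinset.2 hu)
        exact Finset.le_sup (f := id) (h1 hi)
      have h1 : (⨆ (u : Finset ℕ) (_ : ∀ i ∈ u, max n N < i), RanV F u) = ⊤ := by
        rw [eq_top_iff, ← hR]
        unfold BlkV
        exact inf_le_right.trans (iInf_le _ _)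
      have h2 : gV k F p ⊓ gV k F q = (gV k F p ⊓ gV k F q) ⊓
          (⨆ (u : Finset ℕ) (_ : ∀ i ∈ u, max n N < i), RanV F u) := by
        rw [h1, inf_top_eq]
      rw [h2, inf_iSup₂_eq]
      refine iSup₂_le fun u hu => ?_
      unfold RanV
      rw [inf_iSup_eq]
      refine iSup_le fun m => ?_
      by_cases hu0 : u = ∅
      · rw [hu0, seq_empty hF, inf_bot_eq]
        exact bot_le
      have hun : u.Nonempty := Finset.nonempty_iff_ne_empty.2 hu0
      by_cases hm : m < q.s.length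
      · have hne : q.s[m] ≠ u := by
          intro hc
          obtain ⟨i, hi⟩ := hun
          have h3 := hN q.s[m] (List.getElem_mem hm) i (by rw [hc]; exact hi)
          have h4 := hu i hi
          exact absurd ((le_max_right n N).trans_lt h4) (not_lt.2 h3)
        have h5 : gV k F p ⊓ gV k F q ⊓ F m u ≤ ⊥ := by
          rw [← seq_disj hF m hne]
          exact inf_le_inf (inf_le_right.trans ((gV_le_ini k F q).trans (iniV_le _ F m hm)))
            le_rfl
        exact h5.trans bot_le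
      · push Not at hm
        refine le_iSup₂_of_le u ⟨hun, fun i hi => (le_max_left n N).trans_lt (hu i hi)⟩ ?_
        refine le_inf ?_ ?_
        · refine le_trans ?_ (tailV_le p.s.length (fun u => k (p.E u)) F m (hpq.trans hm) u)
          exact le_inf inf_le_right (inf_le_left.trans (inf_le_left.trans (gV_le_tail k F p)))
        · refine le_trans ?_ (tailV_le q.s.length (fun u => k (q.E u)) F m hm u)
          exact le_inf inf_le_right (inf_le_left.trans (inf_le_right.trans (gV_le_tail k F q)))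
    · refine le_iInf₂ fun u hu => ?_
      obtain ⟨i, hi, hiu, hpi⟩ := idx_of_notMem hs hu.1 hu.2
      rw [CHom.map_SpV]
      refine le_trans ?_ (tailV_le p.s.length (fun u => k (p.E u)) F i hpi u)
      refine le_inf (inf_le_right.trans ((gV_le_ini k F q).trans ?_))
        (inf_le_left.trans (gV_le_tail k F p))
      have h3 := iniV_le q.s F i hi
      rwa [hiu] at h3
  have hap : a ≤ p.p := inf_le_left.trans inf_le_left
  have haq : a ≤ q.p := inf_le_left.trans inf_le_right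
  have haz : a ≤ zV p.E q.E := inf_le_right.trans inf_le_left
  refine ⟨⟨a, q.s, E', hne, q.hs, hE1, LeV_trans (BlkV_empty p.hE) hE2 p.hE0,
    fun u hu => haq.trans (q.hs0 u hu)⟩, ?_, ?_⟩
  · refine Cd.le_def.2 ⟨hap, hs, ?_, ?_⟩
    · intro u hu hup
      exact inf_le_right.trans (inf_le_right.trans (iInf₂_le u ⟨hu, hup⟩))
    · intro u _
      have h1 := LeV_le (E' := E') (E := p.E) u
      rw [hE2, top_inf_eq] at h1
      exact inf_le_right.trans h1
  · refine Cd.le_def.2 ⟨haq, List.prefix_refl _, fun u hu hu' => absurd hu hu', ?_⟩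
    intro u _
    exact (inf_le_inf_right _ (haz.trans hE3)).trans (LeV_le u)

theorem compat' (hBTP : Stmt_BTP) (k : CHom A B) {F : ℕ → Finset ℕ → B} (hF : SeqV F = ⊤)
    (hR : BlkV (RanV F) = ⊤) (p q : Cd A E0) (h : gV k F p ⊓ gV k F q ≠ ⊥) :
    ∃ t : Cd A E0, t ≤ p ∧ t ≤ q := by
  rcases le_total p.s.length q.s.length with h1 | h1
  · exact compat hBTP k hF hR p q h1 h
  · obtain ⟨t, ht1, ht2⟩ := compat hBTP k hF hR q p h1 (by rwa [inf_comm])
    exact ⟨t, ht2, ht1⟩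

end

end GNF_

open GNF_ in
theorem gnf_proof (hBTP : Stmt_BTP) (hSQF : Stmt_SQF) (hFNP : Stmt_FNP) : Stmt_GNF := by
  intro A B _ _ k E0 F hE0 hF hD
  obtain ⟨-, -, hR, -, hlt, -, -⟩ := hSQF B F hF
  have hmono : ∀ q' q : Cd A E0, q' ≤ q → gV k F q' ≤ gV k F q :=
    fun q' q h => gV_mono k hF hlt h
  have hinc : ∀ p q : Cd A E0, (¬ ∃ t, t ≤ p ∧ t ≤ q) → gV k F p ⊓ gV k F q = ⊥ := by
    intro p q h
    by_contra hc
    exact h (compat' hBTP k hF hR p q hc)
  have h3 : ∀ D : Set (Cd A E0), (∀ p, ∃ q ≤ p, q ∈ D) → ⨆ p ∈ D, gV k F p = ⊤ := by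
    intro D hDd
    rw [eq_top_iff, ← hD {q | ∃ r ∈ D, q ≤ r} ⟨fun p => by
      obtain ⟨q, hq, hqD⟩ := hDd p
      exact ⟨q, hq, q, hqD, le_rfl⟩, fun p ⟨r, hr, hpr⟩ q hq => ⟨r, hr, hq.trans hpr⟩⟩]
    refine iSup₂_le fun q hq => ?_
    obtain ⟨r, hr, hqr⟩ := hq
    exact (hmono q r hqr).trans (le_iSup₂ (f := fun p (_ : p ∈ D) => gV k F p) r hr)
  have h2 : ∀ p q : Cd A E0,
      gV k F p ⊓ gV k F q ≤ ⨆ r, ⨆ (_ : r ≤ p ∧ r ≤ q), gV k F r := by
    intro p q
    have h4 := h3 ({r | r ≤ p ∧ r ≤ q} ∪ ({r | ¬ ∃ t, t ≤ r ∧ t ≤ p} ∪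
        {r | ¬ ∃ t, t ≤ r ∧ t ≤ q})) (by
      intro r
      by_cases h5 : ∃ t, t ≤ r ∧ t ≤ p
      · obtain ⟨t, htr, htp⟩ := h5
        by_cases h6 : ∃ t', t' ≤ t ∧ t' ≤ q
        · obtain ⟨t', htt, htq⟩ := h6
          exact ⟨t', htt.trans htr, Or.inl ⟨htt.trans htp, htq⟩⟩
        · exact ⟨t, htr, Or.inr (Or.inr h6)⟩
      · exact ⟨r, le_rfl, Or.inr (Or.inl h5)⟩)
    have h5 : gV k F p ⊓ gV k F q ≤ (gV k F p ⊓ gV k F q) ⊓ ⨆ r ∈ ({r | r ≤ p ∧ r ≤ q} ∪
        ({r | ¬ ∃ t, t ≤ r ∧ t ≤ p} ∪ {r | ¬ ∃ t, t ≤ r ∧ t ≤ q})), gV k F r := by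
      rw [h4, inf_top_eq]
    refine h5.trans ?_
    rw [inf_iSup₂_eq]
    refine iSup₂_le fun r hr => ?_
    rcases hr with hr | hr | hr
    · exact inf_le_right.trans (le_iSup₂ (f := fun r (_ : r ≤ p ∧ r ≤ q) => gV k F r) r hr)
    · have h6 : gV k F p ⊓ gV k F q ⊓ gV k F r ≤ ⊥ := by
        rw [← hinc r p hr]
        exact le_inf inf_le_right (inf_le_left.trans inf_le_left)
      exact h6.trans bot_le
    · have h6 : gV k F p ⊓ gV k F q ⊓ gV k F r ≤ ⊥ := by
        rw [← hinc r q hr]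
        exact le_inf inf_le_right (inf_le_left.trans inf_le_right)
      exact h6.trans bot_le
  let g : CHom (RO (Cd A E0)) B := CHom.ofGen (gV k F) h2 h3
  have hg : ∀ (U : RO (Cd A E0)), g U = ⨆ p ∈ U.s, gV k F p := fun U => rfl
  have hmem : ∀ (U : RO (Cd A E0)) (q : Cd A E0), q ∈ U.s → gV k F q ≤ g U := fun U q hq => by
    rw [hg]
    exact le_iSup₂ (f := fun p (_ : p ∈ U.s) => gV k F p) q hq
  refine ⟨g, fun q => hmem _ q (RO.mem_pt_self q), ?_, ?_⟩
  · have hle : ∀ a, g (iota E0 a) ≤ k a := by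
      intro a
      rw [hg]
      exact iSup₂_le fun q hq => (gV_le_p k F q).trans (k.mono hq)
    intro a
    refine le_antisymm (hle a) ?_
    have h4 := hle aᶜ
    rw [CHom.map_compl, CHom.map_compl, CHom.map_compl] at h4
    exact compl_le_compl_iff_le.1 h4
  · have hle : ∀ n u, g (FN E0 n u) ≤ F n u := by
      intro n u
      rw [hg]
      refine iSup₂_le fun p hp => ?_
      have h4 := h3 ({q | q.s[n]? = some u} ∪ {r | ¬ ∃ t, t ≤ r ∧ t ≤ p}) (by
        intro r
        by_cases h5 : ∃ t, t ≤ r ∧ t ≤ p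
        · obtain ⟨t, htr, htp⟩ := h5
          obtain ⟨t', ht', s, hs, hts⟩ := hp t htp
          refine ⟨t', ht'.trans htr, Or.inl ?_⟩
          have h6 := (Cd.le_def.1 hts).2.1
          have h7 : s.s[n]? = some u := hs
          obtain ⟨hn, h8⟩ := List.getElem?_eq_some_iff.1 h7
          show t'.s[n]? = some u
          have hn' : n < t'.s.length := hn.trans_le h6.length_le
          rw [List.getElem?_eq_getElem hn', prefix_get h6 n hn hn', h8]
        · exact ⟨r, le_rfl, Or.inr h5⟩)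
      have h5 : gV k F p ≤ gV k F p ⊓ ⨆ q ∈ ({q | q.s[n]? = some u} ∪
          {r | ¬ ∃ t, t ≤ r ∧ t ≤ p}), gV k F q := by
        rw [h4, inf_top_eq]
      refine h5.trans ?_
      rw [inf_iSup₂_eq]
      refine iSup₂_le fun r hr => ?_
      rcases hr with hr | hr
      · have h7 : r.s[n]? = some u := hr
        obtain ⟨hn, h8⟩ := List.getElem?_eq_some_iff.1 h7
        have h9 := iniV_le r.s F n hn
        rw [h8] at h9
        exact inf_le_right.trans ((gV_le_ini k F r).trans h9)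
      · rw [inf_comm, hinc r p hr]
        exact bot_le
    intro n u
    refine le_antisymm (hle n u) ?_
    have h4 : (⨆ v, FN E0 n v) = ⊤ := seq_top (hFNP A E0 hE0).1 n
    have h5 : (⨆ v, g (FN E0 n v)) = ⊤ := by
      rw [← CHom.map_iSup, h4, CHom.map_top]
    have h6 : F n u ≤ F n u ⊓ ⨆ v, g (FN E0 n v) := by
      rw [h5, inf_top_eq]
    refine h6.trans ?_
    rw [inf_iSup_eq]
    refine iSup_le fun v => ?_
    by_cases huv : u = v
    · rw [huv]; exact inf_le_right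
    · have h7 : F n u ⊓ g (FN E0 n v) ≤ ⊥ := by
        rw [← seq_disj hF n huv]
        exact inf_le_inf le_rfl (hle n v)
      exact h7.trans bot_le

end Pool.Agent.CFZ
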