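import Pool.Agent.CFZ.Stmts

/-!
Squad CFZ, module GNH: block subsequences of generic sequences give complete homomorphisms.
-/

set_option autoImplicit false

namespace Pool.Agent.CFZ

namespace GNH_

theorem map_SpV {A B : Type} [CompleteBooleanAlgebra A] [CompleteBooleanAlgebra B] (k : CHom A B)
    (E : Finset ℕ → A) (u : Finset ℕ) : k (SpV E u) = SpV (fun w => k (E w)) u := by
  unfold SpV
  simp

theorem seqV_empty {A : Type} [CompleteBooleanAlgebra A] {F : ℕ → Finset ℕ → A} (h : SeqV F = ⊤)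
    (n : ℕ) : F n ∅ = ⊥ := by
  have h1 : (⊤ : A) ≤ ⨅ n, (F n ∅)ᶜ := h ▸ inf_le_left.trans inf_le_right
  have h2 : (F n ∅)ᶜ = ⊤ := top_le_iff.1 (h1.trans (iInf_le _ n))
  rwa [compl_eq_top] at h2

end GNH_

open GNH_ in
theorem gnh_proof (hGNF : Stmt_GNF) (hGNE : Stmt_GNE) (hFNP : Stmt_FNP) : Stmt_GNH := by
  intro A B _ _ E0 k F' hE0 hF' hsub
  obtain ⟨g, hg1, hg2, hg3⟩ := hGNF A B ((iota E0).comp k) E0 F' hE0 hF'
    (hGNE A B E0 k F' hE0 hF' hsub)
  refine ⟨g, fun a => hg2 a, hg3, fun q hq => le_trans ?_ (hg1 q)⟩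
  obtain ⟨hs, hp, -⟩ := hFNP A E0 hE0
  obtain ⟨hp1, -, hp3⟩ := hp q
  have h1 : k (RO.pt q) ≤ k (iota E0 q.p) := k.mono hp1
  have h2 : ∀ (i : ℕ) (w : Finset ℕ), k (RO.pt q) ⊓ k (FN E0 i w) ≤
      SpV (fun u => k (iota E0 (q.E u))) w := by
    intro i w
    have h3 : RO.pt q ≤ (FN E0 i w ⇨ SpV (fun u => iota E0 (q.E u)) w) := by
      refine hp3.trans ?_
      unfold tailV
      rw [hq]
      exact (iInf₂_le i (Nat.zero_le _)).trans (iInf_le _ w)
    have h4 := k.mono (le_himp_iff.1 h3)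
    rwa [k.map_inf, map_SpV] at h4
  have h5 : ∀ (u : Finset ℕ), k (RO.pt q) ⊓ SpV (RanV fun n u => k (FN E0 n u)) u ≤
      SpV (fun u => k (iota E0 (q.E u))) u := by
    intro u
    refine SpV_trans _ _ _ u ?_ fun w _ _ => ?_
    · unfold RanV
      simp [seqV_empty hs]
    · unfold RanV
      rw [inf_iSup_eq]
      exact iSup_le fun n => h2 n w
  unfold gV
  refine le_inf (le_inf h1 ?_) ?_
  · unfold iniV
    rw [hq]
    refine le_iInf fun i => ?_
    exact i.elim0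
  · unfold tailV
    refine le_iInf₂ fun i _ => le_iInf fun u => ?_
    rw [le_himp_iff]
    exact (inf_le_inf_left _ (hsub i u)).trans (h5 u)

end Pool.Agent.CFZ
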