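import Pool.Agent.CFZ.Stmts

/-!
Squad CFZ, module HIN: the theorem of Hindman for blocks.
-/

set_option autoImplicit false

namespace Pool.Agent.CFZ

namespace HIN_

/-- finite sets with a bad element -/
inductive M : Type
  | bad : M
  | ok (u : Finset ℕ) : M

open Classical in
/-- the product: the union of increasing blocks -/
noncomputable def mul : M → M → M
  | .ok u, .ok v => if Lt u v then .ok (u ∪ v) else .bad
  | _, _ => .bad

theorem mul_pos {u v : Finset ℕ} (h : Lt u v) : mul (.ok u) (.ok v) = .ok (u ∪ v) := by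
  unfold mul
  exact if_pos h

theorem mul_neg {u v : Finset ℕ} (h : ¬ Lt u v) : mul (.ok u) (.ok v) = .bad := by
  unfold mul
  exact if_neg h

theorem mul_bad (u : M) : mul u .bad = .bad := by
  cases u <;> rfl

theorem bad_mul (u : M) : mul .bad u = .bad := by
  cases u <;> rfl

theorem Lt_union_left (u v w : Finset ℕ) : Lt (u ∪ v) w ↔ Lt u w ∧ Lt v w := by
  constructor
  · intro h
    exact ⟨fun i hi j hj => h i (Finset.mem_union_left _ hi) j hj,
      fun i hi j hj => h i (Finset.mem_union_right _ hi) j hj⟩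
  · rintro ⟨h1, h2⟩ i hi j hj
    rcases Finset.mem_union.1 hi with hi | hi
    · exact h1 i hi j hj
    · exact h2 i hi j hj

theorem Lt_union_right (u v w : Finset ℕ) : Lt u (v ∪ w) ↔ Lt u v ∧ Lt u w := by
  constructor
  · intro h
    exact ⟨fun i hi j hj => h i hi j (Finset.mem_union_left _ hj),
      fun i hi j hj => h i hi j (Finset.mem_union_right _ hj)⟩
  · rintro ⟨h1, h2⟩ i hi j hj
    rcases Finset.mem_union.1 hj with hj | hj
    · exact h1 i hi j hj
    · exact h2 i hi j hj

theorem mul_assoc' (a b c : M) : mul (mul a b) c = mul a (mul b c) := by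
  cases a with
  | bad => rw [bad_mul, bad_mul, bad_mul]
  | ok u =>
    cases b with
    | bad => rw [mul_bad, bad_mul, mul_bad]
    | ok v =>
      cases c with
      | bad => rw [mul_bad, mul_bad, mul_bad]
      | ok w =>
        by_cases h1 : Lt u v
        · by_cases h2 : Lt v w
          · rw [mul_pos h1, mul_pos h2]
            by_cases h3 : Lt u w
            · rw [mul_pos ((Lt_union_left u v w).2 ⟨h3, h2⟩),
                mul_pos ((Lt_union_right u v w).2 ⟨h1, h3⟩), Finset.union_assoc]
            · rw [mul_neg (fun h => h3 ((Lt_union_left u v w).1 h).1),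
                mul_neg (fun h => h3 ((Lt_union_right u v w).1 h).2)]
          · rw [mul_pos h1, mul_neg h2, mul_neg (fun h => h2 ((Lt_union_left u v w).1 h).2), mul_bad]
        · by_cases h2 : Lt v w
          · rw [mul_neg h1, mul_pos h2, mul_neg (fun h => h1 ((Lt_union_right u v w).1 h).1), bad_mul]
          · rw [mul_neg h1, mul_neg h2, bad_mul, mul_bad]

noncomputable instance : Semigroup M where
  mul := mul
  mul_assoc := mul_assoc'

theorem mul_def (a b : M) : a * b = mul a b := rfl

/-- finite products of an increasing stream are unions -/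
theorem fp_sub (b : Stream' M) (m : M) (h : m ∈ Hindman.FP b) :
    ∀ e : ℕ → Finset ℕ, (∀ i, b.get i = .ok (e i)) → (∀ i j, i < j → Lt (e i) (e j)) →
    ∃ W : Finset ℕ, W.Nonempty ∧ m = .ok (W.biUnion e) := by
  induction h with
  | head' b =>
    intro e he _
    exact ⟨{0}, by simp, by simpa using he 0⟩
  | tail' b m _ ih =>
    intro e he hlt
    obtain ⟨W, hW, hm⟩ := ih (fun i => e (i + 1)) (fun i => he (i + 1))
      (fun i j hij => hlt _ _ (by omega))
    refine ⟨W.image (fun i => i + 1), by simpa using hW, ?_⟩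
    rw [hm]
    congr 1
    ext x
    simp
  | cons' b m _ ih =>
    intro e he hlt
    obtain ⟨W, hW, hm⟩ := ih (fun i => e (i + 1)) (fun i => he (i + 1))
      (fun i j hij => hlt _ _ (by omega))
    refine ⟨insert 0 (W.image (fun i => i + 1)), by simp, ?_⟩
    have h0 : b.head = .ok (e 0) := he 0
    rw [hm, h0, mul_def, mul_pos]
    · congr 1
      ext x
      simp
    · intro i hi j hj
      simp only [Finset.mem_biUnion] at hj
      obtain ⟨k, _, hj⟩ := hj
      exact hlt 0 (k + 1) (by omega) i hi j hj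

/-- unions are finite products if no product is bad -/
theorem sub_fp (N : ℕ) : ∀ (b : Stream' M) (e : ℕ → Finset ℕ), (∀ i, b.get i = .ok (e i)) →
    (∀ m ∈ Hindman.FP b, m ≠ M.bad) → ∀ W : Finset ℕ, W.Nonempty → (∀ i ∈ W, i < N) →
    (M.ok (W.biUnion e)) ∈ Hindman.FP b := by
  induction N with
  | zero =>
    intro b e _ _ W hW h
    obtain ⟨i, hi⟩ := hW
    exact absurd (h i hi) (by omega)
  | succ N ih =>
    intro b e he hne W hW hN
    set W' : Finset ℕ := (W.erase 0).image (fun i => i - 1) with hW'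
    have hmem : ∀ i, i ∈ W' ↔ i + 1 ∈ W := by
      intro i
      rw [hW']
      simp only [Finset.mem_image, Finset.mem_erase]
      constructor
      · rintro ⟨j, ⟨h1, h2⟩, h3⟩
        have : j = i + 1 := by omega
        rwa [← this]
      · intro h
        exact ⟨i + 1, ⟨by omega, h⟩, by omega⟩
    have hu : W.biUnion e = (if 0 ∈ W then e 0 else ∅) ∪ W'.biUnion (fun i => e (i + 1)) := by
      ext x
      simp only [Finset.mem_biUnion, Finset.mem_union]
      constructor
      · rintro ⟨i, hi, hx⟩
        rcases i with _ | i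
        · left
          rw [if_pos hi]
          exact hx
        · right
          exact ⟨i, (hmem i).2 hi, hx⟩
      · rintro (hx | ⟨i, hi, hx⟩)
        · by_cases h0 : 0 ∈ W
          · rw [if_pos h0] at hx
            exact ⟨0, h0, hx⟩
          · rw [if_neg h0] at hx
            simp at hx
        · exact ⟨i + 1, (hmem i).1 hi, hx⟩
    have hnet : ∀ m ∈ Hindman.FP b.tail, m ≠ M.bad := fun m hm => hne m (Hindman.FP.tail b m hm)
    by_cases hW'e : W'.Nonempty
    · have h1 := ih b.tail (fun i => e (i + 1)) (fun i => he (i + 1)) hnet W' hW'e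
        (fun i hi => by have := hN _ ((hmem i).1 hi); omega)
      by_cases h0 : 0 ∈ W
      · have h2 := Hindman.FP.cons b _ h1
        have h3 := hne _ h2
        have h4 : b.head = .ok (e 0) := he 0
        rw [h4, mul_def] at h2 h3
        by_cases h5 : Lt (e 0) (W'.biUnion (fun i => e (i + 1)))
        · rw [mul_pos h5] at h2
          rw [hu, if_pos h0]
          exact h2
        · rw [mul_neg h5] at h3
          exact absurd rfl h3
      · rw [hu, if_neg h0, Finset.empty_union]
        exact Hindman.FP.tail b _ h1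
    · rw [Finset.not_nonempty_iff_eq_empty] at hW'e
      have h0 : 0 ∈ W := by
        obtain ⟨i, hi⟩ := hW
        rcases i with _ | i
        · exact hi
        · have := (hmem i).2 hi
          rw [hW'e] at this
          simp at this
      rw [hu, if_pos h0, hW'e, Finset.biUnion_empty, Finset.union_empty]
      have h4 : b.head = .ok (e 0) := he 0
      have h5 := Hindman.FP.head b
      rwa [h4] at h5

theorem blk_iff (E : Finset ℕ → Prop) : BlkV E ↔ (¬ E ∅) ∧
    (∀ u v, ¬ (u = v ∨ Lt u v ∨ Lt v u) → ¬ (E u ∧ E v)) ∧ ∀ n : ℕ, ∃ u, (∀ i ∈ u, n < i) ∧ E u := by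
  unfold BlkV
  simp only [inf_Prop_eq, iInf_Prop_eq, iSup_Prop_eq, compl_iff_not, and_assoc, exists_prop]

theorem sp_iff (E : Finset ℕ → Prop) (u : Finset ℕ) : SpV E u ↔
    ∃ W : Finset (Finset ℕ), (W.Nonempty ∧ W.sup id = u) ∧ ∀ w ∈ W, E w := by
  unfold SpV
  simp only [iInf_Prop_eq, iSup_Prop_eq, exists_prop]

theorem sp_of (E : Finset ℕ → Prop) (e : ℕ → Finset ℕ) (he : ∀ i, E (e i)) (W : Finset ℕ)
    (hW : W.Nonempty) : SpV E (W.biUnion e) := by
  classical
  rw [sp_iff]
  refine ⟨W.image e, ⟨hW.image e, ?_⟩, ?_⟩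
  · ext x
    simp [Finset.mem_sup]
  · intro w hw
    obtain ⟨i, _, rfl⟩ := Finset.mem_image.1 hw
    exact he i

end HIN_

open HIN_

theorem hin_proof : Stmt_HIN := by
  classical
  intro E χ hE
  obtain ⟨hE0, hE1, hE2⟩ := (blk_iff E).1 hE
  -- an increasing sequence of elements of `E`
  choose g hg1 hg2 using hE2
  let e : ℕ → Finset ℕ := fun n => Nat.rec (g 0) (fun _ u => g (u.sup id)) n
  have he : ∀ i, E (e i) := by
    intro i
    rcases i with _ | i
    · exact hg2 0
    · exact hg2 _
  have hne : ∀ u, E u → u.Nonempty := by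
    intro u hu
    rw [Finset.nonempty_iff_ne_empty]
    rintro rfl
    exact hE0 hu
  have hes : ∀ i, Lt (e i) (e (i + 1)) := by
    intro i x hx y hy
    have h1 : (e i).sup id < y := hg1 ((e i).sup id) y hy
    exact lt_of_le_of_lt (Finset.le_sup (f := id) hx) h1
  have trans : ∀ u v w : Finset ℕ, v.Nonempty → Lt u v → Lt v w → Lt u w := by
    rintro u v w ⟨y, hy⟩ h1 h2 x hx z hz
    exact (h1 x hx y hy).trans (h2 y hy z hz)
  have helt : ∀ i j, i < j → Lt (e i) (e j) := by
    intro i j hij
    obtain ⟨k, rfl⟩ := Nat.exists_eq_add_of_lt hij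
    clear hij
    induction k with
    | zero => exact hes i
    | succ k ih => exact trans _ _ _ (hne _ (he (i + k + 1))) ih (hes (i + k + 1))
  let a : Stream' M := fun i => .ok (e i)
  have ha : ∀ i, a.get i = .ok (e i) := fun i => rfl
  obtain ⟨c, hc, b, hb⟩ := Hindman.FP_partition_regular a
    {{m : M | ∃ u, m = .ok u ∧ SpV E u ∧ u.Nonempty ∧ χ u},
     {m : M | ∃ u, m = .ok u ∧ SpV E u ∧ u.Nonempty ∧ ¬ χ u}} (by simp) (by
      intro m hm
      obtain ⟨W, hW, rfl⟩ := fp_sub a m hm e ha helt
      have h1 := sp_of E e he W hW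
      have h2 : (W.biUnion e).Nonempty := by
        obtain ⟨i, hi⟩ := hW
        obtain ⟨x, hx⟩ := hne _ (he i)
        exact ⟨x, Finset.mem_biUnion.2 ⟨i, hi, hx⟩⟩
      by_cases h3 : χ (W.biUnion e)
      · exact Set.mem_sUnion.2 ⟨_, Or.inl rfl, ⟨_, rfl, h1, h2, h3⟩⟩
      · exact Set.mem_sUnion.2 ⟨_, Or.inr rfl, ⟨_, rfl, h1, h2, h3⟩⟩)
  have hcc : ∀ m ∈ c, ∃ u, m = .ok u ∧ SpV E u ∧ u.Nonempty := by
    intro m hm
    rcases hc with rfl | hc
    · obtain ⟨u, h1, h2, h3, _⟩ := hm
      exact ⟨u, h1, h2, h3⟩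
    · rw [Set.mem_singleton_iff] at hc
      subst hc
      obtain ⟨u, h1, h2, h3, _⟩ := hm
      exact ⟨u, h1, h2, h3⟩
  have hget : ∀ (i : ℕ) (b : Stream' M), b.get i ∈ Hindman.FP b := by
    intro i
    induction i with
    | zero => intro b; exact Hindman.FP.head b
    | succ i ih => intro b; exact Hindman.FP.tail b _ (ih b.tail)
  have hbi : ∀ i, ∃ u, b.get i = .ok u ∧ SpV E u ∧ u.Nonempty := fun i => hcc _ (hb (hget i b))
  choose f hf1 hf2 hf3 using hbi
  have hnn : ∀ m ∈ Hindman.FP b, m ≠ M.bad := by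
    intro m hm
    obtain ⟨u, rfl, -⟩ := hcc _ (hb hm)
    exact fun h => by cases h
  have hfl : ∀ i, Lt (f i) (f (i + 1)) := by
    have : ∀ (i : ℕ) (b : Stream' M), b.get i * b.get (i + 1) ∈ Hindman.FP b := by
      intro i
      induction i with
      | zero => intro b; exact Hindman.FP.cons b _ (Hindman.FP.head b.tail)
      | succ i ih => intro b; exact Hindman.FP.tail b _ (ih b.tail)
    intro i
    have h1 := hnn _ (this i b)
    rw [hf1, hf1, mul_def] at h1
    by_contra h2
    rw [mul_neg h2] at h1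
    exact h1 rfl
  have hflt : ∀ i j, i < j → Lt (f i) (f j) := by
    intro i j hij
    obtain ⟨k, rfl⟩ := Nat.exists_eq_add_of_lt hij
    clear hij
    induction k with
    | zero => exact hfl i
    | succ k ih => exact trans _ _ _ (hf3 (i + k + 1)) ih (hfl (i + k + 1))
  have hmin : ∀ i, ∀ x ∈ f (i + 1), i < x := by
    intro i
    induction i with
    | zero =>
      intro x hx
      obtain ⟨y, hy⟩ := hf3 0
      have := hfl 0 y hy x hx
      omega
    | succ i ih =>
      intro x hx
      obtain ⟨y, hy⟩ := hf3 (i + 1)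
      have h1 := ih y hy
      have h2 := hfl (i + 1) y hy x hx
      omega
  refine ⟨fun u => ∃ i, u = f i, ?_, ?_, ?_⟩
  · rw [blk_iff]
    refine ⟨?_, ?_, ?_⟩
    · rintro ⟨i, hi⟩
      obtain ⟨x, hx⟩ := hf3 i
      rw [← hi] at hx
      simp at hx
    · rintro u v huv ⟨⟨i, rfl⟩, ⟨j, rfl⟩⟩
      apply huv
      rcases lt_trichotomy i j with h | h | h
      · exact Or.inr (Or.inl (hflt i j h))
      · exact Or.inl (by rw [h])
      · exact Or.inr (Or.inr (hflt j i h))
    · intro n
      exact ⟨f (n + 1), hmin n, n + 1, rfl⟩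
  · show (⨅ u, _ : Prop)
    simp only [iInf_Prop_eq, himp_iff_imp]
    rintro u ⟨i, rfl⟩
    exact hf2 i
  · have hsp : ∀ u, SpV (fun u => ∃ i, u = f i) u → (M.ok u) ∈ c := by
      intro u hu
      obtain ⟨W, ⟨hW, rfl⟩, hWf⟩ := (sp_iff _ u).1 hu
      choose! k hk using hWf
      have h1 : W.sup id = (W.image k).biUnion f := by
        ext x
        simp only [Finset.mem_sup, id, Finset.mem_biUnion, Finset.mem_image]
        constructor
        · rintro ⟨w, hw, hx⟩
          refine ⟨k w, ⟨w, hw, rfl⟩, ?_⟩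
          rwa [← hk w hw]
        · rintro ⟨_, ⟨w, hw, rfl⟩, hx⟩
          refine ⟨w, hw, ?_⟩
          rwa [hk w hw]
      rw [h1]
      refine hb (sub_fp ((W.image k).sup id + 1) b f hf1 hnn _ (hW.image k) ?_)
      intro i hi
      exact Nat.lt_succ_of_le (Finset.le_sup (f := id) hi)
    rcases hc with rfl | hc
    · left
      intro u hu
      obtain ⟨u', h1, _, _, h4⟩ := hsp u hu
      have : u = u' := M.ok.inj h1
      rwa [this]
    · right
      rw [Set.mem_singleton_iff] at hc
      subst hc
      intro u hu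
      obtain ⟨u', h1, _, _, h4⟩ := hsp u hu
      have : u = u' := M.ok.inj h1
      rwa [this]

end Pool.Agent.CFZ
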