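import Pool.Agent.CFZ.Stmts

/-!
Squad CFZ, module HNA: the theorem of Hindman with values in a complete Boolean algebra.
-/

set_option autoImplicit false

namespace Pool.Agent.CFZ

namespace HNA_

/-- the transferred statement -/
def FF (A : Type) [CompleteBooleanAlgebra A]
    (v : (Finset ℕ ⊕ Finset ℕ) ⊕ (Finset ℕ ⊕ Unit) → A) : A :=
  BlkV (fun u => v (.inl (.inl u))) ⇨
    (BlkV (fun u => v (.inr (.inl u))) ⊓
      LeV (fun u => v (.inr (.inl u))) (fun u => v (.inl (.inl u))) ⊓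
      ⨅ u, ((v (.inr (.inr ())) ⊓ SpV (fun u => v (.inr (.inl u))) u ⇨ v (.inl (.inr u))) ⊓
        ((v (.inr (.inr ())))ᶜ ⊓ SpV (fun u => v (.inr (.inl u))) u ⇨ (v (.inl (.inr u)))ᶜ)))

theorem isB : IsB FF := by
  unfold FF
  refine IsB.himp (isB_BlkV fun u => IsB.atom _) ?_
  refine IsB.inf (IsB.inf (isB_BlkV fun u => IsB.atom _)
    (isB_LeV (fun u => IsB.atom _) (fun u => IsB.atom _))) ?_
  refine IsB.iInf fun u => IsB.inf ?_ ?_
  · exact IsB.himp (IsB.inf (IsB.atom _) (isB_SpV (fun u => IsB.atom _) u)) (IsB.atom _)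
  · exact IsB.himp (IsB.inf (IsB.compl (IsB.atom _)) (isB_SpV (fun u => IsB.atom _) u))
      (IsB.compl (IsB.atom _))

end HNA_

open HNA_ in
theorem hna_proof (hHIN : Stmt_HIN) (hBTP : Stmt_BTP) : Stmt_HNA := by
  classical
  intro A _ E χ hE
  obtain ⟨y, hy⟩ := hBTP (Finset ℕ ⊕ Finset ℕ) (Finset ℕ ⊕ Unit) FF isB (by
    intro X
    by_cases hX : BlkV (fun u => X (.inl u))
    · obtain ⟨E', h1, h2, h3⟩ := hHIN (fun u => X (.inl u)) (fun u => X (.inr u)) hX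
      refine ⟨Sum.elim E' (fun _ => ∀ u, SpV E' u → X (.inr u)), ?_⟩
      intro _
      refine ⟨⟨h1, h2⟩, ?_⟩
      rw [iInf_Prop_eq]
      intro u
      refine ⟨?_, ?_⟩
      · rintro ⟨h4, h5⟩
        exact h4 u h5
      · rintro ⟨h4, h5⟩
        rcases h3 with h3 | h3
        · exact absurd h3 h4
        · exact h3 u h5
    · exact ⟨fun _ => True, fun h => absurd h hX⟩) A (Sum.elim E χ)
  have h1 : BlkV (fun u => y (.inl u)) ⊓ LeV (fun u => y (.inl u)) E ⊓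
      (⨅ u, ((y (.inr ()) ⊓ SpV (fun u => y (.inl u)) u ⇨ χ u) ⊓
        ((y (.inr ()))ᶜ ⊓ SpV (fun u => y (.inl u)) u ⇨ (χ u)ᶜ))) = ⊤ := by
    have h2 : (BlkV E ⇨ (BlkV (fun u => y (.inl u)) ⊓ LeV (fun u => y (.inl u)) E ⊓
      (⨅ u, ((y (.inr ()) ⊓ SpV (fun u => y (.inl u)) u ⇨ χ u) ⊓
        ((y (.inr ()))ᶜ ⊓ SpV (fun u => y (.inl u)) u ⇨ (χ u)ᶜ))))) = ⊤ := hy
    rwa [hE, top_himp] at h2
  refine ⟨fun u => y (.inl u), y (.inr ()), ?_, ?_, fun u => ?_⟩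
  · exact top_le_iff.1 (h1 ▸ inf_le_left.trans inf_le_left)
  · exact top_le_iff.1 (h1 ▸ inf_le_left.trans inf_le_right)
  · have h3 : (⨅ u, ((y (.inr ()) ⊓ SpV (fun u => y (.inl u)) u ⇨ χ u) ⊓
        ((y (.inr ()))ᶜ ⊓ SpV (fun u => y (.inl u)) u ⇨ (χ u)ᶜ))) = ⊤ :=
      top_le_iff.1 (h1 ▸ inf_le_right)
    have h4 := (iInf_eq_top.1 h3) u
    rw [inf_eq_top_iff, himp_eq_top_iff, himp_eq_top_iff] at h4
    exact h4

end Pool.Agent.CFZ
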