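import Pool.Agent.CFZ.Stmts

set_option autoImplicit false

namespace Pool.Agent.CFZ

namespace LIM_

/-- threads -/
def Th (A : ℕ → Type) [∀ n, CompleteBooleanAlgebra (A n)] (h : ∀ n, CHom (A n) (A (n + 1)))
    (t : ∀ n, A n) : Prop :=
  ∀ n, t n ≠ ⊥ ∧ ∀ x, t n ≤ x ↔ t (n + 1) ≤ h n x

/-- the lower adjoint -/
def ex {A B : Type} [CompleteBooleanAlgebra A] [CompleteBooleanAlgebra B] (h : CHom A B) (x : B) :
    A := sInf {y | x ≤ h y}

theorem ex_le {A B : Type} [CompleteBooleanAlgebra A] [CompleteBooleanAlgebra B] (h : CHom A B)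
    (x : B) (y : A) : ex h x ≤ y ↔ x ≤ h y := by
  constructor
  · intro H
    refine le_trans ?_ (h.mono H)
    have : ex h x = ⨅ z : {y | x ≤ h y}, z.1 := sInf_eq_iInf' _
    rw [this, CHom.map_iInf]
    exact le_iInf fun z => z.2
  · intro H
    exact sInf_le H

theorem lift (n : ℕ) : ∀ (A : ℕ → Type) [∀ n, CompleteBooleanAlgebra (A n)]
    (h : ∀ n, CHom (A n) (A (n + 1))) (t : ∀ n, A n), Th A h t → ∀ b : A n, b ≤ t n → b ≠ ⊥ →
    ∃ t' : ∀ n, A n, Th A h t' ∧ (∀ m, t' m ≤ t m) ∧ t' n = b := by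
  induction n with
  | zero =>
    intro A _ h t ht b hb hb0
    let t' : ∀ n, A n := fun n => Nat.rec b (fun m y => t (m + 1) ⊓ h m y) n
    have hs : ∀ m, t' (m + 1) = t (m + 1) ⊓ h m (t' m) := fun m => rfl
    have hle : ∀ m, t' m ≤ t m := by
      intro m
      cases m with
      | zero => exact hb
      | succ m => rw [hs]; exact inf_le_left
    have hx : ∀ m x, t' m ≤ x ↔ t' (m + 1) ≤ h m x := by
      intro m x
      rw [hs]
      constructor
      · intro H
        exact inf_le_right.trans ((h m).mono H)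
      · intro H
        have h1 : t (m + 1) ≤ h m ((t' m)ᶜ ⊔ x) := by
          rw [CHom.map_sup, CHom.map_compl, sup_comm, ← himp_eq, le_himp_iff]
          exact H
        rw [← (ht m).2, sup_comm, ← himp_eq, le_himp_iff, inf_eq_right.2 (hle m)] at h1
        exact h1
    have hne : ∀ m, t' m ≠ ⊥ := by
      intro m
      induction m with
      | zero => exact hb0
      | succ m ih =>
        intro h0
        apply ih
        rw [eq_bot_iff, hx, h0]
        exact bot_le
    exact ⟨t', fun m => ⟨hne m, hx m⟩, hle, rfl⟩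
  | succ n ih =>
    intro A _ h t ht b hb hb0
    obtain ⟨s, hs, hsle, hsn⟩ := ih (fun k => A (k + 1)) (fun k => h (k + 1)) (fun k => t (k + 1))
      (fun k => ht (k + 1)) b hb hb0
    let t' : ∀ n, A n := fun m => match m with
      | 0 => ex (h 0) (s 0)
      | k + 1 => s k
    refine ⟨t', ?_, ?_, hsn⟩
    · intro m
      cases m with
      | zero =>
        refine ⟨?_, fun x => ex_le (h 0) (s 0) x⟩
        intro h0
        have h1 : ex (h 0) (s 0) ≤ ⊥ := le_of_eq h0
        rw [ex_le, CHom.map_bot] at h1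
        exact (hs 0).1 (le_bot_iff.1 h1)
      | succ m => exact hs m
    · intro m
      cases m with
      | zero =>
        show ex (h 0) (s 0) ≤ t 0
        rw [ex_le]
        exact (hsle 0).trans (((ht 0).2 _).1 le_rfl)
      | succ m => exact hsle m

end LIM_

open LIM_ in
theorem lim_proof : Stmt_LIM := by
  intro A _ _ h hinj
  have htop : Th A h (fun _ => ⊤) := by
    intro n
    refine ⟨top_ne_bot, fun x => ?_⟩
    constructor
    · intro H
      rw [top_le_iff.1 H, CHom.map_top]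
    · intro H
      have h1 : h n xᶜ = ⊥ := by
        rw [CHom.map_compl, top_le_iff.1 H, compl_top]
      have h2 := hinj n _ h1
      rw [top_le_iff]
      exact compl_eq_bot.1 h2
  let P : Type := {t : ∀ n, A n // Th A h t}
  have hne : Nonempty P := ⟨⟨_, htop⟩⟩
  have hπ2 : ∀ (n : ℕ) (p : P) (a : A n), a ≤ p.1 n → a ≠ ⊥ → ∃ q ≤ p, q.1 n ≤ a := by
    intro n p a ha ha0
    obtain ⟨t', h1, h2, h3⟩ := lift n A h p.1 p.2 a ha ha0
    exact ⟨⟨t', h1⟩, h2, h3.le⟩
  have hπ1 : ∀ (n : ℕ) (p q : P), p ≤ q → p.1 n ≤ q.1 n := fun n p q hpq =>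
    (show p.1 ≤ q.1 from hpq) n
  refine ⟨RO P, inferInstance, inferInstance, fun n => CHom.ofProj (fun p : P => p.1 n)
    (fun p => (p.2 n).1) (hπ1 n) (hπ2 n), ?_, ?_⟩
  · intro n x
    ext p
    rw [CHom.ofProj_mem, CHom.ofProj_mem]
    exact ((p.2 n).2 x).symm
  · intro n x hx
    by_contra h0
    obtain ⟨t', h1, h2, h3⟩ := lift n A h _ htop x le_top h0
    have h4 : (⟨t', h1⟩ : P) ∈ (CHom.ofProj (fun p : P => p.1 n)
      (fun p => (p.2 n).1) (hπ1 n) (hπ2 n) x).s := by
      rw [CHom.ofProj_mem]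
      exact h3.le
    rw [hx] at h4
    exact RO.not_mem_bot h4

end Pool.Agent.CFZ
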