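import Pool.Agent.CFZ.Stmts

set_option autoImplicit false

namespace Pool.Agent.CFZ

open CategoryTheory

theorem lob_proof (hLIM : Stmt_LIM) (hPSI : Stmt_PSI) : Stmt_LOB := by
  intro c h hInj
  obtain ⟨T, hT, hnt, k, hk, hki⟩ := hLIM (fun n => (c n).A) (fun n => (h n).h)
    (fun n x hx => hInj n x hx)
  have hinf : ∀ n, InfV (fun m => k n ((c n).a m)) = ⊤ := by
    intro n
    rw [← CHom.map_InfV (k n) (c n).a, (c n).inf, CHom.map_top]
  have halm : ∀ n, AlmV (fun m => k (n + 1) ((c (n + 1)).a m)) (fun m => k n ((c n).a m)) = ⊤ := by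
    intro n
    have h1 : (fun m => k n ((c n).a m)) = fun m => k (n + 1) ((h n).h ((c n).a m)) := by
      funext m
      exact (hk n ((c n).a m)).symm
    rw [h1, ← CHom.map_AlmV (k (n + 1)) (c (n + 1)).a (fun m => (h n).h ((c n).a m)), (h n).alm,
      CHom.map_top]
  obtain ⟨b, hb1, hb2⟩ := hPSI T (fun n m => k n ((c n).a m)) hinf halm
  refine ⟨⟨T, b, hb1⟩, fun n => ⟨k n, hb2 n⟩, fun n => ?_, fun n => ?_⟩
  · exact Ob.hom_ext _ _ fun x => hk n x
  · exact hki n

end Pool.Agent.CFZ
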