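import Pool.Agent.CFZ.Stmts

/-!
Squad CFZ, module LSK: two-valued homomorphisms respecting countably many Borel formulas.
-/

set_option autoImplicit false

namespace Pool.Agent.CFZ

namespace LSK_

variable {α A : Type} [CompleteBooleanAlgebra A]

/-- the families of the subformulas -/
def fam (x : α → A) : BF α → List ℕ → Set A
  | .atom _, _ => ∅
  | .neg φ, l => fam x φ l
  | .sup f, [] => Set.range fun n => (f n).val x
  | .sup f, n :: l => fam x (f n) l

theorem key (x : α → A) (v : A → Prop) (hinf : ∀ x y, v (x ⊓ y) ↔ (v x ∧ v y))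
    (hc : ∀ x, v xᶜ ↔ ¬ v x) (φ : BF α)
    (h : ∀ l, v (sSup (fam x φ l)) → ∃ a ∈ fam x φ l, v a) :
    v (φ.val x) ↔ φ.val (fun i => v (x i)) := by
  induction φ with
  | atom a => exact Iff.rfl
  | neg φ ih =>
    have ih := ih (fun l => h l)
    show v (φ.val x)ᶜ ↔ (φ.val (fun i => v (x i)))ᶜ
    rw [hc, ih]
    exact Iff.rfl
  | sup f ih =>
    have ih : ∀ n, v ((f n).val x) ↔ (f n).val (fun i => v (x i)) :=
      fun n => ih n (fun l => h (n :: l))
    show v (⨆ n, (f n).val x) ↔ ⨆ n, (f n).val (fun i => v (x i))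
    rw [iSup_Prop_eq]
    constructor
    · intro hv
      obtain ⟨_, ⟨n, rfl⟩, hn⟩ := h [] hv
      exact ⟨n, (ih n).1 hn⟩
    · rintro ⟨n, hn⟩
      have h1 := (ih n).2 hn
      have h2 : (f n).val x = (f n).val x ⊓ ⨆ n, (f n).val x :=
        (inf_eq_left.2 (le_iSup (fun n => (f n).val x) n)).symm
      rw [h2] at h1
      exact ((hinf _ _).1 h1).2

end LSK_

open LSK_ in
theorem lsk_proof (hRSU : Stmt_RSU) : Stmt_LSK := by
  intro α A _ x Φ b S hb
  obtain ⟨e, he⟩ := exists_surjective_nat (ℕ ⊕ (ℕ × List ℕ))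
  obtain ⟨v, h1, h2, h3, h4, h5⟩ := hRSU A b
    (fun n => (Sum.elim (β := ℕ × List ℕ) S (fun p => LSK_.fam x (Φ p.1) p.2) (e n) : Set A)) hb
  refine ⟨v, h1, h2, h3, h4, fun n hn => ?_, fun n => key x v h3 h4 (Φ n) fun l hl => ?_⟩
  · obtain ⟨m, hm⟩ := he (Sum.inl n)
    have := h5 m
    rw [hm] at this
    exact this hn
  · obtain ⟨m, hm⟩ := he (Sum.inr (n, l))
    have := h5 m
    rw [hm] at this
    exact this hl

end Pool.Agent.CFZ
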