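import Pool.Agent.CFZ.Stmts

/-!
Squad CFZ, module LSP: Borel statements which hold for `Prop` hold for every complete Boolean
algebra.
-/

set_option autoImplicit false

namespace Pool.Agent.CFZ

theorem lsp_proof (hLSK : Stmt_LSK) : Stmt_LSP := by
  intro α F hF hP A _ x
  obtain ⟨φ, hφ⟩ := hF
  by_contra hne
  have hb : (F A x)ᶜ ≠ ⊥ := by
    intro h
    exact hne (compl_eq_bot.1 h)
  obtain ⟨v, hvb, -, -, hvc, -, hvΦ⟩ := hLSK α A x (fun _ => φ) (F A x)ᶜ (fun _ => ∅) hb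
  have h1 : ¬ v (F A x) := (hvc _).1 hvb
  have h2 : φ.val (fun i => v (x i)) := by
    have h3 := hP (fun i => v (x i))
    rwa [hφ Prop] at h3
  apply h1
  rw [hφ A x]
  exact (hvΦ 0).2 h2

end Pool.Agent.CFZ
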