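import Pool.Agent.CFZ.Stmts

/-!
Squad CFZ, module MIX: a dense open family of extensions is met on a partition by one injective
extension.
-/

set_option autoImplicit false

namespace Pool.Agent.CFZ

open CategoryTheory

namespace MIX_

/-- the support of an arrow -/
theorem support {c d : Ob} (h : c ⟶ d) : ∃ u : c.A, h.h u = ⊤ ∧ u ≠ ⊥ ∧
    (∀ x, h.h x = ⊤ → u ≤ x) ∧ ∀ x, h.h x = ⊥ ↔ x ⊓ u = ⊥ := by
  have h1 : h.h (sInf {x | h.h x = ⊤}) = ⊤ := by
    rw [sInf_eq_iInf]
    simp only [CHom.map_iInf]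
    exact iInf₂_eq_top.2 fun x hx => hx
  refine ⟨sInf {x | h.h x = ⊤}, h1, ?_, fun x hx => sInf_le hx,
    fun x => ⟨fun hx => ?_, fun hx => ?_⟩⟩
  · intro h2
    rw [h2, CHom.map_bot] at h1
    exact bot_ne_top h1
  · have h2 : sInf {x | h.h x = ⊤} ≤ xᶜ := sInf_le (by
      show h.h xᶜ = ⊤
      rw [CHom.map_compl, hx, compl_bot])
    rw [← le_bot_iff]
    exact (inf_le_inf_left x h2).trans (by rw [inf_compl_self])
  · have h2 := congrArg h.h hx
    rw [CHom.map_inf, h1, inf_top_eq, CHom.map_bot] at h2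
    exact h2

section pi

variable {I : Type} (d : I → Ob)

theorem pi_inf : InfV (A := ∀ i, (d i).A) (fun m i => (d i).a m) = ⊤ := by
  funext i
  have h := (d i).inf
  unfold InfV at h ⊢
  simpa [iInf_apply, iSup_apply] using h

/-- the product of stages -/
noncomputable def piOb [hI : Nonempty I] : Ob where
  A := ∀ i, (d i).A
  nt := ⟨⟨⊥, ⊤, fun h => bot_ne_top (congrFun h hI.some)⟩⟩
  a := fun m i => (d i).a m
  inf := pi_inf d

/-- the diagonal arrow -/
noncomputable def piHom [Nonempty I] {c : Ob} (h : ∀ i, c ⟶ d i) : c ⟶ piOb d where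
  h :=
    { f := fun x i => (h i).h x
      map_sSup' := by
        intro s
        funext i
        show (h i).h (sSup s) = (sSup ((fun x i => (h i).h x) '' s) : ∀ i, (d i).A) i
        rw [sSup_apply_eq_sSup_image, Set.image_image, CHom.map_sSup]
      map_compl' := by
        intro x
        funext i
        exact (h i).h.map_compl x }
  alm := by
    show AlmV (A := ∀ i, (d i).A) (fun m i => (d i).a m) (fun m i => (h i).h (c.a m)) = ⊤
    funext i
    have h1 := (h i).alm
    unfold AlmV at h1 ⊢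
    simpa [iInf_apply, iSup_apply] using h1

open Classical in
/-- the members of the partition -/
noncomputable def uu (i : I) : ∀ j, (d j).A := Function.update ⊥ i ⊤

theorem uu_self (i : I) : uu d i i = ⊤ := by
  classical
  simp [uu]

theorem uu_ne {i j : I} (h : j ≠ i) : uu d i j = ⊥ := by
  classical
  simp [uu, Function.update_of_ne h]

open Classical in
theorem upd_eq (i : I) (y : ∀ j, (d j).A) :
    (Function.update ⊥ i (y i) : ∀ j, (d j).A) = y ⊓ uu d i := by
  funext j
  by_cases hj : j = i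
  · subst hj
    simp [uu]
  · simp [uu, Function.update_of_ne hj]

open Classical in
/-- an arrow from the product which sends `uu i` to the top factors over the `i`-th stage -/
noncomputable def fac [Nonempty I] {e : Ob} (k : piOb d ⟶ e) (i : I)
    (hk : k.h (uu d i : (piOb d).A) = ⊤) : d i ⟶ e where
  h :=
    { f := fun y => k.h (Function.update ⊥ i y : ∀ j, (d j).A)
      map_sSup' := by
        intro s
        have h1 : (Function.update ⊥ i (sSup s) : ∀ j, (d j).A) =
            sSup ((fun y => (Function.update ⊥ i y : ∀ j, (d j).A)) '' s) := by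
          funext j
          rw [sSup_apply_eq_sSup_image, Set.image_image]
          by_cases hj : j = i
          · subst hj
            simp
          · simp only [Function.eval, Function.update_of_ne hj, Pi.bot_apply]
            symm
            rw [eq_bot_iff]
            apply sSup_le
            rintro _ ⟨y, hy, rfl⟩
            exact le_rfl
        show k.h (Function.update ⊥ i (sSup s) : ∀ j, (d j).A) = _
        rw [h1]
        have h2 := CHom.map_sSup k.h
          ((fun y => (Function.update ⊥ i y : ∀ j, (d j).A)) '' s : Set (piOb d).A)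
        exact h2.trans (congrArg sSup (Set.image_image _ _ _))
      map_compl' := by
        intro y
        have h1 : (Function.update ⊥ i yᶜ : ∀ j, (d j).A) =
            (Function.update ⊥ i y : ∀ j, (d j).A)ᶜ ⊓ uu d i := by
          rw [← upd_eq]
          congr 1
          simp
        show k.h (Function.update ⊥ i yᶜ : ∀ j, (d j).A) = _
        rw [h1]
        have h2 := CHom.map_inf k.h
          ((Function.update ⊥ i y : ∀ j, (d j).A)ᶜ : (piOb d).A) (uu d i : (piOb d).A)
        rw [hk, inf_top_eq] at h2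
        refine h2.trans ?_
        exact CHom.map_compl k.h _ }
  alm := by
    have h1 := k.alm
    have h2 : (fun m => k.h ((piOb d).a m)) =
        fun m => k.h (Function.update ⊥ i ((d i).a m) : ∀ j, (d j).A) := by
      funext m
      have h3 := upd_eq d i ((piOb d).a m)
      have h4 : (Function.update ⊥ i ((d i).a m) : ∀ j, (d j).A) = _ := h3
      rw [h4]
      have h5 := CHom.map_inf k.h ((piOb d).a m) (uu d i : (piOb d).A)
      rw [hk, inf_top_eq] at h5
      exact h5.symm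
    rw [h2] at h1
    exact h1

theorem fac_comp [Nonempty I] {c e : Ob} (h : ∀ i, c ⟶ d i) (k : piOb d ⟶ e) (i : I)
    (hk : k.h (uu d i : (piOb d).A) = ⊤) : h i ≫ fac d k i hk = piHom d h ≫ k := by
  classical
  apply Ob.hom_ext
  intro x
  show k.h (Function.update ⊥ i ((h i).h x) : ∀ j, (d j).A) = k.h ((piHom d h).h x)
  have h3 := upd_eq d i ((piHom d h).h x)
  have h4 : (Function.update ⊥ i ((h i).h x) : ∀ j, (d j).A) = _ := h3
  rw [h4]
  have h5 := CHom.map_inf k.h ((piHom d h).h x) (uu d i : (piOb d).A)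
  rw [hk, inf_top_eq] at h5
  exact h5

end pi

/-- maximal antichains -/
theorem antichain {A : Type} [CompleteBooleanAlgebra A] (W : Set A)
    (hd : ∀ u0 : A, u0 ≠ ⊥ → ∃ u ∈ W, u ≤ u0 ∧ u ≠ ⊥) :
    ∃ M : Set A, M ⊆ W ∧ (∀ u ∈ M, ∀ v ∈ M, u ≠ v → u ⊓ v = ⊥) ∧ sSup M = ⊤ := by
  obtain ⟨M, hM⟩ := zorn_subset
    {M : Set A | M ⊆ W ∧ ∀ u ∈ M, ∀ v ∈ M, u ≠ v → u ⊓ v = ⊥} (by
      intro S hS hch
      refine ⟨⋃₀ S, ⟨?_, ?_⟩, fun s hs => Set.subset_sUnion_of_mem hs⟩
      · exact Set.sUnion_subset fun s hs => (hS hs).1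
      · rintro u ⟨s, hs, hus⟩ v ⟨t, ht, hvt⟩ huv
        rcases hch.total hs ht with h | h
        · exact (hS ht).2 u (h hus) v hvt huv
        · exact (hS hs).2 u hus v (h hvt) huv)
  refine ⟨M, hM.prop.1, hM.prop.2, ?_⟩
  by_contra hne
  have h1 : (sSup M)ᶜ ≠ ⊥ := by
    intro h
    apply hne
    rw [← compl_compl (sSup M), h, compl_bot]
  obtain ⟨u, huW, hu, hu0⟩ := hd _ h1
  have hdis : ∀ v ∈ M, u ⊓ v = ⊥ := by
    intro v hv
    rw [← le_bot_iff, ← compl_inf_self (sSup M)]
    exact inf_le_inf hu (le_sSup hv)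
  have h2 : insert u M ∈ {M : Set A | M ⊆ W ∧ ∀ u ∈ M, ∀ v ∈ M, u ≠ v → u ⊓ v = ⊥} := by
    refine ⟨Set.insert_subset huW hM.prop.1, ?_⟩
    rintro x (rfl | hx) y (rfl | hy) hxy
    · exact absurd rfl hxy
    · exact hdis y hy
    · rw [inf_comm]
      exact hdis x hx
    · exact hM.prop.2 x hx y hy hxy
  have h3 : insert u M ⊆ M := hM.le_of_ge h2 (Set.subset_insert u M)
  have h4 := hdis u (h3 (Set.mem_insert u M))
  rw [inf_idem] at h4
  exact hu0 h4

end MIX_

theorem mix_proof (hRST : Stmt_RST) : Stmt_MIX := by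
  classical
  intro c D hop hden
  let W : Set c.A := {u | u ≠ ⊥ ∧ ∃ (d : Ob) (h : c ⟶ d), D d h ∧ ∀ x, h.h x = ⊥ ↔ x ⊓ u = ⊥}
  have hW : ∀ u0 : c.A, u0 ≠ ⊥ → ∃ u ∈ W, u ≤ u0 ∧ u ≠ ⊥ := by
    intro u0 hu0
    obtain ⟨e0, k0, hk0, -⟩ := hRST c u0 hu0
    obtain ⟨e1, k1, hD⟩ := hden e0 k0
    obtain ⟨u, h1, h2, h3, h4⟩ := MIX_.support (k0 ≫ k1)
    refine ⟨u, ⟨h2, e1, k0 ≫ k1, hD, h4⟩, h3 u0 ?_, h2⟩
    rw [Ob.comp_h, hk0, CHom.map_top]
  obtain ⟨M, hMW, hdis, hsup⟩ := MIX_.antichain W hW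
  have hne : Nonempty M := by
    by_contra hcon
    rw [not_nonempty_iff, Set.isEmpty_coe_sort] at hcon
    rw [hcon, sSup_empty] at hsup
    exact bot_ne_top hsup
  choose d h hD hbot using fun i : M => (hMW i.2).2
  refine ⟨MIX_.piOb d, MIX_.piHom d h, M, fun i => (MIX_.uu d i : ∀ j, (d j).A), ?_, ?_, ?_, ?_, ?_⟩
  · intro x hx
    have h1 : ∀ i : M, x ⊓ i.1 = ⊥ := fun i => (hbot i x).1 (congrFun hx i)
    have h2 : x ⊓ sSup M = ⊥ := by
      rw [inf_sSup_eq, eq_bot_iff]
      exact iSup₂_le fun v hv => (h1 ⟨v, hv⟩).le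
    rw [hsup, inf_top_eq] at h2
    exact h2
  · intro i hi
    have h1 : MIX_.uu d i i = ⊥ := congrFun hi i
    rw [MIX_.uu_self] at h1
    exact bot_ne_top h1.symm
  · intro i j hij
    show (MIX_.uu d i ⊓ MIX_.uu d j : ∀ j, (d j).A) = ⊥
    funext l
    by_cases hl : l = i
    · subst hl
      rw [Pi.inf_apply, MIX_.uu_ne d hij, inf_bot_eq, Pi.bot_apply]
    · rw [Pi.inf_apply, MIX_.uu_ne d hl, bot_inf_eq, Pi.bot_apply]
  · show (⨆ i, MIX_.uu d i : ∀ j, (d j).A) = ⊤
    funext l
    rw [iSup_apply, Pi.top_apply, eq_top_iff]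
    refine le_iSup_of_le l ?_
    rw [MIX_.uu_self]
  · intro e k i hi
    have h1 := MIX_.fac_comp d h k i hi
    rw [← h1]
    exact hop (d i) e (h i) (MIX_.fac d k i hi) (hD i)

end Pool.Agent.CFZ
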