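import Pool.Agent.CFZ.Stmts

/-!
Squad CFZ, module MLF: the formula for Miller trees.
-/

set_option autoImplicit false

namespace Pool.Agent.CFZ

open CategoryTheory Fm

namespace MLF_

variable {C : Type 1} [Category.{0} C]

theorem all_imp {c : C} (ρ : ℕ → LN c) (p q : Fm) : Frc (all (imp p q)) c ρ ↔
    ∀ (d : C) (h : c ⟶ d) (x : LN d), Frc p d (cons x (rr ρ h)) → Frc q d (cons x (rr ρ h)) := by
  rw [frc_all]
  constructor
  · intro H d h x hp
    have h1 := (frc_imp _ _ _).1 (H d h x) d (𝟙 d)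
    rw [rr_id] at h1
    exact h1 hp
  · intro H d h x
    rw [frc_imp]
    intro e k hp
    rw [rr_cons, rr_rr] at hp ⊢
    exact H e (h ≫ k) (x.r k) hp

theorem all_all_imp {c : C} (ρ : ℕ → LN c) (p q : Fm) : Frc (all (all (imp p q))) c ρ ↔
    ∀ (d : C) (h : c ⟶ d) (x y : LN d), Frc p d (cons y (cons x (rr ρ h))) →
      Frc q d (cons y (cons x (rr ρ h))) := by
  rw [frc_all]
  constructor
  · intro H d h x y hp
    have h1 := (all_imp _ _ _).1 (H d h x) d (𝟙 d) y
    rw [rr_id] at h1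
    exact h1 hp
  · intro H d h x
    rw [all_imp]
    intro e k y hp
    rw [rr_cons, rr_rr] at hp ⊢
    exact H e (h ≫ k) (x.r k) y hp

theorem imp_app {c : C} {ρ : ℕ → LN c} {p q : Fm} (H : Frc (imp p q) c ρ) (hp : Frc p c ρ) :
    Frc q c ρ := by
  have h1 := (frc_imp _ _ _).1 H c (𝟙 c)
  rw [rr_id] at h1
  exact h1 hp

end MLF_

open MLF_

theorem mlf_proof (hNAT : Stmt_NAT) (hOPN : Stmt_OPN) (hSQA : Stmt_SQA) (hSQB : Stmt_SQB)
    (hSQC : Stmt_SQC) : Stmt_MLF := by
  intro C _ c ρ w T hw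
  obtain ⟨nat_r, om_r, nat_cmp, -, memf_om⟩ := hNAT C
  obtain ⟨-, -, hop⟩ := hOPN C
  obtain ⟨seq_r, seq_cmp, -⟩ := hSQA C
  -- moving the hypothesis on `ω`
  have om_mv : ∀ {c : C} {x : LN c}, x.eqf (omN c) → ∀ {d : C} (h : c ⟶ d),
      (x.r h).eqf (omN d) := by
    intro c x hx d h
    exact LN.eqf_trans (LN.eqf_mono hx h) (om_r _ _ h)
  have seq_mv : ∀ {c : C} {x : LN c} {s : List ℕ}, x.eqf (seqN c s) → ∀ {d : C} (h : c ⟶ d),
      (x.r h).eqf (seqN d s) := by
    intro c x s hx d h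
    exact LN.eqf_trans (LN.eqf_mono hx h) (seq_r _ _ h _)
  have nat_mv : ∀ {c : C} {x : LN c} {n : ℕ}, x.eqf (natN c n) → ∀ {d : C} (h : c ⟶ d),
      (x.r h).eqf (natN d n) := by
    intro c x n hx d h
    exact LN.eqf_trans (LN.eqf_mono hx h) (nat_r _ _ h _)
  have nat_om : ∀ (c : C) (n : ℕ), (natN c n).memf (omN c) := by
    intro c n
    rw [memf_om]
    intro d h
    exact ⟨d, 𝟙 d, n, nat_r _ _ _ _⟩
  -- splitting nodes
  have split_iff : ∀ (c : C) (ρ : ℕ → LN c) (w T t : ℕ) (tt : List ℕ), (ρ w).eqf (omN c) →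
      (ρ t).eqf (seqN c tt) → (Frc (splitF w T t) c ρ ↔ ∀ n : ℕ, Dns (c := c) fun e l =>
        ∃ m : ℕ, n < m ∧ (seqN e (tt ++ [m])).memf ((ρ T).r l)) := by
    intro c ρ w T t tt hw ht
    rw [splitF, all_imp]
    constructor
    · intro H n d h
      have h1 := H d h (natN d n) (by
        simp only [frc_mem, cons_zero, cons_succ, rr_apply]
        exact LN.memf_congr (LN.eqf_refl _) (LN.eqf_symm (om_mv hw h)) (nat_om d n))
      rw [frc_ex] at h1
      obtain ⟨e1, k1, y, h2⟩ := h1 d (𝟙 d)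
      rw [frc_and, frc_and, frc_ex] at h2
      obtain ⟨hy, hny, h3⟩ := h2
      obtain ⟨e2, k2, u, h4⟩ := h3 e1 (𝟙 e1)
      rw [frc_and] at h4
      obtain ⟨h5, h6⟩ := h4
      simp only [frc_mem, cons_zero, cons_succ, rr_apply, rr_cons, Category.id_comp, LN.r_r,
        rr_rr] at hy hny h5 h6
      -- `y` is a natural number
      have hy2 : y.memf (omN e1) :=
        LN.memf_congr (LN.eqf_refl _) (om_mv hw _) hy
      rw [memf_om] at hy2
      obtain ⟨e3, k3, m, hm⟩ := hy2 e2 k2
      refine ⟨e3, k1 ≫ k2 ≫ k3, m, ?_, ?_⟩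
      · have h7 : ((natN d n).r (k1 ≫ k2 ≫ k3)).memf (y.r (k2 ≫ k3)) := by
          have := LN.memf_mono hny (k2 ≫ k3)
          simpa using this
        have h8 : (natN e3 n).memf (natN e3 m) :=
          LN.memf_congr (nat_r _ _ _ _) hm h7
        exact (nat_cmp e3 n m).1.1 h8
      · have h9 := frc_mono _ _ k3 h5
        rw [hSQC C e3 _ (w + 3) (t + 3) 1 0 tt m ?_ ?_ ?_] at h9
        · have h10 := LN.memf_mono h6 k3
          simp only [rr_apply, cons_zero] at h9
          refine LN.memf_congr h9 ?_ h10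
          simp only [LN.r_r, Category.assoc]
          exact LN.eqf_refl _
        · simp only [rr_apply, cons_succ, LN.r_r]
          exact om_mv hw _
        · simp only [rr_apply, cons_succ, LN.r_r]
          exact seq_mv ht _
        · simp only [rr_apply, cons_succ, cons_zero, LN.r_r]
          exact hm
    · intro H d h x hx
      simp only [frc_mem, cons_zero, cons_succ, rr_apply] at hx
      rw [frc_ex]
      intro d1 h1
      have hx2 : x.memf (omN d) := LN.memf_congr (LN.eqf_refl _) (om_mv hw h) hx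
      rw [memf_om] at hx2
      obtain ⟨d2, h2, n, hn⟩ := hx2 d1 h1
      obtain ⟨d3, h3, m, hnm, hm⟩ := H n d2 (h ≫ h1 ≫ h2)
      refine ⟨d3, h2 ≫ h3, natN d3 m, ?_⟩
      rw [frc_and, frc_and, frc_ex]
      refine ⟨?_, ?_, ?_⟩
      · simp only [frc_mem, cons_zero, cons_succ, rr_apply, rr_cons, LN.r_r]
        exact LN.memf_congr (LN.eqf_refl _) (LN.eqf_symm (om_mv hw _)) (nat_om d3 m)
      · simp only [frc_mem, cons_zero, cons_succ, rr_apply, rr_cons, LN.r_r]
        have h4 : (x.r (h1 ≫ h2 ≫ h3)).eqf (natN d3 n) := by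
          have := nat_mv hn h3
          simpa using this
        exact LN.memf_congr (LN.eqf_symm h4) (LN.eqf_refl _) ((nat_cmp d3 n m).1.2 hnm)
      · intro d4 h4
        refine ⟨d4, 𝟙 d4, seqN d4 (tt ++ [m]), ?_⟩
        rw [frc_and]
        constructor
        · rw [hSQC C d4 _ (w + 3) (t + 3) 1 0 tt m ?_ ?_ ?_]
          · exact LN.eqf_refl _
          · simp only [rr_apply, cons_succ, LN.r_r, rr_cons]
            exact om_mv hw _
          · simp only [rr_apply, cons_succ, LN.r_r, rr_cons]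
            exact seq_mv ht _
          · simp only [rr_apply, cons_succ, cons_zero, LN.r_r, rr_cons]
            exact nat_r _ _ _ _
        · simp only [frc_mem, cons_zero, cons_succ, rr_apply, rr_cons, LN.r_r,
            Category.comp_id]
          have h5 := LN.memf_mono hm h4
          refine LN.memf_congr (seq_r _ _ _ _) ?_ h5
          simp only [LN.r_r, Category.assoc]
          exact LN.eqf_refl _
  rw [millF, frc_and, frc_and, treeF, frc_and, all_imp, all_all_imp, all_imp, frc_ex]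
  constructor
  · rintro ⟨⟨H1, H2⟩, H3, H4⟩
    have F1 : ∀ (d : C) (h : c ⟶ d) (z : LN d), z.memf ((ρ T).r h) → Dns (c := d) fun e k =>
        ∃ s : List ℕ, (z.r k).eqf (seqN e s) := by
      intro d h z hz
      have h1 := H1 d h z hz
      rw [hSQB C d _ (w + 1) 0 (om_mv hw h)] at h1
      exact h1
    refine ⟨F1, ?_, ?_, ?_⟩
    · intro d h s t hts hs
      have h1 := H2 d h (seqN d s) (seqN d t) hs
      have h2 := imp_app h1 (by
        rw [hSQB C d _ (w + 2) 0 (om_mv hw h)]
        intro e k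
        exact ⟨e, 𝟙 e, t, seq_r _ _ _ _⟩)
      refine imp_app h2 ?_
      rw [(hop d _).2.2]
      exact ((seq_cmp d t s).2).2 hts
    · intro d h
      obtain ⟨e, k, x, hx⟩ := H3 d h
      simp only [frc_mem, cons_zero, cons_succ, rr_apply] at hx
      obtain ⟨e', l, s, hs⟩ := F1 e _ x hx e (𝟙 e)
      rw [Category.id_comp] at hs
      refine ⟨e', k ≫ l, s, ?_⟩
      have h1 := LN.memf_mono hx l
      refine LN.memf_congr hs ?_ h1
      simp only [LN.r_r, Category.assoc]
      exact LN.eqf_refl _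
    · intro d h s hs d1 h1
      have h2 := H4 d h (seqN d s) hs
      rw [frc_ex] at h2
      obtain ⟨d2, k2, x, hx⟩ := h2 d1 h1
      rw [frc_and, frc_and] at hx
      obtain ⟨hx1, hx2, hx3⟩ := hx
      rw [(hop d2 _).2.2] at hx2
      simp only [frc_mem, cons_zero, cons_succ, rr_apply, rr_cons, LN.r_r] at hx1 hx2
      obtain ⟨d3, k3, t, ht⟩ := F1 d2 _ x hx1 d2 (𝟙 d2)
      rw [Category.id_comp] at ht
      have h3 := frc_mono _ _ k3 hx3
      rw [split_iff d3 _ (w + 2) (T + 2) 0 t ?_ ?_] at h3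
      · refine ⟨d3, k2 ≫ k3, t, ?_, ?_, ?_⟩
        · rw [← (seq_cmp d3 s t).2]
          intro d4 k4 z hz
          have h4 := hx2 d4 (k3 ≫ k4) z
          simp only [LN.r_r] at h4
          have e1 : ((seqN d s).r ((h1 ≫ k2) ≫ k3 ≫ k4)).eqf ((seqN d3 s).r k4) :=
            LN.eqf_trans (seq_r _ _ _ _) (LN.eqf_symm (seq_r _ _ _ _))
          have e2 : (x.r (k3 ≫ k4)).eqf ((seqN d3 t).r k4) := by
            have := LN.eqf_mono ht k4
            simpa using this
          exact LN.memf_congr (LN.eqf_refl _) e2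
            (h4 (LN.memf_congr (LN.eqf_refl _) (LN.eqf_symm e1) hz))
        · have h4 := LN.memf_mono hx1 k3
          refine LN.memf_congr ht ?_ h4
          simp only [LN.r_r, Category.assoc]
          exact LN.eqf_refl _
        · intro n e' l
          obtain ⟨e2, l2, m, hnm, hm⟩ := h3 n e' l
          refine ⟨e2, l2, m, hnm, ?_⟩
          simp only [rr_apply, cons_succ, rr_cons, LN.r_r, Category.assoc] at hm ⊢
          exact hm
      · simp only [rr_apply, cons_succ, rr_cons, LN.r_r]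
        exact om_mv hw _
      · simp only [rr_apply, cons_zero, rr_cons]
        exact ht
  · rintro ⟨F1, F2, F3, F4⟩
    refine ⟨⟨?_, ?_⟩, ?_, ?_⟩
    · intro d h x hx
      rw [hSQB C d _ (w + 1) 0 (om_mv hw h)]
      exact F1 d h x hx
    · intro d h x y hx
      rw [frc_imp]
      intro d1 h1 hy
      rw [frc_imp]
      intro d2 h2 hyx
      rw [hSQB C d1 _ (w + 2) 0 ?_] at hy
      · rw [(hop d2 _).2.2] at hyx
        simp only [frc_mem, cons_zero, cons_succ, rr_apply, rr_cons, LN.r_r] at hx hy hyx ⊢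
        refine LN.memf_reg ?_
        intro d3 h3
        obtain ⟨d4, h4, s, hs⟩ := F1 d h x hx d3 (h1 ≫ h2 ≫ h3)
        obtain ⟨d5, h5, t, ht⟩ := hy d4 (h2 ≫ h3 ≫ h4)
        refine ⟨d5, h4 ≫ h5, ?_⟩
        have ht' : (y.r ((h1 ≫ h2) ≫ h3 ≫ h4 ≫ h5)).eqf (seqN d5 t) := by
          simpa using ht
        have hs' : (x.r ((h1 ≫ h2) ≫ h3 ≫ h4 ≫ h5)).eqf (seqN d5 s) := by
          have := seq_mv hs h5
          simpa using this
        have hts : t <+: s := by
          rw [← (seq_cmp d5 t s).2]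
          intro d6 h6 z hz
          have e1 : z.memf (y.r ((h1 ≫ h2) ≫ (h3 ≫ h4 ≫ h5 ≫ h6))) := by
            refine LN.memf_congr (LN.eqf_refl _) ?_ hz
            have := LN.eqf_mono ht' h6
            refine LN.eqf_symm ?_
            simpa using this
          have e2 := hyx d6 (h3 ≫ h4 ≫ h5 ≫ h6) z (by simpa using e1)
          refine LN.memf_congr (LN.eqf_refl _) ?_ e2
          have := LN.eqf_mono hs' h6
          simpa using this
        have hsm : (seqN d5 s).memf ((ρ T).r (h ≫ h1 ≫ h2 ≫ h3 ≫ h4 ≫ h5)) := by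
          have h6 := LN.memf_mono hx (h1 ≫ h2 ≫ h3 ≫ h4 ≫ h5)
          refine LN.memf_congr ?_ ?_ h6
          · simpa using hs'
          · simp only [LN.r_r, Category.assoc]
            exact LN.eqf_refl _
        have htm := F2 d5 _ s t hts hsm
        refine LN.memf_congr (LN.eqf_symm ?_) ?_ htm
        · simpa using ht'
        · simp only [LN.r_r, Category.assoc]
          exact LN.eqf_refl _
      · simp only [rr_apply, cons_succ, rr_cons, LN.r_r]
        exact om_mv hw _
    · intro d h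
      obtain ⟨e, k, s, hs⟩ := F3 d h
      exact ⟨e, k, seqN e s, hs⟩
    · intro d h x hx
      simp only [frc_mem, cons_zero, cons_succ, rr_apply] at hx
      rw [frc_ex]
      intro d1 h1
      obtain ⟨d2, h2, s, hs⟩ := F1 d h x hx d1 h1
      have hs2 : (seqN d2 s).memf ((ρ T).r (h ≫ h1 ≫ h2)) := by
        have h3 := LN.memf_mono hx (h1 ≫ h2)
        refine LN.memf_congr hs ?_ h3
        simp only [LN.r_r, Category.assoc]
        exact LN.eqf_refl _
      obtain ⟨d3, h3, t, hst, ht, hsp⟩ := F4 d2 _ s hs2 d2 (𝟙 d2)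
      refine ⟨d3, h2 ≫ h3, seqN d3 t, ?_⟩
      rw [frc_and, frc_and]
      refine ⟨?_, ?_, ?_⟩
      · simp only [frc_mem, cons_zero, cons_succ, rr_apply, rr_cons, LN.r_r]
        simpa using ht
      · rw [(hop d3 _).2.2]
        simp only [cons_zero, cons_succ, rr_apply, rr_cons]
        intro d4 h4 z hz
        have e1 : ((x.r (h1 ≫ h2 ≫ h3)).r h4).eqf ((seqN d3 s).r h4) := by
          refine LN.eqf_mono ?_ h4
          have := seq_mv hs h3
          simpa using this
        exact (((seq_cmp d3 s t).2).2 hst) d4 h4 z (LN.memf_congr (LN.eqf_refl _) e1 hz)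
      · rw [split_iff d3 _ (w + 2) (T + 2) 0 t ?_ ?_]
        · intro n e' l
          obtain ⟨e2, l2, m, hnm, hm⟩ := hsp n e' l
          refine ⟨e2, l2, m, hnm, ?_⟩
          simp only [rr_apply, cons_succ, rr_cons, LN.r_r]
          simpa using hm
        · simp only [rr_apply, cons_succ, rr_cons, LN.r_r]
          exact om_mv hw _
        · exact LN.eqf_refl _

end Pool.Agent.CFZ
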