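import Pool.Agent.CFZ.Stmts

/-!
Squad CFZ, module MMT: Miller measurability is forced.
-/

set_option autoImplicit false

namespace Pool.Agent.CFZ

open CategoryTheory Fm

namespace MMT_

theorem ffun_mono (hFUN : Stmt_FUN) (hNAT : Stmt_NAT) {c d : Ob} (h : c ⟶ d) (x : LN c)
    (H : FFun x (omN c) (omN c)) : FFun (x.r h) (omN d) (omN d) := by
  have h1 : Frc (funF 0 1 1) c (cons x (fun _ => omN c)) :=
    (hFUN Ob c (cons x (fun _ => omN c)) 0 1 1).2 H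
  have h2 := frc_mono _ _ h h1
  have h3 : Frc (funF 0 1 1) d (cons (x.r h) (fun _ => omN d)) := by
    refine (frc_congr _ _ _ ?_).1 h2
    intro n
    cases n with
    | zero => exact LN.eqf_refl _
    | succ n => exact (hNAT Ob).2.1 c d h
  exact (hFUN Ob d _ 0 1 1).1 h3

/-- a branch of a nice tree is densely nice -/
theorem branch (hFUN : Stmt_FUN) (hNAT : Stmt_NAT) (hNRN : Stmt_NRN) (hNRE : Stmt_NRE)
    (hFRL : Stmt_FRL) (hRST : Stmt_RST) {d2 d5 : Ob} (S : List ℕ → d2.A) (SN : LN d2)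
    (hS : IsTr SN S) (k : d2 ⟶ d5) (x : LN d5) (hf : FFun x (omN d5) (omN d5))
    (hbr : ∀ (d : Ob) (h : d5 ⟶ d) (s : List ℕ), FSub (seqN d s) (x.r h) →
      (seqN d s).memf (SN.r (k ≫ h)))
    (d6 : Ob) (h6 : d5 ⟶ d6) : ∃ (d7 : Ob) (h7 : d6 ⟶ d7) (x' : ℕ → ℕ → d7.A), RealV x' = ⊤ ∧
      IsRl (x.r (h6 ≫ h7)) x' ∧ InTV x' (fun t => (k ≫ h6 ≫ h7).h (S t)) = ⊤ := by
  obtain ⟨d7, h7, x', -, hr, hl⟩ := hFRL d6 (x.r h6) (ffun_mono hFUN hNAT h6 x hf)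
  rw [LN.r_r] at hl
  refine ⟨d7, h7, x', hr, hl, ?_⟩
  unfold InTV
  rw [iInf_eq_top]
  intro t
  rw [himp_eq_top_iff]
  by_contra hcon
  have hu : BrV x' t ⊓ ((k ≫ h6 ≫ h7).h (S t))ᶜ ≠ ⊥ := by
    intro h0
    apply hcon
    have h1 := le_compl_iff_disjoint_right.2 (disjoint_iff.2 h0)
    rwa [compl_compl] at h1
  obtain ⟨e, m, hm, -, -, -, -⟩ := hRST d7 _ hu
  rw [CHom.map_inf, inf_eq_top_iff, CHom.map_BrV, CHom.map_compl] at hm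
  have hl' : IsRl ((x.r (h6 ≫ h7)).r m) (fun n m' => m.h (x' n m')) :=
    (hNRN d7).2.2.2.2.1 _ _ _ _ hl
  have h1 := (((hNRE e).1 _ _ hl').2.1 t).2 hm.1
  rw [LN.r_r] at h1
  have h2 := hbr e ((h6 ≫ h7) ≫ m) t h1
  have hS' : IsTr (SN.r (k ≫ (h6 ≫ h7) ≫ m)) (fun t => (k ≫ (h6 ≫ h7) ≫ m).h (S t)) :=
    (hNRN d2).2.2.2.2.2 _ _ _ _ hS
  have h3 := ((hNRE e).2 _ _ hS' t).1 h2
  have h4 : (m.h ((k ≫ h6 ≫ h7).h (S t)))ᶜ = ⊤ := hm.2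
  have h5 : m.h ((k ≫ h6 ≫ h7).h (S t)) = ⊤ := h3
  rw [h5, compl_top] at h4
  exact bot_ne_top h4

/-- membership in `X` as a predicate of reals -/
def psi (hNRN : Stmt_NRN) {c : Ob} (X : LN c) : NP c (ℕ × ℕ) where
  p d h y := ∀ Y : LN d, IsRl Y (fun n m => y (n, m)) → Y.memf (X.r h)
  mono d e h k y H Y hY := by
    obtain ⟨X0, hX0⟩ := (hNRN d).1 (fun n m => y (n, m))
    have h1 := LN.memf_mono (H X0 hX0) k
    rw [LN.r_r] at h1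
    have h2 : IsRl (X0.r k) (fun n m => k.h (y (n, m))) := (hNRN d).2.2.2.2.1 _ _ _ _ hX0
    have h3 : (X0.r k).eqf Y := ((hNRN e).2.2.1 _ _ _ h2).1 hY
    exact LN.memf_congr h3 (LN.eqf_refl _) h1
  reg d h y H Y hY := by
    refine LN.memf_reg ?_
    intro e k
    obtain ⟨e', l, h1⟩ := H e k
    refine ⟨e', l, ?_⟩
    have h2 := h1 (Y.r (k ≫ l)) ((hNRN d).2.2.2.2.1 _ _ _ _ hY)
    rw [LN.r_r]
    exact h2

theorem core (hCOR : Stmt_COR) (hNRN : Stmt_NRN) (hNRE : Stmt_NRE) (hFRL : Stmt_FRL)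
    (hNRM : Stmt_NRM) (hMRL : Stmt_MRL) (hMLF : Stmt_MLF) (hBRF : Stmt_BRF) (hFUN : Stmt_FUN)
    (hOPN : Stmt_OPN) (hNAT : Stmt_NAT) (hRST : Stmt_RST) (e : Ob) (σ : ℕ → LN e)
    (hw : (σ 2).eqf (omN e)) (hT : Frc (millF 2 0) e σ) :
    Frc (ex (and (millF 3 0) (and (subF 0 1)
      (or (all (imp (funF 0 4 4) (imp (brF 4 1 0) (mem 0 3))))
        (all (imp (funF 0 4 4) (imp (brF 4 1 0) (neg (mem 0 3))))))))) e σ := by
  rw [frc_ex]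
  intro d h
  have hTd := frc_mono _ σ h hT
  have hwd : ((rr σ h) 2).eqf (omN d) :=
    LN.eqf_trans (LN.eqf_mono hw h) ((hNAT Ob).2.1 _ _ h)
  have hM : FMil ((σ 0).r h) := (hMLF Ob d (rr σ h) 2 0 hwd).1 hTd
  obtain ⟨d1, h1, T', -, hT1, hT2⟩ := hMRL d _ hM
  rw [LN.r_r] at hT2
  obtain ⟨d2, h2, S, hS1, hS2, hS3⟩ := hCOR d1 (psi hNRN ((σ 1).r (h ≫ h1))) T' hT1
  obtain ⟨SN, hSN⟩ := (hNRN d2).2.1 S
  refine ⟨d2, h1 ≫ h2, SN, ?_⟩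
  have hw3 : ((cons SN (rr σ (h ≫ h1 ≫ h2))) 3).eqf (omN d2) :=
    LN.eqf_trans (LN.eqf_mono hw (h ≫ h1 ≫ h2)) ((hNAT Ob).2.1 _ _ _)
  generalize hτ : cons SN (rr σ (h ≫ h1 ≫ h2)) = τ at hw3
  have t0 : τ 0 = SN := by rw [← hτ]; rfl
  have t1 : τ 1 = (σ 0).r (h ≫ h1 ≫ h2) := by rw [← hτ]; rfl
  have t2 : τ 2 = (σ 1).r (h ≫ h1 ≫ h2) := by rw [← hτ]; rfl
  have main : ∀ (d3 : Ob) (h3 : d2 ⟶ d3) (x : LN d3) (d4 : Ob) (h4 : d3 ⟶ d4),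
      Frc (funF 0 4 4) d4 (rr (cons x (rr τ h3)) h4) → ∀ (d5 : Ob) (h5 : d4 ⟶ d5),
      Frc (brF 4 1 0) d5 (rr (rr (cons x (rr τ h3)) h4) h5) → ∀ (d6 : Ob) (h6 : d5 ⟶ d6),
      ∃ (d7 : Ob) (h7 : d6 ⟶ d7) (x' : ℕ → ℕ → d7.A), RealV x' = ⊤ ∧
      IsRl ((x.r (h4 ≫ h5)).r (h6 ≫ h7)) x' ∧
      InTV x' (fun t => ((h3 ≫ h4 ≫ h5) ≫ h6 ≫ h7).h (S t)) = ⊤ := by
    intro d3 h3 x d4 h4 hf d5 h5 hb
    have hw4 : ((rr (cons x (rr τ h3)) h4) 4).eqf (omN d4) := by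
      have e1 := LN.eqf_trans (LN.eqf_mono hw3 (h3 ≫ h4)) ((hNAT Ob).2.1 _ _ _)
      have e2 : (rr (cons x (rr τ h3)) h4) 4 = (τ 3).r (h3 ≫ h4) := LN.r_r _ _ _
      rw [e2]
      exact e1
    have hw5 : ((rr (rr (cons x (rr τ h3)) h4) h5) 4).eqf (omN d5) :=
      LN.eqf_trans (LN.eqf_mono hw4 h5) ((hNAT Ob).2.1 _ _ _)
    have hf4 : FFun (x.r h4) (omN d4) (omN d4) := by
      have e1 : Frc (funF 0 4 4) d4
          (fun n => if n = 4 then omN d4 else (rr (cons x (rr τ h3)) h4) n) := by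
        refine (frc_congr _ _ _ ?_).1 hf
        intro n
        by_cases hn : n = 4
        · rw [if_pos hn, hn]
          exact hw4
        · rw [if_neg hn]
          exact LN.eqf_refl _
      exact (hFUN Ob d4 _ 0 4 4).1 e1
    have hf5 : FFun (x.r (h4 ≫ h5)) (omN d5) (omN d5) := by
      have := ffun_mono hFUN hNAT h5 _ hf4
      rwa [LN.r_r] at this
    refine branch hFUN hNAT hNRN hNRE hFRL hRST S SN hSN (h3 ≫ h4 ≫ h5) (x.r (h4 ≫ h5)) hf5 ?_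
    intro d h s hs
    have e1 := (hBRF Ob d5 _ 4 1 0 hw5).1 hb d h s (by
      have e2 : ((rr (rr (cons x (rr τ h3)) h4) h5) 0).r h = (x.r (h4 ≫ h5)).r h := by
        simp
      rw [e2]
      exact hs)
    have e3 : ((rr (rr (cons x (rr τ h3)) h4) h5) 1).r h = SN.r ((h3 ≫ h4 ≫ h5) ≫ h) := by
      have : (rr (rr (cons x (rr τ h3)) h4) h5) 1 = (((τ 0).r h3).r h4).r h5 := rfl
      rw [this, t0]
      simp
    rw [e3] at e1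
    exact e1
  have x3 : ∀ (d3 : Ob) (h3 : d2 ⟶ d3) (x : LN d3) (d4 : Ob) (h4 : d3 ⟶ d4) (d5 : Ob)
      (h5 : d4 ⟶ d5) (d7 : Ob) (h7 : d5 ⟶ d7),
      ((rr (rr (cons x (rr τ h3)) h4) h5) 3).r h7 =
        ((σ 1).r (h ≫ h1)).r (h2 ≫ (h3 ≫ h4 ≫ h5) ≫ h7) := by
    intro d3 h3 x d4 h4 d5 h5 d7 h7
    have : (rr (rr (cons x (rr τ h3)) h4) h5) 3 = (((τ 2).r h3).r h4).r h5 := rfl
    rw [this, t2]
    simp
  have x0 : ∀ (d3 : Ob) (h3 : d2 ⟶ d3) (x : LN d3) (d4 : Ob) (h4 : d3 ⟶ d4) (d5 : Ob)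
      (h5 : d4 ⟶ d5) (d7 : Ob) (h7 : d5 ⟶ d7),
      ((rr (rr (cons x (rr τ h3)) h4) h5) 0).r h7 = (x.r (h4 ≫ h5)).r h7 := by
    intro d3 h3 x d4 h4 d5 h5 d7 h7
    simp
  rw [frc_and, frc_and]
  refine ⟨(hMLF Ob d2 τ 3 0 hw3).2 ?_, (((hOPN Ob).2.2 d2 τ).2.2 0 1).2 ?_, ?_⟩
  · rw [t0]
    exact hNRM d2 SN S hSN hS1
  · rw [t0, t1]
    intro d' h' z hz
    have hT3 : IsTr ((σ 0).r (h ≫ h1 ≫ h2)) (fun t => h2.h (T' t)) := by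
      have := (hNRN d1).2.2.2.2.2 _ _ d2 h2 hT2
      rwa [LN.r_r, Category.assoc] at this
    refine (hT3 d' h' z).2 ?_
    intro e1 k1
    obtain ⟨e2, l, s, hs, hz'⟩ := (hSN d' h' z).1 hz e1 k1
    refine ⟨e2, l, s, ?_, hz'⟩
    have e3 := CHom.mono ((h' ≫ k1 ≫ l).h) (hS2 s)
    rw [show (h' ≫ k1 ≫ l).h (S s) = ⊤ from hs] at e3
    exact top_le_iff.1 e3
  · rw [frc_or]
    intro d' h'
    refine ⟨d', 𝟙 d', ?_⟩
    rw [Category.comp_id]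
    rcases hS3 with hL | hR
    · left
      refine frc_mono _ τ h' ?_
      rw [frc_all]
      intro d3 h3 x
      rw [frc_imp]
      intro d4 h4 hf
      rw [frc_imp]
      intro d5 h5 hb
      rw [frc_mem]
      refine LN.memf_reg ?_
      intro d6 h6
      obtain ⟨d7, h7, x', hr, hl, hin⟩ := main d3 h3 x d4 h4 hf d5 h5 hb d6 h6
      refine ⟨d7, h7, ?_⟩
      have e1 := hL d7 ((h3 ≫ h4 ≫ h5) ≫ h6 ≫ h7) x' hr hin _ hl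
      rw [x3, x0]
      exact e1
    · right
      refine frc_mono _ τ h' ?_
      rw [frc_all]
      intro d3 h3 x
      rw [frc_imp]
      intro d4 h4 hf
      rw [frc_imp]
      intro d5 h5 hb
      rw [frc_neg]
      intro d6 h6 hmem
      rw [frc_mem] at hmem
      obtain ⟨d7, h7, x', hr, hl, hin⟩ := main d3 h3 x d4 h4 hf d5 h5 hb d6 h6
      have hΨ : (psi hNRN ((σ 1).r (h ≫ h1))).p d7 (h2 ≫ (h3 ≫ h4 ≫ h5) ≫ h6 ≫ h7)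
          (fun i => x' i.1 i.2) := by
        intro Y hY
        have e1 := ((hNRN d7).2.2.1 _ _ _ hl).1 hY
        have e2 := LN.memf_mono hmem h7
        have e3 : ((rr (rr (rr (cons x (rr τ h3)) h4) h5) h6) 0).r h7 =
            (x.r (h4 ≫ h5)).r (h6 ≫ h7) := by
          have := x0 d3 h3 x d4 h4 d5 h5 d7 (h6 ≫ h7)
          rw [← LN.r_r] at this
          exact this
        have e4 : ((rr (rr (rr (cons x (rr τ h3)) h4) h5) h6) 3).r h7 =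
            ((σ 1).r (h ≫ h1)).r (h2 ≫ (h3 ≫ h4 ≫ h5) ≫ h6 ≫ h7) := by
          have := x3 d3 h3 x d4 h4 d5 h5 d7 (h6 ≫ h7)
          rw [← LN.r_r] at this
          exact this
        rw [e3, e4] at e2
        exact LN.memf_congr e1 (LN.eqf_refl _) e2
      have e5 := (psi hNRN ((σ 1).r (h ≫ h1))).mono d7 d7 _ (𝟙 d7) _ hΨ
      have e6 := hR d7 ((h3 ≫ h4 ≫ h5) ≫ h6 ≫ h7) x' hr hin d7 (𝟙 d7)
      rw [Category.comp_id] at e5 e6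
      exact e6 e5

end MMT_

open MMT_ in
theorem mmt_proof (hCOR : Stmt_COR) (hNRN : Stmt_NRN) (hNRE : Stmt_NRE) (_hNRF : Stmt_NRF)
    (hFRL : Stmt_FRL) (hNRM : Stmt_NRM) (hMRL : Stmt_MRL) (hMLF : Stmt_MLF) (hBRF : Stmt_BRF)
    (hFUN : Stmt_FUN) (hOPN : Stmt_OPN) (hOMG : Stmt_OMG) (hNAT : Stmt_NAT) (hRST : Stmt_RST) :
    Stmt_MMT := by
  intro c ρ
  unfold MMF
  rw [frc_all]
  intro d h w
  rw [frc_imp]
  intro d1 h1 H1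
  rw [frc_all]
  intro d2 h2 X
  rw [frc_imp]
  intro d3 h3 _
  unfold mmsF
  rw [frc_all]
  intro d4 h4 T
  rw [frc_imp]
  intro d5 h5 hT
  refine core hCOR hNRN hNRE hFRL hNRM hMRL hMLF hBRF hFUN hOPN hNAT hRST d5 _ ?_ hT
  have e1 : (w.r h1).eqf (omN d1) := ((hOMG Ob d1 _).2 0).1 H1
  have e2 := LN.eqf_trans (LN.eqf_mono e1 (h2 ≫ h3 ≫ h4 ≫ h5)) ((hNAT Ob).2.1 _ _ _)
  have e3 : (rr (cons T (rr (rr (cons X (rr (rr (cons w (rr ρ h)) h1) h2)) h3) h4)) h5) 2 =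
      (w.r h1).r (h2 ≫ h3 ≫ h4 ≫ h5) := by
    have : (rr (cons T (rr (rr (cons X (rr (rr (cons w (rr ρ h)) h1) h2)) h3) h4)) h5) 2 =
      ((((w.r h1).r h2).r h3).r h4).r h5 := rfl
    rw [this]
    simp
  rw [e3]
  exact e2

end Pool.Agent.CFZ
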