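import Pool.Agent.CFZ.Stmts

/-!
Squad CFZ, module MRG: merging of blocks.
-/

set_option autoImplicit false

namespace Pool.Agent.CFZ

namespace MRG_

theorem lt_all {f : ℕ → Finset ℕ} (hne : ∀ n, (f n).Nonempty) (hlt : ∀ n, Lt (f n) (f (n + 1)))
    {i j : ℕ} (h : i < j) : Lt (f i) (f j) := by
  induction j, h using Nat.le_induction with
  | base => exact hlt i
  | succ j _ ih =>
    intro x hx y hy
    obtain ⟨z, hz⟩ := hne j
    exact (ih x hx z hz).trans (hlt j z hz y hy)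

/-- the combinatorics -/
theorem comb (f : ℕ → Finset ℕ) (hne : ∀ n, (f n).Nonempty) (hlt : ∀ n, Lt (f n) (f (n + 1)))
    (J b : ℕ → Prop) (hJ : ∀ n, ∃ m, n ≤ m ∧ J m) (hJe : ∀ n, ¬ J (2 * n + 1))
    (hb : ∀ n, ∃ m, n ≤ m ∧ b m)
    (hbf : ∃ N, ∀ m, N ≤ m → b m → ∃ n, m ∈ f (2 * n + 1) ∧ ∀ i ∈ f (2 * n + 1), m ≤ i) :
    ∃ g : ℕ → Finset ℕ,
      (∀ n, ∃ m, n ≤ m ∧ ∃ n, m ∈ g (2 * n + 1) ∧ ∀ i ∈ g (2 * n + 1), m ≤ i) ∧
      (∀ m, (∃ n, m ∈ g (2 * n + 1) ∧ ∀ i ∈ g (2 * n + 1), m ≤ i) → b m) ∧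
      (∀ n, (g n).Nonempty) ∧ (∀ n, Lt (g n) (g (n + 1))) ∧
      (∀ n, ∃ W : Finset (Finset ℕ), (W.Nonempty ∧ W.sup id = g n) ∧ ∀ w ∈ W, ∃ k, w = f k) ∧
      (∀ m, (∃ n, m ∈ g (2 * n)) ↔ ∃ j, J j ∧ m ∈ f j) := by
  classical
  let mu : ℕ → ℕ := fun n => (f n).min' (hne n)
  have hmu : ∀ n, mu n ∈ f n := fun n => Finset.min'_mem _ _
  have hmul : ∀ n, ∀ i ∈ f n, mu n ≤ i := fun n i hi => Finset.min'_le _ i hi
  have hmono : StrictMono mu := strictMono_nat_of_lt_succ fun n => hlt n _ (hmu n) _ (hmu (n + 1))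
  have hnext : ∀ l : ℕ, ∃ k j, l ≤ j ∧ j < k ∧ J j ∧ (∃ n, k = 2 * n + 1) ∧ b (mu k) := by
    intro l
    obtain ⟨j, hj, hJj⟩ := hJ l
    obtain ⟨N, hN⟩ := hbf
    obtain ⟨m, hm, hbm⟩ := hb (max N (mu (j + 1)))
    obtain ⟨n, hn1, hn2⟩ := hN m ((le_max_left _ _).trans hm) hbm
    have e1 : m = mu (2 * n + 1) := le_antisymm (hn2 _ (hmu _)) (hmul _ _ hn1)
    refine ⟨2 * n + 1, j, hj, ?_, hJj, ⟨n, rfl⟩, e1 ▸ hbm⟩
    have h2 : mu (j + 1) ≤ mu (2 * n + 1) := by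
      rw [← e1]
      exact (le_max_right _ _).trans hm
    exact hmono.le_iff_le.1 h2
  choose nx jx h1 h2 h3 h4 h5 using hnext
  let l : ℕ → ℕ := fun i => Nat.rec 0 (fun _ l => nx l + 1) i
  have hl0 : l 0 = 0 := rfl
  have hls : ∀ i, l (i + 1) = nx (l i) + 1 := fun i => rfl
  have hlk : ∀ i, l i < nx (l i) := fun i => (h1 _).trans_lt (h2 _)
  let S : ℕ → Finset ℕ := fun i => (Finset.Ico (l i) (nx (l i))).filter J
  have hS : ∀ i j, j ∈ S i ↔ (l i ≤ j ∧ j < nx (l i)) ∧ J j := fun i j => by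
    simp [S]
  let g : ℕ → Finset ℕ := fun n =>
    if n % 2 = 0 then (S (n / 2)).biUnion f else f (nx (l (n / 2)))
  have hg0 : ∀ i, g (2 * i) = (S i).biUnion f := fun i => by
    simp only [g]
    rw [if_pos (by omega), show 2 * i / 2 = i by omega]
  have hg1 : ∀ i, g (2 * i + 1) = f (nx (l i)) := fun i => by
    simp only [g]
    rw [if_neg (by omega), show (2 * i + 1) / 2 = i by omega]
  have hpar : ∀ n : ℕ, (∃ i, n = 2 * i) ∨ ∃ i, n = 2 * i + 1 := fun n => by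
    rcases Nat.even_or_odd n with h | h
    · obtain ⟨i, hi⟩ := h
      exact Or.inl ⟨i, by omega⟩
    · obtain ⟨i, hi⟩ := h
      exact Or.inr ⟨i, by omega⟩
  have hSne : ∀ i, (S i).Nonempty := fun i => ⟨jx (l i), (hS i _).2 ⟨⟨h1 _, h2 _⟩, h3 _⟩⟩
  have hki : ∀ i, i ≤ l i := by
    intro i
    induction i with
    | zero => exact Nat.zero_le _
    | succ i ih =>
      rw [hls]
      have := hlk i
      omega
  refine ⟨g, ?_, ?_, ?_, ?_, ?_, ?_⟩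
  · intro n
    refine ⟨mu (nx (l n)), ?_, n, ?_, ?_⟩
    · have a1 := hmono.id_le (nx (l n))
      have a2 := hlk n
      have a3 := hki n
      simp only [id] at a1
      omega
    · rw [hg1]
      exact hmu _
    · rw [hg1]
      exact hmul _
  · rintro m ⟨n, hn1, hn2⟩
    rw [hg1] at hn1 hn2
    have e1 : m = mu (nx (l n)) := le_antisymm (hn2 _ (hmu _)) (hmul _ _ hn1)
    rw [e1]
    exact h5 _
  · intro n
    rcases hpar n with ⟨i, rfl⟩ | ⟨i, rfl⟩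
    · rw [hg0]
      obtain ⟨j, hj⟩ := hSne i
      obtain ⟨x, hx⟩ := hne j
      exact ⟨x, Finset.mem_biUnion.2 ⟨j, hj, hx⟩⟩
    · rw [hg1]
      exact hne _
  · intro n
    rcases hpar n with ⟨i, rfl⟩ | ⟨i, rfl⟩
    · rw [hg0, hg1]
      intro x hx y hy
      obtain ⟨j, hj, hxj⟩ := Finset.mem_biUnion.1 hx
      exact lt_all hne hlt ((hS i j).1 hj).1.2 x hxj y hy
    · rw [show 2 * i + 1 + 1 = 2 * (i + 1) by ring, hg0, hg1]
      intro x hx y hy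
      obtain ⟨j, hj, hyj⟩ := Finset.mem_biUnion.1 hy
      have a1 := ((hS (i + 1) j).1 hj).1.1
      rw [hls] at a1
      exact lt_all hne hlt a1 x hx y hyj
  · intro n
    rcases hpar n with ⟨i, rfl⟩ | ⟨i, rfl⟩
    · refine ⟨(S i).image f, ⟨(hSne i).image f, ?_⟩, ?_⟩
      · rw [hg0, Finset.sup_image, Finset.sup_eq_biUnion]
        rfl
      · intro w hw
        obtain ⟨k, -, rfl⟩ := Finset.mem_image.1 hw
        exact ⟨k, rfl⟩
    · refine ⟨{f (nx (l i))}, ⟨Finset.singleton_nonempty _, ?_⟩, ?_⟩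
      · rw [hg1, Finset.sup_singleton]
        rfl
      · intro w hw
        exact ⟨_, Finset.mem_singleton.1 hw⟩
  · intro m
    constructor
    · rintro ⟨n, hn⟩
      rw [hg0] at hn
      obtain ⟨j, hj, hm⟩ := Finset.mem_biUnion.1 hn
      exact ⟨j, ((hS n j).1 hj).2, hm⟩
    · rintro ⟨j, hj, hm⟩
      have key : ∀ i, j < l i → ∃ i', l i' ≤ j ∧ j < l (i' + 1) := by
        intro i
        induction i with
        | zero =>
          intro h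
          rw [hl0] at h
          omega
        | succ i ih =>
          intro h
          rcases Nat.lt_or_ge j (l i) with h' | h'
          · exact ih h'
          · exact ⟨i, h', h⟩
      obtain ⟨i, hi1, hi2⟩ := key (j + 1) (by
        have := hki (j + 1)
        omega)
      rw [hls] at hi2
      have hjk : j ≠ nx (l i) := by
        intro h
        obtain ⟨n, hn⟩ := h4 (l i)
        exact hJe n (by rw [← hn, ← h]; exact hj)
      refine ⟨i, ?_⟩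
      rw [hg0]
      exact Finset.mem_biUnion.2 ⟨j, (hS i j).2 ⟨⟨hi1, by omega⟩, hj⟩, hm⟩

abbrev Al : Type := (ℕ × Finset ℕ) ⊕ (ℕ ⊕ ℕ)
abbrev Be : Type := ℕ ⊕ (ℕ × Finset ℕ)

section
variable {A : Type} [CompleteBooleanAlgebra A]

def vF (v : Al ⊕ Be → A) (n : ℕ) (u : Finset ℕ) : A := v (Sum.inl (Sum.inl (n, u)))
def vJ (v : Al ⊕ Be → A) (n : ℕ) : A := v (Sum.inl (Sum.inr (Sum.inl n)))
def vb (v : Al ⊕ Be → A) (n : ℕ) : A := v (Sum.inl (Sum.inr (Sum.inr n)))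
def ve (v : Al ⊕ Be → A) (n : ℕ) : A := v (Sum.inr (Sum.inl n))
def vG (v : Al ⊕ Be → A) (n : ℕ) (u : Finset ℕ) : A := v (Sum.inr (Sum.inr (n, u)))

def Hyp (F : ℕ → Finset ℕ → A) (J b : ℕ → A) : A := SeqV F ⊓ EvV J ⊓ InfV b ⊓ AlmV b (bV F)

def Cnc (F : ℕ → Finset ℕ → A) (J b e : ℕ → A) (F' : ℕ → Finset ℕ → A) : A :=
  InfV e ⊓ (⨅ m, (e m ⇨ b m)) ⊓ SeqV F' ⊓ (⨅ (n) (u), (F' n u ⇨ SpV (RanV F) u)) ⊓
    (⨅ m, ((xV F' m ⇨ yV F J m) ⊓ (yV F J m ⇨ xV F' m))) ⊓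
    ⨅ m, ((bV F' m ⇨ e m) ⊓ (e m ⇨ bV F' m))

end

theorem isB_main : IsB (α := Al ⊕ Be) (fun A _ v =>
    Hyp (vF v) (vJ v) (vb v) ⇨ Cnc (vF v) (vJ v) (vb v) (ve v) (vG v)) := by
  have hF : ∀ n u, IsB (α := Al ⊕ Be) (fun A _ v => vF v n u) := fun n u => IsB.atom _
  have hJ : ∀ n, IsB (α := Al ⊕ Be) (fun A _ v => vJ v n) := fun n => IsB.atom _
  have hb : ∀ n, IsB (α := Al ⊕ Be) (fun A _ v => vb v n) := fun n => IsB.atom _
  have he : ∀ n, IsB (α := Al ⊕ Be) (fun A _ v => ve v n) := fun n => IsB.atom _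
  have hG : ∀ n u, IsB (α := Al ⊕ Be) (fun A _ v => vG v n u) := fun n u => IsB.atom _
  unfold Hyp Cnc
  refine ((((isB_SeqV hF).inf (isB_EvV hJ)).inf (isB_InfV hb)).inf
    (isB_AlmV hb (isB_bV hF))).himp ?_
  refine ((((((isB_InfV he).inf (IsB.iInf fun m => (he m).himp (hb m))).inf (isB_SeqV hG)).inf
    (IsB.iInf fun n => IsB.iInf fun u => (hG n u).himp (isB_SpV (isB_RanV hF) u))).inf
    (IsB.iInf fun m => ((isB_xV hG m).himp (isB_yV hF hJ m)).inf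
      ((isB_yV hF hJ m).himp (isB_xV hG m)))).inf
    (IsB.iInf fun m => ((isB_bV hG m).himp (he m)).inf ((he m).himp (isB_bV hG m))))

/-- the two-valued case -/
theorem two (F : ℕ → Finset ℕ → Prop) (J b : ℕ → Prop) (h : Hyp F J b) :
    ∃ (e : ℕ → Prop) (F' : ℕ → Finset ℕ → Prop), Cnc F J b e F' := by
  classical
  simp only [Hyp, SeqV, EvV, InfV, AlmV, bV, iInf_Prop_eq, iSup_Prop_eq, himp_iff_imp,
    inf_Prop_eq, compl_iff_not, exists_prop] at h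
  obtain ⟨⟨⟨⟨⟨⟨s1, s2⟩, s3⟩, s4⟩, j1, j2⟩, i1⟩, N, hN⟩ := h
  choose f hf using s1
  have huniq : ∀ n u, F n u → u = f n := by
    intro n u hu
    by_contra hne
    exact s2 n u (f n) hne ⟨hu, hf n⟩
  have hne : ∀ n, (f n).Nonempty := by
    intro n
    rw [Finset.nonempty_iff_ne_empty]
    intro h0
    exact s3 n (h0 ▸ hf n)
  have hlt : ∀ n, Lt (f n) (f (n + 1)) := by
    intro n
    by_contra hcon
    exact s4 n _ _ hcon ⟨hf n, hf (n + 1)⟩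
  obtain ⟨g, g1, g2, g3, g4, g5, g6⟩ := comb f hne hlt J b j1 j2 i1 ⟨N, fun m hm hbm => by
    obtain ⟨n, u, hu, hFu⟩ := hN m hm hbm
    rw [huniq _ _ hFu] at hu
    exact ⟨n, hu.1, hu.2⟩⟩
  refine ⟨fun m => ∃ n, m ∈ g (2 * n + 1) ∧ ∀ i ∈ g (2 * n + 1), m ≤ i,
    fun n u => u = g n, ?_⟩
  simp only [Cnc, SeqV, InfV, bV, xV, yV, SpV, RanV, iInf_Prop_eq, iSup_Prop_eq, himp_iff_imp,
    inf_Prop_eq, compl_iff_not, exists_prop]
  refine ⟨⟨⟨⟨⟨g1, g2⟩, ⟨⟨⟨fun n => ⟨_, rfl⟩, ?_⟩, ?_⟩, ?_⟩⟩, ?_⟩, ?_⟩, ?_⟩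
  · rintro n u v huv ⟨rfl, rfl⟩
    exact huv rfl
  · intro n h0
    exact (g3 n).ne_empty h0.symm
  · rintro n u v huv ⟨rfl, rfl⟩
    exact huv (g4 n)
  · rintro n u rfl
    obtain ⟨W, hW, hW'⟩ := g5 n
    refine ⟨W, hW, fun w hw => ?_⟩
    obtain ⟨k, rfl⟩ := hW' w hw
    exact ⟨k, hf k⟩
  · intro m
    constructor
    · rintro ⟨n, u, hm, rfl⟩
      obtain ⟨j, hj, hmj⟩ := (g6 m).1 ⟨n, hm⟩
      exact ⟨j, f j, hmj, hj, hf j⟩
    · rintro ⟨j, u, hm, hj, hu⟩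
      rw [huniq _ _ hu] at hm
      obtain ⟨n, hn⟩ := (g6 m).2 ⟨j, hj, hm⟩
      exact ⟨n, _, hn, rfl⟩
  · intro m
    constructor
    · rintro ⟨n, u, hm, rfl⟩
      exact ⟨n, hm⟩
    · rintro ⟨n, hm⟩
      exact ⟨n, _, hm, rfl⟩

end MRG_

open MRG_ in
theorem mrg_proof (hBTP : Stmt_BTP) : Stmt_MRG := by
  intro B _ F J b h1 h2 h3 h4
  obtain ⟨y, hy⟩ := hBTP Al Be (fun A _ v =>
    Hyp (vF v) (vJ v) (vb v) ⇨ Cnc (vF v) (vJ v) (vb v) (ve v) (vG v)) isB_main (by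
      intro X
      by_cases h : Hyp (A := Prop) (fun n u => X (Sum.inl (n, u)))
        (fun n => X (Sum.inr (Sum.inl n))) (fun n => X (Sum.inr (Sum.inr n)))
      · obtain ⟨e, F', hc⟩ := two _ _ _ h
        refine ⟨Sum.elim e (fun p => F' p.1 p.2), ?_⟩
        intro _
        exact hc
      · refine ⟨fun _ => False, ?_⟩
        intro h'
        exact absurd h' h) B
    (Sum.elim (fun p => F p.1 p.2) (Sum.elim J b))
  have hH : Hyp F J b = ⊤ := by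
    unfold Hyp
    rw [h1, h2, h3, h4]
    simp
  have hC : Cnc F J b (fun n => y (Sum.inl n)) (fun n u => y (Sum.inr (n, u))) = ⊤ := by
    have h5 : Hyp F J b ⇨ Cnc F J b (fun n => y (Sum.inl n)) (fun n u => y (Sum.inr (n, u))) = ⊤ :=
      hy
    rw [hH, top_himp] at h5
    exact h5
  unfold Cnc at hC
  simp only [inf_eq_top_iff, iInf_eq_top, himp_eq_top_iff] at hC
  obtain ⟨⟨⟨⟨⟨c1, c2⟩, c3⟩, c4⟩, c5⟩, c6⟩ := hC
  exact ⟨fun n => y (Sum.inl n), fun n u => y (Sum.inr (n, u)), c1, c2, c3, c4,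
    fun m => le_antisymm (c5 m).1 (c5 m).2, fun m => le_antisymm (c6 m).1 (c6 m).2⟩

end Pool.Agent.CFZ
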