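import Pool.Agent.CFZ.Stmts

/-!
Squad CFZ, module MRL: every name of a Miller tree is nice at an extension.
-/

set_option autoImplicit false

namespace Pool.Agent.CFZ

open CategoryTheory

namespace MRL_

/-- the predicate: `s` is in `X` -/
def pr (hSQA : Stmt_SQA) (c : Ob) (X : LN c) (s : List ℕ) : FP c where
  p := fun d h => (seqN d s).memf (X.r h)
  mono := by
    intro d e h k H
    have h1 := LN.memf_mono H k
    rw [LN.r_r] at h1
    exact LN.memf_congr ((hSQA Ob).1 d e k s) (LN.eqf_refl _) h1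
  reg := by
    intro d h H
    refine LN.memf_reg fun e k => ?_
    obtain ⟨e', l, H'⟩ := H e k
    refine ⟨e', l, ?_⟩
    rw [LN.r_r]
    exact LN.memf_congr (LN.eqf_symm ((hSQA Ob).1 d e' (k ≫ l) s)) (LN.eqf_refl _) H'

theorem le_of_restrict (hRST : Stmt_RST) {d : Ob} {x y : d.A}
    (H : ∀ (e : Ob) (k : d ⟶ e), k.h x = ⊤ → k.h y = ⊤) : x ≤ y := by
  by_contra hne
  have hu : x ⊓ yᶜ ≠ ⊥ := by
    intro h
    apply hne
    rwa [← disjoint_iff, disjoint_compl_right_iff] at h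
  obtain ⟨e, k, h1, _⟩ := hRST d _ hu
  rw [CHom.map_inf, CHom.map_compl] at h1
  have h2 : k.h x = ⊤ := top_le_iff.1 (h1 ▸ inf_le_left)
  have h3 : (k.h y)ᶜ = ⊤ := top_le_iff.1 (h1 ▸ inf_le_right)
  rw [H e k h2, compl_top] at h3
  exact bot_ne_top h3

/-- densely true is true -/
theorem top_of_dense (hRST : Stmt_RST) {d : Ob} {x : d.A}
    (H : ∀ (e : Ob) (k : d ⟶ e), ∃ (e' : Ob) (l : e ⟶ e'), (k ≫ l).h x = ⊤) : x = ⊤ := by
  rw [← compl_eq_bot]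
  by_contra hne
  obtain ⟨e, k, h1, _⟩ := hRST d _ hne
  obtain ⟨e', l, h2⟩ := H e k
  have h3 : (k ≫ l).h xᶜ = ⊤ := by
    rw [Ob.comp_h, h1, CHom.map_top]
  rw [CHom.map_compl, h2, compl_top] at h3
  exact bot_ne_top h3

end MRL_

open MRL_ in
theorem mrl_proof (hNIC : Stmt_NIC) (hRST : Stmt_RST) (hSQA : Stmt_SQA) : Stmt_MRL := by
  intro c X hX
  obtain ⟨d, h, v, hinj, hv⟩ := hNIC c (fun n => pr hSQA c X (Denumerable.ofNat (List ℕ) n))
  obtain ⟨hF1, hF2, hF3, hF4⟩ := hX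
  let S : List ℕ → d.A := fun s => v (Encodable.encode s)
  have hS : ∀ (e : Ob) (k : d ⟶ e) (s : List ℕ),
      (seqN e s).memf (X.r (h ≫ k)) ↔ k.h (S s) = ⊤ := by
    intro e k s
    have := hv (Encodable.encode s) e k
    simp only [pr, Denumerable.ofNat_encode] at this
    exact this
  refine ⟨d, h, S, hinj, ?_, ?_⟩
  · -- Miller
    have ha : S [] = ⊤ := by
      refine top_of_dense hRST fun e k => ?_
      obtain ⟨e', l, s, hs⟩ := hF3 e (h ≫ k)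
      refine ⟨e', l, ?_⟩
      rw [← hS]
      rw [Category.assoc] at hs
      exact hF2 e' _ s [] List.nil_prefix hs
    have hb : ∀ (s : List ℕ) (k : ℕ), S (s ++ [k]) ≤ S s := by
      intro s k
      refine le_of_restrict hRST fun e l hl => ?_
      rw [← hS] at hl ⊢
      exact hF2 e _ _ _ (List.prefix_append _ _) hl
    have hc : ∀ s : List ℕ, S s ≤ ⨆ (t) (_ : s <+: t), (S t ⊓ ⨅ n : ℕ, ⨆ (k) (_ : n < k), S (t ++ [k])) := by
      intro s
      refine le_of_restrict hRST fun e k hk => ?_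
      rw [← hS] at hk
      refine top_of_dense hRST fun e1 l1 => ?_
      have hk1 : (seqN e1 s).memf (X.r ((h ≫ k) ≫ l1)) := by
        have := (pr hSQA c X s).mono e e1 (h ≫ k) l1 hk
        exact this
      obtain ⟨e2, l2, t, hst, ht, hn⟩ := hF4 e1 ((h ≫ k) ≫ l1) s hk1 e1 (𝟙 e1)
      refine ⟨e2, l2, ?_⟩
      rw [Category.id_comp] at ht
      have e0 : ((h ≫ k) ≫ l1) ≫ l2 = h ≫ (k ≫ l1 ≫ l2) := by simp
      rw [e0] at ht
      have h1 : (k ≫ l1 ≫ l2).h (S t) = ⊤ := (hS _ _ _).1 ht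
      have h2 : ∀ n : ℕ, (k ≫ l1 ≫ l2).h (⨆ (k) (_ : n < k), S (t ++ [k])) = ⊤ := by
        intro n
        refine top_of_dense hRST fun e3 l3 => ?_
        obtain ⟨e4, l4, m, hm, hm'⟩ := hn n e3 l3
        refine ⟨e4, l4, ?_⟩
        have e5 : ((h ≫ k) ≫ l1) ≫ (𝟙 e1 ≫ l2) ≫ l3 ≫ l4 = h ≫ (k ≫ l1 ≫ l2 ≫ l3 ≫ l4) := by
          simp
        have hm2 : (seqN e4 (t ++ [m])).memf (X.r (h ≫ (k ≫ l1 ≫ l2 ≫ l3 ≫ l4))) := by
          rw [← e5]
          exact hm'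
        rw [hS] at hm2
        rw [← top_le_iff, ← hm2]
        have h3 : S (t ++ [m]) ≤ ⨆ (k) (_ : n < k), S (t ++ [k]) :=
          le_iSup₂_of_le m hm le_rfl
        have h4 := (k ≫ l1 ≫ l2 ≫ l3 ≫ l4).h.mono h3
        simpa using h4
      have h5 : S t ⊓ (⨅ n : ℕ, ⨆ (k) (_ : n < k), S (t ++ [k])) ≤
          ⨆ (t) (_ : s <+: t), (S t ⊓ ⨅ n : ℕ, ⨆ (k) (_ : n < k), S (t ++ [k])) :=
        le_iSup₂_of_le t hst le_rfl
      have h6 := (k ≫ l1 ≫ l2).h.mono h5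
      rw [CHom.map_inf, h1, CHom.map_iInf] at h6
      simp only [h2, iInf_top, inf_top_eq, top_le_iff] at h6
      simpa using h6
    show S [] ⊓ (⨅ (s : List ℕ) (k : ℕ), (S (s ++ [k]) ⇨ S s)) ⊓
      (⨅ s, (S s ⇨ ⨆ (t) (_ : s <+: t), (S t ⊓ ⨅ n : ℕ, ⨆ (k) (_ : n < k), S (t ++ [k])))) = ⊤
    have h1 : ∀ s k, (S (s ++ [k]) ⇨ S s) = ⊤ := fun s k => himp_eq_top_iff.2 (hb s k)
    have h2 : ∀ s, (S s ⇨ ⨆ (t) (_ : s <+: t), (S t ⊓ ⨅ n : ℕ, ⨆ (k) (_ : n < k), S (t ++ [k])))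
        = ⊤ := fun s => himp_eq_top_iff.2 (hc s)
    simp only [ha, h1, h2, iInf_top, inf_top_eq]
  · -- nice
    intro e k z
    rw [LN.r_r]
    constructor
    · intro hz e1 k1
      have hz1 : (z.r k1).memf (X.r ((h ≫ k) ≫ k1)) := by
        have := LN.memf_mono hz k1
        rwa [LN.r_r] at this
      obtain ⟨e2, l, s, hs⟩ := hF1 e1 ((h ≫ k) ≫ k1) (z.r k1) hz1 e1 (𝟙 e1)
      refine ⟨e2, l, s, ?_, ?_⟩
      · refine (hS e2 (k ≫ k1 ≫ l) s).1 ?_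
        have h2 := LN.memf_mono hz1 l
        rw [LN.r_r, LN.r_r] at h2
        rw [Category.id_comp, LN.r_r] at hs
        have h3 := LN.memf_congr hs (LN.eqf_refl _) h2
        simpa using h3
      · rw [Category.id_comp, LN.r_r] at hs
        exact hs
    · intro H
      refine LN.memf_reg fun e1 k1 => ?_
      obtain ⟨e2, l, s, hs, hz⟩ := H e1 k1
      refine ⟨e2, l, ?_⟩
      replace hs := (hS e2 (k ≫ k1 ≫ l) s).2 hs
      rw [LN.r_r]
      have h4 : (h ≫ k) ≫ k1 ≫ l = h ≫ k ≫ k1 ≫ l := by simp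
      rw [h4]
      exact LN.memf_congr (LN.eqf_symm hz) (LN.eqf_refl _) hs

end Pool.Agent.CFZ
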