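import Pool.Agent.CFZ.Stmts

/-!
Squad CFZ, module MXB: mixing of block sequences.
-/

set_option autoImplicit false

namespace Pool.Agent.CFZ

theorem mxb_proof : Stmt_MXB := by
  intro A _ I a E E0 hd ht hB hL
  have hm : ∀ i u, a i ⊓ (⨆ j, a j ⊓ E j u) = a i ⊓ E i u := by
    intro i u
    rw [inf_iSup_eq]
    apply le_antisymm
    · refine iSup_le fun j => ?_
      by_cases hij : i = j
      · subst hij
        rw [← inf_assoc, inf_idem]
      · rw [← inf_assoc, hd i j hij, bot_inf_eq]
        exact bot_le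
    · refine le_iSup_of_le i ?_
      rw [← inf_assoc, inf_idem]
  refine ⟨fun u => ⨆ j, a j ⊓ E j u, ?_, ?_, hm⟩
  · rw [← top_le_iff, ← ht]
    refine iSup_le fun i => ?_
    have h1 : IsB (α := Finset ℕ) (fun A _ v => BlkV v) := isB_BlkV (fun u => IsB.atom u)
    have h2 := h1.local' (fun u => ⨆ j, a j ⊓ E j u) (E i) (a i) (hm i)
    simp only [hB i, inf_top_eq] at h2
    rw [← h2]
    exact inf_le_right
  · unfold LeV
    rw [iInf_eq_top]
    intro u
    rw [himp_eq_top_iff]
    refine iSup_le fun j => inf_le_right.trans ?_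
    have h1 := hL j
    unfold LeV at h1
    rw [iInf_eq_top] at h1
    exact himp_eq_top_iff.1 (h1 u)

end Pool.Agent.CFZ
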