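import Pool.Agent.CFZ.Stmts

/-!
Squad CFZ, module MXN: mixing of names.
-/

set_option autoImplicit false

namespace Pool.Agent.CFZ

open CategoryTheory

theorem mxn_proof : Stmt_MXN := by
  intro c I u d f y hdisj hu hepi
  choose J dd g xs hxs using fun i => LN.exists_bld (y i)
  refine ⟨bld c (Σ i : I, J i) (fun t => dd t.1 t.2) (fun t => f t.1 ≫ g t.1 t.2)
    (fun t => xs t.1 t.2), fun i => ?_⟩
  refine LN.eqf_trans ?_ (LN.eqf_symm (hxs i))
  apply LN.ext'
  intro e h z
  rw [LN.r_r, LN.memf_bld, LN.memf_bld]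
  constructor
  · intro H e1 h1
    obtain ⟨e2, k, ⟨i', j⟩, n, h2, h3⟩ := H e1 h1
    have hi : i' = i := by
      by_contra hne
      have h4 := congrArg (fun a => a.h (u i)) h2
      have h5 := congrArg (fun a => a.h (u i')) h2
      simp only [Ob.comp_h, hu, CHom.map_top] at h4 h5
      have h6 := congrArg (fun x => n.h ((g i' j).h ((f i').h x))) (hdisj i i' (Ne.symm hne))
      simp only [CHom.map_inf, CHom.map_bot, ← h4, hu, CHom.map_top, inf_top_eq] at h6
      exact top_ne_bot h6
    subst hi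
    refine ⟨e2, k, j, n, ?_, h3⟩
    apply hepi
    simpa using h2
  · intro H e1 h1
    obtain ⟨e2, k, j, n, h2, h3⟩ := H e1 h1
    refine ⟨e2, k, ⟨i, j⟩, n, ?_, h3⟩
    simp only [Category.assoc]
    rw [h2]

end Pool.Agent.CFZ
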