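import Pool.Agent.CFZ.Stmts

/-!
# Squad CFZ, module NAT: the names of the natural numbers
-/

set_option autoImplicit false

namespace Pool.Agent.CFZ

open CategoryTheory

namespace NAT_

variable {C : Type 1} [Category.{0} C]

lemma fam_r {c d : C} (h : c ⟶ d) {ι : Type} (xs : ι → LN c) (ys : ι → LN d)
    (H : ∀ i, ((xs i).r h).eqf (ys i)) : ((fam c ι xs).r h).eqf (fam d ι ys) := by
  refine LN.ext' fun e h' z => ?_
  rw [LN.r_r, memf_fam, memf_fam]
  refine forall_congr' fun e1 => forall_congr' fun k => exists_congr fun e2 => exists_congr fun l =>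
    exists_congr fun i => ?_
  have h1 : ((xs i).r ((h ≫ h') ≫ k ≫ l)).eqf ((ys i).r (h' ≫ k ≫ l)) := by
    have h2 := LN.eqf_mono (H i) (h' ≫ k ≫ l)
    rw [LN.r_r] at h2
    have h3 : (h ≫ h') ≫ k ≫ l = h ≫ h' ≫ k ≫ l := Category.assoc _ _ _
    rw [h3]
    exact h2
  exact ⟨fun H' => LN.eqf_trans H' h1, fun H' => LN.eqf_trans H' (LN.eqf_symm h1)⟩

lemma natN_eq (c : C) (n : ℕ) : natN c n = fam c (Fin n) (fun i => natN c i.1) := by
  rw [natN]

lemma n1 (n : ℕ) : ∀ (c d : C) (h : c ⟶ d), ((natN c n).r h).eqf (natN d n) := by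
  induction n using Nat.strong_induction_on with
  | _ n ih =>
    intro c d h
    rw [natN_eq c n, natN_eq d n]
    exact fam_r h _ _ fun i => ih i.1 i.2 c d h

lemma memf_fam1 {c : C} {ι : Type} (N : (e : C) → ι → LN e)
    (hN : ∀ (c d : C) (h : c ⟶ d) (i : ι), ((N c i).r h).eqf (N d i)) (z : LN c) :
    z.memf (fam c ι (N c)) ↔ Dns (c := c) fun e h => ∃ i, (z.r h).eqf (N e i) := by
  have h0 := memf_fam (xs := N c) (𝟙 c) z
  rw [LN.r_id] at h0
  rw [h0]
  refine forall_congr' fun e1 => forall_congr' fun k => exists_congr fun e2 => exists_congr fun l =>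
    exists_congr fun i => ?_
  rw [Category.id_comp]
  have h1 := hN c e2 (k ≫ l) i
  exact ⟨fun H' => LN.eqf_trans H' h1, fun H' => LN.eqf_trans H' (LN.eqf_symm h1)⟩

lemma n4 (c : C) (z : LN c) (n : ℕ) : z.memf (natN c n) ↔
    Dns (c := c) fun e h => ∃ m < n, (z.r h).eqf (natN e m) := by
  rw [natN_eq c n, memf_fam1 (fun e (i : Fin n) => natN e i.1) (fun c d h i => n1 i.1 c d h)]
  refine forall_congr' fun e1 => forall_congr' fun k => exists_congr fun e2 => exists_congr fun l => ?_
  constructor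
  · rintro ⟨i, hi⟩
    exact ⟨i.1, i.2, hi⟩
  · rintro ⟨m, hm, hi⟩
    exact ⟨⟨m, hm⟩, hi⟩

lemma n3a {m n : ℕ} (h : m < n) (c : C) : (natN c m).memf (natN c n) := by
  rw [n4]
  intro d k
  exact ⟨d, 𝟙 d, m, h, n1 m c d _⟩

lemma irr (m : ℕ) : ∀ c : C, ¬ (natN c m).memf (natN c m) := by
  induction m using Nat.strong_induction_on with
  | _ m ih =>
    intro c hc
    rw [n4] at hc
    obtain ⟨e, k, i, hi, h1⟩ := hc c (𝟙 c)
    have h2 : (natN e m).eqf (natN e i) := LN.eqf_trans (LN.eqf_symm (n1 m c e _)) h1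
    exact ih i hi e (LN.memf_congr (LN.eqf_refl _) h2 (n3a hi e))

lemma n3b {m n : ℕ} {c : C} (h : (natN c m).eqf (natN c n)) : m = n := by
  rcases lt_trichotomy m n with h1 | h1 | h1
  · exact absurd (LN.memf_congr (LN.eqf_refl _) (LN.eqf_symm h) (n3a h1 c)) (irr m c)
  · exact h1
  · exact absurd (LN.memf_congr (LN.eqf_refl _) h (n3a h1 c)) (irr n c)

end NAT_

open NAT_ in
theorem nat_proof : Stmt_NAT := by
  intro C _
  refine ⟨fun c d h n => n1 n c d h, ?_, ?_, fun c z n => n4 c z n, ?_⟩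
  · intro c d h
    exact fam_r h _ _ fun i => n1 i c d h
  · intro c m n
    constructor
    · constructor
      · intro h
        rw [n4] at h
        obtain ⟨e, k, i, hi, h1⟩ := h c (𝟙 c)
        have h2 : (natN e m).eqf (natN e i) := LN.eqf_trans (LN.eqf_symm (n1 m c e _)) h1
        rw [n3b h2]
        exact hi
      · intro h
        exact n3a h c
    · constructor
      · intro h
        exact n3b h
      · intro h
        rw [h]
        exact LN.eqf_refl _
  · intro c z
    exact memf_fam1 (fun e (i : ℕ) => natN e i) (fun c d h i => n1 i c d h) z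

end Pool.Agent.CFZ
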