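import Pool.Agent.CFZ.Stmts

/-!
NIC: countably many predicates become elements of the algebra.
-/

set_option autoImplicit false

namespace Pool.Agent.CFZ

open CategoryTheory

namespace NIC_

/-- a predicate moved along an arrow -/
def push {c d : Ob} (P : FP c) (H : c ⟶ d) : FP d where
  p e k := P.p e (H ≫ k)
  mono := by
    intro e e' k l h
    rw [← Category.assoc]
    exact P.mono _ _ _ _ h
  reg := by
    intro e k h
    apply P.reg
    intro e' l
    obtain ⟨e'', m, h1⟩ := h e' l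
    refine ⟨e'', m, ?_⟩
    rw [Category.assoc]
    exact h1

theorem exists_ne_bot {A : Type} [CompleteBooleanAlgebra A] {I : Type} (w : I → A)
    (h : (⨆ i, w i) ≠ ⊥) : ∃ i, w i ≠ ⊥ := by
  by_contra hc
  push Not at hc
  exact h (by simp [hc])

theorem single (hRST : Stmt_RST) (hMIX : Stmt_MIX) (c : Ob) (P : FP c) :
    ∃ (d : Ob) (h : c ⟶ d) (v : d.A), Inj h ∧
      ∀ (e : Ob) (k : d ⟶ e), P.p e (h ≫ k) ↔ k.h v = ⊤ := by
  obtain ⟨d, h, I, u, hinj, -, -, hu, hD⟩ := hMIX c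
    (fun d h => P.p d h ∨ ∀ (e : Ob) (k : d ⟶ e), ¬ P.p e (h ≫ k)) (by
      intro d e h k hd
      rcases hd with hd | hd
      · exact Or.inl (P.mono _ _ _ _ hd)
      · refine Or.inr fun e' k' => ?_
        rw [Category.assoc]
        exact hd e' (k ≫ k')) (by
      intro d h
      by_cases hc : ∃ (e : Ob) (k : d ⟶ e), P.p e (h ≫ k)
      · obtain ⟨e, k, h1⟩ := hc
        exact ⟨e, k, Or.inl h1⟩
      · push Not at hc
        refine ⟨d, 𝟙 d, Or.inr ?_⟩
        rw [Category.comp_id]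
        exact hc)
  refine ⟨d, h, ⨆ i : {i : I // ∀ (e : Ob) (k : d ⟶ e), k.h (u i) = ⊤ → P.p e (h ≫ k)}, u i.1,
    hinj, ?_⟩
  intro e k
  constructor
  · intro hP
    by_contra hv
    have h1 : (k.h (⨆ i : {i : I // ∀ (e : Ob) (k : d ⟶ e), k.h (u i) = ⊤ → P.p e (h ≫ k)},
        u i.1))ᶜ ≠ ⊥ := by
      intro h2
      rw [compl_eq_bot] at h2
      exact hv h2
    have h2 : (⨆ i, k.h (u i) ⊓ (k.h (⨆ i : {i : I // ∀ (e : Ob) (k : d ⟶ e),
        k.h (u i) = ⊤ → P.p e (h ≫ k)}, u i.1))ᶜ) ≠ ⊥ := by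
      rw [← iSup_inf_eq, ← CHom.map_iSup, hu, CHom.map_top, top_inf_eq]
      exact h1
    obtain ⟨i, hi⟩ := exists_ne_bot _ h2
    obtain ⟨e', k', h3, -⟩ := hRST e _ hi
    rw [CHom.map_inf, inf_eq_top_iff] at h3
    have h4 : u i ≠ ⊥ := by
      intro h4
      rw [h4] at hi
      simp at hi
    obtain ⟨r, l, hl1, -, -, hl2, -⟩ := hRST d (u i) h4
    obtain ⟨m', hm'⟩ := hl2 e' (k ≫ k') h3.1
    have h5 : P.p e' (h ≫ l ≫ m') := by
      rw [hm', ← Category.assoc]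
      exact P.mono _ _ _ _ hP
    have hgood : ∀ (e : Ob) (k : d ⟶ e), k.h (u i) = ⊤ → P.p e (h ≫ k) := by
      intro e1 k1 hk1
      obtain ⟨m1, hm1⟩ := hl2 e1 k1 hk1
      rw [← hm1, ← Category.assoc]
      rcases hD r l i hl1 with h6 | h6
      · exact P.mono _ _ _ _ h6
      · exact absurd (by rw [Category.assoc]; exact h5) (h6 e' m')
    have h6 : u i ≤ ⨆ i : {i : I // ∀ (e : Ob) (k : d ⟶ e), k.h (u i) = ⊤ → P.p e (h ≫ k)},
        u i.1 := le_iSup (fun i : {i : I // ∀ (e : Ob) (k : d ⟶ e), k.h (u i) = ⊤ →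
          P.p e (h ≫ k)} => u i.1) ⟨i, hgood⟩
    apply hi
    rw [← disjoint_iff]
    exact (disjoint_compl_right (a := k.h (⨆ i : {i : I // ∀ (e : Ob) (k : d ⟶ e),
      k.h (u i) = ⊤ → P.p e (h ≫ k)}, u i.1))).mono_left (k.h.mono h6)
  · intro hv
    apply P.reg
    intro e' k'
    have h1 : (⨆ i : {i : I // ∀ (e : Ob) (k : d ⟶ e), k.h (u i) = ⊤ → P.p e (h ≫ k)},
        (k ≫ k').h (u i.1)) ≠ ⊥ := by
      rw [← CHom.map_iSup, Ob.comp_h, hv, CHom.map_top]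
      exact top_ne_bot
    obtain ⟨i, hi⟩ := exists_ne_bot _ h1
    obtain ⟨e'', l, h2, -⟩ := hRST e' _ hi
    refine ⟨e'', l, ?_⟩
    have h3 := i.2 e'' ((k ≫ k') ≫ l) h2
    simpa [Category.assoc] using h3

/-- a stage over `c` -/
structure St (c : Ob) where
  d : Ob
  H : c ⟶ d

theorem exists_step (hRST : Stmt_RST) (hMIX : Stmt_MIX) {c : Ob} (P : FP c) (s : St c) :
    ∃ (d : Ob) (h : s.d ⟶ d) (v : d.A), Inj h ∧
      ∀ (e : Ob) (k : d ⟶ e), P.p e (s.H ≫ h ≫ k) ↔ k.h v = ⊤ :=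
  single hRST hMIX s.d (push P s.H)

/-- the sequence of stages -/
noncomputable def sq (hRST : Stmt_RST) (hMIX : Stmt_MIX) {c : Ob} (P : ℕ → FP c) : ℕ → St c
  | 0 => ⟨c, 𝟙 c⟩
  | n + 1 => ⟨(exists_step hRST hMIX (P n) (sq hRST hMIX P n)).choose,
      (sq hRST hMIX P n).H ≫ (exists_step hRST hMIX (P n) (sq hRST hMIX P n)).choose_spec.choose⟩

end NIC_

open NIC_

/-- countably many predicates become elements of the algebra -/
theorem nic_proof (hRST : Stmt_RST) (hMIX : Stmt_MIX) (hLOB : Stmt_LOB) : Stmt_NIC := by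
  intro c P
  have hs : ∀ n, ∃ (h : (sq hRST hMIX P n).d ⟶ (sq hRST hMIX P (n + 1)).d)
      (v : (sq hRST hMIX P (n + 1)).d.A), Inj h ∧
      (sq hRST hMIX P (n + 1)).H = (sq hRST hMIX P n).H ≫ h ∧
      ∀ (e : Ob) (k : (sq hRST hMIX P (n + 1)).d ⟶ e),
        (P n).p e ((sq hRST hMIX P n).H ≫ h ≫ k) ↔ k.h v = ⊤ := by
    intro n
    have h1 := (exists_step hRST hMIX (P n) (sq hRST hMIX P n)).choose_spec.choose_spec
    obtain ⟨v, hv1, hv2⟩ := h1
    exact ⟨(exists_step hRST hMIX (P n) (sq hRST hMIX P n)).choose_spec.choose, v, hv1, rfl, hv2⟩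
  choose h v hinj hH hv using hs
  obtain ⟨d, k, hk, hki⟩ := hLOB (fun n => (sq hRST hMIX P n).d) h hinj
  have hk0 : ∀ n, (sq hRST hMIX P n).H ≫ k n = k 0 := by
    intro n
    induction n with
    | zero => exact Category.id_comp _
    | succ n ih => rw [hH, Category.assoc, hk, ih]
  refine ⟨d, k 0, fun n => (k (n + 1)).h (v n), hki 0, ?_⟩
  intro n e l
  have h1 := hv n e (k (n + 1) ≫ l)
  rw [Ob.comp_h, ← Category.assoc, ← Category.assoc, ← hH, hk0] at h1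
  exact h1

end Pool.Agent.CFZ
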