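import Pool.Agent.CFZ.Stmts
set_option autoImplicit false
namespace Pool.Agent.CFZ

open CategoryTheory

namespace NRF_

theorem rl_mono {c d : Ob} (X : LN c) (x : ℕ → ℕ → c.A) (h : c ⟶ d) (hX : IsRl X x) :
    IsRl (X.r h) (fun n m => h.h (x n m)) := by
  intro e k z
  rw [LN.r_r, hX e (h ≫ k) z]
  simp only [Ob.comp_h]

/-- a supremum equal to top is met at an extension -/
theorem meet (hRST : Stmt_RST) {d : Ob} {ι : Sort*} (w : ι → d.A)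
    (hw : (⨆ i, w i) = ⊤) : ∃ (e : Ob) (l : d ⟶ e) (i : ι), l.h (w i) = ⊤ := by
  have h1 : ∃ i, w i ≠ ⊥ := by
    by_contra hcon
    push Not at hcon
    have h2 : (⨆ i, w i) = ⊥ := by simp [hcon]
    rw [h2] at hw
    exact bot_ne_top hw
  obtain ⟨i, hi⟩ := h1
  obtain ⟨e, l, hl, -⟩ := hRST d _ hi
  exact ⟨e, l, i, hl⟩

end NRF_

theorem nrf_proof (hRST : Stmt_RST) (hNAT : Stmt_NAT) (hOPN : Stmt_OPN) (hNRE : Stmt_NRE) :
    Stmt_NRF := by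
  intro c X x hX hR
  have hel : ∀ (d : Ob) (h : c ⟶ d) (n m : ℕ),
      (opN (natN d n) (natN d m)).memf (X.r h) ↔ h.h (x n m) = ⊤ := fun d h n m =>
    ((hNRE d).1 (X.r h) _ (NRF_.rl_mono X x h hX)).1 n m
  unfold RealV at hR
  rw [inf_eq_top_iff] at hR
  obtain ⟨h1, h2⟩ := hR
  have homN : ∀ (c d : Ob) (h : c ⟶ d), ((omN c).r h).eqf (omN d) := (hNAT Ob).2.1
  have hnat : ∀ (d : Ob) (n : ℕ), (natN d n).memf (omN d) := by
    intro d n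
    rw [(hNAT Ob).2.2.2.2]
    intro e h
    exact ⟨e, 𝟙 e, n, by simpa using (hNAT Ob).1 d e h n⟩
  have hmemom : ∀ (d : Ob) (h : c ⟶ d) (z : LN d), z.memf ((omN c).r h) ↔ z.memf (omN d) := by
    intro d h z
    have := LN.memf_iff_of_eqf (homN c d h) (𝟙 d) z
    rwa [LN.r_id, LN.r_id] at this
  refine ⟨?_, ?_, ?_⟩
  · intro d h p hp e k
    obtain ⟨e2, l, i, h3, h4⟩ := (hX d h p).1 hp e k
    refine ⟨e2, l, natN e2 i.1, natN e2 i.2, ?_, ?_, h4⟩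
    · rw [hmemom]; exact hnat e2 _
    · rw [hmemom]; exact hnat e2 _
  · intro d h a ha e k
    rw [hmemom, (hNAT Ob).2.2.2.2] at ha
    obtain ⟨e2, l, n, h3⟩ := ha e k
    have h4 : (⨆ m, (h ≫ k ≫ l).h (x n m)) = ⊤ := by
      rw [← CHom.map_iSup, iInf_eq_top.1 h1 n, CHom.map_top]
    obtain ⟨e3, l', m, h5⟩ := NRF_.meet hRST _ h4
    refine ⟨e3, l ≫ l', natN e3 m, ?_, ?_⟩
    · rw [hmemom]; exact hnat e3 _
    · have h6 : (a.r (k ≫ l ≫ l')).eqf (natN e3 n) := by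
        have := LN.eqf_trans (LN.eqf_mono h3 l') ((hNAT Ob).1 e2 e3 l' n)
        simpa using this
      refine LN.memf_congr (((hOPN Ob).2.1 e3 _ _ _ _).2 ⟨LN.eqf_symm h6, LN.eqf_refl _⟩)
        (LN.eqf_refl _) ?_
      rw [hel]
      simpa using h5
  · intro d h a b b' ha hb hb'
    refine LN.eqf_reg fun e k => ?_
    obtain ⟨e2, l, i, h3, h4⟩ := (hX d h _).1 hb e k
    obtain ⟨e3, l', j, h5, h6⟩ := (hX d h _).1 hb' e2 (k ≫ l)
    have h4' : ((opN a b).r (k ≫ l ≫ l')).eqf (opN (natN e3 i.1) (natN e3 i.2)) := by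
      have h7 := LN.eqf_mono h4 l'
      rw [LN.r_r] at h7
      have h8 := (hOPN Ob).1 e2 e3 l' (natN e2 i.1) (natN e2 i.2)
      have h9 := ((hOPN Ob).2.1 e3 _ _ _ _).2 ⟨(hNAT Ob).1 e2 e3 l' i.1, (hNAT Ob).1 e2 e3 l' i.2⟩
      have := LN.eqf_trans (LN.eqf_trans h7 h8) h9
      simpa using this
    have h6' : ((opN a b').r (k ≫ l ≫ l')).eqf (opN (natN e3 j.1) (natN e3 j.2)) := by
      simpa using h6
    have h7 := ((hOPN Ob).2.1 e3 _ _ _ _).1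
      (LN.eqf_trans (LN.eqf_symm ((hOPN Ob).1 d e3 (k ≫ l ≫ l') a b)) h4')
    have h8 := ((hOPN Ob).2.1 e3 _ _ _ _).1
      (LN.eqf_trans (LN.eqf_symm ((hOPN Ob).1 d e3 (k ≫ l ≫ l') a b')) h6')
    have h9 : i.1 = j.1 := (((hNAT Ob).2.2.1 e3 i.1 j.1).2).1
      (LN.eqf_trans (LN.eqf_symm h7.1) h8.1)
    have hi : (h ≫ k ≫ l ≫ l').h (x i.1 i.2) = ⊤ := by
      have : (h ≫ k ≫ l ≫ l').h (x i.1 i.2) = l'.h ((h ≫ k ≫ l).h (x i.1 i.2)) := by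
        simp only [Ob.comp_h]
      rw [this, h3, CHom.map_top]
    have hj : (h ≫ k ≫ l ≫ l').h (x i.1 j.2) = ⊤ := by
      rw [h9]
      simpa using h5
    have h10 : i.2 = j.2 := by
      by_contra hne
      have h11 : (x i.1 i.2 ⊓ x i.1 j.2)ᶜ = ⊤ := by
        have := iInf_eq_top.1 (iInf_eq_top.1 (iInf_eq_top.1 (iInf_eq_top.1 h2 i.1) i.2) j.2) hne
        exact this
      have h12 : x i.1 i.2 ⊓ x i.1 j.2 = ⊥ := compl_eq_top.1 h11
      have h13 : (h ≫ k ≫ l ≫ l').h (x i.1 i.2 ⊓ x i.1 j.2) = ⊥ := by rw [h12, CHom.map_bot]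
      rw [CHom.map_inf, hi, hj, inf_top_eq] at h13
      exact top_ne_bot h13
    refine ⟨e3, l ≫ l', ?_⟩
    have h14 := h7.2
    have h15 := h8.2
    rw [← h10] at h15
    exact LN.eqf_trans h14 (LN.eqf_symm h15)

end Pool.Agent.CFZ
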