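import Pool.Agent.CFZ.Stmts

/-!
Squad CFZ, module NRM: nice names of Miller trees.
-/

set_option autoImplicit false

namespace Pool.Agent.CFZ

open CategoryTheory

namespace NRM_

/-- a supremum equal to top is met at an extension -/
theorem meet (hRST : Stmt_RST) {c d : Ob} {ι : Sort*} (h : c ⟶ d) (w : ι → c.A)
    (hw : h.h (⨆ i, w i) = ⊤) : ∃ (e : Ob) (l : d ⟶ e) (i : ι), (h ≫ l).h (w i) = ⊤ := by
  have h1 : ∃ i, h.h (w i) ≠ ⊥ := by
    by_contra hcon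
    push Not at hcon
    rw [CHom.map_iSup] at hw
    have h2 : (⨆ i, h.h (w i)) = ⊥ := by simp [hcon]
    rw [h2] at hw
    exact bot_ne_top hw
  obtain ⟨i, hi⟩ := h1
  obtain ⟨e, l, hl, -⟩ := hRST d _ hi
  exact ⟨e, l, i, hl⟩

theorem tr_mono {c d : Ob} (X : LN c) (S : List ℕ → c.A) (h : c ⟶ d) (hX : IsTr X S) :
    IsTr (X.r h) (fun t => h.h (S t)) := by
  intro e k z
  rw [LN.r_r, hX e (h ≫ k) z]
  simp only [Ob.comp_h]

theorem prefix_le {A : Type} [CompleteBooleanAlgebra A] (S : List ℕ → A)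
    (hS : ∀ (s : List ℕ) (k : ℕ), S (s ++ [k]) ≤ S s) (t r : List ℕ) : S (t ++ r) ≤ S t := by
  induction r using List.reverseRecOn with
  | nil => simp
  | append_singleton r k ih =>
    rw [← List.append_assoc]
    exact (hS _ _).trans ih

end NRM_

theorem nrm_proof (hRST : Stmt_RST) (_hSQA : Stmt_SQA) (hNRE : Stmt_NRE) : Stmt_NRM := by
  intro c X S hX hM
  have hmem : ∀ (d : Ob) (h : c ⟶ d) (s : List ℕ),
      (seqN d s).memf (X.r h) ↔ h.h (S s) = ⊤ := fun d h s =>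
    (hNRE d).2 (X.r h) (fun t => h.h (S t)) (NRM_.tr_mono X S h hX) s
  unfold MilV at hM
  rw [inf_eq_top_iff, inf_eq_top_iff] at hM
  obtain ⟨⟨h0, h1⟩, h2⟩ := hM
  have h1' : ∀ (s : List ℕ) (k : ℕ), S (s ++ [k]) ≤ S s := by
    intro s k
    have h3 := iInf_eq_top.1 (iInf_eq_top.1 h1 s) k
    exact himp_eq_top_iff.1 h3
  have h2' : ∀ s, S s ≤ ⨆ (t) (_ : s <+: t), (S t ⊓ ⨅ n : ℕ, ⨆ (k) (_ : n < k), S (t ++ [k])) := by
    intro s
    exact himp_eq_top_iff.1 (iInf_eq_top.1 h2 s)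
  refine ⟨?_, ?_, ?_, ?_⟩
  · intro d h z hz e k
    obtain ⟨e2, l, s, -, h4⟩ := (hX d h z).1 hz e k
    exact ⟨e2, l, s, h4⟩
  · intro d h s t hts hs
    rw [hmem] at hs ⊢
    obtain ⟨r, rfl⟩ := hts
    have h3 := CHom.mono h.h (NRM_.prefix_le S h1' t r)
    rw [hs] at h3
    exact top_le_iff.1 h3
  · intro d h
    refine ⟨d, 𝟙 d, [], ?_⟩
    rw [hmem, h0, CHom.map_top]
  · intro d h s hs d1 k1
    rw [hmem] at hs
    have h3 : (h ≫ k1).h (⨆ (t : {t : List ℕ // s <+: t}),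
        (S t.1 ⊓ ⨅ n : ℕ, ⨆ (k) (_ : n < k), S (t.1 ++ [k]))) = ⊤ := by
      have h4 := CHom.mono (h ≫ k1).h (h2' s)
      rw [Ob.comp_h, hs, CHom.map_top, top_le_iff] at h4
      rw [iSup_subtype]
      exact h4
    obtain ⟨e, l, ⟨t, hst⟩, ht⟩ := NRM_.meet hRST (h ≫ k1) _ h3
    rw [CHom.map_inf, inf_eq_top_iff] at ht
    refine ⟨e, l, t, hst, ?_, ?_⟩
    · rw [hmem]
      simpa using ht.1
    · intro n e1 k2
      have h5 := ht.2
      rw [CHom.map_iInf, iInf_eq_top] at h5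
      have h6 : (((h ≫ k1) ≫ l) ≫ k2).h (⨆ (k : {k : ℕ // n < k}), S (t ++ [k.1])) = ⊤ := by
        rw [iSup_subtype, Ob.comp_h, h5 n, CHom.map_top]
      obtain ⟨e', l', ⟨m, hm⟩, h7⟩ := NRM_.meet hRST _ _ h6
      refine ⟨e', l', m, hm, ?_⟩
      rw [hmem]
      simpa using h7

end Pool.Agent.CFZ
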