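import Pool.Agent.CFZ.Stmts

/-!
Squad CFZ: existence and uniqueness of nice names.
-/

set_option autoImplicit false

namespace Pool.Agent.CFZ

open CategoryTheory

namespace NRN_

theorem exists_set (hRST : Stmt_RST) (c : Ob) {ι : Type} (V : (d : Ob) → ι → LN d)
    (hV : ∀ (d e : Ob) (h : d ⟶ e) (i : ι), ((V d i).r h).eqf (V e i)) (S : ι → c.A) :
    ∃ X : LN c, IsSet X V (fun i _ h => h.h (S i) = ⊤) := by
  choose e k hk using hRST c
  refine ⟨bld c (ULift.{1} {i : ι // S i ≠ ⊥}) (fun i => e (S i.down.1) i.down.2)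
    (fun i => k (S i.down.1) i.down.2) (fun i => V _ i.down.1), ?_⟩
  intro d h z
  rw [LN.memf_bld]
  constructor
  · intro H e1 k1
    obtain ⟨e2, l, i, n, h1, h2⟩ := H e1 k1
    refine ⟨e2, l, i.down.1, ?_, ?_⟩
    · rw [h1]
      show (k _ i.down.2 ≫ n).h (S i.down.1) = ⊤
      rw [Ob.comp_h, (hk _ i.down.2).1, CHom.map_top]
    · exact LN.eqf_trans h2 (hV _ _ n _)
  · intro H e1 k1
    obtain ⟨e2, l, i, h1, h2⟩ := H e1 k1
    have hne : S i ≠ ⊥ := by
      intro h0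
      rw [h0, CHom.map_bot] at h1
      exact bot_ne_top h1
    obtain ⟨m, hm⟩ := (hk _ hne).2.2.2.1 e2 (h ≫ k1 ≫ l) h1
    exact ⟨e2, l, ⟨⟨i, hne⟩⟩, m, hm.symm, LN.eqf_trans h2 (LN.eqf_symm (hV _ _ m _))⟩

theorem unique_set {c : Ob} {ι : Type} {X Y : LN c} {V : (d : Ob) → ι → LN d}
    {S : ι → (d : Ob) → (c ⟶ d) → Prop} (hX : IsSet X V S) : IsSet Y V S ↔ X.eqf Y := by
  constructor
  · intro hY
    exact LN.ext' fun d h z => (hX d h z).trans (hY d h z).symm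
  · intro hXY d h z
    exact (LN.memf_iff_of_eqf hXY h z).symm.trans (hX d h z)

theorem move_set {c d : Ob} {ι : Type} {X : LN c} {V : (d : Ob) → ι → LN d}
    {S : ι → c.A} (h : c ⟶ d) (hX : IsSet X V (fun i _ h => h.h (S i) = ⊤)) :
    IsSet (X.r h) V (fun i _ k => k.h (h.h (S i)) = ⊤) := by
  intro e k z
  rw [LN.r_r, hX e (h ≫ k) z]
  simp only [Category.assoc, Ob.comp_h]

end NRN_

open NRN_ in
theorem nrn_proof (hRST : Stmt_RST) (hNAT : Stmt_NAT) (hOPN : Stmt_OPN) (hSQA : Stmt_SQA) :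
    Stmt_NRN := by
  intro c
  have hVr : ∀ (d e : Ob) (h : d ⟶ e) (i : ℕ × ℕ),
      ((opN (natN d i.1) (natN d i.2)).r h).eqf (opN (natN e i.1) (natN e i.2)) := by
    intro d e h i
    refine LN.eqf_trans ((hOPN Ob).1 d e h _ _) ?_
    rw [(hOPN Ob).2.1]
    exact ⟨(hNAT Ob).1 d e h _, (hNAT Ob).1 d e h _⟩
  have hVt : ∀ (d e : Ob) (h : d ⟶ e) (s : List ℕ), ((seqN d s).r h).eqf (seqN e s) :=
    fun d e h s => (hSQA Ob).1 d e h s
  refine ⟨fun x => ?_, fun S => ?_, fun X Y x hX => unique_set hX, fun X Y S hX => unique_set hX,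
    fun X x d h hX => ?_, fun X S d h hX => ?_⟩
  · exact exists_set hRST c (fun d (i : ℕ × ℕ) => opN (natN d i.1) (natN d i.2)) hVr
      (fun i => x i.1 i.2)
  · exact exists_set hRST c (fun d (s : List ℕ) => seqN d s) hVt S
  · exact move_set (S := fun i : ℕ × ℕ => x i.1 i.2) h hX
  · exact move_set (S := S) h hX

end Pool.Agent.CFZ
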