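import Pool.Agent.CFZ.Stmts

/-!
NWT: the theorem of Nash-Williams for block sequences.
-/

set_option autoImplicit false

namespace Pool.Agent.CFZ

namespace NWT_

variable {A : Type} [CompleteBooleanAlgebra A]

theorem gt_sub {t : L} {u w : Finset ℕ} (h : Gt t u) (hw : w ⊆ u) (hn : w.Nonempty) : Gt t w :=
  ⟨hn, fun x hx i hi j hj => h.2 x hx i hi j (hw hj)⟩

/-- transitivity beyond `t` -/
theorem sp_of_gt {t : L} {a : A} {E' E : Finset ℕ → A} (h0 : E' ∅ = ⊥)
    (h : ∀ u, Gt t u → a ⊓ E' u ≤ SpV E u) (u : Finset ℕ) (hu : Gt t u) :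
    a ⊓ SpV E' u ≤ SpV E u :=
  SpV_trans a E' E u h0 fun w hw hn => h w (gt_sub hu hw hn)

theorem leV_le {E' E : Finset ℕ → A} (h : LeV E' E = ⊤) (u : Finset ℕ) : E' u ≤ SpV E u := by
  have h1 : (E' u ⇨ SpV E u) = ⊤ := top_le_iff.1 (h ▸ iInf_le _ u)
  exact himp_eq_top_iff.1 h1

theorem leV_of {E' E : Finset ℕ → A} (h : ∀ u, E' u ≤ SpV E u) : LeV E' E = ⊤ := by
  rw [← top_le_iff]
  exact le_iInf fun u => (himp_eq_top_iff.2 (h u)).ge

theorem sp_mono {E' E : Finset ℕ → A} (h0 : E' ∅ = ⊥) (h : LeV E' E = ⊤) (u : Finset ℕ) :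
    SpV E' u ≤ SpV E u := by
  have h1 := SpV_trans ⊤ E' E u h0 (fun w _ _ => by rw [top_inf_eq]; exact leV_le h w)
  rwa [top_inf_eq] at h1

theorem leV_trans {E1 E2 E3 : Finset ℕ → A} (h0 : E2 ∅ = ⊥) (h : LeV E1 E2 = ⊤)
    (h' : LeV E2 E3 = ⊤) : LeV E1 E3 = ⊤ :=
  leV_of fun u => (leV_le h u).trans (sp_mono h0 h' u)

theorem exists_bound (t : L) : ∃ m, ∀ u ∈ t, ∀ i ∈ u, i < m := by
  induction t with
  | nil => exact ⟨0, fun u hu => by simp at hu⟩
  | cons w t ih =>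
    obtain ⟨m, hm⟩ := ih
    refine ⟨max m (w.sup id + 1), ?_⟩
    intro u hu i hi
    rcases List.mem_cons.1 hu with rfl | hu
    · have h1 : i ≤ u.sup id := Finset.le_sup (f := id) hi
      exact lt_of_lt_of_le (Nat.lt_succ_of_le h1) (le_max_right _ _)
    · exact lt_of_lt_of_le (hm u hu i hi) (le_max_left _ _)

open Classical in
/-- the part beyond `t` -/
noncomputable def bey (t : L) (E : Finset ℕ → A) (u : Finset ℕ) : A := if Gt t u then E u else ⊥

theorem bey_le (t : L) (E : Finset ℕ → A) (u : Finset ℕ) : bey t E u ≤ E u := by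
  unfold bey
  split_ifs
  · exact le_rfl
  · exact bot_le

theorem bey_eq {t : L} (E : Finset ℕ → A) {u : Finset ℕ} (h : Gt t u) : bey t E u = E u :=
  if_pos h

theorem blk_bey (t : L) {E : Finset ℕ → A} (h : BlkV E = ⊤) : BlkV (bey t E) = ⊤ := by
  have h0 := BlkV_empty h
  unfold BlkV at h
  rw [inf_eq_top_iff, inf_eq_top_iff] at h
  obtain ⟨⟨h1, h2⟩, h3⟩ := h
  unfold BlkV
  rw [inf_eq_top_iff, inf_eq_top_iff]
  refine ⟨⟨?_, ?_⟩, ?_⟩
  · rw [compl_eq_top, ← le_bot_iff]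
    exact (bey_le t E ∅).trans h0.le
  · rw [← top_le_iff, ← h2]
    refine iInf_mono fun u => iInf_mono fun v => iInf_mono fun _ => ?_
    exact compl_le_compl (inf_le_inf (bey_le t E u) (bey_le t E v))
  · obtain ⟨m, hm⟩ := exists_bound t
    rw [iInf_eq_top] at h3 ⊢
    intro n
    rw [← top_le_iff, ← h3 (max n m)]
    refine iSup₂_le fun u hu => ?_
    rcases Finset.eq_empty_or_nonempty u with rfl | hne
    · rw [h0]
      exact bot_le
    · have hg : Gt t u := ⟨hne, fun w hw i hi j hj =>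
        (hm w hw i hi).trans_le ((le_max_right n m).trans (hu j hj).le)⟩
      refine le_trans (bey_eq E hg).ge ?_
      exact le_iSup₂ (f := fun u (_ : ∀ i ∈ u, n < i) => bey t E u) u
        (fun i hi => (le_max_left n m).trans_lt (hu i hi))

theorem sp_le_hit (E : Finset ℕ → A) (u : Finset ℕ) (m : ℕ) (hm : m ∈ u) :
    SpV E u ≤ hitV E m := by
  unfold SpV
  refine iSup₂_le ?_
  rintro W ⟨-, rfl⟩
  obtain ⟨w, hw, hmw⟩ := Finset.mem_sup.1 hm
  exact (iInf₂_le w hw).trans (le_iSup₂ (f := fun u (_ : m ∈ u) => E u) w hmw)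

theorem le_kap (m0 : ℕ) (t r : L) (ht : ∀ u ∈ t, ∀ i ∈ u, i < m0) (E : Finset ℕ → A) :
    (⨅ u ∈ r, SpV E u) ≤ kapV m0 (t ++ r) E := by
  unfold kapV
  refine le_iInf fun u => le_iInf fun hu => le_iInf fun m => le_iInf fun hm => ?_
  rcases List.mem_append.1 hu with hu | hu
  · exact absurd (ht u hu m hm.1) (not_lt.2 hm.2)
  · exact (iInf₂_le u hu).trans (sp_le_hit E u m hm.1)

end NWT_

open NWT_

/-- the theorem of Nash-Williams for block sequences -/
theorem nwt_proof (hHNA : Stmt_HNA) (hDIA : Stmt_DIA) (hWPR : Stmt_WPR) (hACC : Stmt_ACC) :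
    Stmt_NWT := by
  intro A _ O t E ht hE
  obtain ⟨m0, hm0⟩ := exists_bound t
  -- the fixed point
  have hfix : ∀ E t, WV O E t = O t ⊔ ⨅ (u) (_ : Gt t u), (SpV E u ⇨ WV O E (t ++ [u])) :=
    fun E => (hWPR A O E).1
  have hmono : ∀ (E E' : Finset ℕ → A) (t : L) (a : A), E' ∅ = ⊥ →
      (∀ u, Gt t u → a ⊓ E' u ≤ SpV E u) → a ⊓ WV O E t ≤ WV O E' t :=
    fun E E' t a h0 h => (hWPR A O E).2.2 O E' t a h0 (fun r _ => inf_le_right) h
  have hmono' : ∀ (E E' : Finset ℕ → A) (t : L), E' ∅ = ⊥ → LeV E' E = ⊤ →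
      WV O E t ≤ WV O E' t := by
    intro E E' t h0 h
    have h1 := hmono E E' t ⊤ h0 (fun u _ => by rw [top_inf_eq]; exact leV_le h u)
    rwa [top_inf_eq] at h1
  -- first diagonalisation
  obtain ⟨E1, hE1, hE1E, hQ1⟩ := hDIA A
    (fun t E a => ∀ a' ≤ a, ∀ E'', BlkV E'' = ⊤ → (∀ u, Gt t u → a' ⊓ E'' u ≤ SpV E u) →
      a' ⊓ WV O E'' t ≤ WV O E t) m0 E hE (by
      intro t E1 E2 a a' hE1 hE2 _ _ hQ haa h12 a'' ha'' E'' hE'' hsp
      have h1 : ∀ u, Gt t u → a'' ⊓ E'' u ≤ SpV E1 u := by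
        intro u hu
        refine le_trans (le_inf inf_le_left (hsp u hu)) ?_
        exact sp_of_gt (BlkV_empty hE2) (fun u hu => (inf_le_inf_right _ ha'').trans (h12 u hu)) u hu
      have h2 := hQ a'' (ha''.trans haa) E'' hE'' h1
      exact (le_inf inf_le_left h2).trans (hmono E1 E2 t a'' (BlkV_empty hE2)
        (fun u hu => (inf_le_inf_right _ ha'').trans (h12 u hu)))) (by
      intro t E1 _ hE1 _
      obtain ⟨E2, h1, h2, h3⟩ := hACC A O t E1 hE1
      exact ⟨E2, h1, h2, fun a' _ E'' hE'' hsp => h3 a' E'' hE'' hsp⟩)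
  have h01 := BlkV_empty hE1
  -- second diagonalisation
  obtain ⟨E2, hE2, hE21, hQ2⟩ := hDIA A
    (fun t E a => ∀ u, Gt t u → a ⊓ kapV m0 t E1 ⊓ (WV O E1 t)ᶜ ⊓ SpV E u ≤
      (WV O E1 (t ++ [u]))ᶜ) m0 E1 hE1 (by
      intro t E3 E4 a a' _ hE4 _ _ hQ haa h34 u hu
      refine le_trans ?_ (hQ u hu)
      refine le_inf (inf_le_left.trans (inf_le_inf_right _ (inf_le_inf_right _ haa))) ?_
      refine le_trans (le_inf (inf_le_left.trans (inf_le_left.trans inf_le_left)) inf_le_right)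
        (sp_of_gt (BlkV_empty hE4) h34 u hu)) (by
      intro t E3 htb hE3 hE31
      obtain ⟨E4, w, hE4, hE43, hw⟩ := hHNA A (bey t E3) (fun u => WV O E1 (t ++ [u]))
        (blk_bey t hE3)
      have h04 := BlkV_empty hE4
      have hE43' : LeV E4 E3 = ⊤ := leV_trans (BlkV_empty (blk_bey t hE3)) hE43
        (leV_of fun u => (bey_le t E3 u).trans (le_SpV _ _))
      have hE41 : LeV E4 E1 = ⊤ := leV_trans (BlkV_empty hE3) hE43' hE31
      refine ⟨E4, hE4, hE43', ?_⟩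
      have h1 : w ≤ WV O E4 t := by
        rw [hfix]
        refine le_sup_of_le_right (le_iInf₂ fun u _ => ?_)
        rw [le_himp_iff]
        exact (hw u).1.trans (hmono' E1 E4 _ h04 hE41)
      have h2 : kapV m0 t E1 ⊓ WV O E4 t ≤ WV O E1 t :=
        hQ1 t htb _ le_rfl E4 hE4 (fun u _ => inf_le_right.trans (leV_le hE41 u))
      have h3 : kapV m0 t E1 ⊓ (WV O E1 t)ᶜ ≤ wᶜ := by
        rw [le_compl_iff_disjoint_right, disjoint_iff_inf_le]
        calc kapV m0 t E1 ⊓ (WV O E1 t)ᶜ ⊓ w ≤ (WV O E1 t)ᶜ ⊓ WV O E1 t :=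
              le_inf (inf_le_left.trans inf_le_right)
                ((inf_le_inf inf_le_left h1).trans h2)
          _ = ⊥ := compl_inf_self _
      intro u _
      refine le_trans ?_ (hw u).2
      refine le_inf (inf_le_left.trans (le_trans ?_ h3)) inf_le_right
      exact inf_le_inf_right _ inf_le_right)
  have h02 := BlkV_empty hE2
  refine ⟨E2, WV O E1 t, hE2, leV_trans h01 hE21 hE1E, hmono' E1 E2 t h02 hE21, ?_⟩
  have hmain : ∀ r, Blist (t ++ r) →
      (WV O E1 t)ᶜ ⊓ (⨅ u ∈ r, SpV E2 u) ≤ (WV O E1 (t ++ r))ᶜ := by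
    intro r
    induction r using List.reverseRecOn with
    | nil =>
      intro _
      rw [List.append_nil]
      exact inf_le_left
    | append_singleton r v ih =>
      intro hb
      rw [← List.append_assoc] at hb ⊢
      have hb' : Blist (t ++ r) := ⟨fun u hu => hb.1 u (List.mem_append_left _ hu),
        (List.pairwise_append.1 hb.2).1⟩
      have hg : Gt (t ++ r) v := ⟨hb.1 v (List.mem_append_right _ (by simp)),
        fun w hw => (List.pairwise_append.1 hb.2).2.2 w hw v (by simp)⟩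
      have h1 : (⨅ u ∈ r ++ [v], SpV E2 u) ≤ ⨅ u ∈ r, SpV E2 u :=
        le_iInf₂ fun u hu => iInf₂_le u (List.mem_append_left _ hu)
      have h2 : (⨅ u ∈ r ++ [v], SpV E2 u) ≤ SpV E2 v :=
        iInf₂_le v (List.mem_append_right _ (by simp))
      refine le_trans ?_ (hQ2 (t ++ r) hb' v hg)
      refine le_inf (le_inf (le_inf ?_ ?_) ?_) (inf_le_right.trans h2)
      · exact inf_le_right.trans (h1.trans (le_kap m0 t r hm0 E2))
      · refine inf_le_right.trans (h1.trans (le_trans ?_ (le_kap m0 t r hm0 E1)))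
        exact iInf₂_mono fun u _ => sp_mono h02 hE21 u
      · exact (inf_le_inf_left _ h1).trans (ih hb')
  intro r hb
  rw [← le_bot_iff]
  calc (WV O E1 t)ᶜ ⊓ (⨅ u ∈ r, SpV E2 u) ⊓ O (t ++ r) ≤
        (WV O E1 (t ++ r))ᶜ ⊓ WV O E1 (t ++ r) :=
          inf_le_inf (hmain r hb) (by rw [hfix]; exact le_sup_left)
    _ = ⊥ := compl_inf_self _

end Pool.Agent.CFZ
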