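import Pool.Agent.CFZ.Stmts

/-! Squad CFZ: module OBK. -/

set_option autoImplicit false

namespace Pool.Agent.CFZ

open CategoryTheory

namespace OBK_

variable {A : Type} [CompleteBooleanAlgebra A]

theorem blk (a : ℕ → A) (ha : InfV a = ⊤) : BlkV (E0of a) = ⊤ := by
  unfold BlkV
  rw [inf_eq_top_iff, inf_eq_top_iff]
  refine ⟨⟨?_, ?_⟩, ?_⟩
  · rw [compl_eq_top, eq_bot_iff]
    unfold E0of
    refine iSup₂_le fun m hm => ?_
    have h1 : m ∈ (∅ : Finset ℕ) := by rw [hm]; exact Finset.mem_singleton_self m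
    exact absurd h1 (Finset.notMem_empty m)
  · rw [eq_top_iff]
    refine le_iInf fun u => le_iInf fun v => le_iInf fun huv => ?_
    rw [top_le_iff, compl_eq_top, eq_bot_iff]
    unfold E0of
    rw [iSup₂_inf_eq]
    refine iSup₂_le fun m hm => ?_
    rw [inf_iSup₂_eq]
    refine iSup₂_le fun n hn => ?_
    exfalso
    apply huv
    subst hm hn
    rcases lt_trichotomy m n with h | h | h
    · right; left
      intro i hi j hj
      rw [Finset.mem_singleton] at hi hj
      rw [hi, hj]; exact h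
    · left; rw [h]
    · right; right
      intro i hi j hj
      rw [Finset.mem_singleton] at hi hj
      rw [hi, hj]; exact h
  · rw [eq_top_iff]
    refine le_iInf fun n => ?_
    have h1 : (⊤ : A) ≤ ⨆ m, ⨆ (_ : n + 1 ≤ m), a m := by
      rw [← ha]; exact iInf_le _ (n + 1)
    refine h1.trans (iSup₂_le fun m hm => ?_)
    refine le_iSup₂_of_le {m} ?_ ?_
    · intro i hi
      rw [Finset.mem_singleton] at hi
      omega
    · exact le_iSup₂_of_le m rfl le_rfl

theorem E0of_le (a : ℕ → A) (u : Finset ℕ) (m : ℕ) (hm : m ∈ u) : E0of a u ≤ a m := by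
  unfold E0of
  refine iSup₂_le fun n hn => ?_
  rw [hn, Finset.mem_singleton] at hm
  rw [hm]

theorem SpV_le (a : ℕ → A) (u : Finset ℕ) (m : ℕ) (hm : m ∈ u) : SpV (E0of a) u ≤ a m := by
  unfold SpV
  refine iSup₂_le fun W hW => ?_
  have h1 : m ∈ W.sup id := by rw [hW.2]; exact hm
  rw [Finset.mem_sup] at h1
  obtain ⟨w, hw, hmw⟩ := h1
  exact (iInf₂_le w hw).trans (E0of_le a w m hmw)

end OBK_

open OBK_ in
theorem obk_proof (hFNP : Stmt_FNP) (hSQF : Stmt_SQF) : Stmt_OBK := by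
  intro c
  have hblk := blk c.a c.inf
  obtain ⟨hseq, -, hsp⟩ := hFNP c.A (E0of c.a) hblk
  have hi : InfV (bV (FN (E0of c.a))) = ⊤ := (hSQF _ _ hseq).1
  have hne : Nonempty (Cd c.A (E0of c.a)) := by
    refine ⟨⟨⊤, [], E0of c.a, top_ne_bot, ⟨by simp, by simp⟩, hblk, ?_, by simp⟩⟩
    unfold LeV
    rw [eq_top_iff]
    refine le_iInf fun u => ?_
    rw [top_le_iff, himp_eq_top_iff]
    exact le_SpV _ _
  have hn : Nontrivial (KA c) := inferInstance
  refine ⟨hblk, hn, hi, ⟨iota (E0of c.a), ?_⟩, fun x => rfl⟩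
  show AlmV (bV (FN (E0of c.a))) (fun m => iota (E0of c.a) (c.a m)) = ⊤
  unfold AlmV
  rw [eq_top_iff]
  refine le_iSup_of_le 0 (le_iInf₂ fun m _ => ?_)
  rw [top_le_iff, himp_eq_top_iff]
  unfold bV
  refine iSup_le fun n => iSup₂_le fun u hu => ?_
  exact (hsp _ u).trans ((iota (E0of c.a)).mono (SpV_le c.a u m hu.1))

end Pool.Agent.CFZ
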