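import Pool.Agent.CFZ.Stmts

set_option autoImplicit false

namespace Pool.Agent.CFZ

open CategoryTheory Fm

namespace OMG_

variable {C : Type 1} [Category.{0} C]

theorem frc_sucF {c : C} (ρ : ℕ → LN c) (i j : ℕ) : Frc (sucF i j) c ρ ↔
    ∀ (d : C) (h : c ⟶ d) (x : LN d), x.memf ((ρ i).r h) ↔ Dns (c := d) fun e k =>
      (x.r k).memf ((ρ j).r (h ≫ k)) ∨ (x.r k).eqf ((ρ j).r (h ≫ k)) := by
  have key : ∀ (d : C) (h : c ⟶ d) (x : LN d),
      Frc (or (mem 0 (j + 1)) (eq 0 (j + 1))) d (cons x (rr ρ h)) ↔ Dns (c := d) fun e k =>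
      (x.r k).memf ((ρ j).r (h ≫ k)) ∨ (x.r k).eqf ((ρ j).r (h ≫ k)) := by
    intro d h x
    rw [frc_or]
    refine forall_congr' fun e => forall_congr' fun k => exists_congr fun e' =>
      exists_congr fun l => ?_
    rw [frc_mem, frc_eq, rr_cons, rr_rr]
    rfl
  rw [sucF, frc_all]
  constructor
  · intro H d h x
    have H1 := (frc_iff _ _ _).1 (H d h x) d (𝟙 d)
    rw [rr_id, key] at H1
    exact H1
  · intro H d h x
    rw [frc_iff]
    intro d' h'
    rw [rr_cons, rr_rr, key]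
    exact H d' (h ≫ h') (x.r h')

theorem frc_subF {c : C} (ρ : ℕ → LN c) (i j : ℕ) : Frc (subF i j) c ρ ↔ FSub (ρ i) (ρ j) := by
  rw [subF, frc_all]
  constructor
  · intro H d h x hx
    have H1 := (frc_imp _ _ _).1 (H d h x) d (𝟙 d)
    rw [rr_id] at H1
    exact H1 hx
  · intro H d h x
    rw [frc_imp]
    intro d' h'
    rw [rr_cons, rr_rr]
    exact H d' (h ≫ h') (x.r h')

theorem suc_iff (hNAT : Stmt_NAT) {c : C} (ρ : ℕ → LN c) (i j n : ℕ)
    (hj : (ρ j).eqf (natN c n)) : Frc (sucF i j) c ρ ↔ (ρ i).eqf (natN c (n + 1)) := by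
  obtain ⟨hr, -, -, hn, -⟩ := hNAT C
  have key : ∀ (d : C) (h : c ⟶ d) (x : LN d), (Dns (c := d) fun e k =>
      (x.r k).memf ((ρ j).r (h ≫ k)) ∨ (x.r k).eqf ((ρ j).r (h ≫ k))) ↔
      x.memf ((natN c (n + 1)).r h) := by
    intro d h x
    have hj' : ∀ (e : C) (k : d ⟶ e), ((ρ j).r (h ≫ k)).eqf (natN e n) := fun e k =>
      LN.eqf_trans (LN.eqf_mono hj _) (hr _ _ _ _)
    have h1 : x.memf ((natN c (n + 1)).r h) ↔ x.memf (natN d (n + 1)) :=
      ⟨fun H => LN.memf_congr (LN.eqf_refl x) (hr _ _ _ _) H,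
        fun H => LN.memf_congr (LN.eqf_refl x) (LN.eqf_symm (hr _ _ _ _)) H⟩
    rw [h1, hn]
    constructor
    · intro H e k
      obtain ⟨e1, l, H1⟩ := H e k
      rcases H1 with H1 | H1
      · have H2 := LN.memf_congr (LN.eqf_refl _) (hj' e1 (k ≫ l)) H1
        rw [hn] at H2
        obtain ⟨e2, l2, m, hm, H3⟩ := H2 e1 (𝟙 e1)
        refine ⟨e2, l ≫ l2, m, by omega, ?_⟩
        simpa using H3
      · refine ⟨e1, l, n, by omega, ?_⟩
        exact LN.eqf_trans H1 (hj' e1 (k ≫ l))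
    · intro H e k
      obtain ⟨e1, l, m, hm, H1⟩ := H e k
      refine ⟨e1, l, ?_⟩
      rcases Nat.lt_succ_iff_lt_or_eq.1 hm with h2 | h2
      · left
        refine LN.memf_congr (LN.eqf_refl _) (LN.eqf_symm (hj' e1 (k ≫ l))) ?_
        rw [hn]
        intro e2 l2
        refine ⟨e2, 𝟙 e2, m, h2, ?_⟩
        have := LN.eqf_trans (LN.eqf_mono H1 l2) (hr e1 e2 l2 m)
        simpa using this
      · right
        subst h2
        exact LN.eqf_trans H1 (LN.eqf_symm (hj' e1 (k ≫ l)))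
  rw [frc_sucF]
  constructor
  · intro H
    apply LN.ext'
    intro d h z
    rw [H, key]
  · intro H d h x
    rw [key]
    exact LN.memf_iff_of_eqf H h x

theorem indu_om (hNAT : Stmt_NAT) {c : C} (ρ : ℕ → LN c) (w : ℕ) (hw : (ρ w).eqf (omN c)) :
    Frc (induF w) c ρ := by
  obtain ⟨hr, hom, -, hn, ho⟩ := hNAT C
  have hw' : ∀ (d : C) (h : c ⟶ d), ((ρ w).r h).eqf (omN d) := fun d h =>
    LN.eqf_trans (LN.eqf_mono hw h) (hom _ _ _)
  have hmem : ∀ (d : C) (h : c ⟶ d) (n : ℕ), (natN d n).memf ((ρ w).r h) := by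
    intro d h n
    refine LN.memf_congr (LN.eqf_refl _) (LN.eqf_symm (hw' d h)) ?_
    rw [ho]
    intro e k
    exact ⟨e, 𝟙 e, n, by simpa using hr d e k n⟩
  rw [induF, frc_and]
  constructor
  · rw [frc_ex]
    intro d h
    refine ⟨d, 𝟙 d, natN d 0, ?_⟩
    rw [frc_and]
    constructor
    · rw [empF, frc_all]
      intro e k y
      rw [frc_neg]
      intro e1 k1 H
      rw [rr_cons, frc_mem] at H
      have H1 : (y.r k1).memf (((natN d 0).r k).r k1) := H
      have H2 : (y.r k1).memf (natN e1 0) := by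
        refine LN.memf_congr (LN.eqf_refl _) ?_ H1
        rw [LN.r_r]
        exact hr _ _ _ _
      rw [hn] at H2
      obtain ⟨e2, k2, m, hm, -⟩ := H2 e1 (𝟙 e1)
      omega
    · rw [frc_mem, Category.comp_id]
      exact hmem d h 0
  · rw [frc_all]
    intro d h x
    rw [frc_imp]
    intro d' h' H
    rw [rr_cons, rr_rr] at H ⊢
    have H1 : (x.r h').memf ((ρ w).r (h ≫ h')) := H
    have H2 : (x.r h').memf (omN d') := LN.memf_congr (LN.eqf_refl _) (hw' _ _) H1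
    rw [ho] at H2
    rw [frc_ex]
    intro e k
    obtain ⟨e1, l, m, H3⟩ := H2 e k
    refine ⟨e1, l, natN e1 (m + 1), ?_⟩
    rw [frc_and]
    constructor
    · rw [suc_iff hNAT _ 0 1 m]
      · exact LN.eqf_refl _
      · exact H3
    · rw [frc_mem]
      have := hmem e1 ((h ≫ h') ≫ k ≫ l) (m + 1)
      simpa using this

theorem nat_mem (hNAT : Stmt_NAT) (n : ℕ) {c : C} (ρ : ℕ → LN c) (w : ℕ)
    (H : Frc (induF w) c ρ) : (natN c n).memf (ρ w) := by
  obtain ⟨hr, hom, -, hn, ho⟩ := hNAT C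
  rw [induF, frc_and, frc_ex, frc_all] at H
  obtain ⟨H1, H2⟩ := H
  induction n generalizing c with
  | zero =>
    apply LN.memf_reg
    intro d h
    obtain ⟨e, k, x, H3⟩ := H1 d h
    refine ⟨e, k, ?_⟩
    rw [frc_and, empF, frc_all] at H3
    obtain ⟨H4, H5⟩ := H3
    have H6 : x.memf ((ρ w).r (h ≫ k)) := H5
    refine LN.memf_congr ?_ (LN.eqf_refl _) H6
    apply LN.ext'
    intro e1 l z
    constructor
    · intro H7
      exfalso
      have H8 := (frc_neg _ _).1 (H4 e1 l z) e1 (𝟙 e1)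
      apply H8
      rw [rr_id]
      exact H7
    · intro H7
      exfalso
      have H8 : z.memf (natN e1 0) := by
        refine LN.memf_congr (LN.eqf_refl _) ?_ H7
        rw [LN.r_r]
        exact hr _ _ _ _
      rw [hn] at H8
      obtain ⟨e2, k2, m, hm, -⟩ := H8 e1 (𝟙 e1)
      omega
  | succ n ih =>
    have H0 := ih ρ H1 H2
    have H3 := (frc_imp _ _ _).1 (H2 c (𝟙 c) (natN c n)) c (𝟙 c)
    rw [rr_id, rr_id] at H3
    have H4 := H3 H0
    rw [frc_ex] at H4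
    apply LN.memf_reg
    intro d h
    obtain ⟨e, k, y, H5⟩ := H4 d h
    refine ⟨e, k, ?_⟩
    rw [frc_and] at H5
    obtain ⟨H6, H7⟩ := H5
    rw [rr_cons] at H6 H7
    rw [suc_iff hNAT _ 0 1 n (hr _ _ _ _)] at H6
    have H8 : y.memf ((ρ w).r (h ≫ k)) := H7
    have H9 : y.eqf (natN e (n + 1)) := H6
    exact LN.memf_congr (LN.eqf_trans H9 (LN.eqf_symm (hr _ _ _ _))) (LN.eqf_refl _) H8

end OMG_

open OMG_ in
theorem omg_proof (hNAT : Stmt_NAT) : Stmt_OMG := by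
  intro C _ c ρ
  refine ⟨fun i j n hj => suc_iff hNAT ρ i j n hj, fun i => ?_⟩
  have ho := (hNAT C).2.2.2.2
  rw [omF, frc_and, frc_all]
  constructor
  · rintro ⟨H1, H2⟩
    apply LN.ext'
    intro d h z
    have H3 := (frc_imp _ _ _).1 (H2 c (𝟙 c) (omN c)) c (𝟙 c)
    rw [rr_id, rr_id] at H3
    have H4 := H3 (indu_om hNAT _ 0 (LN.eqf_refl _))
    rw [frc_subF] at H4
    constructor
    · intro hz
      exact H4 d h z hz
    · intro hz
      have hz' : z.memf (omN d) := LN.memf_congr (LN.eqf_refl _) ((hNAT C).2.1 _ _ _) hz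
      rw [ho] at hz'
      apply LN.memf_reg
      intro e k
      obtain ⟨e1, l, m, H5⟩ := hz' e k
      refine ⟨e1, l, ?_⟩
      have H6 := nat_mem hNAT m (rr ρ (h ≫ k ≫ l)) i (frc_mono _ ρ _ H1)
      rw [LN.r_r]
      exact LN.memf_congr (LN.eqf_symm H5) (LN.eqf_refl _) H6
  · intro H
    refine ⟨indu_om hNAT ρ i H, ?_⟩
    intro d h v
    rw [frc_imp]
    intro d' h' H1
    rw [frc_subF]
    intro e k z hz
    rw [rr_cons, rr_rr] at H1 hz ⊢
    have hz' : z.memf (((ρ i).r (h ≫ h')).r k) := hz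
    have hz2 : z.memf (omN e) := by
      refine LN.memf_congr (LN.eqf_refl _) ?_ hz'
      exact LN.eqf_trans (LN.eqf_mono (LN.eqf_mono H _) _) (by
        rw [LN.r_r]
        exact (hNAT C).2.1 _ _ _)
    rw [ho] at hz2
    apply LN.memf_reg
    intro e1 l
    obtain ⟨e2, l2, m, H5⟩ := hz2 e1 l
    refine ⟨e2, l2, ?_⟩
    have H6 := nat_mem hNAT m _ 0 (frc_mono _ _ (k ≫ l ≫ l2) H1)
    rw [rr_cons] at H6
    have H7 : (natN e2 m).memf ((v.r h').r (k ≫ l ≫ l2)) := H6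
    have H8 : (z.r (l ≫ l2)).memf ((v.r h').r (k ≫ l ≫ l2)) :=
      LN.memf_congr (LN.eqf_symm H5) (LN.eqf_refl _) H7
    simpa using H8

end Pool.Agent.CFZ
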