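/-
MP_3193e4_lc, squad CFZ, module OPN (helper89).
-/
import Pool.Agent.CFZ.Stmts

set_option autoImplicit false
set_option linter.style.longLine false

namespace Pool.Agent.CFZ

open CategoryTheory Fm

namespace OPN_

variable {C : Type 1} [Category.{0} C]

theorem memf_up {c e : C} {a b : LN c} (h0 : c ⟶ e) (z : LN e) :
    z.memf ((upN a b).r h0) ↔ Dns (c := e) fun _ h =>
      (z.r h).eqf (a.r (h0 ≫ h)) ∨ (z.r h).eqf (b.r (h0 ≫ h)) := by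
  rw [upN, memf_fam]
  constructor
  · intro H e1 h
    obtain ⟨e2, k, i, h1⟩ := H e1 h
    refine ⟨e2, k, ?_⟩
    cases i
    · exact Or.inr h1
    · exact Or.inl h1
  · intro H e1 h
    obtain ⟨e2, k, h1 | h1⟩ := H e1 h
    · exact ⟨e2, k, true, h1⟩
    · exact ⟨e2, k, false, h1⟩

theorem memf_up' {c : C} {a b : LN c} (z : LN c) :
    z.memf (upN a b) ↔ Dns (c := c) fun _ h =>
      (z.r h).eqf (a.r h) ∨ (z.r h).eqf (b.r h) := by
  have := memf_up (a := a) (b := b) (𝟙 c) z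
  simpa using this

theorem left_mem {c : C} (a b : LN c) : a.memf (upN a b) := by
  rw [memf_up']
  intro e h
  exact ⟨e, 𝟙 e, Or.inl (LN.eqf_refl _)⟩

theorem right_mem {c : C} (a b : LN c) : b.memf (upN a b) := by
  rw [memf_up']
  intro e h
  exact ⟨e, 𝟙 e, Or.inr (LN.eqf_refl _)⟩

theorem up_r {c d : C} (h : c ⟶ d) (a b : LN c) :
    ((upN a b).r h).eqf (upN (a.r h) (b.r h)) := by
  apply LN.ext'
  intro e k z
  rw [LN.r_r, memf_up, memf_up]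
  simp only [LN.r_r, Category.assoc]

theorem up_congr {c : C} {a b a' b' : LN c} (h1 : a.eqf a') (h2 : b.eqf b') :
    (upN a b).eqf (upN a' b') := by
  apply LN.ext'
  intro e k z
  rw [memf_up, memf_up]
  constructor
  · intro H d h
    obtain ⟨e1, l, H1⟩ := H d h
    refine ⟨e1, l, H1.imp (fun g => ?_) (fun g => ?_)⟩
    · exact LN.eqf_trans g (LN.eqf_mono h1 _)
    · exact LN.eqf_trans g (LN.eqf_mono h2 _)
  · intro H d h
    obtain ⟨e1, l, H1⟩ := H d h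
    refine ⟨e1, l, H1.imp (fun g => ?_) (fun g => ?_)⟩
    · exact LN.eqf_trans g (LN.eqf_symm (LN.eqf_mono h1 _))
    · exact LN.eqf_trans g (LN.eqf_symm (LN.eqf_mono h2 _))

theorem op_congr {c : C} {a b a' b' : LN c} (h1 : a.eqf a') (h2 : b.eqf b') :
    (opN a b).eqf (opN a' b') := up_congr (up_congr h1 h1) (up_congr h1 h2)

theorem op_r {c d : C} (h : c ⟶ d) (a b : LN c) :
    ((opN a b).r h).eqf (opN (a.r h) (b.r h)) :=
  LN.eqf_trans (up_r h _ _) (up_congr (up_r h _ _) (up_r h _ _))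

theorem mem_single {c : C} {a x : LN c} (H : x.memf (upN a a)) : a.eqf x := by
  rw [memf_up'] at H
  apply LN.eqf_reg
  intro d h
  obtain ⟨e, k, H1⟩ := H d h
  exact ⟨e, k, LN.eqf_symm (H1.elim id id)⟩

theorem up_single {c : C} {a a' b' : LN c} (H : (upN a a).eqf (upN a' b')) :
    a.eqf a' ∧ a.eqf b' :=
  ⟨mem_single (LN.memf_congr (LN.eqf_refl _) (LN.eqf_symm H) (left_mem a' b')),
    mem_single (LN.memf_congr (LN.eqf_refl _) (LN.eqf_symm H) (right_mem a' b'))⟩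

theorem up_inj {c : C} {a b b' : LN c} (H : (upN a b).eqf (upN a b')) : b.eqf b' := by
  apply LN.eqf_reg
  intro d h
  have h1 : b.memf (upN a b') := LN.memf_congr (LN.eqf_refl _) H (right_mem a b)
  rw [memf_up'] at h1
  obtain ⟨e, k, h2 | h2⟩ := h1 d h
  · refine ⟨e, k, ?_⟩
    have h3 : (upN (a.r (h ≫ k)) (a.r (h ≫ k))).eqf (upN (a.r (h ≫ k)) (b'.r (h ≫ k))) := by
      refine LN.eqf_trans (up_congr (LN.eqf_refl _) (LN.eqf_symm h2)) ?_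
      refine LN.eqf_trans (LN.eqf_symm (up_r (h ≫ k) a b)) ?_
      exact LN.eqf_trans (LN.eqf_mono H (h ≫ k)) (up_r (h ≫ k) a b')
    exact LN.eqf_trans h2 (up_single h3).2
  · exact ⟨e, k, h2⟩

theorem op_inj {c : C} {a b a' b' : LN c} (H : (opN a b).eqf (opN a' b')) :
    a.eqf a' ∧ b.eqf b' := by
  have ha : a.eqf a' := by
    apply LN.eqf_reg
    intro d h
    have h1 : (upN a a).memf (opN a' b') :=
      LN.memf_congr (LN.eqf_refl _) H (left_mem (upN a a) (upN a b))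
    rw [opN, memf_up'] at h1
    obtain ⟨e, k, h2⟩ := h1 d h
    refine ⟨e, k, ?_⟩
    have key : ∀ x y : LN c, ((upN a a).r (h ≫ k)).eqf ((upN x y).r (h ≫ k)) →
        (a.r (h ≫ k)).eqf (x.r (h ≫ k)) := by
      intro x y hxy
      exact (up_single (LN.eqf_trans (LN.eqf_symm (up_r _ _ _))
        (LN.eqf_trans hxy (up_r _ _ _)))).1
    rcases h2 with h2 | h2
    · exact key _ _ h2
    · exact key _ _ h2
  refine ⟨ha, ?_⟩
  have h1 : (upN (upN a a) (upN a b)).eqf (upN (upN a a) (upN a' b')) :=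
    LN.eqf_trans H (up_congr (LN.eqf_symm (up_congr ha ha)) (LN.eqf_refl _))
  have h2 := up_inj h1
  have h3 : (upN a b).eqf (upN a b') :=
    LN.eqf_trans h2 (up_congr (LN.eqf_symm ha) (LN.eqf_refl _))
  exact up_inj h3

theorem frc_up {c : C} (ρ : ℕ → LN c) (p a b : ℕ) :
    Frc (upF p a b) c ρ ↔ (ρ p).eqf (upN (ρ a) (ρ b)) := by
  rw [upF, frc_all]
  have key : ∀ (d : C) (h : c ⟶ d) (x : LN d) (e : C) (k : d ⟶ e),
      (Frc (mem 0 (p + 1)) e (rr (cons x (rr ρ h)) k) ↔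
        Frc (or (eq 0 (a + 1)) (eq 0 (b + 1))) e (rr (cons x (rr ρ h)) k)) ↔
      ((x.r k).memf ((ρ p).r (h ≫ k)) ↔ (x.r k).memf ((upN (ρ a) (ρ b)).r (h ≫ k))) := by
    intro d h x e k
    rw [memf_up, frc_or]
    refine iff_congr ?_ (forall_congr' fun d' => forall_congr' fun h' => exists_congr fun e' =>
      exists_congr fun k' => ?_)
    · rw [frc_mem]
      simp
    · rw [frc_eq, frc_eq]
      simp
  constructor
  · intro H
    apply LN.ext'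
    intro d h z
    have h1 := (key d h z d (𝟙 d)).1 (((frc_iff _ _ _).1 (H d h z)) d (𝟙 d))
    simpa using h1
  · intro H d h x
    rw [frc_iff]
    intro e k
    rw [key]
    exact LN.memf_iff_of_eqf H _ _

theorem frc_op {c : C} (ρ : ℕ → LN c) (i j k : ℕ) :
    Frc (opF i j k) c ρ ↔ (ρ i).eqf (opN (ρ j) (ρ k)) := by
  rw [opF, frc_ex]
  constructor
  · intro H
    apply LN.eqf_reg
    intro d h
    obtain ⟨e, l, x, H1⟩ := H d h
    rw [frc_ex] at H1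
    obtain ⟨e1, l1, y, H2⟩ := H1 e (𝟙 e)
    rw [frc_and, frc_and, frc_up, frc_up, frc_up] at H2
    obtain ⟨g1, g2, g3⟩ := H2
    have g1' : (x.r (𝟙 e ≫ l1)).eqf (upN (((ρ j).r (h ≫ l)).r (𝟙 e ≫ l1))
      (((ρ j).r (h ≫ l)).r (𝟙 e ≫ l1))) := g1
    have g2' : y.eqf (upN (((ρ j).r (h ≫ l)).r (𝟙 e ≫ l1))
      (((ρ k).r (h ≫ l)).r (𝟙 e ≫ l1))) := g2
    have g3' : (((ρ i).r (h ≫ l)).r (𝟙 e ≫ l1)).eqf (upN (x.r (𝟙 e ≫ l1)) y) := g3
    refine ⟨e1, l ≫ l1, ?_⟩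
    have g4 := LN.eqf_trans g3' (up_congr g1' g2')
    have g5 := LN.eqf_trans g4 (LN.eqf_symm (op_r (𝟙 e ≫ l1) ((ρ j).r (h ≫ l)) ((ρ k).r (h ≫ l))))
    have g6 := LN.eqf_trans g5 (LN.eqf_mono (LN.eqf_symm (op_r (h ≫ l) (ρ j) (ρ k))) (𝟙 e ≫ l1))
    simpa using g6
  · intro H d h
    refine ⟨d, 𝟙 d, upN ((ρ j).r (h ≫ 𝟙 d)) ((ρ j).r (h ≫ 𝟙 d)), ?_⟩
    rw [frc_ex]
    intro d' h'
    refine ⟨d', 𝟙 d', upN (((ρ j).r (h ≫ 𝟙 d)).r (h' ≫ 𝟙 d')) (((ρ k).r (h ≫ 𝟙 d)).r (h' ≫ 𝟙 d')), ?_⟩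
    rw [frc_and, frc_and, frc_up, frc_up, frc_up]
    refine ⟨up_r _ _ _, LN.eqf_refl _, ?_⟩
    change (((ρ i).r (h ≫ 𝟙 d)).r (h' ≫ 𝟙 d')).eqf
      (upN ((upN ((ρ j).r (h ≫ 𝟙 d)) ((ρ j).r (h ≫ 𝟙 d))).r (h' ≫ 𝟙 d'))
        (upN (((ρ j).r (h ≫ 𝟙 d)).r (h' ≫ 𝟙 d')) (((ρ k).r (h ≫ 𝟙 d)).r (h' ≫ 𝟙 d'))))
    have g1 := LN.eqf_mono (LN.eqf_trans (LN.eqf_mono H (h ≫ 𝟙 d)) (op_r (h ≫ 𝟙 d) (ρ j) (ρ k)))
      (h' ≫ 𝟙 d')
    refine LN.eqf_trans g1 (LN.eqf_trans (op_r _ _ _) ?_)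
    exact up_congr (LN.eqf_symm (up_r _ _ _)) (LN.eqf_refl _)

theorem frc_app {c : C} (ρ : ℕ → LN c) (i j k : ℕ) :
    Frc (appF i j k) c ρ ↔ (opN (ρ j) (ρ k)).memf (ρ i) := by
  rw [appF, frc_ex]
  constructor
  · intro H
    apply LN.memf_reg
    intro d h
    obtain ⟨e, l, x, H1⟩ := H d h
    rw [frc_and, frc_op] at H1
    obtain ⟨g1, g2⟩ := H1
    have g1' : x.eqf (opN ((ρ j).r (h ≫ l)) ((ρ k).r (h ≫ l))) := g1
    have g2' : x.memf ((ρ i).r (h ≫ l)) := g2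
    exact ⟨e, l, LN.memf_congr (LN.eqf_trans g1' (LN.eqf_symm (op_r _ _ _))) (LN.eqf_refl _) g2'⟩
  · intro H d h
    refine ⟨d, 𝟙 d, opN ((ρ j).r (h ≫ 𝟙 d)) ((ρ k).r (h ≫ 𝟙 d)), ?_⟩
    rw [frc_and, frc_op]
    refine ⟨LN.eqf_refl _, ?_⟩
    change (opN ((ρ j).r (h ≫ 𝟙 d)) ((ρ k).r (h ≫ 𝟙 d))).memf ((ρ i).r (h ≫ 𝟙 d))
    exact LN.memf_congr (op_r _ _ _) (LN.eqf_refl _) (LN.memf_mono H _)

theorem frc_sub {c : C} (ρ : ℕ → LN c) (i j : ℕ) :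
    Frc (subF i j) c ρ ↔ FSub (ρ i) (ρ j) := by
  rw [subF, frc_all]
  constructor
  · intro H d h z hz
    have h1 := H d h z d (𝟙 d)
    rw [rr_id] at h1
    exact h1 hz
  · intro H d h x e k hx
    have hx' : (x.r k).memf (((ρ i).r h).r k) := hx
    change (x.r k).memf (((ρ j).r h).r k)
    rw [LN.r_r] at hx' ⊢
    exact H e (h ≫ k) _ hx'

end OPN_

open OPN_ in
theorem opn_proof : Stmt_OPN := by
  intro C _
  refine ⟨fun c d h a b => op_r h a b, fun c a b a' b' => ⟨op_inj, fun h => op_congr h.1 h.2⟩,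
    fun c ρ => ⟨frc_op ρ, frc_app ρ, frc_sub ρ⟩⟩

end Pool.Agent.CFZ
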