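/-
MP_3193e4_lc, squad CFZ, module POW (helper89).
-/
import Pool.Agent.CFZ.Stmts

set_option autoImplicit false
set_option linter.style.longLine false

namespace Pool.Agent.CFZ

open CategoryTheory Fm

namespace POW_

variable {C : Type 1} [Category.{0} C]

theorem frc_sub {c : C} (ρ : ℕ → LN c) (i j : ℕ) :
    Frc (subF i j) c ρ ↔ FSub (ρ i) (ρ j) := by
  rw [subF, frc_all]
  constructor
  · intro H d h z hz
    have h1 := H d h z d (𝟙 d)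
    rw [rr_id] at h1
    exact h1 hz
  · intro H d h x e k hx
    have hx' : (x.r k).memf (((ρ i).r h).r k) := hx
    change (x.r k).memf (((ρ j).r h).r k)
    rw [LN.r_r] at hx' ⊢
    exact H e (h ≫ k) _ hx'

/-- the index type of the elements at the extensions of a stage -/
abbrev TT {c : C} (I : Type 1) (d : I → C) (f : (i : I) → (c ⟶ d i)) (e : C) (h : c ⟶ e) : Type 1 :=
  Σ (e' : C) (k : e ⟶ e') (i : I), {n : d i ⟶ e' // h ≫ k = f i ≫ n}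

/-- the name of a subset -/
def sb {c : C} (I : Type 1) (d : I → C) (f : (i : I) → (c ⟶ d i)) (xs : (i : I) → LN (d i))
    (e : C) (h : c ⟶ e) (S : TT I d f e h → Prop) : LN e :=
  bld e {t // S t} (fun t => t.1.1) (fun t => t.1.2.1) (fun t => (xs t.1.2.2.1).r t.1.2.2.2.1)

/-- elements of the name of a subset -/
theorem memf_sb {c : C} (I : Type 1) (d : I → C) (f : (i : I) → (c ⟶ d i)) (xs : (i : I) → LN (d i))
    (e : C) (h : c ⟶ e) (S : TT I d f e h → Prop) (e0 : C) (g : e ⟶ e0) (w : LN e0) :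
    w.memf ((sb I d f xs e h S).r g) ↔ ∀ (e1 : C) (k : e0 ⟶ e1), ∃ (e2 : C) (l : e1 ⟶ e2)
      (t : TT I d f e h) (n : t.1 ⟶ e2), S t ∧ g ≫ k ≫ l = t.2.1 ≫ n ∧
        (w.r (k ≫ l)).eqf (((xs t.2.2.1).r t.2.2.2.1).r n) := by
  rw [sb, LN.memf_bld]
  constructor
  · intro H e1 k
    obtain ⟨e2, l, ⟨t, ht⟩, n, h1, h2⟩ := H e1 k
    exact ⟨e2, l, t, n, ht, h1, h2⟩
  · intro H e1 k
    obtain ⟨e2, l, t, n, ht, h1, h2⟩ := H e1 k
    exact ⟨e2, l, ⟨t, ht⟩, n, h1, h2⟩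

theorem step1 {c : C} {I : Type 1} {d : I → C} {f : (i : I) → (c ⟶ d i)} {xs : (i : I) → LN (d i)}
    {x : LN c} (hx : x.eqf (bld c I d f xs)) {e : C} (h0 : c ⟶ e) (z : LN e)
    (H : ∀ (e1 : C) (h : e ⟶ e1), ∃ (e2 : C) (k : e1 ⟶ e2) (e' : C) (h' : c ⟶ e')
      (S : TT I d f e' h' → Prop) (n : e' ⟶ e2), h0 ≫ h ≫ k = h' ≫ n ∧
      (z.r (h ≫ k)).eqf ((sb I d f xs e' h' S).r n)) : FSub z (x.r h0) := by
  intro d' g w hw
  rw [LN.r_r]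
  apply LN.memf_reg
  intro e1 h
  obtain ⟨e2, k, e', h', S, n, h1, h2⟩ := H e1 (g ≫ h)
  have h3 := LN.memf_congr (LN.eqf_refl _) (y := (z.r g).r (h ≫ k))
    (y' := (sb I d f xs e' h' S).r n) (by simpa using h2) (LN.memf_mono hw (h ≫ k))
  rw [memf_sb] at h3
  obtain ⟨e3, l, ⟨e'', k'', i, m, hm⟩, n', hS, h4, h5⟩ := h3 e2 (𝟙 e2)
  refine ⟨e3, k ≫ l, ?_⟩
  rw [LN.r_r, LN.memf_iff_of_eqf hx, LN.memf_bld]
  intro e4 l4
  refine ⟨e4, 𝟙 e4, i, (m ≫ n') ≫ l4, ?_, ?_⟩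
  · have h7 : (h0 ≫ (g ≫ h) ≫ k) ≫ l = (f i ≫ m) ≫ n' := by
      rw [h1, ← hm]
      have h8 : n ≫ 𝟙 e2 ≫ l = k'' ≫ n' := h4
      rw [Category.id_comp] at h8
      rw [Category.assoc, Category.assoc, h8]
    have h9 : ((h0 ≫ (g ≫ h) ≫ k) ≫ l) ≫ l4 = ((f i ≫ m) ≫ n') ≫ l4 := by rw [h7]
    simpa using h9
  · have h9 : (w.r ((h ≫ k) ≫ 𝟙 e2 ≫ l)).eqf (((xs i).r m).r n') := by
      simpa using h5
    have := LN.eqf_mono h9 l4
    simpa using this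

/-- the predicate of a subset -/
def SS {c : C} {I : Type 1} {d : I → C} {f : (i : I) → (c ⟶ d i)} (xs : (i : I) → LN (d i))
    {e1 : C} (h : c ⟶ e1) (z : LN e1) : TT I d f e1 h → Prop :=
  fun t => ((xs t.2.2.1).r t.2.2.2.1).memf (z.r t.2.1)

theorem step2 {c : C} {I : Type 1} {d : I → C} {f : (i : I) → (c ⟶ d i)} {xs : (i : I) → LN (d i)}
    {x : LN c} (hx : x.eqf (bld c I d f xs)) {e : C} (h0 : c ⟶ e) (z : LN e)
    (H : FSub z (x.r h0)) : z.eqf (sb I d f xs e h0 (SS xs h0 z)) := by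
  apply LN.ext'
  intro d1 g w
  rw [memf_sb]
  constructor
  · intro hw
    have h2 := H d1 g w hw
    rw [LN.r_r, LN.memf_iff_of_eqf hx, LN.memf_bld] at h2
    intro e2 k2
    obtain ⟨e3, l, i, n, h3, h4⟩ := h2 e2 k2
    have h5 : h0 ≫ g ≫ k2 ≫ l = f i ≫ n := by
      rw [← h3]
      simp
    have h6 : ((xs i).r n).memf (z.r (g ≫ k2 ≫ l)) := by
      have h5 := LN.memf_congr h4 (LN.eqf_refl _) (LN.memf_mono hw (k2 ≫ l))
      simpa using h5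
    refine ⟨e3, l, ⟨e3, g ≫ k2 ≫ l, i, n, h5⟩, 𝟙 e3, h6, (Category.comp_id _).symm, ?_⟩
    change (w.r (k2 ≫ l)).eqf (((xs i).r n).r (𝟙 e3))
    rw [LN.r_id]
    exact h4
  · intro hw
    apply LN.memf_reg
    intro e2 k2
    obtain ⟨e3, l, ⟨e', k', i, m, hm⟩, n, hS, h3, h4⟩ := hw e2 k2
    refine ⟨e3, l, ?_⟩
    have h5 : ((xs i).r m).memf (z.r k') := hS
    have h3' : g ≫ k2 ≫ l = k' ≫ n := h3
    have h4' : (w.r (k2 ≫ l)).eqf (((xs i).r m).r n) := h4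
    have h6 := LN.memf_congr (LN.eqf_symm h4') (LN.eqf_refl _) (LN.memf_mono h5 n)
    rw [LN.r_r, ← h3'] at h6
    simpa using h6

theorem exists_pow {c : C} (x : LN c) : ∃ P : LN c, ∀ (e : C) (h0 : c ⟶ e) (z : LN e),
    z.memf (P.r h0) ↔ FSub z (x.r h0) := by
  obtain ⟨I, d, f, xs, hx⟩ := LN.exists_bld x
  refine ⟨bld c (Σ (e : C) (h : c ⟶ e), (TT I d f e h → Prop)) (fun t => t.1) (fun t => t.2.1)
    (fun t => sb I d f xs t.1 t.2.1 t.2.2), ?_⟩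
  intro e h0 z
  rw [LN.memf_bld]
  constructor
  · intro H
    apply step1 hx
    intro e1 h
    obtain ⟨e2, k, ⟨e', h', S⟩, n, h1, h2⟩ := H e1 h
    exact ⟨e2, k, e', h', S, n, h1, h2⟩
  · intro H e1 h
    have H' : FSub (z.r h) (x.r (h0 ≫ h)) := by
      intro d1 g w hw
      rw [LN.r_r] at hw ⊢
      have := H d1 (h ≫ g) w hw
      simpa using this
    have h1 := step2 hx (h0 ≫ h) (z.r h) H'
    refine ⟨e1, 𝟙 e1, ⟨e1, h0 ≫ h, SS xs (h0 ≫ h) (z.r h)⟩, 𝟙 e1, by simp, ?_⟩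
    change (z.r (h ≫ 𝟙 e1)).eqf ((sb I d f xs e1 (h0 ≫ h) (SS xs (h0 ≫ h) (z.r h))).r (𝟙 e1))
    rw [Category.comp_id, LN.r_id]
    exact h1

end POW_

open POW_ in
theorem pow_proof : Stmt_POW := by
  intro C _ c ρ
  rw [powF, frc_all]
  intro d h x
  rw [frc_ex]
  intro d1 h1
  obtain ⟨P, hP⟩ := exists_pow (x.r (h1 ≫ 𝟙 d1))
  refine ⟨d1, 𝟙 d1, P, ?_⟩
  rw [frc_all]
  intro d2 h2 z
  rw [frc_iff]
  intro d3 h3
  rw [frc_mem, frc_sub]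
  change (z.r h3).memf ((P.r h2).r h3) ↔ FSub (z.r h3) (((x.r (h1 ≫ 𝟙 d1)).r h2).r h3)
  rw [LN.r_r, hP, LN.r_r, LN.r_r, LN.r_r, Category.assoc]

end Pool.Agent.CFZ
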