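import Pool.Agent.CFZ.Stmts

/-!
Squad CFZ, module PSI: pseudo-intersections.
-/

set_option autoImplicit false

namespace Pool.Agent.CFZ

namespace PSI_

/-- the two-valued case -/
theorem two (S : ℕ → ℕ → Prop) (hinf : ∀ n k, ∃ m, k ≤ m ∧ S n m)
    (halm : ∀ n, ∃ k, ∀ m, k ≤ m → S (n + 1) m → S n m) :
    ∃ Y : ℕ → Prop, (∀ k, ∃ m, k ≤ m ∧ Y m) ∧ ∀ n, ∃ k, ∀ m, k ≤ m → Y m → S n m := by
  have h1 : ∀ n, ∃ k, ∀ m, k ≤ m → S n m → ∀ i ≤ n, S i m := by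
    intro n
    induction n with
    | zero => exact ⟨0, fun m _ h i hi => by rw [Nat.le_zero.1 hi]; exact h⟩
    | succ n ih =>
      obtain ⟨k, hk⟩ := ih
      obtain ⟨l, hl⟩ := halm n
      refine ⟨max k l, fun m hm h i hi => ?_⟩
      rcases Nat.of_le_succ hi with hi' | hi'
      · exact hk m (le_trans (le_max_left _ _) hm) (hl m (le_trans (le_max_right _ _) hm) h) i hi'
      · rw [hi']; exact h
  have h2 : ∀ n k, ∃ m, k ≤ m ∧ ∀ i ≤ n, S i m := by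
    intro n k
    obtain ⟨l, hl⟩ := h1 n
    obtain ⟨m, hm, hS⟩ := hinf n (max k l)
    exact ⟨m, le_trans (le_max_left _ _) hm, hl m (le_trans (le_max_right _ _) hm) hS⟩
  choose f hf1 hf2 using h2
  let b : ℕ → ℕ := fun k => Nat.rec (f 0 0) (fun k x => f (k + 1) (x + 1)) k
  have hb1 : ∀ k, b k < b (k + 1) := fun k => hf1 (k + 1) (b k + 1)
  have hb : StrictMono b := strictMono_nat_of_lt_succ hb1
  have hbS : ∀ k, ∀ i ≤ k, S i (b k) := by
    intro k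
    cases k with
    | zero => exact hf2 0 0
    | succ k => exact hf2 (k + 1) (b k + 1)
  refine ⟨fun m => ∃ k, m = b k, fun k => ⟨b k, hb.le_apply, k, rfl⟩, fun n => ⟨b n, ?_⟩⟩
  rintro m hm ⟨k, rfl⟩
  exact hbS k n (hb.le_iff_le.1 hm)

end PSI_

open PSI_ in
theorem psi_proof (hBTP : Stmt_BTP) : Stmt_PSI := by
  intro A _ a hinf halm
  let F : ∀ (A : Type) [CompleteBooleanAlgebra A], ((ℕ × ℕ) ⊕ ℕ → A) → A := fun A _ v =>
    ((⨅ n, InfV (fun m => v (Sum.inl (n, m)))) ⊓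
      (⨅ n, AlmV (fun m => v (Sum.inl (n + 1, m))) (fun m => v (Sum.inl (n, m))))) ⇨
    (InfV (fun m => v (Sum.inr m)) ⊓ ⨅ n, AlmV (fun m => v (Sum.inr m))
      (fun m => v (Sum.inl (n, m))))
  have hF : IsB F := by
    refine IsB.himp (IsB.inf (IsB.iInf fun n => isB_InfV fun m => IsB.atom _)
      (IsB.iInf fun n => isB_AlmV (fun m => IsB.atom _) (fun m => IsB.atom _)))
      (IsB.inf (isB_InfV fun m => IsB.atom _) (IsB.iInf fun n =>
        isB_AlmV (fun m => IsB.atom _) (fun m => IsB.atom _)))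
  obtain ⟨y, hy⟩ := hBTP (ℕ × ℕ) ℕ F hF (by
    intro X
    by_cases h : (∀ n k, ∃ m, k ≤ m ∧ X (n, m)) ∧
      (∀ n, ∃ k, ∀ m, k ≤ m → X (n + 1, m) → X (n, m))
    · obtain ⟨Y, hY1, hY2⟩ := two (fun n m => X (n, m)) h.1 h.2
      refine ⟨Y, ?_⟩
      simp only [F, InfV, AlmV, himp_iff_imp, iInf_Prop_eq, iSup_Prop_eq, Sum.elim_inl,
        Sum.elim_inr, exists_prop]
      intro _
      exact ⟨hY1, hY2⟩
    · refine ⟨fun _ => False, ?_⟩
      simp only [F, InfV, AlmV, himp_iff_imp, iInf_Prop_eq, iSup_Prop_eq, Sum.elim_inl,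
        Sum.elim_inr, exists_prop]
      intro h'
      exact absurd ⟨h'.1, h'.2⟩ h) A (fun p => a p.1 p.2)
  have h1 : (⊤ : A) ≤ InfV y ⊓ ⨅ n, AlmV y (a n) := by
    refine le_trans (le_inf (le_iInf fun n => ?_) (le_iInf fun n => ?_)) (himp_eq_top_iff.1 hy)
    · exact (hinf n).ge
    · exact (halm n).ge
  refine ⟨y, top_le_iff.1 (h1.trans inf_le_left), fun n => ?_⟩
  exact top_le_iff.1 ((h1.trans inf_le_right).trans (iInf_le _ n))

end Pool.Agent.CFZ
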