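/-
MP_3193e4_lc, squad CFZ, module PUI (helper89).
-/
import Pool.Agent.CFZ.Stmts

set_option autoImplicit false
set_option linter.style.longLine false

namespace Pool.Agent.CFZ

open CategoryTheory Fm

namespace PUI_

variable {C : Type 1} [Category.{0} C]

theorem memf_up {c e : C} {a b : LN c} (h0 : c ⟶ e) (z : LN e) :
    z.memf ((upN a b).r h0) ↔ Dns (c := e) fun _ h =>
      (z.r h).eqf (a.r (h0 ≫ h)) ∨ (z.r h).eqf (b.r (h0 ≫ h)) := by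
  rw [upN, memf_fam]
  constructor
  · intro H e1 h
    obtain ⟨e2, k, i, h1⟩ := H e1 h
    refine ⟨e2, k, ?_⟩
    cases i
    · exact Or.inr h1
    · exact Or.inl h1
  · intro H e1 h
    obtain ⟨e2, k, h1 | h1⟩ := H e1 h
    · exact ⟨e2, k, true, h1⟩
    · exact ⟨e2, k, false, h1⟩

theorem pair {c : C} (ρ : ℕ → LN c) : Frc pairF c ρ := by
  rw [pairF, frc_all]
  intro d h x
  rw [frc_all]
  intro e k y
  rw [frc_ex]
  intro d1 h1
  refine ⟨d1, 𝟙 d1, upN ((x.r k).r (h1 ≫ 𝟙 d1)) (y.r (h1 ≫ 𝟙 d1)), ?_⟩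
  rw [upF, frc_all]
  intro d2 h2 z
  rw [frc_iff]
  intro d3 h3
  rw [frc_mem, frc_or]
  change (z.r h3).memf (((upN ((x.r k).r (h1 ≫ 𝟙 d1)) (y.r (h1 ≫ 𝟙 d1))).r h2).r h3) ↔ _
  rw [LN.r_r, memf_up]
  refine forall_congr' fun d' => forall_congr' fun h' => exists_congr fun e' =>
      exists_congr fun k' => ?_
  rw [frc_eq, frc_eq]
  simp

/-- the union -/
theorem exists_union {c : C} (x : LN c) : ∃ u : LN c, ∀ (e : C) (h0 : c ⟶ e) (z : LN e),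
    z.memf (u.r h0) ↔ ∀ (e1 : C) (h : e ⟶ e1), ∃ (e2 : C) (k : e1 ⟶ e2) (y : LN e2),
      y.memf (x.r (h0 ≫ h ≫ k)) ∧ (z.r (h ≫ k)).memf y := by
  obtain ⟨I, d, f, xs, hx⟩ := LN.exists_bld x
  have hxs := fun i => LN.exists_bld (xs i)
  choose J dd g ys hy using hxs
  refine ⟨bld c (Σ i, J i) (fun t => dd t.1 t.2) (fun t => f t.1 ≫ g t.1 t.2)
    (fun t => ys t.1 t.2), ?_⟩
  intro e h0 z
  rw [LN.memf_bld]
  constructor
  · intro H e1 h
    obtain ⟨e2, k, ⟨i, j⟩, n, h1, h2⟩ := H e1 h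
    refine ⟨e2, k, (xs i).r (g i j ≫ n), ?_, ?_⟩
    · rw [LN.memf_iff_of_eqf hx, LN.memf_bld]
      intro e3 l
      refine ⟨e3, 𝟙 e3, i, (g i j ≫ n) ≫ l, ?_, ?_⟩
      · rw [h1]
        simp
      · simpa using LN.eqf_refl _
    · have h3 := hy i
      rw [LN.memf_iff_of_eqf h3, LN.memf_bld]
      intro e3 l
      refine ⟨e3, 𝟙 e3, j, n ≫ l, by simp, ?_⟩
      have := LN.eqf_mono h2 l
      simpa using this
  · intro H e1 h
    obtain ⟨e2, k, y, h1, h2⟩ := H e1 h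
    rw [LN.memf_iff_of_eqf hx, LN.memf_bld] at h1
    obtain ⟨e3, l, i, n, h3, h4⟩ := h1 e2 (𝟙 e2)
    rw [Category.id_comp] at h3 h4
    have h5 := LN.memf_congr (LN.eqf_refl _) h4 (LN.memf_mono h2 l)
    rw [LN.memf_iff_of_eqf (hy i), LN.memf_bld] at h5
    obtain ⟨e4, m, j, n', h6, h7⟩ := h5 e3 (𝟙 e3)
    refine ⟨e4, k ≫ l ≫ m, ⟨i, j⟩, n', ?_, ?_⟩
    · have h8 : h0 ≫ h ≫ k ≫ l ≫ m = (f i ≫ n) ≫ m := by
        rw [← h3]
        simp
      rw [h8]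
      simp only [Category.assoc]
      congr 1
      simpa using h6
    · simpa using h7

theorem union {c : C} (ρ : ℕ → LN c) : Frc unionF c ρ := by
  rw [unionF, frc_all]
  intro d h x
  rw [frc_ex]
  intro d1 h1
  obtain ⟨u, hu⟩ := exists_union (x.r (h1 ≫ 𝟙 d1))
  refine ⟨d1, 𝟙 d1, u, ?_⟩
  rw [frc_all]
  intro d2 h2 z
  rw [frc_iff]
  intro d3 h3
  rw [frc_mem, frc_ex]
  change (z.r h3).memf ((u.r h2).r h3) ↔ _
  rw [LN.r_r, hu]
  refine forall_congr' fun d' => forall_congr' fun h' => exists_congr fun e' =>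
      exists_congr fun k' => exists_congr fun y => ?_
  rw [frc_and, frc_mem, frc_mem]
  simp

end PUI_

open PUI_ in
theorem pui_proof (_hNAT : Stmt_NAT) (hOMG : Stmt_OMG) : Stmt_PUI := by
  intro C _ c ρ
  refine ⟨pair ρ, PUI_.union ρ, ?_⟩
  rw [infF, frc_ex]
  intro d h
  refine ⟨d, 𝟙 d, omN d, ?_⟩
  have h1 := ((hOMG C d (cons (omN d) (rr ρ (h ≫ 𝟙 d)))).2 0).2 (LN.eqf_refl _)
  rw [omF, frc_and] at h1
  exact h1.1

end Pool.Agent.CFZ
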