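import Pool.Agent.CFZ.Stmts

/-!
Squad CFZ: the replacement scheme is forced.
-/

set_option autoImplicit false

namespace Pool.Agent.CFZ

open CategoryTheory Fm

namespace REP_

variable {C : Type 1} [Category.{0} C]

theorem key1 (φ : Fm) {e : C} (y' y x a : LN e) (ρ : ℕ → LN e) :
    Frc (φ.ren (cons 2 (cons 0 fun n => n + 4))) e (cons y' (cons y (cons x (cons a ρ)))) ↔
      Frc φ e (cons x (cons y' ρ)) := by
  rw [frc_ren]
  have h : (fun n => cons y' (cons y (cons x (cons a ρ)))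
      (cons 2 (cons 0 (fun n => n + 4)) n)) = cons x (cons y' ρ) := by
    funext n
    rcases n with _ | _ | n <;> rfl
  rw [h]

theorem key2 (φ : Fm) {e : C} (x y b a : LN e) (ρ : ℕ → LN e) :
    Frc (φ.ren (cons 0 (cons 1 fun n => n + 4))) e (cons x (cons y (cons b (cons a ρ)))) ↔
      Frc φ e (cons x (cons y ρ)) := by
  rw [frc_ren]
  have h : (fun n => cons x (cons y (cons b (cons a ρ)))
      (cons 0 (cons 1 (fun n => n + 4)) n)) = cons x (cons y ρ) := by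
    funext n
    rcases n with _ | _ | n <;> rfl
  rw [h]

theorem congr2 (φ : Fm) {e : C} {x x' y y' : LN e} (ρ : ℕ → LN e) (hx : x.eqf x') (hy : y.eqf y')
    (H : Frc φ e (cons x (cons y ρ))) : Frc φ e (cons x' (cons y' ρ)) := by
  refine (frc_congr φ _ _ ?_).1 H
  intro n
  rcases n with _ | _ | n
  · exact hx
  · exact hy
  · exact LN.eqf_refl _

theorem mono2 (φ : Fm) {e e' : C} {x y : LN e} (ρ : ℕ → LN e) (k : e ⟶ e')
    (H : Frc φ e (cons x (cons y ρ))) : Frc φ e' (cons (x.r k) (cons (y.r k) (rr ρ k))) := by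
  have := frc_mono φ _ k H
  simpa using this

theorem main (φ : Fm) (c : C) (ρ : ℕ → LN c) (a : LN c)
    (H : ∀ (e : C) (h : c ⟶ e) (x : LN e), x.memf (a.r h) → ∀ (d : C) (k : e ⟶ d),
      ∃ (e' : C) (l : d ⟶ e') (y : LN e'), ∀ (e'' : C) (m : e' ⟶ e'') (y' : LN e''),
        Frc φ e'' (cons (x.r (k ≫ l ≫ m)) (cons y' (rr ρ (h ≫ k ≫ l ≫ m)))) ↔ y'.eqf (y.r m)) :
    ∃ b : LN c, ∀ (e : C) (h : c ⟶ e) (y : LN e), y.memf (b.r h) ↔
      ∀ (d : C) (k : e ⟶ d), ∃ (e' : C) (l : d ⟶ e') (x : LN e'),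
        x.memf (a.r (h ≫ k ≫ l)) ∧
          Frc φ e' (cons x (cons (y.r (k ≫ l)) (rr ρ (h ≫ k ≫ l)))) := by
  obtain ⟨I, dd, f, xs, hab⟩ := LN.exists_bld a
  let J : Type 1 := Σ (i : I) (e : C), {n : dd i ⟶ e //
    ∃ y : LN e, Frc φ e (cons ((xs i).r n) (cons y (rr ρ (f i ≫ n))))}
  have hJ : ∀ t : J, ∃ y : LN t.2.1,
      Frc φ t.2.1 (cons ((xs t.1).r t.2.2.1) (cons y (rr ρ (f t.1 ≫ t.2.2.1)))) :=
    fun t => t.2.2.2
  choose ys hys using hJ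
  refine ⟨bld c J (fun t => t.2.1) (fun t => f t.1 ≫ t.2.2.1) ys, ?_⟩
  intro e h y
  rw [LN.memf_bld]
  constructor
  · intro hy d k
    obtain ⟨e', l, t, n, h1, h2⟩ := hy d k
    refine ⟨e', l, (xs t.1).r (t.2.2.1 ≫ n), ?_, ?_⟩
    · rw [LN.memf_iff_of_eqf hab, LN.memf_bld]
      intro e1 m
      refine ⟨e1, 𝟙 e1, t.1, t.2.2.1 ≫ n ≫ m, ?_, ?_⟩
      · rw [h1]; simp
      · simp only [LN.r_r, Category.assoc, Category.comp_id]
        exact LN.eqf_refl _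
    · have h3 := mono2 φ _ n (hys t)
      rw [LN.r_r, rr_rr, Category.assoc] at h3
      rw [h1, Category.assoc]
      exact congr2 φ _ (LN.eqf_refl _) (LN.eqf_symm h2) h3
  · intro hy d k
    obtain ⟨e', l, x, hx, hφ⟩ := hy d k
    have hx' := hx
    rw [LN.memf_iff_of_eqf hab, LN.memf_bld] at hx'
    obtain ⟨e2, l2, i, n, h1, h2⟩ := hx' e' (𝟙 e')
    rw [Category.id_comp] at h1 h2
    -- the triple
    have hφ2 := mono2 φ _ l2 hφ
    rw [LN.r_r, rr_rr] at hφ2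
    have harr : (h ≫ k ≫ l) ≫ l2 = f i ≫ n := h1
    rw [harr] at hφ2
    have hφ3 := congr2 φ _ h2 (LN.eqf_refl _) hφ2
    let t : J := ⟨i, e2, n, _, hφ3⟩
    obtain ⟨e3, l3, y1, hy1⟩ := H e' (h ≫ k ≫ l) x hx e2 l2
    have hA := hys t
    change Frc φ e2 (cons ((xs i).r n) (cons (ys t) (rr ρ (f i ≫ n)))) at hA
    have hA2 := mono2 φ _ l3 (congr2 φ _ (LN.eqf_symm h2) (LN.eqf_refl _) hA)
    have hB2 := mono2 φ _ l3 hφ2
    rw [LN.r_r, rr_rr] at hA2 hB2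
    have e1' : (h ≫ k ≫ l) ≫ l2 ≫ l3 ≫ 𝟙 e3 = (f i ≫ n) ≫ l3 := by
      rw [← harr]; simp
    have hk := hy1 e3 (𝟙 e3)
    rw [e1', Category.comp_id, LN.r_id] at hk
    have hA3 := (hk _).1 hA2
    have hB3 := (hk _).1 hB2
    refine ⟨e3, l ≫ l2 ≫ l3, t, l3, ?_, ?_⟩
    · show h ≫ k ≫ l ≫ l2 ≫ l3 = (f i ≫ n) ≫ l3
      rw [← harr]; simp
    · show (y.r (k ≫ l ≫ l2 ≫ l3)).eqf ((ys t).r l3)
      have : (y.r (k ≫ l ≫ l2 ≫ l3)) = ((y.r ((k ≫ l) ≫ l2)).r l3) := by simp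
      rw [this]
      exact LN.eqf_trans hB3 (LN.eqf_symm hA3)

end REP_

theorem rep_proof : Stmt_REP := by
  intro C _ φ c ρ
  rw [replF, frc_all]
  intro c0 h0 a0
  rw [frc_imp]
  intro c1 h1 H
  rw [rr_cons, rr_rr] at H ⊢
  generalize a0.r h1 = a at H ⊢
  generalize rr ρ (h0 ≫ h1) = σ at H ⊢
  have H' : ∀ (e : C) (h : c1 ⟶ e) (x : LN e), x.memf (a.r h) → ∀ (d : C) (k : e ⟶ d),
      ∃ (e' : C) (l : d ⟶ e') (y : LN e'), ∀ (e'' : C) (m : e' ⟶ e'') (y' : LN e''),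
        Frc φ e'' (cons (x.r (k ≫ l ≫ m)) (cons y' (rr σ (h ≫ k ≫ l ≫ m)))) ↔
          y'.eqf (y.r m) := by
    intro e h x hx d k
    rw [frc_all] at H
    have h2 := H e h x
    rw [frc_imp] at h2
    have h3 := h2 e (𝟙 e) (by
      rw [frc_mem]
      simpa using hx)
    rw [frc_ex] at h3
    obtain ⟨e', l, y, h4⟩ := h3 d k
    refine ⟨e', l, y, ?_⟩
    intro e'' m y'
    rw [frc_all] at h4
    have h5 := h4 e'' m y'
    rw [frc_iff] at h5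
    have h6 := h5 e'' (𝟙 e'')
    simp only [rr_id, rr_cons, rr_rr, LN.r_r, REP_.key1, frc_eq, cons_zero, cons_succ,
      Category.assoc] at h6
    exact h6
  obtain ⟨b, hb⟩ := REP_.main φ c1 σ a H'
  rw [frc_ex]
  intro d h
  refine ⟨d, 𝟙 d, b.r h, ?_⟩
  rw [frc_all]
  intro e k y
  rw [frc_iff]
  intro e1 k1
  rw [frc_mem, frc_ex]
  have h2 := hb e1 (h ≫ k ≫ k1) (y.r k1)
  have h3 : (rr (cons y (rr (cons (b.r h) (rr (cons a σ) (h ≫ 𝟙 d))) k)) k1 0).memf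
      (rr (cons y (rr (cons (b.r h) (rr (cons a σ) (h ≫ 𝟙 d))) k)) k1 1) ↔
      (y.r k1).memf (b.r (h ≫ k ≫ k1)) := by
    simp
  rw [h3, h2]
  refine forall_congr' fun e2 => forall_congr' fun k2 => exists_congr fun e3 =>
    exists_congr fun k3 => exists_congr fun x => ?_
  rw [frc_and, frc_mem]
  simp only [rr_cons, rr_rr, LN.r_r, REP_.key2, cons_zero, cons_succ, Category.comp_id,
    Category.assoc]

end Pool.Agent.CFZ
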