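import Pool.Agent.CFZ.Stmts

/-!
Squad CFZ: restriction of a stage to a nonzero element.
-/

set_option autoImplicit false

namespace Pool.Agent.CFZ

open CategoryTheory

namespace RST_

variable {A : Type} [CompleteBooleanAlgebra A] (u : A)

/-- the nonzero elements below `u` -/
abbrev Q : Type := {b : A // b ≠ ⊥ ∧ b ≤ u}

theorem le_def {p q : Q u} : p ≤ q ↔ p.1 ≤ q.1 := Iff.rfl

/-- the homomorphism into the restricted algebra -/
def K : CHom A (RO (Q u)) := CHom.ofProj (fun p : Q u => p.1) (fun p => p.2.1)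
  (fun _ _ h => h) (fun p a ha h0 => ⟨⟨a, h0, ha.trans p.2.2⟩, ha, le_refl a⟩)

theorem mem_K (x : A) (p : Q u) : p ∈ (K u x).s ↔ p.1 ≤ x := Iff.rfl

theorem K_top : K u u = ⊤ := by
  rw [eq_top_iff]
  intro p _
  exact p.2.2

theorem K_bot (x : A) : K u x = ⊥ ↔ x ⊓ u = ⊥ := by
  constructor
  · intro h
    by_contra hne
    have h1 : (⟨x ⊓ u, hne, inf_le_right⟩ : Q u) ∈ (K u x).s := by
      rw [mem_K]; exact inf_le_left
    rw [h] at h1
    exact RO.not_mem_bot h1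
  · intro h
    rw [eq_bot_iff]
    intro p hp
    exact absurd (le_bot_iff.1 ((le_inf ((mem_K u x p).1 hp) p.2.2).trans h.le)) p.2.1

theorem exists_inf {ι : Type} (s : ι → A) (r : A) (hr : r ≠ ⊥) (h : r ≤ ⨆ i, s i) :
    ∃ i, r ⊓ s i ≠ ⊥ := by
  by_contra hc
  push Not at hc
  have : r ⊓ (⨆ i, s i) = ⊥ := by
    rw [inf_iSup_eq, eq_bot_iff]
    exact iSup_le fun i => (hc i).le
  rw [inf_eq_left.2 h] at this
  exact hr this

theorem K_surj (U : RO (Q u)) : ∃ x, K u x = U := by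
  refine ⟨⨆ p : {p : Q u // p ∈ U.s}, p.1.1, ?_⟩
  apply le_antisymm
  · intro q hq
    rw [mem_K] at hq
    apply U.of_dense
    intro r hr
    obtain ⟨p, hp⟩ := exists_inf (fun p : {p : Q u // p ∈ U.s} => p.1.1) r.1 r.2.1
      (le_trans (α := A) hr hq)
    refine ⟨⟨r.1 ⊓ p.1.1, hp, inf_le_left.trans r.2.2⟩, ?_, ?_⟩
    · exact (inf_le_left : r.1 ⊓ p.1.1 ≤ r.1)
    · exact U.down p.2 (inf_le_right : r.1 ⊓ p.1.1 ≤ p.1.1)
  · intro p hp
    rw [mem_K]
    exact le_iSup (fun p : {p : Q u // p ∈ U.s} => p.1.1) ⟨p, hp⟩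

variable {B : Type} [CompleteBooleanAlgebra B] (k : CHom A B) (hk : k u = ⊤)

theorem dense_le (D : Set (Q u)) (hD : ∀ p, ∃ q ≤ p, q ∈ D) : u ≤ ⨆ p : D, p.1.1 := by
  by_contra hc
  have hne : u ⊓ (⨆ p : D, p.1.1)ᶜ ≠ ⊥ := fun h => hc (by
    rw [← disjoint_iff, disjoint_compl_right_iff] at h; exact h)
  obtain ⟨q, hq, hqD⟩ := hD ⟨_, hne, inf_le_left⟩
  have h1 : q.1 ≤ (⨆ p : D, p.1.1)ᶜ := le_trans (α := A) hq inf_le_right
  have h2 : q.1 ≤ ⨆ p : D, p.1.1 := le_iSup (fun p : D => p.1.1) ⟨q, hqD⟩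
  have h3 := le_inf h2 h1
  rw [inf_compl_self] at h3
  exact q.2.1 (le_bot_iff.1 h3)

include hk

/-- the factorisation -/
def M : CHom (RO (Q u)) B := CHom.ofGen (fun p : Q u => k p.1)
  (by
    intro p q
    rw [← k.map_inf]
    by_cases h : p.1 ⊓ q.1 = ⊥
    · rw [h, k.map_bot]; exact bot_le
    · exact le_iSup₂ (f := fun (r : Q u) (_ : r ≤ p ∧ r ≤ q) => k r.1)
        ⟨p.1 ⊓ q.1, h, inf_le_left.trans p.2.2⟩
        ⟨(inf_le_left : p.1 ⊓ q.1 ≤ p.1), (inf_le_right : p.1 ⊓ q.1 ≤ q.1)⟩)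
  (by
    intro D hD
    have h1 := k.mono (dense_le u D hD)
    rw [hk, top_le_iff, k.map_iSup, iSup_subtype] at h1
    exact h1)

theorem M_K (x : A) : M u k hk (K u x) = k x := by
  have h0 : M u k hk (K u x) = ⨆ p ∈ (K u x).s, k p.1 := rfl
  rw [h0]
  apply le_antisymm
  · exact iSup₂_le fun p hp => k.mono ((mem_K u x p).1 hp)
  · have h1 : k x = k (x ⊓ u) := by rw [k.map_inf, hk, inf_top_eq]
    rw [h1]
    by_cases h : x ⊓ u = ⊥
    · rw [h, k.map_bot]; exact bot_le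
    · refine le_iSup₂ (f := fun (p : Q u) (_ : p ∈ (K u x).s) => k p.1)
        ⟨x ⊓ u, h, inf_le_right⟩ ?_
      rw [mem_K]
      exact inf_le_left

end RST_

theorem rst_proof : Stmt_RST := by
  intro c u hu
  have : Nonempty (RST_.Q u) := ⟨⟨u, hu, le_rfl⟩⟩
  let e : Ob := { A := RO (RST_.Q u), a := fun m => RST_.K u (c.a m),
                  inf := by rw [← CHom.map_InfV, c.inf, CHom.map_top] }
  let k : c ⟶ e := (⟨RST_.K u, AlmV_refl _⟩ : Ar c e)
  refine ⟨e, k, RST_.K_top u, RST_.K_bot u, fun _ => rfl, ?_, ?_⟩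
  · intro e' k' hk'
    have hM : ∀ x, RST_.M u k'.h hk' (RST_.K u x) = k'.h x := RST_.M_K u k'.h hk'
    refine ⟨(⟨RST_.M u k'.h hk', ?_⟩ : Ar e e'), ?_⟩
    · have h1 : (fun m => RST_.M u k'.h hk' (e.a m)) = fun m => k'.h (c.a m) := by
        funext m; exact hM _
      rw [h1]
      exact k'.alm
    · apply Ob.hom_ext
      intro x
      exact hM x
  · intro e' m m' h
    apply Ob.hom_ext
    intro U
    obtain ⟨x, rfl⟩ := RST_.K_surj u U
    have h1 : (k ≫ m).h x = (k ≫ m').h x := by rw [h]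
    exact h1

end Pool.Agent.CFZ
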