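import Pool.Agent.CFZ.Stmts

/-!
Squad CFZ, module RSU: the lemma of Rasiowa and Sikorski.
-/

set_option autoImplicit false

namespace Pool.Agent.CFZ

namespace RSU_

variable {A : Type} [CompleteBooleanAlgebra A]

theorem step (b : A) (hb : b ≠ ⊥) (T : Set A) :
    ∃ b' : A, b' ≠ ⊥ ∧ b' ≤ b ∧ (b' ≤ (sSup T)ᶜ ∨ ∃ a ∈ T, b' ≤ a) := by
  by_cases h : b ⊓ (sSup T)ᶜ = ⊥
  · have h1 : b ≤ sSup T := by
      rw [← disjoint_iff, disjoint_compl_right_iff] at h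
      exact h
    have h2 : ∃ a ∈ T, b ⊓ a ≠ ⊥ := by
      by_contra hc
      push Not at hc
      have : b ⊓ sSup T = ⊥ := by
        rw [inf_sSup_eq, eq_bot_iff]
        exact iSup₂_le fun a ha => (hc a ha).le
      rw [inf_eq_left.2 h1] at this
      exact hb this
    obtain ⟨a, ha, hne⟩ := h2
    exact ⟨b ⊓ a, hne, inf_le_left, Or.inr ⟨a, ha, inf_le_right⟩⟩
  · exact ⟨b ⊓ (sSup T)ᶜ, h, inf_le_left, Or.inl inf_le_right⟩

end RSU_

open RSU_ Order in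
theorem rsu_proof : Stmt_RSU := by
  intro A _ b S hb
  choose f hf1 hf2 hf3 using fun (X : {b : A // b ≠ ⊥}) (n : ℕ) => step X.1 X.2 (S n)
  let B : ℕ → {b : A // b ≠ ⊥} := fun n => Nat.rec ⟨b, hb⟩ (fun n X => ⟨f X n, hf1 X n⟩) n
  have hB0 : (B 0).1 = b := rfl
  have hB1 : ∀ n, (B (n + 1)).1 ≤ (B n).1 := fun n => hf2 (B n) n
  have hB2 : ∀ n, ((B (n + 1)).1 ≤ (sSup (S n))ᶜ ∨ ∃ a ∈ S n, (B (n + 1)).1 ≤ a) :=
    fun n => hf3 (B n) n
  have hanti : ∀ i j, i ≤ j → (B j).1 ≤ (B i).1 := by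
    intro i j hij
    induction j, hij using Nat.le_induction with
    | base => exact le_rfl
    | succ j _ ih => exact (hB1 j).trans ih
  let F : PFilter A := IsPFilter.toPFilter (F := {x : A | ∃ n, (B n).1 ≤ x}) (IsPFilter.of_def
    ⟨b, 0, le_rfl⟩
    (by
      rintro x ⟨n, hx⟩ y ⟨m, hy⟩
      exact ⟨x ⊓ y, ⟨max n m, le_inf ((hanti _ _ (le_max_left _ _)).trans hx)
        ((hanti _ _ (le_max_right _ _)).trans hy)⟩, inf_le_left, inf_le_right⟩)
    (by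
      rintro x y hxy ⟨n, hx⟩
      exact ⟨n, hx.trans hxy⟩))
  have hF : ∀ x, x ∈ F ↔ ∃ n, (B n).1 ≤ x := fun x => Iff.rfl
  have hdisj : Disjoint (F : Set A) ((Ideal.principal (⊥ : A) : Ideal A) : Set A) := by
    rw [Set.disjoint_left]
    rintro x hx hx'
    obtain ⟨n, hn⟩ := (hF x).1 hx
    have h2 : x ≤ ⊥ := hx'
    exact (B n).2 (le_bot_iff.1 (hn.trans h2))
  obtain ⟨J, hJ, -, hFJ⟩ := DistribLattice.prime_ideal_of_disjoint_filter_ideal hdisj
  have hv : ∀ n x, (B n).1 ≤ x → x ∉ J := by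
    intro n x hx hxJ
    exact Set.disjoint_left.1 hFJ ((hF x).2 ⟨n, hx⟩) hxJ
  have hc : ∀ x : A, xᶜ ∉ J ↔ ¬ (x ∉ J) := by
    intro x
    constructor
    · intro h
      rw [not_not]
      rcases hJ.mem_or_mem (x := x) (y := xᶜ) (by rw [inf_compl_self]; exact J.bot_mem) with h1 | h1
      · exact h1
      · exact absurd h1 h
    · intro h h1
      rw [not_not] at h
      have h2 : x ⊔ xᶜ ∈ J := J.sup_mem h h1
      rw [sup_compl_eq_top] at h2
      exact hv 0 ⊤ le_top h2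
  refine ⟨fun x => x ∉ J, hv 0 b le_rfl, hv 0 ⊤ le_top, ?_, hc, ?_⟩
  · intro x y
    constructor
    · intro h
      exact ⟨fun h1 => h (J.lower inf_le_left h1), fun h1 => h (J.lower inf_le_right h1)⟩
    · rintro ⟨h1, h2⟩ h3
      rcases hJ.mem_or_mem h3 with h4 | h4
      · exact h1 h4
      · exact h2 h4
  · intro n hn
    rcases hB2 n with h | ⟨a, ha, h⟩
    · exact absurd hn ((hc _).1 (hv (n + 1) _ h))
    · exact ⟨a, ha, hv (n + 1) a h⟩

end Pool.Agent.CFZ
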