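import Pool.Agent.CFZ.Stmts

/-!
Squad CFZ, module SBR: the branches of the subtrees given by block sequences.
-/

set_option autoImplicit false

namespace Pool.Agent.CFZ

namespace SBR_

/-- initial segments of a function -/
def Seg (X : ℕ → ℕ) (t : List ℕ) : Prop := ∀ i (h : i < t.length), t[i] = X i

/-- the initial segment of length `N` -/
def sg (X : ℕ → ℕ) (N : ℕ) : List ℕ := (List.range N).map X

theorem sg_length (X : ℕ → ℕ) (N : ℕ) : (sg X N).length = N := by simp [sg]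

theorem sg_seg (X : ℕ → ℕ) (N : ℕ) : Seg X (sg X N) := by
  intro i h
  simp [sg]

theorem seg_eq {X : ℕ → ℕ} {t : List ℕ} (h : Seg X t) : t = sg X t.length := by
  apply List.ext_getElem
  · rw [sg_length]
  · intro i h1 h2
    rw [h i h1]
    exact (sg_seg X t.length i h2).symm

theorem sg_succ (X : ℕ → ℕ) (N : ℕ) : sg X (N + 1) = sg X N ++ [X N] := by
  simp [sg, List.range_succ]

theorem sg_prefix (X : ℕ → ℕ) {M N : ℕ} (h : M ≤ N) : sg X M <+: sg X N := by
  induction N with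
  | zero =>
    have : M = 0 := by omega
    rw [this]
  | succ N ih =>
    rcases Nat.lt_or_ge N M with h1 | h1
    · have : M = N + 1 := by omega
      rw [this]
    · refine (ih h1).trans ?_
      rw [sg_succ]
      exact List.prefix_append _ _

theorem seg_prefix {X : ℕ → ℕ} {s t : List ℕ} (h : Seg X t) (hp : s <+: t) : Seg X s := by
  intro i hi
  have h1 : i < t.length := lt_of_lt_of_le hi hp.length_le
  rw [← h i h1]
  exact hp.getElem hi

theorem pref_inj {s t : List ℕ} {k k' : ℕ} (h : (s ++ [k]) <+: t) (h' : (s ++ [k']) <+: t) :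
    k = k' := by
  have h1 : s.length < (s ++ [k]).length := by simp
  have h2 : s.length < (s ++ [k']).length := by simp
  have e1 := h.getElem h1
  have e2 := h'.getElem h2
  rw [List.getElem_concat_length (h := rfl)] at e1 e2
  rw [e1, e2]

section

variable {S : Finset ℕ → List ℕ} {G : ℕ → Finset ℕ}

theorem mono_insert (hS : ∀ (u : Finset ℕ) (n n' : ℕ), (∀ i ∈ u, i < n) → n < n' →
    ∃ k k', k < k' ∧ (S u ++ [k]) <+: S (insert n u) ∧ (S u ++ [k']) <+: S (insert n' u))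
    (u : Finset ℕ) (n : ℕ) (h : ∀ i ∈ u, i < n) : S u <+: S (insert n u) := by
  obtain ⟨k, k', -, h1, -⟩ := hS u n (n + 1) h (Nat.lt_succ_self n)
  exact (List.prefix_append _ _).trans h1

theorem mono (hS : ∀ (u : Finset ℕ) (n n' : ℕ), (∀ i ∈ u, i < n) → n < n' →
    ∃ k k', k < k' ∧ (S u ++ [k]) <+: S (insert n u) ∧ (S u ++ [k']) <+: S (insert n' u))
    (v : Finset ℕ) : ∀ n, S (v.filter (· < n)) <+: S v := by
  induction v using Finset.induction_on_max with
  | empty => intro n; simp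
  | insert a v ha ih =>
    intro n
    rcases Nat.lt_or_ge a n with h | h
    · have e : (insert a v).filter (· < n) = insert a v := by
        apply Finset.filter_true_of_mem
        intro i hi
        rcases Finset.mem_insert.1 hi with rfl | hi
        · exact h
        · exact (ha i hi).trans h
      rw [e]
    · have e : (insert a v).filter (· < n) = v.filter (· < n) := by
        rw [Finset.filter_insert, if_neg (not_lt.2 h)]
      rw [e]
      exact (ih n).trans (mono_insert hS v a ha)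

theorem G_lt (hG0 : ∀ n, (G n).Nonempty) (hG : ∀ n, Lt (G n) (G (n + 1))) {m n : ℕ}
    (h : m < n) : Lt (G m) (G n) := by
  induction n with
  | zero => omega
  | succ n ih =>
    rcases Nat.lt_or_ge m n with h1 | h1
    · intro i hi j hj
      obtain ⟨l, hl⟩ := hG0 n
      exact (ih h1 i hi l hl).trans (hG n l hl j hj)
    · have : m = n := by omega
      rw [this]
      exact hG n

theorem G_ge (hG0 : ∀ n, (G n).Nonempty) (hG : ∀ n, Lt (G n) (G (n + 1))) (n : ℕ) :
    ∀ i ∈ G n, n ≤ i := by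
  induction n with
  | zero => intro i _; omega
  | succ n ih =>
    intro i hi
    obtain ⟨l, hl⟩ := hG0 n
    have h1 := ih l hl
    have h2 := hG n l hl i hi
    omega

/-- unions of blocks -/
def Bu (G : ℕ → Finset ℕ) (I : Finset ℕ) : Finset ℕ := I.biUnion fun n => G (2 * n)

theorem mem_Bu {I : Finset ℕ} {i : ℕ} : i ∈ Bu G I ↔ ∃ n ∈ I, i ∈ G (2 * n) := by
  simp [Bu]

theorem Bu_lt (hG0 : ∀ n, (G n).Nonempty) (hG : ∀ n, Lt (G n) (G (n + 1))) {I : Finset ℕ}
    {d : ℕ} (hI : ∀ i ∈ I, i < d) : ∀ i ∈ Bu G I, i < (G (2 * d)).min' (hG0 _) := by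
  intro i hi
  obtain ⟨n, hn, hin⟩ := mem_Bu.1 hi
  exact G_lt hG0 hG (by have := hI n hn; omega) i hin _ (Finset.min'_mem _ _)

theorem Bu_filter (hG0 : ∀ n, (G n).Nonempty) (hG : ∀ n, Lt (G n) (G (n + 1))) (I : Finset ℕ)
    (d : ℕ) : Bu G (I.filter (· < d)) = (Bu G I).filter (· < (G (2 * d)).min' (hG0 _)) := by
  ext i
  rw [Finset.mem_filter]
  constructor
  · intro hi
    refine ⟨?_, Bu_lt hG0 hG (fun i hi => (Finset.mem_filter.1 hi).2) i hi⟩
    obtain ⟨n, hn, hin⟩ := mem_Bu.1 hi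
    exact mem_Bu.2 ⟨n, (Finset.mem_filter.1 hn).1, hin⟩
  · rintro ⟨hi, hlt⟩
    obtain ⟨n, hn, hin⟩ := mem_Bu.1 hi
    refine mem_Bu.2 ⟨n, Finset.mem_filter.2 ⟨hn, ?_⟩, hin⟩
    by_contra h
    rcases Nat.lt_or_ge d n with h1 | h1
    · have := G_lt hG0 hG (show 2 * d < 2 * n by omega) _ (Finset.min'_mem _ (hG0 _)) i hin
      omega
    · have : n = d := by omega
      rw [this] at hin
      have := Finset.min'_le _ _ hin
      omega

theorem Bu_insert (hG0 : ∀ n, (G n).Nonempty) (hG : ∀ n, Lt (G n) (G (n + 1))) {I : Finset ℕ}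
    {d : ℕ} (hd : d ∈ I) : insert ((G (2 * d)).min' (hG0 _)) (Bu G (I.filter (· < d))) =
      (Bu G I).filter (· < (G (2 * d)).min' (hG0 _) + 1) := by
  rw [Bu_filter hG0 hG]
  ext i
  rw [Finset.mem_insert, Finset.mem_filter, Finset.mem_filter]
  constructor
  · rintro (rfl | ⟨h1, h2⟩)
    · exact ⟨mem_Bu.2 ⟨d, hd, Finset.min'_mem _ _⟩, Nat.lt_succ_self _⟩
    · exact ⟨h1, by omega⟩
  · rintro ⟨h1, h2⟩
    rcases Nat.lt_or_ge i ((G (2 * d)).min' (hG0 _)) with h | h
    · exact Or.inr ⟨h1, h⟩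
    · left
      omega

variable (hS : ∀ (u : Finset ℕ) (n n' : ℕ), (∀ i ∈ u, i < n) → n < n' →
    ∃ k k', k < k' ∧ (S u ++ [k]) <+: S (insert n u) ∧ (S u ++ [k']) <+: S (insert n' u))
  (hG0 : ∀ n, (G n).Nonempty) (hG : ∀ n, Lt (G n) (G (n + 1)))

include hS hG0 hG

theorem monoB (I : Finset ℕ) (d : ℕ) : S (Bu G (I.filter (· < d))) <+: S (Bu G I) := by
  rw [Bu_filter hG0 hG]
  exact mono hS _ _

theorem split {I I' : Finset ℕ} {d d' : ℕ} (hd : d ∈ I) (hd' : d' ∈ I') (hdd : d < d')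
    (he : I.filter (· < d) = I'.filter (· < d')) : ∃ k k', k < k' ∧
      (S (Bu G (I.filter (· < d))) ++ [k]) <+: S (Bu G I) ∧
      (S (Bu G (I.filter (· < d))) ++ [k']) <+: S (Bu G I') := by
  have h1 := Bu_lt hG0 hG (I := I.filter (· < d)) (d := d) (fun i hi => (Finset.mem_filter.1 hi).2)
  have h2 : (G (2 * d)).min' (hG0 _) < (G (2 * d')).min' (hG0 _) :=
    G_lt hG0 hG (by omega) _ (Finset.min'_mem _ _) _ (Finset.min'_mem _ _)
  obtain ⟨k, k', hk, h3, h4⟩ := hS _ _ _ h1 h2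
  refine ⟨k, k', hk, h3.trans ?_, h4.trans ?_⟩
  · rw [Bu_insert hG0 hG hd]
    exact mono hS _ _
  · rw [he, Bu_insert hG0 hG hd']
    exact mono hS _ _

theorem next {I I' : Finset ℕ} {c : ℕ} (h : (S (Bu G I) ++ [c]) <+: S (Bu G I')) :
    ∃ d ∈ I', I = I'.filter (· < d) := by
  have hII : S (Bu G I) <+: S (Bu G I') := (List.prefix_append _ _).trans h
  have hlen := h.length_le
  rw [List.length_append, List.length_singleton] at hlen
  have hne : (symmDiff I I').Nonempty := by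
    rw [Finset.nonempty_iff_ne_empty]
    intro h1
    have h2 : I = I' := by
      rw [← Finset.bot_eq_empty, symmDiff_eq_bot] at h1
      exact h1
    rw [h2] at hlen
    omega
  obtain ⟨d, hd⟩ : ∃ d, d = (symmDiff I I').min' hne := ⟨_, rfl⟩
  have hdm : d ∈ symmDiff I I' := by
    rw [hd]
    exact Finset.min'_mem _ _
  have hlt : ∀ i, i < d → (i ∈ I ↔ i ∈ I') := by
    intro i hi
    by_contra h1
    have h2 : i ∈ symmDiff I I' := by
      rw [Finset.mem_symmDiff]
      tauto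
    have h3 := Finset.min'_le _ _ h2
    rw [← hd] at h3
    omega
  have hfil : I.filter (· < d) = I'.filter (· < d) := by
    ext i
    rw [Finset.mem_filter, Finset.mem_filter]
    constructor
    · rintro ⟨h1, h2⟩
      exact ⟨(hlt i h2).1 h1, h2⟩
    · rintro ⟨h1, h2⟩
      exact ⟨(hlt i h2).2 h1, h2⟩
  -- the next element beyond `d` of a set which does not contain `d`
  have hnext : ∀ K : Finset ℕ, d ∉ K → (∃ e ∈ K, d < e) →
      ∃ d' ∈ K, d < d' ∧ K.filter (· < d') = K.filter (· < d) := by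
    rintro K hdK ⟨e, he, hde⟩
    have hn : (K.filter (fun i => d < i)).Nonempty := ⟨e, Finset.mem_filter.2 ⟨he, hde⟩⟩
    have h1 := Finset.min'_mem _ hn
    rw [Finset.mem_filter] at h1
    refine ⟨_, h1.1, h1.2, ?_⟩
    ext i
    rw [Finset.mem_filter, Finset.mem_filter]
    constructor
    · rintro ⟨h2, h3⟩
      refine ⟨h2, ?_⟩
      by_contra h4
      have h5 : i ≠ d := by
        rintro rfl
        exact hdK h2
      have h6 := Finset.min'_le (K.filter (fun i => d < i)) i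
        (Finset.mem_filter.2 ⟨h2, (by omega : d < i)⟩)
      omega
    · rintro ⟨h2, h3⟩
      exact ⟨h2, h3.trans h1.2⟩
  rw [Finset.mem_symmDiff] at hdm
  rcases hdm with ⟨hdI, hdI'⟩ | ⟨hdI', hdI⟩
  · exfalso
    by_cases hex : ∃ e ∈ I', d < e
    · obtain ⟨d', h1, h2, h3⟩ := hnext I' hdI' hex
      obtain ⟨k, k', hk, h4, h5⟩ := split hS hG0 hG hdI h1 h2 (by rw [h3, hfil])
      exact hk.ne (pref_inj (h4.trans hII) h5)
    · push Not at hex
      have h1 : I' = I.filter (· < d) := by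
        rw [hfil]
        symm
        apply Finset.filter_true_of_mem
        intro i hi
        have h2 := hex i hi
        have h3 : i ≠ d := by
          rintro rfl
          exact hdI' hi
        omega
      have h2 := (monoB hS hG0 hG I d).length_le
      rw [← h1] at h2
      omega
  · by_cases hex : ∃ e ∈ I, d < e
    · exfalso
      obtain ⟨d', h1, h2, h3⟩ := hnext I hdI hex
      obtain ⟨k, k', hk, h4, h5⟩ := split hS hG0 hG hdI' h1 h2 (by rw [h3, hfil])
      exact hk.ne (pref_inj h4 (h5.trans hII))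
    · push Not at hex
      refine ⟨d, hdI', ?_⟩
      rw [← hfil]
      symm
      apply Finset.filter_true_of_mem
      intro i hi
      have h2 := hex i hi
      have h3 : i ≠ d := by
        rintro rfl
        exact hdI hi
      omega

theorem uniq {I I' I'' : Finset ℕ} {c d d' : ℕ} (h : (S (Bu G I) ++ [c]) <+: S (Bu G I'))
    (h' : (S (Bu G I) ++ [c]) <+: S (Bu G I'')) (hd : d ∈ I') (he : I = I'.filter (· < d))
    (hd' : d' ∈ I'') (he' : I = I''.filter (· < d')) : d = d' := by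
  rcases lt_trichotomy d d' with h1 | h1 | h1
  · exfalso
    obtain ⟨k, k', hk, h4, h5⟩ := split hS hG0 hG hd hd' h1 (by rw [← he, ← he'])
    rw [← he] at h4 h5
    exact hk.ne ((pref_inj h4 h).trans (pref_inj h5 h').symm)
  · exact h1
  · exfalso
    obtain ⟨k, k', hk, h4, h5⟩ := split hS hG0 hG hd' hd h1 (by rw [← he, ← he'])
    rw [← he'] at h4 h5
    exact hk.ne ((pref_inj h4 h').trans (pref_inj h5 h).symm)

theorem step {X : ℕ → ℕ} (hX : ∀ t, Seg X t → ∃ I : Finset ℕ, t <+: S (Bu G I)) (I : Finset ℕ)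
    (hI : Seg X (S (Bu G I))) :
    ∃ d, (∀ i ∈ I, i < d) ∧ Seg X (S (Bu G (insert d I))) := by
  have e1 : sg X ((S (Bu G I)).length + 1) = S (Bu G I) ++ [X (S (Bu G I)).length] := by
    rw [sg_succ, ← seg_eq hI]
  obtain ⟨I', h1⟩ := hX _ (sg_seg X ((S (Bu G I)).length + 1))
  have h2 := h1
  rw [e1] at h2
  obtain ⟨d, hd, he⟩ := next hS hG0 hG h2
  obtain ⟨N, hN⟩ : ∃ N, N = max ((S (Bu G I)).length + 1) (S (Bu G (insert d I))).length := ⟨_, rfl⟩
  obtain ⟨I'', h3⟩ := hX _ (sg_seg X N)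
  have h4 : (S (Bu G I) ++ [X (S (Bu G I)).length]) <+: S (Bu G I'') := by
    rw [← e1]
    refine (sg_prefix X ?_).trans h3
    rw [hN]
    exact le_max_left _ _
  obtain ⟨d', hd', he'⟩ := next hS hG0 hG h4
  have hdd := uniq hS hG0 hG h2 h4 hd he hd' he'
  rw [← hdd] at hd' he'
  have hlt : ∀ i ∈ I, i < d := by
    intro i hi
    rw [he] at hi
    exact (Finset.mem_filter.1 hi).2
  refine ⟨d, hlt, ?_⟩
  have e2 : insert d I = I''.filter (· < d + 1) := by
    ext i
    rw [Finset.mem_insert, Finset.mem_filter]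
    constructor
    · rintro (rfl | hi)
      · exact ⟨hd', Nat.lt_succ_self _⟩
      · rw [he'] at hi
        have := Finset.mem_filter.1 hi
        exact ⟨this.1, by omega⟩
    · rintro ⟨h5, h6⟩
      rcases Nat.lt_or_ge i d with h7 | h7
      · right
        rw [he']
        exact Finset.mem_filter.2 ⟨h5, h7⟩
      · left
        omega
  have h5 : S (Bu G (insert d I)) <+: S (Bu G I'') := by
    rw [e2]
    exact monoB hS hG0 hG I'' (d + 1)
  have h6 : S (Bu G (insert d I)) <+: sg X N := by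
    refine List.prefix_of_prefix_length_le h5 h3 ?_
    rw [sg_length, hN]
    exact le_max_right _ _
  exact seg_prefix (sg_seg X N) h6

theorem two {X : ℕ → ℕ} (hX : ∀ t, Seg X t → ∃ I : Finset ℕ, t <+: S (Bu G I)) :
    ∃ J : ℕ → Prop, (∀ n, ∃ m, n < m ∧ J m) ∧ (∀ n, ¬ J (2 * n + 1)) ∧
      ∀ (n : ℕ) (u : Finset ℕ), (∀ i, i ∈ u ↔ i < n ∧ ∃ j, J j ∧ i ∈ G j) → Seg X (S u) := by
  have h0 : Seg X (S (Bu G ∅)) := by
    obtain ⟨I, hI⟩ := hX _ (sg_seg X (S (Bu G ∅)).length)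
    have h1 : S (Bu G ∅) <+: S (Bu G I) := by
      have := monoB hS hG0 hG I 0
      simpa using this
    have h2 : S (Bu G ∅) <+: sg X (S (Bu G ∅)).length :=
      List.prefix_of_prefix_length_le h1 hI (by rw [sg_length])
    exact seg_prefix (sg_seg X _) h2
  choose! d hd1 hd2 using step hS hG0 hG hX
  obtain ⟨K, hK0, hK⟩ : ∃ K : ℕ → Finset ℕ, K 0 = ∅ ∧ ∀ k, K (k + 1) = insert (d (K k)) (K k) :=
    ⟨fun k => Nat.rec ∅ (fun _ I => insert (d I) I) k, rfl, fun _ => rfl⟩
  have hseg : ∀ k, Seg X (S (Bu G (K k))) := by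
    intro k
    induction k with
    | zero => rw [hK0]; exact h0
    | succ k ih => rw [hK]; exact hd2 _ ih
  have hlt : ∀ k, ∀ i ∈ K k, i < d (K k) := fun k => hd1 _ (hseg k)
  have hin : ∀ k, d (K k) ∈ K (k + 1) := by
    intro k
    rw [hK]
    exact Finset.mem_insert_self _ _
  have hge : ∀ k, k ≤ d (K k) := by
    intro k
    induction k with
    | zero => omega
    | succ k ih =>
      have := hlt (k + 1) _ (hin k)
      omega
  have hmem : ∀ k i, i ∈ K k ↔ ∃ l < k, i = d (K l) := by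
    intro k
    induction k with
    | zero =>
      intro i
      rw [hK0]
      simp
    | succ k ih =>
      intro i
      rw [hK, Finset.mem_insert, ih]
      constructor
      · rintro (rfl | ⟨l, hl, rfl⟩)
        · exact ⟨k, Nat.lt_succ_self _, rfl⟩
        · exact ⟨l, by omega, rfl⟩
      · rintro ⟨l, hl, rfl⟩
        rcases Nat.lt_or_ge l k with h | h
        · exact Or.inr ⟨l, h, rfl⟩
        · left
          have : l = k := by omega
          rw [this]
  refine ⟨fun j => ∃ k, j = 2 * d (K k), ?_, ?_, ?_⟩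
  · intro n
    refine ⟨2 * d (K (n + 1)), ?_, n + 1, rfl⟩
    have := hge (n + 1)
    omega
  · rintro n ⟨k, hk⟩
    omega
  · intro n u hu
    have e : u = (Bu G (K n)).filter (· < n) := by
      ext i
      rw [hu, Finset.mem_filter]
      constructor
      · rintro ⟨h1, j, ⟨k, rfl⟩, h2⟩
        refine ⟨mem_Bu.2 ⟨d (K k), ?_, h2⟩, h1⟩
        rw [hmem]
        refine ⟨k, ?_, rfl⟩
        have h3 := G_ge hG0 hG _ i h2
        have h4 := hge k
        omega
      · rintro ⟨h1, h2⟩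
        obtain ⟨m, hm, hi⟩ := mem_Bu.1 h1
        rw [hmem] at hm
        obtain ⟨l, -, rfl⟩ := hm
        exact ⟨h2, _, ⟨l, rfl⟩, hi⟩
    rw [e]
    exact seg_prefix (hseg n) (mono hS _ _)

end

theorem twoV (T : List ℕ → Prop) (σ : Finset ℕ → List ℕ → Prop) (F : ℕ → Finset ℕ → Prop)
    (x : ℕ → ℕ → Prop) (h : ParV (A := Prop) T σ ⊓ SeqV (A := Prop) F ⊓ RealV (A := Prop) x ⊓
      InTV (A := Prop) x (STV σ F)) :
    ∃ J : ℕ → Prop, (EvV (A := Prop) J ⊓ ThV σ (yV F J) x) := by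
  obtain ⟨⟨⟨h1, h2⟩, h3⟩, h4⟩ := h
  unfold ParV at h1
  unfold SeqV at h2
  unfold RealV at h3
  unfold InTV STV BrV SpV REv at h4
  unfold EvV ThV IniS yV InfV BrV
  simp only [iInf_Prop_eq, iSup_Prop_eq, inf_Prop_eq, sup_Prop_eq, compl_iff_not, himp_iff_imp,
    exists_prop] at h1 h2 h3 h4 ⊢
  obtain ⟨⟨⟨a1, a2⟩, -⟩, a3⟩ := h1
  obtain ⟨⟨⟨b1, b2⟩, b3⟩, b4⟩ := h2
  obtain ⟨c1, c2⟩ := h3
  choose S hS using a1
  choose G hG using b1
  choose X hX using c1
  have hSu : ∀ u t, σ u t → t = S u := by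
    intro u t ht
    by_contra h
    exact a2 u t (S u) h ⟨ht, hS u⟩
  have hGu : ∀ n u, F n u → u = G n := by
    intro n u hu
    by_contra h
    exact b2 n u (G n) h ⟨hu, hG n⟩
  have hXu : ∀ n m, x n m → m = X n := by
    intro n m hm
    by_contra h
    exact c2 n m (X n) h ⟨hm, hX n⟩
  have kS : ∀ (u : Finset ℕ) (n n' : ℕ), (∀ i ∈ u, i < n) → n < n' →
      ∃ k k', k < k' ∧ (S u ++ [k]) <+: S (insert n u) ∧ (S u ++ [k']) <+: S (insert n' u) := by
    intro u n n' hu hn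
    obtain ⟨t, s, s', k, k', ⟨hk, h5, h6⟩, ⟨h7, h8⟩, h9⟩ := a3 u n n' ⟨hu, hn⟩
    rw [hSu u t h7, hSu _ s h8] at h5
    rw [hSu u t h7, hSu _ s' h9] at h6
    exact ⟨k, k', hk, h5, h6⟩
  have kG0 : ∀ n, (G n).Nonempty := by
    intro n
    rw [Finset.nonempty_iff_ne_empty]
    intro h
    have := hG n
    rw [h] at this
    exact b3 n this
  have kG : ∀ n, Lt (G n) (G (n + 1)) := by
    intro n
    by_contra h
    exact b4 n _ _ h ⟨hG n, hG (n + 1)⟩
  have kX : ∀ t, Seg X t → ∃ I : Finset ℕ, t <+: S (Bu G I) := by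
    intro t ht
    obtain ⟨u, t', h5, h6, h7⟩ := h4 t (fun i => by
      have h8 := ht i.1 i.2
      rw [List.get_eq_getElem, h8]
      exact hX _)
    rw [hSu u t' h7] at h5
    rcases h6 with ⟨W, ⟨-, hW⟩, hW2⟩ | ⟨h6, -⟩
    · choose! f hf using hW2
      refine ⟨W.image f, ?_⟩
      have e : Bu G (W.image f) = u := by
        rw [← hW]
        ext i
        rw [mem_Bu, Finset.mem_sup]
        constructor
        · rintro ⟨n, hn, hi⟩
          obtain ⟨w, hw, rfl⟩ := Finset.mem_image.1 hn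
          refine ⟨w, hw, ?_⟩
          rw [hGu _ _ (hf w hw)]
          exact hi
        · rintro ⟨w, hw, hi⟩
          refine ⟨f w, Finset.mem_image_of_mem f hw, ?_⟩
          rw [← hGu _ _ (hf w hw)]
          exact hi
      rw [e]
      exact h5
    · refine ⟨∅, ?_⟩
      rw [h6] at h5
      simpa [Bu] using h5
  obtain ⟨J, hJ1, hJ2, hJ3⟩ := two kS kG0 kG kX
  refine ⟨J, ⟨fun n => ?_, hJ2⟩, ?_⟩
  · obtain ⟨m, hm, hJ⟩ := hJ1 n
    exact ⟨m, hm.le, hJ⟩
  · rintro n u hu t ⟨⟨h5, h6⟩, h7⟩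
    have ht := hSu u t h7
    subst ht
    intro i
    have h8 : Seg X (S u) := by
      refine hJ3 n u fun i => ?_
      constructor
      · intro hi
        obtain ⟨j, v, hv, hj, hF⟩ := h5 i ⟨hu i hi, hi⟩
        refine ⟨hu i hi, j, hj, ?_⟩
        rw [← hGu j v hF]
        exact hv
      · rintro ⟨hin, j, hj, hi⟩
        by_contra h9
        exact h6 i ⟨hin, h9⟩ ⟨j, G j, hi, hj, hG j⟩
    have h11 := h8 i.1 i.2
    rw [List.get_eq_getElem, h11]
    exact hX _

end SBR_

open SBR_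

/-- index type of the arguments -/
abbrev SBRa : Type := List ℕ ⊕ ((Finset ℕ × List ℕ) ⊕ ((ℕ × Finset ℕ) ⊕ (ℕ × ℕ)))

theorem sbr_proof (hBTP : Stmt_BTP) : Stmt_SBR := by
  intro A _ T σ F x hT hF hx hb
  have hB : IsB (α := SBRa ⊕ ℕ) (fun A _ v =>
      (ParV (fun t => v (Sum.inl (Sum.inl t))) (fun u t => v (Sum.inl (Sum.inr (Sum.inl (u, t))))) ⊓
        SeqV (fun n u => v (Sum.inl (Sum.inr (Sum.inr (Sum.inl (n, u)))))) ⊓
        RealV (fun n m => v (Sum.inl (Sum.inr (Sum.inr (Sum.inr (n, m)))))) ⊓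
        InTV (fun n m => v (Sum.inl (Sum.inr (Sum.inr (Sum.inr (n, m))))))
          (STV (fun u t => v (Sum.inl (Sum.inr (Sum.inl (u, t)))))
            (fun n u => v (Sum.inl (Sum.inr (Sum.inr (Sum.inl (n, u)))))))) ⇨
      (EvV (fun m => v (Sum.inr m)) ⊓
        ThV (fun u t => v (Sum.inl (Sum.inr (Sum.inl (u, t)))))
          (yV (fun n u => v (Sum.inl (Sum.inr (Sum.inr (Sum.inl (n, u))))))
            (fun m => v (Sum.inr m)))
          (fun n m => v (Sum.inl (Sum.inr (Sum.inr (Sum.inr (n, m)))))))) := by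
    refine IsB.himp (IsB.inf (IsB.inf (IsB.inf (isB_ParV ?_ ?_) (isB_SeqV ?_)) (isB_RealV ?_))
      (isB_InTV ?_ (fun t => isB_STV ?_ ?_ t))) (IsB.inf (isB_EvV ?_) (isB_ThV ?_
        (fun m => isB_yV ?_ ?_ m) ?_))
    all_goals intros; exact IsB.atom _
  obtain ⟨J, hJ⟩ := hBTP SBRa ℕ _ hB (fun X => by
    by_cases h : (ParV (A := Prop) (fun t => X (Sum.inl t)) (fun u t => X (Sum.inr (Sum.inl (u, t)))) ⊓
        SeqV (A := Prop) (fun n u => X (Sum.inr (Sum.inr (Sum.inl (n, u))))) ⊓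
        RealV (A := Prop) (fun n m => X (Sum.inr (Sum.inr (Sum.inr (n, m))))) ⊓
        InTV (A := Prop) (fun n m => X (Sum.inr (Sum.inr (Sum.inr (n, m)))))
          (STV (fun u t => X (Sum.inr (Sum.inl (u, t))))
            (fun n u => X (Sum.inr (Sum.inr (Sum.inl (n, u)))))))
    · obtain ⟨J, hJ⟩ := twoV _ _ _ _ h
      exact ⟨J, fun _ => hJ⟩
    · exact ⟨fun _ => False, fun h' => absurd h' h⟩) A
    (Sum.elim T (Sum.elim (fun p => σ p.1 p.2) (Sum.elim (fun p => F p.1 p.2)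
      (fun p => x p.1 p.2))))
  refine ⟨J, ?_⟩
  rw [himp_eq_top_iff] at hJ
  have h1 : (⊤ : A) ≤ EvV J ⊓ ThV σ (yV F J) x := by
    refine le_trans ?_ hJ
    show (⊤ : A) ≤ ParV T σ ⊓ SeqV F ⊓ RealV x ⊓ InTV x (STV σ F)
    rw [hT, hF, hx, hb]
    simp
  rw [top_le_iff, inf_eq_top_iff] at h1
  exact h1

end Pool.Agent.CFZ
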