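import Pool.Agent.CFZ.Stmts

/-!
Squad CFZ, module SEP: separation.
-/

set_option autoImplicit false

namespace Pool.Agent.CFZ

open CategoryTheory

namespace SEP_

variable {C : Type 1} [Category.{0} C]

theorem key (φ : Fm) {c : C} (a : LN c) (σ : ℕ → LN c) : ∃ b : LN c, ∀ (e : C) (h : c ⟶ e)
    (z : LN e), z.memf (b.r h) ↔ (z.memf (a.r h) ∧ Frc φ e (cons z (rr σ h))) := by
  obtain ⟨I, dd, f, xs, hab⟩ := LN.exists_bld a
  refine ⟨bld c (Σ (i : I) (e : C), {n : dd i ⟶ e // Frc φ e (cons ((xs i).r n) (rr σ (f i ≫ n)))})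
    (fun t => t.2.1) (fun t => f t.1 ≫ t.2.2.1) (fun t => (xs t.1).r t.2.2.1), ?_⟩
  intro e h0 z
  have ha : z.memf (a.r h0) ↔ z.memf ((bld c I dd f xs).r h0) := LN.memf_iff_of_eqf hab h0 z
  rw [ha, LN.memf_bld, LN.memf_bld]
  constructor
  · intro H
    constructor
    · intro e1 h
      obtain ⟨e2, k, ⟨i, e', n, hn⟩, n', h1, h2⟩ := H e1 h
      refine ⟨e2, k, i, n ≫ n', ?_, ?_⟩
      · rw [h1]
        simp
      · simpa using h2
    · refine frc_reg φ _ fun e1 h => ?_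
      obtain ⟨e2, k, ⟨i, e', n, hn⟩, n', h1, h2⟩ := H e1 h
      refine ⟨e2, k, ?_⟩
      have h3 := frc_mono φ _ n' hn
      rw [frc_congr φ _ (cons (((xs i).r n).r n') (rr σ ((f i ≫ n) ≫ n')))] at h3
      · rw [frc_congr φ _ (cons (((xs i).r n).r n') (rr σ ((f i ≫ n) ≫ n')))]
        · exact h3
        · intro m
          cases m with
          | zero => exact h2
          | succ m =>
            show (((σ m).r h0).r (h ≫ k)).eqf ((σ m).r ((f i ≫ n) ≫ n'))
            rw [LN.r_r, h1]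
            exact LN.eqf_refl _
      · intro m
        cases m with
        | zero => exact LN.eqf_refl _
        | succ m =>
          show (((σ m).r (f i ≫ n)).r n').eqf ((σ m).r ((f i ≫ n) ≫ n'))
          rw [LN.r_r]
          exact LN.eqf_refl _
  · rintro ⟨H1, H2⟩ e1 h
    obtain ⟨e2, k, i, m, h1, h2⟩ := H1 e1 h
    have h3 : Frc φ e2 (cons ((xs i).r m) (rr σ (f i ≫ m))) := by
      have h4 := frc_mono φ _ (h ≫ k) H2
      rw [frc_congr φ _ (cons ((xs i).r m) (rr σ (f i ≫ m)))] at h4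
      · exact h4
      · intro j
        cases j with
        | zero => exact h2
        | succ j =>
          show (((σ j).r h0).r (h ≫ k)).eqf ((σ j).r (f i ≫ m))
          rw [LN.r_r, h1]
          exact LN.eqf_refl _
    refine ⟨e2, k, ⟨i, e2, m, h3⟩, 𝟙 e2, ?_, ?_⟩
    · rw [h1]
      simp
    · simpa using h2

end SEP_

open SEP_ in
theorem sep_proof : Stmt_SEP := by
  intro C _ φ c ρ
  rw [Fm.sepF, frc_all]
  intro c' h a
  rw [frc_ex]
  obtain ⟨b, hb⟩ := key φ a (rr ρ h)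
  intro d h'
  refine ⟨d, 𝟙 d, b.r h', ?_⟩
  rw [frc_all]
  intro e k z
  rw [frc_iff]
  intro e' l
  rw [frc_and, frc_mem, frc_mem, frc_ren]
  show ((z.r l).memf (((b.r h').r k).r l)) ↔
    ((z.r l).memf ((((a.r (h' ≫ 𝟙 d)).r k).r l)) ∧ _)
  have h1 := hb e' (h' ≫ k ≫ l) (z.r l)
  rw [LN.r_r, LN.r_r, LN.r_r, LN.r_r, h1]
  simp only [Category.comp_id, Category.assoc]
  refine and_congr Iff.rfl (frc_congr φ _ _ fun n => ?_)
  cases n with
  | zero => exact LN.eqf_refl _
  | succ n =>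
    show (((ρ n).r h).r (h' ≫ k ≫ l)).eqf (((((ρ n).r h).r h').r k).r l)
    simp only [LN.r_r, Category.assoc]
    exact LN.eqf_refl _

end Pool.Agent.CFZ
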