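import Pool.Agent.CFZ.Stmts

set_option autoImplicit false

namespace Pool.Agent.CFZ

namespace SMT_

/-- finite unions of members of even index -/
def Sp (F : ℕ → Finset ℕ → Prop) (u : Finset ℕ) : Prop :=
  ∃ W : Finset (Finset ℕ), (W.Nonempty ∧ W.sup id = u) ∧ ∀ w ∈ W, ∃ n, F (2 * n) w

/-- the subtree -/
def St (σ : Finset ℕ → List ℕ → Prop) (F : ℕ → Finset ℕ → Prop) (t : List ℕ) : Prop :=
  ∃ (u : Finset ℕ) (t' : List ℕ), t <+: t' ∧ (Sp F u ∨ u = ∅) ∧ σ u t'

theorem Sp_union {F : ℕ → Finset ℕ → Prop} {u v : Finset ℕ} (hu : Sp F u ∨ u = ∅) {n : ℕ}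
    (hv : F (2 * n) v) : Sp F (u ∪ v) := by
  classical
  have h1 : Sp F v := ⟨{v}, ⟨by simp, by simp⟩, fun w hw => ⟨n, by
    rw [Finset.mem_singleton] at hw; rw [hw]; exact hv⟩⟩
  rcases hu with ⟨W, ⟨hW, hWu⟩, hW'⟩ | rfl
  · obtain ⟨W2, ⟨hW2, hWv⟩, hW2'⟩ := h1
    refine ⟨W ∪ W2, ⟨hW.mono Finset.subset_union_left, ?_⟩, fun w hw => ?_⟩
    · rw [Finset.sup_union, hWu, hWv]; rfl
    · rcases Finset.mem_union.1 hw with h | h
      · exact hW' w h
      · exact hW2' w h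
  · rw [Finset.empty_union]; exact h1

section

variable {T : List ℕ → Prop} {σ : Finset ℕ → List ℕ → Prop} {F : ℕ → Finset ℕ → Prop}

/-- the members of the sequence are beyond their index -/
theorem F_ge (hF3 : ∀ n, ¬ F n ∅) (hF1 : ∀ n, ∃ u, F n u)
    (hF4 : ∀ n u v, F n u → F (n + 1) v → Lt u v) :
    ∀ n u, F n u → ∀ i ∈ u, n ≤ i := by
  intro n
  induction n with
  | zero => intro u _ i _; exact Nat.zero_le i
  | succ n ih =>
    intro v hv i hi
    obtain ⟨u, hu⟩ := hF1 n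
    have hne : u.Nonempty := by
      rw [Finset.nonempty_iff_ne_empty]
      rintro rfl
      exact hF3 n hu
    obtain ⟨j, hj⟩ := hne
    exact lt_of_le_of_lt (ih u hu j hj) (hF4 n u v hu hv j hj i hi)

/-- nodes of bigger sets are longer -/
theorem ext_of (hσ2 : ∀ u t t', σ u t → σ u t' → t = t')
    (hσ4 : ∀ (u : Finset ℕ) (n n' : ℕ), (∀ i ∈ u, i < n) → n < n' →
      ∃ t s s' k k', k < k' ∧ t ++ [k] <+: s ∧ t ++ [k'] <+: s' ∧ σ u t ∧ σ (insert n u) s ∧
        σ (insert n' u) s') :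
    ∀ (v : Finset ℕ) (u : Finset ℕ) (t s : List ℕ), (∀ i ∈ u, ∀ j ∈ v, i < j) → σ u t →
      σ (u ∪ v) s → t <+: s := by
  classical
  intro v
  induction v using Finset.induction_on_min with
  | empty =>
    intro u t s _ ht hs
    rw [Finset.union_empty] at hs
    rw [hσ2 u t s ht hs]
  | insert a v ha ih =>
    intro u t s huv ht hs
    have hua : ∀ i ∈ u, i < a := fun i hi => huv i hi a (Finset.mem_insert_self a v)
    obtain ⟨t1, s1, s', k, k', _, h1, _, h3, h4, _⟩ := hσ4 u a (a + 1) hua (Nat.lt_succ_self a)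
    have e1 : t = t1 := hσ2 u t t1 ht h3
    have h5 : t <+: s1 := by
      rw [e1]
      exact (List.prefix_append t1 [k]).trans h1
    refine h5.trans (ih (insert a u) s1 s ?_ h4 ?_)
    · intro i hi j hj
      rcases Finset.mem_insert.1 hi with rfl | hi
      · exact ha j hj
      · exact (hua i hi).trans (ha j hj)
    · have : insert a u ∪ v = u ∪ insert a v := by
        ext x
        simp only [Finset.mem_union, Finset.mem_insert]
        tauto
      rw [this]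
      exact hs

theorem two (hT1 : ∀ s k, T (s ++ [k]) → T s)
    (hσ1 : ∀ u, ∃ t, σ u t) (hσ2 : ∀ u t t', σ u t → σ u t' → t = t')
    (hσ3 : ∀ u t, σ u t → T t)
    (hσ4 : ∀ (u : Finset ℕ) (n n' : ℕ), (∀ i ∈ u, i < n) → n < n' →
      ∃ t s s' k k', k < k' ∧ t ++ [k] <+: s ∧ t ++ [k'] <+: s' ∧ σ u t ∧ σ (insert n u) s ∧
        σ (insert n' u) s')
    (hF1 : ∀ n, ∃ u, F n u) (hF3 : ∀ n, ¬ F n ∅)
    (hF4 : ∀ n u v, F n u → F (n + 1) v → Lt u v) :
    (St σ F [] ∧ (∀ s k, St σ F (s ++ [k]) → St σ F s) ∧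
      (∀ s, St σ F s → ∃ t, s <+: t ∧ St σ F t ∧ ∀ n : ℕ, ∃ k, n < k ∧ St σ F (t ++ [k]))) ∧
      ∀ t, St σ F t → T t := by
  classical
  have hge := F_ge hF3 hF1 hF4
  have hT2 : ∀ (r s : List ℕ), T (s ++ r) → T s := by
    intro r
    induction r using List.reverseRecOn with
    | nil => intro s h; simpa using h
    | append_singleton r k ih =>
      intro s h
      rw [← List.append_assoc] at h
      exact ih s (hT1 _ _ h)
  refine ⟨⟨?_, ?_, ?_⟩, ?_⟩
  · obtain ⟨t, ht⟩ := hσ1 ∅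
    exact ⟨∅, t, List.nil_prefix, Or.inr rfl, ht⟩
  · rintro s k ⟨u, t', h1, h2, h3⟩
    exact ⟨u, t', (List.prefix_append s [k]).trans h1, h2, h3⟩
  · rintro s ⟨u, t, h1, h2, h3⟩
    refine ⟨t, h1, ⟨u, t, List.prefix_refl t, h2, h3⟩, fun n => ?_⟩
    -- the successor values
    set M : ℕ := u.sup id + 1 with hM
    have huM : ∀ i ∈ u, i < M := fun i hi => Nat.lt_succ_of_le (Finset.le_sup (f := id) hi)
    -- for every `m ≥ M` there is a value `k m ≥ m - M`
    have key : ∀ d : ℕ, ∃ k s', d ≤ k ∧ t ++ [k] <+: s' ∧ σ (insert (M + d) u) s' := by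
      intro d
      induction d with
      | zero =>
        obtain ⟨t1, s1, s', k, k', _, h4, _, h5, h6, _⟩ := hσ4 u M (M + 1) huM (Nat.lt_succ_self M)
        rw [hσ2 u t t1 h3 h5]
        exact ⟨k, s1, Nat.zero_le _, h4, h6⟩
      | succ d ih =>
        obtain ⟨k0, s0, hk0, hp0, hs0⟩ := ih
        obtain ⟨t1, s1, s', k, k', hkk, h4, h4', h5, h6, h6'⟩ := hσ4 u (M + d) (M + d + 1)
          (fun i hi => (huM i hi).trans_le (Nat.le_add_right M d)) (Nat.lt_succ_self _)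
        have e1 := hσ2 u t t1 h3 h5
        subst e1
        have e2 := hσ2 _ _ _ hs0 h6
        subst e2
        have e3 : k0 = k := by
          have h7 := List.prefix_of_prefix_length_le hp0 h4 (by simp)
          have h8 := h7.eq_of_length (by simp)
          simpa using h8
        subst e3
        exact ⟨k', s', by omega, h4', h6'⟩
    -- an even block which starts beyond `M + n + 1`
    obtain ⟨v, hv⟩ := hF1 (2 * (M + n + 1))
    have hvne : v.Nonempty := by
      rw [Finset.nonempty_iff_ne_empty]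
      rintro rfl
      exact hF3 _ hv
    have hvge : ∀ i ∈ v, 2 * (M + n + 1) ≤ i := hge _ v hv
    set a : ℕ := v.min' hvne with ha
    have hav : a ∈ v := Finset.min'_mem v hvne
    have haM : M + n + 1 ≤ a := by
      have := hvge a hav
      omega
    obtain ⟨k, s', hk, hp, hs'⟩ := key (a - M)
    have hMa : M + (a - M) = a := by omega
    rw [hMa] at hs'
    obtain ⟨s2, hs2⟩ := hσ1 (u ∪ v)
    refine ⟨k, by omega, u ∪ v, s2, ?_, Or.inl (Sp_union h2 hv), hs2⟩
    refine hp.trans (ext_of hσ2 hσ4 (v.erase a) (insert a u) s' s2 ?_ hs' ?_)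
    · intro i hi j hj
      have hj1 : j ∈ v := Finset.mem_of_mem_erase hj
      have hj2 : j ≠ a := Finset.ne_of_mem_erase hj
      have hj3 : a ≤ j := Finset.min'_le v j hj1
      rcases Finset.mem_insert.1 hi with rfl | hi
      · omega
      · have := huM i hi
        omega
    · have : insert a u ∪ v.erase a = u ∪ v := by
        ext x
        simp only [Finset.mem_union, Finset.mem_insert, Finset.mem_erase]
        constructor
        · rintro ((rfl | h) | ⟨_, h⟩)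
          · exact Or.inr hav
          · exact Or.inl h
          · exact Or.inr h
        · rintro (h | h)
          · exact Or.inl (Or.inr h)
          · by_cases hx : x = a
            · exact Or.inl (Or.inl hx)
            · exact Or.inr ⟨hx, h⟩
      rw [this]
      exact hs2
  · rintro t ⟨u, t', ⟨r, rfl⟩, _, h3⟩
    exact hT2 r t (hσ3 u _ h3)

end

/-- the variables -/
abbrev V : Type := List ℕ ⊕ ((Finset ℕ × List ℕ) ⊕ (ℕ × Finset ℕ))

/-- the statement, as a value -/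
def Big (A : Type) [CompleteBooleanAlgebra A] (v : V → A) : A :=
  ((MilV (fun t => v (Sum.inl t)) ⊓ ParV (fun t => v (Sum.inl t))
    (fun u t => v (Sum.inr (Sum.inl (u, t))))) ⊓ SeqV (fun n u => v (Sum.inr (Sum.inr (n, u))))) ⇨
  (MilV (STV (fun u t => v (Sum.inr (Sum.inl (u, t)))) (fun n u => v (Sum.inr (Sum.inr (n, u))))) ⊓
    ⨅ t, (STV (fun u t => v (Sum.inr (Sum.inl (u, t))))
      (fun n u => v (Sum.inr (Sum.inr (n, u)))) t ⇨ v (Sum.inl t)))

theorem isB_Big : IsB Big := by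
  have : Nonempty V := ⟨Sum.inl []⟩
  have hT : ∀ t, IsB (α := V) (fun A _ v => v (Sum.inl t)) := fun t => IsB.atom _
  have hσ : ∀ u t, IsB (α := V) (fun A _ v => v (Sum.inr (Sum.inl (u, t)))) :=
    fun u t => IsB.atom _
  have hF : ∀ n u, IsB (α := V) (fun A _ v => v (Sum.inr (Sum.inr (n, u)))) :=
    fun n u => IsB.atom _
  exact (((isB_MilV hT).inf (isB_ParV hT hσ)).inf (isB_SeqV hF)).himp
    ((isB_MilV (fun t => isB_STV hσ hF t)).inf (IsB.iInf fun t => (isB_STV hσ hF t).himp (hT t)))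

theorem STV_Prop (σ : Finset ℕ → List ℕ → Prop) (F : ℕ → Finset ℕ → Prop) :
    STV σ F = St σ F := by
  funext t
  apply propext
  unfold STV St Sp SpV REv
  simp only [iSup_Prop_eq, iInf_Prop_eq, inf_Prop_eq, sup_Prop_eq, Prop.top_eq_true,
    exists_prop, and_true]

theorem MilV_Prop (S : List ℕ → Prop) : MilV S ↔ (S [] ∧ (∀ s k, S (s ++ [k]) → S s)) ∧
    ∀ s, S s → ∃ t, s <+: t ∧ S t ∧ ∀ n : ℕ, ∃ k, n < k ∧ S (t ++ [k]) := by
  unfold MilV
  simp only [iSup_Prop_eq, iInf_Prop_eq, inf_Prop_eq, himp_iff_imp, exists_prop]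

theorem big_Prop (v : V → Prop) : Big Prop v := by
  unfold Big
  rw [himp_iff_imp]
  rintro ⟨⟨hT, hP⟩, hF⟩
  have hT' := (MilV_Prop _).1 hT
  unfold ParV at hP
  unfold SeqV at hF
  simp only [iSup_Prop_eq, iInf_Prop_eq, inf_Prop_eq, himp_iff_imp, compl_iff_not,
    exists_prop] at hP hF
  obtain ⟨⟨⟨hσ1, hσ2⟩, hσ3⟩, hσ4⟩ := hP
  obtain ⟨⟨⟨hF1, _⟩, hF3⟩, hF4⟩ := hF
  have h := two (T := fun t => v (Sum.inl t)) (σ := fun u t => v (Sum.inr (Sum.inl (u, t))))
    (F := fun n u => v (Sum.inr (Sum.inr (n, u)))) hT'.1.2 hσ1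
    (fun u t t' h1 h2 => by
      by_contra hne
      exact hσ2 u t t' hne ⟨h1, h2⟩) hσ3
    (fun u n n' h1 h2 => by
      obtain ⟨t, s, s', k, k', ⟨h3, h4, h5⟩, ⟨h6, h7⟩, h8⟩ := hσ4 u n n' ⟨h1, h2⟩
      exact ⟨t, s, s', k, k', h3, h4, h5, h6, h7, h8⟩) hF1 hF3
    (fun n u w h1 h2 => by
      by_contra hne
      exact hF4 n u w hne ⟨h1, h2⟩)
  rw [STV_Prop]
  refine ⟨(MilV_Prop _).2 ⟨⟨h.1.1, h.1.2.1⟩, h.1.2.2⟩, ?_⟩
  simp only [iInf_Prop_eq, himp_iff_imp]
  exact h.2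

end SMT_

open SMT_ in
theorem smt_proof (hLSP : Stmt_LSP) : Stmt_SMT := by
  intro A _ T σ F hT hP hF
  have h := hLSP V Big isB_Big big_Prop A
    (Sum.elim T (Sum.elim (fun p => σ p.1 p.2) (fun p => F p.1 p.2)))
  change ((MilV T ⊓ ParV T σ) ⊓ SeqV F) ⇨ (MilV (STV σ F) ⊓ ⨅ t, (STV σ F t ⇨ T t)) = ⊤ at h
  rw [hT, hP, hF, inf_top_eq, inf_top_eq, top_himp, inf_eq_top_iff] at h
  refine ⟨h.1, fun t => ?_⟩
  have h1 := (iInf_eq_top.1 h.2) t
  exact himp_eq_top_iff.1 h1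

end Pool.Agent.CFZ
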