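/-
MP_3193e4_lc, squad CFZ, module SQA (helper89).
-/
import Pool.Agent.CFZ.Stmts

set_option autoImplicit false
set_option linter.style.longLine false

namespace Pool.Agent.CFZ

open CategoryTheory Fm

namespace SQA_

variable {C : Type 1} [Category.{0} C]

theorem opN_congr (hOPN : Stmt_OPN) {c : C} {a b a' b' : LN c} (h1 : a.eqf a') (h2 : b.eqf b') :
    (opN a b).eqf (opN a' b') := ((hOPN C).2.1 c a b a' b').2 ⟨h1, h2⟩

/-- moving the pairs of natural numbers -/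
theorem pr (hNAT : Stmt_NAT) (hOPN : Stmt_OPN) (c d : C) (h : c ⟶ d) (m n : ℕ) :
    ((opN (natN c m) (natN c n)).r h).eqf (opN (natN d m) (natN d n)) :=
  LN.eqf_trans ((hOPN C).1 c d h _ _)
    (opN_congr hOPN ((hNAT C).1 c d h m) ((hNAT C).1 c d h n))

theorem memf_seq (hNAT : Stmt_NAT) (hOPN : Stmt_OPN) {c e : C} (h0 : c ⟶ e) (s : List ℕ)
    (z : LN e) : z.memf ((seqN c s).r h0) ↔ Dns (c := e) fun e' h => ∃ i : Fin s.length,
      (z.r h).eqf (opN (natN e' i.1) (natN e' (s.get i))) := by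
  rw [seqN, memf_fam]
  constructor
  · intro H e1 h
    obtain ⟨e2, k, i, h1⟩ := H e1 h
    exact ⟨e2, k, i, LN.eqf_trans h1 (pr hNAT hOPN _ _ _ _ _)⟩
  · intro H e1 h
    obtain ⟨e2, k, i, h1⟩ := H e1 h
    exact ⟨e2, k, i, LN.eqf_trans h1 (LN.eqf_symm (pr hNAT hOPN _ _ _ _ _))⟩

theorem FSub_iff (hNAT : Stmt_NAT) (hOPN : Stmt_OPN) (c : C) (s t : List ℕ) :
    FSub (seqN c s) (seqN c t) ↔ s <+: t := by
  constructor
  · intro H
    rw [List.prefix_iff_getElem]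
    have key : ∀ i : Fin s.length, ∃ j : Fin t.length, i.1 = j.1 ∧ s.get i = t.get j := by
      intro i
      have h1 : (opN (natN c i.1) (natN c (s.get i))).memf ((seqN c s).r (𝟙 c)) := by
        rw [memf_seq hNAT hOPN]
        intro e h
        exact ⟨e, 𝟙 e, i, pr hNAT hOPN _ _ _ _ _⟩
      have h2 := H c (𝟙 c) _ h1
      rw [memf_seq hNAT hOPN] at h2
      obtain ⟨e, k, j, h3⟩ := h2 c (𝟙 c)
      have h4 := LN.eqf_trans (LN.eqf_symm (pr hNAT hOPN c e (𝟙 c ≫ k) i.1 (s.get i))) h3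
      have h5 := ((hOPN C).2.1 e _ _ _ _).1 h4
      exact ⟨j, (((hNAT C).2.2.1 e _ _).2).1 h5.1, (((hNAT C).2.2.1 e _ _).2).1 h5.2⟩
    have hlen : s.length ≤ t.length := by
      by_contra hc
      obtain ⟨j, h1, -⟩ := key ⟨t.length, by omega⟩
      have := j.2
      simp only at h1
      omega
    refine ⟨hlen, fun i hi => ?_⟩
    obtain ⟨⟨j, hj⟩, h1, h2⟩ := key ⟨i, hi⟩
    simp only at h1
    subst h1
    exact h2
  · intro H d h z hz
    rw [memf_seq hNAT hOPN] at hz ⊢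
    intro e1 k
    obtain ⟨e2, l, i, h1⟩ := hz e1 k
    rw [List.prefix_iff_getElem] at H
    obtain ⟨hlen, H⟩ := H
    refine ⟨e2, l, ⟨i.1, i.2.trans_le hlen⟩, ?_⟩
    have h2 : s.get i = t.get ⟨i.1, i.2.trans_le hlen⟩ := H i.1 i.2
    rw [← h2]
    exact h1

end SQA_

open SQA_ in
theorem sqa_proof (hNAT : Stmt_NAT) (hOPN : Stmt_OPN) : Stmt_SQA := by
  intro C _
  refine ⟨?_, ?_, ?_⟩
  · intro c d h s
    apply LN.ext'
    intro e k z
    rw [LN.r_r, memf_seq hNAT hOPN, memf_seq hNAT hOPN]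
  · intro c s t
    refine ⟨⟨fun H => ?_, ?_⟩, FSub_iff hNAT hOPN c s t⟩
    · have h1 : FSub (seqN c s) (seqN c t) := fun d h z => (LN.memf_iff_of_eqf H h z).1
      have h2 : FSub (seqN c t) (seqN c s) := fun d h z => (LN.memf_iff_of_eqf H h z).2
      rw [FSub_iff hNAT hOPN] at h1 h2
      exact h1.eq_of_length_le h2.length_le
    · rintro rfl
      exact LN.eqf_refl _
  · intro c s z
    have := memf_seq hNAT hOPN (𝟙 c) s z
    rw [LN.r_id] at this
    exact this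

end Pool.Agent.CFZ
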