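/-
MP_3193e4_lc, squad CFZ, module SQB (helper89).
-/
import Pool.Agent.CFZ.Stmts

set_option autoImplicit false
set_option linter.style.longLine false

namespace Pool.Agent.CFZ

open CategoryTheory Fm

namespace SQB_

variable {C : Type 1} [Category.{0} C]

theorem opN_congr (hO : Stmt_OPN) {c : C} {a b a' b' : LN c} (h1 : a.eqf a') (h2 : b.eqf b') :
    (opN a b).eqf (opN a' b') := ((hO C).2.1 c a b a' b').2 ⟨h1, h2⟩

/-- moving the pairs of natural numbers -/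
theorem pr (hN : Stmt_NAT) (hO : Stmt_OPN) (c d : C) (h : c ⟶ d) (m n : ℕ) :
    ((opN (natN c m) (natN c n)).r h).eqf (opN (natN d m) (natN d n)) :=
  LN.eqf_trans ((hO C).1 c d h _ _)
    (opN_congr hO ((hN C).1 c d h m) ((hN C).1 c d h n))

theorem Dns_mono {c : C} {P Q : (d : C) → (c ⟶ d) → Prop} (h : ∀ d k, P d k → Q d k)
    (H : Dns P) : Dns Q := by
  intro d k
  obtain ⟨e, l, h1⟩ := H d k
  exact ⟨e, l, h _ _ h1⟩

theorem memf_seq (hQ : Stmt_SQA) {c e : C} (h0 : c ⟶ e) (s : List ℕ)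
    (z : LN e) : z.memf ((seqN c s).r h0) ↔ Dns (c := e) fun e' h => ∃ i : Fin s.length,
      (z.r h).eqf (opN (natN e' i.1) (natN e' (s.get i))) := by
  rw [← (hQ C).2.2 e s z]
  have h1 := (hQ C).1 c e h0 s
  exact ⟨fun H => LN.memf_congr (LN.eqf_refl z) h1 H,
    fun H => LN.memf_congr (LN.eqf_refl z) (LN.eqf_symm h1) H⟩

theorem memf_nat (hN : Stmt_NAT) {c e : C} (h0 : c ⟶ e) (n : ℕ)
    (z : LN e) : z.memf ((natN c n).r h0) ↔ Dns (c := e) fun e' h => ∃ m < n,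
      (z.r h).eqf (natN e' m) := by
  rw [← (hN C).2.2.2.1 e z n]
  have h1 := (hN C).1 c e h0 n
  exact ⟨fun H => LN.memf_congr (LN.eqf_refl z) h1 H,
    fun H => LN.memf_congr (LN.eqf_refl z) (LN.eqf_symm h1) H⟩

theorem memf_om (hN : Stmt_NAT) {c e : C} (h0 : c ⟶ e)
    (z : LN e) : z.memf ((omN c).r h0) ↔ Dns (c := e) fun e' h => ∃ m : ℕ,
      (z.r h).eqf (natN e' m) := by
  rw [← (hN C).2.2.2.2 e z]
  have h1 := (hN C).2.1 c e h0
  exact ⟨fun H => LN.memf_congr (LN.eqf_refl z) h1 H,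
    fun H => LN.memf_congr (LN.eqf_refl z) (LN.eqf_symm h1) H⟩

theorem nat_memf_nat (hN : Stmt_NAT) {c e : C} (h0 : c ⟶ e) {m n : ℕ} (h : m < n) :
    (natN e m).memf ((natN c n).r h0) :=
  LN.memf_congr (LN.eqf_refl _) (LN.eqf_symm ((hN C).1 c e h0 n))
    (((hN C).2.2.1 e m n).1.2 h)

theorem nat_memf_om (hN : Stmt_NAT) {c e : C} (h0 : c ⟶ e) (m : ℕ) :
    (natN e m).memf ((omN c).r h0) := by
  rw [memf_om hN]
  intro e1 h
  exact ⟨e1, 𝟙 e1, m, (hN C).1 _ _ _ m⟩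

theorem nat_inj (hN : Stmt_NAT) {c : C} {m n : ℕ} (h : (natN c m).eqf (natN c n)) : m = n :=
  ((hN C).2.2.1 c m n).2.1 h

theorem FFun_mono {c d : C} {f X Y : LN c} (h : c ⟶ d) (H : FFun f X Y) :
    FFun (f.r h) (X.r h) (Y.r h) := by
  obtain ⟨H1, H2, H3⟩ := H
  refine ⟨?_, ?_, ?_⟩
  · intro d' h' p hp
    rw [LN.r_r] at hp
    have := H1 d' (h ≫ h') p hp
    refine Dns_mono ?_ this
    rintro e k ⟨a, b, h1, h2, h3⟩
    refine ⟨a, b, ?_, ?_, h3⟩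
    · rw [LN.r_r]; simpa using h1
    · rw [LN.r_r]; simpa using h2
  · intro d' h' a ha
    rw [LN.r_r] at ha
    refine Dns_mono ?_ (H2 d' (h ≫ h') a ha)
    rintro e k ⟨b, h1, h2⟩
    refine ⟨b, ?_, ?_⟩
    · rw [LN.r_r]; simpa using h1
    · rw [LN.r_r]; simpa using h2
  · intro d' h' a b b' ha hb hb'
    rw [LN.r_r] at ha hb hb'
    exact H3 d' (h ≫ h') a b b' ha hb hb'

theorem FFun_congr {c : C} {f X Y f' X' Y' : LN c} (h1 : f.eqf f') (h2 : X.eqf X')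
    (h3 : Y.eqf Y') (H : FFun f X Y) : FFun f' X' Y' := by
  obtain ⟨H1, H2, H3⟩ := H
  have e1 : ∀ {d : C} (h : c ⟶ d) (z : LN d), z.memf (f.r h) ↔ z.memf (f'.r h) :=
    fun h z => LN.memf_iff_of_eqf h1 h z
  have e2 : ∀ {d : C} (h : c ⟶ d) (z : LN d), z.memf (X.r h) ↔ z.memf (X'.r h) :=
    fun h z => LN.memf_iff_of_eqf h2 h z
  have e3 : ∀ {d : C} (h : c ⟶ d) (z : LN d), z.memf (Y.r h) ↔ z.memf (Y'.r h) :=
    fun h z => LN.memf_iff_of_eqf h3 h z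
  refine ⟨?_, ?_, ?_⟩
  · intro d h p hp
    refine Dns_mono ?_ (H1 d h p ((e1 h p).2 hp))
    rintro e k ⟨a, b, g1, g2, g3⟩
    exact ⟨a, b, (e2 _ _).1 g1, (e3 _ _).1 g2, g3⟩
  · intro d h a ha
    refine Dns_mono ?_ (H2 d h a ((e2 h a).2 ha))
    rintro e k ⟨b, g1, g2⟩
    exact ⟨b, (e3 _ _).1 g1, (e1 _ _).1 g2⟩
  · intro d h a b b' ha hb hb'
    exact H3 d h a b b' ((e2 _ _).2 ha) ((e1 _ _).2 hb) ((e1 _ _).2 hb')

/-- finite sequences are functions -/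
theorem FFun_seq (hN : Stmt_NAT) (hO : Stmt_OPN) (hQ : Stmt_SQA) (c : C) (s : List ℕ) :
    FFun (seqN c s) (natN c s.length) (omN c) := by
  refine ⟨?_, ?_, ?_⟩
  · intro d h p hp
    rw [memf_seq hQ] at hp
    refine Dns_mono ?_ hp
    rintro e k ⟨i, hi⟩
    exact ⟨natN e i.1, natN e (s.get i), nat_memf_nat hN _ i.2, nat_memf_om hN _ _, hi⟩
  · intro d h a ha
    rw [memf_nat hN] at ha
    refine Dns_mono ?_ ha
    rintro e k ⟨m, hm, hi⟩
    refine ⟨natN e (s.get ⟨m, hm⟩), nat_memf_om hN _ _, ?_⟩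
    rw [memf_seq hQ]
    intro e1 l
    refine ⟨e1, 𝟙 e1, ⟨m, hm⟩, ?_⟩
    refine LN.eqf_trans ?_ (pr hN hO e e1 (l ≫ 𝟙 e1) m (s.get ⟨m, hm⟩))
    exact LN.eqf_mono (opN_congr hO hi (LN.eqf_refl _)) _
  · intro d h a b b' _ hb hb'
    rw [memf_seq hQ] at hb hb'
    apply LN.eqf_reg
    intro d1 k1
    obtain ⟨d2, k2, i, hi⟩ := hb d1 k1
    obtain ⟨d3, k3, i', hi'⟩ := hb' d2 (k1 ≫ k2)
    refine ⟨d3, k2 ≫ k3, ?_⟩
    have g1 := LN.eqf_trans (LN.eqf_mono hi k3) (pr hN hO _ _ k3 _ _)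
    rw [LN.r_r] at g1
    have g2 := LN.eqf_trans (LN.eqf_symm ((hO C).1 d d3 ((k1 ≫ k2) ≫ k3) a b)) g1
    have g3 := LN.eqf_trans (LN.eqf_symm ((hO C).1 d d3 ((k1 ≫ k2) ≫ k3) a b')) hi'
    obtain ⟨g4, g5⟩ := ((hO C).2.1 _ _ _ _ _).1 g2
    obtain ⟨g6, g7⟩ := ((hO C).2.1 _ _ _ _ _).1 g3
    have g8 : i.1 = i'.1 := nat_inj hN (LN.eqf_trans (LN.eqf_symm g4) g6)
    have g9 : i = i' := Fin.ext g8
    subst g9
    have := LN.eqf_trans g5 (LN.eqf_symm g7)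
    simpa using this

/-- deciding the values one after the other -/
theorem decide_values (hN : Stmt_NAT) (hO : Stmt_OPN) {c : C} {F : LN c} {N : ℕ}
    (H : FFun F (natN c N) (omN c)) : ∀ m ≤ N, ∃ (e : C) (k : c ⟶ e) (s : List ℕ),
      s.length = m ∧ ∀ i : Fin s.length, (opN (natN e i.1) (natN e (s.get i))).memf (F.r k) := by
  intro m
  induction m with
  | zero => exact fun _ => ⟨c, 𝟙 c, [], rfl, fun i => i.elim0⟩
  | succ m ih =>
    intro hm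
    obtain ⟨e, k, s, hs, hi⟩ := ih (by omega)
    have h1 : (natN e m).memf ((natN c N).r k) := nat_memf_nat hN k (by omega)
    obtain ⟨e1, k1, b, h2, h3⟩ := H.2.1 e k _ h1 e (𝟙 e)
    rw [memf_om hN] at h2
    obtain ⟨e2, k2, v, h4⟩ := h2 e1 (𝟙 e1)
    refine ⟨e2, k ≫ k1 ≫ k2, s ++ [v], by simp [hs], ?_⟩
    have h5 : (opN (natN e2 m) (natN e2 v)).memf (F.r (k ≫ k1 ≫ k2)) := by
      have g1 := LN.memf_mono h3 k2
      rw [LN.r_r] at g1
      have g2 : ((opN ((natN e m).r (𝟙 e ≫ k1)) b).r k2).eqf (opN (natN e2 m) (natN e2 v)) := by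
        refine LN.eqf_trans ((hO C).1 _ _ k2 _ _) (opN_congr hO ?_ ?_)
        · rw [LN.r_r]
          exact (hN C).1 _ _ _ m
        · simpa using h4
      have g3 := LN.memf_congr g2 (LN.eqf_refl _) g1
      simpa using g3
    rintro ⟨i, hi'⟩
    rw [List.length_append, List.length_singleton] at hi'
    by_cases hlt : i < s.length
    · have g1 := LN.memf_mono (hi ⟨i, hlt⟩) (k1 ≫ k2)
      have g2 := LN.memf_congr (pr hN hO _ _ (k1 ≫ k2) _ _) (LN.eqf_refl _) g1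
      rw [LN.r_r] at g2
      have g3 : (s ++ [v]).get ⟨i, by simpa using hi'⟩ = s.get ⟨i, hlt⟩ := by
        simp only [List.get_eq_getElem]
        exact List.getElem_append_left hlt
      rw [g3]
      exact g2
    · have g4 : i = m := by omega
      have g3 : (s ++ [v]).get ⟨i, by simpa using hi'⟩ = v := by
        simp only [List.get_eq_getElem]
        subst g4
        subst hs
        exact List.getElem_concat_length rfl _
      rw [g3]
      change (opN (natN e2 i) (natN e2 v)).memf (F.r (k ≫ k1 ≫ k2))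
      rw [g4]
      exact h5

/-- a function on a natural number with natural values is densely a finite sequence -/
theorem exists_seq (hN : Stmt_NAT) (hO : Stmt_OPN) (hQ : Stmt_SQA) {c : C} {F : LN c} {N : ℕ}
    (H : FFun F (natN c N) (omN c)) : ∃ (e : C) (k : c ⟶ e) (s : List ℕ),
      (F.r k).eqf (seqN e s) := by
  obtain ⟨e, k, s, hs, hi⟩ := decide_values hN hO H N le_rfl
  refine ⟨e, k, s, ?_⟩
  apply LN.ext'
  intro d h z
  constructor
  · intro hz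
    rw [memf_seq hQ]
    rw [LN.r_r] at hz
    intro d1 k1
    obtain ⟨d2, k2, a, b, h1, h2, h3⟩ := H.1 d (k ≫ h) z hz d1 k1
    rw [memf_nat hN] at h1
    obtain ⟨d3, k3, i, hiN, h4⟩ := h1 d2 (𝟙 d2)
    rw [Category.id_comp] at h4
    refine ⟨d3, k2 ≫ k3, ⟨i, by omega⟩, ?_⟩
    -- the element is (i, b)
    have g1 : (z.r (k1 ≫ k2 ≫ k3)).eqf (opN (natN d3 i) (b.r k3)) := by
      have g2 := LN.eqf_trans (LN.eqf_mono h3 k3) ((hO C).1 _ _ k3 a b)
      have g3 := LN.eqf_trans g2 (opN_congr hO h4 (LN.eqf_refl _))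
      simpa using g3
    have g4 : (opN (natN d3 i) (b.r k3)).memf (F.r (k ≫ h ≫ k1 ≫ k2 ≫ k3)) := by
      have g5 := LN.memf_mono hz (k1 ≫ k2 ≫ k3)
      have g6 := LN.memf_congr g1 (LN.eqf_refl _) g5
      simpa using g6
    have g7 : (opN (natN d3 i) (natN d3 (s.get ⟨i, by omega⟩))).memf
        (F.r (k ≫ h ≫ k1 ≫ k2 ≫ k3)) := by
      have g5 := LN.memf_mono (hi ⟨i, by omega⟩) (h ≫ k1 ≫ k2 ≫ k3)
      have g6 := LN.memf_congr (pr hN hO _ _ _ _ _) (LN.eqf_refl _) g5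
      simpa using g6
    have g8 := H.2.2 d3 (k ≫ h ≫ k1 ≫ k2 ≫ k3) _ _ _ (nat_memf_nat hN _ hiN) g4 g7
    exact LN.eqf_trans g1 (opN_congr hO (LN.eqf_refl _) g8)
  · intro hz
    rw [memf_seq hQ] at hz
    rw [LN.r_r]
    apply LN.memf_reg
    intro d1 k1
    obtain ⟨d2, k2, i, h1⟩ := hz d1 k1
    refine ⟨d2, k2, ?_⟩
    have g5 := LN.memf_mono (hi i) (h ≫ k1 ≫ k2)
    have g6 := LN.memf_congr (pr hN hO _ _ _ _ _) (LN.eqf_refl _) g5
    have g7 := LN.memf_congr (LN.eqf_symm h1) (LN.eqf_refl _) g6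
    simpa using g7

end SQB_

open SQB_ in
theorem sqb_proof (hNAT : Stmt_NAT) (hOPN : Stmt_OPN) (hFUN : Stmt_FUN) (hSQA : Stmt_SQA) :
    Stmt_SQB := by
  intro C _ c ρ i j hi
  rw [seqF, frc_ex]
  constructor
  · intro H d h
    obtain ⟨e, k, x, H1⟩ := H d h
    rw [frc_and, hFUN] at H1
    obtain ⟨H1, H2⟩ := H1
    have H1' : x.memf ((ρ i).r (h ≫ k)) := H1
    have H2' : FFun ((ρ j).r (h ≫ k)) x ((ρ i).r (h ≫ k)) := H2
    have hW : ((ρ i).r (h ≫ k)).eqf (omN e) :=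
      LN.eqf_trans (LN.eqf_mono hi _) ((hNAT C).2.1 _ _ _)
    have H3 : x.memf (omN e) := LN.memf_congr (LN.eqf_refl _) hW H1'
    rw [(hNAT C).2.2.2.2] at H3
    obtain ⟨e1, k1, m, H4⟩ := H3 e (𝟙 e)
    rw [Category.id_comp] at H4
    have H5 : FFun (((ρ j).r (h ≫ k)).r k1) (natN e1 m) (omN e1) :=
      FFun_congr (LN.eqf_refl _) H4 (LN.eqf_trans (LN.eqf_mono hW k1) ((hNAT C).2.1 _ _ _))
        (FFun_mono k1 H2')
    obtain ⟨e2, k2, s, H6⟩ := exists_seq hNAT hOPN hSQA H5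
    refine ⟨e2, k ≫ k1 ≫ k2, s, ?_⟩
    simpa using H6
  · intro H d h
    obtain ⟨e, k, s, H1⟩ := H d h
    refine ⟨e, k, natN e s.length, ?_⟩
    rw [frc_and, hFUN]
    have hW : ((ρ i).r (h ≫ k)).eqf (omN e) :=
      LN.eqf_trans (LN.eqf_mono hi _) ((hNAT C).2.1 _ _ _)
    refine ⟨?_, ?_⟩
    · change (natN e s.length).memf ((ρ i).r (h ≫ k))
      have g := nat_memf_om hNAT (𝟙 e) s.length
      rw [LN.r_id] at g
      exact LN.memf_congr (LN.eqf_refl _) (LN.eqf_symm hW) g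
    · change FFun ((ρ j).r (h ≫ k)) (natN e s.length) ((ρ i).r (h ≫ k))
      exact FFun_congr (LN.eqf_symm H1) (LN.eqf_refl _) (LN.eqf_symm hW)
        (FFun_seq hNAT hOPN hSQA e s)

end Pool.Agent.CFZ
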