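import Pool.Agent.CFZ.Stmts

/-!
Squad CFZ: the formula for immediate successors of finite sequences.
-/

set_option autoImplicit false

namespace Pool.Agent.CFZ

open CategoryTheory Fm

namespace SQC_

variable {C : Type 1} [Category.{0} C]

theorem nat_r (hN : Stmt_NAT) {c d : C} (h : c ⟶ d) (n : ℕ) :
    ((natN c n).r h).eqf (natN d n) := (hN C).1 c d h n

theorem om_r (hN : Stmt_NAT) {c d : C} (h : c ⟶ d) :
    ((omN c).r h).eqf (omN d) := (hN C).2.1 c d h

theorem nat_mem (hN : Stmt_NAT) (c : C) (m n : ℕ) :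
    (natN c m).memf (natN c n) ↔ m < n := ((hN C).2.2.1 c m n).1

theorem nat_eq (hN : Stmt_NAT) (c : C) (m n : ℕ) :
    (natN c m).eqf (natN c n) ↔ m = n := ((hN C).2.2.1 c m n).2

theorem mem_nat (hN : Stmt_NAT) {c : C} (z : LN c) (n : ℕ) : z.memf (natN c n) ↔
    Dns (c := c) fun e h => ∃ m < n, (z.r h).eqf (natN e m) := (hN C).2.2.2.1 c z n

theorem mem_om (hN : Stmt_NAT) {c : C} (z : LN c) : z.memf (omN c) ↔
    Dns (c := c) fun e h => ∃ m : ℕ, (z.r h).eqf (natN e m) := (hN C).2.2.2.2 c z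

theorem op_r (hO : Stmt_OPN) {c d : C} (h : c ⟶ d) (a b : LN c) :
    ((opN a b).r h).eqf (opN (a.r h) (b.r h)) := (hO C).1 c d h a b

theorem op_inj (hO : Stmt_OPN) {c : C} (a b a' b' : LN c) :
    (opN a b).eqf (opN a' b') ↔ (a.eqf a' ∧ b.eqf b') := (hO C).2.1 c a b a' b'

theorem seq_r (hS : Stmt_SQA) {c d : C} (h : c ⟶ d) (s : List ℕ) :
    ((seqN c s).r h).eqf (seqN d s) := (hS C).1 c d h s

theorem mem_seq (hS : Stmt_SQA) {c : C} (s : List ℕ) (z : LN c) : z.memf (seqN c s) ↔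
    Dns (c := c) fun e h => ∃ i : Fin s.length,
      (z.r h).eqf (opN (natN e i.1) (natN e (s.get i))) := (hS C).2.2 c s z

theorem op_nat_r (hN : Stmt_NAT) (hO : Stmt_OPN) {c d : C} (h : c ⟶ d) (a b : ℕ) :
    ((opN (natN c a) (natN c b)).r h).eqf (opN (natN d a) (natN d b)) :=
  LN.eqf_trans (op_r hO h _ _) ((op_inj hO _ _ _ _).2 ⟨nat_r hN h a, nat_r hN h b⟩)

theorem mem_seq_of (hN : Stmt_NAT) (hO : Stmt_OPN) (hS : Stmt_SQA) {c : C} (l : List ℕ)
    (z : LN c) (i : Fin l.length) (hz : z.eqf (opN (natN c i.1) (natN c (l.get i)))) :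
    z.memf (seqN c l) := by
  rw [mem_seq hS]
  intro d h
  exact ⟨d, 𝟙 d, i, LN.eqf_trans (LN.eqf_mono hz _) (op_nat_r hN hO _ _ _)⟩

/-- congruence of the predicate `FFun` -/
theorem ffun_congr {c : C} {f f' X X' Y Y' : LN c} (hf : f.eqf f') (hX : X.eqf X')
    (hY : Y.eqf Y') (H : FFun f X Y) : FFun f' X' Y' := by
  obtain ⟨H1, H2, H3⟩ := H
  refine ⟨?_, ?_, ?_⟩
  · intro d h p hp
    have hp' := (LN.memf_iff_of_eqf hf h p).2 hp
    intro d' h'
    obtain ⟨e, k, a, b, ha, hb, hab⟩ := H1 d h p hp' d' h'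
    exact ⟨e, k, a, b, (LN.memf_iff_of_eqf hX _ a).1 ha, (LN.memf_iff_of_eqf hY _ b).1 hb, hab⟩
  · intro d h a ha
    have ha' := (LN.memf_iff_of_eqf hX h a).2 ha
    intro d' h'
    obtain ⟨e, k, b, hb, hab⟩ := H2 d h a ha' d' h'
    exact ⟨e, k, b, (LN.memf_iff_of_eqf hY _ b).1 hb, (LN.memf_iff_of_eqf hf _ _).1 hab⟩
  · intro d h a b b' ha hb hb'
    exact H3 d h a b b' ((LN.memf_iff_of_eqf hX h a).2 ha) ((LN.memf_iff_of_eqf hf h _).2 hb)
      ((LN.memf_iff_of_eqf hf h _).2 hb')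

/-- persistence of the predicate `FFun` -/
theorem ffun_mono {c c' : C} {f X Y : LN c} (g : c ⟶ c') (H : FFun f X Y) :
    FFun (f.r g) (X.r g) (Y.r g) := by
  obtain ⟨H1, H2, H3⟩ := H
  refine ⟨?_, ?_, ?_⟩
  · intro d h p hp d' h'
    rw [LN.r_r] at hp
    obtain ⟨e, k, a, b, ha, hb, hab⟩ := H1 d (g ≫ h) p hp d' h'
    refine ⟨e, k, a, b, ?_, ?_, hab⟩
    · rw [LN.r_r, ← Category.assoc]; exact ha
    · rw [LN.r_r, ← Category.assoc]; exact hb
  · intro d h a ha d' h'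
    rw [LN.r_r] at ha
    obtain ⟨e, k, b, hb, hab⟩ := H2 d (g ≫ h) a ha d' h'
    refine ⟨e, k, b, ?_, ?_⟩
    · rw [LN.r_r, ← Category.assoc]; exact hb
    · rw [LN.r_r, ← Category.assoc]; exact hab
  · intro d h a b b' ha hb hb'
    rw [LN.r_r] at ha hb hb'
    exact H3 d (g ≫ h) a b b' ha hb hb'

/-- a finite sequence is a function on its length -/
theorem ffun_seq (hN : Stmt_NAT) (hO : Stmt_OPN) (hS : Stmt_SQA) (c : C) (l : List ℕ) :
    FFun (seqN c l) (natN c l.length) (omN c) := by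
  refine ⟨?_, ?_, ?_⟩
  · intro d h p hp
    have hp1 : p.memf (seqN d l) :=
      LN.memf_congr (LN.eqf_refl p) (seq_r hS h l) hp
    intro d' h'
    obtain ⟨e, k, i, hi⟩ := (mem_seq hS l p).1 hp1 d' h'
    refine ⟨e, k, natN e i.1, natN e (l.get i), ?_, ?_, hi⟩
    · refine LN.memf_congr (LN.eqf_refl _) (LN.eqf_symm (nat_r hN _ _)) ?_
      exact (nat_mem hN e _ _).2 i.2
    · refine LN.memf_congr (LN.eqf_refl _) (LN.eqf_symm (om_r hN _)) ?_
      rw [mem_om hN]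
      intro e' k'
      exact ⟨e', 𝟙 e', _, nat_r hN _ _⟩
  · intro d h a ha
    have ha1 : a.memf (natN d l.length) :=
      LN.memf_congr (LN.eqf_refl a) (nat_r hN h _) ha
    intro d' h'
    obtain ⟨e, k, m, hm, hi⟩ := (mem_nat hN a _).1 ha1 d' h'
    refine ⟨e, k, natN e (l.get ⟨m, hm⟩), ?_, ?_⟩
    · refine LN.memf_congr (LN.eqf_refl _) (LN.eqf_symm (om_r hN _)) ?_
      rw [mem_om hN]
      intro e' k'
      exact ⟨e', 𝟙 e', _, nat_r hN _ _⟩
    · refine LN.memf_congr (LN.eqf_refl _) (LN.eqf_symm (seq_r hS _ _)) ?_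
      refine mem_seq_of hN hO hS l _ ⟨m, hm⟩ ?_
      exact (op_inj hO _ _ _ _).2 ⟨hi, LN.eqf_refl _⟩
  · intro d h a b b' ha hb hb'
    have hb1 : (opN a b).memf (seqN d l) := LN.memf_congr (LN.eqf_refl _) (seq_r hS h l) hb
    have hb2 : (opN a b').memf (seqN d l) := LN.memf_congr (LN.eqf_refl _) (seq_r hS h l) hb'
    refine LN.eqf_reg ?_
    intro d' h'
    obtain ⟨e, k, i, hi⟩ := (mem_seq hS l _).1 hb1 d' h'
    obtain ⟨e', k', i', hi'⟩ := (mem_seq hS l _).1 hb2 e (h' ≫ k)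
    refine ⟨e', k ≫ k', ?_⟩
    have h1 : ((opN a b).r ((h' ≫ k) ≫ k')).eqf (opN (natN e' i.1) (natN e' (l.get i))) := by
      have := LN.eqf_trans (LN.eqf_mono hi k') (op_nat_r hN hO k' _ _)
      rwa [LN.r_r] at this
    have h2 := (op_inj hO _ _ _ _).1 (LN.eqf_trans (LN.eqf_symm (op_r hO _ _ _)) h1)
    have h3 := (op_inj hO _ _ _ _).1 (LN.eqf_trans (LN.eqf_symm (op_r hO _ _ _)) hi')
    have h4 : i.1 = i'.1 := (nat_eq hN e' _ _).1 (LN.eqf_trans (LN.eqf_symm h2.1) h3.1)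
    have h5 : i = i' := Fin.ext h4
    subst h5
    have h6 := LN.eqf_trans h2.2 (LN.eqf_symm h3.2)
    simpa using h6

/-- the domain of a finite sequence is its length -/
theorem length_of_ffun (hN : Stmt_NAT) (hO : Stmt_OPN) (hS : Stmt_SQA) {c : C} (l : List ℕ)
    (N : ℕ) (H : FFun (seqN c l) (natN c N) (omN c)) : N = l.length := by
  rcases lt_trichotomy N l.length with hlt | heq | hgt
  · exfalso
    have h1 : (opN (natN c N) (natN c (l.get ⟨N, hlt⟩))).memf (seqN c l) :=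
      mem_seq_of hN hO hS l _ ⟨N, hlt⟩ (LN.eqf_refl _)
    obtain ⟨e, k, a, b, ha, -, hab⟩ := H.1 c (𝟙 c) _ (by simpa using h1) c (𝟙 c)
    have h2 := (op_inj hO _ _ _ _).1 (LN.eqf_trans (LN.eqf_symm (op_r hO _ _ _)) hab)
    have h3 : (natN e N).eqf a := LN.eqf_trans (LN.eqf_symm (nat_r hN _ _)) h2.1
    have h4 : (natN e N).memf (natN e N) :=
      LN.memf_congr (LN.eqf_symm h3) (nat_r hN _ _) ha
    exact lt_irrefl _ ((nat_mem hN e N N).1 h4)
  · exact heq
  · exfalso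
    have h1 : (natN c l.length).memf (natN c N) := (nat_mem hN c _ _).2 hgt
    obtain ⟨e, k, b, -, hb⟩ := H.2.1 c (𝟙 c) _ (by simpa using h1) c (𝟙 c)
    have h2 : (opN ((natN c l.length).r (𝟙 c ≫ k)) b).memf (seqN e l) :=
      LN.memf_congr (LN.eqf_refl _) (seq_r hS _ l) hb
    obtain ⟨e', k', i, hi⟩ := (mem_seq hS l _).1 h2 e (𝟙 e)
    have h3 := (op_inj hO _ _ _ _).1 (LN.eqf_trans (LN.eqf_symm (op_r hO _ _ _)) hi)
    have h4 : (natN e' l.length).eqf (natN e' i.1) := by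
      refine LN.eqf_trans (LN.eqf_symm ?_) h3.1
      rw [LN.r_r]
      exact nat_r hN _ _
    have h5 := (nat_eq hN e' _ _).1 h4
    have := i.2
    omega

/-- elements of a prolonged sequence -/
theorem mem_append (hN : Stmt_NAT) (hO : Stmt_OPN) (hS : Stmt_SQA) {c : C} (l : List ℕ) (m : ℕ)
    (z : LN c) : z.memf (seqN c (l ++ [m])) ↔ Dns (c := c) fun e h =>
      (z.r h).memf (seqN e l) ∨ (z.r h).eqf (opN (natN e l.length) (natN e m)) := by
  constructor
  · intro H d h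
    obtain ⟨e, k, i, hi⟩ := (mem_seq hS _ z).1 H d h
    refine ⟨e, k, ?_⟩
    by_cases hlt : i.1 < l.length
    · left
      refine mem_seq_of hN hO hS l _ ⟨i.1, hlt⟩ ?_
      have : (l ++ [m]).get i = l.get ⟨i.1, hlt⟩ := by
        simp [List.getElem_append_left hlt]
      rwa [this] at hi
    · right
      have h1 := i.2
      simp only [List.length_append, List.length_cons, List.length_nil] at h1
      have h2 : i.1 = l.length := by omega
      have : (l ++ [m]).get i = m := by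
        simp [h2]
      rw [this, h2] at hi
      exact hi
  · intro H
    rw [mem_seq hS]
    intro d h
    obtain ⟨e, k, H1⟩ := H d h
    rcases H1 with H1 | H1
    · obtain ⟨e', k', i, hi⟩ := (mem_seq hS l _).1 H1 e (𝟙 e)
      have hlt : i.1 < (l ++ [m]).length := lt_of_lt_of_le i.2 (by simp)
      refine ⟨e', k ≫ k', ⟨i.1, hlt⟩, ?_⟩
      have h2 : (l ++ [m]).get ⟨i.1, hlt⟩ = l.get i := by
        simp [List.getElem_append_left i.2]
      rw [h2]
      rw [LN.r_r] at hi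
      simpa using hi
    · refine ⟨e, k, ⟨l.length, by simp⟩, ?_⟩
      have h2 : (l ++ [m]).get ⟨l.length, by simp⟩ = m := by simp
      rw [h2]
      exact H1

end SQC_

open SQC_ in
theorem sqc_proof (hNAT : Stmt_NAT) (hOPN : Stmt_OPN) (hFUN : Stmt_FUN) (hSQA : Stmt_SQA) :
    Stmt_SQC := by
  intro C _ c ρ w s k t l m hw hs hk
  -- the conditions on the successor, at an arbitrary stage
  have key : ∀ (e : C) (g : c ⟶ e) (n p : LN e), p.eqf (opN (natN e l.length) (natN e m)) →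
      (Frc (all (iff (mem 0 (t + 3)) (or (mem 0 (s + 3)) (eq 0 1)))) e
        (cons p (cons n (rr ρ g))) ↔ ((ρ t).r g).eqf (seqN e (l ++ [m]))) := by
    intro e g n p hp
    have hsg : ∀ (d : C) (h : e ⟶ d) (z : LN d),
        z.memf (((ρ s).r g).r h) ↔ z.memf (seqN d l) := by
      intro d h z
      rw [LN.r_r]
      have h1 : ((ρ s).r (g ≫ h)).eqf (seqN d l) :=
        LN.eqf_trans (LN.eqf_mono hs _) (seq_r hSQA _ l)
      exact ⟨fun H => LN.memf_congr (LN.eqf_refl z) h1 H,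
        fun H => LN.memf_congr (LN.eqf_refl z) (LN.eqf_symm h1) H⟩
    have hpg : ∀ (d : C) (h : e ⟶ d) (z : LN d),
        z.eqf (p.r h) ↔ z.eqf (opN (natN d l.length) (natN d m)) := by
      intro d h z
      have h1 : (p.r h).eqf (opN (natN d l.length) (natN d m)) :=
        LN.eqf_trans (LN.eqf_mono hp h) (op_nat_r hNAT hOPN h _ _)
      exact ⟨fun H => LN.eqf_trans H h1, fun H => LN.eqf_trans H (LN.eqf_symm h1)⟩
    have hor : ∀ (d : C) (h : e ⟶ d) (z : LN d),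
        Frc (or (mem 0 (s + 3)) (eq 0 1)) d (cons z (rr (cons p (cons n (rr ρ g))) h)) ↔
          z.memf (seqN d (l ++ [m])) := by
      intro d h z
      rw [frc_or, mem_append hNAT hOPN hSQA]
      refine forall_congr' fun d1 => forall_congr' fun h1 => exists_congr fun e1 =>
        exists_congr fun k1 => ?_
      refine or_congr ?_ ?_
      · have h2 := hsg e1 (h ≫ (h1 ≫ k1)) (z.r (h1 ≫ k1))
        rw [← h2]
        simp only [rr_cons, rr_rr, frc_mem, LN.r_r, Category.assoc]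
        rfl
      · have h2 := hpg e1 (h ≫ (h1 ≫ k1)) (z.r (h1 ≫ k1))
        rw [← h2]
        simp only [rr_cons, rr_rr, frc_eq, LN.r_r, Category.assoc]
        rfl
    rw [frc_all]
    constructor
    · intro H
      refine LN.ext' ?_
      intro d h z
      have h1 := H d h z
      rw [frc_iff] at h1
      have h2 := h1 d (𝟙 d)
      rw [rr_id, hor d h z, frc_mem] at h2
      have h3 : z.memf (((ρ t).r g).r h) ↔ z.memf (seqN d (l ++ [m])) := h2
      rw [h3]
      exact ⟨fun H => LN.memf_congr (LN.eqf_refl z) (LN.eqf_symm (seq_r hSQA _ _)) H,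
        fun H => LN.memf_congr (LN.eqf_refl z) (seq_r hSQA _ _) H⟩
    · intro H d h z
      rw [frc_iff]
      intro d' h'
      have h0 : rr (cons z (rr (cons p (cons n (rr ρ g))) h)) h' =
          cons (z.r h') (rr (cons p (cons n (rr ρ g))) (h ≫ h')) := by
        rw [rr_cons, rr_rr]
      rw [h0, hor d' (h ≫ h') (z.r h'), frc_mem]
      have h1 := LN.memf_iff_of_eqf H (h ≫ h') (z.r h')
      have h2 : (z.r h').memf ((seqN e (l ++ [m])).r (h ≫ h')) ↔
          (z.r h').memf (seqN d' (l ++ [m])) :=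
        ⟨fun H => LN.memf_congr (LN.eqf_refl _) (seq_r hSQA _ _) H,
          fun H => LN.memf_congr (LN.eqf_refl _) (LN.eqf_symm (seq_r hSQA _ _)) H⟩
      exact h1.trans h2
  rw [isucF, frc_ex]
  constructor
  · intro H
    refine LN.eqf_reg ?_
    intro d h
    obtain ⟨e, g, n, H1⟩ := H d h
    rw [frc_and, frc_and, frc_mem] at H1
    obtain ⟨H2, H3, H4⟩ := H1
    rw [hFUN] at H3
    have hn : n.memf (omN e) := by
      refine LN.memf_congr (LN.eqf_refl n) ?_ H2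
      exact LN.eqf_trans (LN.eqf_mono hw _) (om_r hNAT _)
    obtain ⟨e1, g1, N, hN⟩ := (mem_om hNAT n).1 hn e (𝟙 e)
    rw [Category.id_comp] at hN
    have H3' : FFun (seqN e1 l) (natN e1 N) (omN e1) := by
      refine ffun_congr ?_ ?_ ?_ (ffun_mono g1 H3)
      · show (((ρ s).r (h ≫ g)).r g1).eqf (seqN e1 l)
        rw [LN.r_r]
        exact LN.eqf_trans (LN.eqf_mono hs _) (seq_r hSQA _ l)
      · exact hN
      · show (((ρ w).r (h ≫ g)).r g1).eqf (omN e1)
        rw [LN.r_r]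
        exact LN.eqf_trans (LN.eqf_mono hw _) (om_r hNAT _)
    have hNl : N = l.length := length_of_ffun hNAT hOPN hSQA l N H3'
    subst hNl
    rw [frc_ex] at H4
    obtain ⟨e2, g2, p, H5⟩ := H4 e1 g1
    rw [frc_and, rr_cons, rr_rr] at H5
    obtain ⟨H6, H7⟩ := H5
    rw [((hOPN C).2.2 e2 _).1] at H6
    have hp : p.eqf (opN (natN e2 l.length) (natN e2 m)) := by
      refine LN.eqf_trans H6 ((op_inj hOPN _ _ _ _).2 ⟨?_, ?_⟩)
      · show (n.r (g1 ≫ g2)).eqf _
        have h1 := LN.eqf_trans (LN.eqf_mono hN g2) (nat_r hNAT _ _)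
        rwa [LN.r_r] at h1
      · show ((ρ k).r ((h ≫ g) ≫ g1 ≫ g2)).eqf _
        exact LN.eqf_trans (LN.eqf_mono hk _) (nat_r hNAT _ _)
    have h8 := (key e2 ((h ≫ g) ≫ g1 ≫ g2) (n.r (g1 ≫ g2)) p hp).1 H7
    refine ⟨e2, g ≫ g1 ≫ g2, ?_⟩
    rw [Category.assoc] at h8
    exact LN.eqf_trans h8 (LN.eqf_symm (seq_r hSQA _ _))
  · intro H d h
    refine ⟨d, 𝟙 d, natN d l.length, ?_⟩
    rw [Category.comp_id, frc_and, frc_and, frc_mem, hFUN]
    refine ⟨?_, ?_, ?_⟩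
    · show (natN d l.length).memf ((ρ w).r h)
      refine LN.memf_congr (LN.eqf_refl _) (LN.eqf_symm
        (LN.eqf_trans (LN.eqf_mono hw h) (om_r hNAT h))) ?_
      rw [mem_om hNAT]
      intro e' k'
      exact ⟨e', 𝟙 e', _, nat_r hNAT _ _⟩
    · show FFun ((ρ s).r h) (natN d l.length) ((ρ w).r h)
      refine ffun_congr (LN.eqf_symm ?_) (LN.eqf_refl _) (LN.eqf_symm ?_)
        (ffun_seq hNAT hOPN hSQA d l)
      · exact LN.eqf_trans (LN.eqf_mono hs _) (seq_r hSQA _ l)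
      · exact LN.eqf_trans (LN.eqf_mono hw _) (om_r hNAT _)
    · rw [frc_ex]
      intro d' h'
      refine ⟨d', 𝟙 d', opN (natN d' l.length) (natN d' m), ?_⟩
      rw [frc_and, rr_cons, rr_rr, Category.comp_id]
      refine ⟨?_, ?_⟩
      · rw [((hOPN C).2.2 d' _).1]
        refine (op_inj hOPN _ _ _ _).2 ⟨?_, ?_⟩
        · exact LN.eqf_symm (nat_r hNAT _ _)
        · exact LN.eqf_symm (LN.eqf_trans (LN.eqf_mono hk _) (nat_r hNAT _ _))
      · rw [key d' (h ≫ h') _ _ (LN.eqf_refl _)]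
        exact LN.eqf_trans (LN.eqf_mono H _) (seq_r hSQA _ _)

end Pool.Agent.CFZ
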