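import Pool.Agent.CFZ.Stmts

/-!
Squad CFZ, module SQF: general facts about block sequences.
-/

set_option autoImplicit false

namespace Pool.Agent.CFZ

namespace SQF_

theorem seqV_prop (F : ℕ → Finset ℕ → Prop) : SeqV F ↔ ((∀ n, ∃ u, F n u) ∧
    (∀ n u v, u ≠ v → ¬ (F n u ∧ F n v)) ∧ (∀ n, ¬ F n ∅) ∧
    ∀ n u v, ¬ Lt u v → ¬ (F n u ∧ F (n + 1) v)) := by
  simp only [SeqV, iInf_Prop_eq, iSup_Prop_eq, inf_Prop_eq, compl_iff_not, and_assoc, ne_eq]

/-- block sequences with values in `Prop` are block sequences -/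
theorem two {F : ℕ → Finset ℕ → Prop} (h : SeqV F) : ∃ f : ℕ → Finset ℕ,
    (∀ n u, F n u ↔ u = f n) ∧ (∀ n, (f n).Nonempty) ∧ (∀ n m, n < m → Lt (f n) (f m)) ∧
    ∀ n, ∀ i ∈ f n, n ≤ i := by
  obtain ⟨h1, h2, h3, h4⟩ := (seqV_prop F).1 h
  choose f hf using h1
  have hu : ∀ n u, F n u ↔ u = f n := by
    intro n u
    constructor
    · intro hu
      by_contra hne
      exact h2 n u (f n) hne ⟨hu, hf n⟩
    · rintro rfl
      exact hf n
  have hne : ∀ n, (f n).Nonempty := by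
    intro n
    rw [Finset.nonempty_iff_ne_empty]
    intro he
    apply h3 n
    rw [← he]
    exact hf n
  have hs : ∀ n, Lt (f n) (f (n + 1)) := by
    intro n
    by_contra hc
    exact h4 n _ _ hc ⟨hf n, hf (n + 1)⟩
  have hlt : ∀ n m, n < m → Lt (f n) (f m) := by
    intro n m hnm
    induction m, hnm using Nat.le_induction with
    | base => exact hs n
    | succ m hm ih =>
      intro i hi j hj
      obtain ⟨k, hk⟩ := hne m
      exact (ih i hi k hk).trans (hs m k hk j hj)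
  refine ⟨f, hu, hne, hlt, ?_⟩
  intro n
  induction n with
  | zero => intro i _; exact Nat.zero_le i
  | succ n ih =>
    intro i hi
    obtain ⟨k, hk⟩ := hne n
    have h5 := ih k hk
    have h6 := hs n k hk i hi
    omega

theorem infV_prop (a : ℕ → Prop) : InfV a ↔ ∀ n, ∃ m, n ≤ m ∧ a m := by
  simp only [InfV, iInf_Prop_eq, iSup_Prop_eq, exists_prop]

theorem blkV_prop (E : Finset ℕ → Prop) : BlkV E ↔ (¬ E ∅ ∧
    (∀ u v, ¬ (u = v ∨ Lt u v ∨ Lt v u) → ¬ (E u ∧ E v)) ∧ ∀ n : ℕ, ∃ u, (∀ i ∈ u, n < i) ∧ E u) := by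
  simp only [BlkV, iInf_Prop_eq, iSup_Prop_eq, inf_Prop_eq, compl_iff_not, and_assoc, exists_prop]

theorem bV_two {F : ℕ → Finset ℕ → Prop} (h : SeqV F) : InfV (bV F) := by
  obtain ⟨f, hu, hne, -, hge⟩ := two h
  rw [infV_prop]
  intro n
  refine ⟨(f (2 * n + 1)).min' (hne _), ?_, ?_⟩
  · have := hge (2 * n + 1) _ ((f (2 * n + 1)).min'_mem (hne _))
    omega
  · simp only [bV, iSup_Prop_eq, exists_prop]
    exact ⟨n, f (2 * n + 1), ⟨Finset.min'_mem _ _, fun i hi => Finset.min'_le _ i hi⟩,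
      (hu _ _).2 rfl⟩

theorem xV_two {F : ℕ → Finset ℕ → Prop} (h : SeqV F) : InfV (xV F) := by
  obtain ⟨f, hu, hne, -, hge⟩ := two h
  rw [infV_prop]
  intro n
  refine ⟨(f (2 * n)).min' (hne _), ?_, ?_⟩
  · have := hge (2 * n) _ ((f (2 * n)).min'_mem (hne _))
    omega
  · simp only [xV, iSup_Prop_eq, exists_prop]
    exact ⟨n, f (2 * n), Finset.min'_mem _ _, (hu _ _).2 rfl⟩

theorem blk_aux {f : ℕ → Finset ℕ} (hne : ∀ n, (f n).Nonempty)
    (hlt : ∀ n m, n < m → Lt (f n) (f m)) (hge : ∀ n, ∀ i ∈ f n, n ≤ i) (g : ℕ → ℕ)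
    (hg : ∀ n, n ≤ g n) (E : Finset ℕ → Prop) (hE : ∀ u, E u ↔ ∃ n, u = f (g n)) : BlkV E := by
  rw [blkV_prop]
  refine ⟨?_, ?_, ?_⟩
  · rw [hE]
    rintro ⟨n, hn⟩
    have := hne (g n)
    rw [← hn] at this
    simp at this
  · intro u v huv hE'
    rw [hE, hE] at hE'
    obtain ⟨⟨n, rfl⟩, m, rfl⟩ := hE'
    apply huv
    rcases lt_trichotomy (g n) (g m) with h | h | h
    · exact Or.inr (Or.inl (hlt _ _ h))
    · exact Or.inl (by rw [h])
    · exact Or.inr (Or.inr (hlt _ _ h))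
  · intro n
    refine ⟨f (g (n + 1)), ?_, (hE _).2 ⟨n + 1, rfl⟩⟩
    intro i hi
    have h1 := hge _ i hi
    have h2 := hg (n + 1)
    omega

theorem ran_two {F : ℕ → Finset ℕ → Prop} (h : SeqV F) : BlkV (RanV F) := by
  obtain ⟨f, hu, hne, hlt, hge⟩ := two h
  refine blk_aux hne hlt hge (fun n => n) (fun n => le_rfl) _ ?_
  intro u
  simp only [RanV, iSup_Prop_eq, hu]

theorem rev_two {F : ℕ → Finset ℕ → Prop} (h : SeqV F) : BlkV (REv F) := by
  obtain ⟨f, hu, hne, hlt, hge⟩ := two h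
  refine blk_aux hne hlt hge (fun n => 2 * n) (fun n => by omega) _ ?_
  intro u
  simp only [REv, iSup_Prop_eq, hu]

theorem yV_two {F : ℕ → Finset ℕ → Prop} (h : SeqV F) {J : ℕ → Prop} (hJ : EvV J) :
    InfV (yV F J) := by
  obtain ⟨f, hu, hne, hlt, hge⟩ := two h
  have hJ' : InfV J := hJ.1
  rw [infV_prop] at hJ' ⊢
  intro n
  obtain ⟨m, hm, hJm⟩ := hJ' n
  refine ⟨(f m).min' (hne _), ?_, ?_⟩
  · have := hge m _ ((f m).min'_mem (hne _))
    omega
  · simp only [yV, iSup_Prop_eq, exists_prop]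
    exact ⟨m, f m, Finset.min'_mem _ _, hJm, (hu _ _).2 rfl⟩

theorem ini_two {F : ℕ → Finset ℕ → Prop} (h : SeqV F) {t : L} (ht : iniV t F) : Blist t := by
  obtain ⟨f, hu, hne, hlt, hge⟩ := two h
  simp only [iniV, iInf_Prop_eq, hu] at ht
  constructor
  · intro u hu'
    obtain ⟨i, rfl⟩ := List.get_of_mem hu'
    rw [ht i]
    exact hne _
  · rw [List.pairwise_iff_get]
    intro i j hij
    rw [ht i, ht j]
    exact hlt _ _ hij

end SQF_

open SQF_

theorem sqf_proof (hLSP : Stmt_LSP) : Stmt_SQF := by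
  intro A _ F hF
  -- the basic Borel operation
  have hB : ∀ n u, IsB (α := ℕ × Finset ℕ) (fun A _ v => (fun n u => v (n, u)) n u) :=
    fun n u => IsB.atom (n, u)
  have hS : IsB (α := ℕ × Finset ℕ) (fun A _ v => SeqV (fun n u => v (n, u))) := isB_SeqV hB
  have tr : ∀ (G : ∀ (A : Type) [CompleteBooleanAlgebra A], (ℕ × Finset ℕ → A) → A), IsB G →
      (∀ X : ℕ × Finset ℕ → Prop, SeqV (fun n u => X (n, u)) → G Prop X) →
      G A (fun p => F p.1 p.2) = ⊤ := by
    intro G hG hP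
    have h1 := hLSP (ℕ × Finset ℕ) (fun A _ v => SeqV (fun n u => v (n, u)) ⇨ G A v)
      (hS.himp hG) (fun X => by
        have := hP X
        simpa only [himp_iff_imp] using this) A (fun p => F p.1 p.2)
    have h2 : (SeqV F ⇨ G A (fun p => F p.1 p.2)) = ⊤ := h1
    rw [hF, top_himp] at h2
    exact h2
  refine ⟨?_, ?_, ?_, ?_, ?_, ?_, ?_⟩
  · exact tr (fun A _ v => InfV (bV fun n u => v (n, u))) (isB_InfV (isB_bV hB))
      (fun X h => bV_two h)
  · exact tr (fun A _ v => InfV (xV fun n u => v (n, u))) (isB_InfV (isB_xV hB))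
      (fun X h => xV_two h)
  · exact tr (fun A _ v => BlkV (RanV fun n u => v (n, u))) (isB_BlkV (isB_RanV hB))
      (fun X h => ran_two h)
  · exact tr (fun A _ v => BlkV (REv fun n u => v (n, u))) (isB_BlkV (isB_REv hB))
      (fun X h => rev_two h)
  · intro n u v huv m hnm
    have h1 := tr (fun A _ w => (w (n, u) ⊓ w (m, v))ᶜ)
      ((IsB.atom (n, u)).inf (IsB.atom (m, v))).compl (fun X h => by
        obtain ⟨f, hu, -, hlt, -⟩ := two h
        change ¬ (X (n, u) ∧ X (m, v))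
        rintro ⟨h2, h3⟩
        apply huv
        rw [(hu n u).1 h2, (hu m v).1 h3]
        exact hlt n m hnm)
    exact compl_eq_top.1 h1
  · intro t ht
    have h1 := tr (fun A _ w => (iniV t fun n u => w (n, u))ᶜ)
      (by
        refine IsB.compl ?_
        unfold iniV
        exact IsB.iInf fun i => IsB.atom (_, _)) (fun X h => by
        change ¬ (iniV t fun n u => X (n, u))
        intro h2
        exact ht (ini_two h h2))
    exact compl_eq_top.1 h1
  · intro J hJ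
    have hB' : ∀ n u, IsB (α := (ℕ × Finset ℕ) ⊕ ℕ)
        (fun A _ v => (fun n u => v (Sum.inl (n, u))) n u) := fun n u => IsB.atom _
    have hB'' : ∀ n, IsB (α := (ℕ × Finset ℕ) ⊕ ℕ)
        (fun A _ v => (fun n => v (Sum.inr n)) n) := fun n => IsB.atom _
    have h1 := hLSP ((ℕ × Finset ℕ) ⊕ ℕ) (fun A _ v => SeqV (fun n u => v (Sum.inl (n, u))) ⇨
      (EvV (fun n => v (Sum.inr n)) ⇨
        InfV (yV (fun n u => v (Sum.inl (n, u))) (fun n => v (Sum.inr n)))))
      ((isB_SeqV hB').himp ((isB_EvV hB'').himp (isB_InfV (isB_yV hB' hB''))))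
      (fun X => by
        simp only [himp_iff_imp]
        intro h2 h3
        exact yV_two h2 h3) A (Sum.elim (fun p => F p.1 p.2) J)
    have h2 : (SeqV F ⇨ (EvV J ⇨ InfV (yV F J))) = ⊤ := h1
    rw [hF, top_himp, hJ, top_himp] at h2
    exact h2

end Pool.Agent.CFZ
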