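import Pool.Agent.CFZ.Stmts

/-!
THE: the union of the nodes `σ (y ∩ n)`.
-/

set_option autoImplicit false

namespace Pool.Agent.CFZ

namespace THE_

theorem parP (T : List ℕ → Prop) (σ : Finset ℕ → List ℕ → Prop) : ParV T σ ↔
    (∀ u, ∃ t, σ u t) ∧ (∀ u t t', t ≠ t' → ¬ (σ u t ∧ σ u t')) ∧ (∀ u t, σ u t → T t) ∧
    ∀ (u : Finset ℕ) (n n' : ℕ), ((∀ i ∈ u, i < n) ∧ n < n') →
      ∃ (t s s' : List ℕ) (k k' : ℕ), (k < k' ∧ (t ++ [k]) <+: s ∧ (t ++ [k']) <+: s') ∧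
        (σ u t ∧ σ (insert n u) s) ∧ σ (insert n' u) s' := by
  simp only [ParV, iInf_Prop_eq, iSup_Prop_eq, inf_Prop_eq, compl_iff_not, himp_iff_imp,
    exists_prop, and_assoc]

theorem realP (x : ℕ → ℕ → Prop) : RealV x ↔
    (∀ n, ∃ m, x n m) ∧ ∀ n m m', m ≠ m' → ¬ (x n m ∧ x n m') := by
  simp only [RealV, iInf_Prop_eq, iSup_Prop_eq, inf_Prop_eq, compl_iff_not]

theorem brP (x : ℕ → ℕ → Prop) (t : List ℕ) : BrV x t ↔ ∀ i : Fin t.length, x i (t.get i) := by
  simp only [BrV, iInf_Prop_eq]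

theorem infP (y : ℕ → Prop) : InfV y ↔ ∀ n, ∃ m, n ≤ m ∧ y m := by
  simp only [InfV, iInf_Prop_eq, iSup_Prop_eq, exists_prop]

theorem iniP (y : ℕ → Prop) (n : ℕ) (u : Finset ℕ) : IniS y n u ↔
    (∀ i, (i < n ∧ i ∈ u) → y i) ∧ ∀ i, (i < n ∧ i ∉ u) → ¬ y i := by
  simp only [IniS, iInf_Prop_eq, inf_Prop_eq, compl_iff_not]

theorem thP (σ : Finset ℕ → List ℕ → Prop) (y : ℕ → Prop) (x : ℕ → ℕ → Prop) : ThV σ y x ↔
    ∀ (n : ℕ) (u : Finset ℕ), (∀ i ∈ u, i < n) → ∀ t, (IniS y n u ∧ σ u t) → BrV x t := by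
  simp only [ThV, iInf_Prop_eq, inf_Prop_eq, himp_iff_imp]

section two

variable {T : List ℕ → Prop} {σ : Finset ℕ → List ℕ → Prop} {y : ℕ → Prop}
  (hp : ParV T σ) (hy : InfV y)

open Classical in
/-- the intersection of `y` with `n` -/
noncomputable def un (y : ℕ → Prop) (n : ℕ) : Finset ℕ := (Finset.range n).filter y

theorem mem_un (y : ℕ → Prop) (n i : ℕ) : i ∈ un y n ↔ i < n ∧ y i := by
  simp [un]

theorem un_succ (y : ℕ → Prop) (n : ℕ) :
    (y n ∧ un y (n + 1) = insert n (un y n)) ∨ (¬ y n ∧ un y (n + 1) = un y n) := by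
  by_cases h : y n
  · left
    refine ⟨h, ?_⟩
    ext i
    rw [Finset.mem_insert, mem_un, mem_un]
    constructor
    · rintro ⟨h1, h2⟩
      rcases Nat.lt_succ_iff_lt_or_eq.1 h1 with h3 | h3
      · exact Or.inr ⟨h3, h2⟩
      · exact Or.inl h3
    · rintro (rfl | ⟨h1, h2⟩)
      · exact ⟨Nat.lt_succ_self _, h⟩
      · exact ⟨Nat.lt_succ_of_lt h1, h2⟩
  · right
    refine ⟨h, ?_⟩
    ext i
    rw [mem_un, mem_un]
    constructor
    · rintro ⟨h1, h2⟩
      refine ⟨?_, h2⟩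
      rcases Nat.lt_succ_iff_lt_or_eq.1 h1 with h3 | h3
      · exact h3
      · subst h3
        exact absurd h2 h
    · rintro ⟨h1, h2⟩
      exact ⟨Nat.lt_succ_of_lt h1, h2⟩

theorem iniS_un (y : ℕ → Prop) (n : ℕ) : IniS y n (un y n) := by
  rw [iniP]
  refine ⟨fun i hi => ((mem_un y n i).1 hi.2).2, fun i hi h => hi.2 ((mem_un y n i).2 ⟨hi.1, h⟩)⟩

theorem eq_un (y : ℕ → Prop) (n : ℕ) (u : Finset ℕ) (hu : ∀ i ∈ u, i < n) (h : IniS y n u) :
    u = un y n := by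
  rw [iniP] at h
  ext i
  rw [mem_un]
  constructor
  · intro hi
    exact ⟨hu i hi, h.1 i ⟨hu i hi, hi⟩⟩
  · rintro ⟨h1, h2⟩
    by_contra h3
    exact h.2 i ⟨h1, h3⟩ h2

include hp in
theorem exists_f : ∃ f : Finset ℕ → List ℕ, (∀ u t, σ u t ↔ t = f u) ∧
    ∀ (u : Finset ℕ) (n : ℕ), (∀ i ∈ u, i < n) → ∃ k, (f u ++ [k]) <+: f (insert n u) := by
  rw [parP] at hp
  obtain ⟨h1, h2, -, h4⟩ := hp
  choose f hf using h1
  have h5 : ∀ u t, σ u t ↔ t = f u := by
    intro u t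
    constructor
    · intro h
      by_contra hc
      exact h2 u _ _ hc ⟨h, hf u⟩
    · rintro rfl
      exact hf u
  refine ⟨f, h5, ?_⟩
  intro u n hn
  obtain ⟨t, s, s', k, k', ⟨-, h6, -⟩, ⟨h7, h8⟩, -⟩ := h4 u n (n + 1) ⟨hn, Nat.lt_succ_self n⟩
  rw [h5] at h7 h8
  subst h7 h8
  exact ⟨k, h6⟩

include hp hy in
/-- the main two-valued fact -/
theorem exists_g : ∃ g : ℕ → List ℕ, (∀ n t, σ (un y n) t ↔ t = g n) ∧
    (∀ n m, n ≤ m → g n <+: g m) ∧ ∀ N, ∃ n, N ≤ (g n).length := by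
  obtain ⟨f, hf, hf'⟩ := exists_f hp
  have h1 : ∀ n, f (un y n) <+: f (un y (n + 1)) := by
    intro n
    rcases un_succ y n with ⟨-, h⟩ | ⟨-, h⟩
    · rw [h]
      obtain ⟨k, hk⟩ := hf' (un y n) n (fun i hi => ((mem_un y n i).1 hi).1)
      exact (List.prefix_append _ _).trans hk
    · rw [h]
  have h2 : ∀ n m, n ≤ m → f (un y n) <+: f (un y m) := by
    intro n m hnm
    induction m, hnm using Nat.le_induction with
    | base => exact List.prefix_rfl
    | succ m _ ih => exact ih.trans (h1 m)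
  refine ⟨fun n => f (un y n), fun n t => hf _ _, h2, ?_⟩
  intro N
  induction N with
  | zero => exact ⟨0, Nat.zero_le _⟩
  | succ N ih =>
    obtain ⟨n, hn⟩ := ih
    rw [infP] at hy
    obtain ⟨m, hm, hym⟩ := hy n
    refine ⟨m + 1, ?_⟩
    rcases un_succ y m with ⟨-, h⟩ | ⟨h, -⟩
    · obtain ⟨k, hk⟩ := hf' (un y m) m (fun i hi => ((mem_un y m i).1 hi).1)
      have h3 := hk.length_le
      have h4 := (h2 n m hm).length_le
      rw [List.length_append, List.length_singleton] at h3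
      change N ≤ (f (un y n)).length at hn
      change N + 1 ≤ (f (un y (m + 1))).length
      rw [h]
      omega
    · exact absurd hym h

include hp hy in
theorem exi : ∃ x : ℕ → ℕ → Prop, RealV x ∧ ThV σ y x := by
  obtain ⟨g, hg, hm, hl⟩ := exists_g hp hy
  refine ⟨fun n m => ∃ N, (g N)[n]? = some m, ?_, ?_⟩
  · rw [realP]
    constructor
    · intro n
      obtain ⟨N, hN⟩ := hl (n + 1)
      exact ⟨(g N)[n], N, List.getElem?_eq_getElem (by omega)⟩
    · rintro n m m' hmm ⟨⟨N, hN⟩, N', hN'⟩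
      apply hmm
      rcases le_total N N' with h | h
      · have h1 := (List.prefix_iff_getElem?.1 (hm N N' h)) n
        obtain ⟨hn, h2⟩ := List.getElem?_eq_some_iff.1 hN
        have h3 := h1 hn
        rw [hN', h2] at h3
        exact (Option.some.inj h3).symm
      · have h1 := (List.prefix_iff_getElem?.1 (hm N' N h)) n
        obtain ⟨hn, h2⟩ := List.getElem?_eq_some_iff.1 hN'
        have h3 := h1 hn
        rw [hN, h2] at h3
        exact Option.some.inj h3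
  · rw [thP]
    rintro n u hu t ⟨h1, h2⟩
    rw [eq_un y n u hu h1, hg] at h2
    subst h2
    rw [brP]
    intro i
    exact ⟨n, by simp⟩

include hp hy in
theorem uni {x x' : ℕ → ℕ → Prop} (hx : RealV x) (_hx' : RealV x') (h : ThV σ y x)
    (h' : ThV σ y x') (n m : ℕ) (hnm : x n m) : x' n m := by
  obtain ⟨g, hg, -, hl⟩ := exists_g hp hy
  obtain ⟨N, hN⟩ := hl (n + 1)
  rw [thP] at h h'
  have h1 := (brP _ _).1 (h N (un y N) (fun i hi => ((mem_un y N i).1 hi).1) (g N)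
    ⟨iniS_un y N, (hg N _).2 rfl⟩) ⟨n, by omega⟩
  have h2 := (brP _ _).1 (h' N (un y N) (fun i hi => ((mem_un y N i).1 hi).1) (g N)
    ⟨iniS_un y N, (hg N _).2 rfl⟩) ⟨n, by omega⟩
  rw [realP] at hx
  by_cases h3 : m = (g N).get ⟨n, by omega⟩
  · rw [h3]
    exact h2
  · exact absurd ⟨hnm, h1⟩ (hx.2 n _ _ h3)

end two

/-- index type for `T`, `σ`, `y` -/
abbrev Al : Type := List ℕ ⊕ (Finset ℕ × List ℕ) ⊕ ℕ

/-- index type for `T`, `σ`, `y`, `x`, `x'` -/
abbrev Be : Type := Al ⊕ (ℕ × ℕ) ⊕ (ℕ × ℕ)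

end THE_

open THE_

/-- the union of the nodes -/
theorem the_proof (hBTP : Stmt_BTP) (hLSP : Stmt_LSP) : Stmt_THE := by
  intro A _ T σ y hp hy
  constructor
  · have hB : IsB (α := Al ⊕ (ℕ × ℕ)) (fun B _ v =>
        (ParV (fun t => v (.inl (.inl t))) (fun u t => v (.inl (.inr (.inl (u, t))))) ⊓
          InfV (fun n => v (.inl (.inr (.inr n))))) ⇨
        (RealV (fun n m => v (.inr (n, m))) ⊓
          ThV (fun u t => v (.inl (.inr (.inl (u, t))))) (fun n => v (.inl (.inr (.inr n))))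
            (fun n m => v (.inr (n, m))))) := by
      refine IsB.himp (IsB.inf (isB_ParV (fun _ => IsB.atom _) (fun _ _ => IsB.atom _))
        (isB_InfV (fun _ => IsB.atom _))) (IsB.inf (isB_RealV (fun _ _ => IsB.atom _))
        (isB_ThV (fun _ _ => IsB.atom _) (fun _ => IsB.atom _) (fun _ _ => IsB.atom _)))
    obtain ⟨x, hx⟩ := hBTP Al (ℕ × ℕ) _ hB (by
      intro X
      by_cases h1 : ParV (fun t => X (.inl t)) (fun u t => X (.inr (.inl (u, t)))) ∧
        InfV (fun n => X (.inr (.inr n)))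
      · obtain ⟨x, hx⟩ := exi h1.1 h1.2
        refine ⟨fun i => x i.1 i.2, ?_⟩
        rw [himp_iff_imp]
        intro _
        exact hx
      · refine ⟨fun _ => True, ?_⟩
        rw [himp_iff_imp]
        intro h2
        exact absurd h2 h1) A (Sum.elim T (Sum.elim (fun i => σ i.1 i.2) y))
    rw [himp_eq_top_iff] at hx
    have h1 := hx
    simp only [Sum.elim_inl, Sum.elim_inr] at h1
    rw [hp, hy, inf_top_eq, top_le_iff, inf_eq_top_iff] at h1
    exact ⟨fun n m => x (n, m), h1⟩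
  · intro x x' hx hx' h h'
    have hB : ∀ n m : ℕ, IsB (α := Be) (fun B _ v =>
        ((ParV (fun t => v (.inl (.inl t))) (fun u t => v (.inl (.inr (.inl (u, t))))) ⊓
          InfV (fun n => v (.inl (.inr (.inr n))))) ⊓
        (RealV (fun n m => v (.inr (.inl (n, m)))) ⊓ RealV (fun n m => v (.inr (.inr (n, m)))))) ⊓
        (ThV (fun u t => v (.inl (.inr (.inl (u, t))))) (fun n => v (.inl (.inr (.inr n))))
            (fun n m => v (.inr (.inl (n, m)))) ⊓
          ThV (fun u t => v (.inl (.inr (.inl (u, t))))) (fun n => v (.inl (.inr (.inr n))))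
            (fun n m => v (.inr (.inr (n, m))))) ⇨
        (v (.inr (.inl (n, m))) ⇨ v (.inr (.inr (n, m))))) := by
      intro n m
      refine IsB.himp (IsB.inf (IsB.inf (IsB.inf (isB_ParV (fun _ => IsB.atom _)
        (fun _ _ => IsB.atom _)) (isB_InfV (fun _ => IsB.atom _)))
        (IsB.inf (isB_RealV (fun _ _ => IsB.atom _)) (isB_RealV (fun _ _ => IsB.atom _))))
        (IsB.inf (isB_ThV (fun _ _ => IsB.atom _) (fun _ => IsB.atom _) (fun _ _ => IsB.atom _))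
          (isB_ThV (fun _ _ => IsB.atom _) (fun _ => IsB.atom _) (fun _ _ => IsB.atom _))))
        (IsB.himp (IsB.atom _) (IsB.atom _))
    have key : ∀ x x' : ℕ → ℕ → A, RealV x = ⊤ → RealV x' = ⊤ → ThV σ y x = ⊤ →
        ThV σ y x' = ⊤ → ∀ n m, x n m ≤ x' n m := by
      intro x x' hx hx' h h' n m
      have h1 := hLSP Be _ (hB n m) (by
        intro X
        rw [himp_iff_imp, himp_iff_imp]
        rintro ⟨⟨⟨h1, h2⟩, h3, h4⟩, h5, h6⟩ h7
        exact uni h1 h2 h3 h4 h5 h6 n m h7) A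
        (Sum.elim (Sum.elim T (Sum.elim (fun i => σ i.1 i.2) y))
          (Sum.elim (fun i => x i.1 i.2) (fun i => x' i.1 i.2)))
      rw [himp_eq_top_iff] at h1
      simp only [Sum.elim_inl, Sum.elim_inr] at h1
      rw [hp, hy, hx, hx', h, h', inf_top_eq, inf_top_eq, inf_top_eq, top_le_iff,
        himp_eq_top_iff] at h1
      exact h1
    funext n m
    exact le_antisymm (key x x' hx hx' h h' n m) (key x' x hx' hx h' h n m)

end Pool.Agent.CFZ
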