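import Pool.Agent.CFZ.Stmts

/-!
Squad CFZ, module TPR: parametrisation of a Miller tree.
-/

set_option autoImplicit false

namespace Pool.Agent.CFZ

namespace TPR_

/-- the recursion along finite sets -/
noncomputable def tau (E : List ℕ → List ℕ) (K : List ℕ → ℕ → ℕ) (u : Finset ℕ) : List ℕ :=
  if h : u.Nonempty then
    E (tau E K (u.erase (u.max' h)) ++ [K (tau E K (u.erase (u.max' h))) (u.max' h)])
  else E []
termination_by u.card
decreasing_by
  all_goals exact Finset.card_erase_lt_of_mem (u.max'_mem h)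

theorem tau_empty (E : List ℕ → List ℕ) (K : List ℕ → ℕ → ℕ) : tau E K ∅ = E [] := by
  rw [tau]; simp

theorem tau_insert (E : List ℕ → List ℕ) (K : List ℕ → ℕ → ℕ) (u : Finset ℕ) (n : ℕ)
    (h : ∀ i ∈ u, i < n) :
    tau E K (insert n u) = E (tau E K u ++ [K (tau E K u) n]) := by
  have hne : (insert n u).Nonempty := ⟨n, Finset.mem_insert_self n u⟩
  have hmax : (insert n u).max' hne = n := by
    apply le_antisymm
    · apply Finset.max'_le
      intro y hy
      rcases Finset.mem_insert.1 hy with h1 | h1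
      · exact h1.le
      · exact (h y h1).le
    · exact Finset.le_max' _ _ (Finset.mem_insert_self n u)
  have hn : n ∉ u := fun h' => lt_irrefl _ (h n h')
  rw [tau, dif_pos hne, hmax, Finset.erase_insert hn]

/-- the two-valued case -/
theorem two (T : List ℕ → Prop) (h0 : T [])
    (h2 : ∀ s, T s → ∃ t, s <+: t ∧ T t ∧ ∀ n : ℕ, ∃ k, n < k ∧ T (t ++ [k])) :
    ∃ τ : Finset ℕ → List ℕ, (∀ u, T (τ u)) ∧
      ∀ (u : Finset ℕ) (n n' : ℕ), (∀ i ∈ u, i < n) → n < n' → ∃ k k' : ℕ, k < k' ∧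
        (τ u ++ [k]) <+: τ (insert n u) ∧ (τ u ++ [k']) <+: τ (insert n' u) := by
  classical
  have h3 : ∀ s, ∃ t, T s → (s <+: t ∧ T t ∧ ∀ n : ℕ, ∃ k, n < k ∧ T (t ++ [k])) := by
    intro s
    by_cases h : T s
    · obtain ⟨t, ht⟩ := h2 s h
      exact ⟨t, fun _ => ht⟩
    · exact ⟨[], fun h' => absurd h' h⟩
  choose E hE using h3
  set K : List ℕ → ℕ → ℕ := fun t n => Nat.nth (fun k => T (t ++ [k])) n with hK
  have hinf : ∀ t, (∀ n : ℕ, ∃ k, n < k ∧ T (t ++ [k])) →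
      {k | T (t ++ [k])}.Infinite := by
    intro t ht
    rw [Set.infinite_iff_exists_gt]
    intro n
    obtain ⟨k, hk1, hk2⟩ := ht n
    exact ⟨k, hk2, hk1⟩
  have hgood : ∀ u, T (tau E K u) ∧ ∀ n : ℕ, ∃ k, n < k ∧ T (tau E K u ++ [k]) := by
    intro u
    induction u using Finset.induction_on_max with
    | empty => rw [tau_empty]; exact (hE [] h0).2
    | insert n u hu ih =>
      rw [tau_insert E K u n hu]
      have h4 : T (tau E K u ++ [K (tau E K u) n]) :=
        Nat.nth_mem_of_infinite (hinf _ ih.2) n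
      exact (hE _ h4).2
  refine ⟨tau E K, fun u => (hgood u).1, fun u n n' hu hn => ?_⟩
  have hi := hinf _ (hgood u).2
  have hu' : ∀ i ∈ u, i < n' := fun i hi => (hu i hi).trans hn
  refine ⟨K (tau E K u) n, K (tau E K u) n', Nat.nth_strictMono hi hn, ?_, ?_⟩
  · rw [tau_insert E K u n hu]
    exact (hE _ (Nat.nth_mem_of_infinite hi n)).1
  · rw [tau_insert E K u n' hu']
    exact (hE _ (Nat.nth_mem_of_infinite hi n')).1

end TPR_

open TPR_ in
theorem tpr_proof (hBTP : Stmt_BTP) : Stmt_TPR := by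
  intro A _ T hT
  let F : ∀ (A : Type) [CompleteBooleanAlgebra A], (List ℕ ⊕ (Finset ℕ × List ℕ) → A) → A :=
    fun A _ v => MilV (fun t => v (Sum.inl t)) ⇨
      ParV (fun t => v (Sum.inl t)) (fun u t => v (Sum.inr (u, t)))
  have hF : IsB F := by
    exact IsB.himp (isB_MilV fun t => IsB.atom _)
      (isB_ParV (fun t => IsB.atom _) (fun u t => IsB.atom _))
  obtain ⟨y, hy⟩ := hBTP (List ℕ) (Finset ℕ × List ℕ) F hF (by
    intro X
    by_cases h : X [] ∧ ∀ s, X s → ∃ t, s <+: t ∧ X t ∧ ∀ n : ℕ, ∃ k, n < k ∧ X (t ++ [k])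
    · obtain ⟨τ, hτ1, hτ2⟩ := two X h.1 h.2
      refine ⟨fun p => p.2 = τ p.1, ?_⟩
      simp only [F, MilV, ParV, himp_iff_imp, iInf_Prop_eq, iSup_Prop_eq, inf_Prop_eq,
        compl_iff_not, Sum.elim_inl, Sum.elim_inr, exists_prop]
      intro _
      refine ⟨⟨⟨fun u => ⟨τ u, rfl⟩, ?_⟩, ?_⟩, ?_⟩
      · rintro u t t' hne ⟨h1, h2⟩
        exact hne (h1.trans h2.symm)
      · rintro u t rfl
        exact hτ1 u
      · rintro u n n' ⟨hu, hn⟩
        obtain ⟨k, k', hk, h1, h2⟩ := hτ2 u n n' hu hn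
        exact ⟨τ u, τ (insert n u), τ (insert n' u), k, k', ⟨hk, h1, h2⟩, ⟨rfl, rfl⟩, rfl⟩
    · refine ⟨fun _ => False, ?_⟩
      simp only [F, MilV, himp_iff_imp, iInf_Prop_eq, iSup_Prop_eq, inf_Prop_eq,
        Sum.elim_inl, exists_prop]
      intro h'
      exact absurd ⟨h'.1.1, h'.2⟩ h) A T
  refine ⟨fun u t => y (u, t), ?_⟩
  have h1 : (⊤ : A) ≤ ParV T (fun u t => y (u, t)) :=
    le_trans hT.ge (himp_eq_top_iff.1 hy)
  exact top_le_iff.1 h1

end Pool.Agent.CFZ
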