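import Pool.Agent.CFZ.Stmts

/-!
Squad CFZ, module UNM: the name of the set without the Baire property.
-/

set_option autoImplicit false

namespace Pool.Agent.CFZ

open CategoryTheory

namespace UNM_

theorem step {e0 e2 : Ob} (n : e0 ⟶ e2) (x : ℕ → ℕ → e0.A) (hx1 : RealV x = ⊤)
    (hx2 : AlmV e0.a (fun m => x m 0) = ⊤) :
    RealV (fun a b => n.h (x a b)) = ⊤ ∧ AlmV e2.a (fun m => n.h (x m 0)) = ⊤ := by
  constructor
  · rw [← CHom.map_RealV, hx1, CHom.map_top]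
  · have h1 := n.alm
    have h2 : AlmV (fun m => n.h (e0.a m)) (fun m => n.h (x m 0)) = ⊤ := by
      rw [← CHom.map_AlmV, hx2, CHom.map_top]
    have h3 := AlmV_trans e2.a (fun m => n.h (e0.a m)) (fun m => n.h (x m 0))
    rw [h1, h2, inf_top_eq, top_le_iff] at h3
    exact h3

end UNM_

theorem unm_proof (hNRN : Stmt_NRN) : Stmt_UNM := by
  intro c
  have hex : ∀ (e : Ob) (x : ℕ → ℕ → e.A), ∃ X : LN e, IsRl X x := fun e => (hNRN e).1
  choose N hN using hex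
  let I : Type 1 := Σ e : Ob, Σ _ : c ⟶ e,
    {x : ℕ → ℕ → e.A // RealV x = ⊤ ∧ AlmV e.a (fun m => x m 0) = ⊤}
  refine ⟨bld c I (fun t => t.1) (fun t => t.2.1) (fun t => N t.1 t.2.2.1), ?_⟩
  intro e h z
  rw [LN.memf_bld]
  constructor
  · intro H e1 k
    obtain ⟨e2, l, ⟨e0, h0, x, hx1, hx2⟩, n, hn1, hn2⟩ := H e1 k
    refine ⟨e2, l, fun a b => n.h (x a b), (UNM_.step (e0 := e0) n x hx1 hx2).1, ?_,
      (UNM_.step (e0 := e0) n x hx1 hx2).2⟩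
    have h1 : IsRl ((N e0 x).r n) (fun a b => n.h (x a b)) :=
      (hNRN e0).2.2.2.2.1 _ _ _ n (hN e0 x)
    exact ((hNRN e2).2.2.1 _ _ _ h1).2 (LN.eqf_symm hn2)
  · intro H e1 k
    obtain ⟨e2, l, x, hx1, hx2, hx3⟩ := H e1 k
    refine ⟨e2, l, ⟨e2, h ≫ k ≫ l, x, hx1, hx3⟩, 𝟙 e2, ?_, ?_⟩
    · rw [Category.comp_id]
    · rw [LN.r_id]
      exact ((hNRN e2).2.2.1 _ _ _ hx2).1 (hN e2 x)

end Pool.Agent.CFZ
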