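import Pool.Agent.CFZ.Stmts

/-!
Squad CFZ, module VMX: maximal values of `vV` for all stems at once.
-/

set_option autoImplicit false

namespace Pool.Agent.CFZ

namespace VMX_

variable {A : Type} [CompleteBooleanAlgebra A]

theorem LeV_iff (E' E : Finset ℕ → A) : LeV E' E = ⊤ ↔ ∀ u, E' u ≤ SpV E u := by
  unfold LeV
  rw [iInf_eq_top]
  exact forall_congr' fun u => himp_eq_top_iff

theorem SpV_le {E' E : Finset ℕ → A} (h : BlkV E' = ⊤) (h' : LeV E' E = ⊤) (u : Finset ℕ) :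
    SpV E' u ≤ SpV E u := by
  have := SpV_trans ⊤ E' E u (BlkV_empty h)
    (fun w _ _ => by rw [top_inf_eq]; exact (LeV_iff _ _).1 h' w)
  rwa [top_inf_eq] at this

theorem LeV_refl (E : Finset ℕ → A) : LeV E E = ⊤ := (LeV_iff _ _).2 fun u => le_SpV E u

theorem LeV_trans {E1 E2 E3 : Finset ℕ → A} (h2 : BlkV E2 = ⊤) (h12 : LeV E1 E2 = ⊤)
    (h23 : LeV E2 E3 = ⊤) : LeV E1 E3 = ⊤ :=
  (LeV_iff _ _).2 fun u => ((LeV_iff _ _).1 h12 u).trans (SpV_le h2 h23 u)

theorem vV_le {E0 : Finset ℕ → A} {D : Set (Cd A E0)} (hD : ∀ q ∈ D, ∀ q' ≤ q, q' ∈ D) {t : L}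
    {E1 E2 : Finset ℕ → A} {a : A} (hE2 : BlkV E2 = ⊤) (hE20 : LeV E2 E0 = ⊤)
    (h : ∀ u, Gt t u → a ⊓ E2 u ≤ SpV E1 u) : a ⊓ vV D t E1 ≤ vV D t E2 := by
  unfold vV
  rw [inf_iSup₂_eq]
  refine iSup₂_le ?_
  rintro q ⟨hq, rfl, rfl⟩
  by_cases hne : a ⊓ q.p = ⊥
  · rw [hne]
    exact bot_le
  · let q' : Cd A E0 := ⟨a ⊓ q.p, q.s, E2, hne, q.hs, hE2, hE20,
      fun u hu => inf_le_right.trans (q.hs0 u hu)⟩
    have hq' : q' ≤ q := by
      rw [Cd.le_def]
      refine ⟨inf_le_right, List.prefix_refl _, fun u h1 h2 => absurd h1 h2, fun u hu => ?_⟩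
      refine le_trans ?_ (h u hu)
      exact inf_le_inf_right _ inf_le_left
    exact le_iSup₂_of_le (f := fun (q : Cd A E0) (_ : q ∈ D ∧ q.s = _ ∧ q.E = E2) => q.p) q'
      ⟨hD q hq q' hq', rfl, rfl⟩ le_rfl

open Classical in
/-- the part beyond a list -/
noncomputable def bey (t : L) (E : Finset ℕ → A) (u : Finset ℕ) : A := if Gt t u then E u else ⊥

theorem bey_le (t : L) (E : Finset ℕ → A) (u : Finset ℕ) : bey t E u ≤ E u := by
  unfold bey
  split_ifs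
  · exact le_rfl
  · exact bot_le

theorem BlkV_bey (t : L) {E : Finset ℕ → A} (hE : BlkV E = ⊤) : BlkV (bey t E) = ⊤ := by
  classical
  have h0 := BlkV_empty hE
  have h1 : (⨅ (u) (v) (_ : ¬ (u = v ∨ Lt u v ∨ Lt v u)), (E u ⊓ E v)ᶜ) = ⊤ :=
    top_le_iff.1 (hE ▸ inf_le_left.trans inf_le_right)
  have h2 : (⨅ n : ℕ, ⨆ (u) (_ : ∀ i ∈ u, n < i), E u) = ⊤ := top_le_iff.1 (hE ▸ inf_le_right)
  unfold BlkV
  refine top_le_iff.1 (le_inf (le_inf ?_ ?_) ?_)
  · have : bey t E ∅ = ⊥ := le_bot_iff.1 ((bey_le t E ∅).trans h0.le)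
    rw [this, compl_bot]
  · rw [← h1]
    refine iInf_mono fun u => iInf_mono fun v => iInf_mono fun _ => ?_
    exact compl_le_compl (inf_le_inf (bey_le t E u) (bey_le t E v))
  · refine le_iInf fun n => ?_
    have h3 := (iInf_eq_top.1 h2) (max n (t.toFinset.sup (fun w => w.sup id)))
    rw [← h3]
    refine iSup₂_le fun u hu => ?_
    rcases Finset.eq_empty_or_nonempty u with rfl | hne
    · rw [h0]
      exact bot_le
    · have hgt : Gt t u := by
        refine ⟨hne, fun w hw i hi j hj => ?_⟩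
        have h4 := hu j hj
        have h5 : i ≤ t.toFinset.sup (fun w => w.sup id) :=
          (Finset.le_sup (f := id) hi).trans
            (Finset.le_sup (f := fun w : Finset ℕ => w.sup id) (List.mem_toFinset.2 hw))
        exact (h5.trans (le_max_right _ _)).trans_lt h4
      refine le_iSup₂_of_le u (fun i hi => (le_max_left _ _).trans_lt (hu i hi)) ?_
      unfold bey
      rw [if_pos hgt]

end VMX_

open VMX_ in
theorem vmx_proof (hATT : Stmt_ATT) (hMXB : Stmt_MXB) (hDIA : Stmt_DIA) : Stmt_VMX := by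
  classical
  intro A _ E0 D m0 E hD hE hE0
  refine (hDIA A
    (fun t E1 a => ∀ a' ≤ a, ∀ E' : Finset ℕ → A, BlkV E' = ⊤ → LeV E' E0 = ⊤ →
      (∀ u, Gt t u → a' ⊓ E' u ≤ SpV E1 u) → a' ⊓ vV D t E' ≤ vV D t E1) m0 E hE ?_ ?_).elim
    (fun E1 h => ⟨E1, h.1, h.2.1, LeV_trans hE h.2.1 hE0, fun t ht a E' ha h1 h2 h3 =>
      h.2.2 t ht a ha E' h1 h2 h3⟩)
  · intro t E1 E2 a a' hE1 hE2 hE1E hE2E hq haa hsp a'' ha'' E' hE' hE'0 hE'2
    have h1 : ∀ u, Gt t u → a'' ⊓ E' u ≤ SpV E1 u := by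
      intro u hu
      refine (le_inf inf_le_left (hE'2 u hu)).trans ?_
      exact SpV_trans a'' E2 E1 u (BlkV_empty hE2) fun w hw hne =>
        (inf_le_inf_right _ ha'').trans (hsp w (hu.mono hw hne))
    have h2 := hq a'' (ha''.trans haa) E' hE' hE'0 h1
    have h3 : a'' ⊓ vV D t E1 ≤ vV D t E2 :=
      vV_le hD hE2 (LeV_trans hE hE2E hE0) fun u hu => (inf_le_inf_right _ ha'').trans (hsp u hu)
    exact (le_inf inf_le_left h2).trans h3
  · intro t E1 ht hE1 hE1E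
    obtain ⟨J, a, f, ha1, ha2, ha3⟩ := @hATT A _ {E' : Finset ℕ → A // BlkV E' = ⊤ ∧ LeV E' E1 = ⊤}
      ⟨⟨E1, hE1, LeV_refl E1⟩⟩ (fun E' => vV D t E'.1)
    obtain ⟨E2, hE2, hE21, hE2m⟩ := hMXB A J a (fun j => (f j).1) E1 ha1 ha2
      (fun j => (f j).2.1) (fun j => (f j).2.2)
    have hE20 : LeV E2 E0 = ⊤ := LeV_trans hE1 hE21 (LeV_trans hE hE1E hE0)
    have hmax : ∀ E' : Finset ℕ → A, BlkV E' = ⊤ → LeV E' E1 = ⊤ → vV D t E' ≤ vV D t E2 := by
      intro E' h1 h2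
      have h3 : vV D t E' ≤ ⨆ X : {E' : Finset ℕ → A // BlkV E' = ⊤ ∧ LeV E' E1 = ⊤}, vV D t X.1 :=
        le_iSup (fun X : {E' : Finset ℕ → A // BlkV E' = ⊤ ∧ LeV E' E1 = ⊤} => vV D t X.1)
          ⟨E', h1, h2⟩
      refine h3.trans ?_
      generalize (⨆ X : {E' : Finset ℕ → A // BlkV E' = ⊤ ∧ LeV E' E1 = ⊤}, vV D t X.1) = z at ha3 ⊢
      rw [← top_inf_eq z, ← ha2, iSup_inf_eq]
      refine iSup_le fun j => (le_inf inf_le_left (ha3 j)).trans ?_
      refine vV_le hD hE2 hE20 fun u _ => ?_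
      rw [hE2m]
      exact inf_le_right.trans (le_SpV _ _)
    refine ⟨E2, hE2, hE21, fun a' _ E' hE' hE'0 hE'2 => ?_⟩
    obtain ⟨E3, hE3, hE30, hE3m⟩ := hMXB A Bool (fun b => bif b then a' else a'ᶜ)
      (fun b => bif b then bey t E' else E2) E0
      (by
        intro i j hij
        cases i <;> cases j <;> simp at hij ⊢)
      (by rw [iSup_bool_eq]; simp)
      (by
        intro i
        cases i
        · exact hE2
        · exact BlkV_bey t hE')
      (by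
        intro i
        cases i
        · exact hE20
        · exact (LeV_iff _ _).2 fun u => (bey_le t E' u).trans ((LeV_iff _ _).1 hE'0 u))
    have hm1 : ∀ u, a' ⊓ E3 u = a' ⊓ bey t E' u := fun u => hE3m true u
    have hm2 : ∀ u, a'ᶜ ⊓ E3 u = a'ᶜ ⊓ E2 u := fun u => hE3m false u
    have hE31 : LeV E3 E1 = ⊤ := by
      rw [LeV_iff]
      intro u
      have h1 : E3 u = (a' ⊓ E3 u) ⊔ (a'ᶜ ⊓ E3 u) := by
        rw [← inf_sup_right, sup_compl_eq_top, top_inf_eq]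
      rw [h1, hm1, hm2]
      refine sup_le ?_ (inf_le_right.trans ((LeV_iff _ _).1 hE21 u))
      by_cases hu : Gt t u
      · have h2 : bey t E' u = E' u := by
          unfold bey
          rw [if_pos hu]
        rw [h2]
        exact (hE'2 u hu).trans (SpV_le hE2 hE21 u)
      · have h2 : bey t E' u = ⊥ := by
          unfold bey
          rw [if_neg hu]
        rw [h2, inf_bot_eq]
        exact bot_le
    have h1 : a' ⊓ vV D t E' ≤ vV D t E3 := by
      refine vV_le hD hE3 hE30 fun u _ => ?_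
      rw [hm1]
      exact inf_le_right.trans ((bey_le t E' u).trans (le_SpV _ _))
    exact h1.trans (hmax E3 hE3 hE31)

end Pool.Agent.CFZ
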