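import Pool.Agent.CFZ.Stmts

/-!
WPR: the least fixed point `WV`.
-/

set_option autoImplicit false

namespace Pool.Agent.CFZ

namespace WPR_

section

variable {A : Type} [CompleteBooleanAlgebra A]

theorem le_pre (O : L → A) (E : Finset ℕ → A) (X : L → A)
    (hX : ∀ t, O t ⊔ (⨅ (u) (_ : Gt t u), (SpV E u ⇨ X (t ++ [u]))) ≤ X t) (t : L) :
    WV O E t ≤ X t := iInf₂_le X hX

theorem pre (O : L → A) (E : Finset ℕ → A) (t : L) :
    O t ⊔ (⨅ (u) (_ : Gt t u), (SpV E u ⇨ WV O E (t ++ [u]))) ≤ WV O E t := by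
  refine le_iInf₂ fun X hX => le_trans (sup_le_sup_left ?_ _) (hX t)
  refine iInf₂_mono fun u _ => himp_le_himp_left (le_pre O E X hX _)

theorem fix (O : L → A) (E : Finset ℕ → A) (t : L) :
    WV O E t = O t ⊔ ⨅ (u) (_ : Gt t u), (SpV E u ⇨ WV O E (t ++ [u])) := by
  apply le_antisymm
  · refine le_pre O E (fun t => O t ⊔ ⨅ (u) (_ : Gt t u), (SpV E u ⇨ WV O E (t ++ [u]))) ?_ t
    intro t
    refine sup_le_sup_left ?_ _
    exact iInf₂_mono fun u _ => himp_le_himp_left (pre O E _)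
  · exact pre O E t

end

end WPR_

/-- the least fixed point `WV` -/
theorem wpr_proof : Stmt_WPR := by
  intro A _ O E
  refine ⟨WPR_.fix O E, fun X hX t => WPR_.le_pre O E X hX t, ?_⟩
  intro O' E' t a h0 hO hE
  classical
  have h := WPR_.le_pre O E (fun r => if t <+: r then a ⇨ WV O' E' r else ⊤) (fun r => ?_) t
  · rw [if_pos (List.prefix_refl t), le_himp_iff, inf_comm] at h
    exact h
  · by_cases hr : t <+: r
    · rw [if_pos hr, le_himp_iff, inf_comm, inf_sup_left]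
      refine sup_le ((hO r hr).trans (le_sup_left.trans (WPR_.pre O' E' r))) ?_
      refine le_trans ?_ (le_sup_right.trans (WPR_.pre O' E' r))
      refine le_iInf₂ fun u hu => ?_
      rw [le_himp_iff]
      have h1 : (⨅ (u) (_ : Gt r u), (SpV E u ⇨ if t <+: r ++ [u] then a ⇨ WV O' E' (r ++ [u])
          else ⊤)) ≤ (SpV E u ⇨ (a ⇨ WV O' E' (r ++ [u]))) := by
        refine (iInf₂_le u hu).trans ?_
        rw [if_pos (hr.trans (List.prefix_append _ _))]
      have h2 : a ⊓ SpV E' u ≤ SpV E u :=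
        SpV_trans a E' E u h0 fun w hw hne => hE w ((hu.mono hw hne).of_prefix hr)
      calc a ⊓ (⨅ (u) (_ : Gt r u), (SpV E u ⇨ if t <+: r ++ [u] then a ⇨ WV O' E' (r ++ [u])
          else ⊤)) ⊓ SpV E' u ≤ a ⊓ (SpV E u ⇨ (a ⇨ WV O' E' (r ++ [u]))) ⊓ SpV E' u :=
            inf_le_inf_right _ (inf_le_inf_left _ h1)
        _ ≤ (SpV E u ⇨ (a ⇨ WV O' E' (r ++ [u]))) ⊓ SpV E u ⊓ a := by
            refine le_inf (le_inf (inf_le_left.trans inf_le_right) ?_)
              (inf_le_left.trans inf_le_left)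
            exact (le_inf (inf_le_left.trans inf_le_left) inf_le_right).trans h2
        _ ≤ (a ⇨ WV O' E' (r ++ [u])) ⊓ a := inf_le_inf_right _ himp_inf_le
        _ ≤ WV O' E' (r ++ [u]) := himp_inf_le
    · rw [if_neg hr]; exact le_top

end Pool.Agent.CFZ
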