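import Pool.Agent.CFZ.EXF
import Pool.Agent.CFZ.PUI
import Pool.Agent.CFZ.SEP
import Pool.Agent.CFZ.POW
import Pool.Agent.CFZ.REP
import Pool.Agent.CFZ.GMD
import Pool.Agent.CFZ.NAT
import Pool.Agent.CFZ.OMG
import Pool.Agent.CFZ.OPN
import Pool.Agent.CFZ.FUN
import Pool.Agent.CFZ.SQA
import Pool.Agent.CFZ.SQB
import Pool.Agent.CFZ.SQC
import Pool.Agent.CFZ.MLF
import Pool.Agent.CFZ.BRF
import Pool.Agent.CFZ.RST
import Pool.Agent.CFZ.ATT
import Pool.Agent.CFZ.MIX
import Pool.Agent.CFZ.AMA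
import Pool.Agent.CFZ.LIM
import Pool.Agent.CFZ.RSU
import Pool.Agent.CFZ.LSK
import Pool.Agent.CFZ.LSP
import Pool.Agent.CFZ.CTP
import Pool.Agent.CFZ.BTP
import Pool.Agent.CFZ.PSI
import Pool.Agent.CFZ.LOB
import Pool.Agent.CFZ.NIC
import Pool.Agent.CFZ.HIN
import Pool.Agent.CFZ.HNA
import Pool.Agent.CFZ.DGA
import Pool.Agent.CFZ.DIA
import Pool.Agent.CFZ.MXB
import Pool.Agent.CFZ.WPR
import Pool.Agent.CFZ.ACC
import Pool.Agent.CFZ.NWT
import Pool.Agent.CFZ.VMX
import Pool.Agent.CFZ.PDE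
import Pool.Agent.CFZ.CPO
import Pool.Agent.CFZ.CAP
import Pool.Agent.CFZ.ABS
import Pool.Agent.CFZ.FNP
import Pool.Agent.CFZ.SQF
import Pool.Agent.CFZ.GNF
import Pool.Agent.CFZ.GNE
import Pool.Agent.CFZ.GNH
import Pool.Agent.CFZ.MRG
import Pool.Agent.CFZ.OBK
import Pool.Agent.CFZ.CSK
import Pool.Agent.CFZ.CPR
import Pool.Agent.CFZ.TPR
import Pool.Agent.CFZ.THE
import Pool.Agent.CFZ.SMT
import Pool.Agent.CFZ.SBR
import Pool.Agent.CFZ.COR
import Pool.Agent.CFZ.NRN
import Pool.Agent.CFZ.NRE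
import Pool.Agent.CFZ.NRF
import Pool.Agent.CFZ.FRL
import Pool.Agent.CFZ.NRM
import Pool.Agent.CFZ.MRL
import Pool.Agent.CFZ.MMT
import Pool.Agent.CFZ.COH
import Pool.Agent.CFZ.UNM
import Pool.Agent.CFZ.BPT
import Pool.Agent.CFZ.MXN
import Pool.Agent.CFZ.FUL
import Pool.Agent.CFZ.DCT
import Pool.Agent.CFZ.FIN

/-!
Squad CFZ: assembly.
-/

set_option autoImplicit false

namespace Pool.Agent.CFZ

theorem all_EXF : Stmt_EXF := exf_proof 
theorem all_SEP : Stmt_SEP := sep_proof 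
theorem all_POW : Stmt_POW := pow_proof 
theorem all_REP : Stmt_REP := rep_proof 
theorem all_GMD : Stmt_GMD := gmd_proof 
theorem all_NAT : Stmt_NAT := nat_proof 
theorem all_OMG : Stmt_OMG := omg_proof all_NAT
theorem all_OPN : Stmt_OPN := opn_proof 
theorem all_FUN : Stmt_FUN := fun_proof all_OPN
theorem all_SQA : Stmt_SQA := sqa_proof all_NAT all_OPN
theorem all_SQB : Stmt_SQB := sqb_proof all_NAT all_OPN all_FUN all_SQA
theorem all_SQC : Stmt_SQC := sqc_proof all_NAT all_OPN all_FUN all_SQA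
theorem all_MLF : Stmt_MLF := mlf_proof all_NAT all_OPN all_SQA all_SQB all_SQC
theorem all_BRF : Stmt_BRF := brf_proof all_OPN all_SQA all_SQB
theorem all_RST : Stmt_RST := rst_proof 
theorem all_ATT : Stmt_ATT := att_proof 
theorem all_MIX : Stmt_MIX := mix_proof all_RST
theorem all_AMA : Stmt_AMA := ama_proof 
theorem all_LIM : Stmt_LIM := lim_proof 
theorem all_RSU : Stmt_RSU := rsu_proof 
theorem all_LSK : Stmt_LSK := lsk_proof all_RSU
theorem all_LSP : Stmt_LSP := lsp_proof all_LSK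
theorem all_CTP : Stmt_CTP := ctp_proof all_LSK
theorem all_BTP : Stmt_BTP := btp_proof all_CTP all_LSP
theorem all_PSI : Stmt_PSI := psi_proof all_BTP
theorem all_LOB : Stmt_LOB := lob_proof all_LIM all_PSI
theorem all_NIC : Stmt_NIC := nic_proof all_RST all_MIX all_LOB
theorem all_HIN : Stmt_HIN := hin_proof 
theorem all_HNA : Stmt_HNA := hna_proof all_HIN all_BTP
theorem all_DGA : Stmt_DGA := dga_proof all_BTP
theorem all_DIA : Stmt_DIA := dia_proof all_DGA
theorem all_MXB : Stmt_MXB := mxb_proof 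
theorem all_WPR : Stmt_WPR := wpr_proof 
theorem all_ACC : Stmt_ACC := acc_proof all_ATT all_MXB all_WPR
theorem all_NWT : Stmt_NWT := nwt_proof all_HNA all_DIA all_WPR all_ACC
theorem all_VMX : Stmt_VMX := vmx_proof all_ATT all_MXB all_DIA
theorem all_PDE : Stmt_PDE := pde_proof all_VMX all_NWT all_WPR
theorem all_CPO : Stmt_CPO := cpo_proof all_VMX all_NWT all_WPR
theorem all_CAP : Stmt_CAP := cap_proof all_DIA all_CPO all_WPR
theorem all_ABS : Stmt_ABS := abs_proof all_WPR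
theorem all_FNP : Stmt_FNP := fnp_proof 
theorem all_SQF : Stmt_SQF := sqf_proof all_LSP
theorem all_GNF : Stmt_GNF := gnf_proof all_BTP all_SQF all_FNP
theorem all_GNE : Stmt_GNE := gne_proof all_CAP all_ABS all_FNP all_SQF
theorem all_GNH : Stmt_GNH := gnh_proof all_GNF all_GNE all_FNP
theorem all_MRG : Stmt_MRG := mrg_proof all_BTP
theorem all_OBK : Stmt_OBK := obk_proof all_FNP all_SQF
theorem all_CSK : Stmt_CSK := csk_proof all_MRG all_GNH all_AMA all_RST all_OBK all_FNP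
theorem all_CPR : Stmt_CPR := cpr_proof all_OBK all_PDE all_CSK all_MRG all_GNH all_RST all_FNP
theorem all_TPR : Stmt_TPR := tpr_proof all_BTP
theorem all_THE : Stmt_THE := the_proof all_BTP all_LSP
theorem all_SMT : Stmt_SMT := smt_proof all_LSP
theorem all_SBR : Stmt_SBR := sbr_proof all_BTP
theorem all_COR : Stmt_COR := cor_proof all_RST all_TPR all_THE all_SMT all_SBR all_CPR all_SQF
theorem all_NRN : Stmt_NRN := nrn_proof all_RST all_NAT all_OPN all_SQA
theorem all_NRE : Stmt_NRE := nre_proof all_RST all_NAT all_OPN all_SQA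
theorem all_NRF : Stmt_NRF := nrf_proof all_RST all_NAT all_OPN all_NRE
theorem all_FRL : Stmt_FRL := frl_proof all_NIC all_RST all_NAT all_OPN
theorem all_NRM : Stmt_NRM := nrm_proof all_RST all_SQA all_NRE
theorem all_MRL : Stmt_MRL := mrl_proof all_NIC all_RST all_SQA
theorem all_MMT : Stmt_MMT := mmt_proof all_COR all_NRN all_NRE all_NRF all_FRL all_NRM all_MRL all_MLF all_BRF all_FUN all_OPN all_OMG all_NAT all_RST
theorem all_COH : Stmt_COH := coh_proof 
theorem all_UNM : Stmt_UNM := unm_proof all_NRN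
theorem all_BPT : Stmt_BPT := bpt_proof all_RST all_NRN all_NRE all_NRF all_COH all_UNM all_NIC all_FUN all_OPN all_SQA all_SQB all_OMG all_NAT
theorem all_MXN : Stmt_MXN := mxn_proof 
theorem all_FUL : Stmt_FUL := ful_proof all_MIX all_RST all_MXN
theorem all_DCT : Stmt_DCT := dct_proof all_FUL all_LOB all_NAT all_OMG all_OPN all_FUN
theorem all_PUI : Stmt_PUI := pui_proof all_NAT all_OMG
theorem all_FIN : Stmt_FIN := fin_proof all_EXF all_PUI all_SEP all_POW all_REP all_GMD all_MMT all_BPT all_DCT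

end Pool.Agent.CFZ
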