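import Pool.Agent.CFZ.EQ

/-!
Squad CFZ: basic facts about located names: membership, extensionality, `bld`, induction.
-/

set_option autoImplicit false

namespace Pool.Agent.CFZ

open CategoryTheory

variable {C : Type 1} [Category.{0} C]

theorem Memf_mono {a b : C} (z : Nm a) (y : Nm b) (e e' : C) (p : a ⟶ e) (q : b ⟶ e) (h : e ⟶ e')
    (H : Memf z y e p q) : Memf z y e' (p ≫ h) (q ≫ h) := by
  cases y with
  | mk J d' g Y =>
  simp only [Memf] at H ⊢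
  intro e1 k
  obtain ⟨e2, l, j, n, h1, h2⟩ := H e1 (h ≫ k)
  exact ⟨e2, l, j, n, by rw [← h1]; simp, by simpa using h2⟩

theorem Memf_reg {a b : C} (z : Nm a) (y : Nm b) (e : C) (p : a ⟶ e) (q : b ⟶ e)
    (H : ∀ (e' : C) (h : e ⟶ e'), ∃ (e'' : C) (k : e' ⟶ e''), Memf z y e'' (p ≫ h ≫ k) (q ≫ h ≫ k)) :
    Memf z y e p q := by
  cases y with
  | mk J d' g Y =>
  simp only [Memf] at H ⊢
  intro e1 h
  obtain ⟨e2, k, H1⟩ := H e1 h
  obtain ⟨e3, l, j, n, h1, h2⟩ := H1 e2 (𝟙 e2)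
  exact ⟨e3, k ≫ l, j, n, by rw [← h1]; simp, by simpa using h2⟩

theorem Memf_congr_left {a b c : C} (z : Nm a) (z' : Nm b) (y : Nm c) (e : C) (p : a ⟶ e)
    (p' : b ⟶ e) (q : c ⟶ e) (H : Eqf z z' e p p') (H' : Memf z y e p q) : Memf z' y e p' q := by
  cases y with
  | mk J d' g Y =>
  simp only [Memf] at H' ⊢
  intro e1 h
  obtain ⟨e2, k, j, n, h1, h2⟩ := H' e1 h
  refine ⟨e2, k, j, n, h1, ?_⟩
  exact Eqf_trans _ _ _ _ _ _ _ (Eqf_symm _ _ _ _ _ (Eqf_mono _ _ _ e2 _ _ (h ≫ k) H)) h2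

theorem Memf_congr_right {a b c : C} (z : Nm a) (y : Nm b) (y' : Nm c) (e : C) (p : a ⟶ e)
    (q : b ⟶ e) (q' : c ⟶ e) (H : Eqf y y' e q q') (H' : Memf z y e p q) : Memf z y' e p q' := by
  cases y with
  | mk J d' g Y =>
  cases y' with
  | mk K d'' g' Z =>
  simp only [Memf, Eqf] at H H' ⊢
  intro e1 h
  obtain ⟨e2, k, j, n, h1, h2⟩ := H' e1 h
  obtain ⟨e3, k', j', n', h1', h2'⟩ := H.1 e2 (h ≫ k) j n h1
  refine ⟨e3, k ≫ k', j', n', by rw [← h1']; simp, ?_⟩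
  have := Eqf_mono _ _ _ e3 _ _ k' h2
  simp only [Category.assoc] at this
  exact Eqf_trans _ _ _ _ _ _ _ this h2'

/-- extensionality on the level of names -/
theorem Eqf_ext {a b : C} (x : Nm a) (y : Nm b) (e : C) (p : a ⟶ e) (q : b ⟶ e)
    (H1 : ∀ (e' : C) (h : e ⟶ e') (z : LN e'), Memf z.x x e' z.m (p ≫ h) →
      Memf z.x y e' z.m (q ≫ h))
    (H2 : ∀ (e' : C) (h : e ⟶ e') (z : LN e'), Memf z.x y e' z.m (q ≫ h) →
      Memf z.x x e' z.m (p ≫ h)) : Eqf x y e p q := by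
  cases x with
  | mk I d f X =>
  cases y with
  | mk J d' g Y =>
  simp only [Eqf]
  refine ⟨?_, ?_⟩
  · intro e1 h i m hm
    have := H1 e1 h ⟨d i, X i, m⟩ (by
      simp only [Memf]
      intro e2 k
      exact ⟨e2, 𝟙 e2, i, m ≫ k, by
        rw [← Category.assoc (f i), ← hm]; simp, by
        simpa using Eqf_refl (X i) e2 (m ≫ k)⟩)
    simp only [Memf] at this
    obtain ⟨e2, k, j, n, h1, h2⟩ := this e1 (𝟙 e1)
    exact ⟨e2, k, j, n, by rw [← h1]; simp, by simpa using h2⟩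
  · intro e1 h j n hm
    have := H2 e1 h ⟨d' j, Y j, n⟩ (by
      simp only [Memf]
      intro e2 k
      exact ⟨e2, 𝟙 e2, j, n ≫ k, by
        rw [← Category.assoc (g j), ← hm]; simp, by
        simpa using Eqf_refl (Y j) e2 (n ≫ k)⟩)
    simp only [Memf] at this
    obtain ⟨e2, k, i, m, h1, h2⟩ := this e1 (𝟙 e1)
    exact ⟨e2, k, i, m, by rw [← h1]; simp, Eqf_symm _ _ _ _ _ (by simpa using h2)⟩

/-- moving a name does not change it -/
theorem Eqf_res {c : C} (x : Nm c) (d : C) (g : c ⟶ d) (e : C) (k : d ⟶ e) :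
    Eqf (res x d g) x e k (g ≫ k) := by
  induction x generalizing d e with
  | mk I dd f X ih =>
  simp only [res, Eqf]
  refine ⟨?_, ?_⟩
  · rintro e1 h ⟨e0, k0, i, m0, hm0⟩ m hm
    refine ⟨e1, 𝟙 e1, i, m0 ≫ m, ?_, ?_⟩
    · simp only at hm
      rw [← Category.assoc (f i), ← hm0]
      simp only [Category.comp_id, Category.assoc]
      rw [hm]
    · simpa using ih i e0 m0 e1 m
  · intro e1 h i m hm
    refine ⟨e1, 𝟙 e1, ⟨e1, k ≫ h, i, m, by rw [← hm]; simp⟩, 𝟙 e1, by simp, ?_⟩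
    simpa using ih i e1 m e1 (𝟙 e1)

namespace LN

variable {c d e : C}

theorem eqf_refl (x : LN c) : x.eqf x := Eqf_refl _ _ _

theorem eqf_symm {x y : LN c} (h : x.eqf y) : y.eqf x := Eqf_symm _ _ _ _ _ h

theorem eqf_trans {x y z : LN c} (h : x.eqf y) (h' : y.eqf z) : x.eqf z :=
  Eqf_trans _ _ _ _ _ _ _ h h'

theorem eqf_mono {x y : LN c} (h : x.eqf y) (k : c ⟶ d) : (x.r k).eqf (y.r k) :=
  Eqf_mono _ _ _ _ _ _ k h

theorem eqf_reg {x y : LN c} (H : ∀ (d : C) (h : c ⟶ d), ∃ (e : C) (k : d ⟶ e),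
    (x.r (h ≫ k)).eqf (y.r (h ≫ k))) : x.eqf y :=
  Eqf_reg _ _ _ _ _ H

theorem memf_mono {x y : LN c} (h : x.memf y) (k : c ⟶ d) : (x.r k).memf (y.r k) :=
  Memf_mono _ _ _ _ _ _ k h

theorem memf_reg {x y : LN c} (H : ∀ (d : C) (h : c ⟶ d), ∃ (e : C) (k : d ⟶ e),
    (x.r (h ≫ k)).memf (y.r (h ≫ k))) : x.memf y :=
  Memf_reg _ _ _ _ _ H

theorem memf_congr {x x' y y' : LN c} (h : x.eqf x') (h' : y.eqf y') (H : x.memf y) :
    x'.memf y' :=
  Memf_congr_right _ _ _ _ _ _ _ h' (Memf_congr_left _ _ _ _ _ _ _ h H)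

/-- extensionality -/
theorem ext' {x y : LN c} (H : ∀ (d : C) (h : c ⟶ d) (z : LN d), z.memf (x.r h) ↔ z.memf (y.r h)) :
    x.eqf y :=
  Eqf_ext _ _ _ _ _ (fun e' h z => (H e' h z).1) (fun e' h z => (H e' h z).2)

/-- extensionality, the trivial direction -/
theorem memf_iff_of_eqf {x y : LN c} (H : x.eqf y) (h : c ⟶ d) (z : LN d) :
    z.memf (x.r h) ↔ z.memf (y.r h) :=
  ⟨fun H' => memf_congr (eqf_refl z) (eqf_mono H h) H',
   fun H' => memf_congr (eqf_refl z) (eqf_mono (eqf_symm H) h) H'⟩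

/-- the immediate elements of a located name: `z` is forced into `x` exactly if densely it is
equal to one of the names of which `x` is built -/
theorem memf_def (z x : LN c) : z.memf x ↔ Memf z.x x.x c z.m x.m := Iff.rfl

/-- the fundamental rule for `bld` -/
theorem memf_bld {I : Type 1} {dd : I → C} {f : (i : I) → (c ⟶ dd i)} {x : (i : I) → LN (dd i)}
    (h0 : c ⟶ e) (z : LN e) : z.memf ((bld c I dd f x).r h0) ↔
      ∀ (e1 : C) (h : e ⟶ e1), ∃ (e2 : C) (k : e1 ⟶ e2) (i : I) (n : dd i ⟶ e2),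
        h0 ≫ h ≫ k = f i ≫ n ∧ (z.r (h ≫ k)).eqf ((x i).r n) := by
  have key : ∀ (e2 : C) (i : I) (n : dd i ⟶ e2) (w : LN e2),
      Eqf w.x (res (x i).x (dd i) (x i).m) e2 w.m n ↔ w.eqf ((x i).r n) := by
    intro e2 i n w
    have h1 := Eqf_res (x i).x (dd i) (x i).m e2 n
    constructor
    · intro h2
      exact Eqf_trans _ _ _ _ _ _ _ h2 h1
    · intro h2
      exact Eqf_trans _ _ _ _ _ _ _ h2 (Eqf_symm _ _ _ _ _ h1)
  constructor
  · intro H e1 h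
    obtain ⟨e2, k, i, n, h1, h2⟩ := H e1 h
    refine ⟨e2, k, i, n, ?_, (key e2 i n (z.r (h ≫ k))).1 h2⟩
    simpa [bld, LN.r] using h1
  · intro H
    show Memf z.x _ e z.m _
    simp only [Memf, bld, LN.r]
    intro e1 h
    obtain ⟨e2, k, i, n, h1, h2⟩ := H e1 h
    refine ⟨e2, k, i, n, ?_, ?_⟩
    · simpa using h1
    · have := (key e2 i n (z.r (h ≫ k))).2 h2
      simpa [LN.r] using this

/-- every located name is equal to one given by `bld` -/
theorem exists_bld (x : LN c) : ∃ (I : Type 1) (dd : I → C) (f : (i : I) → (c ⟶ dd i))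
    (xs : (i : I) → LN (dd i)), x.eqf (bld c I dd f xs) := by
  obtain ⟨s, X, m⟩ := x
  cases X with
  | mk I d f X =>
  refine ⟨Σ e : C, Σ k : c ⟶ e, Σ i : I, {n : d i ⟶ e // m ≫ k = f i ≫ n},
    fun t => t.1, fun t => t.2.1, fun t => ⟨d t.2.2.1, X t.2.2.1, t.2.2.2.1⟩, ?_⟩
  have h := Eqf_res (Nm.mk I d f X) c m c (𝟙 c)
  rw [Category.comp_id] at h
  exact Eqf_symm _ _ _ _ _ h

/-- induction on names: `P` is a regular predicate -/
theorem induct {P : (c : C) → LN c → Prop}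
    (heq : ∀ (c : C) (x y : LN c), x.eqf y → P c x → P c y)
    (hreg : ∀ (c : C) (x : LN c),
      (∀ (d : C) (h : c ⟶ d), ∃ (e : C) (k : d ⟶ e), P e (x.r (h ≫ k))) → P c x)
    (hstep : ∀ (c : C) (x : LN c),
      (∀ (d : C) (h : c ⟶ d) (z : LN d), z.memf (x.r h) → P d z) → P c x)
    (c : C) (x : LN c) : P c x := by
  obtain ⟨s, X, m⟩ := x
  induction X generalizing c with
  | mk I d f X ih =>
  refine hstep c _ ?_
  intro e h z hz
  refine hreg e z ?_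
  intro e1 k
  have hz' : Memf z.x (Nm.mk I d f X) e z.m (m ≫ h) := hz
  simp only [Memf] at hz'
  obtain ⟨e2, l, i, n, h1, h2⟩ := hz' e1 k
  refine ⟨e2, l, ?_⟩
  exact heq e2 ⟨d i, X i, n⟩ _ (Eqf_symm _ _ _ _ _ h2) (ih i e2 n)

end LN

end Pool.Agent.CFZ
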