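import Mathlib

/-!
Squad CFZ: countable Boolean formulas and Borel operations on elements of complete Boolean
algebras. `Prop` is the two-valued case.
-/

set_option autoImplicit false

namespace Pool.Agent.CFZ

/-- countable Boolean formulas -/
inductive BF (α : Type) : Type
  | atom (a : α) : BF α
  | neg (φ : BF α) : BF α
  | sup (f : ℕ → BF α) : BF α

/-- value of a countable Boolean formula -/
def BF.val {α A : Type} [CompleteBooleanAlgebra A] (v : α → A) : BF α → A
  | .atom a => v a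
  | .neg φ => (BF.val v φ)ᶜ
  | .sup f => ⨆ n, BF.val v (f n)

/-- uniformly Borel operations -/
def IsB {α : Type} (F : ∀ (A : Type) [CompleteBooleanAlgebra A], (α → A) → A) : Prop :=
  ∃ φ : BF α, ∀ (A : Type) [CompleteBooleanAlgebra A] (v : α → A), F A v = φ.val v

namespace IsB

variable {α : Type}

theorem atom (a : α) : IsB (fun _ _ v => v a) := ⟨.atom a, fun _ _ _ => rfl⟩

theorem compl {F : ∀ (A : Type) [CompleteBooleanAlgebra A], (α → A) → A} (h : IsB F) :
    IsB (fun A _ v => (F A v)ᶜ) := by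
  obtain ⟨φ, h⟩ := h
  exact ⟨.neg φ, fun A _ v => by simp only [BF.val]; rw [h]⟩

theorem iSupNat {F : ℕ → ∀ (A : Type) [CompleteBooleanAlgebra A], (α → A) → A}
    (h : ∀ n, IsB (F n)) : IsB (fun A _ v => ⨆ n, F n A v) := by
  choose φ h using h
  exact ⟨.sup φ, fun A _ v => by simp [BF.val, h]⟩

theorem bot (α : Type) [Nonempty α] : IsB (α := α) (fun _ _ _ => ⊥) := by
  obtain ⟨a⟩ := ‹Nonempty α›
  -- ⊥ = (a ⊔ aᶜ)ᶜ
  refine ⟨.neg (.sup fun n => if n = 0 then .atom a else .neg (.atom a)), fun A _ v => ?_⟩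
  have : (⨆ n : ℕ, BF.val v (if n = 0 then .atom a else .neg (.atom a))) = ⊤ := by
    rw [eq_top_iff, ← sup_compl_eq_top (x := v a)]
    refine sup_le ?_ ?_
    · exact le_iSup_of_le 0 (by simp [BF.val])
    · exact le_iSup_of_le 1 (by simp [BF.val])
  simp only [BF.val, this, compl_top]

theorem top (α : Type) [Nonempty α] : IsB (α := α) (fun _ _ _ => ⊤) := by
  simpa using (bot α).compl

theorem iSup {ι : Sort*} [Countable ι] [Nonempty α]
    {F : ι → ∀ (A : Type) [CompleteBooleanAlgebra A], (α → A) → A}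
    (h : ∀ i, IsB (F i)) : IsB (fun A _ v => ⨆ i, F i A v) := by
  rcases isEmpty_or_nonempty ι with hι | hι
  · obtain ⟨φ, hφ⟩ := bot α
    exact ⟨φ, fun A _ v => by rw [← hφ]; simp⟩
  · obtain ⟨e, he⟩ := exists_surjective_nat ι
    have h1 := iSupNat (F := fun n => F (e n)) (fun n => h (e n))
    obtain ⟨φ, hφ⟩ := h1
    refine ⟨φ, fun A _ v => ?_⟩
    rw [← hφ]
    exact (he.iSup_comp (g := fun i => F i A v)).symm

theorem iInf {ι : Sort*} [Countable ι] [Nonempty α]
    {F : ι → ∀ (A : Type) [CompleteBooleanAlgebra A], (α → A) → A}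
    (h : ∀ i, IsB (F i)) : IsB (fun A _ v => ⨅ i, F i A v) := by
  have h1 := (iSup (F := fun i A _ v => (F i A v)ᶜ) (fun i => (h i).compl)).compl
  simpa [compl_iSup] using h1

theorem sup [Nonempty α] {F G : ∀ (A : Type) [CompleteBooleanAlgebra A], (α → A) → A} (h : IsB F)
    (h' : IsB G) : IsB (fun A _ v => F A v ⊔ G A v) := by
  have h1 := iSup (ι := Bool) (F := fun b A _ v => bif b then F A v else G A v)
    (fun b => by cases b <;> simpa)
  simpa [iSup_bool_eq] using h1

theorem inf [Nonempty α] {F G : ∀ (A : Type) [CompleteBooleanAlgebra A], (α → A) → A} (h : IsB F)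
    (h' : IsB G) : IsB (fun A _ v => F A v ⊓ G A v) := by
  have h1 := iInf (ι := Bool) (F := fun b A _ v => bif b then F A v else G A v)
    (fun b => by cases b <;> simpa)
  simpa [iInf_bool_eq] using h1

theorem himp [Nonempty α] {F G : ∀ (A : Type) [CompleteBooleanAlgebra A], (α → A) → A} (h : IsB F)
    (h' : IsB G) : IsB (fun A _ v => F A v ⇨ G A v) := by
  simpa [himp_eq] using h'.sup h.compl

/-- reindexing of the variables -/
theorem comp {β : Type} {F : ∀ (A : Type) [CompleteBooleanAlgebra A], (α → A) → A} (h : IsB F)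
    (r : α → β) : IsB (α := β) (fun A _ v => F A (fun a => v (r a))) := by
  obtain ⟨φ, h⟩ := h
  suffices H : ∀ φ : BF α, ∃ ψ : BF β, ∀ (A : Type) [CompleteBooleanAlgebra A] (v : β → A),
      BF.val (fun a => v (r a)) φ = ψ.val v by
    obtain ⟨ψ, hψ⟩ := H φ
    exact ⟨ψ, fun A _ v => by
      show F A (fun a => v (r a)) = _
      rw [h, hψ]⟩
  intro φ
  induction φ with
  | atom a => exact ⟨.atom (r a), fun _ _ _ => rfl⟩
  | neg φ ih =>
    obtain ⟨ψ, ih⟩ := ih
    exact ⟨.neg ψ, fun A _ v => by simp [BF.val, ih]⟩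
  | sup f ih =>
    choose ψ ih using ih
    exact ⟨.sup ψ, fun A _ v => by simp [BF.val, ih]⟩

/-- locality of Borel operations -/
theorem local' {F : ∀ (A : Type) [CompleteBooleanAlgebra A], (α → A) → A} (h : IsB F) {A : Type}
    [CompleteBooleanAlgebra A] (v w : α → A) (a : A) (hvw : ∀ i, a ⊓ v i = a ⊓ w i) :
    a ⊓ F A v = a ⊓ F A w := by
  obtain ⟨φ, h⟩ := h
  rw [h, h]
  clear h
  induction φ with
  | atom i => exact hvw i
  | neg φ ih =>
    simp only [BF.val]
    have key : ∀ x : A, a ⊓ xᶜ = a ⊓ (a ⊓ x)ᶜ := by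
      intro x
      rw [compl_inf, inf_sup_left]; simp
    rw [key, ih, ← key]
  | sup f ih =>
    simp only [BF.val, inf_iSup_eq, ih]

end IsB

end Pool.Agent.CFZ
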