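import Pool.Agent.CFZ.Logic

/-!
Squad CFZ: the formulas (de Bruijn) and their meaning in a structure.
-/

set_option autoImplicit false

namespace Pool.Agent.CFZ

open CategoryTheory

namespace Fm

def subF (i j : ℕ) : Fm := all (imp (mem 0 (i + 1)) (mem 0 (j + 1)))
def empF (i : ℕ) : Fm := all (neg (mem 0 (i + 1)))
def upF (p a b : ℕ) : Fm := all (iff (mem 0 (p + 1)) (or (eq 0 (a + 1)) (eq 0 (b + 1))))
def opF (p a b : ℕ) : Fm :=
  ex (ex (and (upF 1 (a + 2) (a + 2)) (and (upF 0 (a + 2) (b + 2)) (upF (p + 2) 1 0))))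
def sucF (y x : ℕ) : Fm := all (iff (mem 0 (y + 1)) (or (mem 0 (x + 1)) (eq 0 (x + 1))))
def induF (w : ℕ) : Fm := and (ex (and (empF 0) (mem 0 (w + 1))))
  (all (imp (mem 0 (w + 1)) (ex (and (sucF 0 1) (mem 0 (w + 2))))))
def omF (w : ℕ) : Fm := and (induF w) (all (imp (induF 0) (subF (w + 1) 0)))
def appF (f a b : ℕ) : Fm := ex (and (opF 0 (a + 1) (b + 1)) (mem 0 (f + 1)))
def funF (f A B : ℕ) : Fm :=
  and (all (imp (mem 0 (f + 1)) (ex (ex (and (mem 1 (A + 3)) (and (mem 0 (B + 3)) (opF 2 1 0)))))))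
    (all (imp (mem 0 (A + 1)) (ex (and (mem 0 (B + 2)) (and (appF (f + 2) 1 0)
      (all (imp (appF (f + 3) 2 0) (eq 0 1))))))))
def seqF (w s : ℕ) : Fm := ex (and (mem 0 (w + 1)) (funF (s + 1) 0 (w + 1)))
def treeF (w T : ℕ) : Fm := and (all (imp (mem 0 (T + 1)) (seqF (w + 1) 0)))
  (all (all (imp (mem 1 (T + 2)) (imp (seqF (w + 2) 0) (imp (subF 0 1) (mem 0 (T + 2)))))))
def isucF (w s k t : ℕ) : Fm := ex (and (mem 0 (w + 1)) (and (funF (s + 1) 0 (w + 1))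
  (ex (and (opF 0 1 (k + 2)) (all (iff (mem 0 (t + 3)) (or (mem 0 (s + 3)) (eq 0 1))))))))
def splitF (w T t : ℕ) : Fm := all (imp (mem 0 (w + 1)) (ex (and (mem 0 (w + 2)) (and (mem 1 0)
  (ex (and (isucF (w + 3) (t + 3) 1 0) (mem 0 (T + 3))))))))
def millF (w T : ℕ) : Fm := and (treeF w T) (and (ex (mem 0 (T + 1)))
  (all (imp (mem 0 (T + 1)) (ex (and (mem 0 (T + 2)) (and (subF 1 0) (splitF (w + 2) (T + 2) 0)))))))
def brF (w T x : ℕ) : Fm := all (imp (seqF (w + 1) 0) (imp (subF 0 (x + 1)) (mem 0 (T + 1))))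
def mmsF (w X : ℕ) : Fm := all (imp (millF (w + 1) 0) (ex (and (millF (w + 2) 0) (and (subF 0 1)
  (or (all (imp (funF 0 (w + 3) (w + 3)) (imp (brF (w + 3) 1 0) (mem 0 (X + 3)))))
    (all (imp (funF 0 (w + 3) (w + 3)) (imp (brF (w + 3) 1 0) (neg (mem 0 (X + 3)))))))))))
def MMF : Fm := all (imp (omF 0) (all (imp (all (imp (mem 0 1) (funF 0 2 2))) (mmsF 1 0))))
def baireF (w X : ℕ) : Fm := ex (ex (and
  (all (imp (mem 0 (w + 3)) (all (imp (seqF (w + 4) 0)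
    (ex (and (seqF (w + 5) 0) (and (subF 1 0) (appF 3 2 0))))))))
  (all (imp (funF 0 (w + 3) (w + 3)) (imp
    (all (imp (mem 0 (w + 4)) (ex (and (seqF (w + 5) 0) (and (subF 0 2) (appF 3 1 0))))))
    (iff (mem 0 (X + 3)) (ex (and (mem 0 3) (and (seqF (w + 4) 0) (subF 0 1))))))))))
def NBPF : Fm := ex (and (omF 0) (ex (and (all (imp (mem 0 1) (funF 0 2 2))) (neg (baireF 1 0)))))
def DCF : Fm := all (imp (omF 0) (all (all (imp (ex (mem 0 2)) (imp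
  (all (imp (mem 0 2) (ex (and (mem 0 3) (appF 2 1 0)))))
  (ex (and (funF 0 3 2) (all (all (imp (mem 1 5) (imp (sucF 0 1)
    (all (all (imp (appF 4 3 1) (imp (appF 4 2 0) (appF 5 1 0)))))))))))))))) 

def extF : Fm := all (all (imp (all (iff (mem 0 2) (mem 0 1))) (eq 1 0)))
def founF : Fm := all (imp (ex (mem 0 1)) (ex (and (mem 0 1) (all (imp (mem 0 2) (neg (mem 0 1)))))))
def pairF : Fm := all (all (ex (upF 0 2 1)))
def unionF : Fm := all (ex (all (iff (mem 0 1) (ex (and (mem 0 3) (mem 1 0))))))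
def powF : Fm := all (ex (all (iff (mem 0 1) (subF 0 2))))
def infF : Fm := ex (induF 0)
def sepF (φ : Fm) : Fm := all (ex (all (iff (mem 0 1) (and (mem 0 2)
  (φ.ren (cons 0 fun n => n + 3))))))
def replF (φ : Fm) : Fm := all (imp
  (all (imp (mem 0 1) (ex (all (iff (φ.ren (cons 2 (cons 0 fun n => n + 4))) (eq 0 1))))))
  (ex (all (iff (mem 0 1) (ex (and (mem 0 3) (φ.ren (cons 0 (cons 1 fun n => n + 4)))))))))

end Fm

open Fm

variable {M : Type*} (E : M → M → Prop) (ρ : ℕ → M)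

@[simp] theorem sat_subF (i j : ℕ) : Sat E (subF i j) ρ ↔ Sub E (ρ i) (ρ j) := by
  simp [subF, Sub]
@[simp] theorem sat_empF (i : ℕ) : Sat E (empF i) ρ ↔ Emp E (ρ i) := by
  simp [empF, Emp]
@[simp] theorem sat_upF (p a b : ℕ) : Sat E (upF p a b) ρ ↔ UPair E (ρ p) (ρ a) (ρ b) := by
  simp [upF, UPair]
@[simp] theorem sat_opF (p a b : ℕ) : Sat E (opF p a b) ρ ↔ OPair E (ρ p) (ρ a) (ρ b) := by
  simp [opF, OPair]
@[simp] theorem sat_sucF (y x : ℕ) : Sat E (sucF y x) ρ ↔ Succ E (ρ y) (ρ x) := by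
  simp [sucF, Succ]
@[simp] theorem sat_induF (w : ℕ) : Sat E (induF w) ρ ↔ Indu E (ρ w) := by
  simp [induF, Indu]
@[simp] theorem sat_omF (w : ℕ) : Sat E (omF w) ρ ↔ Omega E (ρ w) := by
  simp [omF, Omega]
@[simp] theorem sat_appF (f a b : ℕ) : Sat E (appF f a b) ρ ↔ App E (ρ f) (ρ a) (ρ b) := by
  simp [appF, App]
@[simp] theorem sat_funF (f A B : ℕ) : Sat E (funF f A B) ρ ↔ Fun E (ρ f) (ρ A) (ρ B) := by
  simp [funF, Fun]
@[simp] theorem sat_seqF (w s : ℕ) : Sat E (seqF w s) ρ ↔ FSeq E (ρ w) (ρ s) := by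
  simp [seqF, FSeq]
@[simp] theorem sat_treeF (w T : ℕ) : Sat E (treeF w T) ρ ↔ Tree E (ρ w) (ρ T) := by
  simp [treeF, Tree]
@[simp] theorem sat_isucF (w s k t : ℕ) :
    Sat E (isucF w s k t) ρ ↔ ISucc E (ρ w) (ρ s) (ρ k) (ρ t) := by
  simp [isucF, ISucc]
@[simp] theorem sat_splitF (w T t : ℕ) : Sat E (splitF w T t) ρ ↔ Split E (ρ w) (ρ T) (ρ t) := by
  simp [splitF, Split]
@[simp] theorem sat_millF (w T : ℕ) : Sat E (millF w T) ρ ↔ Miller E (ρ w) (ρ T) := by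
  simp [millF, Miller]
@[simp] theorem sat_brF (w T x : ℕ) : Sat E (brF w T x) ρ ↔ Branch E (ρ w) (ρ T) (ρ x) := by
  simp [brF, Branch]
@[simp] theorem sat_mmsF (w X : ℕ) : Sat E (mmsF w X) ρ ↔ MMeas E (ρ w) (ρ X) := by
  simp [mmsF, MMeas]
@[simp] theorem sat_MMF : Sat E MMF ρ ↔ MM E := by
  simp [MMF, MM]
@[simp] theorem sat_baireF (w X : ℕ) : Sat E (baireF w X) ρ ↔ Baire E (ρ w) (ρ X) := by
  simp [baireF, Baire]
@[simp] theorem sat_NBPF : Sat E NBPF ρ ↔ NotBP E := by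
  simp [NBPF, NotBP]
@[simp] theorem sat_DCF : Sat E DCF ρ ↔ DepCh E := by
  simp [DCF, DepCh]

theorem sat_extF : Sat E extF ρ ↔ ∀ x y, (∀ z, E z x ↔ E z y) → x = y := by
  simp [extF]
theorem sat_founF : Sat E founF ρ ↔
    ∀ x, (∃ y, E y x) → ∃ y, E y x ∧ ∀ z, E z x → ¬ E z y := by
  simp [founF]
theorem sat_pairF : Sat E pairF ρ ↔ ∀ a b, ∃ p, UPair E p a b := by
  simp [pairF]
theorem sat_unionF : Sat E unionF ρ ↔ ∀ x, ∃ u, ∀ z, E z u ↔ ∃ y, E y x ∧ E z y := by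
  simp [unionF]
theorem sat_powF : Sat E powF ρ ↔ ∀ x, ∃ p, ∀ z, E z p ↔ Sub E z x := by
  simp [powF]
theorem sat_infF : Sat E infF ρ ↔ ∃ w, Indu E w := by
  simp [infF]
theorem sat_sepF (φ : Fm) : Sat E (sepF φ) ρ ↔
    ∀ a, ∃ b, ∀ x, E x b ↔ (E x a ∧ Sat E φ (cons x ρ)) := by
  have key : ∀ (a b x : M), (fun n => cons x (cons b (cons a ρ)) (cons 0 (fun n => n + 3) n)) =
      cons x ρ := by
    intro a b x; funext n; cases n <;> rfl
  simp [sepF, sat_ren, key]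
theorem sat_replF (φ : Fm) : Sat E (replF φ) ρ ↔
    ∀ a, (∀ x, E x a → ∃ y, ∀ y', Sat E φ (cons x (cons y' ρ)) ↔ y' = y) →
    ∃ b, ∀ y, E y b ↔ ∃ x, E x a ∧ Sat E φ (cons x (cons y ρ)) := by
  have key1 : ∀ (y' y x a : M), (fun n => cons y' (cons y (cons x (cons a ρ)))
      (cons 2 (cons 0 (fun n => n + 4)) n)) = cons x (cons y' ρ) := by
    intro y' y x a; funext n
    rcases n with _ | _ | n <;> rfl
  have key2 : ∀ (x y b a : M), (fun n => cons x (cons y (cons b (cons a ρ)))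
      (cons 0 (cons 1 (fun n => n + 4)) n)) = cons x (cons y ρ) := by
    intro x y b a; funext n
    rcases n with _ | _ | n <;> rfl
  simp [replF, sat_ren, key1, key2]

/-- if all the formulas hold under all assignments then the structure is a model -/
theorem zf_of_sat (hne : Nonempty M)
    (h : ∀ φ : Fm, (φ = extF ∨ φ = founF ∨ φ = pairF ∨ φ = unionF ∨ φ = powF ∨ φ = infF ∨
      (∃ ψ, φ = sepF ψ) ∨ (∃ ψ, φ = replF ψ)) → ∀ ρ : ℕ → M, Sat E φ ρ) : ZF E := by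
  obtain ⟨x0⟩ := hne
  refine ⟨?_, ?_, ?_, ?_, ?_, ?_, ?_, ?_⟩
  · exact (sat_extF E (fun _ => x0)).1 (h _ (by simp) _)
  · exact (sat_founF E (fun _ => x0)).1 (h _ (by simp) _)
  · exact (sat_pairF E (fun _ => x0)).1 (h _ (by simp) _)
  · exact (sat_unionF E (fun _ => x0)).1 (h _ (by simp) _)
  · exact (sat_powF E (fun _ => x0)).1 (h _ (by simp) _)
  · exact (sat_infF E (fun _ => x0)).1 (h _ (by simp) _)
  · intro φ ρ
    exact (sat_sepF E ρ φ).1 (h _ (by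
      refine Or.inr (Or.inr (Or.inr (Or.inr (Or.inr (Or.inr (Or.inl ⟨φ, rfl⟩))))))) _)
  · intro φ ρ
    exact (sat_replF E ρ φ).1 (h _ (by
      refine Or.inr (Or.inr (Or.inr (Or.inr (Or.inr (Or.inr (Or.inr ⟨φ, rfl⟩))))))) _)

end Pool.Agent.CFZ
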