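import Pool.Agent.CFZ.RO
import Pool.Agent.CFZ.Forms

/-!
Squad CFZ: construction of complete homomorphisms; the category of stages.
-/

set_option autoImplicit false

namespace Pool.Agent.CFZ

open CategoryTheory

/-- a generic filter valued in `B` gives a complete homomorphism from `RO P` to `B` -/
def CHom.ofGen {P B : Type} [Preorder P] [CompleteBooleanAlgebra B] (g : P → B)
    (h2 : ∀ p q, g p ⊓ g q ≤ ⨆ r, ⨆ (_ : r ≤ p ∧ r ≤ q), g r)
    (h3 : ∀ D : Set P, (∀ p, ∃ q ≤ p, q ∈ D) → ⨆ p ∈ D, g p = ⊤) : CHom (RO P) B where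
  f U := ⨆ p ∈ U.s, g p
  map_compl' := by
    intro U
    have hd := h3 (U.s ∪ (Uᶜ).s) (by
      intro p
      by_cases h : ∃ q ≤ p, q ∈ U.s
      · obtain ⟨q, hq, h⟩ := h
        exact ⟨q, hq, Or.inl h⟩
      · push Not at h
        exact ⟨p, le_rfl, Or.inr h⟩)
    have ht : (⨆ p ∈ U.s, g p) ⊔ (⨆ p ∈ (Uᶜ).s, g p) = ⊤ := by
      rw [← hd, iSup_union]
    have hb : (⨆ p ∈ U.s, g p) ⊓ (⨆ p ∈ (Uᶜ).s, g p) = ⊥ := by
      rw [eq_bot_iff, iSup₂_inf_eq]
      refine iSup₂_le fun p hp => ?_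
      rw [inf_iSup₂_eq]
      refine iSup₂_le fun q hq => (h2 p q).trans (iSup₂_le fun r hr => ?_)
      exact absurd (U.down hp hr.1) (hq r hr.2)
    exact (IsCompl.compl_eq ⟨disjoint_iff.2 hb, codisjoint_iff.2 ht⟩).symm
  map_sSup' := by
    intro S
    apply le_antisymm
    · have hd := h3 ({p | ∃ U ∈ S, p ∈ U.s} ∪ ((sSup S)ᶜ).s) (by
        intro p
        by_cases h : ∃ q ≤ p, ∃ U ∈ S, q ∈ U.s
        · obtain ⟨q, hq, h⟩ := h
          exact ⟨q, hq, Or.inl h⟩
        · push Not at h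
          refine ⟨p, le_rfl, Or.inr fun q hq hqS => ?_⟩
          obtain ⟨r, hr, U, hU, hrU⟩ := RO.mem_sSup.1 hqS q le_rfl
          exact h r (hr.trans hq) U hU hrU)
      refine iSup₂_le fun p hp => ?_
      have : g p ≤ g p ⊓ ⨆ q ∈ ({p | ∃ U ∈ S, p ∈ U.s} ∪ ((sSup S)ᶜ).s), g q := by
        rw [hd, inf_top_eq]
      refine this.trans ?_
      rw [inf_iSup₂_eq]
      refine iSup₂_le fun q hq => ?_
      rcases hq with ⟨U, hU, hqU⟩ | hq
      · exact inf_le_right.trans ((le_iSup₂ (f := fun p (_ : p ∈ U.s) => g p) q hqU).trans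
          (le_sSup ⟨U, hU, rfl⟩))
      · refine (h2 p q).trans (iSup₂_le fun r hr => ?_)
        exact absurd ((sSup S).down hp hr.1) (hq r hr.2)
    · refine sSup_le ?_
      rintro _ ⟨U, hU, rfl⟩
      exact iSup₂_le fun p hp => le_iSup₂ (f := fun p (_ : p ∈ (sSup S).s) => g p) p
        (le_sSup hU hp)

/-- a weak projection from `P` to the nonzero elements of `A` gives a complete homomorphism from
`A` to `RO P` -/
def CHom.ofProj {P A : Type} [Preorder P] [CompleteBooleanAlgebra A] (π : P → A)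
    (h0 : ∀ p, π p ≠ ⊥) (h1 : ∀ p q, p ≤ q → π p ≤ π q)
    (h2 : ∀ p a, a ≤ π p → a ≠ ⊥ → ∃ q ≤ p, π q ≤ a) : CHom A (RO P) where
  f a := ⟨{p | π p ≤ a}, by
    intro p
    constructor
    · intro hp q hq
      exact ⟨q, le_rfl, (h1 q p hq).trans hp⟩
    · intro hp
      by_contra hc
      have hne : π p ⊓ aᶜ ≠ ⊥ := fun h => hc (by
        rw [← disjoint_iff, disjoint_compl_right_iff] at h; exact h)
      obtain ⟨q, hq, hqa⟩ := h2 p (π p ⊓ aᶜ) inf_le_left hne
      obtain ⟨r, hr, hra⟩ := hp q hq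
      have h3 : π r ≤ ⊥ := by
        have := le_inf hra (((h1 r q hr).trans hqa).trans inf_le_right)
        rwa [inf_compl_self] at this
      exact h0 r (le_bot_iff.1 h3)⟩
  map_compl' := by
    intro a
    ext p
    constructor
    · intro hp q hq hqa
      have h3 : π q ≤ ⊥ := by
        have := le_inf (show π q ≤ a from hqa) ((h1 q p hq).trans hp)
        rwa [inf_compl_self] at this
      exact h0 q (le_bot_iff.1 h3)
    · intro hp
      by_contra hc
      have hne : π p ⊓ a ≠ ⊥ := fun h => hc (by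
        rw [← disjoint_iff] at h; exact h.le_compl_right)
      obtain ⟨q, hq, hqa⟩ := h2 p (π p ⊓ a) inf_le_left hne
      exact hp q hq (hqa.trans inf_le_right)
  map_sSup' := by
    intro s
    ext p
    rw [RO.mem_sSup]
    constructor
    · intro hp q hq
      have h3 : π q ≤ sSup s := (h1 q p hq).trans hp
      have h4 : ∃ a ∈ s, π q ⊓ a ≠ ⊥ := by
        by_contra hc
        push Not at hc
        have : π q ⊓ sSup s = ⊥ := by
          rw [inf_sSup_eq, eq_bot_iff]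
          exact iSup₂_le fun a ha => (hc a ha).le
        rw [inf_eq_left.2 h3] at this
        exact h0 q this
      obtain ⟨a, ha, hne⟩ := h4
      obtain ⟨r, hr, hra⟩ := h2 q _ inf_le_left hne
      exact ⟨r, hr, _, ⟨a, ha, rfl⟩, hra.trans inf_le_right⟩
    · intro hp
      by_contra hc
      have hne : π p ⊓ (sSup s)ᶜ ≠ ⊥ := fun h => hc (by
        rw [← disjoint_iff, disjoint_compl_right_iff] at h; exact h)
      obtain ⟨q, hq, hqa⟩ := h2 p _ inf_le_left hne
      obtain ⟨r, hr, _, ⟨a, ha, rfl⟩, hra⟩ := hp q hq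
      have h3 : π r ≤ ⊥ := by
        have := le_inf ((show π r ≤ a from hra).trans (le_sSup ha))
          (((h1 r q hr).trans hqa).trans inf_le_right)
        rwa [inf_compl_self] at this
      exact h0 r (le_bot_iff.1 h3)

@[simp] theorem CHom.ofProj_mem {P A : Type} [Preorder P] [CompleteBooleanAlgebra A] (π : P → A)
    (h0 h1 h2) (a : A) (p : P) : p ∈ (CHom.ofProj π h0 h1 h2 a).s ↔ π p ≤ a := Iff.rfl

/-! ### The stages -/

/-- the value of: `b` is almost included in `a` -/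
def AlmV {A : Type} [CompleteBooleanAlgebra A] (b a : ℕ → A) : A :=
  ⨆ n, ⨅ m, ⨅ (_ : n ≤ m), (b m ⇨ a m)

/-- the value of: `a` is infinite -/
def InfV {A : Type} [CompleteBooleanAlgebra A] (a : ℕ → A) : A :=
  ⨅ n, ⨆ m, ⨆ (_ : n ≤ m), a m

/-- stages: a complete Boolean algebra with a name for an infinite set of natural numbers -/
structure Ob : Type 1 where
  A : Type
  [inst : CompleteBooleanAlgebra A]
  [nt : Nontrivial A]
  a : ℕ → A
  inf : InfV a = ⊤

attribute [instance] Ob.inst Ob.nt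

/-- arrows of stages -/
@[ext]
structure Ar (X Y : Ob) where
  h : CHom X.A Y.A
  alm : AlmV Y.a (fun m => h (X.a m)) = ⊤

theorem CHom.map_AlmV {A B : Type} [CompleteBooleanAlgebra A] [CompleteBooleanAlgebra B]
    (h : CHom A B) (b a : ℕ → A) : h (AlmV b a) = AlmV (fun m => h (b m)) (fun m => h (a m)) := by
  simp [AlmV]

theorem CHom.map_InfV {A B : Type} [CompleteBooleanAlgebra A] [CompleteBooleanAlgebra B]
    (h : CHom A B) (a : ℕ → A) : h (InfV a) = InfV (fun m => h (a m)) := by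
  simp [InfV]

theorem AlmV_refl {A : Type} [CompleteBooleanAlgebra A] (a : ℕ → A) : AlmV a a = ⊤ := by
  simp [AlmV]

theorem AlmV_trans {A : Type} [CompleteBooleanAlgebra A] (a b c : ℕ → A) :
    AlmV a b ⊓ AlmV b c ≤ AlmV a c := by
  unfold AlmV
  rw [iSup_inf_eq]
  refine iSup_le fun n => ?_
  rw [inf_iSup_eq]
  refine iSup_le fun n' => ?_
  refine le_iSup_of_le (max n n') ?_
  refine le_iInf₂ fun m hm => ?_
  have h1 : (⨅ m, ⨅ (_ : n ≤ m), (a m ⇨ b m)) ≤ (a m ⇨ b m) :=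
    iInf₂_le m ((le_max_left _ _).trans hm)
  have h2 : (⨅ m, ⨅ (_ : n' ≤ m), (b m ⇨ c m)) ≤ (b m ⇨ c m) :=
    iInf₂_le m ((le_max_right _ _).trans hm)
  exact (inf_le_inf h1 h2).trans (himp_triangle _ _ _)

instance : Category.{0} Ob where
  Hom := Ar
  id X := ⟨CHom.id X.A, by simpa using AlmV_refl X.a⟩
  comp {X Y Z} f g := ⟨f.h.comp g.h, by
    have h1 := g.alm
    have h2 : AlmV (fun m => g.h (Y.a m)) (fun m => g.h (f.h (X.a m))) = ⊤ := by
      rw [← CHom.map_AlmV, f.alm, CHom.map_top]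
    have h3 := AlmV_trans Z.a (fun m => g.h (Y.a m)) (fun m => g.h (f.h (X.a m)))
    rw [h1, h2, inf_top_eq, top_le_iff] at h3
    exact h3⟩

@[simp] theorem Ob.comp_h {X Y Z : Ob} (f : X ⟶ Y) (g : Y ⟶ Z) (x : X.A) :
    (f ≫ g).h x = g.h (f.h x) := rfl
@[simp] theorem Ob.id_h {X : Ob} (x : X.A) : (𝟙 X : X ⟶ X).h x = x := rfl

theorem Ob.hom_ext {X Y : Ob} (f g : X ⟶ Y) (h : ∀ x, f.h x = g.h x) : f = g :=
  Ar.ext (CHom.ext (funext h))

end Pool.Agent.CFZ
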