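import Pool.Agent.CFZ.Model

/-!
Squad CFZ (MP_3193e4_lc): forcing over a category. Definitions, part 1.

`C` is a category with objects in `Type 1` and arrows in `Type`. An arrow `c ⟶ d` means that the
stage `d` extends the stage `c`. Names at a stage are families of names at extensions. Formulas of
set theory are forced with the Kripke / double negation clauses.
-/

set_option autoImplicit false

namespace Pool.Agent.CFZ

open CategoryTheory

/-! ### Formulas of set theory -/

@[simp] theorem cons_zero {α : Type*} (x : α) (ρ : ℕ → α) : cons x ρ 0 = x := rfl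
@[simp] theorem cons_succ {α : Type*} (x : α) (ρ : ℕ → α) (n : ℕ) :
    cons x ρ (n + 1) = ρ n := rfl

namespace Fm

/-- renaming of variables -/
def ren : Fm → (ℕ → ℕ) → Fm
  | .mem i j, r => .mem (r i) (r j)
  | .eq i j, r => .eq (r i) (r j)
  | .bot, _ => .bot
  | .imp p q, r => .imp (ren p r) (ren q r)
  | .all p, r => .all (ren p (cons 0 fun n => r n + 1))

def neg (p : Fm) : Fm := .imp p .bot
def and (p q : Fm) : Fm := neg (.imp p (neg q))
def or (p q : Fm) : Fm := .imp (neg p) q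
def iff (p q : Fm) : Fm := and (.imp p q) (.imp q p)
def ex (p : Fm) : Fm := neg (.all (neg p))

end Fm

/-! ### Names and forcing -/

variable {C : Type 1} [Category.{0} C]

/-- names over a category -/
inductive Nm {C : Type 1} [Category.{0} C] : C → Type 2
  | mk {c : C} (I : Type 1) (d : I → C) (f : (i : I) → (c ⟶ d i)) (x : (i : I) → Nm (d i)) : Nm c

/-- forced equality of the names `x` (moved along `p`) and `y` (moved along `q`) at the stage `e` -/
def Eqf : {a b : C} → Nm a → Nm b → (e : C) → (a ⟶ e) → (b ⟶ e) → Prop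
  | _, _, .mk I d f x, .mk J d' g y, e, p, q =>
    (∀ (e1 : C) (h : e ⟶ e1) (i : I) (m : d i ⟶ e1), p ≫ h = f i ≫ m →
      ∃ (e2 : C) (k : e1 ⟶ e2) (j : J) (n : d' j ⟶ e2), q ≫ h ≫ k = g j ≫ n ∧
        Eqf (x i) (y j) e2 (m ≫ k) n) ∧
    (∀ (e1 : C) (h : e ⟶ e1) (j : J) (n : d' j ⟶ e1), q ≫ h = g j ≫ n →
      ∃ (e2 : C) (k : e1 ⟶ e2) (i : I) (m : d i ⟶ e2), p ≫ h ≫ k = f i ≫ m ∧
        Eqf (x i) (y j) e2 m (n ≫ k))

/-- forced membership -/
def Memf {a b : C} (z : Nm a) : Nm b → (e : C) → (a ⟶ e) → (b ⟶ e) → Prop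
  | .mk J d' g y, e, p, q =>
    ∀ (e1 : C) (h : e ⟶ e1), ∃ (e2 : C) (k : e1 ⟶ e2) (j : J) (n : d' j ⟶ e2),
      q ≫ h ≫ k = g j ≫ n ∧ Eqf z (y j) e2 (p ≫ h ≫ k) n

/-- located names: a name together with an arrow into the present stage -/
structure LN (c : C) : Type 2 where
  s : C
  x : Nm s
  m : s ⟶ c

namespace LN

/-- moving a located name along an arrow -/
def r {c d : C} (x : LN c) (h : c ⟶ d) : LN d := ⟨x.s, x.x, x.m ≫ h⟩

/-- forced equality of located names -/
def eqf {c : C} (x y : LN c) : Prop := Eqf x.x y.x c x.m y.m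

/-- forced membership of located names -/
def memf {c : C} (x y : LN c) : Prop := Memf x.x y.x c x.m y.m

@[simp] theorem r_id {c : C} (x : LN c) : x.r (𝟙 c) = x := by
  cases x; simp [r]

@[simp] theorem r_r {c d e : C} (x : LN c) (h : c ⟶ d) (k : d ⟶ e) : (x.r h).r k = x.r (h ≫ k) := by
  cases x; simp [r]

end LN

/-- the name at the stage `d` given by a name moved along an arrow -/
def res : {c : C} → Nm c → (d : C) → (c ⟶ d) → Nm d
  | _, .mk I dd f X, d, g =>
    .mk (Σ e : C, Σ k : d ⟶ e, Σ i : I, {m : dd i ⟶ e // g ≫ k = f i ≫ m})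
      (fun t => t.1) (fun t => t.2.1) (fun t => res (X t.2.2.1) t.1 t.2.2.2.1)

/-- a name built from a family of located names at extensions -/
def bld (c : C) (I : Type 1) (d : I → C) (f : (i : I) → (c ⟶ d i)) (x : (i : I) → LN (d i)) :
    LN c :=
  ⟨c, .mk I d f (fun i => res (x i).x (d i) (x i).m), 𝟙 c⟩

/-- moving an assignment -/
def rr {c d : C} (ρ : ℕ → LN c) (h : c ⟶ d) : ℕ → LN d := fun n => (ρ n).r h

/-- forcing -/
def Frc : Fm → (c : C) → (ℕ → LN c) → Prop
  | .mem i j, _, ρ => (ρ i).memf (ρ j)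
  | .eq i j, _, ρ => (ρ i).eqf (ρ j)
  | .bot, _, _ => False
  | .imp p q, c, ρ => ∀ (d : C) (h : c ⟶ d), Frc p d (rr ρ h) → Frc q d (rr ρ h)
  | .all p, c, ρ => ∀ (d : C) (h : c ⟶ d) (x : LN d), Frc p d (cons x (rr ρ h))

end Pool.Agent.CFZ
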