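import Pool.Agent.CFZ.Defs

/-!
Squad CFZ: forced equality is an equivalence relation, persistent and regular.
-/

set_option autoImplicit false

namespace Pool.Agent.CFZ

open CategoryTheory

variable {C : Type 1} [Category.{0} C]

theorem Eqf_mono {a b : C} (x : Nm a) (y : Nm b) (e e' : C) (p : a ⟶ e) (q : b ⟶ e) (h : e ⟶ e')
    (H : Eqf x y e p q) : Eqf x y e' (p ≫ h) (q ≫ h) := by
  cases x with
  | mk I d f X =>
  cases y with
  | mk J d' g Y =>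
  simp only [Eqf] at H ⊢
  refine ⟨?_, ?_⟩
  · intro e1 k i m hm
    obtain ⟨e2, l, j, n, h1, h2⟩ := H.1 e1 (h ≫ k) i m (by rw [← hm]; simp)
    exact ⟨e2, l, j, n, by rw [← h1]; simp, h2⟩
  · intro e1 k i m hm
    obtain ⟨e2, l, j, n, h1, h2⟩ := H.2 e1 (h ≫ k) i m (by rw [← hm]; simp)
    exact ⟨e2, l, j, n, by rw [← h1]; simp, h2⟩

theorem Eqf_reg {a b : C} (x : Nm a) (y : Nm b) (e : C) (p : a ⟶ e) (q : b ⟶ e)
    (H : ∀ (e' : C) (h : e ⟶ e'), ∃ (e'' : C) (k : e' ⟶ e''), Eqf x y e'' (p ≫ h ≫ k) (q ≫ h ≫ k)) :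
    Eqf x y e p q := by
  cases x with
  | mk I d f X =>
  cases y with
  | mk J d' g Y =>
  simp only [Eqf] at H ⊢
  refine ⟨?_, ?_⟩
  · intro e1 h i m hm
    obtain ⟨e2, k, H1, -⟩ := H e1 h
    obtain ⟨e3, l, j, n, h1, h2⟩ := H1 e2 (𝟙 e2) i (m ≫ k) (by
      rw [← Category.assoc (f i), ← hm]; simp)
    exact ⟨e3, k ≫ l, j, n, by rw [← h1]; simp, by simpa using h2⟩
  · intro e1 h i m hm
    obtain ⟨e2, k, -, H1⟩ := H e1 h
    obtain ⟨e3, l, j, n, h1, h2⟩ := H1 e2 (𝟙 e2) i (m ≫ k) (by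
      rw [← Category.assoc (g i), ← hm]; simp)
    exact ⟨e3, k ≫ l, j, n, by rw [← h1]; simp, by simpa using h2⟩

theorem Eqf_refl {a : C} (x : Nm a) (e : C) (p : a ⟶ e) : Eqf x x e p p := by
  induction x generalizing e with
  | mk I d f X ih =>
  simp only [Eqf]
  refine ⟨?_, ?_⟩
  · intro e1 h i m hm
    exact ⟨e1, 𝟙 e1, i, m, by simpa using hm, by simpa using ih i e1 m⟩
  · intro e1 h i m hm
    exact ⟨e1, 𝟙 e1, i, m, by simpa using hm, by simpa using ih i e1 m⟩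

theorem Eqf_symm {a b : C} (x : Nm a) (y : Nm b) (e : C) (p : a ⟶ e) (q : b ⟶ e)
    (H : Eqf x y e p q) : Eqf y x e q p := by
  induction x generalizing b e with
  | mk I d f X ih =>
  cases y with
  | mk J d' g Y =>
  simp only [Eqf] at H ⊢
  refine ⟨?_, ?_⟩
  · intro e1 h i m hm
    obtain ⟨e2, k, j, n, h1, h2⟩ := H.2 e1 h i m hm
    exact ⟨e2, k, j, n, h1, ih j _ _ _ _ h2⟩
  · intro e1 h i m hm
    obtain ⟨e2, k, j, n, h1, h2⟩ := H.1 e1 h i m hm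
    exact ⟨e2, k, j, n, h1, ih i _ _ _ _ h2⟩

theorem Eqf_trans {a b c : C} (x : Nm a) (y : Nm b) (z : Nm c) (e : C) (p : a ⟶ e) (q : b ⟶ e)
    (r : c ⟶ e) (H : Eqf x y e p q) (H' : Eqf y z e q r) : Eqf x z e p r := by
  induction x generalizing b c e with
  | mk I d f X ih =>
  cases y with
  | mk J d' g Y =>
  cases z with
  | mk K d'' g' Z =>
  simp only [Eqf] at H H' ⊢
  refine ⟨?_, ?_⟩
  · intro e1 h i m hm
    obtain ⟨e2, k, j, n, h1, h2⟩ := H.1 e1 h i m hm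
    obtain ⟨e3, k', j', n', h1', h2'⟩ := H'.1 e2 (h ≫ k) j n (by rw [← h1])
    refine ⟨e3, k ≫ k', j', n', by rw [← h1']; simp, ?_⟩
    have := Eqf_mono _ _ _ e3 _ _ k' h2
    rw [Category.assoc] at this
    exact ih i _ _ _ _ _ _ this h2'
  · intro e1 h i m hm
    obtain ⟨e2, k, j, n, h1, h2⟩ := H'.2 e1 h i m hm
    obtain ⟨e3, k', j', n', h1', h2'⟩ := H.2 e2 (h ≫ k) j n (by rw [← h1])
    refine ⟨e3, k ≫ k', j', n', by rw [← h1']; simp, ?_⟩
    have := Eqf_mono _ _ _ e3 _ _ k' h2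
    rw [Category.assoc] at this
    exact ih j' _ _ _ _ _ _ h2' this

end Pool.Agent.CFZ
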