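import Pool.Agent.CFZ.Stmts

set_option autoImplicit false

namespace Pool.Agent.CFZ

open CategoryTheory

namespace EXF_

variable {C : Type 1} [Category.{0} C]

/-- densely `x` has a minimal element -/
def Min {c : C} (x : LN c) : Prop := ∀ (e : C) (h : c ⟶ e), ∃ (e' : C) (k : e ⟶ e') (w : LN e'),
  w.memf (x.r (h ≫ k)) ∧ ∀ (f : C) (l : e' ⟶ f) (z : LN f), z.memf (x.r (h ≫ k ≫ l)) →
    ∀ (g : C) (m : f ⟶ g), ¬ (z.r m).memf (w.r (l ≫ m))

theorem Min.reg {c : C} {x : LN c} (H : ∀ (e : C) (h : c ⟶ e), ∃ (e' : C) (k : e ⟶ e'),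
    Min (x.r (h ≫ k))) : Min x := by
  intro e h
  obtain ⟨e', k, H1⟩ := H e h
  obtain ⟨e'', k', w, h1, h2⟩ := H1 e' (𝟙 e')
  refine ⟨e'', k ≫ k', w, ?_, ?_⟩
  · simpa using h1
  · intro f l z hz g m
    refine h2 f l z ?_ g m
    simpa using hz

theorem key (c : C) (y : LN c) : ∀ x : LN c, y.memf x → Min x := by
  refine LN.induct (P := fun c y => ∀ x : LN c, y.memf x → Min x) ?_ ?_ ?_ c y
  · intro c y y' hyy h x hx
    exact h x (LN.memf_congr (LN.eqf_symm hyy) (LN.eqf_refl x) hx)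
  · intro c y h x hx
    apply Min.reg
    intro e l
    obtain ⟨e', k, h1⟩ := h e l
    exact ⟨e', k, h1 _ (LN.memf_mono hx (l ≫ k))⟩
  · intro c y ih x hx e h
    by_cases hc : ∃ (f : C) (l : e ⟶ f) (z : LN f), z.memf (x.r (h ≫ l)) ∧ z.memf (y.r (h ≫ l))
    · obtain ⟨f, l, z, hz1, hz2⟩ := hc
      obtain ⟨e'', k', w, h1, h2⟩ := ih f (h ≫ l) z hz2 _ hz1 f (𝟙 f)
      refine ⟨e'', l ≫ k', w, ?_, ?_⟩
      · simpa using h1
      · intro f' l' z' hz' g m
        refine h2 f' l' z' ?_ g m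
        simpa using hz'
    · push Not at hc
      refine ⟨e, 𝟙 e, y.r h, ?_, ?_⟩
      · simpa using LN.memf_mono hx h
      · intro f l z hz g m hzm
        refine hc g (l ≫ m) (z.r m) ?_ ?_
        · have := LN.memf_mono hz m
          simpa using this
        · simpa using hzm

end EXF_

open EXF_ in
theorem exf_proof : Stmt_EXF := by
  intro C _ c ρ
  constructor
  · intro d h x e k y e' l H
    change (((x.r k).r l)).eqf (y.r l)
    apply LN.ext'
    intro f m z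
    have h1 := (frc_iff _ (.mem 0 2) (.mem 0 1)).1 (H f m z) f (𝟙 f)
    rw [frc_mem, frc_mem] at h1
    change (z.r (𝟙 f)).memf (((((x.r k).r l).r m)).r (𝟙 f)) ↔
      (z.r (𝟙 f)).memf ((((y.r l).r m)).r (𝟙 f)) at h1
    simpa only [LN.r_id] using h1
  · intro d h x e k H
    rw [frc_ex] at H
    rw [frc_ex]
    intro f l
    obtain ⟨f', l', y, hy⟩ := H f l
    have hy' : y.memf ((x.r k).r (l ≫ l')) := hy
    obtain ⟨g, m, w, h1, h2⟩ := key f' y _ hy' f' (𝟙 f')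
    refine ⟨g, l' ≫ m, w, (frc_and _ _ _).2 ⟨?_, ?_⟩⟩
    · change w.memf ((x.r k).r (l ≫ l' ≫ m))
      simpa using h1
    · intro g' n z g'' n' hz g3 n3 hzw
      have hz1 : (z.r n').memf (((((x.r k).r (l ≫ l' ≫ m)).r n)).r n') := hz
      have hz2 : ((z.r n').r n3).memf ((((w.r n)).r n').r n3) := hzw
      refine h2 g'' (n ≫ n') (z.r n') ?_ g3 n3 ?_
      · simpa using hz1
      · simpa using hz2

end Pool.Agent.CFZ
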