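import Pool.Agent.CFZ.Tre

/-!
Squad CFZ: the values used are Borel operations of their arguments, and are preserved by complete
homomorphisms.
-/

set_option autoImplicit false

namespace Pool.Agent.CFZ

section

variable {α : Type} [Nonempty α]

theorem isB_InfV {a : ∀ (A : Type) [CompleteBooleanAlgebra A], (α → A) → ℕ → A}
    (h : ∀ m, IsB (fun A _ v => a A v m)) : IsB (fun A _ v => InfV (a A v)) := by
  unfold InfV
  exact IsB.iInf fun n => IsB.iSup fun m => IsB.iSup fun _ => h m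

theorem isB_AlmV {a b : ∀ (A : Type) [CompleteBooleanAlgebra A], (α → A) → ℕ → A}
    (h : ∀ m, IsB (fun A _ v => a A v m)) (h' : ∀ m, IsB (fun A _ v => b A v m)) :
    IsB (fun A _ v => AlmV (a A v) (b A v)) := by
  unfold AlmV
  exact IsB.iSup fun n => IsB.iInf fun m => IsB.iInf fun _ => (h m).himp (h' m)

theorem isB_EvV {a : ∀ (A : Type) [CompleteBooleanAlgebra A], (α → A) → ℕ → A}
    (h : ∀ m, IsB (fun A _ v => a A v m)) : IsB (fun A _ v => EvV (a A v)) := by
  unfold EvV
  exact (isB_InfV h).inf (IsB.iInf fun n => (h (2 * n + 1)).compl)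

section

variable {E E' : ∀ (A : Type) [CompleteBooleanAlgebra A], (α → A) → Finset ℕ → A}

theorem isB_BlkV (h : ∀ u, IsB (fun A _ v => E A v u)) : IsB (fun A _ v => BlkV (E A v)) := by
  unfold BlkV
  refine ((h ∅).compl.inf (IsB.iInf fun u => IsB.iInf fun w => IsB.iInf fun _ =>
    ((h u).inf (h w)).compl)).inf ?_
  exact IsB.iInf fun n => IsB.iSup fun u => IsB.iSup fun _ => h u

theorem isB_SpV (h : ∀ u, IsB (fun A _ v => E A v u)) (u : Finset ℕ) :
    IsB (fun A _ v => SpV (E A v) u) := by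
  unfold SpV
  exact IsB.iSup fun W => IsB.iSup fun _ => IsB.iInf fun w => IsB.iInf fun _ => h w

theorem isB_LeV (h : ∀ u, IsB (fun A _ v => E A v u)) (h' : ∀ u, IsB (fun A _ v => E' A v u)) :
    IsB (fun A _ v => LeV (E A v) (E' A v)) := by
  unfold LeV
  exact IsB.iInf fun u => (h u).himp (isB_SpV h' u)

theorem isB_hitV (h : ∀ u, IsB (fun A _ v => E A v u)) (m : ℕ) :
    IsB (fun A _ v => hitV (E A v) m) := by
  unfold hitV
  exact IsB.iSup fun W => IsB.iSup fun _ => h W

end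

section

variable {F : ∀ (A : Type) [CompleteBooleanAlgebra A], (α → A) → ℕ → Finset ℕ → A}

theorem isB_SeqV (h : ∀ n u, IsB (fun A _ v => F A v n u)) : IsB (fun A _ v => SeqV (F A v)) := by
  unfold SeqV
  refine (((IsB.iInf fun n => IsB.iSup fun u => h n u).inf
    (IsB.iInf fun n => IsB.iInf fun u => IsB.iInf fun w => IsB.iInf fun _ =>
      ((h n u).inf (h n w)).compl)).inf (IsB.iInf fun n => (h n ∅).compl)).inf ?_
  exact IsB.iInf fun n => IsB.iInf fun u => IsB.iInf fun w => IsB.iInf fun _ =>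
    ((h n u).inf (h (n + 1) w)).compl

theorem isB_RanV (h : ∀ n u, IsB (fun A _ v => F A v n u)) (u : Finset ℕ) :
    IsB (fun A _ v => RanV (F A v) u) := by
  unfold RanV
  exact IsB.iSup fun n => h n u

theorem isB_REv (h : ∀ n u, IsB (fun A _ v => F A v n u)) (u : Finset ℕ) :
    IsB (fun A _ v => REv (F A v) u) := by
  unfold REv
  exact IsB.iSup fun n => h (2 * n) u

theorem isB_bV (h : ∀ n u, IsB (fun A _ v => F A v n u)) (m : ℕ) :
    IsB (fun A _ v => bV (F A v) m) := by
  unfold bV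
  exact IsB.iSup fun n => IsB.iSup fun u => IsB.iSup fun _ => h (2 * n + 1) u

theorem isB_xV (h : ∀ n u, IsB (fun A _ v => F A v n u)) (m : ℕ) :
    IsB (fun A _ v => xV (F A v) m) := by
  unfold xV
  exact IsB.iSup fun n => IsB.iSup fun u => IsB.iSup fun _ => h (2 * n) u

theorem isB_yV (h : ∀ n u, IsB (fun A _ v => F A v n u))
    {J : ∀ (A : Type) [CompleteBooleanAlgebra A], (α → A) → ℕ → A}
    (h' : ∀ m, IsB (fun A _ v => J A v m)) (m : ℕ) : IsB (fun A _ v => yV (F A v) (J A v) m) := by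
  unfold yV
  exact IsB.iSup fun n => IsB.iSup fun u => IsB.iSup fun _ => (h' n).inf (h n u)

end

section

variable {T S : ∀ (A : Type) [CompleteBooleanAlgebra A], (α → A) → List ℕ → A}
  {x : ∀ (A : Type) [CompleteBooleanAlgebra A], (α → A) → ℕ → ℕ → A}
  {σ : ∀ (A : Type) [CompleteBooleanAlgebra A], (α → A) → Finset ℕ → List ℕ → A}
  {y : ∀ (A : Type) [CompleteBooleanAlgebra A], (α → A) → ℕ → A}
  {F : ∀ (A : Type) [CompleteBooleanAlgebra A], (α → A) → ℕ → Finset ℕ → A}

theorem isB_RealV (h : ∀ n m, IsB (fun A _ v => x A v n m)) :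
    IsB (fun A _ v => RealV (x A v)) := by
  unfold RealV
  refine (IsB.iInf fun n => IsB.iSup fun m => h n m).inf ?_
  exact IsB.iInf fun n => IsB.iInf fun m => IsB.iInf fun m' => IsB.iInf fun _ =>
    ((h n m).inf (h n m')).compl

theorem isB_BrV (h : ∀ n m, IsB (fun A _ v => x A v n m)) (t : List ℕ) :
    IsB (fun A _ v => BrV (x A v) t) := by
  unfold BrV
  exact IsB.iInf fun i => h i.1 (t.get i)

theorem isB_InTV (h : ∀ n m, IsB (fun A _ v => x A v n m)) (h' : ∀ t, IsB (fun A _ v => S A v t)) :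
    IsB (fun A _ v => InTV (x A v) (S A v)) := by
  unfold InTV
  exact IsB.iInf fun t => (isB_BrV h t).himp (h' t)

theorem isB_MilV (h : ∀ t, IsB (fun A _ v => S A v t)) : IsB (fun A _ v => MilV (S A v)) := by
  unfold MilV
  refine ((h []).inf (IsB.iInf fun s => IsB.iInf fun k => (h (s ++ [k])).himp (h s))).inf ?_
  exact IsB.iInf fun s => (h s).himp (IsB.iSup fun t => IsB.iSup fun _ => (h t).inf
    (IsB.iInf fun n => IsB.iSup fun k => IsB.iSup fun _ => h (t ++ [k])))

theorem isB_ParV (h : ∀ t, IsB (fun A _ v => T A v t)) (h' : ∀ u t, IsB (fun A _ v => σ A v u t)) :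
    IsB (fun A _ v => ParV (T A v) (σ A v)) := by
  unfold ParV
  refine (((IsB.iInf fun u => IsB.iSup fun t => h' u t).inf
    (IsB.iInf fun u => IsB.iInf fun t => IsB.iInf fun t' => IsB.iInf fun _ =>
      ((h' u t).inf (h' u t')).compl)).inf
    (IsB.iInf fun u => IsB.iInf fun t => (h' u t).himp (h t))).inf ?_
  exact IsB.iInf fun u => IsB.iInf fun n => IsB.iInf fun n' => IsB.iInf fun _ =>
    IsB.iSup fun t => IsB.iSup fun s => IsB.iSup fun s' => IsB.iSup fun k => IsB.iSup fun k' =>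
      IsB.iSup fun _ => ((h' u t).inf (h' (insert n u) s)).inf (h' (insert n' u) s')

theorem isB_IniS (h : ∀ m, IsB (fun A _ v => y A v m)) (n : ℕ) (u : Finset ℕ) :
    IsB (fun A _ v => IniS (y A v) n u) := by
  unfold IniS
  exact (IsB.iInf fun i => IsB.iInf fun _ => h i).inf
    (IsB.iInf fun i => IsB.iInf fun _ => (h i).compl)

theorem isB_ThV (h : ∀ u t, IsB (fun A _ v => σ A v u t)) (h' : ∀ m, IsB (fun A _ v => y A v m))
    (h'' : ∀ n m, IsB (fun A _ v => x A v n m)) :
    IsB (fun A _ v => ThV (σ A v) (y A v) (x A v)) := by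
  unfold ThV
  exact IsB.iInf fun n => IsB.iInf fun u => IsB.iInf fun _ => IsB.iInf fun t =>
    ((isB_IniS h' n u).inf (h u t)).himp (isB_BrV h'' t)

theorem isB_STV (h : ∀ u t, IsB (fun A _ v => σ A v u t))
    (h' : ∀ n u, IsB (fun A _ v => F A v n u)) (t : List ℕ) :
    IsB (fun A _ v => STV (σ A v) (F A v) t) := by
  unfold STV
  exact IsB.iSup fun u => IsB.iSup fun t' => IsB.iSup fun _ =>
    ((isB_SpV (isB_REv h') u).sup (IsB.iSup fun _ => IsB.top α)).inf (h u t')

end

end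

/-! ### complete homomorphisms preserve the values -/

namespace CHom

variable {A B : Type} [CompleteBooleanAlgebra A] [CompleteBooleanAlgebra B] (k : CHom A B)

theorem map_BlkV (E : Finset ℕ → A) : k (BlkV E) = BlkV (fun u => k (E u)) := by simp [BlkV]
theorem map_SpV (E : Finset ℕ → A) (u : Finset ℕ) : k (SpV E u) = SpV (fun u => k (E u)) u := by
  simp [SpV]
theorem map_LeV (E' E : Finset ℕ → A) : k (LeV E' E) = LeV (fun u => k (E' u)) (fun u => k (E u)) := by
  simp [LeV, SpV]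
theorem map_SeqV (F : ℕ → Finset ℕ → A) : k (SeqV F) = SeqV (fun n u => k (F n u)) := by
  simp [SeqV]
theorem map_RanV (F : ℕ → Finset ℕ → A) (u : Finset ℕ) :
    k (RanV F u) = RanV (fun n u => k (F n u)) u := by simp [RanV]
theorem map_REv (F : ℕ → Finset ℕ → A) (u : Finset ℕ) :
    k (REv F u) = REv (fun n u => k (F n u)) u := by simp [REv]
theorem map_bV (F : ℕ → Finset ℕ → A) (m : ℕ) : k (bV F m) = bV (fun n u => k (F n u)) m := by
  simp [bV]
theorem map_xV (F : ℕ → Finset ℕ → A) (m : ℕ) : k (xV F m) = xV (fun n u => k (F n u)) m := by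
  simp [xV]
theorem map_yV (F : ℕ → Finset ℕ → A) (J : ℕ → A) (m : ℕ) :
    k (yV F J m) = yV (fun n u => k (F n u)) (fun n => k (J n)) m := by simp [yV]
theorem map_iniV (t : L) (F : ℕ → Finset ℕ → A) : k (iniV t F) = iniV t (fun n u => k (F n u)) := by
  simp [iniV]
theorem map_tailV (n : ℕ) (E : Finset ℕ → A) (F : ℕ → Finset ℕ → A) :
    k (tailV n E F) = tailV n (fun u => k (E u)) (fun n u => k (F n u)) := by
  simp [tailV, SpV]
theorem map_hitV (E : Finset ℕ → A) (m : ℕ) : k (hitV E m) = hitV (fun u => k (E u)) m := by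
  simp [hitV]
theorem map_kapV (m0 : ℕ) (t : L) (E : Finset ℕ → A) :
    k (kapV m0 t E) = kapV m0 t (fun u => k (E u)) := by
  simp [kapV, hitV]
theorem map_RealV (x : ℕ → ℕ → A) : k (RealV x) = RealV (fun n m => k (x n m)) := by
  simp [RealV]
theorem map_BrV (x : ℕ → ℕ → A) (t : List ℕ) : k (BrV x t) = BrV (fun n m => k (x n m)) t := by
  simp [BrV]
theorem map_InTV (x : ℕ → ℕ → A) (S : List ℕ → A) :
    k (InTV x S) = InTV (fun n m => k (x n m)) (fun t => k (S t)) := by
  simp [InTV, BrV]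
theorem map_MilV (S : List ℕ → A) : k (MilV S) = MilV (fun t => k (S t)) := by
  simp [MilV]
theorem map_ParV (T : List ℕ → A) (σ : Finset ℕ → List ℕ → A) :
    k (ParV T σ) = ParV (fun t => k (T t)) (fun u t => k (σ u t)) := by
  simp [ParV]
theorem map_ThV (σ : Finset ℕ → List ℕ → A) (y : ℕ → A) (x : ℕ → ℕ → A) :
    k (ThV σ y x) = ThV (fun u t => k (σ u t)) (fun m => k (y m)) (fun n m => k (x n m)) := by
  simp [ThV, IniS, BrV]
theorem map_STV (σ : Finset ℕ → List ℕ → A) (F : ℕ → Finset ℕ → A) (t : List ℕ) :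
    k (STV σ F t) = STV (fun u t => k (σ u t)) (fun n u => k (F n u)) t := by
  simp [STV, SpV, REv]
theorem map_EvV (J : ℕ → A) : k (EvV J) = EvV (fun n => k (J n)) := by
  simp [EvV, InfV]

end CHom

end Pool.Agent.CFZ
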