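import Pool.Agent.CFZ.Base

/-!
Squad CFZ: the logic of forcing.
-/

set_option autoImplicit false

namespace Pool.Agent.CFZ

open CategoryTheory

variable {C : Type 1} [Category.{0} C]

@[simp] theorem rr_apply {c d : C} (ρ : ℕ → LN c) (h : c ⟶ d) (n : ℕ) : rr ρ h n = (ρ n).r h := rfl

@[simp] theorem rr_id {c : C} (ρ : ℕ → LN c) : rr ρ (𝟙 c) = ρ := by funext n; simp [rr]

@[simp] theorem rr_rr {c d e : C} (ρ : ℕ → LN c) (h : c ⟶ d) (k : d ⟶ e) :
    rr (rr ρ h) k = rr ρ (h ≫ k) := by funext n; simp [rr]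

@[simp] theorem rr_cons {c d : C} (x : LN c) (ρ : ℕ → LN c) (h : c ⟶ d) :
    rr (cons x ρ) h = cons (x.r h) (rr ρ h) := by
  funext n; cases n <;> rfl

section

variable {c : C} (ρ : ℕ → LN c)

theorem frc_mem (i j : ℕ) : Frc (.mem i j) c ρ ↔ (ρ i).memf (ρ j) := Iff.rfl
theorem frc_eq (i j : ℕ) : Frc (.eq i j) c ρ ↔ (ρ i).eqf (ρ j) := Iff.rfl
theorem frc_bot : Frc .bot c ρ ↔ False := Iff.rfl
theorem frc_imp (p q : Fm) : Frc (.imp p q) c ρ ↔
    ∀ (d : C) (h : c ⟶ d), Frc p d (rr ρ h) → Frc q d (rr ρ h) := Iff.rfl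
theorem frc_all (p : Fm) : Frc (.all p) c ρ ↔
    ∀ (d : C) (h : c ⟶ d) (x : LN d), Frc p d (cons x (rr ρ h)) := Iff.rfl

end

theorem frc_mono (p : Fm) {c d : C} (ρ : ℕ → LN c) (h : c ⟶ d) (H : Frc p c ρ) :
    Frc p d (rr ρ h) := by
  induction p generalizing c d with
  | mem i j => exact LN.memf_mono H h
  | eq i j => exact LN.eqf_mono H h
  | bot => exact H
  | imp p q ihp ihq =>
    intro e k H'
    have := H e (h ≫ k)
    change Frc p e (rr (rr ρ h) k) at H'
    rw [rr_rr] at H'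
    show Frc q e (rr (rr ρ h) k)
    rw [rr_rr]
    exact this H'
  | all p ih =>
    intro e k x
    have := H e (h ≫ k) x
    show Frc p e (cons x (rr (rr ρ h) k))
    rw [rr_rr]
    exact this

theorem frc_reg (p : Fm) {c : C} (ρ : ℕ → LN c)
    (H : ∀ (d : C) (h : c ⟶ d), ∃ (e : C) (k : d ⟶ e), Frc p e (rr ρ (h ≫ k))) : Frc p c ρ := by
  induction p generalizing c with
  | mem i j => exact LN.memf_reg H
  | eq i j => exact LN.eqf_reg H
  | bot => obtain ⟨e, k, h⟩ := H c (𝟙 c); exact h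
  | imp p q ihp ihq =>
    intro d h H'
    refine ihq (rr ρ h) ?_
    intro e k
    obtain ⟨e', l, H1⟩ := H e (h ≫ k)
    refine ⟨e', l, ?_⟩
    have h2 := H1 e' (𝟙 e')
    change Frc p e' (rr (rr ρ ((h ≫ k) ≫ l)) (𝟙 e')) → Frc q e' (rr (rr ρ ((h ≫ k) ≫ l)) (𝟙 e')) at h2
    rw [rr_id] at h2
    rw [rr_rr, ← Category.assoc]
    apply h2
    have h3 := frc_mono p (rr ρ h) (k ≫ l) H'
    rw [rr_rr, ← Category.assoc] at h3
    exact h3
  | all p ih =>
    intro d h x
    refine ih (cons x (rr ρ h)) ?_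
    intro e k
    obtain ⟨e', l, H1⟩ := H e (h ≫ k)
    refine ⟨e', l, ?_⟩
    have h2 := H1 e' (𝟙 e') (x.r (k ≫ l))
    change Frc p e' (cons (x.r (k ≫ l)) (rr (rr ρ ((h ≫ k) ≫ l)) (𝟙 e'))) at h2
    rw [rr_id] at h2
    rw [rr_cons, rr_rr, ← Category.assoc h k l]
    exact h2

theorem frc_congr (p : Fm) {c : C} (ρ ρ' : ℕ → LN c) (h : ∀ n, (ρ n).eqf (ρ' n)) :
    Frc p c ρ ↔ Frc p c ρ' := by
  induction p generalizing c with
  | mem i j =>
    exact ⟨fun H => LN.memf_congr (h i) (h j) H,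
      fun H => LN.memf_congr (LN.eqf_symm (h i)) (LN.eqf_symm (h j)) H⟩
  | eq i j =>
    exact ⟨fun H => LN.eqf_trans (LN.eqf_symm (h i)) (LN.eqf_trans H (h j)),
      fun H => LN.eqf_trans (h i) (LN.eqf_trans H (LN.eqf_symm (h j)))⟩
  | bot => exact Iff.rfl
  | imp p q ihp ihq =>
    refine forall_congr' fun d => forall_congr' fun k => ?_
    exact imp_congr (ihp _ _ fun n => LN.eqf_mono (h n) k) (ihq _ _ fun n => LN.eqf_mono (h n) k)
  | all p ih =>
    refine forall_congr' fun d => forall_congr' fun k => forall_congr' fun x => ?_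
    refine ih _ _ fun n => ?_
    cases n with
    | zero => exact LN.eqf_refl x
    | succ n => exact LN.eqf_mono (h n) k

theorem cons_ren {α : Type*} (x : α) (ρ : ℕ → α) (r : ℕ → ℕ) :
    (fun n => cons x ρ (cons 0 (fun n => r n + 1) n)) = cons x (fun n => ρ (r n)) := by
  funext n; cases n <;> rfl

theorem frc_ren (p : Fm) {c : C} (ρ : ℕ → LN c) (r : ℕ → ℕ) :
    Frc (p.ren r) c ρ ↔ Frc p c (fun n => ρ (r n)) := by
  induction p generalizing c r with
  | mem i j => exact Iff.rfl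
  | eq i j => exact Iff.rfl
  | bot => exact Iff.rfl
  | imp p q ihp ihq =>
    refine forall_congr' fun d => forall_congr' fun k => ?_
    exact imp_congr (ihp _ r) (ihq _ r)
  | all p ih =>
    refine forall_congr' fun d => forall_congr' fun k => forall_congr' fun x => ?_
    rw [ih, cons_ren]
    rfl

theorem sat_ren {M : Type*} (E : M → M → Prop) (p : Fm) (ρ : ℕ → M) (r : ℕ → ℕ) :
    Sat E (p.ren r) ρ ↔ Sat E p (fun n => ρ (r n)) := by
  induction p generalizing ρ r with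
  | mem i j => exact Iff.rfl
  | eq i j => exact Iff.rfl
  | bot => exact Iff.rfl
  | imp p q ihp ihq => exact imp_congr (ihp _ r) (ihq _ r)
  | all p ih =>
    refine forall_congr' fun x => ?_
    rw [ih, cons_ren]

/-! ### connectives -/

section

variable {M : Type*} (E : M → M → Prop) (p q : Fm) (σ : ℕ → M)

@[simp] theorem sat_mem (i j : ℕ) : Sat E (.mem i j) σ ↔ E (σ i) (σ j) := Iff.rfl
@[simp] theorem sat_eq (i j : ℕ) : Sat E (.eq i j) σ ↔ σ i = σ j := Iff.rfl
@[simp] theorem sat_bot : Sat E .bot σ ↔ False := Iff.rfl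
@[simp] theorem sat_imp : Sat E (.imp p q) σ ↔ (Sat E p σ → Sat E q σ) := Iff.rfl
@[simp] theorem sat_all : Sat E (.all p) σ ↔ ∀ x, Sat E p (cons x σ) := Iff.rfl
@[simp] theorem sat_neg : Sat E p.neg σ ↔ ¬ Sat E p σ := Iff.rfl
@[simp] theorem sat_and : Sat E (p.and q) σ ↔ (Sat E p σ ∧ Sat E q σ) := by
  simp [Fm.and]
@[simp] theorem sat_or : Sat E (p.or q) σ ↔ (Sat E p σ ∨ Sat E q σ) := by
  simp [Fm.or, or_iff_not_imp_left]
@[simp] theorem sat_iff : Sat E (p.iff q) σ ↔ (Sat E p σ ↔ Sat E q σ) := by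
  simp [Fm.iff, iff_def]
@[simp] theorem sat_ex : Sat E p.ex σ ↔ ∃ x, Sat E p (cons x σ) := by
  simp [Fm.ex]

end

section

variable {c : C} (ρ : ℕ → LN c) (p q : Fm)

theorem frc_neg : Frc p.neg c ρ ↔ ∀ (d : C) (h : c ⟶ d), ¬ Frc p d (rr ρ h) := Iff.rfl

theorem frc_and : Frc (p.and q) c ρ ↔ Frc p c ρ ∧ Frc q c ρ := by
  constructor
  · intro H
    refine ⟨frc_reg p ρ ?_, frc_reg q ρ ?_⟩
    · intro d h
      by_contra hc
      push Not at hc
      refine H d h ?_
      intro e k H1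
      have H1' : Frc p e (rr (rr ρ h) k) := H1
      exact absurd (by simpa using H1') (hc e k)
    · intro d h
      by_contra hc
      push Not at hc
      refine H d h ?_
      intro e k _ e' l H1
      have := hc e' (k ≫ l)
      apply this
      have h2 : Frc q e' (rr (rr (rr ρ h) k) l) := H1
      simpa using h2
  · rintro ⟨H1, H2⟩ d h H3
    have h1 := frc_mono p ρ h H1
    have h2 := frc_mono q ρ h H2
    have h3 : Frc p d (rr (rr ρ h) (𝟙 d)) → Frc q.neg d (rr (rr ρ h) (𝟙 d)) := H3 d (𝟙 d)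
    rw [rr_id] at h3
    have h4 := h3 h1 d (𝟙 d)
    rw [rr_id] at h4
    exact h4 h2

theorem frc_or : Frc (p.or q) c ρ ↔ ∀ (d : C) (h : c ⟶ d), ∃ (e : C) (k : d ⟶ e),
    Frc p e (rr ρ (h ≫ k)) ∨ Frc q e (rr ρ (h ≫ k)) := by
  constructor
  · intro H d h
    by_cases hp : ∃ (e : C) (k : d ⟶ e), Frc p e (rr ρ (h ≫ k))
    · obtain ⟨e, k, H1⟩ := hp
      exact ⟨e, k, Or.inl H1⟩
    · push Not at hp
      refine ⟨d, 𝟙 d, Or.inr ?_⟩
      have := H d h (fun e k H1 => hp e k (by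
        have h2 : Frc p e (rr (rr ρ h) k) := H1
        simpa using h2))
      rw [Category.comp_id]
      exact this
  · intro H d h H1
    refine frc_reg q _ ?_
    intro e k
    obtain ⟨e', l, H2⟩ := H e (h ≫ k)
    refine ⟨e', l, ?_⟩
    rcases H2 with H2 | H2
    · exact absurd (by
        show Frc p e' (rr (rr ρ h) (k ≫ l))
        simpa using H2) (H1 e' (k ≫ l))
    · show Frc q e' (rr (rr ρ h) (k ≫ l))
      simpa using H2

theorem frc_iff : Frc (p.iff q) c ρ ↔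
    ∀ (d : C) (h : c ⟶ d), Frc p d (rr ρ h) ↔ Frc q d (rr ρ h) := by
  rw [Fm.iff, frc_and, frc_imp, frc_imp]
  constructor
  · rintro ⟨H1, H2⟩ d h
    exact ⟨H1 d h, H2 d h⟩
  · intro H
    exact ⟨fun d h => (H d h).1, fun d h => (H d h).2⟩

theorem frc_ex : Frc p.ex c ρ ↔ ∀ (d : C) (h : c ⟶ d), ∃ (e : C) (k : d ⟶ e) (x : LN e),
    Frc p e (cons x (rr ρ (h ≫ k))) := by
  constructor
  · intro H d h
    by_contra hc
    push Not at hc
    refine H d h ?_
    intro e k x e' l H1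
    have h1 : Frc p e' (rr (cons x (rr (rr ρ h) k)) l) := H1
    refine hc e' (k ≫ l) (x.r l) ?_
    simpa using h1
  · intro H d h H1
    obtain ⟨e, k, x, H2⟩ := H d h
    have h1 := H1 e k x e (𝟙 e)
    change ¬ Frc p e (rr (cons x (rr (rr ρ h) k)) (𝟙 e)) at h1
    apply h1
    simpa using H2

/-- forced truth by cases -/
theorem frc_em (d : C) (ρ : ℕ → LN d) : ∃ (e : C) (k : d ⟶ e), Frc p e (rr ρ k) ∨
    Frc p.neg e (rr ρ k) := by
  by_cases hp : ∃ (e : C) (k : d ⟶ e), Frc p e (rr ρ k)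
  · obtain ⟨e, k, H1⟩ := hp
    exact ⟨e, k, Or.inl H1⟩
  · push Not at hp
    refine ⟨d, 𝟙 d, Or.inr ?_⟩
    intro e k H
    have h1 : Frc p e (rr (rr ρ (𝟙 d)) k) := H
    exact hp e k (by simpa using h1)

end

/-! ### dependence on the free variables -/

/-- a bound for the free variables -/
def Fm.fv : Fm → ℕ
  | .mem i j => max (i + 1) (j + 1)
  | .eq i j => max (i + 1) (j + 1)
  | .bot => 0
  | .imp p q => max p.fv q.fv
  | .all p => p.fv - 1

theorem cons_agree {α : Type*} {x : α} {ρ ρ' : ℕ → α} {k : ℕ} (h : ∀ n < k - 1, ρ n = ρ' n) :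
    ∀ n < k, cons x ρ n = cons x ρ' n := by
  intro n hn
  cases n with
  | zero => rfl
  | succ n => exact h n (by omega)

theorem frc_fv (p : Fm) {c : C} (ρ ρ' : ℕ → LN c) (h : ∀ n < p.fv, ρ n = ρ' n) :
    Frc p c ρ ↔ Frc p c ρ' := by
  induction p generalizing c with
  | mem i j => simp only [Frc]; rw [h i (by simp [Fm.fv]), h j (by simp [Fm.fv])]
  | eq i j => simp only [Frc]; rw [h i (by simp [Fm.fv]), h j (by simp [Fm.fv])]
  | bot => exact Iff.rfl
  | imp p q ihp ihq =>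
    refine forall_congr' fun d => forall_congr' fun k => ?_
    refine imp_congr (ihp _ _ fun n hn => ?_) (ihq _ _ fun n hn => ?_)
    · rw [rr_apply, rr_apply, h n (lt_of_lt_of_le hn (by simp [Fm.fv]))]
    · rw [rr_apply, rr_apply, h n (lt_of_lt_of_le hn (by simp [Fm.fv]))]
  | all p ih =>
    refine forall_congr' fun d => forall_congr' fun k => forall_congr' fun x => ?_
    refine ih _ _ (cons_agree fun n hn => ?_)
    rw [rr_apply, rr_apply, h n hn]

theorem sat_fv {M : Type*} (E : M → M → Prop) (p : Fm) (ρ ρ' : ℕ → M)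
    (h : ∀ n < p.fv, ρ n = ρ' n) : Sat E p ρ ↔ Sat E p ρ' := by
  induction p generalizing ρ ρ' with
  | mem i j => simp only [Sat]; rw [h i (by simp [Fm.fv]), h j (by simp [Fm.fv])]
  | eq i j => simp only [Sat]; rw [h i (by simp [Fm.fv]), h j (by simp [Fm.fv])]
  | bot => exact Iff.rfl
  | imp p q ihp ihq =>
    exact imp_congr (ihp _ _ fun n hn => h n (lt_of_lt_of_le hn (by simp [Fm.fv])))
      (ihq _ _ fun n hn => h n (lt_of_lt_of_le hn (by simp [Fm.fv])))
  | all p ih => exact forall_congr' fun x => ih _ _ (cons_agree h)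

end Pool.Agent.CFZ
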