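import Pool.Agent.CFZ.Cat
import Pool.Agent.CFZ.Borel

/-!
Squad CFZ: block sequences with values in a complete Boolean algebra, Milliken forcing over `A`.
-/

set_option autoImplicit false

namespace Pool.Agent.CFZ

open CategoryTheory

/-- all elements of `u` are below all elements of `v` -/
def Lt (u v : Finset ℕ) : Prop := ∀ i ∈ u, ∀ j ∈ v, i < j

abbrev L := List (Finset ℕ)

/-- finite block sequences -/
def Blist (s : L) : Prop := (∀ u ∈ s, u.Nonempty) ∧ s.Pairwise Lt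

/-- `u` may follow the list `s` -/
def Gt (s : L) (u : Finset ℕ) : Prop := u.Nonempty ∧ ∀ w ∈ s, Lt w u

section

variable {A B : Type} [CompleteBooleanAlgebra A] [CompleteBooleanAlgebra B]

/-- value of: `E` is an infinite set of blocks (nonempty, pairwise comparable) -/
def BlkV (E : Finset ℕ → A) : A :=
  (E ∅)ᶜ ⊓ (⨅ (u) (v) (_ : ¬ (u = v ∨ Lt u v ∨ Lt v u)), (E u ⊓ E v)ᶜ) ⊓
  ⨅ n : ℕ, ⨆ (u) (_ : ∀ i ∈ u, n < i), E u

/-- value of: `u` is a finite union of elements of `E` -/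
def SpV (E : Finset ℕ → A) (u : Finset ℕ) : A :=
  ⨆ (W : Finset (Finset ℕ)) (_ : W.Nonempty ∧ W.sup id = u), ⨅ w ∈ W, E w

/-- value of: all elements of `E'` are finite unions of elements of `E` -/
def LeV (E' E : Finset ℕ → A) : A := ⨅ u, (E' u ⇨ SpV E u)

theorem le_SpV (E : Finset ℕ → A) (u : Finset ℕ) : E u ≤ SpV E u :=
  le_iSup₂_of_le {u} ⟨by simp, by simp⟩ (by simp)

theorem SpV_union (E : Finset ℕ → A) (u v : Finset ℕ) : SpV E u ⊓ SpV E v ≤ SpV E (u ∪ v) := by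
  unfold SpV
  rw [iSup₂_inf_eq]
  refine iSup₂_le fun W hW => ?_
  rw [inf_iSup₂_eq]
  refine iSup₂_le fun W' hW' => ?_
  classical
  refine le_iSup₂_of_le (W ∪ W') ⟨hW.1.mono Finset.subset_union_left, ?_⟩ ?_
  · rw [Finset.sup_union, hW.2, hW'.2]; rfl
  · refine le_iInf₂ fun w hw => ?_
    rcases Finset.mem_union.1 hw with hw | hw
    · exact inf_le_left.trans (iInf₂_le w hw)
    · exact inf_le_right.trans (iInf₂_le w hw)

theorem SpV_trans (a : A) (E' E : Finset ℕ → A) (u : Finset ℕ) (h0 : E' ∅ = ⊥)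
    (h : ∀ w ⊆ u, w.Nonempty → a ⊓ E' w ≤ SpV E w) : a ⊓ SpV E' u ≤ SpV E u := by
  classical
  unfold SpV
  rw [inf_iSup₂_eq]
  refine iSup₂_le fun W hW => ?_
  obtain ⟨hne, rfl⟩ := hW
  have key : ∀ W' : Finset (Finset ℕ), W'.Nonempty → W' ⊆ W →
      a ⊓ ⨅ w ∈ W, E' w ≤ SpV E (W'.sup id) := by
    intro W' hW'
    induction hW' using Finset.Nonempty.cons_induction with
    | singleton w =>
      intro hsub
      have hw : w ∈ W := hsub (by simp)
      simp only [Finset.sup_singleton, id]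
      rcases Finset.eq_empty_or_nonempty w with rfl | hwn
      · refine (inf_le_right.trans (iInf₂_le _ hw)).trans ?_
        rw [h0]; exact bot_le
      · refine (inf_le_inf_left a (iInf₂_le _ hw)).trans (h w ?_ hwn)
        exact Finset.le_sup (f := id) hw
    | cons w W'' hw hne' ih =>
      intro hsub
      rw [Finset.sup_cons]
      have h1 := ih (fun x hx => hsub (Finset.mem_cons_of_mem hx))
      have hw' : w ∈ W := hsub (Finset.mem_cons_self _ _)
      have h2 : a ⊓ ⨅ w ∈ W, E' w ≤ SpV E w := by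
        rcases Finset.eq_empty_or_nonempty w with rfl | hwn
        · refine (inf_le_right.trans (iInf₂_le _ hw')).trans ?_
          rw [h0]; exact bot_le
        · refine (inf_le_inf_left a (iInf₂_le _ hw')).trans (h w ?_ hwn)
          exact Finset.le_sup (f := id) hw'
      exact (le_inf h2 h1).trans (SpV_union E _ _)
  exact key W hne (Finset.Subset.refl _)

theorem BlkV_empty {E : Finset ℕ → A} (h : BlkV E = ⊤) : E ∅ = ⊥ := by
  have : (E ∅)ᶜ = ⊤ := top_le_iff.1 (h ▸ inf_le_left.trans inf_le_left)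
  rwa [compl_eq_top] at this

/-- value of: `F` is a block sequence -/
def SeqV (F : ℕ → Finset ℕ → A) : A :=
  (⨅ n, ⨆ u, F n u) ⊓ (⨅ (n) (u) (v) (_ : u ≠ v), (F n u ⊓ F n v)ᶜ) ⊓ (⨅ n, (F n ∅)ᶜ) ⊓
  ⨅ (n) (u) (v) (_ : ¬ Lt u v), (F n u ⊓ F (n + 1) v)ᶜ

/-- the set of the members of the sequence -/
def RanV (F : ℕ → Finset ℕ → A) (u : Finset ℕ) : A := ⨆ n, F n u

/-- the set of the minima of the members with odd index -/
def bV (F : ℕ → Finset ℕ → A) (m : ℕ) : A :=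
  ⨆ (n) (u) (_ : m ∈ u ∧ ∀ i ∈ u, m ≤ i), F (2 * n + 1) u

/-- the union of the members with even index -/
def xV (F : ℕ → Finset ℕ → A) (m : ℕ) : A := ⨆ (n) (u) (_ : m ∈ u), F (2 * n) u

/-- the union of the members with index in `J` -/
def yV (F : ℕ → Finset ℕ → A) (J : ℕ → A) (m : ℕ) : A := ⨆ (j) (u) (_ : m ∈ u), (J j ⊓ F j u)

/-- value of: `t` is an initial segment of `F` -/
def iniV (t : L) (F : ℕ → Finset ℕ → A) : A := ⨅ i : Fin t.length, F i (t.get i)

/-- value of: all members of `F` with index at least `n` are finite unions of elements of `E` -/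
def tailV (n : ℕ) (E : Finset ℕ → A) (F : ℕ → Finset ℕ → A) : A :=
  ⨅ (i) (_ : n ≤ i) (u), (F i u ⇨ SpV E u)

/-! ### Conditions -/

/-- the conditions of Milliken forcing below `E0` -/
structure Cd (A : Type) [CompleteBooleanAlgebra A] (E0 : Finset ℕ → A) where
  p : A
  s : L
  E : Finset ℕ → A
  hp : p ≠ ⊥
  hs : Blist s
  hE : BlkV E = ⊤
  hE0 : LeV E E0 = ⊤
  hs0 : ∀ u ∈ s, p ≤ SpV E0 u

theorem Blist.gt_of_prefix {s s' : L} (h : Blist s') (hp : s <+: s') {u : Finset ℕ} (hu : u ∈ s')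
    (hus : u ∉ s) : Gt s u := by
  obtain ⟨r, rfl⟩ := hp
  refine ⟨h.1 u hu, fun w hw => ?_⟩
  have hur : u ∈ r := by
    rcases List.mem_append.1 hu with h1 | h1
    · exact absurd h1 hus
    · exact h1
  exact (List.pairwise_append.1 h.2).2.2 w hw u hur

theorem Gt.of_prefix {s s' : L} (hp : s <+: s') {u : Finset ℕ} (h : Gt s' u) : Gt s u :=
  ⟨h.1, fun w hw => h.2 w (hp.subset hw)⟩

theorem Gt.mono {s : L} {u v : Finset ℕ} (h : Gt s u) (hv : v ⊆ u) (hne : v.Nonempty) : Gt s v :=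
  ⟨hne, fun w hw i hi j hj => h.2 w hw i hi j (hv hj)⟩

instance (E0 : Finset ℕ → A) : Preorder (Cd A E0) where
  le q' q := q'.p ≤ q.p ∧ q.s <+: q'.s ∧ (∀ u ∈ q'.s, u ∉ q.s → q'.p ≤ SpV q.E u) ∧
    ∀ u, Gt q'.s u → q'.p ⊓ q'.E u ≤ SpV q.E u
  le_refl q := ⟨le_rfl, List.prefix_refl _, fun _ h h' => absurd h h', fun _ _ =>
    inf_le_right.trans (le_SpV _ _)⟩
  le_trans q'' q' q h1 h2 := by
    obtain ⟨a1, b1, c1, d1⟩ := h1
    obtain ⟨a2, b2, c2, d2⟩ := h2
    have key : ∀ u, Gt q'.s u → q''.p ⊓ SpV q'.E u ≤ SpV q.E u := by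
      intro u hu
      refine (inf_le_inf_right _ a1).trans ?_
      exact SpV_trans q'.p q'.E q.E u (BlkV_empty q'.hE) fun w hw hne => d2 w (hu.mono hw hne)
    refine ⟨a1.trans a2, b2.trans b1, ?_, ?_⟩
    · intro u hu hus
      by_cases h : u ∈ q'.s
      · exact a1.trans (c2 u h hus)
      · exact (le_inf le_rfl (c1 u hu h)).trans (key u (q''.hs.gt_of_prefix b1 hu h))
    · intro u hu
      exact (le_inf inf_le_left (d1 u hu)).trans (key u (hu.of_prefix b1))

theorem Cd.le_def {E0 : Finset ℕ → A} {q' q : Cd A E0} : q' ≤ q ↔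
    q'.p ≤ q.p ∧ q.s <+: q'.s ∧ (∀ u ∈ q'.s, u ∉ q.s → q'.p ≤ SpV q.E u) ∧
    ∀ u, Gt q'.s u → q'.p ⊓ q'.E u ≤ SpV q.E u := Iff.rfl

/-- value of: `m` is an element of a member of `E` -/
def hitV (E : Finset ℕ → A) (m : ℕ) : A := ⨆ (u) (_ : m ∈ u), E u

/-- value of: all numbers `m ≥ m0` which occur in the list `t` are elements of members of `E` -/
def kapV (m0 : ℕ) (t : L) (E : Finset ℕ → A) : A :=
  ⨅ (u) (_ : u ∈ t) (m) (_ : m ∈ u ∧ m0 ≤ m), hitV E m

/-- the canonical complete homomorphism -/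
def iota (E0 : Finset ℕ → A) : CHom A (RO (Cd A E0)) :=
  CHom.ofProj (fun q => q.p) (fun q => q.hp) (fun _ _ h => h.1) (fun q a ha hne =>
    ⟨⟨a, q.s, q.E, hne, q.hs, q.hE, q.hE0, fun u hu => ha.trans (q.hs0 u hu)⟩,
      ⟨ha, List.prefix_refl _, fun _ h h' => absurd h h', fun _ _ =>
        inf_le_right.trans (le_SpV _ _)⟩, le_rfl⟩)

@[simp] theorem mem_iota {E0 : Finset ℕ → A} (a : A) (q : Cd A E0) :
    q ∈ (iota E0 a).s ↔ q.p ≤ a := Iff.rfl

/-- the generic block sequence -/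
def FN (E0 : Finset ℕ → A) (n : ℕ) (u : Finset ℕ) : RO (Cd A E0) :=
  RO.cl {q | q.s[n]? = some u}

/-- value of: the condition `t, E` belongs to `D` -/
def vV {E0 : Finset ℕ → A} (D : Set (Cd A E0)) (t : L) (E : Finset ℕ → A) : A :=
  ⨆ (q : Cd A E0) (_ : q ∈ D ∧ q.s = t ∧ q.E = E), q.p

/-- value of: every sequence of blocks of `E` beyond `t` continues `t` to a list in `O`
(least fixed point) -/
def WV (O : L → A) (E : Finset ℕ → A) (t : L) : A :=
  ⨅ (X : L → A) (_ : ∀ t, O t ⊔ (⨅ (u) (_ : Gt t u), (SpV E u ⇨ X (t ++ [u]))) ≤ X t), X t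

/-- value, at an algebra `B` over `A`, of: the condition `q` belongs to the filter given by the
block sequence `F` -/
def gV (k : CHom A B) (F : ℕ → Finset ℕ → B) {E0 : Finset ℕ → A} (q : Cd A E0) : B :=
  k q.p ⊓ iniV q.s F ⊓ tailV q.s.length (fun u => k (q.E u)) F

/-- a dense open set of conditions -/
def DOp {P : Type} [Preorder P] (D : Set P) : Prop :=
  (∀ p, ∃ q ≤ p, q ∈ D) ∧ ∀ p ∈ D, ∀ q ≤ p, q ∈ D

/-- the blocks given by the elements of an infinite set -/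
def E0of (a : ℕ → A) (u : Finset ℕ) : A := ⨆ (m) (_ : u = {m}), a m

end

end Pool.Agent.CFZ
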