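import Mathlib

/-!
MP_3193e4_lc. Set theory inside a structure `M, E`, `E x y` meaning that `x` is an element of
`y` in the sense of the structure.
-/

set_option autoImplicit false

namespace Pool.Agent.CFZ

/-- formulas of set theory, de Bruijn indices -/
inductive Fm : Type
  | mem (i j : ℕ) : Fm
  | eq (i j : ℕ) : Fm
  | bot : Fm
  | imp (p q : Fm) : Fm
  | all (p : Fm) : Fm

/-- adding one value in front of an assignment -/
def cons {α : Type*} (x : α) (ρ : ℕ → α) : ℕ → α
  | 0 => x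
  | n + 1 => ρ n

/-- truth of a formula in a structure `M, E` under an assignment -/
def Sat {M : Type*} (E : M → M → Prop) : Fm → (ℕ → M) → Prop
  | .mem i j, ρ => E (ρ i) (ρ j)
  | .eq i j, ρ => ρ i = ρ j
  | .bot, _ => False
  | .imp p q, ρ => Sat E p ρ → Sat E q ρ
  | .all p, ρ => ∀ x, Sat E p (cons x ρ)

section

variable {M : Type*} (E : M → M → Prop)

/-- `x` is a subset of `y` -/
def Sub (x y : M) : Prop := ∀ z, E z x → E z y

/-- `x` is empty -/
def Emp (x : M) : Prop := ∀ z, ¬ E z x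

/-- `p` is the unordered pair of `a` and `b` -/
def UPair (p a b : M) : Prop := ∀ z, E z p ↔ (z = a ∨ z = b)

/-- `p` is the (Kuratowski) ordered pair of `a` and `b` -/
def OPair (p a b : M) : Prop := ∃ u v, UPair E u a a ∧ UPair E v a b ∧ UPair E p u v

/-- `y` is the successor `x ∪ {x}` -/
def Succ (y x : M) : Prop := ∀ z, E z y ↔ (E z x ∨ z = x)

/-- `w` is inductive -/
def Indu (w : M) : Prop :=
  (∃ e, Emp E e ∧ E e w) ∧ ∀ x, E x w → ∃ y, Succ E y x ∧ E y w

/-- `w` is the set of natural numbers -/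
def Omega (w : M) : Prop := Indu E w ∧ ∀ v, Indu E v → Sub E w v

/-- the ordered pair of `a` and `b` is an element of `f` -/
def App (f a b : M) : Prop := ∃ p, OPair E p a b ∧ E p f

/-- `f` is a function from `A` to `B` -/
def Fun (f A B : M) : Prop :=
  (∀ p, E p f → ∃ a b, E a A ∧ E b B ∧ OPair E p a b) ∧
  ∀ a, E a A → ∃ b, E b B ∧ App E f a b ∧ ∀ b', App E f a b' → b' = b

/-- `s` is a finite sequence of natural numbers -/
def FSeq (w s : M) : Prop := ∃ n, E n w ∧ Fun E s n w

/-- `T` is a tree of finite sequences of natural numbers -/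
def Tree (w T : M) : Prop :=
  (∀ s, E s T → FSeq E w s) ∧ ∀ s t, E s T → FSeq E w t → Sub E t s → E t T

/-- `t` is the finite sequence `s` continued by the value `k` -/
def ISucc (w s k t : M) : Prop :=
  ∃ n, E n w ∧ Fun E s n w ∧ ∃ p, OPair E p n k ∧ ∀ z, E z t ↔ (E z s ∨ z = p)

/-- the node `t` has infinitely many immediate successors in `T` -/
def Split (w T t : M) : Prop :=
  ∀ k, E k w → ∃ k', E k' w ∧ E k k' ∧ ∃ u, ISucc E w t k' u ∧ E u T

/-- `T` is a Miller tree -/
def Miller (w T : M) : Prop :=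
  Tree E w T ∧ (∃ s, E s T) ∧ ∀ s, E s T → ∃ t, E t T ∧ Sub E s t ∧ Split E w T t

/-- `x` is a branch of `T` -/
def Branch (w T x : M) : Prop := ∀ s, FSeq E w s → Sub E s x → E s T

/-- `X` is Miller measurable -/
def MMeas (w X : M) : Prop :=
  ∀ T, Miller E w T → ∃ S, Miller E w S ∧ Sub E S T ∧
    ((∀ x, Fun E x w w → Branch E w S x → E x X) ∨
      (∀ x, Fun E x w w → Branch E w S x → ¬ E x X))

/-- every set of functions from `ω` to `ω` is Miller measurable -/
def MM : Prop := ∀ w, Omega E w → ∀ X, (∀ x, E x X → Fun E x w w) → MMeas E w X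

/-- `X` has the Baire property: there are an open set (given by a set `U` of finite sequences) and
a sequence of dense open sets (given by a relation `G` between numbers and finite sequences) such
that `X` and the open set agree on the intersection of the dense open sets -/
def Baire (w X : M) : Prop :=
  ∃ U G, (∀ n, E n w → ∀ s, FSeq E w s → ∃ t, FSeq E w t ∧ Sub E s t ∧ App E G n t) ∧
    ∀ x, Fun E x w w → (∀ n, E n w → ∃ s, FSeq E w s ∧ Sub E s x ∧ App E G n s) →
      (E x X ↔ ∃ s, E s U ∧ FSeq E w s ∧ Sub E s x)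

/-- there is a set of functions from `ω` to `ω` without the Baire property -/
def NotBP : Prop := ∃ w, Omega E w ∧ ∃ X, (∀ x, E x X → Fun E x w w) ∧ ¬ Baire E w X

/-- the principle of dependent choices (DC) -/
def DepCh : Prop := ∀ w, Omega E w → ∀ X R, (∃ x, E x X) →
  (∀ x, E x X → ∃ y, E y X ∧ App E R x y) →
  ∃ f, Fun E f w X ∧ ∀ n m, E n w → Succ E m n → ∀ a b, App E f n a → App E f m b → App E R a b

/-- the axioms of Zermelo-Fraenkel set theory (without choice) -/
structure ZF : Prop where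
  ext : ∀ x y, (∀ z, E z x ↔ E z y) → x = y
  found : ∀ x, (∃ y, E y x) → ∃ y, E y x ∧ ∀ z, E z x → ¬ E z y
  pair : ∀ a b, ∃ p, UPair E p a b
  union : ∀ x, ∃ u, ∀ z, E z u ↔ ∃ y, E y x ∧ E z y
  power : ∀ x, ∃ p, ∀ z, E z p ↔ Sub E z x
  inf : ∃ w, Indu E w
  sep : ∀ (φ : Fm) (ρ : ℕ → M) (a : M), ∃ b, ∀ x, E x b ↔ (E x a ∧ Sat E φ (cons x ρ))
  repl : ∀ (φ : Fm) (ρ : ℕ → M) (a : M),
    (∀ x, E x a → ∃ y, ∀ y', Sat E φ (cons x (cons y' ρ)) ↔ y' = y) →
    ∃ b, ∀ y, E y b ↔ ∃ x, E x a ∧ Sat E φ (cons x (cons y ρ))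

end

end Pool.Agent.CFZ
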