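import Pool.Agent.CFZ.Stmts
set_option autoImplicit false
namespace Pool.Agent.CFZ

open CategoryTheory

namespace NRE_

/-- an element which densely becomes top is top -/
theorem dense_top (hRST : Stmt_RST) {c : Ob} (x : c.A)
    (H : ∀ (d : Ob) (h : c ⟶ d), ∃ (e : Ob) (k : d ⟶ e), (h ≫ k).h x = ⊤) : x = ⊤ := by
  by_contra hne
  have hx : xᶜ ≠ ⊥ := fun h => hne (compl_eq_bot.1 h)
  obtain ⟨e, k, h1, -⟩ := hRST c xᶜ hx
  obtain ⟨e', l, h2⟩ := H e k
  have h3 : (k ≫ l).h xᶜ = ⊤ := by rw [Ob.comp_h, h1, CHom.map_top]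
  have h4 : (k ≫ l).h x ⊓ (k ≫ l).h xᶜ = ⊥ := by
    rw [← CHom.map_inf, inf_compl_self, CHom.map_bot]
  rw [h2, h3, inf_top_eq] at h4
  exact top_ne_bot h4

theorem rl_mono {c d : Ob} (X : LN c) (x : ℕ → ℕ → c.A) (h : c ⟶ d) (hX : IsRl X x) :
    IsRl (X.r h) (fun n m => h.h (x n m)) := by
  intro e k z
  rw [LN.r_r, hX e (h ≫ k) z]
  simp only [Ob.comp_h]

theorem rl_mem (hRST : Stmt_RST) (hNAT : Stmt_NAT) (hOPN : Stmt_OPN) {c : Ob} (X : LN c)
    (x : ℕ → ℕ → c.A) (hX : IsRl X x) (n m : ℕ) :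
    (opN (natN c n) (natN c m)).memf X ↔ x n m = ⊤ := by
  have h0 := hX c (𝟙 c) (opN (natN c n) (natN c m))
  rw [LN.r_id] at h0
  have hmv : ∀ (d : Ob) (h : c ⟶ d), ((opN (natN c n) (natN c m)).r h).eqf
      (opN (natN d n) (natN d m)) := by
    intro d h
    refine LN.eqf_trans ((hOPN Ob).1 c d h _ _) ?_
    exact ((hOPN Ob).2.1 d _ _ _ _).2 ⟨(hNAT Ob).1 c d h n, (hNAT Ob).1 c d h m⟩
  rw [h0]
  constructor
  · intro H
    refine dense_top hRST _ fun d h => ?_
    obtain ⟨e, l, i, h1, h2⟩ := H d h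
    refine ⟨e, l, ?_⟩
    have h3 := LN.eqf_trans (LN.eqf_symm (hmv e (h ≫ l))) h2
    obtain ⟨h4, h5⟩ := ((hOPN Ob).2.1 e _ _ _ _).1 h3
    have h6 := (((hNAT Ob).2.2.1 e n i.1).2).1 h4
    have h7 := (((hNAT Ob).2.2.1 e m i.2).2).1 h5
    rw [h6, h7]
    simpa using h1
  · intro H d h
    refine ⟨d, 𝟙 d, (n, m), ?_, ?_⟩
    · simp [H]
    · simpa using hmv d h

end NRE_

theorem nre_proof (hRST : Stmt_RST) (hNAT : Stmt_NAT) (hOPN : Stmt_OPN) (hSQA : Stmt_SQA) :
    Stmt_NRE := by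
  intro c
  refine ⟨?_, ?_⟩
  · intro X x hX
    refine ⟨NRE_.rl_mem hRST hNAT hOPN X x hX, ?_, ?_⟩
    · intro s
      have hel : ∀ (d : Ob) (h : c ⟶ d) (i : Fin s.length),
          (opN (natN d i.1) (natN d (s.get i))).memf (X.r h) ↔ h.h (x i.1 (s.get i)) = ⊤ :=
        fun d h i => NRE_.rl_mem hRST hNAT hOPN (X.r h) _ (NRE_.rl_mono X x h hX) i.1 (s.get i)
      have key : FSub (seqN c s) X ↔ ∀ i : Fin s.length, x i.1 (s.get i) = ⊤ := by
        constructor
        · intro H i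
          have h1 := H c (𝟙 c) (opN (natN c i.1) (natN c (s.get i)))
          rw [LN.r_id, LN.r_id] at h1
          have h2 := h1 (by
            rw [(hSQA Ob).2.2 c s]
            intro e h
            refine ⟨e, 𝟙 e, i, ?_⟩
            rw [Category.comp_id]
            refine LN.eqf_trans ((hOPN Ob).1 c e h _ _) ?_
            exact ((hOPN Ob).2.1 e _ _ _ _).2 ⟨(hNAT Ob).1 c e h _, (hNAT Ob).1 c e h _⟩)
          exact (NRE_.rl_mem hRST hNAT hOPN X x hX _ _).1 h2
        · intro H d h z hz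
          have hz' : z.memf (seqN d s) := by
            have := (LN.memf_iff_of_eqf ((hSQA Ob).1 c d h s) (𝟙 d) z).1
            rw [LN.r_id, LN.r_id] at this
            exact this hz
          rw [(hSQA Ob).2.2 d s] at hz'
          refine LN.memf_reg fun e k => ?_
          obtain ⟨e2, l, i, h1⟩ := hz' e k
          refine ⟨e2, l, ?_⟩
          rw [LN.r_r]
          refine LN.memf_congr (LN.eqf_symm h1) (LN.eqf_refl _) ?_
          rw [hel e2 (h ≫ k ≫ l) i, H i, CHom.map_top]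
      rw [key, BrV, iInf_eq_top]
    · intro x' hX'
      have key : ∀ (y y' : ℕ → ℕ → c.A), IsRl X y → IsRl X y' → ∀ n m, y n m ≤ y' n m := by
        intro y y' hy hy' n m
        by_contra hcon
        have hne : y n m ⊓ (y' n m)ᶜ ≠ ⊥ := fun h => hcon (by
          rw [← disjoint_iff, disjoint_compl_right_iff] at h; exact h)
        obtain ⟨e, k, h1, -⟩ := hRST c _ hne
        have h2 : k.h (y n m) = ⊤ := top_le_iff.1 (h1 ▸ CHom.mono k.h inf_le_left)
        have h3 : k.h (y' n m)ᶜ = ⊤ := top_le_iff.1 (h1 ▸ CHom.mono k.h inf_le_right)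
        have h4 := (NRE_.rl_mem hRST hNAT hOPN (X.r k) _ (NRE_.rl_mono X y k hy) n m).2 h2
        have h5 := (NRE_.rl_mem hRST hNAT hOPN (X.r k) _ (NRE_.rl_mono X y' k hy') n m).1 h4
        rw [CHom.map_compl, h5, compl_top] at h3
        exact bot_ne_top h3
      funext n m
      exact le_antisymm (key x x' hX hX' n m) (key x' x hX' hX n m)
  · intro X S hX s
    have h0 := hX c (𝟙 c) (seqN c s)
    rw [LN.r_id] at h0
    rw [h0]
    constructor
    · intro H
      refine NRE_.dense_top hRST _ fun d h => ?_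
      obtain ⟨e, l, t, h1, h2⟩ := H d h
      refine ⟨e, l, ?_⟩
      have h3 := LN.eqf_trans (LN.eqf_symm ((hSQA Ob).1 c e (h ≫ l) s)) h2
      have h4 := (((hSQA Ob).2.1 e s t).1).1 h3
      rw [h4]
      simpa using h1
    · intro H d h
      refine ⟨d, 𝟙 d, s, ?_, ?_⟩
      · simp [H]
      · simpa using (hSQA Ob).1 c d h s

end Pool.Agent.CFZ
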