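import Pool.Agent.CFZ.Forms

/-!
Squad CFZ: canonical names (natural numbers, pairs, finite sequences) over any category.
-/

set_option autoImplicit false

namespace Pool.Agent.CFZ

open CategoryTheory

variable {C : Type 1} [Category.{0} C]

/-- the name of the set whose elements are the `xs i` -/
def fam (c : C) (ι : Type) (xs : ι → LN c) : LN c :=
  bld c (ULift.{1} ι) (fun _ => c) (fun _ => 𝟙 c) (fun i => xs i.down)

theorem memf_fam {c e : C} {ι : Type} {xs : ι → LN c} (h0 : c ⟶ e) (z : LN e) :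
    z.memf ((fam c ι xs).r h0) ↔ ∀ (e1 : C) (h : e ⟶ e1), ∃ (e2 : C) (k : e1 ⟶ e2) (i : ι),
      (z.r (h ≫ k)).eqf ((xs i).r (h0 ≫ h ≫ k)) := by
  rw [fam, LN.memf_bld]
  constructor
  · intro H e1 h
    obtain ⟨e2, k, i, n, h1, h2⟩ := H e1 h
    refine ⟨e2, k, i.down, ?_⟩
    rw [h1, Category.id_comp]
    exact h2
  · intro H e1 h
    obtain ⟨e2, k, i, h2⟩ := H e1 h
    exact ⟨e2, k, ⟨i⟩, h0 ≫ h ≫ k, by simp, h2⟩

/-- the name of a natural number -/
def natN (c : C) (n : ℕ) : LN c := fam c (Fin n) (fun i => natN c i.1)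
termination_by n
decreasing_by exact i.2

/-- the name of the set of natural numbers -/
def omN (c : C) : LN c := fam c ℕ (natN c)

/-- unordered pairs -/
def upN {c : C} (a b : LN c) : LN c := fam c Bool (fun i => bif i then a else b)

/-- ordered pairs -/
def opN {c : C} (a b : LN c) : LN c := upN (upN a a) (upN a b)

/-- the name of a finite sequence of natural numbers -/
def seqN (c : C) (s : List ℕ) : LN c :=
  fam c (Fin s.length) (fun i => opN (natN c i.1) (natN c (s.get i)))

/-- inclusion of located names -/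
def FSub {c : C} (x y : LN c) : Prop := ∀ (d : C) (h : c ⟶ d) (z : LN d),
  z.memf (x.r h) → z.memf (y.r h)

/-- a property holds densely above the stage `c` -/
def Dns {c : C} (P : (d : C) → (c ⟶ d) → Prop) : Prop :=
  ∀ (d : C) (h : c ⟶ d), ∃ (e : C) (k : d ⟶ e), P e (h ≫ k)

/-- `X` names the set of all `V i`, where `V i` is put in exactly at the stages where `S i`
holds -/
def IsSet {c : C} {ι : Type} (X : LN c) (V : (d : C) → ι → LN d) (S : ι → (d : C) → (c ⟶ d) → Prop) :
    Prop :=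
  ∀ (e : C) (h : c ⟶ e) (z : LN e), z.memf (X.r h) ↔
    ∀ (e1 : C) (k : e ⟶ e1), ∃ (e2 : C) (l : e1 ⟶ e2) (i : ι), S i e2 (h ≫ k ≫ l) ∧
      (z.r (k ≫ l)).eqf (V e2 i)

end Pool.Agent.CFZ
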