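import Pool.Agent.CFZ.Stmts

/-!
Squad CFZ, module PDE: pure decision.
-/

set_option autoImplicit false

namespace Pool.Agent.CFZ

namespace PDE_

variable {A : Type} [CompleteBooleanAlgebra A]

theorem LeV_iff {E' E : Finset ℕ → A} : LeV E' E = ⊤ ↔ ∀ u, E' u ≤ SpV E u := by
  simp only [LeV, iInf_eq_top, himp_eq_top_iff]

theorem SpV_le {E' E : Finset ℕ → A} (hB : BlkV E' = ⊤) (h : LeV E' E = ⊤) (u : Finset ℕ) :
    SpV E' u ≤ SpV E u := by
  have h1 := SpV_trans ⊤ E' E u (BlkV_empty hB) (fun w _ _ => inf_le_right.trans (LeV_iff.1 h w))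
  rwa [top_inf_eq] at h1

theorem LeV_trans {E'' E' E : Finset ℕ → A} (hB : BlkV E' = ⊤) (h1 : LeV E'' E' = ⊤)
    (h2 : LeV E' E = ⊤) : LeV E'' E = ⊤ := by
  rw [LeV_iff]
  intro u
  exact (LeV_iff.1 h1 u).trans (SpV_le hB h2 u)

theorem SpV_le_hitV (E : Finset ℕ → A) (u : Finset ℕ) (m : ℕ) (hm : m ∈ u) :
    SpV E u ≤ hitV E m := by
  unfold SpV
  refine iSup₂_le fun W hW => ?_
  have hm' : m ∈ W.sup id := by rw [hW.2]; exact hm
  obtain ⟨w, hw, hmw⟩ := Finset.mem_sup.1 hm'
  exact (iInf₂_le w hw).trans (le_iSup₂_of_le (f := fun u (_ : m ∈ u) => E u) w hmw le_rfl)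

/-- restriction of a condition to a smaller value -/
def rst {E0 : Finset ℕ → A} (q : Cd A E0) (a : A) (h : q.p ⊓ a ≠ ⊥) : Cd A E0 :=
  ⟨q.p ⊓ a, q.s, q.E, h, q.hs, q.hE, q.hE0, fun u hu => inf_le_left.trans (q.hs0 u hu)⟩

theorem rst_le {E0 : Finset ℕ → A} (q : Cd A E0) (a : A) (h : q.p ⊓ a ≠ ⊥) : rst q a h ≤ q :=
  ⟨inf_le_left, List.prefix_refl _, fun _ h h' => absurd h h', fun _ _ =>
    inf_le_right.trans (le_SpV _ _)⟩

/-- a bound for the elements of the members of a list -/
theorem exists_bound (t : L) : ∃ n : ℕ, ∀ u ∈ t, ∀ i ∈ u, i ≤ n := by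
  induction t with
  | nil => exact ⟨0, by simp⟩
  | cons v t ih =>
    obtain ⟨n, hn⟩ := ih
    refine ⟨max n (v.sup id), ?_⟩
    intro u hu i hi
    rcases List.mem_cons.1 hu with rfl | hu
    · exact (Finset.le_sup (f := id) hi).trans (le_max_right _ _)
    · exact (hn u hu i hi).trans (le_max_left _ _)

theorem Blist_append {t : L} {u : Finset ℕ} (ht : Blist t) (hu : Gt t u) : Blist (t ++ [u]) := by
  constructor
  · intro v hv
    rcases List.mem_append.1 hv with hv | hv
    · exact ht.1 v hv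
    · rw [List.mem_singleton.1 hv]; exact hu.1
  · rw [List.pairwise_append]
    refine ⟨ht.2, List.pairwise_singleton _ _, ?_⟩
    intro a ha b hb
    rw [List.mem_singleton.1 hb]
    exact hu.2 a ha

theorem not_mem_of_Gt {t : L} {u : Finset ℕ} (hu : Gt t u) : u ∉ t := by
  intro h
  obtain ⟨i, hi⟩ := hu.1
  exact lt_irrefl _ (hu.2 u h i hi i hi)

/-- every condition can be extended by a block of its own -/
theorem exists_block {E0 : Finset ℕ → A} (q : Cd A E0) :
    ∃ u, Gt q.s u ∧ q.p ⊓ q.E u ≠ ⊥ := by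
  obtain ⟨n, hn⟩ := exists_bound q.s
  by_contra hc
  push Not at hc
  apply q.hp
  have h1 : (⨆ (u : Finset ℕ) (_ : ∀ i ∈ u, n < i), q.E u) = ⊤ := by
    have h2 : BlkV q.E ≤ ⨆ (u : Finset ℕ) (_ : ∀ i ∈ u, n < i), q.E u :=
      inf_le_right.trans (iInf_le _ n)
    rw [q.hE] at h2
    exact top_le_iff.1 h2
  rw [← inf_top_eq (a := q.p), ← h1, inf_iSup₂_eq, eq_bot_iff]
  refine iSup₂_le fun u hu => ?_
  rcases Finset.eq_empty_or_nonempty u with rfl | hne
  · rw [BlkV_empty q.hE, inf_bot_eq]
  · rw [hc u ⟨hne, fun w hw i hi j hj => lt_of_le_of_lt (hn w hw i hi) (hu j hj)⟩]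

end PDE_

open PDE_

theorem pde_proof (hVMX : Stmt_VMX) (hNWT : Stmt_NWT) (hWPR : Stmt_WPR) : Stmt_PDE := by
  intro A _ E0 θ E hE hE0
  obtain ⟨E1, hE1, hE1E, hE1E0, hmax⟩ := hVMX A E0 θ.s 0 E
    (fun q hq q' hq' => θ.down hq hq') hE hE0
  obtain ⟨E', w, hE', hE'E1, hw, hwc⟩ := hNWT A (fun t => vV θ.s t E1) [] E1
    ⟨by simp, List.Pairwise.nil⟩ hE1
  have hE'E : LeV E' E = ⊤ := LeV_trans hE1 hE'E1 hE1E
  have hE'E0 : LeV E' E0 = ⊤ := LeV_trans hE1 hE'E1 hE1E0
  refine ⟨E', w, hE', hE'E, hE'E0, ?_, ?_⟩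
  · -- the value `w`
    let S : L → Set A := fun t => {a | ∀ q' : Cd A E0, t <+: q'.s → q'.p ≤ a →
      (∀ u ∈ q'.s, u ∉ t → q'.p ≤ SpV E' u) → (∀ u, Gt q'.s u → q'.p ⊓ q'.E u ≤ SpV E' u) →
      ∃ q'' ≤ q', q'' ∈ θ.s}
    have hX : ∀ t, sSup (S t) ∈ S t := by
      intro t q' h1 h2 h3 h4
      have h5 : ∃ a ∈ S t, q'.p ⊓ a ≠ ⊥ := by
        by_contra hc
        push Not at hc
        apply q'.hp
        rw [← inf_eq_left.2 h2, inf_sSup_eq, eq_bot_iff]
        exact iSup₂_le fun a ha => (hc a ha).le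
      obtain ⟨a, ha, hne⟩ := h5
      obtain ⟨q'', h6, h7⟩ := ha (rst q' a hne) h1 inf_le_right
        (fun u hu hut => inf_le_left.trans (h3 u hu hut))
        (fun u hu => (inf_le_inf_right _ inf_le_left).trans (h4 u hu))
      exact ⟨q'', h6.trans (rst_le q' a hne), h7⟩
    have hpre : ∀ t, (vV θ.s t E1) ⊔ (⨅ (u) (_ : Gt t u), (SpV E' u ⇨ sSup (S (t ++ [u])))) ≤
        sSup (S t) := by
      intro t
      refine sup_le ?_ ?_
      · unfold vV
        refine iSup₂_le fun q0 hq0 => le_sSup ?_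
        obtain ⟨hq0, rfl, hq0E⟩ := hq0
        intro q' h1 h2 h3 h4
        refine ⟨q', le_rfl, θ.down hq0 ⟨h2, h1, ?_, ?_⟩⟩
        · intro u hu hu'
          rw [hq0E]
          exact (h3 u hu hu').trans (SpV_le hE' hE'E1 u)
        · intro u hu
          rw [hq0E]
          exact (h4 u hu).trans (SpV_le hE' hE'E1 u)
      · refine le_sSup ?_
        intro q' h1 h2 h3 h4
        have h2' : ∀ u, Gt t u → q'.p ⊓ SpV E' u ≤ sSup (S (t ++ [u])) := by
          intro u hu
          rw [← le_himp_iff]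
          exact h2.trans (iInf₂_le u hu)
        by_cases ht : q'.s = t
        · -- extend by a block
          obtain ⟨u, hu, hne⟩ := exists_block q'
          rw [ht] at hu
          have hu' : Gt q'.s u := by rw [ht]; exact hu
          let q1 : Cd A E0 := ⟨q'.p ⊓ q'.E u, q'.s ++ [u], q'.E, hne, Blist_append q'.hs hu',
            q'.hE, q'.hE0, by
              intro v hv
              rcases List.mem_append.1 hv with hv | hv
              · exact inf_le_left.trans (q'.hs0 v hv)
              · rw [List.mem_singleton.1 hv]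
                exact inf_le_right.trans (LeV_iff.1 q'.hE0 u)⟩
          have hq1 : q1 ≤ q' := by
            refine ⟨inf_le_left, List.prefix_append _ _, ?_, ?_⟩
            · intro v hv hv'
              rcases List.mem_append.1 hv with hv | hv
              · exact absurd hv hv'
              · rw [List.mem_singleton.1 hv]
                exact inf_le_right.trans (le_SpV _ _)
            · intro v _
              exact inf_le_right.trans (le_SpV _ _)
          obtain ⟨q'', h5, h6⟩ := hX (t ++ [u]) q1 (by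
              change t ++ [u] <+: q'.s ++ [u]
              rw [ht])
            ((le_inf inf_le_left (h4 u hu')).trans (h2' u hu))
            (by
              intro v hv hv'
              exfalso
              apply hv'
              change v ∈ q'.s ++ [u] at hv
              rwa [ht] at hv)
            (by
              intro v hv
              refine (inf_le_inf_right _ inf_le_left).trans (h4 v ?_)
              exact Gt.of_prefix (List.prefix_append _ _) hv)
          exact ⟨q'', h5.trans hq1, h6⟩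
        · obtain ⟨r, hr⟩ := h1
          cases r with
          | nil =>
            rw [List.append_nil] at hr
            exact absurd hr.symm ht
          | cons u r =>
            have hmem : u ∈ q'.s := by rw [← hr]; simp
            have hu : Gt t u := by
              refine ⟨q'.hs.1 u hmem, ?_⟩
              intro v hv
              have h5 := q'.hs.2
              rw [← hr, List.pairwise_append] at h5
              exact h5.2.2 v hv u (by simp)
            refine hX (t ++ [u]) q' ⟨r, by rw [← hr]; simp⟩ ?_ ?_ h4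
            · exact (le_inf le_rfl (h3 u hmem (not_mem_of_Gt hu))).trans (h2' u hu)
            · intro v hv hv'
              exact h3 v hv (fun h => hv' (List.mem_append_left _ h))
    have hwX : w ≤ sSup (S []) :=
      hw.trans ((hWPR A (fun t => vV θ.s t E1) E').2.1 (fun t => sSup (S t)) hpre [])
    intro q hqs hqE hqw
    apply θ.of_dense
    intro q' hq'
    refine hX [] q' (List.nil_prefix) ((hq'.1.trans hqw).trans hwX) ?_ ?_
    · intro u hu _
      have := hq'.2.2.1 u hu (by rw [hqs]; simp)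
      rwa [hqE] at this
    · intro u hu
      have := hq'.2.2.2 u hu
      rwa [hqE] at this
  · -- the value `wᶜ`
    intro q hqs hqE hqw
    rw [RO.mem_compl]
    intro q' hq' hθ
    have h1 : ∀ u ∈ q'.s, q'.p ≤ SpV E' u := by
      intro u hu
      have := hq'.2.2.1 u hu (by rw [hqs]; simp)
      rwa [hqE] at this
    have h2 : ∀ u, Gt q'.s u → q'.p ⊓ q'.E u ≤ SpV E1 u := by
      intro u hu
      have := hq'.2.2.2 u hu
      rw [hqE] at this
      exact this.trans (SpV_le hE' hE'E1 u)
    have h3 : q'.p ≤ kapV 0 q'.s E1 := by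
      unfold kapV
      refine le_iInf₂ fun u hu => le_iInf₂ fun m hm => ?_
      exact ((h1 u hu).trans (SpV_le hE' hE'E1 u)).trans (SpV_le_hitV E1 u m hm.1)
    have h4 := hmax q'.s q'.hs q'.p q'.E h3 q'.hE q'.hE0 h2
    have h5 : q'.p ≤ vV θ.s q'.s q'.E :=
      le_iSup₂_of_le (f := fun (q : Cd A E0) (_ : q ∈ θ.s ∧ q.s = q'.s ∧ q.E = q'.E) => q.p)
        q' ⟨hθ, rfl, rfl⟩ le_rfl
    have h6 : q'.p ≤ vV θ.s q'.s E1 := (le_inf le_rfl h5).trans h4
    have h7 := hwc q'.s (by simpa using q'.hs)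
    apply q'.hp
    rw [eq_bot_iff, ← h7]
    refine le_inf (le_inf (hq'.1.trans hqw) (le_iInf₂ h1)) ?_
    simpa using h6

end Pool.Agent.CFZ
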