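import Mathlib

/-!
Squad CFZ: the complete Boolean algebra of regular open sets of a preorder, complete
homomorphisms, and the two ways of constructing them.
-/

set_option autoImplicit false

namespace Pool.Agent.CFZ

/-! ### Complete homomorphisms -/

/-- complete homomorphisms of complete Boolean algebras -/
@[ext]
structure CHom (A B : Type) [CompleteBooleanAlgebra A] [CompleteBooleanAlgebra B] where
  f : A → B
  map_sSup' : ∀ s : Set A, f (sSup s) = sSup (f '' s)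
  map_compl' : ∀ x : A, f xᶜ = (f x)ᶜ

namespace CHom

variable {A B D : Type} [CompleteBooleanAlgebra A] [CompleteBooleanAlgebra B]
  [CompleteBooleanAlgebra D]

instance : CoeFun (CHom A B) (fun _ => A → B) := ⟨CHom.f⟩

variable (h : CHom A B)

theorem map_sSup (s : Set A) : h (sSup s) = sSup (h '' s) := h.map_sSup' s

@[simp] theorem map_iSup {ι : Sort*} (x : ι → A) : h (⨆ i, x i) = ⨆ i, h (x i) := by
  rw [iSup, map_sSup, ← Set.range_comp]; rfl

@[simp] theorem map_compl (x : A) : h xᶜ = (h x)ᶜ := h.map_compl' x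

@[simp] theorem map_bot : h ⊥ = ⊥ := by
  have := h.map_sSup ∅; simpa using this

@[simp] theorem map_top : h ⊤ = ⊤ := by
  rw [← compl_bot, map_compl, map_bot, compl_bot]

@[simp] theorem map_sup (x y : A) : h (x ⊔ y) = h x ⊔ h y := by
  rw [← sSup_pair, map_sSup, Set.image_pair, sSup_pair]

@[simp] theorem map_inf (x y : A) : h (x ⊓ y) = h x ⊓ h y := by
  have : x ⊓ y = (xᶜ ⊔ yᶜ)ᶜ := by simp
  rw [this, map_compl, map_sup, map_compl, map_compl]; simp

@[simp] theorem map_iInf {ι : Sort*} (x : ι → A) : h (⨅ i, x i) = ⨅ i, h (x i) := by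
  have : (⨅ i, x i) = (⨆ i, (x i)ᶜ)ᶜ := by simp [compl_iSup]
  rw [this, map_compl, map_iSup, compl_iSup]; simp

@[simp] theorem map_himp (x y : A) : h (x ⇨ y) = (h x ⇨ h y) := by
  rw [himp_eq, himp_eq]; simp

theorem mono {x y : A} (hxy : x ≤ y) : h x ≤ h y := by
  have : h (x ⊔ y) = h y := by rw [sup_eq_right.2 hxy]
  rw [map_sup] at this
  exact sup_eq_right.1 this

/-- identity -/
def id (A : Type) [CompleteBooleanAlgebra A] : CHom A A := ⟨fun x => x, by simp, by simp⟩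

/-- composition, first `h`, then `k` -/
def comp (h : CHom A B) (k : CHom B D) : CHom A D :=
  ⟨fun x => k (h x), by intro s; rw [map_sSup, map_sSup, Set.image_image], by simp⟩

@[simp] theorem id_apply (x : A) : CHom.id A x = x := rfl
@[simp] theorem comp_apply (h : CHom A B) (k : CHom B D) (x : A) : h.comp k x = k (h x) := rfl

end CHom

/-! ### Regular open sets -/

/-- regular open subsets of a preorder -/
def IsRO {P : Type} [Preorder P] (U : Set P) : Prop := ∀ p, p ∈ U ↔ ∀ q ≤ p, ∃ r ≤ q, r ∈ U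

/-- the algebra of regular open subsets -/
@[ext]
structure RO (P : Type) [Preorder P] where
  s : Set P
  ro : IsRO s

namespace RO

variable {P : Type} [Preorder P]

theorem down (U : RO P) {p q : P} (hp : p ∈ U.s) (hq : q ≤ p) : q ∈ U.s := by
  rw [U.ro q]
  intro r hr
  exact (U.ro p).1 hp r (hr.trans hq)

theorem of_dense (U : RO P) {p : P} (h : ∀ q ≤ p, ∃ r ≤ q, r ∈ U.s) : p ∈ U.s := (U.ro p).2 h

/-- the regular open set generated by `S` -/
def cl (S : Set P) : RO P := ⟨{p | ∀ q ≤ p, ∃ r ≤ q, ∃ s ∈ S, r ≤ s}, by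
  intro p
  constructor
  · intro hp q hq
    obtain ⟨r, hr, s, hs, hrs⟩ := hp q hq
    exact ⟨r, hr, fun t ht => ⟨t, le_rfl, s, hs, ht.trans hrs⟩⟩
  · intro hp q hq
    obtain ⟨r, hr, h1⟩ := hp q hq
    obtain ⟨t, ht, s, hs, hts⟩ := h1 r le_rfl
    exact ⟨t, ht.trans hr, s, hs, hts⟩⟩

theorem mem_cl {S : Set P} {p : P} : p ∈ (cl S).s ↔ ∀ q ≤ p, ∃ r ≤ q, ∃ s ∈ S, r ≤ s := Iff.rfl

theorem subset_cl (S : Set P) : S ⊆ (cl S).s := fun p hp q hq => ⟨q, le_rfl, p, hp, hq⟩

theorem cl_subset {S : Set P} {U : RO P} (h : S ⊆ U.s) : (cl S).s ⊆ U.s := by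
  intro p hp
  apply U.of_dense
  intro q hq
  obtain ⟨r, hr, s, hs, hrs⟩ := hp q hq
  exact ⟨r, hr, U.down (h hs) hrs⟩

instance : LE (RO P) := ⟨fun U V => U.s ⊆ V.s⟩

theorem le_def {U V : RO P} : U ≤ V ↔ U.s ⊆ V.s := Iff.rfl

instance : PartialOrder (RO P) where
  le_refl U := fun _ h => h
  le_trans U V W h1 h2 := fun _ h => h2 (h1 h)
  le_antisymm U V h1 h2 := RO.ext (Set.Subset.antisymm h1 h2)

/-- intersections -/
def inter (S : Set (RO P)) : RO P := ⟨{p | ∀ U ∈ S, p ∈ U.s}, by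
  intro p
  constructor
  · intro hp q hq
    exact ⟨q, le_rfl, fun U hU => U.down (hp U hU) hq⟩
  · intro hp U hU
    apply U.of_dense
    intro q hq
    obtain ⟨r, hr, h⟩ := hp q hq
    exact ⟨r, hr, h U hU⟩⟩

/-- complements -/
def neg (U : RO P) : RO P := ⟨{p | ∀ q ≤ p, q ∉ U.s}, by
  intro p
  constructor
  · intro hp q hq
    exact ⟨q, le_rfl, fun r hr => hp r (hr.trans hq)⟩
  · intro hp q hq hqU
    obtain ⟨r, hr, h⟩ := hp q hq
    exact h r le_rfl (U.down hqU hr)⟩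

instance : CompleteLattice (RO P) where
  sup U V := cl (U.s ∪ V.s)
  le_sup_left U V := Set.subset_union_left.trans (subset_cl _)
  le_sup_right U V := Set.subset_union_right.trans (subset_cl _)
  sup_le U V W h1 h2 := cl_subset (Set.union_subset h1 h2)
  inf U V := inter {U, V}
  inf_le_left U V := fun p hp => hp U (by simp)
  inf_le_right U V := fun p hp => hp V (by simp)
  le_inf U V W h1 h2 := by
    intro p hp X hX
    rcases hX with rfl | hX
    · exact h1 hp
    · rw [Set.mem_singleton_iff.1 hX]; exact h2 hp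
  sSup S := cl (⋃ U ∈ S, U.s)
  isLUB_sSup S := by
    constructor
    · intro U hU p hp
      exact subset_cl _ (Set.mem_biUnion hU hp)
    · intro V hV
      exact cl_subset (Set.iUnion₂_subset fun U hU => hV hU)
  sInf S := inter S
  isGLB_sInf S := by
    constructor
    · intro U hU p hp
      exact hp U hU
    · intro V hV p hp U hU
      exact hV hU hp
  top := ⟨Set.univ, fun p => ⟨fun _ q _ => ⟨q, le_rfl, trivial⟩, fun _ => trivial⟩⟩
  le_top U := fun _ _ => trivial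
  bot := ⟨∅, fun p => ⟨fun h => h.elim, fun h => by
    obtain ⟨r, -, hr⟩ := h p le_rfl; exact hr.elim⟩⟩
  bot_le U := fun _ h => h.elim

theorem mem_sSup {S : Set (RO P)} {p : P} :
    p ∈ (sSup S).s ↔ ∀ q ≤ p, ∃ r ≤ q, ∃ U ∈ S, r ∈ U.s := by
  constructor
  · intro hp q hq
    obtain ⟨r, hr, s, hs, hrs⟩ := hp q hq
    simp only [Set.mem_iUnion] at hs
    obtain ⟨U, hU, hsU⟩ := hs
    exact ⟨r, hr, U, hU, U.down hsU hrs⟩
  · intro hp q hq
    obtain ⟨r, hr, U, hU, h⟩ := hp q hq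
    exact ⟨r, hr, r, Set.mem_biUnion hU h, le_rfl⟩

theorem mem_inf {U V : RO P} {p : P} : p ∈ (U ⊓ V).s ↔ p ∈ U.s ∧ p ∈ V.s :=
  ⟨fun h => ⟨h U (by simp), h V (by simp)⟩, fun h X hX => by
    rcases hX with rfl | hX
    · exact h.1
    · rw [Set.mem_singleton_iff.1 hX]; exact h.2⟩

theorem mem_sup {U V : RO P} {p : P} : p ∈ (U ⊔ V).s ↔ ∀ q ≤ p, ∃ r ≤ q, r ∈ U.s ∨ r ∈ V.s := by
  constructor
  · intro hp q hq
    obtain ⟨r, hr, s, hs, hrs⟩ := hp q hq
    refine ⟨r, hr, ?_⟩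
    rcases hs with hs | hs
    · exact Or.inl (U.down hs hrs)
    · exact Or.inr (V.down hs hrs)
  · intro hp q hq
    obtain ⟨r, hr, h⟩ := hp q hq
    exact ⟨r, hr, r, h, le_rfl⟩

theorem mem_sInf {S : Set (RO P)} {p : P} : p ∈ (sInf S).s ↔ ∀ U ∈ S, p ∈ U.s := Iff.rfl

theorem mem_top {p : P} : p ∈ (⊤ : RO P).s := trivial

theorem not_mem_bot {p : P} : p ∉ (⊥ : RO P).s := fun h => h

instance : CompleteBooleanAlgebra (RO P) where
  compl := neg
  le_sup_inf U V W := by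
    intro p hp
    rw [mem_inf] at hp
    rw [mem_sup]
    intro q hq
    obtain ⟨r, hr, h1⟩ := mem_sup.1 hp.1 q hq
    rcases h1 with h1 | h1
    · exact ⟨r, hr, Or.inl h1⟩
    · obtain ⟨t, ht, h2⟩ := mem_sup.1 hp.2 r (hr.trans hq)
      rcases h2 with h2 | h2
      · exact ⟨t, ht.trans hr, Or.inl h2⟩
      · exact ⟨t, ht.trans hr, Or.inr (mem_inf.2 ⟨V.down h1 ht, h2⟩)⟩
  inf_compl_le_bot U := by
    intro p hp
    exact (mem_inf.1 hp).2 p le_rfl (mem_inf.1 hp).1
  top_le_sup_compl U := by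
    intro p _
    rw [mem_sup]
    intro q _
    by_cases h : ∃ r ≤ q, r ∈ U.s
    · obtain ⟨r, hr, h⟩ := h
      exact ⟨r, hr, Or.inl h⟩
    · push Not at h
      exact ⟨q, le_rfl, Or.inr h⟩

theorem mem_compl {U : RO P} {p : P} : p ∈ (Uᶜ).s ↔ ∀ q ≤ p, q ∉ U.s := Iff.rfl

instance [Nonempty P] : Nontrivial (RO P) :=
  ⟨⟨⊥, ⊤, fun h => by
    obtain ⟨p⟩ := ‹Nonempty P›
    have : p ∈ (⊥ : RO P).s := by rw [h]; trivial
    exact this⟩⟩

/-- the regular open set generated by one point -/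
def pt (p : P) : RO P := cl {p}

theorem mem_pt {p q : P} : q ∈ (pt p).s ↔ ∀ r ≤ q, ∃ t ≤ r, t ≤ p := by
  simp [pt, mem_cl]

theorem pt_le {p : P} {U : RO P} : pt p ≤ U ↔ p ∈ U.s :=
  ⟨fun h => h (subset_cl _ rfl), fun h => cl_subset (by simpa using h)⟩

theorem mem_pt_self (p : P) : p ∈ (pt p).s := subset_cl _ rfl

theorem pt_ne_bot (p : P) : pt p ≠ ⊥ := by
  intro h
  have := mem_pt_self p
  rw [h] at this
  exact this

theorem exists_of_ne_bot {U : RO P} (h : U ≠ ⊥) : ∃ p, p ∈ U.s := by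
  by_contra hc
  push Not at hc
  exact h (RO.ext (by ext p; simp [hc p]; exact not_mem_bot))

end RO

end Pool.Agent.CFZ
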