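import Pool.Agent.CFZ.Mil
import Pool.Agent.CFZ.Nam

/-!
Squad CFZ: reals and trees with values in a complete Boolean algebra; predicates at stages;
nice names.
-/

set_option autoImplicit false

namespace Pool.Agent.CFZ

open CategoryTheory

section

variable {A : Type} [CompleteBooleanAlgebra A]

/-- value of: `x` is a function -/
def RealV (x : ℕ → ℕ → A) : A :=
  (⨅ n, ⨆ m, x n m) ⊓ ⨅ (n) (m) (m') (_ : m ≠ m'), (x n m ⊓ x n m')ᶜ

/-- value of: `t` is an initial segment of `x` -/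
def BrV (x : ℕ → ℕ → A) (t : List ℕ) : A := ⨅ i : Fin t.length, x i (t.get i)

/-- value of: `x` is a branch of `S` -/
def InTV (x : ℕ → ℕ → A) (S : List ℕ → A) : A := ⨅ t, (BrV x t ⇨ S t)

/-- value of: `S` is a Miller tree -/
def MilV (S : List ℕ → A) : A :=
  S [] ⊓ (⨅ (s : List ℕ) (k : ℕ), (S (s ++ [k]) ⇨ S s)) ⊓
  ⨅ s, (S s ⇨ ⨆ (t) (_ : s <+: t), (S t ⊓ ⨅ n : ℕ, ⨆ (k) (_ : n < k), S (t ++ [k])))

/-- value of: `σ` is a function from finite sets of numbers to nodes of `T`; for `n < n'` beyond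
`u` the nodes `σ (u ∪ {n})` and `σ (u ∪ {n'})` extend `σ u ⌢ k` and `σ u ⌢ k'` for some
`k < k'` -/
def ParV (T : List ℕ → A) (σ : Finset ℕ → List ℕ → A) : A :=
  (⨅ u, ⨆ t, σ u t) ⊓ (⨅ (u) (t) (t') (_ : t ≠ t'), (σ u t ⊓ σ u t')ᶜ) ⊓
  (⨅ (u) (t), (σ u t ⇨ T t)) ⊓
  ⨅ (u : Finset ℕ) (n : ℕ) (n' : ℕ) (_ : (∀ i ∈ u, i < n) ∧ n < n'),
    ⨆ (t : List ℕ) (s : List ℕ) (s' : List ℕ) (k : ℕ) (k' : ℕ)
      (_ : k < k' ∧ (t ++ [k]) <+: s ∧ (t ++ [k']) <+: s'),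
      (σ u t ⊓ σ (insert n u) s ⊓ σ (insert n' u) s')

/-- value of: the intersection of `y` with `{0, ..., n-1}` is `u` -/
def IniS (y : ℕ → A) (n : ℕ) (u : Finset ℕ) : A :=
  (⨅ (i) (_ : i < n ∧ i ∈ u), y i) ⊓ ⨅ (i) (_ : i < n ∧ i ∉ u), (y i)ᶜ

/-- value of: `x` is the union of the nodes `σ (y ∩ {0, ..., n-1})` -/
def ThV (σ : Finset ℕ → List ℕ → A) (y : ℕ → A) (x : ℕ → ℕ → A) : A :=
  ⨅ (n : ℕ) (u : Finset ℕ) (_ : ∀ i ∈ u, i < n) (t : List ℕ), ((IniS y n u ⊓ σ u t) ⇨ BrV x t)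

/-- the members of the sequence with even index -/
def REv (F : ℕ → Finset ℕ → A) (u : Finset ℕ) : A := ⨆ n, F (2 * n) u

/-- the subtree of all initial segments of nodes `σ u`, `u` empty or a finite union of members of
`F` with even index -/
def STV (σ : Finset ℕ → List ℕ → A) (F : ℕ → Finset ℕ → A) (t : List ℕ) : A :=
  ⨆ (u : Finset ℕ) (t' : List ℕ) (_ : t <+: t'), ((SpV (REv F) u ⊔ ⨆ (_ : u = ∅), ⊤) ⊓ σ u t')

/-- value of: `J` is an infinite set of even numbers -/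
def EvV (J : ℕ → A) : A := InfV J ⊓ ⨅ n, (J (2 * n + 1))ᶜ

end

/-! ### Predicates at the extensions of a stage -/

/-- persistent regular predicates at the extensions of a stage -/
structure FP (c : Ob) where
  p : (d : Ob) → (c ⟶ d) → Prop
  mono : ∀ (d e : Ob) (h : c ⟶ d) (k : d ⟶ e), p d h → p e (h ≫ k)
  reg : ∀ (d : Ob) (h : c ⟶ d), (∀ (e : Ob) (k : d ⟶ e), ∃ (e' : Ob) (l : e ⟶ e'),
    p e' (h ≫ k ≫ l)) → p d h

/-- persistent regular predicates of `A`-valued subsets of `K` -/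
structure NP (c : Ob) (K : Type) where
  p : (d : Ob) → (c ⟶ d) → (K → d.A) → Prop
  mono : ∀ (d e : Ob) (h : c ⟶ d) (k : d ⟶ e) (y : K → d.A), p d h y →
    p e (h ≫ k) (fun i => k.h (y i))
  reg : ∀ (d : Ob) (h : c ⟶ d) (y : K → d.A), (∀ (e : Ob) (k : d ⟶ e),
    ∃ (e' : Ob) (l : e ⟶ e'), p e' (h ≫ k ≫ l) (fun i => (k ≫ l).h (y i))) → p d h y

/-- the homomorphism of an arrow is injective -/
def Inj {c d : Ob} (h : c ⟶ d) : Prop := ∀ x, h.h x = ⊥ → x = ⊥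

/-- the stage of the algebra `RO (Cd c.A (E0of c.a))` -/
abbrev KA (c : Ob) : Type := RO (Cd c.A (E0of c.a))

/-- the stage of Milliken forcing over `c` -/
def Kob (c : Ob) (hn : Nontrivial (KA c)) (hi : InfV (bV (FN (E0of c.a))) = ⊤) : Ob :=
  @Ob.mk (KA c) inferInstance hn (bV (FN (E0of c.a))) hi

/-! ### Nice names over the category of stages -/

/-- `X` names the function `x` -/
def IsRl {c : Ob} (X : LN c) (x : ℕ → ℕ → c.A) : Prop :=
  IsSet X (fun d (i : ℕ × ℕ) => opN (natN d i.1) (natN d i.2)) (fun i _ h => h.h (x i.1 i.2) = ⊤)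

/-- `X` names the set `S` of finite sequences -/
def IsTr {c : Ob} (X : LN c) (S : List ℕ → c.A) : Prop :=
  IsSet X (fun d (s : List ℕ) => seqN d s) (fun s _ h => h.h (S s) = ⊤)

/-! ### Forced properties over any category -/

variable {C : Type 1} [Category.{0} C]

/-- `f` is forced to be a function from `X` to `Y` -/
def FFun {c : C} (f X Y : LN c) : Prop :=
  (∀ (d : C) (h : c ⟶ d) (p : LN d), p.memf (f.r h) → Dns (c := d) fun e k => ∃ a b : LN e,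
    a.memf (X.r (h ≫ k)) ∧ b.memf (Y.r (h ≫ k)) ∧ (p.r k).eqf (opN a b)) ∧
  (∀ (d : C) (h : c ⟶ d) (a : LN d), a.memf (X.r h) → Dns (c := d) fun e k => ∃ b : LN e,
    b.memf (Y.r (h ≫ k)) ∧ (opN (a.r k) b).memf (f.r (h ≫ k))) ∧
  ∀ (d : C) (h : c ⟶ d) (a b b' : LN d), a.memf (X.r h) → (opN a b).memf (f.r h) →
    (opN a b').memf (f.r h) → b.eqf b'

/-- `T` is forced to be a Miller tree -/
def FMil {c : C} (T : LN c) : Prop :=
  (∀ (d : C) (h : c ⟶ d) (z : LN d), z.memf (T.r h) → Dns (c := d) fun e k =>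
    ∃ s : List ℕ, (z.r k).eqf (seqN e s)) ∧
  (∀ (d : C) (h : c ⟶ d) (s t : List ℕ), t <+: s → (seqN d s).memf (T.r h) →
    (seqN d t).memf (T.r h)) ∧
  (Dns (c := c) fun e k => ∃ s : List ℕ, (seqN e s).memf (T.r k)) ∧
  ∀ (d : C) (h : c ⟶ d) (s : List ℕ), (seqN d s).memf (T.r h) → Dns (c := d) fun e k =>
    ∃ t : List ℕ, s <+: t ∧ (seqN e t).memf (T.r (h ≫ k)) ∧
      ∀ n : ℕ, Dns (c := e) fun e' l => ∃ m : ℕ, n < m ∧
        (seqN e' (t ++ [m])).memf (T.r (h ≫ k ≫ l))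

end Pool.Agent.CFZ
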